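import Pool.Agent.NPC.Dec
import Pool.Agent.H687R2.IntPoly

/-!
# Greatest common divisors, and decoding of rational numbers
-/

namespace Pool.Agent.NPC.H670R2

open Pool.Agent.NPC

/-- one step of Euclid's algorithm -/
def gstep (p : ℕ × ℕ) : ℕ × ℕ := if p.1 = 0 then p else (p.2 % p.1, p.1)

theorem gstep_gcd (p : ℕ × ℕ) : Nat.gcd (gstep p).1 (gstep p).2 = Nat.gcd p.1 p.2 := by
  unfold gstep
  split_ifs with h
  · rfl
  · exact (Nat.gcd_rec _ _).symm

theorem gstep_iter_gcd (p : ℕ × ℕ) (k : ℕ) :
    Nat.gcd (gstep^[k] p).1 (gstep^[k] p).2 = Nat.gcd p.1 p.2 := by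
  induction k with
  | zero => rfl
  | succ k ih => rw [Function.iterate_succ_apply', gstep_gcd, ih]

theorem gstep_iter_le (p : ℕ × ℕ) (B : ℕ) (h1 : p.1 ≤ B) (h2 : p.2 ≤ B) (k : ℕ) :
    (gstep^[k] p).1 ≤ B ∧ (gstep^[k] p).2 ≤ B := by
  induction k with
  | zero => exact ⟨h1, h2⟩
  | succ k ih =>
      rw [Function.iterate_succ_apply']
      unfold gstep
      split_ifs with h
      · exact ih
      · exact ⟨(Nat.mod_lt _ (Nat.pos_of_ne_zero h)).le.trans ih.1, ih.1⟩

theorem gstep_zero (b k : ℕ) : gstep^[k] (0, b) = (0, b) := by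
  induction k with
  | zero => rfl
  | succ k ih => rw [Function.iterate_succ_apply, gstep]; exact ih

theorem gstep_conv (k : ℕ) : ∀ a b : ℕ, a < 2 ^ k → (gstep^[2 * k] (a, b)).1 = 0 := by
  induction k with
  | zero =>
      intro a b h
      simp at h
      simp [h]
  | succ k ih =>
      intro a b h
      rw [show 2 * (k + 1) = 2 * k + 1 + 1 by ring, Function.iterate_succ_apply,
        Function.iterate_succ_apply]
      by_cases h0 : a = 0
      · subst h0
        have e1 : gstep (0, b) = (0, b) := rfl
        rw [e1, e1, gstep_zero]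
      · have e1 : gstep (a, b) = (b % a, a) := by simp [gstep, h0]
        rw [e1]
        by_cases h1 : b % a = 0
        · rw [h1]
          have e2 : gstep (0, a) = (0, a) := rfl
          rw [e2, gstep_zero]
        · have e2 : gstep (b % a, a) = (a % (b % a), b % a) := by simp [gstep, h1]
          rw [e2]
          apply ih
          have h2 := Nat.mod_lt b (Nat.pos_of_ne_zero h0)
          have h3 := Nat.mod_lt a (Nat.pos_of_ne_zero h1)
          have h4 : a % (b % a) + (b % a) ≤ a := by
            have h5 := Nat.mod_add_div a (b % a)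
            have h6 : 1 ≤ a / (b % a) := (Nat.one_le_div_iff (Nat.pos_of_ne_zero h1)).2 h2.le
            have h7 : b % a ≤ (b % a) * (a / (b % a)) := Nat.le_mul_of_pos_right _ h6
            omega
          rw [pow_succ] at h
          omega

theorem poly_gcd {α : Type} [TEnc α] {m n : α → ℕ} (hm : Poly m) (hn : Poly n) :
    Poly (fun a => Nat.gcd (m a) (n a)) := by
  obtain ⟨q, hq⟩ := (Poly.add hm hn).sz_le
  have hbits : Poly (fun a => (m a).bits ++ (m a).bits) :=
    Poly.append (Poly.natBits hm) (Poly.natBits hm)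
  have h1 : Poly (fun a => gstep^[((m a).bits ++ (m a).bits).length] (m a, n a)) := by
    refine Poly.iterLen (s := fun a => (m a, n a)) (F := fun _ s => gstep s) hbits
      (Poly.pair hm hn) ?_ (Polynomial.C 4 * q + Polynomial.C 1) ?_
    · unfold gstep
      exact Poly.ite (p := fun p : α × (ℕ × ℕ) => p.2.1 = 0)
        (Poly.decide_eq (Poly.fst (Poly.snd Poly.id)) (Poly.const _)) (Poly.snd Poly.id)
        (Poly.pair (Poly.mod (Poly.snd (Poly.snd Poly.id)) (Poly.fst (Poly.snd Poly.id)))
          (Poly.fst (Poly.snd Poly.id)))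
    · intro a k hk
      change sz (gstep^[k] (m a, n a)) ≤ _
      obtain ⟨h2, h3⟩ := gstep_iter_le (m a, n a) (m a + n a) (Nat.le_add_right _ _)
        (Nat.le_add_left _ _) k
      have h4 := sz_nat_mono_le h2
      have h5 := sz_nat_mono_le h3
      have h6 := hq a
      have h7 : sz (gstep^[k] (m a, n a)) = sz (gstep^[k] (m a, n a)).1 +
        sz (gstep^[k] (m a, n a)).2 + 1 := sz_pair _ _
      simp only [Polynomial.eval_add, Polynomial.eval_mul, Polynomial.eval_C]
      omega
  refine (Poly.snd h1).congr fun a => ?_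
  have h2 : m a < 2 ^ (m a).bits.length := by
    have := Nat.lt_size_self (m a)
    rwa [Nat.size_eq_bits_len] at *
  have h3 := gstep_conv _ (m a) (n a) h2
  have h4 : ((m a).bits ++ (m a).bits).length = 2 * (m a).bits.length := by
    rw [List.length_append]; ring
  have h5 := gstep_iter_gcd (m a, n a) (2 * (m a).bits.length)
  rw [h3, Nat.gcd_zero_left] at h5
  rw [h4, h5]

theorem poly_num {α : Type} [TEnc α] {f : α → ℚ} (hf : Poly f) : Poly (fun a => (f a).num) := by
  have h : Poly (fun a => (((f a).num, (f a).den) : ℤ × ℕ)) := hf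
  exact Poly.fst h

theorem poly_den {α : Type} [TEnc α] {f : α → ℚ} (hf : Poly f) : Poly (fun a => (f a).den) := by
  have h : Poly (fun a => (((f a).num, (f a).den) : ℤ × ℕ)) := hf
  exact Poly.snd h

instance : TDec ℚ :=
  TDec.of (β := ℤ × ℕ) (fun q => (q.num, q.den))
    (fun p => if 0 < p.2 ∧ Nat.gcd p.1.natAbs p.2 = 1 then some ((p.1 : ℚ) / p.2) else none)
    (fun _ => rfl)
    (fun q => by
      have h := q.reduced
      rw [Nat.Coprime] at h
      simp only [q.pos, h, and_self, if_true]
      rw [Rat.num_div_den])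
    (by
      rintro ⟨n, d⟩ q h
      simp only [Option.ite_none_right_eq_some, Option.some.injEq] at h
      obtain ⟨⟨h1, h2⟩, rfl⟩ := h
      have e1 : ((n : ℚ) / d).num = n := by
        have := Rat.num_div_eq_of_coprime (a := n) (b := d) (by exact_mod_cast h1) (by simpa using h2)
        simpa using this
      have e2 : ((n : ℚ) / d).den = d := by
        have := Rat.den_div_eq_of_coprime (a := n) (b := d) (by exact_mod_cast h1) (by simpa using h2)
        exact_mod_cast this
      rw [e1, e2])
    (by
      have h1 : Poly (fun p : ℤ × ℕ => if 0 < p.2 ∧ Nat.gcd p.1.natAbs p.2 = 1 then some p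
          else none) :=
        Poly.ite (Poly.decide_and (Poly.decide_lt (Poly.const _) (Poly.snd Poly.id))
          (Poly.decide_eq (poly_gcd (Poly.natAbs (Poly.fst Poly.id)) (Poly.snd Poly.id))
            (Poly.const _))) (Poly.some Poly.id) (Poly.const _)
      refine Poly.of_toT (h1.toT'.congr fun p => ?_)
      obtain ⟨n, d⟩ := p
      by_cases h : 0 < d ∧ Nat.gcd n.natAbs d = 1
      · simp only [h, and_self, if_true, toT_some]
        obtain ⟨h1, h2⟩ := h
        have e1 : ((n : ℚ) / d).num = n := by
          have := Rat.num_div_eq_of_coprime (a := n) (b := d) (by exact_mod_cast h1) (by simpa using h2)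
          simpa using this
        have e2 : ((n : ℚ) / d).den = d := by
          have := Rat.den_div_eq_of_coprime (a := n) (b := d) (by exact_mod_cast h1) (by simpa using h2)
          exact_mod_cast this
        change _ = T.node (toT (((n : ℚ) / d).num, ((n : ℚ) / d).den)) T.nil
        rw [e1, e2]
      · simp only [h, if_false]
        rfl)

end Pool.Agent.NPC.H670R2
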