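import Pool.Agent.NPC.Num

/-!
# Parsing bit strings in polynomial time

`parse w` reads the preorder code of a tree; the class `TDec` provides total decoding functions.
Together they show that the validity of a code and the decoded object are computable in polynomial
time from the raw bit string.
-/

namespace Pool.Agent.NPC.H670R2

open Pool.Agent.NPC

/-- Replace the two top elements of a stack by the node formed by them. -/
def pnode : List T → Option (List T)
  | [] => none
  | x :: l => match l with
    | [] => none
    | y :: r => some (T.node x y :: r)

/-- One step of the parser, which reads the string from right to left. -/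
def pst (b : Bool) (o : Option (List T)) : Option (List T) :=
  match o with
  | none => none
  | some st => if b = true then pnode st else some (T.nil :: st)

/-- The parser: the stack of trees obtained by reading the string from right to left. -/
def parse (x : List Bool) : Option (List T) := x.foldr pst (some [])

theorem parse_enc (t : T) : ∀ (st : List T), t.enc.foldr pst (some st) = some (t :: st) := by
  induction t with
  | nil => intro st; simp [T.enc, pst]
  | node l r ihl ihr =>
      intro st
      simp only [T.enc, List.foldr_cons, List.foldr_append]
      rw [ihr, ihl]
      simp [pst, pnode]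

theorem parse_flatten : ∀ (x : List Bool) (st : List T), parse x = some st →
    (st.map T.enc).flatten = x
  | [], st, h => by
      simp only [parse, List.foldr_nil, Option.some.injEq] at h
      subst h
      rfl
  | b :: x, st, h => by
      change pst b (parse x) = some st at h
      cases hp : parse x with
      | none => rw [hp] at h; simp [pst] at h
      | some s =>
          have ih := parse_flatten x s hp
          rw [hp] at h
          cases b with
          | false =>
              simp only [pst, Bool.false_eq_true, if_false, Option.some.injEq] at h
              subst h
              simp [T.enc, ih]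
          | true =>
              simp only [pst, if_true] at h
              match s, ih, h with
              | [], _, h => simp [pnode] at h
              | [a], _, h => simp [pnode] at h
              | a :: c :: r, ih, h =>
                  simp only [pnode, Option.some.injEq] at h
                  subst h
                  simp only [List.map_cons, List.flatten_cons] at ih ⊢
                  rw [← ih]
                  simp [T.enc]

/-- The tree coded by a bit string, if there is one. -/
def ptree (x : List Bool) : Option T :=
  match parse x with
  | none => none
  | some l => match l with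
    | [] => none
    | t :: r => match r with
      | [] => some t
      | _ :: _ => none

theorem ptree_enc (t : T) : ptree t.enc = some t := by
  have := parse_enc t []
  rw [ptree, parse, this]

theorem ptree_some {x : List Bool} {t : T} (h : ptree x = some t) : t.enc = x := by
  unfold ptree at h
  cases hp : parse x with
  | none => rw [hp] at h; simp at h
  | some l =>
      rw [hp] at h
      match l, hp, h with
      | [], _, h => simp at h
      | [s], hp, h =>
          simp only [Option.some.injEq] at h
          subst h
          have := parse_flatten x _ hp
          simpa using this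
      | _ :: _ :: _, _, h => simp at h

theorem size_flatten (st : List T) : sz st ≤ 2 * ((st.map T.enc).flatten).length + 1 := by
  induction st with
  | nil => simp
  | cons a l ih =>
      simp only [List.map_cons, List.flatten_cons, List.length_append]
      have h1 : sz a = a.enc.length := rfl
      have h2 : 0 < sz a := sz_pos a
      rw [sz_list_cons]
      omega

theorem parse_sz (x : List Bool) : sz (parse x) ≤ 2 * x.length + 3 := by
  cases hp : parse x with
  | none => simp
  | some st =>
      have := size_flatten st
      rw [parse_flatten x st hp] at this
      simp
      omega

theorem poly_pnode : Poly pnode := by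
  unfold pnode
  refine (Poly.listCases (l := fun a : List T => a) (g := fun _ => (none : Option (List T)))
    (h := fun _ x l => match l with | [] => none | y :: r => some (T.node x y :: r))
    Poly.id (Poly.const _) ?_).congr ?_
  · refine (Poly.listCases (l := fun p : List T × T × List T => p.2.2)
      (g := fun _ => (none : Option (List T)))
      (h := fun p y r => some (T.node p.2.1 y :: r)) (Poly.snd (Poly.snd Poly.id))
      (Poly.const _) ?_).congr ?_
    · refine Poly.some (Poly.cons (Poly.node ?_ ?_) ?_)
      · exact Poly.fst (Poly.snd (Poly.fst Poly.id))
      · exact Poly.fst (Poly.snd Poly.id)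
      · exact Poly.snd (Poly.snd Poly.id)
    · rintro ⟨_, _, _ | ⟨_, _⟩⟩ <;> rfl
  · rintro (_ | ⟨_, _⟩) <;> rfl

theorem poly_parse : Poly parse := by
  unfold parse
  refine Poly.foldr (l := fun x : List Bool => x) (s := fun _ => (some [] : Option (List T)))
    (F := fun _ b o => pst b o) Poly.id (Poly.const _) ?_
    (Polynomial.C 2 * Polynomial.X + Polynomial.C 3) ?_
  · unfold pst
    refine (Poly.optCases (o := fun p : List Bool × Bool × Option (List T) => p.2.2)
      (g := fun _ => (none : Option (List T)))
      (h := fun p st => if p.2.1 = true then pnode st else some (T.nil :: st))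
      (Poly.snd (Poly.snd Poly.id)) (Poly.const _) ?_).congr ?_
    · refine Poly.ite (p := fun q : (List Bool × Bool × Option (List T)) × List T =>
        q.1.2.1 = true) ?_ ?_ ?_
      · exact Poly.decide_bool (Poly.fst (Poly.snd (Poly.fst Poly.id)))
      · exact poly_pnode.comp (Poly.snd Poly.id)
      · exact Poly.some (Poly.cons (Poly.const _) (Poly.snd Poly.id))
    · rintro ⟨_, _, _ | _⟩ <;> rfl
  · intro a k hk
    refine (parse_sz (a.drop k)).trans ?_
    have h1 := sz_listBool_ge a
    have h2 : (a.drop k).length ≤ a.length := by simp
    simp only [Polynomial.eval_add, Polynomial.eval_mul, Polynomial.eval_C, Polynomial.eval_X]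
    omega

theorem poly_ptree : Poly ptree := by
  unfold ptree
  refine (Poly.optCases (o := fun x : List Bool => parse x) (g := fun _ => (none : Option T))
    (h := fun _ l => match l with
      | [] => none
      | t :: r => match r with
        | [] => some t
        | _ :: _ => none) poly_parse (Poly.const _) ?_).congr ?_
  · refine (Poly.listCases (l := fun p : List Bool × List T => p.2) (g := fun _ => (none : Option T))
      (h := fun _ t r => match r with
        | [] => some t
        | _ :: _ => none) (Poly.snd Poly.id) (Poly.const _) ?_).congr ?_
    · refine (Poly.listCases (l := fun p : (List Bool × List T) × T × List T => p.2.2)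
        (g := fun p => some p.2.1) (h := fun _ _ _ => (none : Option T))
        (Poly.snd (Poly.snd Poly.id)) (Poly.some (Poly.fst (Poly.snd Poly.id)))
        (Poly.const _)).congr ?_
      rintro ⟨_, _, _ | ⟨_, _⟩⟩ <;> rfl
    · rintro ⟨_, _ | ⟨_, _⟩⟩ <;> rfl
  · intro x
    cases parse x <;> rfl

/-! ### Total decoding functions -/

/-- The list of trees coded by a tree. -/
def unlist : T → List T
  | T.nil => []
  | T.node a b => a :: unlist b

theorem ofList_unlist (t : T) : T.ofList (unlist t) = t := by
  induction t with
  | nil => rfl
  | node a b _ ih => simp [unlist, T.ofList, ih]

theorem unlist_ofList (l : List T) : unlist (T.ofList l) = l := by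
  induction l with
  | nil => rfl
  | cons a l ih => simp [unlist, T.ofList, ih]

theorem toT_listT (l : List T) : toT l = T.ofList l := by
  change T.ofList (l.map toT) = T.ofList l
  congr 1
  induction l with
  | nil => rfl
  | cons a l ih => simp [ih]

theorem poly_unlist : Poly unlist := by
  refine Poly.of_toT (Poly.id.congr fun t => ?_)
  rw [toT_listT, ofList_unlist]

/-- Encodable types with a total polynomial-time decoding function. -/
class TDec (α : Type) [TEnc α] where
  /-- the decoding function -/
  ofT : T → α
  ofT_toT : ∀ a : α, ofT (toT a) = a
  poly : Poly ofT

export TDec (ofT)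

instance : TDec T := ⟨fun t => t, fun _ => rfl, Poly.id⟩

instance : TDec Unit := ⟨fun _ => (), fun _ => rfl, Poly.const _⟩

instance : TDec Bool := ⟨fun t => decide (t ≠ T.nil), fun b => by cases b <;> rfl,
  Poly.decide_not (Poly.decide_eq Poly.id (Poly.const _))⟩

instance {α β : Type} [TEnc α] [TEnc β] [TDec α] [TDec β] : TDec (α × β) :=
  ⟨fun t => (ofT t.hd, ofT t.tl), fun p => by
    obtain ⟨a, b⟩ := p
    simp [TDec.ofT_toT], Poly.pair (TDec.poly.comp (Poly.hd Poly.id))
      (TDec.poly.comp (Poly.tl Poly.id))⟩

instance {α : Type} [TEnc α] [TDec α] : TDec (Option α) :=
  ⟨fun t => if t = T.nil then none else some (ofT t.hd), fun o => by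
    cases o with
    | none => rfl
    | some a => simp [TDec.ofT_toT], by
    refine Poly.ite (p := fun t : T => t = T.nil) (Poly.decide_eq Poly.id (Poly.const _))
      (Poly.const _) (Poly.some (TDec.poly.comp (Poly.hd Poly.id)))⟩

instance {α : Type} [TEnc α] [TDec α] : TDec (List α) :=
  ⟨fun t => (unlist t).map ofT, fun l => by
    change (unlist (T.ofList (l.map toT))).map ofT = l
    rw [unlist_ofList, List.map_map]
    conv_rhs => rw [← List.map_id l]
    exact List.map_congr_left fun a _ => TDec.ofT_toT a,
    Poly.map (F := fun _ t => ofT t) poly_unlist (TDec.poly.comp (Poly.snd Poly.id))⟩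

instance : TDec ℕ :=
  ⟨fun t => valB (ofT t : List Bool), fun n => by
    rw [toT_nat, TDec.ofT_toT, valB_bits], Poly.valBits TDec.poly⟩

instance : TDec ℤ :=
  ⟨fun t => let p : Bool × ℕ := ofT t; if p.1 = true then - (p.2 : ℤ) else (p.2 : ℤ), fun n => by
    have h : toT n = toT (decide (n < 0), n.natAbs) := rfl
    rw [h, TDec.ofT_toT]
    by_cases hn : n < 0
    · simp only [hn, decide_true, if_true]
      omega
    · simp only [hn, decide_false, Bool.false_eq_true, if_false]
      omega, by
    have hint : Poly (fun p : Bool × ℕ => if p.1 = true then - (p.2 : ℤ) else (p.2 : ℤ)) := by
      refine Poly.of_toT ((Poly.toT' (f := fun p : Bool × ℕ =>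
        (p.1 && !decide (p.2 = 0), p.2)) ?_).congr ?_)
      · exact Poly.pair (Poly.and (Poly.fst Poly.id) (Poly.not
          (Poly.decide_eq (Poly.snd Poly.id) (Poly.const _)))) (Poly.snd Poly.id)
      · rintro ⟨b, n⟩
        change toT (b && !decide (n = 0), n) =
          toT (decide ((if b = true then - (n : ℤ) else (n : ℤ)) < 0),
            (if b = true then - (n : ℤ) else (n : ℤ)).natAbs)
        congr 1
        cases b
        · simp
        · simp [Nat.pos_iff_ne_zero]
    exact hint.comp TDec.poly⟩

/-- A bit string coding an element, decoded. -/
def decode (α : Type) [TEnc α] [TDec α] (x : List Bool) : Option α :=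
  match ptree x with
  | none => none
  | some t => if toT (ofT t : α) = t then some (ofT t) else none

theorem decode_bits {α : Type} [TEnc α] [TDec α] (a : α) : decode α (bits a) = some a := by
  unfold decode bits
  rw [ptree_enc]
  simp [TDec.ofT_toT]

theorem decode_some {α : Type} [TEnc α] [TDec α] {x : List Bool} {a : α}
    (h : decode α x = some a) : bits a = x := by
  unfold decode at h
  cases hp : ptree x with
  | none => rw [hp] at h; simp at h
  | some t =>
      rw [hp] at h
      simp only at h
      split_ifs at h with h1
      simp only [Option.some.injEq] at h
      rw [← h]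
      unfold bits
      rw [h1]
      exact ptree_some hp

theorem poly_decode {α : Type} [TEnc α] [TDec α] : Poly (decode α) := by
  unfold decode
  refine (Poly.optCases (o := fun x : List Bool => ptree x) (g := fun _ => (none : Option α))
    (h := fun _ t => if toT (ofT t : α) = t then some (ofT t) else none)
    poly_ptree (Poly.const _) ?_).congr ?_
  · refine Poly.ite (p := fun q : List Bool × T => toT (ofT q.2 : α) = q.2) ?_ ?_ (Poly.const _)
    · exact Poly.decide_eq (Poly.toT' (TDec.poly.comp (Poly.snd Poly.id))) (Poly.snd Poly.id)
    · exact Poly.some (TDec.poly.comp (Poly.snd Poly.id))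
  · intro x
    cases ptree x <;> rfl

/-- Every element of a language `lang P` is found by decoding. -/
theorem mem_lang_iff {α : Type} [TEnc α] [TDec α] {P : α → Prop} {x : List Bool} :
    x ∈ lang P ↔ ∃ a, decode α x = some a ∧ P a := by
  constructor
  · rintro ⟨a, rfl, h⟩
    exact ⟨a, decode_bits a, h⟩
  · rintro ⟨a, h, ha⟩
    exact ⟨a, decode_some h, ha⟩

/-- A function on raw bit strings which decodes its input and then applies a polynomial-time
function is computable in polynomial time. -/
theorem polyTime_decode {α β : Type} [TEnc α] [TDec α] [TEnc β] {F : Option α → β}
    (hF : Poly F) : PolyTime (fun x => bits (F (decode α x))) := by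
  have h1 : Poly (fun x : List Bool => F (decode α x)) := hF.comp poly_decode
  have h2 : PC (fun x : List Bool => x) (bits : β → List Bool) (fun x => F (decode α x)) :=
    PC.comp (g := fun x : List Bool => F (decode α x)) (eb := (bits : List Bool → List Bool))
      h1 PC.ofBits
  exact PC.toPolyTime h2

end Pool.Agent.NPC.H670R2
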