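import Pool.Agent.ER.Defs
import Pool.Agent.H670R2.Parse

/-!
# Membership in `∃ℝ`

Polynomial-time construction of formulas, and the membership criterion `InER.of_poly`.
-/

namespace Pool.Agent.NPC.H670R2

open Pool.Agent.NPC Pool.Agent.NPC.ER

theorem tm_toks_injective : Function.Injective Tm.toks := by
  intro φ ψ h
  have h1 := φ.parse []
  rw [h, ψ.parse] at h1
  simpa using h1.symm

/-- Terms are encoded by their reverse Polish notation. -/
instance : TEnc Tm := ⟨fun φ => toT φ.toks, fun _ _ h => tm_toks_injective (TEnc.inj h)⟩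

/-- The false formula `0 < 0`. -/
def ff : Fm := Fm.lt Tm.zero Tm.zero

/-- The true formula `0 = 0`. -/
def tt : Fm := Fm.eq Tm.zero Tm.zero

theorem holds_ff (x : ℕ → ℝ) : ¬ ff.Holds x := by simp [ff, Fm.Holds]

theorem holds_tt (x : ℕ → ℝ) : tt.Holds x := by simp [tt, Fm.Holds]

/-- Conjunction of a list of formulas. -/
def conj (l : List Fm) : Fm := l.foldr Fm.and tt

/-- Disjunction of a list of formulas. -/
def disj (l : List Fm) : Fm := l.foldr Fm.or ff

theorem holds_conj (x : ℕ → ℝ) (l : List Fm) : (conj l).Holds x ↔ ∀ φ ∈ l, φ.Holds x := by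
  induction l with
  | nil => simp [conj, holds_tt]
  | cons a l ih =>
      change (a.Holds x ∧ (conj l).Holds x) ↔ _
      rw [ih]
      simp

theorem holds_disj (x : ℕ → ℝ) (l : List Fm) : (disj l).Holds x ↔ ∃ φ ∈ l, φ.Holds x := by
  induction l with
  | nil => simp [disj, holds_ff]
  | cons a l ih =>
      change (a.Holds x ∨ (disj l).Holds x) ↔ _
      rw [ih]
      simp

theorem toks_conj (l : List Fm) : (conj l).toks =
    l.flatMap Fm.toks ++ tt.toks ++ List.replicate l.length Tok.and := by
  induction l with
  | nil => simp [conj]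
  | cons a l ih =>
      change a.toks ++ (conj l).toks ++ [Tok.and] = _
      rw [ih]
      simp [List.replicate_succ']

theorem toks_disj (l : List Fm) : (disj l).toks =
    l.flatMap Fm.toks ++ ff.toks ++ List.replicate l.length Tok.or := by
  induction l with
  | nil => simp [disj]
  | cons a l ih =>
      change a.toks ++ (disj l).toks ++ [Tok.or] = _
      rw [ih]
      simp [List.replicate_succ']

section Closure

variable {α : Type} [TEnc α]

theorem poly_tok {i : α → ℕ} (hi : Poly i) : Poly (fun a => Tok.var (i a)) := by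
  refine Poly.of_toT ((Poly.toT' (f := fun a => ((0 : ℕ), i a)) ?_).congr fun a => rfl)
  exact Poly.pair (Poly.const _) hi

theorem tm_of_toks {t : α → Tm} (h : Poly (fun a => (t a).toks)) : Poly t := h

theorem fm_of_toks {t : α → Fm} (h : Poly (fun a => (t a).toks)) : Poly t := h

theorem tm_toks {t : α → Tm} (h : Poly t) : Poly (fun a => (t a).toks) := h

theorem fm_toks {t : α → Fm} (h : Poly t) : Poly (fun a => (t a).toks) := h

theorem poly_tvar {i : α → ℕ} (hi : Poly i) : Poly (fun a => Tm.var (i a)) :=
  tm_of_toks (Poly.cons (poly_tok hi) (Poly.const []))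

theorem poly_tadd {s t : α → Tm} (hs : Poly s) (ht : Poly t) :
    Poly (fun a => Tm.add (s a) (t a)) :=
  tm_of_toks (Poly.append (Poly.append (tm_toks hs) (tm_toks ht)) (Poly.const [Tok.add]))

theorem poly_tmul {s t : α → Tm} (hs : Poly s) (ht : Poly t) :
    Poly (fun a => Tm.mul (s a) (t a)) :=
  tm_of_toks (Poly.append (Poly.append (tm_toks hs) (tm_toks ht)) (Poly.const [Tok.mul]))

theorem poly_tneg {s : α → Tm} (hs : Poly s) : Poly (fun a => Tm.neg (s a)) :=
  tm_of_toks (Poly.append (tm_toks hs) (Poly.const [Tok.neg]))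

theorem poly_eq {s t : α → Tm} (hs : Poly s) (ht : Poly t) :
    Poly (fun a => Fm.eq (s a) (t a)) :=
  fm_of_toks (Poly.append (Poly.append (tm_toks hs) (tm_toks ht)) (Poly.const [Tok.eq]))

theorem poly_lt {s t : α → Tm} (hs : Poly s) (ht : Poly t) :
    Poly (fun a => Fm.lt (s a) (t a)) :=
  fm_of_toks (Poly.append (Poly.append (tm_toks hs) (tm_toks ht)) (Poly.const [Tok.lt]))

theorem poly_le {s t : α → Tm} (hs : Poly s) (ht : Poly t) :
    Poly (fun a => Fm.le (s a) (t a)) :=
  fm_of_toks (Poly.append (Poly.append (tm_toks hs) (tm_toks ht)) (Poly.const [Tok.le]))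

theorem poly_not {s : α → Fm} (hs : Poly s) : Poly (fun a => Fm.not (s a)) :=
  fm_of_toks (Poly.append (fm_toks hs) (Poly.const [Tok.not]))

theorem poly_and {s t : α → Fm} (hs : Poly s) (ht : Poly t) :
    Poly (fun a => Fm.and (s a) (t a)) :=
  fm_of_toks (Poly.append (Poly.append (fm_toks hs) (fm_toks ht)) (Poly.const [Tok.and]))

theorem poly_or {s t : α → Fm} (hs : Poly s) (ht : Poly t) :
    Poly (fun a => Fm.or (s a) (t a)) :=
  fm_of_toks (Poly.append (Poly.append (fm_toks hs) (fm_toks ht)) (Poly.const [Tok.or]))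

theorem poly_replicate {β γ : Type} [TEnc β] [TEnc γ] {l : α → List β} (hl : Poly l) (c : γ) :
    Poly (fun a => List.replicate (l a).length c) := by
  refine (Poly.map (F := fun _ _ => c) hl (Poly.const _)).congr fun a => ?_
  simp

theorem poly_conj {l : α → List Fm} (hl : Poly l) : Poly (fun a => conj (l a)) := by
  refine fm_of_toks (Poly.congr (f := fun a => (l a).flatMap Fm.toks ++ tt.toks ++
    List.replicate (l a).length Tok.and) ?_ fun a => (toks_conj _).symm)
  refine Poly.append (Poly.append (Poly.flatMap (F := fun _ φ => Fm.toks φ) hl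
    (fm_toks (Poly.snd Poly.id))) (Poly.const _)) (poly_replicate hl _)

theorem poly_disj {l : α → List Fm} (hl : Poly l) : Poly (fun a => disj (l a)) := by
  refine fm_of_toks (Poly.congr (f := fun a => (l a).flatMap Fm.toks ++ ff.toks ++
    List.replicate (l a).length Tok.or) ?_ fun a => (toks_disj _).symm)
  refine Poly.append (Poly.append (Poly.flatMap (F := fun _ φ => Fm.toks φ) hl
    (fm_toks (Poly.snd Poly.id))) (Poly.const _)) (poly_replicate hl _)

end Closure

theorem not_etr_ff : ¬ ETR ff := fun ⟨x, hx⟩ => holds_ff x hx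

/-- The false formula for an invalid code, and `F a` for a code of `a`. -/
def optF {α : Type} (F : α → Fm) : Option α → Fm
  | none => ff
  | some a => F a

/-- Membership criterion for the class `∃ℝ`. -/
theorem InER.of_poly {α : Type} [TEnc α] [TDec α] {P : α → Prop} {F : α → Fm} (hF : Poly F)
    (h : ∀ a, P a ↔ ETR (F a)) : InER (lang P) := by
  refine ⟨fun x => optF F (decode α x), ?_, fun w => ?_⟩
  · refine polyTime_decode (α := α) (F := optF F) ?_
    refine (Poly.optCases (o := fun o : Option α => o) (g := fun _ => ff)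
      (h := fun _ a => F a) Poly.id (Poly.const _) (hF.comp (Poly.snd Poly.id))).congr ?_
    rintro (_ | _) <;> rfl
  · rw [mem_lang_iff]
    change _ ↔ ETR (optF F (decode α w))
    generalize decode α w = o
    cases o with
    | none =>
        constructor
        · rintro ⟨a, ha, -⟩
          exact absurd ha (by simp)
        · intro ha
          exact absurd ha not_etr_ff
    | some a =>
        change _ ↔ ETR (F a)
        rw [← h]
        simp

end Pool.Agent.NPC.H670R2
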