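import Mathlib

/-!
Elementary avoidance lemmas and the separation of point vectors from line vectors.
-/

namespace Pool.Agent.H670R2

open Polynomial

/-- finitely many nonzero polynomials have a common positive non-root -/
theorem exists_avoid {ι : Type*} (S : Finset ι) (q : ι → ℝ[X]) (h : ∀ i ∈ S, q i ≠ 0) :
    ∃ t : ℝ, 0 < t ∧ ∀ i ∈ S, (q i).eval t ≠ 0 := by
  have hP : (∏ i ∈ S, q i) ≠ 0 := Finset.prod_ne_zero_iff.2 h
  have hfin : Set.Finite {x : ℝ | (∏ i ∈ S, q i).IsRoot x} := by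
    refine Set.Finite.subset (Finset.finite_toSet (∏ i ∈ S, q i).roots.toFinset) ?_
    intro x hx
    simp only [Finset.mem_coe, Multiset.mem_toFinset]
    exact (Polynomial.mem_roots hP).2 hx
  have hinf : Set.Infinite (Set.Ioi (0 : ℝ)) := Set.Ioi_infinite 0
  obtain ⟨t, ht, ht'⟩ := hinf.exists_notMem_finite hfin
  refine ⟨t, ht, fun i hi h0 => ht' ?_⟩
  simp only [Set.mem_ofPred_eq, Polynomial.IsRoot.def, Polynomial.eval_prod]
  exact Finset.prod_eq_zero hi h0

/-- quadratic polynomial with some nonzero coefficient -/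
theorem quad_ne_zero {a b c : ℝ} (h : a ≠ 0 ∨ b ≠ 0 ∨ c ≠ 0) :
    (C a + C b * X + C c * X ^ 2 : ℝ[X]) ≠ 0 := by
  intro h0
  have h1 := congrArg (fun p => p.coeff 0) h0
  have h2 := congrArg (fun p => p.coeff 1) h0
  have h3 := congrArg (fun p => p.coeff 2) h0
  simp [coeff_X, coeff_C] at h1 h2 h3
  tauto

/-- two vectors of `ℝ³` are not collinear -/
def NC (u v : Fin 3 → ℝ) : Prop := (∀ c : ℝ, u ≠ c • v) ∧ (∀ c : ℝ, v ≠ c • u)

theorem NC.symm {u v : Fin 3 → ℝ} (h : NC u v) : NC v u := ⟨h.2, h.1⟩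

theorem nc_of_minor {u v : Fin 3 → ℝ} (i j : Fin 3) (h : u i * v j - u j * v i ≠ 0) : NC u v := by
  constructor
  · rintro c rfl
    apply h
    simp only [Pi.smul_apply, smul_eq_mul]
    ring
  · rintro c rfl
    apply h
    simp only [Pi.smul_apply, smul_eq_mul]
    ring

theorem NC.left_ne {u v : Fin 3 → ℝ} (h : NC u v) : u ≠ 0 := by
  intro h0
  exact h.1 0 (by simp [h0])

theorem NC.right_ne {u v : Fin 3 → ℝ} (h : NC u v) : v ≠ 0 := h.symm.left_ne

/-- if all minors vanish the vectors are collinear -/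
theorem not_nc_of_minors {u v : Fin 3 → ℝ}
    (h01 : u 0 * v 1 - u 1 * v 0 = 0) (h02 : u 0 * v 2 - u 2 * v 0 = 0)
    (h12 : u 1 * v 2 - u 2 * v 1 = 0) : ¬ NC u v := by
  intro h
  by_cases h0 : v 0 = 0
  · by_cases h1 : v 1 = 0
    · by_cases h2 : v 2 = 0
      · exact h.2 0 (by ext i; fin_cases i <;> simp [h0, h1, h2])
      · refine h.1 (u 2 / v 2) ?_
        ext i
        fin_cases i
        · simp; field_simp; linarith
        · simp; field_simp; linarith
        · simp; field_simp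
    · refine h.1 (u 1 / v 1) ?_
      ext i
      fin_cases i
      · simp; field_simp; linarith
      · simp; field_simp
      · simp; field_simp; linarith
  · refine h.1 (u 0 / v 0) ?_
    ext i
    fin_cases i
    · simp; field_simp
    · simp; field_simp; linarith
    · simp; field_simp; linarith

theorem nc_iff_minors {u v : Fin 3 → ℝ} : NC u v ↔
    (u 0 * v 1 - u 1 * v 0 ≠ 0 ∨ u 0 * v 2 - u 2 * v 0 ≠ 0 ∨ u 1 * v 2 - u 2 * v 1 ≠ 0) := by
  constructor
  · intro h
    by_contra hc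
    push Not at hc
    exact not_nc_of_minors hc.1 hc.2.1 hc.2.2 h
  · rintro (h | h | h)
    · exact nc_of_minor _ _ h
    · exact nc_of_minor _ _ h
    · exact nc_of_minor _ _ h

theorem nc_self {u : Fin 3 → ℝ} : ¬ NC u u := fun h => h.1 1 (by simp)

end Pool.Agent.H670R2
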