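import Pool.Agent.NPC.Dec

/-!
# Optimal elements of lists, and raw strings as typed values
-/

namespace Pool.Agent.NPC.H670R2

open Pool.Agent.NPC

/-- update the current best element -/
def bstep {β : Type} (lt : β → β → Bool) (o : Option β) (b : β) : Option β :=
  match o with
  | none => some b
  | some c => if lt b c = true then some b else some c

/-- an element of the list which is minimal with respect to `lt` -/
def best {β : Type} (lt : β → β → Bool) (l : List β) : Option β := l.foldl (bstep lt) none

theorem best_concat {β : Type} (lt : β → β → Bool) (l : List β) (b : β) :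
    best lt (l ++ [b]) = bstep lt (best lt l) b := by
  simp [best]

theorem best_mem {β : Type} {lt : β → β → Bool} (l : List β) :
    ∀ m, best lt l = some m → m ∈ l := by
  induction l using List.reverseRecOn with
  | nil => intro m h; simp [best] at h
  | append_singleton l b ih =>
      intro m h
      rw [best_concat] at h
      cases hb : best lt l with
      | none =>
          rw [hb] at h
          simp only [bstep, Option.some.injEq] at h
          simp [h]
      | some c =>
          rw [hb] at h
          simp only [bstep] at h
          split_ifs at h with h1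
          · simp only [Option.some.injEq] at h
            simp [h]
          · simp only [Option.some.injEq] at h
            subst h
            exact List.mem_append_left _ (ih _ hb)

theorem best_ne_none {β : Type} {lt : β → β → Bool} {l : List β} (h : l ≠ []) :
    ∃ m, best lt l = some m := by
  induction l using List.reverseRecOn with
  | nil => exact absurd rfl h
  | append_singleton l b ih =>
      rw [best_concat]
      cases hb : best lt l with
      | none => exact ⟨b, rfl⟩
      | some c =>
          simp only [bstep]
          split_ifs
          · exact ⟨_, rfl⟩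
          · exact ⟨_, rfl⟩

theorem best_spec {β γ : Type} [LinearOrder γ] {lt : β → β → Bool} (s : β → γ) (l : List β)
    (h : ∀ a ∈ l, ∀ b ∈ l, lt a b = true ↔ s a < s b) :
    ∀ m, best lt l = some m → ∀ b ∈ l, s m ≤ s b := by
  induction l using List.reverseRecOn with
  | nil => intro m hm; simp [best] at hm
  | append_singleton l b ih =>
      intro m hm x hx
      have ih' := ih (fun a ha b hb => h a (List.mem_append_left _ ha) b
        (List.mem_append_left _ hb))
      rw [best_concat] at hm
      cases hb : best lt l with
      | none =>
          rw [hb] at hm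
          simp only [bstep, Option.some.injEq] at hm
          have hl : l = [] := by
            by_contra hne
            obtain ⟨m', hm'⟩ := best_ne_none (lt := lt) hne
            rw [hb] at hm'
            exact absurd hm' (by simp)
          subst hl
          simp only [List.nil_append, List.mem_singleton] at hx
          rw [hx, hm]
      | some c =>
          rw [hb] at hm
          simp only [bstep] at hm
          have hc := best_mem l c hb
          have hlt := h b (by simp) c (List.mem_append_left _ hc)
          split_ifs at hm with h1
          · simp only [Option.some.injEq] at hm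
            subst hm
            rcases List.mem_append.1 hx with hx | hx
            · exact (hlt.1 h1).le.trans (ih' c hb x hx)
            · simp only [List.mem_singleton] at hx
              rw [hx]
          · simp only [Option.some.injEq] at hm
            subst hm
            rcases List.mem_append.1 hx with hx | hx
            · exact ih' c hb x hx
            · simp only [List.mem_singleton] at hx
              rw [hx]
              exact not_lt.1 fun h2 => h1 (hlt.2 h2)

theorem poly_best {α β : Type} [TEnc α] [TEnc β] {l : α → List β} {lt : α → β → β → Bool}
    (hl : Poly l) (hlt : Poly (fun p : α × β × β => lt p.1 p.2.1 p.2.2)) :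
    Poly (fun a => best (lt a) (l a)) := by
  unfold best
  obtain ⟨q, hq⟩ := hl.sz_le
  refine Poly.foldl (F := fun a o b => bstep (lt a) o b) hl (Poly.const none) ?_
    (q + Polynomial.C 2) ?_
  · unfold bstep
    refine (Poly.optCases (o := fun p : α × Option β × β => p.2.1) (g := fun p => some p.2.2)
      (h := fun p c => if lt p.1 p.2.2 c = true then some p.2.2 else some c)
      (Poly.fst (Poly.snd Poly.id)) (Poly.some (Poly.snd (Poly.snd Poly.id))) ?_).congr ?_
    · refine Poly.ite (p := fun r : (α × Option β × β) × β => lt r.1.1 r.1.2.2 r.2 = true)
        (Poly.decide_bool ?_) ?_ ?_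
      · exact hlt.comp (Poly.pair (Poly.fst (Poly.fst Poly.id)) (Poly.pair
          (Poly.snd (Poly.snd (Poly.fst Poly.id))) (Poly.snd Poly.id)))
      · exact Poly.some (Poly.snd (Poly.snd (Poly.fst Poly.id)))
      · exact Poly.some (Poly.snd Poly.id)
    · rintro ⟨a, o, b⟩
      cases o <;> rfl
  · intro a k hk
    change sz (best (lt a) ((l a).take k)) ≤ _
    simp only [Polynomial.eval_add, Polynomial.eval_C]
    cases hb : best (lt a) ((l a).take k) with
    | none => simp
    | some m =>
        have h1 := List.mem_of_mem_take (best_mem _ m hb)
        have h2 := sz_le_of_mem h1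
        have h3 := hq a
        simp only [sz_some]
        omega

/-! ### Raw strings -/

/-- From the code of a list of booleans to the raw string. -/
theorem rawOut : PC (bits : List Bool → List Bool) (fun x : List Bool => x) (fun x => x) := by
  refine ⟨Cmd.seq (Cmd.loop 0 (Cmd.cases 0 Cmd.skip (Cmd.pop 0)
    (Cmd.seq (Cmd.pop 0) (Cmd.cases 0 Cmd.skip
      (Cmd.seq (Cmd.pop 0) (Cmd.push 1 false))
      (Cmd.seq (Cmd.pop 0) (Cmd.seq (Cmd.pop 0) (Cmd.seq (Cmd.pop 0) (Cmd.push 1 true))))))))
    (mv 1 0), Polynomial.C 20 * Polynomial.X + Polynomial.C 20, fun x => ?_⟩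
  rw [inp_eq_st, inp_eq_st]
  have key : ∀ x acc : List Bool, Runs (Cmd.loop 0 (Cmd.cases 0 Cmd.skip (Cmd.pop 0)
    (Cmd.seq (Cmd.pop 0) (Cmd.cases 0 Cmd.skip
      (Cmd.seq (Cmd.pop 0) (Cmd.push 1 false))
      (Cmd.seq (Cmd.pop 0) (Cmd.seq (Cmd.pop 0) (Cmd.seq (Cmd.pop 0) (Cmd.push 1 true))))))))
      (st (bits x) acc []) (st [] (x.reverse ++ acc) []) (10 * x.length + 10) := by
    intro x
    induction x with
    | nil =>
      intro acc
      refine (Runs.loopCons (by simp [bits, T.enc]) (Runs.casesFalse (l := []) rfl
        (Runs.pop _ 0)) (Runs.loopNil (by simp [bits, T.enc]))).conv rfl ?_ (by simp)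
      simp [bits, T.enc]
    | cons b x ih =>
      intro acc
      have ih' := ih (b :: acc)
      have hb : Runs (Cmd.cases 0 Cmd.skip (Cmd.pop 0)
        (Cmd.seq (Cmd.pop 0) (Cmd.cases 0 Cmd.skip
        (Cmd.seq (Cmd.pop 0) (Cmd.push 1 false))
        (Cmd.seq (Cmd.pop 0) (Cmd.seq (Cmd.pop 0) (Cmd.seq (Cmd.pop 0) (Cmd.push 1 true)))))))
        (st (bits (b :: x)) acc []) (st (bits x) (b :: acc) []) 7 := by
        cases b with
        | false =>
          refine (Runs.casesTrue (l := false :: bits x) rfl ((Runs.pop _ 0).seq
            (Runs.casesFalse (l := bits x) (by simp [bits, T.enc]) ((Runs.pop _ 0).seq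
            (Runs.push _ 1 false))))).conv rfl ?_ (by simp)
          simp [bits, T.enc]
        | true =>
          refine (Runs.casesTrue (l := true :: false :: false :: bits x) rfl ((Runs.pop _ 0).seq
            (Runs.casesTrue (l := false :: false :: bits x) (by simp [bits, T.enc])
              ((Runs.pop _ 0).seq ((Runs.pop _ 0).seq ((Runs.pop _ 0).seq
              (Runs.push _ 1 true))))))).conv rfl ?_ (by simp)
          simp [bits, T.enc]
      refine (Runs.loopCons (by simp [bits, T.enc]) hb ih').conv rfl ?_ ?_
      · simp
      · simp; omega
  have h3 := key x []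
  rw [List.append_nil] at h3
  refine (h3.seq (mv_runs (i := 1) (j := 0) (by decide) x.reverse _ (st x [] []) rfl
    (by simp))).mono ?_
  have h4 := sz_listBool_ge x
  rw [← bits_length] at h4
  simp only [List.length_reverse, Polynomial.eval_add, Polynomial.eval_mul, Polynomial.eval_C,
    Polynomial.eval_X]
  omega

/-- A polynomial-time function on raw strings, as a typed function. -/
theorem poly_raw {F : List Bool → List Bool} (hF : PolyTime F) : Poly F := by
  have h1 : PC (fun x : List Bool => x) (fun x : List Bool => x) F :=
    H642R2.TMSim.polyTime_toPC hF
  have h2 : PC (bits : List Bool → List Bool) (fun x : List Bool => x) F :=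
    PC.comp (g := F) (f := fun x => x) h1 rawOut
  exact PC.comp (g := fun x => x) (f := F) PC.rawIn h2

/-- The code of an element, as a list of booleans. -/
theorem poly_bits {α : Type} [TEnc α] : Poly (fun a : α => bits a) := by
  have h1 : PC (bits : α → List Bool) (fun x : List Bool => x) (fun a => bits a) := by
    obtain ⟨c, p, h⟩ := PC.id (ea := (bits : α → List Bool))
    exact ⟨c, p, h⟩
  exact PC.comp (g := fun x => x) (f := fun a : α => bits a) PC.rawIn h1

end Pool.Agent.NPC.H670R2
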