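import Pool.Agent.H670R2.Best

/-!
# Problems governed by a polynomially bounded family of thresholds

If every yes-instance of a decision problem `P` has a key `(d, n, m)`, where `d` is polynomially
bounded, and among the instances with the same `d` the answer is monotone in the ratio `n / m`,
then `P` is not `NP`-hard unless `P = NP`.  The proof decides a language in `NP` by a search
through the prefixes of the certificates, where for every value of `d` only one prefix is kept.
-/

namespace Pool.Agent.NPC.H670R2

open Pool.Agent.NPC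

section Search

variable (ky : List Bool × List Bool → Option (ℕ × ℕ × ℕ)) (Vt : List Bool × List Bool → Bool)
  (D N : List Bool → ℕ)

/-- comparison of keys -/
def klt (c c' : List Bool × Option (ℕ × ℕ × ℕ)) : Bool :=
  match c.2 with
  | none => false
  | some k => match c'.2 with
    | none => false
    | some k' => decide (k.2.1 * k'.2.2 < k'.2.1 * k.2.2)

/-- the candidates with their keys -/
def cand (x : List Bool) (C : List (List Bool)) : List (List Bool × Option (ℕ × ℕ × ℕ)) :=
  C.map fun u => (u, ky (x, u))

/-- is `d` the first component of the key -/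
def hasDim (d : ℕ) (c : List Bool × Option (ℕ × ℕ × ℕ)) : Bool :=
  match c.2 with
  | none => false
  | some k => decide (k.1 = d)

/-- the first component of an optional candidate as a list -/
def optL (o : Option (List Bool × Option (ℕ × ℕ × ℕ))) : List (List Bool) :=
  match o with
  | none => []
  | some c => [c.1]

/-- keep one candidate for each dimension -/
def prune (x : List Bool) (C : List (List Bool)) : List (List Bool) :=
  (List.range (D x + 1)).flatMap fun d =>
    optL (best klt ((cand ky x C).filter fun c => hasDim d c))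

/-- the children of the prefixes -/
def kids (S : List (List Bool)) : List (List Bool) :=
  S.flatMap fun u => [u ++ [false], u ++ [true]]

/-- one round of the search -/
def rnd (x : List Bool) (s : List (List Bool) × Bool) : List (List Bool) × Bool :=
  (prune ky D x (kids s.1), s.2 || s.1.any fun u => Vt (x, u))

theorem mem_prune {x : List Bool} {C : List (List Bool)} {u : List Bool}
    (h : u ∈ prune ky D x C) : u ∈ C := by
  unfold prune at h
  simp only [List.mem_flatMap, List.mem_range] at h
  obtain ⟨d, -, hu⟩ := h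
  cases hb : best klt ((cand ky x C).filter fun c => hasDim d c) with
  | none => rw [hb] at hu; simp [optL] at hu
  | some c =>
      rw [hb] at hu
      simp only [optL, List.mem_singleton] at hu
      have h1 := best_mem _ c hb
      rw [List.mem_filter] at h1
      obtain ⟨v, hv, hc⟩ := List.mem_map.1 h1.1
      rw [hu, ← hc]
      exact hv

theorem length_prune (x : List Bool) (C : List (List Bool)) :
    (prune ky D x C).length ≤ D x + 1 := by
  unfold prune
  rw [List.length_flatMap]
  refine (List.sum_le_card_nsmul _ 1 ?_).trans ?_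
  · intro y hy
    obtain ⟨d, -, rfl⟩ := List.mem_map.1 hy
    unfold optL
    split <;> simp
  · simp

/-- the key lemma: a prefix with property `E` survives -/
theorem prune_keeps {E : List Bool → Prop} {x : List Bool} {C : List (List Bool)} {u : List Bool}
    (hu : u ∈ C) (hE : E u) (h1 : ∀ u ∈ C, E u → ∃ d n m, ky (x, u) = some (d, n, m) ∧ d ≤ D x)
    (hpos : ∀ u d n m, ky (x, u) = some (d, n, m) → 0 < m)
    (h2 : ∀ u u' d n m n' m', ky (x, u) = some (d, n, m) → ky (x, u') = some (d, n', m') →
      n * m' ≤ n' * m → E u' → E u) :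
    ∃ v ∈ prune ky D x C, E v := by
  obtain ⟨d, n, m, hk, hd⟩ := h1 u hu hE
  have hmem : (u, ky (x, u)) ∈ (cand ky x C).filter fun c => hasDim d c := by
    rw [List.mem_filter]
    refine ⟨List.mem_map.2 ⟨u, hu, rfl⟩, ?_⟩
    simp [hasDim, hk]
  obtain ⟨c, hc⟩ := best_ne_none (lt := klt) (List.ne_nil_of_mem hmem)
  have hcm := best_mem _ c hc
  have key : ∀ a ∈ (cand ky x C).filter (fun c => hasDim d c), ∃ v n m, a = (v, ky (x, v)) ∧
      ky (x, v) = some (d, n, m) := by
    intro a ha
    rw [List.mem_filter] at ha
    obtain ⟨v, hv, rfl⟩ := List.mem_map.1 ha.1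
    have h3 := ha.2
    simp only [hasDim] at h3
    cases hkv : ky (x, v) with
    | none => rw [hkv] at h3; simp at h3
    | some k =>
        rw [hkv] at h3
        simp only [decide_eq_true_eq] at h3
        obtain ⟨d', n', m'⟩ := k
        simp only at h3
        exact ⟨v, n', m', by rw [hkv], by rw [hkv, h3]⟩
  have hspec := best_spec (lt := klt) (fun c : List Bool × Option (ℕ × ℕ × ℕ) =>
    match c.2 with | none => (0 : ℚ) | some k => (k.2.1 : ℚ) / k.2.2)
    ((cand ky x C).filter fun c => hasDim d c) ?_ c hc _ hmem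
  · obtain ⟨v, n', m', rfl, hkv⟩ := key c hcm
    refine ⟨v, ?_, ?_⟩
    · unfold prune
      simp only [List.mem_flatMap, List.mem_range]
      refine ⟨d, by omega, ?_⟩
      rw [hc]
      simp [optL]
    · refine h2 v u d n' m' n m hkv hk ?_ hE
      simp only [hkv, hk] at hspec
      have p1 : (0 : ℚ) < m' := by exact_mod_cast hpos _ _ _ _ hkv
      have p2 : (0 : ℚ) < m := by exact_mod_cast hpos _ _ _ _ hk
      rw [div_le_div_iff₀ p1 p2] at hspec
      exact_mod_cast hspec
  · intro a ha b hb
    obtain ⟨v, n1, m1, rfl, hkv⟩ := key a ha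
    obtain ⟨w, n2, m2, rfl, hkw⟩ := key b hb
    have p1 : (0 : ℚ) < m1 := by exact_mod_cast hpos _ _ _ _ hkv
    have p2 : (0 : ℚ) < m2 := by exact_mod_cast hpos _ _ _ _ hkw
    simp only [klt, hkv, hkw, decide_eq_true_eq]
    rw [div_lt_div_iff₀ p1 p2]
    exact_mod_cast Iff.rfl

variable {ky Vt D N}

/-- soundness and completeness of the search -/
theorem search_correct {x : List Bool} {m : ℕ}
    (h1 : ∀ u, (∃ v, (u ++ v).length ≤ m ∧ Vt (x, u ++ v) = true) → u.length ≤ m + 1 →
      ∃ d a b, ky (x, u) = some (d, a, b) ∧ d ≤ D x)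
    (hpos : ∀ u d n m, ky (x, u) = some (d, n, m) → 0 < m)
    (h2 : ∀ u u' d a b a' b', ky (x, u) = some (d, a, b) → ky (x, u') = some (d, a', b') →
      a * b' ≤ a' * b → (∃ v, (u' ++ v).length ≤ m ∧ Vt (x, u' ++ v) = true) →
      (∃ v, (u ++ v).length ≤ m ∧ Vt (x, u ++ v) = true)) (k : ℕ) (hk : k ≤ m + 1) :
    (∀ u ∈ ((rnd ky Vt D x)^[k] ([[]], false)).1, u.length = k) ∧
    (((rnd ky Vt D x)^[k] ([[]], false)).2 = true → ∃ w, w.length ≤ m ∧ Vt (x, w) = true) ∧
    ((∃ w, w.length ≤ m ∧ Vt (x, w) = true) →
      ((rnd ky Vt D x)^[k] ([[]], false)).2 = true ∨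
      ∃ u ∈ ((rnd ky Vt D x)^[k] ([[]], false)).1,
        ∃ v, (u ++ v).length ≤ m ∧ Vt (x, u ++ v) = true) := by
  induction k with
  | zero =>
      refine ⟨?_, ?_, ?_⟩
      · intro u hu
        simp only [Function.iterate_zero, id_eq, List.mem_singleton] at hu
        simp [hu]
      · intro h
        simp at h
      · rintro ⟨w, hw⟩
        right
        exact ⟨[], by simp, w, by simpa using hw⟩
  | succ k ih =>
      obtain ⟨i1, i2, i3⟩ := ih (by omega)
      rw [Function.iterate_succ_apply']
      set s := (rnd ky Vt D x)^[k] ([[]], false) with hs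
      refine ⟨?_, ?_, ?_⟩
      · intro u hu
        have h3 := mem_prune ky D hu
        unfold kids at h3
        simp only [List.mem_flatMap, List.mem_cons, List.not_mem_nil, or_false] at h3
        obtain ⟨v, hv, rfl | rfl⟩ := h3
        · simp [i1 v hv]
        · simp [i1 v hv]
      · intro h
        simp only [rnd, Bool.or_eq_true, List.any_eq_true] at h
        rcases h with h | ⟨u, hu, h⟩
        · exact i2 h
        · exact ⟨u, by rw [i1 u hu]; omega, h⟩
      · intro hw
        rcases i3 hw with h | ⟨u, hu, v, hv, hV⟩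
        · left
          simp [rnd, h]
        · cases v with
          | nil =>
              left
              simp only [rnd, Bool.or_eq_true, List.any_eq_true]
              right
              exact ⟨u, hu, by simpa using hV⟩
          | cons c v =>
              right
              have hc : u ++ [c] ∈ kids s.1 := by
                unfold kids
                simp only [List.mem_flatMap, List.mem_cons, List.not_mem_nil, or_false]
                refine ⟨u, hu, ?_⟩
                cases c
                · left; rfl
                · right; rfl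
              refine prune_keeps ky D (E := fun u => ∃ v, (u ++ v).length ≤ m ∧
                Vt (x, u ++ v) = true) hc ⟨v, by simpa using hv, by simpa using hV⟩ ?_ hpos h2
              intro u' hu' hE
              refine h1 u' hE ?_
              unfold kids at hu'
              simp only [List.mem_flatMap, List.mem_cons, List.not_mem_nil, or_false] at hu'
              obtain ⟨v, hv, rfl | rfl⟩ := hu'
              · simp [i1 v hv]; omega
              · simp [i1 v hv]; omega

end Search

/-! ### Polynomial time -/

theorem poly_klt {α : Type} [TEnc α] {f g : α → List Bool × Option (ℕ × ℕ × ℕ)} (hf : Poly f)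
    (hg : Poly g) : Poly (fun a => klt (f a) (g a)) := by
  have h : Poly (fun p : (List Bool × Option (ℕ × ℕ × ℕ)) × (List Bool × Option (ℕ × ℕ × ℕ)) =>
      klt p.1 p.2) := by
    unfold klt
    refine (Poly.optCases (o := fun p : (List Bool × Option (ℕ × ℕ × ℕ)) ×
        (List Bool × Option (ℕ × ℕ × ℕ)) => p.1.2) (g := fun _ => false)
      (h := fun p k => match p.2.2 with
        | none => false
        | some k' => decide (k.2.1 * k'.2.2 < k'.2.1 * k.2.2)) (Poly.snd (Poly.fst Poly.id))
      (Poly.const _) ?_).congr ?_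
    · refine (Poly.optCases (o := fun q : ((List Bool × Option (ℕ × ℕ × ℕ)) ×
          (List Bool × Option (ℕ × ℕ × ℕ))) × (ℕ × ℕ × ℕ) => q.1.2.2) (g := fun _ => false)
        (h := fun q k' => decide (q.2.2.1 * k'.2.2 < k'.2.1 * q.2.2.2))
        (Poly.snd (Poly.snd (Poly.fst Poly.id))) (Poly.const _) ?_).congr ?_
      · refine Poly.decide_lt (Poly.mul ?_ ?_) (Poly.mul ?_ ?_)
        · exact Poly.fst (Poly.snd (Poly.snd (Poly.fst Poly.id)))
        · exact Poly.snd (Poly.snd (Poly.snd Poly.id))
        · exact Poly.fst (Poly.snd (Poly.snd Poly.id))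
        · exact Poly.snd (Poly.snd (Poly.snd (Poly.fst Poly.id)))
      · rintro ⟨⟨⟨u, o⟩, ⟨v, o'⟩⟩, k⟩
        cases o' <;> rfl
    · rintro ⟨⟨u, o⟩, ⟨v, o'⟩⟩
      cases o <;> rfl
  exact h.comp (Poly.pair hf hg)

theorem poly_hasDim {α : Type} [TEnc α] {d : α → ℕ} {c : α → List Bool × Option (ℕ × ℕ × ℕ)}
    (hd : Poly d) (hc : Poly c) : Poly (fun a => hasDim (d a) (c a)) := by
  have h : Poly (fun p : ℕ × (List Bool × Option (ℕ × ℕ × ℕ)) => hasDim p.1 p.2) := by
    unfold hasDim
    refine (Poly.optCases (o := fun p : ℕ × (List Bool × Option (ℕ × ℕ × ℕ)) => p.2.2)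
      (g := fun _ => false) (h := fun p k => decide (k.1 = p.1)) (Poly.snd (Poly.snd Poly.id))
      (Poly.const _) (Poly.decide_eq (Poly.fst (Poly.snd Poly.id))
        (Poly.fst (Poly.fst Poly.id)))).congr ?_
    rintro ⟨d, u, o⟩
    cases o <;> rfl
  exact h.comp (Poly.pair hd hc)

theorem poly_optL : Poly optL := by
  unfold optL
  refine (Poly.optCases (o := fun o : Option (List Bool × Option (ℕ × ℕ × ℕ)) => o)
    (g := fun _ => ([] : List (List Bool))) (h := fun _ c => [c.1]) Poly.id (Poly.const _)
    (Poly.cons (Poly.fst (Poly.snd Poly.id)) (Poly.const _))).congr ?_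
  intro o
  cases o <;> rfl

section

variable {ky : List Bool × List Bool → Option (ℕ × ℕ × ℕ)} {Vt : List Bool × List Bool → Bool}
  {D N : List Bool → ℕ}

theorem poly_prune (hky : Poly ky) (hD : UPoly D) :
    Poly (fun p : List Bool × List (List Bool) => prune ky D p.1 p.2) := by
  unfold prune
  refine Poly.flatMap (l := fun p : List Bool × List (List Bool) => List.range (D p.1 + 1))
    (F := fun p d => optL (best klt ((cand ky p.1 p.2).filter fun c => hasDim d c))) ?_ ?_
  · exact UPoly.range (UPoly.add (hD.comp (Poly.fst Poly.id)) (UPoly.const 1))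
  · refine poly_optL.comp ?_
    refine poly_best (l := fun q : (List Bool × List (List Bool)) × ℕ =>
      (cand ky q.1.1 q.1.2).filter fun c => hasDim q.2 c) (lt := fun _ c c' => klt c c') ?_
      (poly_klt (Poly.fst (Poly.snd Poly.id)) (Poly.snd (Poly.snd Poly.id)))
    refine Poly.filter (p := fun (q : (List Bool × List (List Bool)) × ℕ) c => hasDim q.2 c) ?_
      (poly_hasDim (Poly.snd (Poly.fst Poly.id)) (Poly.snd Poly.id))
    unfold cand
    exact Poly.map (l := fun q : (List Bool × List (List Bool)) × ℕ => q.1.2)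
      (F := fun q u => (u, ky (q.1.1, u))) (Poly.snd (Poly.fst Poly.id))
      (Poly.pair (Poly.snd Poly.id) (hky.comp (Poly.pair
        (Poly.fst (Poly.fst (Poly.fst Poly.id))) (Poly.snd Poly.id))))

theorem poly_kids : Poly kids := by
  unfold kids
  refine Poly.flatMap (F := fun _ (u : List Bool) => [u ++ [false], u ++ [true]]) Poly.id ?_
  exact Poly.cons (Poly.append (Poly.snd Poly.id) (Poly.const _)) (Poly.cons
    (Poly.append (Poly.snd Poly.id) (Poly.const _)) (Poly.const _))

theorem poly_rnd (hky : Poly ky) (hV : Poly Vt) (hD : UPoly D) :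
    Poly (fun p : List Bool × (List (List Bool) × Bool) => rnd ky Vt D p.1 p.2) := by
  unfold rnd
  refine Poly.pair ?_ (Poly.or (Poly.snd (Poly.snd Poly.id)) ?_)
  · exact (poly_prune hky hD).comp (Poly.pair (Poly.fst Poly.id)
      (poly_kids.comp (Poly.fst (Poly.snd Poly.id))))
  · exact Poly.any (l := fun p : List Bool × (List (List Bool) × Bool) => p.2.1)
      (p := fun p u => Vt (p.1, u)) (Poly.fst (Poly.snd Poly.id))
      (hV.comp (Poly.pair (Poly.fst (Poly.fst Poly.id)) (Poly.snd Poly.id)))

theorem len_iter (x : List Bool) (k : ℕ) :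
    (∀ u ∈ ((rnd ky Vt D x)^[k] ([[]], false)).1, u.length = k) ∧
    ((rnd ky Vt D x)^[k] ([[]], false)).1.length ≤ D x + 1 := by
  induction k with
  | zero => simp
  | succ k ih =>
      rw [Function.iterate_succ_apply']
      refine ⟨?_, length_prune ky D _ _⟩
      intro u hu
      have h3 := mem_prune ky D hu
      unfold kids at h3
      simp only [List.mem_flatMap, List.mem_cons, List.not_mem_nil, or_false] at h3
      obtain ⟨v, hv, rfl | rfl⟩ := h3
      · simp [ih.1 v hv]
      · simp [ih.1 v hv]

theorem poly_search (hky : Poly ky) (hV : Poly Vt) (hD : UPoly D) (hN : UPoly N) :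
    Poly (fun x => (rnd ky Vt D x)^[N x] ([[]], false)) := by
  obtain ⟨q1, hq1⟩ := Poly.sz_le hD
  obtain ⟨q2, hq2⟩ := Poly.sz_le hN
  refine (Poly.iterLen (l := fun x => List.replicate (N x) ())
    (s := fun _ => (([[]], false) : List (List Bool) × Bool))
    (F := fun x s => rnd ky Vt D x s) hN (Poly.const _) (poly_rnd hky hV hD)
    ((q1 + Polynomial.C 1) * (Polynomial.C 4 * q2 + Polynomial.C 2) + Polynomial.C 10)
    ?_).congr fun x => ?_
  · intro x k hk
    obtain ⟨h1, h2⟩ := len_iter (ky := ky) (Vt := Vt) (D := D) x k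
    set s := (rnd ky Vt D x)^[k] ([[]], false) with hs
    have h3 := sz_le_length_mul s.1 (4 * k + 1) (fun u hu => by
      have := sz_listBool_le u
      rw [h1 u hu] at this
      exact this)
    have h4 : sz s = sz s.1 + sz s.2 + 1 := sz_pair s.1 s.2
    have h5 := sz_bool_le s.2
    have h6 := length_lt_sz (List.replicate (D x) ())
    have h7 := length_lt_sz (List.replicate (N x) ())
    simp only [List.length_replicate] at h6 h7 hk
    have h8 := hq1 x
    have h9 := hq2 x
    simp only [Polynomial.eval_add, Polynomial.eval_mul, Polynomial.eval_C]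
    have h10 : s.1.length * (4 * k + 1 + 1) ≤
        (Polynomial.eval (sz x) q1 + 1) * (4 * Polynomial.eval (sz x) q2 + 2) :=
      Nat.mul_le_mul (by omega) (by omega)
    omega
  · simp

end

/-- A decision problem governed by thresholds is not `NP`-hard unless `P = NP`. -/
theorem collapse {α : Type} [TEnc α] [TDec α] {P : α → Prop} {key : α → Option (ℕ × ℕ × ℕ)}
    (hkey : Poly key) (q : Polynomial ℕ)
    (hq : ∀ a d n m, key a = some (d, n, m) → d ≤ q.eval (sz a))
    (hpos : ∀ a d n m, key a = some (d, n, m) → 0 < m)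
    (h1 : ∀ a, P a → key a ≠ none)
    (h2 : ∀ a a' d n m n' m', key a = some (d, n, m) → key a' = some (d, n', m') →
      n * m' ≤ n' * m → P a' → P a)
    (hard : NPHardP P) : ∀ L, InNP L → InP L := by
  rintro L ⟨V, p, hV, hL⟩
  -- the language of prefixes
  set Vt : List Bool × List Bool → Bool := fun y => decide (V (pairBits y.1 y.2) = [true])
    with hVt
  have polyVt : Poly Vt := by
    refine Poly.decide_eq ?_ (Poly.const _)
    refine (poly_raw hV).comp ?_
    unfold pairBits
    exact Poly.append (Poly.flatMap (l := fun y : List Bool × List Bool => y.1)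
      (F := fun _ b => [true, b]) (Poly.fst Poly.id) (Poly.cons (Poly.const _)
        (Poly.cons (Poly.snd Poly.id) (Poly.const _))))
      (Poly.cons (Poly.const _) (Poly.snd Poly.id))
  set E : List Bool × List Bool → Prop := fun y =>
    ∃ v, (y.2 ++ v).length ≤ p.eval y.1.length ∧ Vt (y.1, y.2 ++ v) = true with hE
  have hNE : InNPP E := by
    refine inNPP_of (β := List Bool) (R := fun z =>
      decide ((z.1.2 ++ z.2).length ≤ p.eval z.1.1.length) && Vt (z.1.1, z.1.2 ++ z.2)) ?_
      (Polynomial.C 4 * p + Polynomial.C 1) ?_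
    · refine Poly.and (Poly.decide_le (Poly.length (Poly.append (Poly.snd (Poly.fst Poly.id))
        (Poly.snd Poly.id))) ?_) (polyVt.comp (Poly.pair (Poly.fst (Poly.fst Poly.id))
          (Poly.append (Poly.snd (Poly.fst Poly.id)) (Poly.snd Poly.id))))
      exact (UPoly.eval (UPoly.length (Poly.fst (Poly.fst Poly.id))) p).toPoly
    · rintro ⟨x, u⟩
      simp only [hE, Bool.and_eq_true, decide_eq_true_eq]
      constructor
      · rintro ⟨v, hv, hv'⟩
        refine ⟨v, ?_, hv, hv'⟩
        have e1 := sz_listBool_le v
        have e2 : x.length ≤ sz (x, u) := by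
          have := length_lt_sz x
          rw [sz_pair]
          omega
        have e3 := eval_mono p e2
        rw [List.length_append] at hv
        simp only [Polynomial.eval_add, Polynomial.eval_mul, Polynomial.eval_C]
        omega
      · rintro ⟨v, -, hv, hv'⟩
        exact ⟨v, hv, hv'⟩
  obtain ⟨f, hf, hfE⟩ := hard _ hNE
  have hfE' : ∀ y, E y ↔ ∃ a, unbits α (f (bits y)) = some a ∧ P a := by
    intro y
    rw [← mem_lang_iff, ← hfE, bits_mem_lang]
  have polyA : Poly (fun y : List Bool × List Bool => unbits α (f (bits y))) :=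
    poly_unbits.comp ((poly_raw hf).comp poly_bits)
  set ky : List Bool × List Bool → Option (ℕ × ℕ × ℕ) := fun y =>
    (unbits α (f (bits y))).bind key with hky
  have polyky : Poly ky := Poly.optBind (f := fun _ a => key a) polyA (hkey.comp (Poly.snd Poly.id))
  obtain ⟨r, hr⟩ := polyA.sz_le
  set Dp : Polynomial ℕ := q.comp (r.comp (Polynomial.C 4 * Polynomial.X + Polynomial.C 1 +
    (Polynomial.C 4 * (p + Polynomial.C 1) + Polynomial.C 1) + Polynomial.C 1)) with hDp
  have hmain := @search_correct ky Vt (fun x => Dp.eval x.length)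
  have polyS := poly_search (ky := ky) (Vt := Vt) (D := fun x => Dp.eval x.length)
    (N := fun x => p.eval x.length + 1) polyky polyVt
    (UPoly.eval (UPoly.length Poly.id) Dp) (UPoly.add (UPoly.eval (UPoly.length Poly.id) p)
      (UPoly.const 1))
  refine ⟨fun x => [((rnd ky Vt (fun x => Dp.eval x.length) x)^[p.eval x.length + 1]
    ([[]], false)).2], polyTime_of_poly (Poly.snd polyS), fun x => ?_⟩
  have hx := @hmain x (p.eval x.length) ?_ ?_ ?_ (p.eval x.length + 1) le_rfl
  · obtain ⟨i1, i2, i3⟩ := hx
    rw [hL]
    have e0 : (∃ w : List Bool, w.length ≤ p.eval x.length ∧ V (pairBits x w) = [true]) ↔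
        ∃ w : List Bool, w.length ≤ p.eval x.length ∧ Vt (x, w) = true := by
      simp [hVt]
    rw [e0]
    simp only [List.cons.injEq, and_true]
    constructor
    · intro hw
      rcases i3 hw with h | ⟨u, hu, v, hv, -⟩
      · exact h
      · have := i1 u hu
        rw [List.length_append] at hv
        omega
    · exact i2
  · intro u hu hul
    obtain ⟨a, ha, hPa⟩ := (hfE' (x, u)).1 hu
    obtain ⟨⟨d, n, m⟩, hk⟩ := Option.ne_none_iff_exists'.1 (h1 a hPa)
    refine ⟨d, n, m, ?_, ?_⟩
    · simp [hky, ha, hk]
    · have e1 := hq a d n m hk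
      have e2 := hr (x, u)
      rw [ha, sz_some, sz_pair] at e2
      have e3 := sz_listBool_le x
      have e4 := sz_listBool_le u
      simp only [hDp, Polynomial.eval_comp, Polynomial.eval_add, Polynomial.eval_mul,
        Polynomial.eval_C, Polynomial.eval_X]
      refine e1.trans (eval_mono q ?_)
      have e5 : sz a ≤ Polynomial.eval (sz x + sz u + 1) r := by omega
      refine e5.trans (eval_mono r ?_)
      omega
  · intro u d n m hk
    simp only [hky, Option.bind_eq_some_iff] at hk
    obtain ⟨a, -, hk⟩ := hk
    exact hpos a d n m hk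
  · intro u u' d a b a' b' hk hk' hle hE'
    simp only [hky, Option.bind_eq_some_iff] at hk hk'
    obtain ⟨c, hc, hk⟩ := hk
    obtain ⟨c', hc', hk'⟩ := hk'
    refine (hfE' (x, u)).2 ⟨c, hc, h2 c c' d a b a' b' hk hk' hle ?_⟩
    obtain ⟨e, he, hPe⟩ := (hfE' (x, u')).1 hE'
    rw [hc'] at he
    simp only [Option.some.injEq] at he
    rw [he]
    exact hPe

end Pool.Agent.NPC.H670R2
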