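import Pool.Agent.H670R2.NewtonDet

/-!
# Determinants of symmetric integer matrices by Newton's identities, on lists
-/

namespace Pool.Agent.H670R2

open Matrix Finset

/-- dot product of integer lists -/
def dotL (u v : List ℤ) : ℤ := (List.zipWith (fun x y => x * y) u v).sum

/-- the Gram matrix of a list of vectors -/
def gramL (L : List (List ℤ)) : List (List ℤ) := L.map fun u => L.map fun v => dotL u v

/-- the product with a symmetric matrix -/
def mulG (G M : List (List ℤ)) : List (List ℤ) := M.map fun r => G.map fun c => dotL r c

/-- the identity matrix -/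
def idL (m : ℕ) : List (List ℤ) :=
  (List.range m).map fun i => (List.range m).map fun j => if i = j then 1 else 0

/-- the trace of the product of two symmetric matrices -/
def trG (M G : List (List ℤ)) : ℤ := (List.zipWith dotL M G).sum

/-- the traces of the powers -/
def psL (G : List (List ℤ)) : List ℤ :=
  (List.range G.length).map fun i => trG ((mulG G)^[min i G.length] (idL G.length)) G

/-- one step of Newton's recursion -/
def newt (ss es : List ℤ) : List ℤ := (-(dotL es ss) / (es.length : ℤ)) :: es

/-- the absolute value of the determinant of the symmetric matrix `G` -/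
def sdet (G : List (List ℤ)) : ℕ := (((newt (psL G))^[G.length] [1]).headD 0).natAbs

/-- a matrix as a list of rows -/
def toL {m : ℕ} (A : Matrix (Fin m) (Fin m) ℤ) : List (List ℤ) :=
  List.ofFn fun i => List.ofFn (A i)

theorem dotL_ofFn {m : ℕ} (u v : Fin m → ℤ) : dotL (List.ofFn u) (List.ofFn v) = ∑ i, u i * v i := by
  induction m with
  | zero => simp [dotL]
  | succ m ih =>
      rw [List.ofFn_succ, List.ofFn_succ, Fin.sum_univ_succ, ← ih]
      simp [dotL]

theorem dotL_comm (u v : List ℤ) : dotL u v = dotL v u := by
  unfold dotL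
  congr 1
  rw [List.zipWith_comm]
  congr 1
  ext a b
  exact mul_comm _ _

theorem dotL_cons (a b : ℤ) (u v : List ℤ) : dotL (a :: u) (b :: v) = a * b + dotL u v := by
  simp [dotL]

theorem dotL_eq_sum (u v : List ℤ) : dotL u v = ∑ i ∈ Finset.range u.length,
    u.getD i 0 * v.getD i 0 := by
  induction u generalizing v with
  | nil => simp [dotL]
  | cons a u ih =>
      cases v with
      | nil => simp [dotL]
      | cons b v =>
          rw [dotL_cons, ih, List.length_cons, Finset.sum_range_succ']
          simp [add_comm]

theorem mulG_toL {m : ℕ} (A B : Matrix (Fin m) (Fin m) ℤ) :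
    mulG (toL A) (toL B) = toL (B * Aᵀ) := by
  unfold mulG toL
  rw [List.map_ofFn]
  congr 1
  ext i : 1
  simp only [Function.comp_apply]
  rw [List.map_ofFn]
  congr 1
  ext j
  simp only [Function.comp_apply]
  rw [dotL_ofFn, Matrix.mul_apply]
  rfl

theorem idL_eq (m : ℕ) : idL m = toL (1 : Matrix (Fin m) (Fin m) ℤ) := by
  unfold idL toL
  refine List.ext_getElem (by simp) fun i h1 h2 => ?_
  simp only [List.getElem_map, List.getElem_range, List.getElem_ofFn]
  refine List.ext_getElem (by simp) fun j h3 h4 => ?_
  simp only [List.getElem_map, List.getElem_range, List.getElem_ofFn]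
  rw [Matrix.one_apply]
  simp

theorem trG_toL {m : ℕ} (A B : Matrix (Fin m) (Fin m) ℤ) :
    trG (toL B) (toL A) = trace (B * Aᵀ) := by
  have h : List.zipWith dotL (toL B) (toL A) = List.ofFn fun i => ∑ j, B i j * A i j := by
    unfold toL
    refine List.ext_getElem (by simp) fun i h1 h2 => ?_
    simp only [List.getElem_zipWith, List.getElem_ofFn]
    rw [dotL_ofFn]
  unfold trG
  rw [h, List.sum_ofFn]
  rfl

theorem iter_mulG {m : ℕ} {A : Matrix (Fin m) (Fin m) ℤ} (hA : Aᵀ = A) (i : ℕ) :
    (mulG (toL A))^[i] (idL m) = toL (A ^ i) := by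
  induction i with
  | zero => simp [idL_eq]
  | succ i ih => rw [Function.iterate_succ_apply', ih, mulG_toL, hA, pow_succ]

theorem psL_getD {m : ℕ} {A : Matrix (Fin m) (Fin m) ℤ} (hA : Aᵀ = A) {i : ℕ} (hi : i < m) :
    (psL (toL A)).getD i 0 = trace (A ^ (i + 1)) := by
  have hl : (toL A).length = m := by simp [toL]
  unfold psL
  rw [List.getD_eq_getElem _ _ (by simpa [hl] using hi)]
  simp only [List.getElem_map, List.getElem_range]
  rw [hl, min_eq_left hi.le, iter_mulG hA, trG_toL, hA, ← pow_succ]

theorem newton_iter {m : ℕ} {A : Matrix (Fin m) (Fin m) ℤ} (hA : Aᵀ = A) (k : ℕ) (hk : k ≤ m) :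
    (newt (psL (toL A)))^[k] [1] =
      (List.range (k + 1)).map fun i => A.charpoly.coeff (m - (k - i)) := by
  induction k with
  | zero =>
      have h : A.charpoly.coeff m = 1 := by
        have h1 := A.charpoly_monic
        have h2 := A.charpoly_natDegree_eq_dim
        rw [Fintype.card_fin] at h2
        rw [Polynomial.Monic, Polynomial.leadingCoeff, h2] at h1
        exact h1
      simp [h]
  | succ k ih =>
      rw [Function.iterate_succ_apply', ih (by omega)]
      unfold newt
      have h1 : dotL ((List.range (k + 1)).map fun i => A.charpoly.coeff (m - (k - i)))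
          (psL (toL A)) = ∑ i ∈ Finset.range (k + 1),
            A.charpoly.coeff (m - (k - i)) * trace (A ^ (i + 1)) := by
        rw [dotL_eq_sum]
        simp only [List.length_map, List.length_range]
        refine Finset.sum_congr rfl fun i hi => ?_
        rw [Finset.mem_range] at hi
        rw [psL_getD hA (by omega), List.getD_eq_getElem _ _ (by simpa using hi)]
        simp
      have h2 := NewtonDet.newton_int hA hk
      rw [h1, ← h2]
      simp only [List.length_map, List.length_range]
      push_cast
      rw [Int.mul_ediv_cancel_left _ (by omega)]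
      rw [List.range_succ_eq_map (n := k + 1), List.map_cons, List.map_map]
      congr 1
      refine List.map_congr_left fun i hi => ?_
      simp only [Function.comp_apply]
      congr 1
      omega

theorem sdet_toL {m : ℕ} {A : Matrix (Fin m) (Fin m) ℤ} (hA : Aᵀ = A) :
    sdet (toL A) = A.det.natAbs := by
  have hl : (toL A).length = m := by simp [toL]
  unfold sdet
  rw [hl, newton_iter hA m le_rfl, List.range_succ_eq_map, List.map_cons]
  simp only [List.headD_cons, Nat.sub_zero, Nat.sub_self]
  rw [Matrix.det_eq_sign_charpoly_coeff, Fintype.card_fin, Int.natAbs_mul, Int.natAbs_pow]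
  simp

/-- the Gram matrix -/
def gramM (L : List (List ℤ)) : Matrix (Fin L.length) (Fin L.length) ℤ :=
  Matrix.of fun i j => dotL (L.get i) (L.get j)

theorem gramL_eq (L : List (List ℤ)) : gramL L = toL (gramM L) := by
  unfold gramL toL gramM
  refine List.ext_getElem (by simp) fun i h1 h2 => ?_
  simp only [List.getElem_map, List.getElem_ofFn]
  refine List.ext_getElem (by simp) fun j h3 h4 => ?_
  simp

theorem gramM_symm (L : List (List ℤ)) : (gramM L)ᵀ = gramM L := by
  ext i j
  simp only [gramM, Matrix.transpose_apply, Matrix.of_apply]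
  exact dotL_comm _ _

/-- the Gram determinant of a list of integer vectors -/
def gdet (L : List (List ℤ)) : ℕ := sdet (gramL L)

theorem gdet_eq (L : List (List ℤ)) : gdet L = (gramM L).det.natAbs := by
  rw [gdet, gramL_eq, sdet_toL (gramM_symm L)]

end Pool.Agent.H670R2
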