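import Pool.Agent.H670R2.GramDet
import Pool.Agent.H687R2.IntPoly

/-!
# Gram determinants are computable in polynomial time
-/

namespace Pool.Agent.NPC.H670R2

open Pool.Agent.NPC Pool.Agent.H670R2

/-- the sum of the absolute values -/
def l1 (r : List ℤ) : ℕ := (r.map Int.natAbs).sum

/-- the sum of the absolute values of the entries -/
def l1M (M : List (List ℤ)) : ℕ := (M.map l1).sum

theorem l1_cons (a : ℤ) (r : List ℤ) : l1 (a :: r) = a.natAbs + l1 r := by simp [l1]

theorem l1M_cons (r : List ℤ) (M : List (List ℤ)) : l1M (r :: M) = l1 r + l1M M := by simp [l1M]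

theorem natAbs_le_l1 {r : List ℤ} {x : ℤ} (hx : x ∈ r) : x.natAbs ≤ l1 r :=
  List.single_le_sum (by simp) _ (List.mem_map_of_mem hx)

theorem l1_le_l1M {M : List (List ℤ)} {r : List ℤ} (hr : r ∈ M) : l1 r ≤ l1M M :=
  List.single_le_sum (by simp) _ (List.mem_map_of_mem hr)

theorem natAbs_dotL_le (u v : List ℤ) : (dotL u v).natAbs ≤ l1 u * l1 v := by
  induction u generalizing v with
  | nil => simp [dotL]
  | cons a u ih =>
      cases v with
      | nil => simp [dotL]
      | cons b v =>
          rw [dotL_cons, l1_cons, l1_cons]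
          refine (Int.natAbs_add_le _ _).trans ?_
          rw [Int.natAbs_mul]
          have := ih v
          nlinarith [Nat.zero_le (a.natAbs * l1 v), Nat.zero_le (l1 u * b.natAbs)]

theorem l1_map_dotL_le (r : List ℤ) (G : List (List ℤ)) :
    l1 (G.map fun c => dotL r c) ≤ l1 r * l1M G := by
  induction G with
  | nil => simp [l1, l1M]
  | cons c G ih =>
      rw [List.map_cons, l1_cons, l1M_cons, mul_add]
      exact Nat.add_le_add (natAbs_dotL_le _ _) ih

theorem l1M_mulG_le (G M : List (List ℤ)) : l1M (mulG G M) ≤ l1M M * l1M G := by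
  unfold mulG
  induction M with
  | nil => simp [l1M]
  | cons r M ih =>
      rw [List.map_cons, l1M_cons, l1M_cons, add_mul]
      exact Nat.add_le_add (l1_map_dotL_le _ _) ih

theorem natAbs_trG_le (M G : List (List ℤ)) : (trG M G).natAbs ≤ l1M M * l1M G := by
  unfold trG
  induction M generalizing G with
  | nil => simp
  | cons r M ih =>
      cases G with
      | nil => simp
      | cons c G =>
          rw [List.zipWith_cons_cons, List.sum_cons, l1M_cons, l1M_cons]
          refine (Int.natAbs_add_le _ _).trans ?_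
          have h1 := natAbs_dotL_le r c
          have h2 := ih G
          nlinarith [Nat.zero_le (l1 r * l1M G), Nat.zero_le (l1M M * l1 c)]

theorem l1_lt (r : List ℤ) : l1 r < 2 ^ sz r := by
  induction r with
  | nil => simp [l1]
  | cons x r ih =>
      rw [l1_cons, sz_list_cons]
      have h1 := size_natAbs_le_sz x
      have h2 := Nat.lt_size_self x.natAbs
      have h3 : x.natAbs < 2 ^ sz x := lt_of_lt_of_le h2 (Nat.pow_le_pow_right (by norm_num)
        (by omega))
      have h5 : 2 ^ sz x ≤ 2 ^ (sz x + sz r) := Nat.pow_le_pow_right (by norm_num) (by omega)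
      have h6 : 2 ^ sz r ≤ 2 ^ (sz x + sz r) := Nat.pow_le_pow_right (by norm_num) (by omega)
      rw [pow_succ]
      omega

theorem l1M_lt (M : List (List ℤ)) : l1M M < 2 ^ sz M := by
  induction M with
  | nil => simp [l1M]
  | cons r M ih =>
      rw [l1M_cons, sz_list_cons]
      have h3 := l1_lt r
      have h5 : 2 ^ sz r ≤ 2 ^ (sz r + sz M) := Nat.pow_le_pow_right (by norm_num) (by omega)
      have h6 : 2 ^ sz M ≤ 2 ^ (sz r + sz M) := Nat.pow_le_pow_right (by norm_num) (by omega)
      rw [pow_succ]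
      omega

theorem sz_int_of_lt {x : ℤ} {e : ℕ} (h : x.natAbs < 2 ^ e) : sz x ≤ 4 * e + 5 := by
  have h1 := sz_int_le x
  have h2 := Nat.size_le.2 h
  omega

/-- size of a list of bounded integers -/
theorem sz_vec_le {r : List ℤ} {b e : ℕ} (hb : r.length ≤ b) (h : ∀ x ∈ r, x.natAbs < 2 ^ e) :
    sz r ≤ b * (4 * e + 6) + 1 := by
  have h1 := sz_le_length_mul r (4 * e + 5) fun x hx => sz_int_of_lt (h x hx)
  have h2 : r.length * (4 * e + 5 + 1) ≤ b * (4 * e + 6) := Nat.mul_le_mul hb (by omega)
  omega

theorem sz_mat_le {M : List (List ℤ)} {a b e : ℕ} (ha : M.length ≤ a)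
    (hb : ∀ r ∈ M, r.length ≤ b) (h : l1M M < 2 ^ e) :
    sz M ≤ a * (b * (4 * e + 6) + 2) + 1 := by
  have h1 := sz_le_length_mul M (b * (4 * e + 6) + 1) fun r hr =>
    sz_vec_le (hb r hr) fun x hx =>
      lt_of_le_of_lt ((natAbs_le_l1 hx).trans (l1_le_l1M hr)) h
  have h2 : M.length * (b * (4 * e + 6) + 1 + 1) ≤ a * (b * (4 * e + 6) + 2) :=
    Nat.mul_le_mul ha (by omega)
  omega

theorem l1M_idL (m : ℕ) : l1M (idL m) ≤ m * m := by
  unfold idL l1M
  rw [List.map_map]
  refine (List.sum_le_card_nsmul _ m ?_).trans (by simp)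
  intro x hx
  obtain ⟨i, -, rfl⟩ := List.mem_map.1 hx
  simp only [Function.comp_apply, l1, List.map_map]
  refine (List.sum_le_card_nsmul _ 1 ?_).trans (by simp)
  intro y hy
  obtain ⟨j, -, rfl⟩ := List.mem_map.1 hy
  simp only [Function.comp_apply]
  split_ifs <;> simp

theorem iter_mulG_bound (G : List (List ℤ)) (k : ℕ) (hk : k ≤ G.length) :
    ((mulG G)^[k] (idL G.length)).length = G.length ∧
    (∀ r ∈ (mulG G)^[k] (idL G.length), r.length = G.length) ∧
    l1M ((mulG G)^[k] (idL G.length)) ≤ (G.length * G.length) * l1M G ^ k := by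
  induction k with
  | zero =>
      refine ⟨by simp [idL], ?_, by simpa using l1M_idL G.length⟩
      intro r hr
      simp only [Function.iterate_zero, id_eq, idL, List.mem_map] at hr
      obtain ⟨i, -, rfl⟩ := hr
      simp
  | succ k ih =>
      obtain ⟨i1, i2, i3⟩ := ih (by omega)
      rw [Function.iterate_succ_apply']
      refine ⟨by simp [mulG, i1], ?_, ?_⟩
      · intro r hr
        simp only [mulG, List.mem_map] at hr
        obtain ⟨s, -, rfl⟩ := hr
        simp
      · refine (l1M_mulG_le _ _).trans ?_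
        rw [pow_succ, ← mul_assoc]
        exact Nat.mul_le_mul_right _ i3

theorem iter_mulG_lt (G : List (List ℤ)) (k : ℕ) (hk : k ≤ G.length) :
    l1M ((mulG G)^[k] (idL G.length)) < 2 ^ (2 * sz G + sz G * sz G) := by
  obtain ⟨-, -, h⟩ := iter_mulG_bound G k hk
  refine lt_of_le_of_lt h ?_
  have h1 := length_lt_sz G
  have h2 : G.length * G.length < 2 ^ (2 * sz G) := by
    have h3 : G.length < 2 ^ sz G := lt_of_lt_of_le h1 (Nat.lt_two_pow_self.le)
    rw [two_mul, pow_add]
    exact Nat.mul_lt_mul'' h3 h3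
  have h4 : l1M G ^ k ≤ 2 ^ (sz G * sz G) := by
    calc l1M G ^ k ≤ (2 ^ sz G) ^ k := Nat.pow_le_pow_left (l1M_lt G).le k
      _ = 2 ^ (sz G * k) := by rw [← pow_mul]
      _ ≤ 2 ^ (sz G * sz G) := Nat.pow_le_pow_right (by norm_num)
          (Nat.mul_le_mul_left _ (by omega))
  rw [pow_add]
  exact Nat.mul_lt_mul_of_lt_of_le h2 h4 (by positivity)

section

variable {α : Type} [TEnc α]

theorem poly_dotL {u v : α → List ℤ} (hu : Poly u) (hv : Poly v) :
    Poly (fun a => dotL (u a) (v a)) := Poly.dot hu hv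

theorem poly_gramL {L : α → List (List ℤ)} (hL : Poly L) : Poly (fun a => gramL (L a)) := by
  unfold gramL
  refine Poly.map (F := fun a u => (L a).map fun v => dotL u v) hL ?_
  exact Poly.map (l := fun p : α × List ℤ => L p.1) (F := fun p v => dotL p.2 v)
    (hL.comp (Poly.fst Poly.id)) (poly_dotL (Poly.snd (Poly.fst Poly.id)) (Poly.snd Poly.id))

theorem poly_mulG {G M : α → List (List ℤ)} (hG : Poly G) (hM : Poly M) :
    Poly (fun a => mulG (G a) (M a)) := by
  unfold mulG
  refine Poly.map (F := fun a r => (G a).map fun c => dotL r c) hM ?_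
  exact Poly.map (l := fun p : α × List ℤ => G p.1) (F := fun p c => dotL p.2 c)
    (hG.comp (Poly.fst Poly.id)) (poly_dotL (Poly.snd (Poly.fst Poly.id)) (Poly.snd Poly.id))

theorem poly_trG {M G : α → List (List ℤ)} (hM : Poly M) (hG : Poly G) :
    Poly (fun a => trG (M a) (G a)) := by
  unfold trG
  exact Poly.isum (Poly.zipWith (F := fun _ u v => dotL u v) hM hG
    (poly_dotL (Poly.fst (Poly.snd Poly.id)) (Poly.snd (Poly.snd Poly.id))))

theorem poly_idL {n : α → ℕ} (hn : UPoly n) : Poly (fun a => idL (n a)) := by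
  unfold idL
  refine Poly.map (F := fun a i => (List.range (n a)).map fun j => if i = j then (1 : ℤ) else 0)
    (UPoly.range hn) ?_
  refine Poly.map (l := fun p : α × ℕ => List.range (n p.1))
    (F := fun p j => if p.2 = j then (1 : ℤ) else 0) (UPoly.range (hn.comp (Poly.fst Poly.id))) ?_
  exact Poly.ite (p := fun q : (α × ℕ) × ℕ => q.1.2 = q.2)
    (Poly.decide_eq (Poly.snd (Poly.fst Poly.id)) (Poly.snd Poly.id)) (Poly.const _)
    (Poly.const _)

end

theorem poly_powG : Poly (fun p : List (List ℤ) × ℕ =>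
    (mulG p.1)^[min p.2 p.1.length] (idL p.1.length)) := by
  have hlen : UPoly (fun p : List (List ℤ) × ℕ => p.1.length) := UPoly.length (Poly.fst Poly.id)
  have hmin : UPoly (fun p : List (List ℤ) × ℕ => min p.2 p.1.length) :=
    UPoly.of_le (Poly.min (Poly.snd Poly.id) hlen.toPoly) hlen fun p => min_le_right _ _
  refine (Poly.iterLen (l := fun p : List (List ℤ) × ℕ => List.replicate (min p.2 p.1.length) ())
    (s := fun p => idL p.1.length) (F := fun p M => mulG p.1 M) hmin (poly_idL hlen)
    (poly_mulG (Poly.fst (Poly.fst Poly.id)) (Poly.snd Poly.id))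
    (Polynomial.X * (Polynomial.X * (Polynomial.C 4 * (Polynomial.C 2 * Polynomial.X +
      Polynomial.X * Polynomial.X) + Polynomial.C 6) + Polynomial.C 2) + Polynomial.C 1)
    ?_).congr ?_
  · rintro ⟨G, i⟩ k hk
    simp only [List.length_replicate] at hk
    have hk' : k ≤ G.length := hk.trans (min_le_right _ _)
    obtain ⟨h1, h2, h3⟩ := iter_mulG_bound G k hk'
    have h4 := iter_mulG_lt G k hk'
    have h5 := length_lt_sz G
    have h6 : sz G ≤ sz (G, i) := by rw [sz_pair]; omega
    refine (sz_mat_le h1.le (fun r hr => (h2 r hr).le) h4).trans ?_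
    simp only [Polynomial.eval_add, Polynomial.eval_mul, Polynomial.eval_C, Polynomial.eval_X]
    have h7 : sz G * sz G ≤ sz (G, i) * sz (G, i) := Nat.mul_le_mul h6 h6
    have h8 : G.length * (4 * (2 * sz G + sz G * sz G) + 6) ≤
        sz (G, i) * (4 * (2 * sz (G, i) + sz (G, i) * sz (G, i)) + 6) :=
      Nat.mul_le_mul (by omega) (by omega)
    have h9 := Nat.mul_le_mul (show G.length ≤ sz (G, i) by omega)
      (show G.length * (4 * (2 * sz G + sz G * sz G) + 6) + 2 ≤
        sz (G, i) * (4 * (2 * sz (G, i) + sz (G, i) * sz (G, i)) + 6) + 2 by omega)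
    omega
  · rintro ⟨G, i⟩
    simp

theorem poly_psL : Poly psL := by
  unfold psL
  refine Poly.map (F := fun (G : List (List ℤ)) i =>
    trG ((mulG G)^[min i G.length] (idL G.length)) G) (Poly.range_length Poly.id) ?_
  exact poly_trG (poly_powG.comp Poly.id) (Poly.fst Poly.id)

theorem newt_bound (ss : List ℤ) (k : ℕ) :
    ((newt ss)^[k] [1]).length = k + 1 ∧
    ∀ x ∈ (newt ss)^[k] [1], x.natAbs ≤ (1 + l1 ss) ^ k := by
  induction k with
  | zero => simp
  | succ k ih =>
      obtain ⟨i1, i2⟩ := ih
      rw [Function.iterate_succ_apply']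
      refine ⟨by simp [newt, i1], ?_⟩
      have hb : ∀ x ∈ (newt ss)^[k] [1], x.natAbs ≤ (1 + l1 ss) ^ (k + 1) := fun x hx =>
        (i2 x hx).trans (Nat.pow_le_pow_right (by omega) (by omega))
      intro x hx
      unfold newt at hx
      rcases List.mem_cons.1 hx with hx | hx
      · rw [hx]
        refine (Int.natAbs_ediv_le_natAbs _ _).trans ?_
        rw [Int.natAbs_neg]
        have key : ∀ (es ss : List ℤ) (B : ℕ), (∀ x ∈ es, x.natAbs ≤ B) →
            (dotL es ss).natAbs ≤ B * l1 ss := by
          intro es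
          induction es with
          | nil => intro ss B _; simp [dotL]
          | cons a es ih2 =>
              intro ss B hB
              cases ss with
              | nil => simp [dotL]
              | cons b ss =>
                  rw [dotL_cons, l1_cons, mul_add]
                  refine (Int.natAbs_add_le _ _).trans ?_
                  rw [Int.natAbs_mul]
                  exact Nat.add_le_add (Nat.mul_le_mul_right _ (hB a (by simp)))
                    (ih2 ss B fun x hx => hB x (List.mem_cons_of_mem _ hx))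
        refine (key _ ss _ i2).trans ?_
        rw [pow_succ]
        exact Nat.mul_le_mul_left _ (by omega)
      · exact hb x hx

theorem poly_newt {α β : Type} [TEnc α] [TEnc β] {ss : α → List ℤ} {l : α → List β}
    (hss : Poly ss) (hl : Poly l) : Poly (fun a => (newt (ss a))^[(l a).length] [1]) := by
  obtain ⟨q, hq⟩ := hss.sz_le
  obtain ⟨r, hr⟩ := hl.sz_le
  refine Poly.iterLen (s := fun _ => ([1] : List ℤ)) (F := fun a es => newt (ss a) es) hl
    (Poly.const _) ?_ ((r + Polynomial.C 1) * (Polynomial.C 4 * (r * (q + Polynomial.C 1) +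
      Polynomial.C 1) + Polynomial.C 6) + Polynomial.C 1) ?_
  · unfold newt
    exact Poly.cons (Poly.idiv (Poly.ineg (poly_dotL (Poly.snd Poly.id)
      (hss.comp (Poly.fst Poly.id)))) (Poly.length (Poly.snd Poly.id))) (Poly.snd Poly.id)
  · intro a k hk
    obtain ⟨h1, h2⟩ := newt_bound (ss a) k
    have h3 := length_lt_sz (l a)
    have h4 := hr a
    have h5 := hq a
    have hk' : k ≤ r.eval (sz a) := by omega
    have h6 : ∀ x ∈ (newt (ss a))^[k] [1], x.natAbs <
        2 ^ (r.eval (sz a) * (q.eval (sz a) + 1) + 1) := by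
      intro x hx
      refine lt_of_le_of_lt (h2 x hx) ?_
      have h7 : 1 + l1 (ss a) ≤ 2 ^ (q.eval (sz a) + 1) := by
        have h8 := l1_lt (ss a)
        have h9 : 2 ^ sz (ss a) ≤ 2 ^ q.eval (sz a) := Nat.pow_le_pow_right (by norm_num) h5
        rw [pow_succ]
        omega
      calc (1 + l1 (ss a)) ^ k ≤ (2 ^ (q.eval (sz a) + 1)) ^ k := Nat.pow_le_pow_left h7 k
        _ = 2 ^ ((q.eval (sz a) + 1) * k) := by rw [← pow_mul]
        _ ≤ 2 ^ (r.eval (sz a) * (q.eval (sz a) + 1)) := by
            refine Nat.pow_le_pow_right (by norm_num) ?_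
            rw [mul_comm]
            exact Nat.mul_le_mul_right _ hk'
        _ < 2 ^ (r.eval (sz a) * (q.eval (sz a) + 1) + 1) :=
            Nat.pow_lt_pow_right (by norm_num) (by omega)
    refine (sz_vec_le (b := r.eval (sz a) + 1) (by omega) h6).trans ?_
    simp only [Polynomial.eval_add, Polynomial.eval_mul, Polynomial.eval_C]
    exact le_rfl

theorem poly_sdet : Poly sdet := by
  unfold sdet
  refine Poly.natAbs ?_
  have h1 := poly_newt (ss := fun G : List (List ℤ) => psL G) (l := fun G => G) poly_psL Poly.id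
  refine (Poly.head?_getD h1 0).congr fun G => ?_
  cases (newt (psL G))^[G.length] [1] <;> rfl

/-- Gram determinants of lists of integer vectors are computable in polynomial time. -/
theorem poly_gdet {α : Type} [TEnc α] {L : α → List (List ℤ)} (hL : Poly L) :
    Poly (fun a => gdet (L a)) := by
  unfold gdet
  exact poly_sdet.comp (poly_gramL hL)

end Pool.Agent.NPC.H670R2
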