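import Pool.Agent.NPC.Defs

/-!
The decision problem ORTH3.
-/

namespace Pool.Agent.H670R2

open Pool.Agent.NPC

/-- `L` is the list of adjacency lists of a finite simple graph with vertex set
`{0, …, L.length - 1}`: the neighbours of `u` are the members of the `u`-th list. -/
def IsGraph (L : List (List ℕ)) : Prop :=
  ∀ u v : ℕ, u < L.length → v ∈ L.getD u [] → v < L.length ∧ v ≠ u ∧ u ∈ L.getD v []

/-- The simple graph given by adjacency lists. -/
def graphOf (L : List (List ℕ)) (h : IsGraph L) : SimpleGraph (Fin L.length) where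
  Adj u v := v.1 ∈ L.getD u.1 []
  symm := ⟨fun u v huv => (h u.1 v.1 u.2 huv).2.2⟩
  loopless := ⟨fun u hu => (h u.1 u.1 u.2 hu).2.1 rfl⟩

/-- `φ` is an orthogonal representation of `G` in `ℝ³`: nonzero vectors, neither of two vectors of
distinct vertices is a scalar multiple of the other, and adjacent vertices have orthogonal
vectors. -/
def IsOrthRep {V : Type} (G : SimpleGraph V) (φ : V → EuclideanSpace ℝ (Fin 3)) : Prop :=
  (∀ v, φ v ≠ 0) ∧ (∀ u v, u ≠ v → ∀ c : ℝ, φ u ≠ c • φ v) ∧
    ∀ u v, G.Adj u v → inner ℝ (φ u) (φ v) = 0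

/-- The decision problem ORTH3: the input is a finite simple graph, given by its adjacency
lists, the question is whether it has an orthogonal representation in `ℝ³`. -/
def ORTH3 : Set (List Bool) :=
  lang (fun L : List (List ℕ) => ∃ h : IsGraph L,
    ∃ φ : Fin L.length → EuclideanSpace ℝ (Fin 3), IsOrthRep (graphOf L h) φ)

end Pool.Agent.H670R2
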