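import Pool.Agent.H670R2.Mask
import Pool.Agent.H670R2.OrthDefs

/-!
The graph of a masked system, as adjacency lists, and the correctness of the reduction.
-/

namespace Pool.Agent.H670R2

open Pool.Agent.NPC

/-- number of vertices -/
def numV (K : ℕ) : ℕ := 2 + 2 * K + 2 * (K * K)

/-- the number of a vertex -/
def code (K : ℕ) : Vx → ℕ
  | .pV => 0
  | .lI => 1
  | .pS j => 2 + j
  | .lv i => 2 + K + i
  | .pt i k => 2 + 2 * K + (i * K + k)
  | .ob l j => 2 + 2 * K + K * K + (l * K + j)

theorem grid_lt {K i k : ℕ} (hi : i < K) (hk : k < K) : i * K + k < K * K := by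
  have : (i + 1) * K ≤ K * K := Nat.mul_le_mul_right K hi
  rw [Nat.add_mul, one_mul] at this
  omega

theorem grid_inj {K i k i' k' : ℕ} (hk : k < K) (hk' : k' < K)
    (h : i * K + k = i' * K + k') : i = i' ∧ k = k' := by
  have h1 : (i * K + k) / K = i := by
    rw [mul_comm, Nat.mul_add_div (by omega), Nat.div_eq_of_lt hk, add_zero]
  have h2 : (i' * K + k') / K = i' := by
    rw [mul_comm, Nat.mul_add_div (by omega), Nat.div_eq_of_lt hk', add_zero]
  have : i = i' := by rw [← h1, ← h2, h]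
  subst this
  exact ⟨rfl, by omega⟩

theorem code_lt {K : ℕ} {v : Vx} (hv : v.below K) : code K v < numV K := by
  cases v with
  | pV => simp only [code, numV]; omega
  | lI => simp only [code, numV]; omega
  | pS j => simp only [code, numV, Vx.below] at *; omega
  | lv i => simp only [code, numV, Vx.below] at *; omega
  | pt i k =>
      simp only [code, numV, Vx.below] at *
      have := grid_lt hv.1 hv.2
      omega
  | ob l j =>
      simp only [code, numV, Vx.below] at *
      have := grid_lt hv.1 hv.2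
      omega

theorem code_inj {K : ℕ} {u v : Vx} (hu : u.below K) (hv : v.below K)
    (h : code K u = code K v) : u = v := by
  cases u <;> cases v <;> simp only [code, Vx.below] at *
  case pV.pS => omega
  case pV.pt => omega
  case pV.lI => omega
  case pV.lv => omega
  case pV.ob => omega
  case lI.pS => omega
  case lI.pt => omega
  case lI.pV => omega
  case lI.lv => omega
  case lI.ob => omega
  case pS.pS j j' => exact congrArg _ (by omega)
  case pS.pV => omega
  case pS.lI => omega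
  case pS.pt => omega
  case pS.lv => omega
  case pS.ob => omega
  case lv.lv i i' => exact congrArg _ (by omega)
  case lv.pV => omega
  case lv.lI => omega
  case lv.pt => omega
  case lv.pS => omega
  case lv.ob => omega
  case pt.pt i k i' k' =>
    obtain ⟨rfl, rfl⟩ := grid_inj (K := K) (i := i) (i' := i') hu.2 hv.2 (by omega)
    rfl
  case pt.pV => omega
  case pt.lI => omega
  case pt.pS => omega
  case pt.lv => omega
  case pt.ob i k l j =>
    have := grid_lt hu.1 hu.2
    omega
  case ob.ob i k i' k' =>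
    obtain ⟨rfl, rfl⟩ := grid_inj (K := K) (i := i) (i' := i') hu.2 hv.2 (by omega)
    rfl
  case ob.pV => omega
  case ob.lI => omega
  case ob.pS => omega
  case ob.lv => omega
  case ob.pt l j i k =>
    have := grid_lt hv.1 hv.2
    omega

theorem code_surj {K c : ℕ} (hc : c < numV K) : ∃ v : Vx, v.below K ∧ code K v = c := by
  simp only [numV] at hc
  by_cases h0 : c = 0
  · exact ⟨.pV, trivial, by simp [code, h0]⟩
  by_cases h1 : c = 1
  · exact ⟨.lI, trivial, by simp [code, h1]⟩
  by_cases h2 : c < 2 + K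
  · exact ⟨.pS (c - 2), by simp only [Vx.below]; omega, by simp only [code]; omega⟩
  by_cases h3 : c < 2 + 2 * K
  · exact ⟨.lv (c - 2 - K), by simp only [Vx.below]; omega, by simp only [code]; omega⟩
  have hK : 0 < K := by
    rcases Nat.eq_zero_or_pos K with h | h
    · subst h; omega
    · exact h
  by_cases h4 : c < 2 + 2 * K + K * K
  · refine ⟨.pt ((c - 2 - 2 * K) / K) ((c - 2 - 2 * K) % K), ⟨?_, Nat.mod_lt _ hK⟩, ?_⟩
    · exact Nat.div_lt_of_lt_mul (by omega)
    · simp only [code]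
      have := Nat.div_add_mod (c - 2 - 2 * K) K
      rw [mul_comm] at this
      omega
  · refine ⟨.ob ((c - 2 - 2 * K - K * K) / K) ((c - 2 - 2 * K - K * K) % K),
      ⟨?_, Nat.mod_lt _ hK⟩, ?_⟩
    · exact Nat.div_lt_of_lt_mul (by omega)
    · simp only [code]
      have := Nat.div_add_mod (c - 2 - 2 * K - K * K) K
      rw [mul_comm] at this
      omega

/-- the list of incidences, as pairs of codes -/
def edges (K : ℕ) (cs : List Cst) : List (ℕ × ℕ) :=
  (code K .pV, code K .lI) ::
  ((List.range K).flatMap (fun i => [(code K (.pS i), code K .lI), (code K .pV, code K (.lv i)),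
      (code K (.pt 2 i), code K (.ob 0 i)), (code K (.pt i 0), code K (.ob i 1))]) ++
  (List.range K).flatMap (fun i => (List.range K).flatMap (fun k =>
    [(code K (.pt i k), code K (.lv i)), (code K (.pS k), code K (.ob i k)),
      (code K (.pt i k), code K (.ob k 0)), (code K (.pt 0 i), code K (.ob i k))])) ++
  cs.map (fun c => (code K (.pt c.i c.k), code K (.ob c.l c.j))))

theorem mem_edges {K : ℕ} {cs : List Cst} {p : ℕ × ℕ} :
    p ∈ edges K cs ↔ ∃ u v : Vx, Inc K cs u v ∧ p = (code K u, code K v) := by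
  constructor
  · intro h
    simp only [edges, List.mem_cons, List.mem_append, List.mem_flatMap, List.mem_range,
      List.mem_map, List.not_mem_nil, or_false] at h
    rcases h with h | (⟨i, hi, h⟩ | ⟨i, hi, k, hk, h⟩) | ⟨c, hc, h⟩
    · exact ⟨_, _, Inc.e1, h⟩
    · rcases h with h | h | h | h
      · exact ⟨_, _, Inc.e2 i hi, h⟩
      · exact ⟨_, _, Inc.e3 i hi, h⟩
      · exact ⟨_, _, Inc.e8 i hi, h⟩
      · exact ⟨_, _, Inc.e9 i hi, h⟩
    · rcases h with h | h | h | h
      · exact ⟨_, _, Inc.e4 i k hi hk, h⟩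
      · exact ⟨_, _, Inc.e5 i k hi hk, h⟩
      · exact ⟨_, _, Inc.e6 i k hi hk, h⟩
      · exact ⟨_, _, Inc.e7 i k hi hk, h⟩
    · exact ⟨_, _, Inc.e10 c hc, h.symm⟩
  · rintro ⟨u, v, h, rfl⟩
    simp only [edges, List.mem_cons, List.mem_append, List.mem_flatMap, List.mem_range,
      List.mem_map, List.not_mem_nil, or_false]
    cases h with
    | e1 => exact Or.inl rfl
    | e2 j h => exact Or.inr (Or.inl (Or.inl ⟨j, h, Or.inl rfl⟩))
    | e3 i h => exact Or.inr (Or.inl (Or.inl ⟨i, h, Or.inr (Or.inl rfl)⟩))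
    | e8 i h => exact Or.inr (Or.inl (Or.inl ⟨i, h, Or.inr (Or.inr (Or.inl rfl))⟩))
    | e9 i h => exact Or.inr (Or.inl (Or.inl ⟨i, h, Or.inr (Or.inr (Or.inr rfl))⟩))
    | e4 i k h h' => exact Or.inr (Or.inl (Or.inr ⟨i, h, k, h', Or.inl rfl⟩))
    | e5 l j h h' => exact Or.inr (Or.inl (Or.inr ⟨l, h, j, h', Or.inr (Or.inl rfl)⟩))
    | e6 i k h h' => exact Or.inr (Or.inl (Or.inr ⟨i, h, k, h', Or.inr (Or.inr (Or.inl rfl))⟩))
    | e7 l j h h' => exact Or.inr (Or.inl (Or.inr ⟨l, h, j, h', Or.inr (Or.inr (Or.inr rfl))⟩))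
    | e10 c h => exact Or.inr (Or.inr ⟨c, h, rfl⟩)

theorem Inc.below {K : ℕ} (hK : 3 ≤ K) {cs : List Cst} (hcs : CBelow K cs) {u v : Vx}
    (h : Inc K cs u v) : u.below K ∧ v.below K := by
  cases h with
  | e10 c h =>
      obtain ⟨a, b, c', d⟩ := hcs c h
      exact ⟨⟨a, c'⟩, ⟨d, b⟩⟩
  | _ =>
      refine ⟨?_, ?_⟩ <;> simp only [Vx.below] <;>
        first | trivial | omega | exact ⟨by omega, by omega⟩

theorem Inc.ne {K : ℕ} {cs : List Cst} {u v : Vx} (h : Inc K cs u v) : u ≠ v := by
  intro h'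
  subst h'
  exact h.isPt.2 h.isPt.1

/-- the adjacency lists from a list of edges -/
def adjLists (n : ℕ) (E : List (ℕ × ℕ)) : List (List ℕ) :=
  (List.range n).map fun u => (List.range n).filter fun v => decide ((u, v) ∈ E) || decide ((v, u) ∈ E)

theorem adjLists_length (n : ℕ) (E : List (ℕ × ℕ)) : (adjLists n E).length = n := by
  simp [adjLists]

theorem mem_adjLists {n : ℕ} {E : List (ℕ × ℕ)} {u v : ℕ} (hu : u < n) :
    v ∈ (adjLists n E).getD u [] ↔ v < n ∧ ((u, v) ∈ E ∨ (v, u) ∈ E) := by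
  rw [adjLists, List.getD_eq_getElem?_getD, List.getElem?_map, List.getElem?_range hu]
  simp

/-- the graph of a system of constraints -/
def gr (K : ℕ) (cs : List Cst) : List (List ℕ) := adjLists (numV K) (edges K cs)

theorem gr_length (K : ℕ) (cs : List Cst) : (gr K cs).length = numV K := adjLists_length _ _

theorem isGraph_gr {K : ℕ} (hK : 3 ≤ K) {cs : List Cst} (hcs : CBelow K cs) :
    IsGraph (gr K cs) := by
  intro u v hu hv
  rw [gr_length] at hu ⊢
  rw [gr, mem_adjLists hu] at hv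
  refine ⟨hv.1, ?_, ?_⟩
  · rintro rfl
    have h : (v, v) ∈ edges K cs := by tauto
    obtain ⟨a, b, hab, h⟩ := mem_edges.1 h
    simp only [Prod.mk.injEq] at h
    obtain ⟨ha, hb⟩ := hab.below hK hcs
    exact hab.ne (code_inj ha hb (by rw [← h.1, ← h.2]))
  · rw [gr, mem_adjLists hv.1]
    exact ⟨hu, hv.2.symm⟩

theorem dot_eq_inner (x y : EuclideanSpace ℝ (Fin 3)) :
    inner ℝ x y = dot x y := by
  simp only [PiLp.inner_apply, Fin.sum_univ_three, dot]
  simp only [RCLike.inner_apply, conj_trivial]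
  ring

/-- from a representation of the graph to a solution of the constraints -/
theorem sat_of_graph {K : ℕ} (hK : 3 ≤ K) {cs : List Cst} (hcs : CBelow K cs)
    (h : IsGraph (gr K cs)) (φ : Fin (gr K cs).length → EuclideanSpace ℝ (Fin 3))
    (hφ : IsOrthRep (graphOf (gr K cs) h) φ) : ∃ w : ℕ → ℝ, Sat w cs := by
  classical
  have hlen := gr_length K cs
  obtain ⟨hφ0, hφ1, hφ2⟩ := hφ
  let P : Vx → Fin 3 → ℝ := fun v =>
    if h : code K v < (gr K cs).length then φ ⟨code K v, h⟩ else 0
  have hP : ∀ v : Vx, v.below K → ∃ hc : code K v < (gr K cs).length,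
      P v = (φ ⟨code K v, hc⟩ : Fin 3 → ℝ) := by
    intro v hv
    have hc : code K v < (gr K cs).length := by rw [hlen]; exact code_lt hv
    exact ⟨hc, by simp only [P, hc, dif_pos]⟩
  refine sat_of_rep hK hcs P ?_ ?_
  · intro u v hu hv huv
    obtain ⟨hcu, eu⟩ := hP u hu
    obtain ⟨hcv, ev⟩ := hP v hv
    have hne : code K u ≠ code K v := fun h => huv (code_inj hu hv h)
    rw [eu, ev]
    constructor
    · intro c hc
      exact hφ1 ⟨code K u, hcu⟩ ⟨code K v, hcv⟩ (by simpa using hne) c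
        (by ext i; exact congrFun hc i)
    · intro c hc
      exact hφ1 ⟨code K v, hcv⟩ ⟨code K u, hcu⟩ (by simpa using hne.symm) c
        (by ext i; exact congrFun hc i)
  · intro u v huv
    obtain ⟨hu, hv⟩ := huv.below hK hcs
    obtain ⟨hcu, eu⟩ := hP u hu
    obtain ⟨hcv, ev⟩ := hP v hv
    have hadj : (graphOf (gr K cs) h).Adj ⟨code K u, hcu⟩ ⟨code K v, hcv⟩ := by
      change code K v ∈ (gr K cs).getD (code K u) []
      rw [gr, mem_adjLists (code_lt hu)]
      exact ⟨code_lt hv, Or.inl (mem_edges.2 ⟨u, v, huv, rfl⟩)⟩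
    have := hφ2 _ _ hadj
    rw [dot_eq_inner] at this
    rw [eu, ev]
    exact this

/-- from a solution in distinct values to a representation of the graph -/
theorem graph_of_sat {K : ℕ} (hK : 3 ≤ K) {cs : List Cst} (hcs : CBelow K cs) {w : ℕ → ℝ}
    (hw : Sat w cs) (hinj : Set.InjOn w {i | i < K}) (h : IsGraph (gr K cs)) :
    ∃ φ : Fin (gr K cs).length → EuclideanSpace ℝ (Fin 3),
      IsOrthRep (graphOf (gr K cs) h) φ := by
  classical
  have hlen := gr_length K cs
  have hdec : ∀ c : Fin (gr K cs).length, ∃ v : Vx, v.below K ∧ code K v = c.1 :=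
    fun c => code_surj (by rw [← hlen]; exact c.2)
  choose dec hdb hdc using hdec
  let I := {c : Fin (gr K cs).length // (dec c).isPt}
  let J := {c : Fin (gr K cs).length // ¬ (dec c).isPt}
  obtain ⟨p', l', h1, h2, h3, h4⟩ := exists_separation (I := I) (J := J)
    (fun c => vec w (dec c.1)) (fun c => vec w (dec c.1)) (fun c => vec_ne_zero w _)
    (fun c => vec_ne_zero w _)
  let ψ : Fin (gr K cs).length → Fin 3 → ℝ := fun c =>
    if hc : (dec c).isPt then p' ⟨c, hc⟩ else l' ⟨c, hc⟩
  have hNC : ∀ u v, u ≠ v → NC (ψ u) (ψ v) := by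
    intro u v huv
    have hne : dec u ≠ dec v := by
      intro he
      apply huv
      apply Fin.ext
      rw [← hdc u, ← hdc v, he]
    by_cases hu : (dec u).isPt <;> by_cases hv : (dec v).isPt
    · simp only [ψ, hu, hv, dif_pos]
      exact h2 ⟨u, hu⟩ ⟨v, hv⟩ (vec_nc hinj (hdb u) (hdb v) hne (by simp [hu, hv]))
    · simp only [ψ, hu, hv, dif_pos]
      exact h4 ⟨u, hu⟩ ⟨v, hv⟩
    · simp only [ψ, hu, hv, dif_pos]
      exact (h4 ⟨v, hv⟩ ⟨u, hu⟩).symm
    · simp only [ψ, hu, hv]
      exact h3 ⟨u, hu⟩ ⟨v, hv⟩ (vec_nc hinj (hdb u) (hdb v) hne (by simp [hu, hv]))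
  have hinc : ∀ u v : Fin (gr K cs).length, (u.1, v.1) ∈ edges K cs →
      dot (ψ u) (ψ v) = 0 := by
    intro u v huv
    obtain ⟨a, b, hab, he⟩ := mem_edges.1 huv
    simp only [Prod.mk.injEq] at he
    obtain ⟨ha, hb⟩ := hab.below hK hcs
    have ea : dec u = a := code_inj (hdb u) ha (by rw [hdc u, he.1])
    have eb : dec v = b := code_inj (hdb v) hb (by rw [hdc v, he.2])
    have hpu : (dec u).isPt := by rw [ea]; exact hab.isPt.1
    have hpv : ¬ (dec v).isPt := by rw [eb]; exact hab.isPt.2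
    simp only [ψ, hpu, hpv, dif_pos]
    refine h1 ⟨u, hpu⟩ ⟨v, hpv⟩ ?_
    simp only [ea, eb]
    exact vec_inc hw hab
  refine ⟨fun c => WithLp.toLp 2 (ψ c), ?_, ?_, ?_⟩
  · intro v hv
    have h0 : ψ v = 0 := by
      ext i
      exact congrFun (congrArg (fun x : EuclideanSpace ℝ (Fin 3) => (x : Fin 3 → ℝ)) hv) i
    have hone : ∃ u : Fin (gr K cs).length, u ≠ v := by
      have h2n : 2 ≤ (gr K cs).length := by rw [hlen, numV]; omega
      by_cases hv0 : v.1 = 0
      · exact ⟨⟨1, by omega⟩, by intro he; simp [← he] at hv0⟩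
      · exact ⟨⟨0, by omega⟩, by intro he; simp [← he] at hv0⟩
    obtain ⟨u, hu⟩ := hone
    exact (hNC u v hu).right_ne h0
  · intro u v huv c hc
    refine (hNC u v huv).1 c ?_
    ext i
    exact congrFun (congrArg (fun x : EuclideanSpace ℝ (Fin 3) => (x : Fin 3 → ℝ)) hc) i
  · intro u v huv
    have huv' := (mem_adjLists (by rw [← hlen]; exact u.2)).1
      (show v.1 ∈ (adjLists (numV K) (edges K cs)).getD u.1 [] from huv)
    rw [dot_eq_inner]
    rcases huv'.2 with h | h
    · exact hinc u v h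
    · have := hinc v u h
      have e : dot (ψ u) (ψ v) = dot (ψ v) (ψ u) := by simp only [dot]; ring
      exact e.trans this

/-- correctness of the reduction from systems of equations to ORTH3 -/
theorem red_correct {m : ℕ} {es : List EC} (hb : ∀ e ∈ es, e.below m) :
    (∃ x : ℕ → ℝ, ∀ e ∈ es, e.holds x) ↔
    ∃ h : IsGraph (gr (maskK m es) (mask m es)),
      ∃ φ : Fin (gr (maskK m es) (mask m es)).length → EuclideanSpace ℝ (Fin 3),
        IsOrthRep (graphOf _ h) φ := by
  have hK : 3 ≤ maskK m es := by simp only [maskK]; omega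
  have hcs := mask_below hb
  constructor
  · rintro ⟨x, hx⟩
    obtain ⟨w, hw, hinj⟩ := mask_complete hb hx
    exact ⟨isGraph_gr hK hcs, graph_of_sat hK hcs hw hinj _⟩
  · rintro ⟨h, φ, hφ⟩
    obtain ⟨w, hw⟩ := sat_of_graph hK hcs h φ hφ
    exact mask_sound hw

end Pool.Agent.H670R2
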