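import Pool.Agent.H670R2.PolyRed
import Pool.Agent.ER.Hard

/-!
`∃ℝ`-hardness of ORTH3.
-/

namespace Pool.Agent.NPC.H670R2

open Pool.Agent.NPC Pool.Agent.NPC.ER Pool.Agent.H670R2

/-- the first position of `x` in `l` (`0` if there is none) -/
def pos (l : List ℕ) (x : ℕ) : ℕ :=
  ((l.zipIdx.filter fun p => decide (p.1 = x)).map Prod.snd).head?.getD 0

theorem pos_spec {l : List ℕ} {x : ℕ} (hx : x ∈ l) : l.getD (pos l x) 0 = x ∧ pos l x < l.length := by
  obtain ⟨i, hi, hx⟩ := List.getElem_of_mem hx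
  have hne : (x, i) ∈ l.zipIdx.filter fun p => decide (p.1 = x) := by
    rw [List.mem_filter]
    refine ⟨?_, by simp⟩
    rw [List.mem_zipIdx_iff_getElem?]
    simp [hi, hx]
  cases h : l.zipIdx.filter fun p => decide (p.1 = x) with
  | nil => rw [h] at hne; simp at hne
  | cons p ps =>
      have hp : p ∈ l.zipIdx.filter fun p => decide (p.1 = x) := by rw [h]; simp
      rw [List.mem_filter, List.mem_zipIdx_iff_getElem?] at hp
      have e : pos l x = p.2 := by simp [pos, h]
      rw [e]
      obtain ⟨h1, h2⟩ := hp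
      obtain ⟨h3, h4⟩ := List.getElem?_eq_some_iff.1 h1
      refine ⟨?_, h3⟩
      rw [List.getD_eq_getElem _ _ h3, h4]
      simpa using h2

theorem poly_pos {α : Type} [TEnc α] {l : α → List ℕ} {x : α → ℕ} (hl : Poly l) (hx : Poly x) :
    Poly (fun a => pos (l a) (x a)) := by
  unfold pos
  have h1 : Poly (fun a => ((l a).zipIdx.filter fun p => decide (p.1 = x a)).map Prod.snd) :=
    Poly.map (F := fun _ (p : ℕ × ℕ) => p.2) (Poly.filter
      (p := fun a (p : ℕ × ℕ) => decide (p.1 = x a)) (Poly.zipIdx hl)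
      (Poly.decide_eq (Poly.fst (Poly.snd Poly.id)) (hx.comp (Poly.fst Poly.id))))
      (Poly.snd (Poly.snd Poly.id))
  exact Poly.head?_getD h1 0

/-- an equation with renamed variables, as a tuple -/
def renT (l : List ℕ) (q : ℕ × ℕ × ℕ × ℕ) : ℕ × ℕ × ℕ × ℕ :=
  if q.1 = 0 then (0, pos l q.2.1, 0, 0)
  else (q.1, pos l q.2.1, pos l q.2.2.1, pos l q.2.2.2)

/-- an equation with renamed variables -/
def ren (l : List ℕ) : Con → EC
  | .one i => .one (pos l i)
  | .add i j k => .add (pos l i) (pos l j) (pos l k)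
  | .mul i j k => .mul (pos l i) (pos l j) (pos l k)

theorem ren_tup (l : List ℕ) (c : Con) : (ren l c).tup = renT l c.code := by
  cases c <;> simp [ren, renT, EC.tup, Con.code]

theorem poly_ren {α : Type} [TEnc α] {l : α → List ℕ} {c : α → Con} (hl : Poly l) (hc : Poly c) :
    Poly (fun a => ren (l a) (c a)) := by
  have hc' : Poly (fun a => (c a).code) := hc
  have h1 := Poly.fst hc'
  have h2 := Poly.fst (Poly.snd hc')
  have h3 := Poly.fst (Poly.snd (Poly.snd hc'))
  have h4 := Poly.snd (Poly.snd (Poly.snd hc'))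
  have h : Poly (fun a => renT (l a) (c a).code) := by
    unfold renT
    refine Poly.ite (Poly.decide_eq h1 (Poly.const 0)) ?_ ?_
    · exact Poly.pair (Poly.const 0) (Poly.pair (poly_pos hl h2) (Poly.const (0, 0)))
    · exact Poly.pair h1 (Poly.pair (poly_pos hl h2) (Poly.pair (poly_pos hl h3) (poly_pos hl h4)))
  have h' : Poly (fun a => (ren (l a) (c a)).tup) := h.congr fun a => (ren_tup _ _).symm
  exact h'

/-- all variables occurring in a system -/
def occ (S : List Con) : List ℕ := S.flatMap Con.vars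

theorem poly_vars {α : Type} [TEnc α] {c : α → Con} (hc : Poly c) :
    Poly (fun a => (c a).vars) := by
  have hc' : Poly (fun a => (c a).code) := hc
  have h1 := Poly.fst hc'
  have h2 := Poly.fst (Poly.snd hc')
  have h3 := Poly.fst (Poly.snd (Poly.snd hc'))
  have h4 := Poly.snd (Poly.snd (Poly.snd hc'))
  have h : Poly (fun a => if (c a).code.1 = 0 then [(c a).code.2.1]
      else [(c a).code.2.1, (c a).code.2.2.1, (c a).code.2.2.2]) :=
    Poly.ite (Poly.decide_eq h1 (Poly.const 0)) (Poly.cons h2 (Poly.const []))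
      (Poly.cons h2 (Poly.cons h3 (Poly.cons h4 (Poly.const []))))
  exact h.congr fun a => by cases c a <;> simp [Con.code, Con.vars]

theorem poly_occ {α : Type} [TEnc α] {S : α → List Con} (hS : Poly S) :
    Poly (fun a => occ (S a)) :=
  Poly.flatMap (F := fun _ c => Con.vars c) hS (poly_vars (Poly.snd Poly.id))

/-- the renamed system -/
def norm (S : List Con) : List EC := S.map (ren (occ S))

theorem poly_norm {α : Type} [TEnc α] {S : α → List Con} (hS : Poly S) :
    Poly (fun a => norm (S a)) :=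
  Poly.map (F := fun a c => ren (occ (S a)) c) hS
    (poly_ren ((poly_occ hS).comp (Poly.fst Poly.id)) (Poly.snd Poly.id))

theorem norm_below (S : List Con) : ∀ e ∈ norm S, e.below (occ S).length := by
  intro e he
  simp only [norm, List.mem_map] at he
  obtain ⟨c, hc, rfl⟩ := he
  have hv : ∀ i ∈ c.vars, pos (occ S) i < (occ S).length := fun i hi =>
    (pos_spec (List.mem_flatMap.2 ⟨c, hc, hi⟩)).2
  cases c <;> simp [Con.vars] at hv <;> simp [ren, EC.below, hv]

theorem norm_sat (S : List Con) : ER.Sat S ↔ ∃ x : ℕ → ℝ, ∀ e ∈ norm S, e.holds x := by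
  constructor
  · rintro ⟨v, hv⟩
    refine ⟨fun i => v ((occ S).getD i 0), ?_⟩
    intro e he
    simp only [norm, List.mem_map] at he
    obtain ⟨c, hc, rfl⟩ := he
    have hp : ∀ i ∈ c.vars, (occ S).getD (pos (occ S) i) 0 = i := fun i hi =>
      (pos_spec (List.mem_flatMap.2 ⟨c, hc, hi⟩)).1
    have h := hv c hc
    cases c <;> simp only [Con.vars, List.mem_cons, List.not_mem_nil, or_false] at hp <;>
      simp only [ren, EC.holds, Con.Holds] at h ⊢
    · rw [hp _ rfl]; exact h
    · rw [hp _ (Or.inl rfl), hp _ (Or.inr (Or.inl rfl)), hp _ (Or.inr (Or.inr rfl))]; exact h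
    · rw [hp _ (Or.inl rfl), hp _ (Or.inr (Or.inl rfl)), hp _ (Or.inr (Or.inr rfl))]; exact h
  · rintro ⟨x, hx⟩
    refine ⟨fun i => x (pos (occ S) i), ?_⟩
    intro c hc
    have h := hx (ren (occ S) c) (List.mem_map.2 ⟨c, hc, rfl⟩)
    cases c <;> exact h

theorem orth3_hard : ERHard ORTH3 := by
  refine ERHard.of_sys (f := fun S => red (occ S).length (norm S))
    (poly_red (UPoly.length (poly_occ Poly.id)) (poly_norm Poly.id)) ?_
  intro S
  rw [norm_sat]
  exact red_correct (norm_below S)

end Pool.Agent.NPC.H670R2
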