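import Pool.Agent.H670R2.Sound

/-!
Generic masking: a system of equations `x i = 1`, `x i + x j = x k`, `x i * x j = x k` over the
reals is turned into a system of constraints `w l = w i * w j + w k` that, if solvable, is
solvable in pairwise distinct values.  The real number `x v` is represented as the sum
`w (3 + 2 v) + w (4 + 2 v)`.
-/

namespace Pool.Agent.H670R2

/-- equations of the normal form -/
inductive EC : Type
  | one (i : ℕ)
  | add (i j k : ℕ)
  | mul (i j k : ℕ)
  deriving DecidableEq

/-- the equation holds for the assignment `x` -/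
def EC.holds (x : ℕ → ℝ) : EC → Prop
  | .one i => x i = 1
  | .add i j k => x i + x j = x k
  | .mul i j k => x i * x j = x k

/-- all variables of the equation are below `m` -/
def EC.below (m : ℕ) : EC → Prop
  | .one i => i < m
  | .add i j k => i < m ∧ j < m ∧ k < m
  | .mul i j k => i < m ∧ j < m ∧ k < m

/-- the six products whose sum has to vanish -/
def EC.terms : EC → List (ℕ × ℕ)
  | .one i => [(3 + 2 * i, 1), (4 + 2 * i, 1), (3 + 2 * i, 1), (4 + 2 * i, 1), (1, 2), (1, 2)]
  | .add i j k => [(3 + 2 * i, 1), (4 + 2 * i, 1), (3 + 2 * j, 1), (4 + 2 * j, 1),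
      (3 + 2 * k, 2), (4 + 2 * k, 2)]
  | .mul i j k => [(3 + 2 * i, 3 + 2 * j), (3 + 2 * i, 4 + 2 * j), (4 + 2 * i, 3 + 2 * j),
      (4 + 2 * i, 4 + 2 * j), (3 + 2 * k, 2), (4 + 2 * k, 2)]

/-- add the terms one by one to the pair `(w B, w (B + 1))`, the result has to be zero -/
def accs : ℕ → List (ℕ × ℕ) → List Cst
  | B, [] => [⟨B, 1, B + 1, 0⟩]
  | B, t :: ts => ⟨B + 2, 1, B, B + 3⟩ :: ⟨t.1, t.2, B + 3, B + 4⟩ :: ⟨B + 2, 1, B + 5, B + 1⟩ ::
      accs (B + 4) ts

def gadget (B : ℕ) (ts : List (ℕ × ℕ)) : List Cst := ⟨B, 1, B + 1, 0⟩ :: accs B ts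

/-- the constraints for a list of equations, starting at index `B` -/
def maskFrom : ℕ → List EC → List Cst
  | _, [] => []
  | B, e :: es => gadget B e.terms ++ maskFrom (B + 26) es

/-- the number of indices used -/
def maskK (m : ℕ) (es : List EC) : ℕ := 3 + 2 * m + 26 * es.length

/-- the masked system -/
def mask (m : ℕ) (es : List EC) : List Cst := maskFrom (3 + 2 * m) es

def tsum (w : ℕ → ℝ) (ts : List (ℕ × ℕ)) : ℝ := (ts.map fun t => w t.1 * w t.2).sum

theorem tsum_cons (w : ℕ → ℝ) (t : ℕ × ℕ) (ts : List (ℕ × ℕ)) :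
    tsum w (t :: ts) = w t.1 * w t.2 + tsum w ts := by simp [tsum]

theorem tsum_nil (w : ℕ → ℝ) : tsum w [] = 0 := by simp [tsum]

theorem tsum_congr {w w' : ℕ → ℝ} {ts : List (ℕ × ℕ)}
    (h : ∀ t ∈ ts, w' t.1 = w t.1 ∧ w' t.2 = w t.2) : tsum w' ts = tsum w ts := by
  unfold tsum
  congr 1
  apply List.map_congr_left
  intro t ht
  rw [(h t ht).1, (h t ht).2]

theorem tsum_terms {w : ℕ → ℝ} (h1 : w 1 = 1) (h2 : w 2 = -1) (e : EC) :
    tsum w e.terms = 0 ↔ e.holds (fun v => w (3 + 2 * v) + w (4 + 2 * v)) := by
  cases e with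
  | one i =>
      simp only [EC.terms, tsum_cons, tsum_nil, h1, h2, EC.holds]
      constructor <;> intro h <;> linarith
  | add i j k =>
      simp only [EC.terms, tsum_cons, tsum_nil, h1, h2, EC.holds]
      constructor <;> intro h <;> linarith
  | mul i j k =>
      simp only [EC.terms, tsum_cons, tsum_nil, h2, EC.holds]
      constructor <;> intro h <;> linarith

/-! ### Soundness -/

theorem accs_sound {w : ℕ → ℝ} (h0 : w 0 = 0) (h1 : w 1 = 1) : ∀ (ts : List (ℕ × ℕ)) (B : ℕ),
    (∀ c ∈ accs B ts, w c.l = w c.i * w c.j + w c.k) → w B + w (B + 1) + tsum w ts = 0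
  | [], B, h => by
      have := h ⟨B, 1, B + 1, 0⟩ (by simp [accs])
      simp only [h0, h1] at this
      rw [tsum_nil]
      linarith
  | t :: ts, B, h => by
      have e1 := h ⟨B + 2, 1, B, B + 3⟩ (by simp [accs])
      have e2 := h ⟨t.1, t.2, B + 3, B + 4⟩ (by simp [accs])
      have e3 := h ⟨B + 2, 1, B + 5, B + 1⟩ (by simp [accs])
      have ih := accs_sound h0 h1 ts (B + 4) (fun c hc => h c (by simp [accs, hc]))
      simp only [h1] at e1 e2 e3
      rw [tsum_cons]
      have e4 : B + 4 + 1 = B + 5 := rfl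
      rw [e4] at ih
      linarith

theorem maskFrom_sound {w : ℕ → ℝ} (h0 : w 0 = 0) (h1 : w 1 = 1) (h2 : w 2 = -1) :
    ∀ (es : List EC) (B : ℕ), (∀ c ∈ maskFrom B es, w c.l = w c.i * w c.j + w c.k) →
      ∀ e ∈ es, e.holds (fun v => w (3 + 2 * v) + w (4 + 2 * v))
  | [], _, _, e, he => by simp at he
  | e' :: es, B, h, e, he => by
      rcases List.mem_cons.1 he with rfl | he
      · rw [← tsum_terms h1 h2]
        have e1 := h ⟨B, 1, B + 1, 0⟩ (by simp [maskFrom, gadget])
        have e2 := accs_sound h0 h1 e.terms B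
          (fun c hc => h c (by simp [maskFrom, gadget, hc]))
        simp only [h0, h1] at e1
        linarith
      · exact maskFrom_sound h0 h1 h2 es (B + 26) (fun c hc => h c (by simp [maskFrom, hc])) e he

theorem mask_sound {m : ℕ} {es : List EC} {w : ℕ → ℝ} (h : Sat w (mask m es)) :
    ∃ x : ℕ → ℝ, ∀ e ∈ es, e.holds x :=
  ⟨_, maskFrom_sound h.1 h.2.1 h.2.2.1 es _ h.2.2.2⟩

/-! ### Completeness -/

theorem injOn_extend {w : ℕ → ℝ} {N : ℕ} (h : Set.InjOn w {i | i < N}) (x : ℝ)
    (hx : ∀ i < N, x ≠ w i) : Set.InjOn (Function.update w N x) {i | i < N + 1} := by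
  intro i hi j hj hij
  simp only [Set.mem_ofPred_eq] at hi hj
  rcases Nat.lt_succ_iff_lt_or_eq.1 hi with hi' | hi' <;>
    rcases Nat.lt_succ_iff_lt_or_eq.1 hj with hj' | hj'
  · rw [Function.update_of_ne hi'.ne, Function.update_of_ne hj'.ne] at hij
    exact h hi' hj' hij
  · subst hj'
    rw [Function.update_of_ne hi'.ne, Function.update_self] at hij
    exact absurd hij.symm (hx i hi')
  · subst hi'
    rw [Function.update_of_ne hj'.ne, Function.update_self] at hij
    exact absurd hij (hx j hj')
  · omega

/-- the extension of `w` at `N` by a list of values -/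
def extend (w : ℕ → ℝ) (N : ℕ) : List ℝ → ℕ → ℝ
  | [] => w
  | x :: xs => extend (Function.update w N x) (N + 1) xs

theorem extend_of_lt : ∀ (xs : List ℝ) (w : ℕ → ℝ) (N i : ℕ), i < N → extend w N xs i = w i
  | [], _, _, _, _ => rfl
  | x :: xs, w, N, i, h => by
      rw [extend, extend_of_lt xs _ _ _ (by omega), Function.update_of_ne (by omega)]

theorem extend_add : ∀ (xs : List ℝ) (w : ℕ → ℝ) (N k : ℕ) (h : k < xs.length),
    extend w N xs (N + k) = xs[k]
  | [], _, _, _, h => by simp at h
  | x :: xs, w, N, 0, _ => by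
      rw [extend, extend_of_lt xs _ _ _ (by omega)]
      simp
  | x :: xs, w, N, k + 1, h => by
      rw [extend, show N + (k + 1) = N + 1 + k by omega]
      rw [extend_add xs _ _ k (by simpa using h)]
      simp

theorem injOn_extend_list : ∀ (xs : List ℝ) (w : ℕ → ℝ) (N : ℕ), Set.InjOn w {i | i < N} →
    (∀ x ∈ xs, ∀ i < N, x ≠ w i) → xs.Nodup → Set.InjOn (extend w N xs) {i | i < N + xs.length}
  | [], w, N, h, _, _ => by simpa [extend] using h
  | x :: xs, w, N, h, h1, h2 => by
      rw [extend, List.length_cons, show N + (xs.length + 1) = N + 1 + xs.length by omega]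
      rw [List.nodup_cons] at h2
      refine injOn_extend_list xs _ (N + 1) (injOn_extend h x (h1 x (by simp))) ?_ h2.2
      intro y hy i hi
      rcases Nat.lt_succ_iff_lt_or_eq.1 hi with hi' | hi'
      · rw [Function.update_of_ne hi'.ne]
        exact h1 y (by simp [hy]) i hi'
      · subst hi'
        rw [Function.update_self]
        rintro rfl
        exact h2.1 hy

theorem acc_ext : ∀ (ts : List (ℕ × ℕ)) (B : ℕ) (w : ℕ → ℝ), 3 ≤ B →
    w 0 = 0 → w 1 = 1 → Set.InjOn w {i | i < B + 2} →
    (∀ t ∈ ts, t.1 < B + 2 ∧ t.2 < B + 2 ∧ w t.1 * w t.2 ≠ 0) →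
    w B + w (B + 1) + tsum w ts = 0 →
    (∀ t, ts.head? = some t → w B + w t.1 * w t.2 ≠ 0) →
    ∃ w' : ℕ → ℝ, (∀ i < B + 2, w' i = w i) ∧
      Set.InjOn w' {i | i < B + 2 + 4 * ts.length} ∧
      ∀ c ∈ accs B ts, w' c.l = w' c.i * w' c.j + w' c.k
  | [], B, w, hB, h0, h1, hinj, _, hs, _ => by
      refine ⟨w, fun _ _ => rfl, by simpa using hinj, ?_⟩
      intro c hc
      simp only [accs, List.mem_singleton] at hc
      subst hc
      rw [tsum_nil] at hs
      simp only [h0, h1]
      linarith
  | t :: ts, B, w, hB, h0, h1, hinj, ht, hs, hh => by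
      classical
      obtain ⟨ht1, ht2, ht3⟩ := ht t (by simp)
      have hh' := hh t (by simp)
      -- the value of the next term
      let t' : ℝ := match ts.head? with
        | some t' => w t'.1 * w t'.2
        | none => 0
      let W : Finset ℝ := (Finset.range (B + 2)).image w
      let F : Finset ℝ := W ∪ W.image (fun y => y - w B) ∪
        W.image (fun y => y - w B - w t.1 * w t.2) ∪ W.image (fun y => w (B + 1) - y) ∪
        {w (B + 1) / 2, (w (B + 1) - w B) / 2, (w (B + 1) - w B - w t.1 * w t.2) / 2,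
          - t' - w B - w t.1 * w t.2}
      obtain ⟨n, hn⟩ := Infinite.exists_notMem_finset F
      simp only [F, W, Finset.mem_union, Finset.mem_image, Finset.mem_range, Finset.mem_insert,
        Finset.mem_singleton, not_or, not_exists, not_and] at hn
      obtain ⟨⟨⟨⟨hn1, hn2⟩, hn3⟩, hn4⟩, hn5, hn6, hn7, hn8⟩ := hn
      let xs : List ℝ := [n, w B + n, w B + n + w t.1 * w t.2, w (B + 1) - n]
      let w₁ : ℕ → ℝ := extend w (B + 2) xs
      have hB0 : w B ≠ 0 := by
        intro h
        rw [← h0] at h
        have := hinj (show B ∈ {i | i < B + 2} by simp) (show 0 ∈ {i | i < B + 2} by simp) h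
        omega
      have hw₁ : ∀ i < B + 2, w₁ i = w i := fun i hi => extend_of_lt _ _ _ _ hi
      have e2 : w₁ (B + 2) = n := extend_add xs w (B + 2) 0 (by simp [xs])
      have e3 : w₁ (B + 3) = w B + n := extend_add xs w (B + 2) 1 (by simp [xs])
      have e4 : w₁ (B + 4) = w B + n + w t.1 * w t.2 :=
        extend_add xs w (B + 2) 2 (by simp [xs])
      have e5 : w₁ (B + 5) = w (B + 1) - n := extend_add xs w (B + 2) 3 (by simp [xs])
      have hinj₁ : Set.InjOn w₁ {i | i < B + 4 + 2} := by
        refine injOn_extend_list xs w (B + 2) hinj ?_ ?_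
        · intro x hx i hi
          simp only [xs, List.mem_cons, List.not_mem_nil, or_false] at hx
          rcases hx with rfl | rfl | rfl | rfl
          · exact fun h => hn1 i hi h.symm
          · intro h
            exact hn2 (w i) ⟨i, hi, rfl⟩ (by linarith)
          · intro h
            exact hn3 (w i) ⟨i, hi, rfl⟩ (by linarith)
          · intro h
            exact hn4 (w i) ⟨i, hi, rfl⟩ (by linarith)
        · simp only [xs, List.nodup_cons, List.mem_cons, List.not_mem_nil, or_false, not_or,
            not_false_eq_true, List.nodup_nil, and_true]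
          refine ⟨⟨?_, ?_, ?_⟩, ⟨?_, ?_⟩, ?_⟩
          · intro h; apply hB0; linarith
          · intro h; apply hh'; linarith
          · intro h; apply hn5; linarith
          · intro h; apply ht3; linarith
          · intro h; apply hn6; linarith
          · intro h; apply hn7; linarith
      have hts : tsum w₁ ts = tsum w ts := tsum_congr fun s hs' => by
        obtain ⟨a, b, _⟩ := ht s (by simp [hs'])
        exact ⟨hw₁ _ a, hw₁ _ b⟩
      obtain ⟨w', h1', h2', h3'⟩ := acc_ext ts (B + 4) w₁ (by omega)
        (by rw [hw₁ 0 (by omega), h0]) (by rw [hw₁ 1 (by omega), h1]) hinj₁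
        (by
          intro s hs'
          obtain ⟨a, b, c⟩ := ht s (by simp [hs'])
          exact ⟨by omega, by omega, by rw [hw₁ _ a, hw₁ _ b]; exact c⟩)
        (by
          rw [hts, show B + 4 + 1 = B + 5 from rfl, e4, e5]
          rw [tsum_cons] at hs
          linarith)
        (by
          intro s hs'
          have hmem : s ∈ ts := List.mem_of_head? hs'
          obtain ⟨a, b, _⟩ := ht s (by simp [hmem])
          rw [e4, hw₁ _ a, hw₁ _ b]
          have : t' = w s.1 * w s.2 := by simp [t', hs']
          intro h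
          apply hn8
          rw [this]
          linarith)
      refine ⟨w', fun i hi => by rw [h1' i (by omega), hw₁ i hi], ?_, ?_⟩
      · have : B + 2 + 4 * (t :: ts).length = B + 4 + 2 + 4 * ts.length := by
          rw [List.length_cons]; omega
        rw [this]
        exact h2'
      · intro c hc
        simp only [accs, List.mem_cons] at hc
        rcases hc with rfl | rfl | rfl | hc
        · simp only
          rw [h1' (B + 3) (by omega), h1' (B + 2) (by omega), h1' 1 (by omega), h1' B (by omega),
            e3, e2, hw₁ 1 (by omega), hw₁ B (by omega), h1]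
          ring
        · simp only
          rw [h1' (B + 4) (by omega), h1' _ (by omega), h1' _ (by omega), h1' (B + 3) (by omega),
            e3, e4, hw₁ _ ht1, hw₁ _ ht2]
          ring
        · simp only
          rw [h1' (B + 1) (by omega), h1' (B + 2) (by omega), h1' 1 (by omega),
            h1' (B + 5) (by omega), e2, e5, hw₁ 1 (by omega), hw₁ (B + 1) (by omega), h1]
          ring
        · exact h3' c hc

theorem gadget_ext (ts : List (ℕ × ℕ)) (B : ℕ) (w : ℕ → ℝ) (hB : 3 ≤ B)
    (h0 : w 0 = 0) (h1 : w 1 = 1) (hinj : Set.InjOn w {i | i < B})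
    (ht : ∀ t ∈ ts, t.1 < B ∧ t.2 < B ∧ w t.1 * w t.2 ≠ 0) (hs : tsum w ts = 0) :
    ∃ w' : ℕ → ℝ, (∀ i < B, w' i = w i) ∧ Set.InjOn w' {i | i < B + 2 + 4 * ts.length} ∧
      ∀ c ∈ gadget B ts, w' c.l = w' c.i * w' c.j + w' c.k := by
  classical
  let t' : ℝ := match ts.head? with
    | some t' => w t'.1 * w t'.2
    | none => 0
  let W : Finset ℝ := (Finset.range B).image w
  let F : Finset ℝ := W ∪ W.image (fun y => - y) ∪ {0, - t'}
  obtain ⟨n, hn⟩ := Infinite.exists_notMem_finset F
  simp only [F, W, Finset.mem_union, Finset.mem_image, Finset.mem_range, Finset.mem_insert,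
    Finset.mem_singleton, not_or, not_exists, not_and] at hn
  obtain ⟨⟨hn1, hn2⟩, hn3, hn4⟩ := hn
  let xs : List ℝ := [n, - n]
  let w₁ : ℕ → ℝ := extend w B xs
  have hw₁ : ∀ i < B, w₁ i = w i := fun i hi => extend_of_lt _ _ _ _ hi
  have e0 : w₁ B = n := extend_add xs w B 0 (by simp [xs])
  have e1 : w₁ (B + 1) = - n := extend_add xs w B 1 (by simp [xs])
  have hinj₁ : Set.InjOn w₁ {i | i < B + 2} := by
    refine injOn_extend_list xs w B hinj ?_ ?_
    · intro x hx i hi
      simp only [xs, List.mem_cons, List.not_mem_nil, or_false] at hx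
      rcases hx with rfl | rfl
      · exact fun h => hn1 i hi h.symm
      · intro h
        exact hn2 (w i) ⟨i, hi, rfl⟩ (by linarith)
    · simp only [xs, List.nodup_cons, List.mem_cons, List.not_mem_nil, or_false,
        not_false_eq_true, List.nodup_nil, and_true]
      intro h
      apply hn3
      linarith
  have hts : tsum w₁ ts = tsum w ts := tsum_congr fun s hs' => by
    obtain ⟨a, b, _⟩ := ht s hs'
    exact ⟨hw₁ _ a, hw₁ _ b⟩
  obtain ⟨w', h1', h2', h3'⟩ := acc_ext ts B w₁ hB
    (by rw [hw₁ 0 (by omega), h0]) (by rw [hw₁ 1 (by omega), h1]) hinj₁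
    (by
      intro s hs'
      obtain ⟨a, b, c⟩ := ht s hs'
      exact ⟨by omega, by omega, by rw [hw₁ _ a, hw₁ _ b]; exact c⟩)
    (by rw [hts, e0, e1, hs]; ring)
    (by
      intro s hs'
      have hmem : s ∈ ts := List.mem_of_head? hs'
      obtain ⟨a, b, _⟩ := ht s hmem
      rw [e0, hw₁ _ a, hw₁ _ b]
      have : t' = w s.1 * w s.2 := by simp [t', hs']
      intro h
      apply hn4
      rw [this]
      linarith)
  refine ⟨w', fun i hi => by rw [h1' i (by omega), hw₁ i hi], h2', ?_⟩
  intro c hc
  simp only [gadget, List.mem_cons] at hc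
  rcases hc with rfl | hc
  · simp only
    rw [h1' 0 (by omega), h1' B (by omega), h1' 1 (by omega), h1' (B + 1) (by omega), e0, e1,
      hw₁ 0 (by omega), hw₁ 1 (by omega), h0, h1]
    ring
  · exact h3' c hc

theorem terms_length (e : EC) : e.terms.length = 6 := by cases e <;> rfl

theorem terms_below {m : ℕ} {e : EC} (h : e.below m) :
    ∀ t ∈ e.terms, t.1 < 3 + 2 * m ∧ t.2 < 3 + 2 * m ∧ t.1 ≠ 0 ∧ t.2 ≠ 0 := by
  intro t ht
  cases e <;> simp only [EC.terms, List.mem_cons, List.not_mem_nil, or_false] at ht <;>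
    simp only [EC.below] at h <;>
    rcases ht with rfl | rfl | rfl | rfl | rfl | rfl <;> refine ⟨?_, ?_, ?_, ?_⟩ <;>
    simp only <;> omega

theorem accs_below {N : ℕ} : ∀ (ts : List (ℕ × ℕ)) (B : ℕ), (∀ t ∈ ts, t.1 < N ∧ t.2 < N) →
    B + 2 + 4 * ts.length ≤ N → ∀ c ∈ accs B ts, c.i < N ∧ c.j < N ∧ c.k < N ∧ c.l < N
  | [], B, _, hN, c, hc => by
      simp only [accs, List.mem_singleton] at hc
      subst hc
      simp only [List.length_nil] at hN
      refine ⟨?_, ?_, ?_, ?_⟩ <;> simp only <;> omega
  | t :: ts, B, ht, hN, c, hc => by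
      have h1 := ht t (by simp)
      rw [List.length_cons] at hN
      simp only [accs, List.mem_cons] at hc
      rcases hc with rfl | rfl | rfl | hc
      · refine ⟨?_, ?_, ?_, ?_⟩ <;> simp only <;> omega
      · refine ⟨h1.1, h1.2, ?_, ?_⟩ <;> simp only <;> omega
      · refine ⟨?_, ?_, ?_, ?_⟩ <;> simp only <;> omega
      · exact accs_below ts (B + 4) (fun s hs => ht s (by simp [hs])) (by omega) c hc

theorem gadget_below {N : ℕ} (ts : List (ℕ × ℕ)) (B : ℕ) (ht : ∀ t ∈ ts, t.1 < N ∧ t.2 < N)
    (hN : B + 2 + 4 * ts.length ≤ N) :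
    ∀ c ∈ gadget B ts, c.i < N ∧ c.j < N ∧ c.k < N ∧ c.l < N := by
  intro c hc
  simp only [gadget, List.mem_cons] at hc
  rcases hc with rfl | hc
  · refine ⟨?_, ?_, ?_, ?_⟩ <;> simp only <;> omega
  · exact accs_below ts B ht hN c hc

theorem maskFrom_ext {m : ℕ} : ∀ (es : List EC) (B : ℕ) (w : ℕ → ℝ), 3 + 2 * m ≤ B →
    w 0 = 0 → w 1 = 1 → w 2 = -1 → Set.InjOn w {i | i < B} → (∀ e ∈ es, e.below m) →
    (∀ e ∈ es, e.holds (fun v => w (3 + 2 * v) + w (4 + 2 * v))) →
    ∃ w' : ℕ → ℝ, (∀ i < B, w' i = w i) ∧ Set.InjOn w' {i | i < B + 26 * es.length} ∧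
      ∀ c ∈ maskFrom B es, w' c.l = w' c.i * w' c.j + w' c.k
  | [], B, w, _, _, _, _, hinj, _, _ => ⟨w, fun _ _ => rfl, by simpa using hinj, by simp [maskFrom]⟩
  | e :: es, B, w, hB, h0, h1, h2, hinj, hb, hh => by
      have htb := terms_below (hb e (by simp))
      obtain ⟨w₁, ha, hb', hc⟩ := gadget_ext e.terms B w (by omega) h0 h1 hinj
        (by
          intro t ht
          obtain ⟨a, b, c, d⟩ := htb t ht
          refine ⟨by omega, by omega, mul_ne_zero ?_ ?_⟩
          · intro h
            rw [← h0] at h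
            exact c (hinj (show t.1 < B by omega) (show 0 < B by omega) h)
          · intro h
            rw [← h0] at h
            exact d (hinj (show t.2 < B by omega) (show 0 < B by omega) h))
        ((tsum_terms h1 h2 e).2 (hh e (by simp)))
      rw [terms_length] at hb'
      obtain ⟨w', ha', hb'', hc'⟩ := maskFrom_ext es (B + 26) w₁ (by omega)
        (by rw [ha 0 (by omega), h0]) (by rw [ha 1 (by omega), h1]) (by rw [ha 2 (by omega), h2])
        (by simpa [show B + 2 + 4 * 6 = B + 26 by omega] using hb')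
        (fun e' he' => hb e' (by simp [he']))
        (by
          intro e' he'
          have hbe := hb e' (by simp [he'])
          have h3 := hh e' (by simp [he'])
          cases e' with
          | one i =>
              simp only [EC.holds, EC.below] at h3 hbe ⊢
              rw [ha _ (by omega), ha _ (by omega)]
              exact h3
          | add i j k =>
              simp only [EC.holds, EC.below] at h3 hbe ⊢
              rw [ha (3 + 2 * i) (by omega), ha (4 + 2 * i) (by omega),
                ha (3 + 2 * j) (by omega), ha (4 + 2 * j) (by omega),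
                ha (3 + 2 * k) (by omega), ha (4 + 2 * k) (by omega)]
              exact h3
          | mul i j k =>
              simp only [EC.holds, EC.below] at h3 hbe ⊢
              rw [ha (3 + 2 * i) (by omega), ha (4 + 2 * i) (by omega),
                ha (3 + 2 * j) (by omega), ha (4 + 2 * j) (by omega),
                ha (3 + 2 * k) (by omega), ha (4 + 2 * k) (by omega)]
              exact h3)
      refine ⟨w', fun i hi => by rw [ha' i (by omega), ha i hi], ?_, ?_⟩
      · have : B + 26 * (e :: es).length = B + 26 + 26 * es.length := by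
          rw [List.length_cons]; omega
        rw [this]
        exact hb''
      · intro c hc2
        simp only [maskFrom, List.mem_append] at hc2
        rcases hc2 with hc2 | hc2
        · have hlt := gadget_below (N := B + 26) e.terms B (by
            intro t ht
            obtain ⟨a, b, _, _⟩ := htb t ht
            exact ⟨by omega, by omega⟩) (by rw [terms_length])
          obtain ⟨a, b, c', d⟩ := hlt c hc2
          rw [ha' _ a, ha' _ b, ha' _ c', ha' _ d]
          exact hc c hc2
        · exact hc' c hc2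

/-- the variables: distinct values with prescribed sums -/
theorem vars_ext (x : ℕ → ℝ) : ∀ m : ℕ, ∃ w : ℕ → ℝ, w 0 = 0 ∧ w 1 = 1 ∧ w 2 = -1 ∧
    Set.InjOn w {i | i < 3 + 2 * m} ∧ ∀ v < m, w (3 + 2 * v) + w (4 + 2 * v) = x v
  | 0 => by
      refine ⟨fun i => if i = 0 then 0 else if i = 1 then 1 else -1, by simp, by simp, by simp,
        ?_, by simp⟩
      intro i hi j hj hij
      simp only [Set.mem_ofPred_eq, mul_zero, add_zero] at hi hj
      interval_cases i <;> interval_cases j <;> simp at hij ⊢ <;> norm_num at hij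
  | m + 1 => by
      classical
      obtain ⟨w, h0, h1, h2, hinj, hs⟩ := vars_ext x m
      let W : Finset ℝ := (Finset.range (3 + 2 * m)).image w
      let F : Finset ℝ := W ∪ W.image (fun y => x m - y) ∪ {x m / 2}
      obtain ⟨a, hn⟩ := Infinite.exists_notMem_finset F
      simp only [F, W, Finset.mem_union, Finset.mem_image, Finset.mem_range,
        Finset.mem_singleton, not_or, not_exists, not_and] at hn
      obtain ⟨⟨hn1, hn2⟩, hn3⟩ := hn
      let xs : List ℝ := [a, x m - a]
      let w₁ : ℕ → ℝ := extend w (3 + 2 * m) xs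
      have hw₁ : ∀ i < 3 + 2 * m, w₁ i = w i := fun i hi => extend_of_lt _ _ _ _ hi
      have e0 : w₁ (3 + 2 * m) = a := extend_add xs w (3 + 2 * m) 0 (by simp [xs])
      have e1 : w₁ (3 + 2 * m + 1) = x m - a := extend_add xs w (3 + 2 * m) 1 (by simp [xs])
      refine ⟨w₁, by rw [hw₁ 0 (by omega), h0], by rw [hw₁ 1 (by omega), h1],
        by rw [hw₁ 2 (by omega), h2], ?_, ?_⟩
      · have : 3 + 2 * (m + 1) = 3 + 2 * m + xs.length := by simp [xs]; omega
        rw [this]
        refine injOn_extend_list xs w _ hinj ?_ ?_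
        · intro y hy i hi
          simp only [xs, List.mem_cons, List.not_mem_nil, or_false] at hy
          rcases hy with rfl | rfl
          · exact fun h => hn1 i hi h.symm
          · intro h
            exact hn2 (w i) ⟨i, hi, rfl⟩ (by linarith)
        · simp only [xs, List.nodup_cons, List.mem_cons, List.not_mem_nil, or_false,
            not_false_eq_true, List.nodup_nil, and_true]
          intro h
          apply hn3
          linarith
      · intro v hv
        rcases Nat.lt_succ_iff_lt_or_eq.1 hv with hv' | rfl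
        · rw [hw₁ _ (by omega), hw₁ _ (by omega)]
          exact hs v hv'
        · rw [e0, show 4 + 2 * v = 3 + 2 * v + 1 by omega, e1]
          ring

/-- completeness of the masking: a solvable system has a masked solution in distinct reals -/
theorem mask_complete {m : ℕ} {es : List EC} (hb : ∀ e ∈ es, e.below m) {x : ℕ → ℝ}
    (h : ∀ e ∈ es, e.holds x) :
    ∃ w : ℕ → ℝ, Sat w (mask m es) ∧ Set.InjOn w {i | i < maskK m es} := by
  obtain ⟨w, h0, h1, h2, hinj, hs⟩ := vars_ext x m
  have hh : ∀ e ∈ es, e.holds (fun v => w (3 + 2 * v) + w (4 + 2 * v)) := by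
    intro e he
    have hbe := hb e he
    have h3 := h e he
    cases e with
    | one i =>
        simp only [EC.holds, EC.below] at h3 hbe ⊢
        rw [hs _ hbe]
        exact h3
    | add i j k =>
        simp only [EC.holds, EC.below] at h3 hbe ⊢
        rw [hs _ hbe.1, hs _ hbe.2.1, hs _ hbe.2.2]
        exact h3
    | mul i j k =>
        simp only [EC.holds, EC.below] at h3 hbe ⊢
        rw [hs _ hbe.1, hs _ hbe.2.1, hs _ hbe.2.2]
        exact h3
  obtain ⟨w', ha, hb', hc⟩ := maskFrom_ext (m := m) es (3 + 2 * m) w le_rfl h0 h1 h2 hinj hb hh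
  exact ⟨w', ⟨by rw [ha 0 (by omega), h0], by rw [ha 1 (by omega), h1],
    by rw [ha 2 (by omega), h2], hc⟩, hb'⟩

/-- the masked system uses only indices below `maskK` -/
theorem mask_below {m : ℕ} {es : List EC} (hb : ∀ e ∈ es, e.below m) :
    CBelow (maskK m es) (mask m es) := by
  have key : ∀ (es : List EC) (B : ℕ), 3 + 2 * m ≤ B → (∀ e ∈ es, e.below m) →
      CBelow (B + 26 * es.length) (maskFrom B es) := by
    intro es
    induction es with
    | nil => intro B _ _ c hc; simp [maskFrom] at hc
    | cons e es ih =>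
        intro B hB hb c hc
        simp only [maskFrom, List.mem_append] at hc
        rw [List.length_cons]
        rcases hc with hc | hc
        · have hbe := hb e (by simp)
          have := gadget_below (N := B + 26) e.terms B (by
            intro t ht
            obtain ⟨a, b, _, _⟩ := terms_below hbe t ht
            exact ⟨by omega, by omega⟩) (by rw [terms_length]) c hc
          omega
        · have := ih (B + 26) (by omega) (fun e he => hb e (by simp [he])) c hc
          omega
  exact key es (3 + 2 * m) le_rfl hb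

end Pool.Agent.H670R2
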