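import Mathlib

/-!
# Newton's identities for symmetric matrices
-/

namespace Pool.Agent.H670R2.NewtonDet

open Matrix Polynomial Finset

theorem trace_pow_eq {m : ℕ} {A : Matrix (Fin m) (Fin m) ℝ} (hA : A.IsHermitian) (k : ℕ) :
    trace (A ^ k) = ∑ i, hA.eigenvalues i ^ k := by
  have h1 : A ^ k = Unitary.conjStarAlgAut ℝ _ hA.eigenvectorUnitary
      (diagonal (RCLike.ofReal ∘ hA.eigenvalues) ^ k) := by
    rw [map_pow, ← hA.spectral_theorem]
  rw [h1, Unitary.conjStarAlgAut_apply, trace_mul_cycle, Unitary.coe_star_mul_self, one_mul,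
    Matrix.diagonal_pow, trace_diagonal]
  simp

theorem coeff_charpoly {m : ℕ} {A : Matrix (Fin m) (Fin m) ℝ} (hA : A.IsHermitian) {k : ℕ}
    (hk : k ≤ m) : A.charpoly.coeff (m - k) =
      (-1) ^ k * MvPolynomial.aeval hA.eigenvalues (MvPolynomial.esymm (Fin m) ℝ k) := by
  rw [hA.charpoly_eq]
  have h1 : (∏ i, (X - C ((RCLike.ofReal (hA.eigenvalues i) : ℝ))) : ℝ[X]) =
      ((Finset.univ.val.map hA.eigenvalues).map fun t => X - C t).prod := by
    rw [Multiset.map_map]
    rfl
  rw [h1, Multiset.prod_X_sub_C_coeff _ (by simp), MvPolynomial.aeval_esymm_eq_multiset_esymm]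
  simp only [Multiset.card_map, Finset.card_val, Finset.card_univ, Fintype.card_fin]
  rw [Nat.sub_sub_self hk]

/-- Newton's identities for the coefficients of the characteristic polynomial -/
theorem newton_real {m : ℕ} {A : Matrix (Fin m) (Fin m) ℝ} (hA : A.IsHermitian) {k : ℕ}
    (hk : k + 1 ≤ m) : ((k : ℝ) + 1) * A.charpoly.coeff (m - (k + 1)) =
      - ∑ i ∈ Finset.range (k + 1), A.charpoly.coeff (m - (k - i)) * trace (A ^ (i + 1)) := by
  have h := congrArg (MvPolynomial.aeval hA.eigenvalues)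
    (MvPolynomial.mul_esymm_eq_sum (Fin m) ℝ (k + 1))
  simp only [map_mul, map_sum, map_pow, map_neg, map_one, map_natCast] at h
  rw [coeff_charpoly hA hk]
  have h2 : ∀ a ∈ (HasAntidiagonal.antidiagonal (k + 1)).filter (fun a => a.1 < k + 1),
      (-1 : ℝ) ^ a.1 * MvPolynomial.aeval hA.eigenvalues (MvPolynomial.esymm (Fin m) ℝ a.1) *
        MvPolynomial.aeval hA.eigenvalues (MvPolynomial.psum (Fin m) ℝ a.2) =
      A.charpoly.coeff (m - a.1) * trace (A ^ a.2) := by
    intro a ha
    rw [Finset.mem_filter, HasAntidiagonal.mem_antidiagonal] at ha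
    rw [coeff_charpoly hA (by omega), trace_pow_eq hA]
    simp [MvPolynomial.psum]
  rw [Finset.sum_congr rfl h2] at h
  have h3 : ∑ a ∈ (HasAntidiagonal.antidiagonal (k + 1)).filter (fun a => a.1 < k + 1),
      A.charpoly.coeff (m - a.1) * trace (A ^ a.2) =
      ∑ i ∈ Finset.range (k + 1), A.charpoly.coeff (m - (k - i)) * trace (A ^ (i + 1)) := by
    refine Finset.sum_bij' (fun a _ => a.2 - 1) (fun i _ => (k - i, i + 1)) ?_ ?_ ?_ ?_ ?_
    · intro a ha
      rw [Finset.mem_filter, HasAntidiagonal.mem_antidiagonal] at ha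
      rw [Finset.mem_range]
      omega
    · intro i hi
      rw [Finset.mem_range] at hi
      rw [Finset.mem_filter, HasAntidiagonal.mem_antidiagonal]
      constructor
      · simp only; omega
      · simp only; omega
    · intro a ha
      rw [Finset.mem_filter, HasAntidiagonal.mem_antidiagonal] at ha
      ext <;> simp only <;> omega
    · intro i hi
      simp
    · intro a ha
      rw [Finset.mem_filter, HasAntidiagonal.mem_antidiagonal] at ha
      have e1 : k - (a.2 - 1) = a.1 := by omega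
      have e2 : a.2 - 1 + 1 = a.2 := by omega
      rw [e1, e2]
  rw [h3] at h
  have h4 : ((-1 : ℝ) ^ (k + 1)) * (-1) ^ (k + 1) = 1 := by
    rw [← mul_pow]; simp
  have h5 : ((k : ℝ) + 1) * ((-1) ^ (k + 1) * MvPolynomial.aeval hA.eigenvalues
      (MvPolynomial.esymm (Fin m) ℝ (k + 1))) = (-1) ^ (k + 1) * (((k + 1 : ℕ) : ℝ) *
      MvPolynomial.aeval hA.eigenvalues (MvPolynomial.esymm (Fin m) ℝ (k + 1))) := by
    push_cast; ring
  rw [h5, h, pow_succ _ (k + 1)]
  linear_combination (-(∑ i ∈ Finset.range (k + 1), A.charpoly.coeff (m - (k - i)) *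
    trace (A ^ (i + 1)))) * h4

/-- the same over the integers -/
theorem newton_int {m : ℕ} {A : Matrix (Fin m) (Fin m) ℤ} (hA : Aᵀ = A) {k : ℕ}
    (hk : k + 1 ≤ m) : ((k : ℤ) + 1) * A.charpoly.coeff (m - (k + 1)) =
      - ∑ i ∈ Finset.range (k + 1), A.charpoly.coeff (m - (k - i)) * trace (A ^ (i + 1)) := by
  have hH : (A.map (Int.castRingHom ℝ)).IsHermitian := by
    rw [Matrix.IsHermitian, Matrix.conjTranspose_eq_transpose_of_trivial, ← Matrix.transpose_map, hA]
  have h := newton_real hH hk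
  rw [Matrix.charpoly_map] at h
  simp only [Polynomial.coeff_map] at h
  have h2 : ∀ i, trace ((A.map (Int.castRingHom ℝ)) ^ i) = ((trace (A ^ i) : ℤ) : ℝ) := by
    intro i
    have : (A.map (Int.castRingHom ℝ)) ^ i = (A ^ i).map (Int.castRingHom ℝ) := by
      have := map_pow (RingHom.mapMatrix (m := Fin m) (Int.castRingHom ℝ)) A i
      simpa using this.symm
    rw [this]
    simp [Matrix.trace]
  simp only [h2] at h
  have h3 : ((((k : ℤ) + 1) * A.charpoly.coeff (m - (k + 1)) : ℤ) : ℝ) =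
      ((- ∑ i ∈ Finset.range (k + 1), A.charpoly.coeff (m - (k - i)) * trace (A ^ (i + 1)) : ℤ)
        : ℝ) := by
    push_cast
    simpa using h
  exact_mod_cast h3

end Pool.Agent.H670R2.NewtonDet
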