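import Pool.Agent.H670R2.ERMem
import Pool.Agent.H670R2.OrthDefs

/-!
# ORTH3 belongs to `∃ℝ`
-/

namespace Pool.Agent.NPC.H670R2

open Pool.Agent.NPC Pool.Agent.NPC.ER Pool.Agent.H670R2

/-- the variable of the `j`-th coordinate of the vector of vertex `v` -/
def cv (v j : ℕ) : Tm := Tm.var (3 * v + j)

/-- the vector of `v` is nonzero -/
def nzF (v : ℕ) : Fm :=
  Fm.not (Fm.and (Fm.eq (cv v 0) Tm.zero) (Fm.and (Fm.eq (cv v 1) Tm.zero)
    (Fm.eq (cv v 2) Tm.zero)))

/-- the vectors of `u` and `v` are orthogonal -/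
def dotF (u v : ℕ) : Fm :=
  Fm.eq (Tm.add (Tm.mul (cv u 0) (cv v 0)) (Tm.add (Tm.mul (cv u 1) (cv v 1))
    (Tm.mul (cv u 2) (cv v 2)))) Tm.zero

/-- the minor of rows `u`, `v` with columns `i`, `j` vanishes -/
def minF (u v i j : ℕ) : Fm :=
  Fm.eq (Tm.mul (cv u i) (cv v j)) (Tm.mul (cv u j) (cv v i))

/-- the vectors of `u` and `v` are not parallel -/
def npF (u v : ℕ) : Fm :=
  Fm.not (Fm.and (minF u v 0 1) (Fm.and (minF u v 0 2) (minF u v 1 2)))

/-- a boolean test for being a graph -/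
def chk (L : List (List ℕ)) : Bool :=
  L.zipIdx.all fun p => p.1.all fun v =>
    decide (v < L.length) && (!decide (v = p.2) && decide (p.2 ∈ L.getD v []))

/-- the list of conditions -/
def cnds (L : List (List ℕ)) : List Fm :=
  ((List.range L.length).map nzF ++
    (List.range L.length).flatMap fun u =>
      ((List.range L.length).filter fun v => !decide (v = u)).map fun v => npF u v) ++
    L.zipIdx.flatMap fun p => p.1.map fun v => dotF p.2 v

/-- the formula for a list of adjacency lists -/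
def orthF (L : List (List ℕ)) : Fm := if chk L = true then conj (cnds L) else ff

theorem chk_iff (L : List (List ℕ)) : chk L = true ↔ IsGraph L := by
  unfold chk IsGraph
  simp only [List.all_eq_true, Bool.and_eq_true, decide_eq_true_eq, Bool.not_eq_true',
    decide_eq_false_iff_not]
  constructor
  · intro h u v hu hv
    refine h (L.getD u [], u) ?_ v hv
    rw [List.mem_zipIdx_iff_getElem?]
    simp [hu]
  · rintro h ⟨l, u⟩ hp v hv
    rw [List.mem_zipIdx_iff_getElem?] at hp
    obtain ⟨h1, h2⟩ := List.getElem?_eq_some_iff.1 hp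
    refine h u v h1 ?_
    rw [List.getD_eq_getElem _ _ h1, h2]
    exact hv

theorem holds_nzF (x : ℕ → ℝ) (v : ℕ) : (nzF v).Holds x ↔
    ¬ (x (3 * v) = 0 ∧ x (3 * v + 1) = 0 ∧ x (3 * v + 2) = 0) := by
  simp [nzF, Fm.Holds, Tm.eval, cv]

theorem holds_dotF (x : ℕ → ℝ) (u v : ℕ) : (dotF u v).Holds x ↔
    x (3 * u) * x (3 * v) + (x (3 * u + 1) * x (3 * v + 1) +
      x (3 * u + 2) * x (3 * v + 2)) = 0 := by
  simp [dotF, Fm.Holds, Tm.eval, cv]

theorem holds_npF (x : ℕ → ℝ) (u v : ℕ) : (npF u v).Holds x ↔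
    ¬ (x (3 * u) * x (3 * v + 1) = x (3 * u + 1) * x (3 * v) ∧
      x (3 * u) * x (3 * v + 2) = x (3 * u + 2) * x (3 * v) ∧
      x (3 * u + 1) * x (3 * v + 2) = x (3 * u + 2) * x (3 * v + 1)) := by
  simp [npF, minF, Fm.Holds, Tm.eval, cv]

/-- the conditions, in words -/
theorem holds_cnds (x : ℕ → ℝ) (L : List (List ℕ)) : (conj (cnds L)).Holds x ↔
    (∀ v < L.length, (nzF v).Holds x) ∧
    (∀ u < L.length, ∀ v < L.length, v ≠ u → (npF u v).Holds x) ∧
    (∀ u < L.length, ∀ v ∈ L.getD u [], (dotF u v).Holds x) := by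
  rw [holds_conj]
  unfold cnds
  simp only [List.mem_append, List.mem_map, List.mem_range, List.mem_flatMap, List.mem_filter,
    Bool.not_eq_true', decide_eq_false_iff_not]
  constructor
  · intro h
    refine ⟨fun v hv => h _ (Or.inl (Or.inl ⟨v, hv, rfl⟩)), fun u hu v hv huv =>
      h _ (Or.inl (Or.inr ⟨u, hu, v, ⟨hv, huv⟩, rfl⟩)), fun u hu v hv => h _ (Or.inr ?_)⟩
    refine ⟨(L.getD u [], u), ?_, v, hv, rfl⟩
    rw [List.mem_zipIdx_iff_getElem?]
    simp [hu]
  · rintro ⟨h1, h2, h3⟩ φ ((⟨v, hv, rfl⟩ | ⟨u, hu, v, ⟨hv, huv⟩, rfl⟩) | ⟨⟨l, u⟩, hp, v, hv, rfl⟩)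
    · exact h1 v hv
    · exact h2 u hu v hv huv
    · rw [List.mem_zipIdx_iff_getElem?] at hp
      obtain ⟨h4, h5⟩ := List.getElem?_eq_some_iff.1 hp
      refine h3 u h4 v ?_
      rw [List.getD_eq_getElem _ _ h4, h5]
      exact hv

/-- two vectors of `ℝ³`, the second one nonzero, are parallel iff the minors vanish -/
theorem par_iff {a b : EuclideanSpace ℝ (Fin 3)} (hb : b ≠ 0) :
    (∃ c : ℝ, a = c • b) ↔ (a 0 * b 1 = a 1 * b 0 ∧ a 0 * b 2 = a 2 * b 0 ∧
      a 1 * b 2 = a 2 * b 1) := by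
  constructor
  · rintro ⟨c, rfl⟩
    simp only [PiLp.smul_apply, smul_eq_mul]
    refine ⟨by ring, by ring, by ring⟩
  · rintro ⟨h1, h2, h3⟩
    have hb' : b 0 ≠ 0 ∨ b 1 ≠ 0 ∨ b 2 ≠ 0 := by
      by_contra hcon
      push Not at hcon
      refine hb ?_
      ext i
      fin_cases i <;> simp [hcon.1, hcon.2.1, hcon.2.2]
    rcases hb' with h | h | h
    · refine ⟨a 0 / b 0, ?_⟩
      ext i
      fin_cases i
      · simp [h]
      · simp only [Fin.mk_one, PiLp.smul_apply, smul_eq_mul]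
        field_simp
        linarith
      · simp only [Fin.reduceFinMk, PiLp.smul_apply, smul_eq_mul]
        field_simp
        linarith
    · refine ⟨a 1 / b 1, ?_⟩
      ext i
      fin_cases i
      · simp only [Fin.zero_eta, PiLp.smul_apply, smul_eq_mul]
        field_simp
        linarith
      · simp [h]
      · simp only [Fin.reduceFinMk, PiLp.smul_apply, smul_eq_mul]
        field_simp
        linarith
    · refine ⟨a 2 / b 2, ?_⟩
      ext i
      fin_cases i
      · simp only [Fin.zero_eta, PiLp.smul_apply, smul_eq_mul]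
        field_simp
        linarith
      · simp only [Fin.mk_one, PiLp.smul_apply, smul_eq_mul]
        field_simp
        linarith
      · simp [h]

/-- the vector of a vertex, read off from an assignment -/
noncomputable def vecOf (x : ℕ → ℝ) (v : ℕ) : EuclideanSpace ℝ (Fin 3) :=
  !₂[x (3 * v), x (3 * v + 1), x (3 * v + 2)]

theorem vecOf_ne (x : ℕ → ℝ) (v : ℕ) : vecOf x v ≠ 0 ↔ (nzF v).Holds x := by
  rw [holds_nzF, not_iff_not]
  constructor
  · intro h
    have h0 := congrArg (fun w => w 0) h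
    have h1 := congrArg (fun w => w 1) h
    have h2 := congrArg (fun w => w 2) h
    simp only [vecOf] at h0 h1 h2
    simp at h0 h1 h2
    exact ⟨h0, h1, h2⟩
  · rintro ⟨h0, h1, h2⟩
    ext i
    fin_cases i <;> simp [vecOf, h0, h1, h2]

theorem vecOf_inner (x : ℕ → ℝ) (u v : ℕ) :
    inner ℝ (vecOf x u) (vecOf x v) = 0 ↔ (dotF u v).Holds x := by
  rw [holds_dotF]
  have : inner ℝ (vecOf x u) (vecOf x v) = x (3 * u) * x (3 * v) +
      (x (3 * u + 1) * x (3 * v + 1) + x (3 * u + 2) * x (3 * v + 2)) := by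
    simp only [vecOf, PiLp.inner_apply, Fin.sum_univ_three]
    simp
    ring
  rw [this]

theorem vecOf_par (x : ℕ → ℝ) (u v : ℕ) (hv : vecOf x v ≠ 0) :
    (∀ c : ℝ, vecOf x u ≠ c • vecOf x v) ↔ (npF u v).Holds x := by
  rw [holds_npF, ← not_exists, not_iff_not, par_iff hv]
  simp [vecOf]

/-- an assignment representing given vectors -/
noncomputable def asg {n : ℕ} (φ : Fin n → EuclideanSpace ℝ (Fin 3)) (k : ℕ) : ℝ :=
  if h : k / 3 < n then φ ⟨k / 3, h⟩ ⟨k % 3, Nat.mod_lt _ (by norm_num)⟩ else 0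

theorem vecOf_asg {n : ℕ} (φ : Fin n → EuclideanSpace ℝ (Fin 3)) (v : ℕ) (hv : v < n) :
    vecOf (asg φ) v = φ ⟨v, hv⟩ := by
  have h0 : (3 * v) / 3 = v := by omega
  have h1 : (3 * v + 1) / 3 = v := by omega
  have h2 : (3 * v + 2) / 3 = v := by omega
  have m1 : (3 * v + 1) % 3 = 1 := by omega
  have m2 : (3 * v + 2) % 3 = 2 := by omega
  ext i
  fin_cases i
  · simp [vecOf, asg, hv]
  · simp [vecOf, asg, hv, h1, m1]
  · simp [vecOf, asg, hv, h2, m2]

theorem orthF_correct (L : List (List ℕ)) :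
    (∃ h : IsGraph L, ∃ φ : Fin L.length → EuclideanSpace ℝ (Fin 3),
      IsOrthRep (graphOf L h) φ) ↔ ETR (orthF L) := by
  unfold orthF
  by_cases hc : chk L = true
  · rw [if_pos hc]
    have hG := (chk_iff L).1 hc
    constructor
    · rintro ⟨h, φ, h1, h2, h3⟩
      refine ⟨asg φ, (holds_cnds _ _).2 ⟨fun v hv => ?_, fun u hu v hv huv => ?_,
        fun u hu v hv => ?_⟩⟩
      · rw [← vecOf_ne, vecOf_asg φ v hv]
        exact h1 _
      · rw [← vecOf_par, vecOf_asg φ v hv, vecOf_asg φ u hu]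
        · intro c
          refine h2 ⟨u, hu⟩ ⟨v, hv⟩ (fun e => huv ?_) c
          exact (congrArg Fin.val e).symm
        · rw [vecOf_asg φ v hv]
          exact h1 _
      · have hv' := (hG u v hu hv).1
        rw [← vecOf_inner, vecOf_asg φ v hv', vecOf_asg φ u hu]
        exact h3 ⟨u, hu⟩ ⟨v, hv'⟩ hv
    · rintro ⟨x, hx⟩
      obtain ⟨h1, h2, h3⟩ := (holds_cnds _ _).1 hx
      refine ⟨hG, fun v => vecOf x v.1, fun v => ?_, fun u v huv => ?_, fun u v huv => ?_⟩
      · exact (vecOf_ne x v.1).2 (h1 v.1 v.2)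
      · refine (vecOf_par x u.1 v.1 ((vecOf_ne x v.1).2 (h1 v.1 v.2))).2 (h2 u.1 u.2 v.1 v.2 ?_)
        intro e
        exact huv (Fin.ext e.symm)
      · exact (vecOf_inner x u.1 v.1).2 (h3 u.1 u.2 v.1 huv)
  · rw [if_neg hc]
    constructor
    · rintro ⟨h, -⟩
      exact absurd ((chk_iff L).2 h) hc
    · intro h
      exact absurd h not_etr_ff

/-! ### Polynomial time -/

section

variable {α : Type} [TEnc α]

theorem poly_cv {v : α → ℕ} (hv : Poly v) (j : ℕ) : Poly (fun a => cv (v a) j) :=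
  poly_tvar (Poly.add (Poly.mul (Poly.const 3) hv) (Poly.const j))

theorem poly_nzF {v : α → ℕ} (hv : Poly v) : Poly (fun a => nzF (v a)) :=
  poly_not (poly_and (poly_eq (poly_cv hv 0) (Poly.const _)) (poly_and
    (poly_eq (poly_cv hv 1) (Poly.const _)) (poly_eq (poly_cv hv 2) (Poly.const _))))

theorem poly_dotF {u v : α → ℕ} (hu : Poly u) (hv : Poly v) : Poly (fun a => dotF (u a) (v a)) :=
  poly_eq (poly_tadd (poly_tmul (poly_cv hu 0) (poly_cv hv 0)) (poly_tadd
    (poly_tmul (poly_cv hu 1) (poly_cv hv 1)) (poly_tmul (poly_cv hu 2) (poly_cv hv 2))))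
    (Poly.const _)

theorem poly_minF {u v : α → ℕ} (hu : Poly u) (hv : Poly v) (i j : ℕ) :
    Poly (fun a => minF (u a) (v a) i j) :=
  poly_eq (poly_tmul (poly_cv hu i) (poly_cv hv j)) (poly_tmul (poly_cv hu j) (poly_cv hv i))

theorem poly_npF {u v : α → ℕ} (hu : Poly u) (hv : Poly v) : Poly (fun a => npF (u a) (v a)) :=
  poly_not (poly_and (poly_minF hu hv 0 1) (poly_and (poly_minF hu hv 0 2)
    (poly_minF hu hv 1 2)))

end

theorem poly_chk : Poly chk := by
  unfold chk
  refine Poly.all (p := fun L (p : List ℕ × ℕ) => p.1.all fun v =>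
    decide (v < L.length) && (!decide (v = p.2) && decide (p.2 ∈ L.getD v [])))
    (Poly.zipIdx Poly.id) ?_
  refine Poly.all (l := fun q : List (List ℕ) × (List ℕ × ℕ) => q.2.1)
    (p := fun q v => decide (v < q.1.length) && (!decide (v = q.2.2) &&
      decide (q.2.2 ∈ q.1.getD v []))) (Poly.fst (Poly.snd Poly.id)) ?_
  refine Poly.and (Poly.decide_lt (Poly.snd Poly.id) (Poly.length (Poly.fst (Poly.fst Poly.id))))
    (Poly.and (Poly.not (Poly.decide_eq (Poly.snd Poly.id)
      (Poly.snd (Poly.snd (Poly.fst Poly.id))))) (Poly.decide_mem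
      (Poly.snd (Poly.snd (Poly.fst Poly.id))) (Poly.getD (Poly.fst (Poly.fst Poly.id))
        (Poly.snd Poly.id) (Poly.const _))))

theorem poly_cnds : Poly cnds := by
  unfold cnds
  have hr : Poly (fun L : List (List ℕ) => List.range L.length) := Poly.range_length Poly.id
  refine Poly.append (Poly.append ?_ ?_) ?_
  · exact Poly.map (F := fun _ v => nzF v) hr (poly_nzF (Poly.snd Poly.id))
  · refine Poly.flatMap (F := fun (L : List (List ℕ)) u =>
      ((List.range L.length).filter fun v => !decide (v = u)).map fun v => npF u v) hr ?_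
    refine Poly.map (l := fun q : List (List ℕ) × ℕ =>
      (List.range q.1.length).filter fun v => !decide (v = q.2))
      (F := fun q v => npF q.2 v) ?_ (poly_npF (Poly.snd (Poly.fst Poly.id)) (Poly.snd Poly.id))
    exact Poly.filter (l := fun q : List (List ℕ) × ℕ => List.range q.1.length)
      (p := fun q v => !decide (v = q.2)) (Poly.range_length (Poly.fst Poly.id))
      (Poly.not (Poly.decide_eq (Poly.snd Poly.id) (Poly.snd (Poly.fst Poly.id))))
  · refine Poly.flatMap (F := fun (_ : List (List ℕ)) (p : List ℕ × ℕ) =>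
      p.1.map fun v => dotF p.2 v) (Poly.zipIdx Poly.id) ?_
    exact Poly.map (l := fun q : List (List ℕ) × (List ℕ × ℕ) => q.2.1)
      (F := fun q v => dotF q.2.2 v) (Poly.fst (Poly.snd Poly.id))
      (poly_dotF (Poly.snd (Poly.snd (Poly.fst Poly.id))) (Poly.snd Poly.id))

theorem poly_orthF : Poly orthF :=
  Poly.ite (p := fun L => chk L = true) (Poly.decide_bool poly_chk) (poly_conj poly_cnds)
    (Poly.const _)

theorem orth3_mem : InER ORTH3 := InER.of_poly poly_orthF orthF_correct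

end Pool.Agent.NPC.H670R2
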