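import Mathlib

/-!
# Geometry of parallelotopes given by slabs

Gram determinants, and the extremality lemma behind the greedy choice of the facets.
-/

namespace Pool.Agent.H670R2.Para

open Matrix Finset

/-- Gram matrix of a family of vectors -/
def gramR {m n : ℕ} (w : Fin m → Fin n → ℝ) : Matrix (Fin m) (Fin m) ℝ :=
  Matrix.of fun i j => w i ⬝ᵥ w j

theorem gramR_eq {m n : ℕ} (w : Fin m → Fin n → ℝ) :
    gramR w = (Matrix.of w : Matrix (Fin m) (Fin n) ℝ) * (Matrix.of w)ᵀ := by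
  ext i j
  rfl

theorem gramR_posSemidef {m n : ℕ} (w : Fin m → Fin n → ℝ) : (gramR w).PosSemidef := by
  rw [gramR_eq]
  have := Matrix.posSemidef_self_mul_conjTranspose (Matrix.of w : Matrix (Fin m) (Fin n) ℝ)
  rwa [Matrix.conjTranspose_eq_transpose_of_trivial] at this

theorem gramR_det_nonneg {m n : ℕ} (w : Fin m → Fin n → ℝ) : 0 ≤ (gramR w).det :=
  (gramR_posSemidef w).det_nonneg

theorem gramR_det_sq {n : ℕ} (w : Fin n → Fin n → ℝ) :
    (gramR w).det = (Matrix.of w : Matrix (Fin n) (Fin n) ℝ).det ^ 2 := by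
  rw [gramR_eq, det_mul, det_transpose, sq]

theorem dot_self_eq_zero {n : ℕ} {x : Fin n → ℝ} (h : x ⬝ᵥ x = 0) : x = 0 :=
  dotProduct_self_eq_zero.1 h

/-- the Gram determinant is positive iff the family is linearly independent -/
theorem gramR_det_pos_iff {m n : ℕ} (w : Fin m → Fin n → ℝ) :
    0 < (gramR w).det ↔ LinearIndependent ℝ w := by
  constructor
  · intro h
    rw [Fintype.linearIndependent_iff]
    intro c hc i
    have h1 : c ᵥ* gramR w = 0 := by
      rw [gramR_eq, ← vecMul_vecMul]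
      have : c ᵥ* (Matrix.of w : Matrix (Fin m) (Fin n) ℝ) = 0 := by
        ext j
        have := congrFun hc j
        simpa [vecMul, dotProduct, Finset.sum_apply] using this
      rw [this, zero_vecMul]
    have h2 := Matrix.eq_zero_of_vecMul_eq_zero h.ne' h1
    exact congrFun h2 i
  · intro h
    refine lt_of_le_of_ne (gramR_det_nonneg w) fun h0 => ?_
    obtain ⟨c, hc, hc0⟩ := Matrix.exists_vecMul_eq_zero_iff.2 h0.symm
    have h1 : (c ᵥ* (Matrix.of w : Matrix (Fin m) (Fin n) ℝ)) ⬝ᵥ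
        (c ᵥ* (Matrix.of w : Matrix (Fin m) (Fin n) ℝ)) = 0 := by
      have e : (c ᵥ* gramR w) ⬝ᵥ c = 0 := by rw [hc0]; simp
      rw [gramR_eq, ← vecMul_vecMul] at e
      rw [← e, vecMul_transpose, dotProduct_comm ((Matrix.of w) *ᵥ _) c, dotProduct_mulVec]
    have h2 := dot_self_eq_zero h1
    refine hc ?_
    ext i
    have h3 := Fintype.linearIndependent_iff.1 h c (by
      ext j
      have := congrFun h2 j
      simpa [vecMul, dotProduct, Finset.sum_apply] using this) i
    exact h3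

/-- the mixed Gram determinant of `u, E₁, …, E_m` and `w, E₁, …, E_m` -/
def mix {m n : ℕ} (E : Fin m → Fin n → ℝ) (u w : Fin n → ℝ) : ℝ :=
  (Matrix.of fun i j : Fin (m + 1) => (Fin.cons u E : Fin (m + 1) → Fin n → ℝ) i ⬝ᵥ
    (Fin.cons w E : Fin (m + 1) → Fin n → ℝ) j).det

theorem mix_comm {m n : ℕ} (E : Fin m → Fin n → ℝ) (u w : Fin n → ℝ) : mix E u w = mix E w u := by
  unfold mix
  rw [← det_transpose]
  congr 1
  ext i j
  simp only [transpose_apply, of_apply]
  exact dotProduct_comm _ _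

theorem mix_eq_updateRow {m n : ℕ} (E : Fin m → Fin n → ℝ) (u w : Fin n → ℝ) :
    mix E u w = (Matrix.updateRow (Matrix.of fun i j : Fin (m + 1) =>
      (Fin.cons 0 E : Fin (m + 1) → Fin n → ℝ) i ⬝ᵥ (Fin.cons w E : Fin (m + 1) → Fin n → ℝ) j) 0
      (fun j => u ⬝ᵥ (Fin.cons w E : Fin (m + 1) → Fin n → ℝ) j)).det := by
  unfold mix
  congr 1
  ext i j
  refine Fin.cases ?_ (fun i => ?_) i
  · simp
  · rw [Matrix.updateRow_ne (Fin.succ_ne_zero i)]
    simp

theorem mix_add_left {m n : ℕ} (E : Fin m → Fin n → ℝ) (u u' w : Fin n → ℝ) :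
    mix E (u + u') w = mix E u w + mix E u' w := by
  rw [mix_eq_updateRow, mix_eq_updateRow E u, mix_eq_updateRow E u', ← Matrix.det_updateRow_add]
  congr 2
  ext j
  simp [add_dotProduct]

theorem mix_smul_left {m n : ℕ} (E : Fin m → Fin n → ℝ) (c : ℝ) (u w : Fin n → ℝ) :
    mix E (c • u) w = c * mix E u w := by
  rw [mix_eq_updateRow, mix_eq_updateRow E u, ← Matrix.det_updateRow_smul]
  congr 2
  ext j
  simp [smul_dotProduct]

/-- the bilinear form of mixed Gram determinants -/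
noncomputable def mixB {m n : ℕ} (E : Fin m → Fin n → ℝ) :
    (Fin n → ℝ) →ₗ[ℝ] (Fin n → ℝ) →ₗ[ℝ] ℝ :=
  LinearMap.mk₂ ℝ (mix E) (mix_add_left E) (mix_smul_left E)
    (fun u w w' => by rw [mix_comm, mix_add_left, mix_comm E w, mix_comm E w'])
    (fun c u w => by rw [mix_comm, mix_smul_left, mix_comm E w, smul_eq_mul])

theorem mixB_apply {m n : ℕ} (E : Fin m → Fin n → ℝ) (u w : Fin n → ℝ) :
    mixB E u w = mix E u w := rfl

theorem mix_self {m n : ℕ} (E : Fin m → Fin n → ℝ) (u : Fin n → ℝ) :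
    mix E u u = (gramR (Fin.cons u E : Fin (m + 1) → Fin n → ℝ)).det := rfl

/-- the dot product as a bilinear form -/
noncomputable def dotB (n : ℕ) : (Fin n → ℝ) →ₗ[ℝ] (Fin n → ℝ) →ₗ[ℝ] ℝ :=
  LinearMap.mk₂ ℝ (fun u w => u ⬝ᵥ w) (fun u u' w => add_dotProduct u u' w)
    (fun c u w => smul_dotProduct c u w) (fun u w w' => dotProduct_add u w w')
    (fun c u w => dotProduct_smul c u w)

theorem dotB_apply {n : ℕ} (u w : Fin n → ℝ) : dotB n u w = u ⬝ᵥ w := rfl

/-- the convexity gap of a positive semidefinite form -/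
theorem gap_nonneg {E : Type*} [AddCommGroup E] [Module ℝ E] (B : E →ₗ[ℝ] E →ₗ[ℝ] ℝ)
    (hs : ∀ u w, B u w = B w u) (hp : ∀ u, 0 ≤ B u u) (x y : E) (a b : ℝ) :
    0 ≤ |a| * |b| * ((B x x + B y y) / 2) - a * b * B x y := by
  have h1 := hp (x + y)
  have h2 := hp (x - y)
  simp only [map_add, map_sub, LinearMap.add_apply, LinearMap.sub_apply] at h1 h2
  rw [hs y x] at h1 h2
  have h3 : |B x y| ≤ (B x x + B y y) / 2 := by
    rw [abs_le]
    constructor <;> linarith
  have h4 : a * b * B x y ≤ |a| * |b| * |B x y| := by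
    rw [← abs_mul, ← abs_mul]
    exact le_abs_self _
  have h5 : |a| * |b| * |B x y| ≤ |a| * |b| * ((B x x + B y y) / 2) :=
    mul_le_mul_of_nonneg_left h3 (by positivity)
  linarith

theorem form_expand {ι E : Type*} [Fintype ι] [AddCommGroup E] [Module ℝ E]
    (B : E →ₗ[ℝ] E →ₗ[ℝ] ℝ) (f : ι → E) (α : ι → ℝ) :
    B (∑ i, α i • f i) (∑ j, α j • f j) = ∑ i, ∑ j, α i * α j * B (f i) (f j) := by
  rw [map_sum, Finset.sum_comm]
  refine Finset.sum_congr rfl fun j _ => ?_
  rw [map_smul, map_sum, LinearMap.sum_apply, smul_eq_mul, Finset.mul_sum]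
  refine Finset.sum_congr rfl fun i _ => ?_
  rw [map_smul, LinearMap.smul_apply, smul_eq_mul]
  ring

theorem sum_gap {ι : Type*} [Fintype ι] (α : ι → ℝ) (e : ι → ℝ) :
    ∑ i, ∑ j, |α i| * |α j| * ((e i + e j) / 2) = (∑ i, |α i|) * ∑ i, |α i| * e i := by
  have h1 : ∑ i, ∑ j, |α i| * |α j| * ((e i + e j) / 2) =
      (∑ i, ∑ j, |α i| * |α j| * e i) / 2 + (∑ i, ∑ j, |α i| * |α j| * e j) / 2 := by
    rw [Finset.sum_div, Finset.sum_div, ← Finset.sum_add_distrib]
    refine Finset.sum_congr rfl fun i _ => ?_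
    rw [Finset.sum_div, Finset.sum_div, ← Finset.sum_add_distrib]
    refine Finset.sum_congr rfl fun j _ => ?_
    ring
  have h2 : ∑ i, ∑ j, |α i| * |α j| * e j = (∑ i, |α i|) * ∑ i, |α i| * e i := by
    rw [Finset.sum_mul_sum]
    refine Finset.sum_congr rfl fun i _ => Finset.sum_congr rfl fun j _ => ?_
    ring
  have h3 : ∑ i, ∑ j, |α i| * |α j| * e i = (∑ i, |α i|) * ∑ i, |α i| * e i := by
    rw [← h2, Finset.sum_comm]
    refine Finset.sum_congr rfl fun i _ => Finset.sum_congr rfl fun j _ => ?_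
    ring
  rw [h1, h2, h3]
  ring

theorem form_le {ι E : Type*} [Fintype ι] [AddCommGroup E] [Module ℝ E]
    (B : E →ₗ[ℝ] E →ₗ[ℝ] ℝ) (hs : ∀ u w, B u w = B w u) (hp : ∀ u, 0 ≤ B u u) (f : ι → E)
    (α : ι → ℝ) : B (∑ i, α i • f i) (∑ j, α j • f j) ≤ (∑ i, |α i|) * ∑ i, |α i| * B (f i) (f i) := by
  rw [form_expand, ← sum_gap]
  refine Finset.sum_le_sum fun i _ => Finset.sum_le_sum fun j _ => ?_
  have := gap_nonneg B hs hp (f i) (f j) (α i) (α j)
  linarith

/-- The extremality lemma: a point of the cross-polytope spanned by `± f i` which maximises a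
positive semidefinite form and then the Euclidean norm is one of the points `± f i`. -/
theorem extreme {n : ℕ} {f : Fin n → Fin n → ℝ} (hf : LinearIndependent ℝ f) (α : Fin n → ℝ)
    (hα : ∑ i, |α i| ≤ 1) {u : Fin n → ℝ} (hu : u = ∑ i, α i • f i)
    (B : (Fin n → ℝ) →ₗ[ℝ] (Fin n → ℝ) →ₗ[ℝ] ℝ) (hs : ∀ u w, B u w = B w u)
    (hp : ∀ u, 0 ≤ B u u) (h1 : ∀ i, B (f i) (f i) ≤ B u u) (h2 : 0 < B u u)
    (h3 : ∀ i, B (f i) (f i) = B u u → f i ⬝ᵥ f i ≤ u ⬝ᵥ u) :
    ∃ i, u = f i ∨ u = - f i := by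
  have hb := form_le B hs hp f α
  rw [← hu] at hb
  have hA0 : 0 ≤ ∑ i, |α i| := Finset.sum_nonneg fun i _ => abs_nonneg _
  have hle : ∑ i, |α i| * B (f i) (f i) ≤ (∑ i, |α i|) * B u u := by
    rw [Finset.sum_mul]
    exact Finset.sum_le_sum fun i _ => mul_le_mul_of_nonneg_left (h1 i) (abs_nonneg _)
  have hA : ∑ i, |α i| = 1 := by
    refine le_antisymm hα ?_
    by_contra hlt
    push Not at hlt
    have h4 : (∑ i, |α i|) * ∑ i, |α i| * B (f i) (f i) ≤
        (∑ i, |α i|) * ((∑ i, |α i|) * B u u) := mul_le_mul_of_nonneg_left hle hA0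
    have h5 : (∑ i, |α i|) * ((∑ i, |α i|) * B u u) ≤ (∑ i, |α i|) * B u u := by
      have : (∑ i, |α i|) * B u u ≤ B u u := by nlinarith
      exact mul_le_mul_of_nonneg_left this hA0
    nlinarith
  rw [hA, one_mul] at hb hle
  have hz : ∀ i, |α i| * (B u u - B (f i) (f i)) = 0 := by
    have hsum : ∑ i, |α i| * (B u u - B (f i) (f i)) = 0 := by
      refine le_antisymm ?_ (Finset.sum_nonneg fun i _ => mul_nonneg (abs_nonneg _)
        (sub_nonneg.2 (h1 i)))
      have : ∑ i, |α i| * (B u u - B (f i) (f i)) =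
          (∑ i, |α i|) * B u u - ∑ i, |α i| * B (f i) (f i) := by
        rw [Finset.sum_mul, ← Finset.sum_sub_distrib]
        refine Finset.sum_congr rfl fun i _ => by ring
      rw [this, hA, one_mul]
      linarith
    intro i
    exact (Finset.sum_eq_zero_iff_of_nonneg fun i _ => mul_nonneg (abs_nonneg _)
      (sub_nonneg.2 (h1 i))).1 hsum i (Finset.mem_univ i)
  -- Euclidean norm
  have hE : ∑ i, |α i| * (f i ⬝ᵥ f i) ≤ u ⬝ᵥ u := by
    calc ∑ i, |α i| * (f i ⬝ᵥ f i) ≤ ∑ i, |α i| * (u ⬝ᵥ u) := by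
          refine Finset.sum_le_sum fun i _ => ?_
          by_cases ha : α i = 0
          · simp [ha]
          · refine mul_le_mul_of_nonneg_left (h3 i ?_) (abs_nonneg _)
            have := hz i
            rcases mul_eq_zero.1 this with h | h
            · exact absurd (abs_eq_zero.1 h) ha
            · linarith
      _ = u ⬝ᵥ u := by rw [← Finset.sum_mul, hA, one_mul]
  have hgap : ∀ i j, |α i| * |α j| * ((f i ⬝ᵥ f i + f j ⬝ᵥ f j) / 2) -
      α i * α j * (f i ⬝ᵥ f j) = 0 := by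
    have hnn : ∀ i j, 0 ≤ |α i| * |α j| * ((f i ⬝ᵥ f i + f j ⬝ᵥ f j) / 2) -
        α i * α j * (f i ⬝ᵥ f j) := fun i j =>
      gap_nonneg (dotB n) (fun u w => dotProduct_comm u w)
        (fun u => by rw [dotB_apply]; exact Finset.sum_nonneg fun i _ => mul_self_nonneg _) (f i) (f j) (α i) (α j)
    have hsum : ∑ i, ∑ j, (|α i| * |α j| * ((f i ⬝ᵥ f i + f j ⬝ᵥ f j) / 2) -
        α i * α j * (f i ⬝ᵥ f j)) ≤ 0 := by
      simp only [Finset.sum_sub_distrib]
      rw [sum_gap α (fun i => f i ⬝ᵥ f i), hA, one_mul]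
      have h6 := form_expand (dotB n) f α
      rw [← hu] at h6
      simp only [dotB_apply] at h6
      rw [← h6]
      linarith
    intro i j
    have h7 := (Finset.sum_eq_zero_iff_of_nonneg (fun i _ => Finset.sum_nonneg fun j _ =>
      hnn i j)).1 (le_antisymm hsum (Finset.sum_nonneg fun i _ => Finset.sum_nonneg fun j _ =>
      hnn i j)) i (Finset.mem_univ i)
    exact (Finset.sum_eq_zero_iff_of_nonneg (fun j _ => hnn i j)).1 h7 j (Finset.mem_univ j)
  have huniq : ∀ i j, i ≠ j → α i * α j = 0 := by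
    intro i j hij
    by_contra hne
    have hg := hgap i j
    set s : ℝ := ((SignType.sign (α i * α j) : SignType) : ℝ) with hsdef
    have hs1 : α i * α j = |α i| * |α j| * s := by
      rw [hsdef, ← abs_mul]
      exact (abs_mul_sign _).symm
    have hpos : 0 < |α i| * |α j| := by
      rw [← abs_mul]; exact abs_pos.2 hne
    have hs2 : s * s = 1 := by
      rcases lt_or_gt_of_ne hne with h | h
      · simp [hsdef, sign_neg h]
      · simp [hsdef, sign_pos h]
    have h8 : (f i - s • f j) ⬝ᵥ (f i - s • f j) = 0 := by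
      have e1 : (f i - s • f j) ⬝ᵥ (f i - s • f j) =
          f i ⬝ᵥ f i - 2 * s * (f i ⬝ᵥ f j) + (s * s) * (f j ⬝ᵥ f j) := by
        simp only [sub_dotProduct, dotProduct_sub, smul_dotProduct, dotProduct_smul, smul_eq_mul]
        rw [dotProduct_comm (f j) (f i)]
        ring
      rw [e1, hs2, one_mul]
      rw [hs1] at hg
      have e2 : |α i| * |α j| * ((f i ⬝ᵥ f i - 2 * s * (f i ⬝ᵥ f j) + f j ⬝ᵥ f j) / 2) = 0 := by
        linarith
      rcases mul_eq_zero.1 e2 with h | h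
      · exact absurd h hpos.ne'
      · linarith
    have h9 := dot_self_eq_zero h8
    have h10 : f i = s • f j := sub_eq_zero.1 h9
    have h11 := Fintype.linearIndependent_iff.1 hf
      (fun k => if k = i then 1 else if k = j then -s else 0) (by
        rw [Finset.sum_eq_add i j hij (fun k _ hk => by simp [hk.1, hk.2])
          (fun h => absurd (Finset.mem_univ _) h) (fun h => absurd (Finset.mem_univ _) h)]
        simp only [if_true, hij.symm, if_false, one_smul]
        rw [h10]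
        simp) i
    simp at h11
  obtain ⟨i, hi⟩ : ∃ i, α i ≠ 0 := by
    by_contra hcon
    push Not at hcon
    simp [hcon] at hA
  have hz2 : ∀ j, j ≠ i → α j = 0 := fun j hj => by
    rcases mul_eq_zero.1 (huniq j i hj) with h | h
    · exact h
    · exact absurd h hi
  have h12 : |α i| = 1 := by
    rw [← hA, Finset.sum_eq_single i (fun j _ hj => by rw [hz2 j hj, abs_zero])
      (fun h => absurd (Finset.mem_univ _) h)]
  have h13 : u = α i • f i := by
    rw [hu, Finset.sum_eq_single i (fun j _ hj => by rw [hz2 j hj, zero_smul])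
      (fun h => absurd (Finset.mem_univ _) h)]
  refine ⟨i, ?_⟩
  rcases (abs_eq (by norm_num : (0 : ℝ) ≤ 1)).1 h12 with h | h
  · left; rw [h13, h, one_smul]
  · right; rw [h13, h, neg_one_smul]

end Pool.Agent.H670R2.Para
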