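import Pool.Agent.H670R2.ParaGeo

/-!
# Parallelotopes given by inequalities: facets, slabs and boxes
-/

namespace Pool.Agent.H670R2.Para

open Matrix Finset

/-- the parallelotope with corner `v` and edge vectors the columns of `M` -/
def para {n : ℕ} (v : Fin n → ℝ) (M : Matrix (Fin n) (Fin n) ℝ) : Set (Fin n → ℝ) :=
  {x | ∃ y : Fin n → ℝ, (∀ i, 0 ≤ y i ∧ y i ≤ 1) ∧ x = v + M *ᵥ y}

/-- the set of points between two parallel hyperplanes -/
def slab {n : ℕ} (v : Fin n → ℝ) (h W : ℝ) : Set (Fin n → ℝ) :=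
  {x | h - W ≤ v ⬝ᵥ x ∧ v ⬝ᵥ x ≤ h}

section

variable {n : ℕ} {v : Fin n → ℝ} {M : Matrix (Fin n) (Fin n) ℝ}

/-- the edge vectors -/
def edge (M : Matrix (Fin n) (Fin n) ℝ) (i : Fin n) : Fin n → ℝ := fun k => M k i

/-- the facet normals -/
noncomputable def nrm (M : Matrix (Fin n) (Fin n) ℝ) (i : Fin n) : Fin n → ℝ := M⁻¹ i

theorem mulVec_eq_edge (M : Matrix (Fin n) (Fin n) ℝ) (y : Fin n → ℝ) :
    M *ᵥ y = ∑ i, y i • edge M i := by
  ext k
  simp [Matrix.mulVec, dotProduct, edge, Finset.sum_apply, mul_comm]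

theorem nrm_dot_mulVec (hM : M.det ≠ 0) (i : Fin n) (y : Fin n → ℝ) :
    nrm M i ⬝ᵥ (M *ᵥ y) = y i := by
  have h : M⁻¹ *ᵥ (M *ᵥ y) = y := by
    rw [mulVec_mulVec, nonsing_inv_mul _ (isUnit_iff_ne_zero.2 hM), one_mulVec]
  exact congrFun h i

theorem nrm_dot_edge (hM : M.det ≠ 0) (i j : Fin n) :
    nrm M i ⬝ᵥ edge M j = if i = j then 1 else 0 := by
  have h := nrm_dot_mulVec hM i (Pi.single j 1)
  have e : M *ᵥ (Pi.single j (1 : ℝ)) = edge M j := by
    ext k; simp [edge]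
  rw [e] at h
  rw [h, Pi.single_apply]

theorem vec_expand (hM : M.det ≠ 0) (a : Fin n → ℝ) :
    a = ∑ i, (a ⬝ᵥ edge M i) • nrm M i := by
  have h : (a ᵥ* M) ᵥ* M⁻¹ = a := by
    rw [vecMul_vecMul, mul_nonsing_inv _ (isUnit_iff_ne_zero.2 hM), vecMul_one]
  conv_lhs => rw [← h]
  ext k
  simp [vecMul, dotProduct, nrm, edge, Finset.sum_apply]

theorem nrm_linearIndependent (hM : M.det ≠ 0) : LinearIndependent ℝ (nrm M) := by
  rw [Fintype.linearIndependent_iff]
  intro c hc i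
  have h : (∑ j, c j • nrm M j) ⬝ᵥ edge M i = 0 := by rw [hc]; simp
  rw [sum_dotProduct] at h
  simp only [smul_dotProduct, nrm_dot_edge hM, smul_eq_mul] at h
  simpa using h

theorem mem_para_iff (hM : M.det ≠ 0) (x : Fin n → ℝ) :
    x ∈ para v M ↔ ∀ i, 0 ≤ nrm M i ⬝ᵥ (x - v) ∧ nrm M i ⬝ᵥ (x - v) ≤ 1 := by
  constructor
  · rintro ⟨y, hy, rfl⟩ i
    rw [add_sub_cancel_left, nrm_dot_mulVec hM]
    exact hy i
  · intro h
    refine ⟨M⁻¹ *ᵥ (x - v), h, ?_⟩
    rw [mulVec_mulVec, mul_nonsing_inv _ (isUnit_iff_ne_zero.2 hM), one_mulVec]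
    simp

/-- every facet normal occurs among the rows of a presentation by inequalities -/
theorem facet (hM : M.det ≠ 0) (R : List ((Fin n → ℝ) × ℝ))
    (hP : para v M = {x | ∀ r ∈ R, r.1 ⬝ᵥ x ≤ r.2}) (i : Fin n) (σ : ℝ) (hσ : σ = 1 ∨ σ = -1) :
    ∃ r ∈ R, ∃ s : ℝ, 0 < s ∧ r.1 = (σ * s) • nrm M i ∧
      r.2 = σ * s * (nrm M i ⬝ᵥ v + (1 + σ) / 2) := by
  have hσ2 : σ * σ = 1 := by rcases hσ with h | h <;> rw [h] <;> norm_num
  set yy : Fin n → ℝ := fun j => if j = i then (1 + σ) / 2 else 1 / 2 with hyy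
  set xx : Fin n → ℝ := v + M *ᵥ yy with hxx
  have hyi : yy i = (1 + σ) / 2 := by simp [hyy]
  have hmem : ∀ y : Fin n → ℝ, (∀ j, 0 ≤ y j ∧ y j ≤ 1) → ∀ r ∈ R, r.1 ⬝ᵥ (v + M *ᵥ y) ≤ r.2 := by
    intro y hy
    have : v + M *ᵥ y ∈ para v M := ⟨y, hy, rfl⟩
    rw [hP] at this
    exact this
  have hyy01 : ∀ j, 0 ≤ yy j ∧ yy j ≤ 1 := by
    intro j
    simp only [hyy]
    split_ifs
    · rcases hσ with h | h <;> rw [h] <;> norm_num
    · norm_num
  -- some row is tight and increasing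
  obtain ⟨r, hr, hr1, hr2⟩ : ∃ r ∈ R, 0 < σ * (r.1 ⬝ᵥ edge M i) ∧ r.2 ≤ r.1 ⬝ᵥ xx := by
    by_contra hcon
    push Not at hcon
    have hev : ∀ r ∈ {r | r ∈ R}, ∀ᶠ ε in nhdsWithin (0 : ℝ) (Set.Ioi 0),
        r.1 ⬝ᵥ (xx + (σ * ε) • edge M i) ≤ r.2 := by
      intro r hr
      have hx := hmem yy hyy01 r hr
      rw [← hxx] at hx
      by_cases hpos : 0 < σ * (r.1 ⬝ᵥ edge M i)
      · have hlt := hcon r hr hpos
        have hδ : 0 < (r.2 - r.1 ⬝ᵥ xx) / (σ * (r.1 ⬝ᵥ edge M i)) :=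
          div_pos (sub_pos.2 hlt) hpos
        filter_upwards [Ioo_mem_nhdsGT hδ] with ε hε
        have := (lt_div_iff₀ hpos).1 hε.2
        rw [dotProduct_add, dotProduct_smul, smul_eq_mul]
        nlinarith
      · filter_upwards [self_mem_nhdsWithin] with ε hε
        have hε' : (0 : ℝ) < ε := hε
        rw [dotProduct_add, dotProduct_smul, smul_eq_mul]
        nlinarith
    have hall := (Filter.eventually_all_finite (List.finite_toSet R)).2 hev
    obtain ⟨ε, hε1, hε2⟩ := (hall.and self_mem_nhdsWithin).exists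
    have hε : (0 : ℝ) < ε := hε2
    have hin : xx + (σ * ε) • edge M i ∈ para v M := by
      rw [hP]
      exact fun r hr => hε1 r hr
    have h2 := (mem_para_iff hM _).1 hin i
    have h3 : nrm M i ⬝ᵥ (xx + (σ * ε) • edge M i - v) = (1 + σ) / 2 + σ * ε := by
      have : xx + (σ * ε) • edge M i - v = M *ᵥ yy + (σ * ε) • edge M i := by
        rw [hxx]; abel
      rw [this, dotProduct_add, nrm_dot_mulVec hM, dotProduct_smul, nrm_dot_edge hM, hyi]
      simp
    rw [h3] at h2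
    rcases hσ with h | h
    · rw [h] at h2; linarith [h2.2]
    · rw [h] at h2; linarith [h2.1]
  have htight : r.1 ⬝ᵥ xx = r.2 := le_antisymm (by
    have := hmem yy hyy01 r hr
    rwa [← hxx] at this) hr2
  have hzero : ∀ j, j ≠ i → r.1 ⬝ᵥ edge M j = 0 := by
    intro j hj
    have key : ∀ t : ℝ, t = 1 / 2 ∨ t = -(1 / 2) → t * (r.1 ⬝ᵥ edge M j) ≤ 0 := by
      intro t ht
      have h1 := hmem (yy + t • Pi.single j 1) (by
        intro k
        by_cases hk : k = j
        · subst hk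
          have : yy k = 1 / 2 := by simp [hyy, hj]
          simp only [Pi.add_apply, Pi.smul_apply, Pi.single_eq_same, smul_eq_mul, this]
          rcases ht with h | h <;> rw [h] <;> norm_num
        · simp only [Pi.add_apply, Pi.smul_apply, Pi.single_eq_of_ne hk, smul_zero, add_zero]
          exact hyy01 k) r hr
      have e : M *ᵥ (yy + t • Pi.single j 1) = M *ᵥ yy + t • edge M j := by
        rw [mulVec_add, mulVec_smul]
        congr 2
        ext k; simp [edge]
      rw [e, ← add_assoc, ← hxx, dotProduct_add, htight, dotProduct_smul, smul_eq_mul] at h1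
      linarith
    have h1 := key (1 / 2) (Or.inl rfl)
    have h2 := key (-(1 / 2)) (Or.inr rfl)
    linarith
  refine ⟨r, hr, σ * (r.1 ⬝ᵥ edge M i), hr1, ?_, ?_⟩
  · rw [← mul_assoc, hσ2, one_mul]
    conv_lhs => rw [vec_expand hM r.1]
    rw [Finset.sum_eq_single i (fun j _ hj => by rw [hzero j hj, zero_smul])
      (fun h => absurd (Finset.mem_univ _) h)]
  · rw [← mul_assoc, hσ2, one_mul, ← htight]
    have h1 : r.1 = (r.1 ⬝ᵥ edge M i) • nrm M i := by
      conv_lhs => rw [vec_expand hM r.1]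
      rw [Finset.sum_eq_single i (fun j _ hj => by rw [hzero j hj, zero_smul])
        (fun h => absurd (Finset.mem_univ _) h)]
    conv_lhs => rw [h1]
    rw [smul_dotProduct, smul_eq_mul, hxx, dotProduct_add, nrm_dot_mulVec hM, hyi]

/-- the width of a parallelotope in a direction -/
theorem slab_width {w : Fin n → ℝ} {h W : ℝ} (hs : para v M ⊆ slab w h W) :
    ∑ i, |w ⬝ᵥ edge M i| ≤ W := by
  set y : Fin n → ℝ := fun i => if 0 ≤ w ⬝ᵥ edge M i then 1 else 0 with hy
  set y' : Fin n → ℝ := fun i => if 0 ≤ w ⬝ᵥ edge M i then 0 else 1 with hy'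
  have h1 := (hs ⟨y, fun i => by simp only [hy]; split_ifs <;> norm_num, rfl⟩).2
  have h2 := (hs ⟨y', fun i => by simp only [hy']; split_ifs <;> norm_num, rfl⟩).1
  rw [dotProduct_add, mulVec_eq_edge, dotProduct_sum] at h1 h2
  simp only [dotProduct_smul, smul_eq_mul] at h1 h2
  have h3 : ∑ i, |w ⬝ᵥ edge M i| = ∑ i, y i * (w ⬝ᵥ edge M i) - ∑ i, y' i * (w ⬝ᵥ edge M i) := by
    rw [← Finset.sum_sub_distrib]
    refine Finset.sum_congr rfl fun i _ => ?_
    simp only [hy, hy']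
    split_ifs with h
    · rw [abs_of_nonneg h]; ring
    · rw [abs_of_neg (lt_of_not_ge h)]; ring
  rw [h3]
  linarith

/-- a slab containing the parallelotope whose normalised normal is a facet normal is the slab of
the corresponding facets -/
theorem slab_sub (hM : M.det ≠ 0) {w : Fin n → ℝ} {h W : ℝ} (hW : 0 < W)
    (hs : para v M ⊆ slab w h W) (i : Fin n) (hw : w = W • nrm M i ∨ w = -(W • nrm M i))
    {x : Fin n → ℝ} (hx : x ∈ slab w h W) :
    0 ≤ nrm M i ⬝ᵥ (x - v) ∧ nrm M i ⬝ᵥ (x - v) ≤ 1 := by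
  have key : ∀ t : ℝ, 0 ≤ t → t ≤ 1 → h - W ≤ w ⬝ᵥ (v + t • edge M i) ∧
      w ⬝ᵥ (v + t • edge M i) ≤ h := by
    intro t h0 h1
    refine hs ⟨Pi.single i t, fun j => ?_, ?_⟩
    · by_cases hj : j = i
      · subst hj; simp [h0, h1]
      · simp [Pi.single_eq_of_ne hj]
    · congr 1
      ext k
      simp [edge, mul_comm]
  have k0 := key 0 le_rfl zero_le_one
  have k1 := key 1 zero_le_one le_rfl
  obtain ⟨hx1, hx2⟩ := hx
  have hd : nrm M i ⬝ᵥ edge M i = 1 := by rw [nrm_dot_edge hM]; simp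
  rw [dotProduct_sub]
  rcases hw with rfl | rfl
  · simp only [smul_dotProduct, dotProduct_add, dotProduct_smul, hd, smul_eq_mul] at k0 k1 hx1 hx2
    constructor
    · by_contra hc
      push Not at hc
      have : W * (nrm M i ⬝ᵥ x - nrm M i ⬝ᵥ v) < 0 := mul_neg_of_pos_of_neg hW hc
      nlinarith
    · by_contra hc
      push Not at hc
      have : 0 < W * (nrm M i ⬝ᵥ x - nrm M i ⬝ᵥ v - 1) := mul_pos hW (by linarith)
      nlinarith
  · simp only [neg_dotProduct, smul_dotProduct, dotProduct_add, dotProduct_smul, hd,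
      smul_eq_mul] at k0 k1 hx1 hx2
    constructor
    · by_contra hc
      push Not at hc
      have : W * (nrm M i ⬝ᵥ x - nrm M i ⬝ᵥ v) < 0 := mul_neg_of_pos_of_neg hW hc
      nlinarith
    · by_contra hc
      push Not at hc
      have : 0 < W * (nrm M i ⬝ᵥ x - nrm M i ⬝ᵥ v - 1) := mul_pos hW (by linarith)
      nlinarith

/-- One step of the greedy choice.  Among candidate slabs containing the parallelotope, including
the slabs of all pairs of facets, a slab whose normal maximises first the Gram determinant with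
the normals chosen so far and then the norm is the slab of a pair of facets. -/
theorem greedy_step (hM : M.det ≠ 0) {k : ℕ} (hk : k < n) {E : Fin k → Fin n → ℝ}
    {w : Fin n → ℝ} {h W : ℝ} (hW : 0 < W) (hs : para v M ⊆ slab w h W)
    (hmax : ∀ i, mix E (nrm M i) (nrm M i) < mix E (W⁻¹ • w) (W⁻¹ • w) ∨
      (mix E (nrm M i) (nrm M i) = mix E (W⁻¹ • w) (W⁻¹ • w) ∧
        nrm M i ⬝ᵥ nrm M i ≤ (W⁻¹ • w) ⬝ᵥ (W⁻¹ • w)))
    (hE : LinearIndependent ℝ E) :
    (∃ i, w = W • nrm M i ∨ w = -(W • nrm M i)) ∧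
      LinearIndependent ℝ (Fin.cons w E : Fin (k + 1) → Fin n → ℝ) := by
  -- some facet normal is outside the span
  obtain ⟨i0, hi0⟩ : ∃ i, nrm M i ∉ Submodule.span ℝ (Set.range E) := by
    by_contra hcon
    push Not at hcon
    have h1 : Submodule.span ℝ (Set.range (nrm M)) ≤ Submodule.span ℝ (Set.range E) := by
      rw [Submodule.span_le]
      rintro _ ⟨i, rfl⟩
      exact hcon i
    have h2 := Submodule.finrank_mono h1
    rw [finrank_span_eq_card (nrm_linearIndependent hM)] at h2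
    have h3 := finrank_range_le_card (R := ℝ) E
    rw [Fintype.card_fin] at h2 h3
    rw [Set.finrank] at h3
    omega
  have hpos0 : 0 < mix E (nrm M i0) (nrm M i0) := by
    rw [mix_self, gramR_det_pos_iff, linearIndependent_finCons]
    exact ⟨hE, hi0⟩
  have hge : ∀ i, mix E (nrm M i) (nrm M i) ≤ mix E (W⁻¹ • w) (W⁻¹ • w) := by
    intro i
    rcases hmax i with h | h
    · exact h.le
    · exact h.1.le
  have hpos : 0 < mix E (W⁻¹ • w) (W⁻¹ • w) := lt_of_lt_of_le hpos0 (hge i0)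
  have hwid := slab_width hs
  have hexp : W⁻¹ • w = ∑ i, (W⁻¹ * (w ⬝ᵥ edge M i)) • nrm M i := by
    conv_lhs => rw [vec_expand hM w]
    rw [Finset.smul_sum]
    refine Finset.sum_congr rfl fun i _ => by rw [smul_smul]
  have hα : ∑ i, |W⁻¹ * (w ⬝ᵥ edge M i)| ≤ 1 := by
    have : ∑ i, |W⁻¹ * (w ⬝ᵥ edge M i)| = W⁻¹ * ∑ i, |w ⬝ᵥ edge M i| := by
      rw [Finset.mul_sum]
      refine Finset.sum_congr rfl fun i _ => ?_
      rw [abs_mul, abs_of_pos (inv_pos.2 hW)]
    rw [this]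
    calc W⁻¹ * ∑ i, |w ⬝ᵥ edge M i| ≤ W⁻¹ * W := mul_le_mul_of_nonneg_left hwid
          (inv_pos.2 hW).le
      _ = 1 := inv_mul_cancel₀ hW.ne'
  obtain ⟨i, hi⟩ := extreme (nrm_linearIndependent hM) _ hα hexp (mixB E)
    (fun u w => mix_comm E u w)
    (fun u => by rw [mixB_apply, mix_self]; exact gramR_det_nonneg _) hge hpos
    (fun i hi => by
      rcases hmax i with h | h
      · exact absurd hi h.ne
      · exact h.2)
  have hw : ∀ z, W⁻¹ • w = z → w = W • z := by
    rintro z rfl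
    rw [smul_smul, mul_inv_cancel₀ hW.ne', one_smul]
  refine ⟨⟨i, ?_⟩, ?_⟩
  · rcases hi with h | h
    · exact Or.inl (hw _ h)
    · right; rw [hw _ h, smul_neg]
  · rw [← gramR_det_pos_iff, ← mix_self]
    have h1 : mix E w w = W * (W * mix E (W⁻¹ • w) (W⁻¹ • w)) := by
      conv_lhs => rw [hw _ rfl]
      rw [mix_smul_left, mix_comm, mix_smul_left]
    rw [h1]
    positivity

end

/-! ### Boxes -/

/-- the intersection of slabs -/
def box {n : ℕ} (V : Matrix (Fin n) (Fin n) ℝ) (h W : Fin n → ℝ) : Set (Fin n → ℝ) :=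
  {x | ∀ i, x ∈ slab (V i) (h i) (W i)}

theorem box_eq_para {n : ℕ} {V : Matrix (Fin n) (Fin n) ℝ} (hV : V.det ≠ 0) {h W : Fin n → ℝ}
    (hW : ∀ i, 0 < W i) :
    box V h W = para (V⁻¹ *ᵥ (fun i => h i - W i)) (V⁻¹ * diagonal W) ∧
      (V⁻¹ * diagonal W).det ≠ 0 := by
  have hu := isUnit_iff_ne_zero.2 hV
  constructor
  · ext x
    constructor
    · intro hx
      refine ⟨fun i => ((V *ᵥ x) i - (h i - W i)) / W i, fun i => ?_, ?_⟩
      · obtain ⟨h1, h2⟩ := hx i
        have e : V i ⬝ᵥ x = (V *ᵥ x) i := rfl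
        rw [e] at h1 h2
        constructor
        · exact div_nonneg (by linarith) (hW i).le
        · rw [div_le_one (hW i)]; linarith
      · have e1 : diagonal W *ᵥ (fun i => ((V *ᵥ x) i - (h i - W i)) / W i) =
            V *ᵥ x - fun i => h i - W i := by
          ext i
          rw [mulVec_diagonal]
          simp only [Pi.sub_apply]
          rw [mul_div_cancel₀ _ (hW i).ne']
        rw [← mulVec_mulVec, e1, mulVec_sub, mulVec_mulVec, nonsing_inv_mul _ hu, one_mulVec]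
        simp
    · rintro ⟨y, hy, rfl⟩ i
      have e : V i ⬝ᵥ (V⁻¹ *ᵥ (fun i => h i - W i) + (V⁻¹ * diagonal W) *ᵥ y) =
          (h i - W i) + W i * y i := by
        have e1 : V *ᵥ (V⁻¹ *ᵥ (fun i => h i - W i) + (V⁻¹ * diagonal W) *ᵥ y) =
            (fun i => h i - W i) + diagonal W *ᵥ y := by
          rw [mulVec_add, mulVec_mulVec, mulVec_mulVec, ← Matrix.mul_assoc,
            mul_nonsing_inv _ hu, one_mulVec, Matrix.one_mul]
        have e2 := congrFun e1 i
        simp only [Pi.add_apply, mulVec_diagonal] at e2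
        exact e2
      have h1 := hy i
      constructor
      · rw [e]; nlinarith [hW i, h1.1]
      · rw [e]; nlinarith [hW i, h1.2]
  · rw [det_mul, det_diagonal]
    refine mul_ne_zero ?_ (Finset.prod_ne_zero_iff.2 fun i _ => (hW i).ne')
    rw [det_nonsing_inv, Ring.inverse_eq_inv']
    exact inv_ne_zero hV

/-- maximum of a linear functional over a box -/
theorem row_check {n : ℕ} {V : Matrix (Fin n) (Fin n) ℝ} (hV : V.det ≠ 0) {h W : Fin n → ℝ}
    (hW : ∀ i, 0 < W i) (a : Fin n → ℝ) (b : ℝ) :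
    (∀ x ∈ box V h W, a ⬝ᵥ x ≤ b) ↔
      ∑ i, (if 0 ≤ (V.updateRow i a).det * V.det then (V.updateRow i a).det * V.det * h i
        else (V.updateRow i a).det * V.det * (h i - W i)) ≤ V.det ^ 2 * b := by
  have hu := isUnit_iff_ne_zero.2 hV
  set c : Fin n → ℝ := fun i => (V.updateRow i a).det with hc
  have hcr : c ᵥ* V = V.det • a := by
    have h1 := Matrix.mulVec_cramer Vᵀ a
    rw [det_transpose] at h1
    have h2 : Matrix.cramer Vᵀ a = c := by
      ext i
      rw [Matrix.cramer_apply, hc]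
      simp only
      rw [← det_transpose, updateCol_transpose, transpose_transpose]
    rw [h2, mulVec_transpose] at h1
    exact h1
  have hdot : ∀ x : Fin n → ℝ, V.det ^ 2 * (a ⬝ᵥ x) = ∑ i, c i * V.det * (V i ⬝ᵥ x) := by
    intro x
    have h1 : (c ᵥ* V) ⬝ᵥ x = ∑ i, c i * (V i ⬝ᵥ x) := by
      rw [← dotProduct_mulVec]
      rfl
    rw [hcr, smul_dotProduct, smul_eq_mul] at h1
    rw [sq, mul_assoc, h1, Finset.mul_sum]
    refine Finset.sum_congr rfl fun i _ => by ring
  have hd2 : 0 < V.det ^ 2 := by positivity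
  constructor
  · intro H
    set z : Fin n → ℝ := fun i => if 0 ≤ c i * V.det then h i else h i - W i with hz
    have hVx : V *ᵥ (V⁻¹ *ᵥ z) = z := by
      rw [mulVec_mulVec, mul_nonsing_inv _ hu, one_mulVec]
    have hmem : V⁻¹ *ᵥ z ∈ box V h W := by
      intro i
      have e : V i ⬝ᵥ (V⁻¹ *ᵥ z) = z i := congrFun hVx i
      change h i - W i ≤ V i ⬝ᵥ (V⁻¹ *ᵥ z) ∧ V i ⬝ᵥ (V⁻¹ *ᵥ z) ≤ h i
      rw [e]
      simp only [hz]
      have := hW i
      split_ifs
      · constructor <;> linarith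
      · constructor <;> linarith
    have h1 := mul_le_mul_of_nonneg_left (H _ hmem) hd2.le
    rw [hdot] at h1
    refine le_trans (le_of_eq ?_) h1
    refine Finset.sum_congr rfl fun i _ => ?_
    have e : V i ⬝ᵥ (V⁻¹ *ᵥ z) = z i := congrFun hVx i
    rw [e]
    simp only [hz]
    split_ifs <;> rfl
  · intro H x hx
    have h1 : V.det ^ 2 * (a ⬝ᵥ x) ≤ V.det ^ 2 * b := by
      rw [hdot]
      refine le_trans (Finset.sum_le_sum fun i _ => ?_) H
      obtain ⟨h2, h3⟩ := hx i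
      split_ifs with h4
      · exact mul_le_mul_of_nonneg_left h3 h4
      · push Not at h4
        exact mul_le_mul_of_nonpos_left h2 h4.le
    exact le_of_mul_le_mul_left h1 hd2

theorem polar {n : ℕ} (V : Matrix (Fin n) (Fin n) ℝ) (i : Fin n) (a : Fin n → ℝ) :
    (V.updateRow i (a + V i)).det ^ 2 - (V.updateRow i (a - V i)).det ^ 2 =
      4 * ((V.updateRow i a).det * V.det) := by
  have e1 : (V.updateRow i (a + V i)).det = (V.updateRow i a).det + V.det := by
    rw [det_updateRow_add, updateRow_eq_self]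
  have e2 : (V.updateRow i (a - V i)).det = (V.updateRow i a).det - V.det := by
    rw [sub_eq_add_neg, det_updateRow_add, ← neg_one_smul ℝ (V i), det_updateRow_smul,
      updateRow_eq_self]
    ring
  rw [e1, e2]
  ring

end Pool.Agent.H670R2.Para
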