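import Pool.Agent.H670R2.Separate

/-!
The incidence graph attached to a finite system of constraints `w l = w i * w j + w k`, and the
equivalence of its realizability with the solvability of the system in distinct reals.
-/

namespace Pool.Agent.H670R2

/-- A constraint `w l = w i * w j + w k`. -/
structure Cst where
  i : ℕ
  j : ℕ
  k : ℕ
  l : ℕ
  deriving DecidableEq

/-- points and lines of the coordinate configuration -/
inductive Vx : Type
  | pV : Vx
  | pS (j : ℕ) : Vx
  | pt (i k : ℕ) : Vx
  | lI : Vx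
  | lv (i : ℕ) : Vx
  | ob (l j : ℕ) : Vx
  deriving DecidableEq

/-- the incidences, points first -/
inductive Inc (K : ℕ) (cs : List Cst) : Vx → Vx → Prop
  | e1 : Inc K cs .pV .lI
  | e2 (j : ℕ) (h : j < K) : Inc K cs (.pS j) .lI
  | e3 (i : ℕ) (h : i < K) : Inc K cs .pV (.lv i)
  | e4 (i k : ℕ) (h : i < K) (h' : k < K) : Inc K cs (.pt i k) (.lv i)
  | e5 (l j : ℕ) (h : l < K) (h' : j < K) : Inc K cs (.pS j) (.ob l j)
  | e6 (i k : ℕ) (h : i < K) (h' : k < K) : Inc K cs (.pt i k) (.ob k 0)
  | e7 (l j : ℕ) (h : l < K) (h' : j < K) : Inc K cs (.pt 0 l) (.ob l j)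
  | e8 (i : ℕ) (h : i < K) : Inc K cs (.pt 2 i) (.ob 0 i)
  | e9 (i : ℕ) (h : i < K) : Inc K cs (.pt i 0) (.ob i 1)
  | e10 (c : Cst) (h : c ∈ cs) : Inc K cs (.pt c.i c.k) (.ob c.l c.j)

/-- the vector of a point or line for given values of the variables -/
def vec (w : ℕ → ℝ) : Vx → Fin 3 → ℝ
  | .pV => ![0, 0, 1]
  | .pS j => ![0, 1, w j]
  | .pt i k => ![1, - w i, w k]
  | .lI => ![1, 0, 0]
  | .lv i => ![w i, 1, 0]
  | .ob l j => ![w l, w j, -1]

/-- being a point -/
def Vx.isPt : Vx → Prop
  | .pV => True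
  | .pS _ => True
  | .pt _ _ => True
  | _ => False

/-- all indices are below `K` -/
def Vx.below (K : ℕ) : Vx → Prop
  | .pV => True
  | .pS j => j < K
  | .pt i k => i < K ∧ k < K
  | .lI => True
  | .lv i => i < K
  | .ob l j => l < K ∧ j < K

/-- the values satisfy all constraints -/
def Sat (w : ℕ → ℝ) (cs : List Cst) : Prop :=
  w 0 = 0 ∧ w 1 = 1 ∧ w 2 = -1 ∧ ∀ c ∈ cs, w c.l = w c.i * w c.j + w c.k

theorem Inc.isPt {K : ℕ} {cs : List Cst} {u v : Vx} (h : Inc K cs u v) : u.isPt ∧ ¬ v.isPt := by
  cases h <;> simp [Vx.isPt]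

theorem vec_inc {K : ℕ} {cs : List Cst} {w : ℕ → ℝ} (hw : Sat w cs) {u v : Vx}
    (h : Inc K cs u v) : dot (vec w u) (vec w v) = 0 := by
  obtain ⟨h0, h1, h2, hc⟩ := hw
  cases h with
  | e10 c h =>
      have := hc c h
      simp only [vec, dot, Matrix.cons_val_zero, Matrix.cons_val_one, Matrix.cons_val]
      rw [this]
      ring
  | _ =>
      simp only [vec, dot, Matrix.cons_val_zero, Matrix.cons_val_one, Matrix.cons_val]
      try rw [h0]
      try rw [h1]
      try rw [h2]
      ring

theorem vec_ne_zero (w : ℕ → ℝ) (u : Vx) : vec w u ≠ 0 := by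
  intro h
  cases u with
  | pV => simpa [vec] using congrFun h 2
  | pS j => simpa [vec] using congrFun h 1
  | pt i k => simpa [vec] using congrFun h 0
  | lI => simpa [vec] using congrFun h 0
  | lv i => simpa [vec] using congrFun h 1
  | ob l j => simpa [vec] using congrFun h 2

theorem vec_nc {K : ℕ} {w : ℕ → ℝ} (hw : Set.InjOn w {i | i < K}) {u v : Vx}
    (hu : u.below K) (hv : v.below K) (hne : u ≠ v) (hs : u.isPt ↔ v.isPt) :
    NC (vec w u) (vec w v) := by
  have hinj : ∀ a b : ℕ, a < K → b < K → a ≠ b → w a - w b ≠ 0 := by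
    intro a b ha hb hab h
    exact hab (hw ha hb (sub_eq_zero.1 h))
  cases u <;> cases v <;> simp only [Vx.isPt, iff_self, iff_false, iff_true, not_true_eq_false] at hs
  case pV.pV => exact absurd rfl hne
  case pV.pS j => exact nc_of_minor 1 2 (by simp [vec])
  case pV.pt i k => exact nc_of_minor 0 2 (by simp [vec])
  case pS.pV j => exact nc_of_minor 1 2 (by simp [vec])
  case pS.pS j j' =>
    refine nc_of_minor 1 2 ?_
    have : j' ≠ j := fun h => hne (by rw [h])
    have := hinj _ _ hv hu this
    simpa [vec] using this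
  case pS.pt j i k => exact nc_of_minor 0 1 (by simp [vec])
  case pt.pV i k => exact nc_of_minor 0 2 (by simp [vec])
  case pt.pS i k j => exact nc_of_minor 0 1 (by simp [vec])
  case pt.pt i k i' k' =>
    by_cases hi : i = i'
    · subst hi
      have : k' ≠ k := fun h => hne (by rw [h])
      have := hinj _ _ hv.2 hu.2 this
      exact nc_of_minor 0 2 (by simpa [vec] using this)
    · have := hinj _ _ hu.1 hv.1 hi
      refine nc_of_minor 0 1 ?_
      simp only [vec, Matrix.cons_val_zero, Matrix.cons_val_one]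
      intro h0
      apply this
      linarith
  case lI.lI => exact absurd rfl hne
  case lI.lv i => exact nc_of_minor 0 1 (by simp [vec])
  case lI.ob l j => exact nc_of_minor 0 2 (by simp [vec])
  case lv.lI i => exact nc_of_minor 0 1 (by simp [vec])
  case lv.lv i i' =>
    have : i ≠ i' := fun h => hne (by rw [h])
    have := hinj _ _ hu hv this
    exact nc_of_minor 0 1 (by simpa [vec] using this)
  case lv.ob i l j => exact nc_of_minor 1 2 (by simp [vec])
  case ob.lI l j => exact nc_of_minor 0 2 (by simp [vec])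
  case ob.lv l j i => exact nc_of_minor 1 2 (by simp [vec])
  case ob.ob l j l' j' =>
    by_cases hi : j = j'
    · subst hi
      have : l' ≠ l := fun h => hne (by rw [h])
      have := hinj _ _ hv.1 hu.1 this
      refine nc_of_minor 0 2 ?_
      simp only [vec, Matrix.cons_val_zero, Matrix.cons_val]
      intro h0
      apply this
      linarith
    · have := hinj _ _ hu.2 hv.2 hi
      refine nc_of_minor 1 2 ?_
      simp only [vec, Matrix.cons_val_one, Matrix.cons_val]
      intro h0
      apply this
      linarith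

end Pool.Agent.H670R2
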