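import Pool.Agent.H670R2.Graph
import Pool.Agent.NPC.Num

/-!
The reduction from systems of equations to ORTH3 is polynomial-time computable.
-/

namespace Pool.Agent.NPC.H670R2

open Pool.Agent.NPC Pool.Agent.H670R2

/-- an equation as a tuple of numbers -/
def _root_.Pool.Agent.H670R2.EC.tup : EC → ℕ × ℕ × ℕ × ℕ
  | .one i => (0, i, 0, 0)
  | .add i j k => (1, i, j, k)
  | .mul i j k => (2, i, j, k)

theorem ectup_injective : Function.Injective EC.tup := by
  intro a b h
  cases a <;> cases b <;> simp [EC.tup] at h <;> simp [h]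

instance : TEnc EC := ⟨fun e => toT e.tup, fun _ _ h => ectup_injective (TEnc.inj h)⟩

def _root_.Pool.Agent.H670R2.Cst.tup (c : Cst) : ℕ × ℕ × ℕ × ℕ := (c.i, c.j, c.k, c.l)

theorem csttup_injective : Function.Injective Cst.tup := by
  rintro ⟨a, b, c, d⟩ ⟨a', b', c', d'⟩ h
  simp [Cst.tup] at h
  simp [h]

instance : TEnc Cst := ⟨fun e => toT e.tup, fun _ _ h => csttup_injective (TEnc.inj h)⟩

variable {α : Type} [TEnc α]

theorem poly_ectup {e : α → EC} (he : Poly e) : Poly (fun a => (e a).tup) := he

theorem poly_csttup {e : α → Cst} (he : Poly e) : Poly (fun a => (e a).tup) := he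

theorem poly_mkCst {i j k l : α → ℕ} (hi : Poly i) (hj : Poly j) (hk : Poly k) (hl : Poly l) :
    Poly (fun a => (⟨i a, j a, k a, l a⟩ : Cst)) :=
  Poly.pair hi (Poly.pair hj (Poly.pair hk hl))

theorem poly_csti {e : α → Cst} (he : Poly e) : Poly (fun a => (e a).i) :=
  Poly.fst (poly_csttup he)
theorem poly_cstj {e : α → Cst} (he : Poly e) : Poly (fun a => (e a).j) :=
  Poly.fst (Poly.snd (poly_csttup he))
theorem poly_cstk {e : α → Cst} (he : Poly e) : Poly (fun a => (e a).k) :=
  Poly.fst (Poly.snd (Poly.snd (poly_csttup he)))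
theorem poly_cstl {e : α → Cst} (he : Poly e) : Poly (fun a => (e a).l) :=
  Poly.snd (Poly.snd (Poly.snd (poly_csttup he)))

/-- the terms of an equation given as a tuple -/
def termsT (q : ℕ × ℕ × ℕ × ℕ) : List (ℕ × ℕ) :=
  if q.1 = 0 then
    [(3 + 2 * q.2.1, 1), (4 + 2 * q.2.1, 1), (3 + 2 * q.2.1, 1), (4 + 2 * q.2.1, 1), (1, 2), (1, 2)]
  else if q.1 = 1 then
    [(3 + 2 * q.2.1, 1), (4 + 2 * q.2.1, 1), (3 + 2 * q.2.2.1, 1), (4 + 2 * q.2.2.1, 1),
      (3 + 2 * q.2.2.2, 2), (4 + 2 * q.2.2.2, 2)]
  else
    [(3 + 2 * q.2.1, 3 + 2 * q.2.2.1), (3 + 2 * q.2.1, 4 + 2 * q.2.2.1),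
      (4 + 2 * q.2.1, 3 + 2 * q.2.2.1), (4 + 2 * q.2.1, 4 + 2 * q.2.2.1),
      (3 + 2 * q.2.2.2, 2), (4 + 2 * q.2.2.2, 2)]

theorem termsT_tup (e : EC) : termsT e.tup = e.terms := by cases e <;> rfl

theorem poly_termsT : Poly termsT := by
  unfold termsT
  have h1 : Poly (fun q : ℕ × ℕ × ℕ × ℕ => q.1) := Poly.fst Poly.id
  have h2 : Poly (fun q : ℕ × ℕ × ℕ × ℕ => q.2.1) := Poly.fst (Poly.snd Poly.id)
  have h3 : Poly (fun q : ℕ × ℕ × ℕ × ℕ => q.2.2.1) := Poly.fst (Poly.snd (Poly.snd Poly.id))
  have h4 : Poly (fun q : ℕ × ℕ × ℕ × ℕ => q.2.2.2) := Poly.snd (Poly.snd (Poly.snd Poly.id))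
  refine Poly.ite (Poly.decide_eq h1 (Poly.const 0)) ?_
    (Poly.ite (Poly.decide_eq h1 (Poly.const 1)) ?_ ?_)
  all_goals
    repeat' first
      | with_reducible exact h2
      | with_reducible exact h3
      | with_reducible exact h4
      | with_reducible exact Poly.const _
      | with_reducible apply Poly.cons
      | with_reducible apply Poly.pair
      | with_reducible apply Poly.add
      | with_reducible apply Poly.mul

theorem poly_terms {e : α → EC} (he : Poly e) : Poly (fun a => (e a).terms) :=
  (poly_termsT.comp (poly_ectup he)).congr fun a => termsT_tup _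

/-- closed form of `accs` -/
theorem accs_eq (ts : List (ℕ × ℕ)) : ∀ (B n : ℕ), accs (B + 4 * n) ts =
    ((ts.zipIdx n).flatMap fun p => [⟨B + 4 * p.2 + 2, 1, B + 4 * p.2, B + 4 * p.2 + 3⟩,
      ⟨p.1.1, p.1.2, B + 4 * p.2 + 3, B + 4 * p.2 + 4⟩,
      ⟨B + 4 * p.2 + 2, 1, B + 4 * p.2 + 5, B + 4 * p.2 + 1⟩]) ++
      [⟨B + 4 * (n + ts.length), 1, B + 4 * (n + ts.length) + 1, 0⟩] := by
  induction ts with
  | nil => intro B n; simp [accs]
  | cons t ts ih =>
      intro B n
      have := ih B (n + 1)
      rw [show B + 4 * (n + 1) = B + 4 * n + 4 by ring] at this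
      rw [accs, this]
      simp only [List.zipIdx_cons, List.flatMap_cons, List.cons_append, List.nil_append,
        List.length_cons]
      rw [show n + 1 + ts.length = n + (ts.length + 1) by ring]

theorem poly_accs {B : α → ℕ} {ts : α → List (ℕ × ℕ)} (hB : Poly B) (ht : Poly ts) :
    Poly (fun a => accs (B a) (ts a)) := by
  have h : Poly (fun a => (((ts a).zipIdx).flatMap fun p : (ℕ × ℕ) × ℕ =>
      [(⟨B a + 4 * p.2 + 2, 1, B a + 4 * p.2, B a + 4 * p.2 + 3⟩ : Cst),
      ⟨p.1.1, p.1.2, B a + 4 * p.2 + 3, B a + 4 * p.2 + 4⟩,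
      ⟨B a + 4 * p.2 + 2, 1, B a + 4 * p.2 + 5, B a + 4 * p.2 + 1⟩]) ++
      [(⟨B a + 4 * (ts a).length, 1, B a + 4 * (ts a).length + 1, 0⟩ : Cst)]) := by
    refine Poly.append (Poly.flatMap (Poly.zipIdx ht) ?_) ?_
    · have h1 : Poly (fun p : α × ((ℕ × ℕ) × ℕ) => B p.1) := hB.comp (Poly.fst Poly.id)
      have h2 : Poly (fun p : α × ((ℕ × ℕ) × ℕ) => p.2.2) := Poly.snd (Poly.snd Poly.id)
      have h3 : Poly (fun p : α × ((ℕ × ℕ) × ℕ) => p.2.1.1) :=
        Poly.fst (Poly.fst (Poly.snd Poly.id))
      have h4 : Poly (fun p : α × ((ℕ × ℕ) × ℕ) => p.2.1.2) :=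
        Poly.snd (Poly.fst (Poly.snd Poly.id))
      repeat' first
        | with_reducible exact h1
        | with_reducible exact h2
        | with_reducible exact h3
        | with_reducible exact h4
        | with_reducible exact Poly.const _
        | with_reducible apply Poly.cons
        | with_reducible apply poly_mkCst
        | with_reducible apply Poly.add
        | with_reducible apply Poly.mul
    · have h1 : Poly (fun a => (ts a).length) := Poly.length ht
      repeat' first
        | with_reducible exact hB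
        | with_reducible exact h1
        | with_reducible exact Poly.const _
        | with_reducible apply Poly.cons
        | with_reducible apply poly_mkCst
        | with_reducible apply Poly.add
        | with_reducible apply Poly.mul
  refine h.congr fun a => ?_
  have := accs_eq (ts a) (B a) 0
  simp only [mul_zero, add_zero, zero_add] at this
  exact this.symm

theorem poly_gadget {B : α → ℕ} {ts : α → List (ℕ × ℕ)} (hB : Poly B) (ht : Poly ts) :
    Poly (fun a => gadget (B a) (ts a)) := by
  unfold gadget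
  refine Poly.cons (poly_mkCst hB (Poly.const _) (Poly.add hB (Poly.const _)) (Poly.const _))
    (poly_accs hB ht)

theorem maskFrom_eq (es : List EC) : ∀ (B n : ℕ), maskFrom (B + 26 * n) es =
    (es.zipIdx n).flatMap fun p => gadget (B + 26 * p.2) p.1.terms := by
  induction es with
  | nil => intro B n; simp [maskFrom]
  | cons e es ih =>
      intro B n
      rw [maskFrom, show B + 26 * n + 26 = B + 26 * (n + 1) by ring, ih B (n + 1)]
      simp only [List.zipIdx_cons, List.flatMap_cons]

theorem poly_mask {m : α → ℕ} {es : α → List EC} (hm : Poly m) (he : Poly es) :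
    Poly (fun a => mask (m a) (es a)) := by
  have h : Poly (fun a => ((es a).zipIdx).flatMap fun p : EC × ℕ =>
      gadget (3 + 2 * m a + 26 * p.2) p.1.terms) := by
    refine Poly.flatMap (Poly.zipIdx he) (poly_gadget ?_ (poly_terms (Poly.fst (Poly.snd Poly.id))))
    have h1 : Poly (fun p : α × (EC × ℕ) => m p.1) := hm.comp (Poly.fst Poly.id)
    have h2 : Poly (fun p : α × (EC × ℕ) => p.2.2) := Poly.snd (Poly.snd Poly.id)
    repeat' first
      | with_reducible exact h1
      | with_reducible exact h2
      | with_reducible exact Poly.const _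
      | with_reducible apply Poly.add
      | with_reducible apply Poly.mul
  refine h.congr fun a => ?_
  have := maskFrom_eq (es a) (3 + 2 * m a) 0
  simp only [mul_zero, add_zero] at this
  exact this.symm

theorem upoly_maskK {m : α → ℕ} {es : α → List EC} (hm : UPoly m) (he : Poly es) :
    UPoly (fun a => maskK (m a) (es a)) :=
  UPoly.add (UPoly.add (UPoly.const 3) (UPoly.mul (UPoly.const 2) hm))
    (UPoly.mul (UPoly.const 26) (UPoly.length he))

theorem poly_adjLists {n : α → ℕ} {E : α → List (ℕ × ℕ)} (hn : UPoly n) (hE : Poly E) :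
    Poly (fun a => adjLists (n a) (E a)) := by
  unfold adjLists
  refine Poly.map hn.range (Poly.filter
    (p := fun (x : α × ℕ) (v : ℕ) => decide ((x.2, v) ∈ E x.1) || decide ((v, x.2) ∈ E x.1))
    (hn.range.comp (Poly.fst Poly.id)) ?_)
  refine (Poly.or (Poly.decide_mem (f := fun x : (α × ℕ) × ℕ => (x.1.2, x.2))
    (l := fun x => E x.1.1) ?_ ?_) (Poly.decide_mem (f := fun x : (α × ℕ) × ℕ => (x.2, x.1.2))
    (l := fun x => E x.1.1) ?_ ?_)).congr fun x => ?_
  rotate_right
  · exact congrArg₂ _ (decide_eq_decide.2 Iff.rfl) (decide_eq_decide.2 Iff.rfl)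
  · exact Poly.pair (Poly.snd (Poly.fst Poly.id)) (Poly.snd Poly.id)
  · exact hE.comp (Poly.fst (Poly.fst Poly.id))
  · exact Poly.pair (Poly.snd Poly.id) (Poly.snd (Poly.fst Poly.id))
  · exact hE.comp (Poly.fst (Poly.fst Poly.id))

theorem poly_edges {K : α → ℕ} {cs : α → List Cst} (hK : UPoly K) (hc : Poly cs) :
    Poly (fun a => edges (K a) (cs a)) := by
  unfold edges
  have hk := hK.toPoly
  refine Poly.cons ?_ (Poly.append (Poly.append (Poly.flatMap hK.range ?_) (Poly.flatMap
    (F := fun (a : α) (i : ℕ) => (List.range (K a)).flatMap fun k =>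
      [(code (K a) (.pt i k), code (K a) (.lv i)), (code (K a) (.pS k), code (K a) (.ob i k)),
      (code (K a) (.pt i k), code (K a) (.ob k 0)), (code (K a) (.pt 0 i), code (K a) (.ob i k))])
    hK.range ?_)) (Poly.map hc ?_))
  · simp only [code]
    exact Poly.const _
  · have h1 : Poly (fun p : α × ℕ => K p.1) := hk.comp (Poly.fst Poly.id)
    have h2 : Poly (fun p : α × ℕ => p.2) := Poly.snd Poly.id
    simp only [code]
    repeat' first
      | with_reducible exact h1
      | with_reducible exact h2
      | with_reducible exact Poly.const _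
      | with_reducible apply Poly.cons
      | with_reducible apply Poly.pair
      | with_reducible apply Poly.add
      | with_reducible apply Poly.mul
  · refine Poly.flatMap (α := α × ℕ) (F := fun (x : α × ℕ) (k : ℕ) =>
      [(code (K x.1) (.pt x.2 k), code (K x.1) (.lv x.2)),
        (code (K x.1) (.pS k), code (K x.1) (.ob x.2 k)),
        (code (K x.1) (.pt x.2 k), code (K x.1) (.ob k 0)),
        (code (K x.1) (.pt 0 x.2), code (K x.1) (.ob x.2 k))])
      (hK.range.comp (Poly.fst Poly.id)) ?_
    have h1 : Poly (fun p : (α × ℕ) × ℕ => K p.1.1) := hk.comp (Poly.fst (Poly.fst Poly.id))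
    have h2 : Poly (fun p : (α × ℕ) × ℕ => p.2) := Poly.snd Poly.id
    have h3 : Poly (fun p : (α × ℕ) × ℕ => p.1.2) := Poly.snd (Poly.fst Poly.id)
    simp only [code]
    repeat' first
      | with_reducible exact h1
      | with_reducible exact h2
      | with_reducible exact h3
      | with_reducible exact Poly.const _
      | with_reducible apply Poly.cons
      | with_reducible apply Poly.pair
      | with_reducible apply Poly.add
      | with_reducible apply Poly.mul
  · have h1 : Poly (fun p : α × Cst => K p.1) := hk.comp (Poly.fst Poly.id)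
    have h2 : Poly (fun p : α × Cst => p.2.i) := poly_csti (Poly.snd Poly.id)
    have h3 : Poly (fun p : α × Cst => p.2.j) := poly_cstj (Poly.snd Poly.id)
    have h4 : Poly (fun p : α × Cst => p.2.k) := poly_cstk (Poly.snd Poly.id)
    have h5 : Poly (fun p : α × Cst => p.2.l) := poly_cstl (Poly.snd Poly.id)
    simp only [code]
    repeat' first
      | with_reducible exact h1
      | with_reducible exact h2
      | with_reducible exact h3
      | with_reducible exact h4
      | with_reducible exact h5
      | with_reducible exact Poly.const _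
      | with_reducible apply Poly.pair
      | with_reducible apply Poly.add
      | with_reducible apply Poly.mul

theorem poly_gr {K : α → ℕ} {cs : α → List Cst} (hK : UPoly K) (hc : Poly cs) :
    Poly (fun a => gr (K a) (cs a)) := by
  unfold gr
  refine poly_adjLists ?_ (poly_edges hK hc)
  exact UPoly.add (UPoly.add (UPoly.const 2) (UPoly.mul (UPoly.const 2) hK))
    (UPoly.mul (UPoly.const 2) (UPoly.mul hK hK))

/-- the whole reduction from systems of equations in `m` variables -/
def red (m : ℕ) (es : List EC) : List (List ℕ) := gr (maskK m es) (mask m es)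

theorem poly_red {m : α → ℕ} {es : α → List EC} (hm : UPoly m) (he : Poly es) :
    Poly (fun a => red (m a) (es a)) :=
  poly_gr (upoly_maskK hm he) (poly_mask hm.toPoly he)

end Pool.Agent.NPC.H670R2
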