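import Pool.Agent.NPC.Dec

/-!
# The maximum 2-peripatetic salesman problem under a polyhedral norm: statement
-/

namespace Pool.Agent.H670R2.PSP

open Pool.Agent.NPC

/-- `B` is a polyhedral unit ball in `ℝˢ` with facet functionals among the rows of `A`:
`B = {x | A x ≤ 1}` is bounded and centrally symmetric. -/
def IsPolyhedralBall {m s : ℕ} (A : Fin m → Fin s → ℝ) (B : Set (Fin s → ℝ)) : Prop :=
  B = {x | ∀ i, ∑ k, A i k * x k ≤ 1} ∧ (∀ x ∈ B, -x ∈ B) ∧ Bornology.IsBounded B

/-- The `i`-th point of `P`, as a real vector. -/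
def pt {s : ℕ} (P : List (Fin s → ℚ)) (i : ℕ) : Fin s → ℝ := fun k => ((P.getD i 0) k : ℝ)

/-- The steps of the round-trip that visits the points in the cyclic order `τ`. -/
def steps (τ : List ℕ) : List (ℕ × ℕ) := τ.zip (τ.rotate 1)

/-- The edges of a round-trip. -/
def edges (τ : List ℕ) : List (Sym2 ℕ) := (steps τ).map fun d => s(d.1, d.2)

/-- The length of a round-trip through `P` with distances `‖x - y‖_B`; the norm with unit ball `B`
is the gauge of `B`. -/
noncomputable def len {s : ℕ} (B : Set (Fin s → ℝ)) (P : List (Fin s → ℚ)) (τ : List ℕ) : ℝ :=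
  ((steps τ).map fun d => gauge B (pt P d.1 - pt P d.2)).sum

/-- `τ` and `σ` are edge-disjoint round-trips through `n` points: two cyclic orders of the indices
`0, …, n - 1` (with `n ≥ 3`) without common edge. -/
def Feasible (n : ℕ) (τ σ : List ℕ) : Prop :=
  3 ≤ n ∧ τ.Perm (List.range n) ∧ σ.Perm (List.range n) ∧ ∀ e ∈ edges τ, e ∉ edges σ

/-- `o` is a correct answer for the instance `P` of Max-2-PSP under `B`: `none` if there are no two
edge-disjoint round-trips, and otherwise two edge-disjoint round-trips of maximum total length. -/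
def Solves {s : ℕ} (B : Set (Fin s → ℝ)) (P : List (Fin s → ℚ)) :
    Option (List ℕ × List ℕ) → Prop
  | none => ∀ τ σ, ¬ Feasible P.length τ σ
  | some o => Feasible P.length o.1 o.2 ∧
      ∀ τ σ, Feasible P.length τ σ → len B P τ + len B P σ ≤ len B P o.1 + len B P o.2

/-- Max-2-PSP under `B` is solvable in polynomial time: some polynomial-time algorithm computes from
the code of every list `P` of distinct rational points a correct answer. -/
def PolyTimeSolvable {s : ℕ} (B : Set (Fin s → ℝ)) : Prop :=
  ∃ F : List Bool → List Bool, PolyTime F ∧ ∀ P : List (Fin s → ℚ), P.Nodup →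
    ∃ o : Option (List ℕ × List ℕ), F (bits (P.map List.ofFn)) = bits o ∧ Solves B P o

/-- The signs of the integer combinations of the entries of `A` can be computed in polynomial
time. -/
def PolyTimeSigns {m s : ℕ} (A : Fin m → Fin s → ℝ) : Prop :=
  ∃ F : List Bool → List Bool, PolyTime F ∧ ∀ z : Fin m → Fin s → ℤ,
    F (bits (List.ofFn fun i => List.ofFn (z i))) = [true] ↔ 0 < ∑ i, ∑ k, A i k * (z i k : ℝ)

end Pool.Agent.H670R2.PSP
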