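import Pool.Agent.H670R2.PspTable
import Pool.Agent.H670R2.PspDefs
import Pool.Agent.H670R2.Best
import Pool.Agent.NPC.Sat

/-!
# The algorithm for Max-2-PSP
-/

namespace Pool.Agent.H670R2.PSP

open Pool.Agent.NPC Pool.Agent.NPC.H670R2

variable {m s : ℕ}

/-- labels -/
abbrev Lb (m : ℕ) := Fin m × Bool

/-- the complementary label -/
def bar (l : Lb m) : Lb m := (l.1, !l.2)

theorem bar_bar (l : Lb m) : bar (bar l) = l := by
  cases l with
  | mk i b => simp [bar]

theorem bar_ne (l : Lb m) : bar l ≠ l := by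
  cases l with
  | mk i b => cases b <;> simp [bar]

/-- sign of a label in a row -/
def sg (j : Fin m) (l : Lb m) : ℤ := if l.1 = j then (if l.2 then 1 else -1) else 0

/-- coefficient of a row in a type -/
def cf (j : Fin m) (t : Ty (Lb m)) : ℤ := sg j t.1.1 + sg j t.1.2 + sg j t.2.1 + sg j t.2.2

/-- coefficient of an entry of the matrix in the weight of an assignment -/
def wc (j : Fin m) (k : ℕ) (a : List (Ty (Lb m))) (Z : List (List ℤ)) : ℤ :=
  (List.zipWith (fun t z => cf j t * z.getD k 0) a Z).sum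

/-- difference of weights -/
def dif (s : ℕ) (a a' : List (Ty (Lb m))) (Z : List (List ℤ)) : List (List ℤ) :=
  List.ofFn fun j : Fin m => List.ofFn fun k : Fin s => wc j k a Z - wc j k a' Z

/-- real weight -/
noncomputable def rwt (A : Fin m → Fin s → ℝ) (a : List (Ty (Lb m))) (Z : List (List ℤ)) : ℝ :=
  ∑ j, ∑ k : Fin s, A j k * (wc j k a Z : ℝ)

theorem dif_iff {A : Fin m → Fin s → ℝ} {σ : List (List ℤ) → Bool}
    (hσ : ∀ z : Fin m → Fin s → ℤ, σ (List.ofFn fun i => List.ofFn (z i)) = true ↔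
      0 < ∑ i, ∑ k, A i k * (z i k : ℝ)) (a a' : List (Ty (Lb m))) (Z : List (List ℤ)) :
    σ (dif s a a' Z) = true ↔ rwt A a' Z < rwt A a Z := by
  have := hσ fun j k => wc j k a Z - wc j k a' Z
  unfold dif
  rw [this]
  have e : ∑ i, ∑ k : Fin s, A i k * ((wc i k a Z - wc i k a' Z : ℤ) : ℝ) =
      rwt A a Z - rwt A a' Z := by
    unfold rwt
    rw [← Finset.sum_sub_distrib]
    refine Finset.sum_congr rfl fun i _ => ?_
    rw [← Finset.sum_sub_distrib]
    refine Finset.sum_congr rfl fun k _ => ?_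
    push_cast
    ring
  rw [e, sub_pos]

theorem wc_cons (j : Fin m) (k : ℕ) (t : Ty (Lb m)) (a : List (Ty (Lb m))) (z : List ℤ)
    (Z : List (List ℤ)) : wc j k (t :: a) (z :: Z) = cf j t * z.getD k 0 + wc j k a Z := by
  simp [wc]

theorem rwt_cons (A : Fin m → Fin s → ℝ) (t : Ty (Lb m)) (a : List (Ty (Lb m))) (z : List ℤ)
    (Z : List (List ℤ)) : rwt A (t :: a) (z :: Z) =
      (∑ j, ∑ k : Fin s, A j k * ((cf j t : ℝ) * (z.getD k 0 : ℝ))) + rwt A a Z := by
  unfold rwt
  rw [← Finset.sum_add_distrib]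
  refine Finset.sum_congr rfl fun i _ => ?_
  rw [← Finset.sum_add_distrib]
  refine Finset.sum_congr rfl fun k _ => ?_
  rw [wc_cons]
  push_cast
  ring

/-- all types -/
noncomputable def tys (m : ℕ) : List (Ty (Lb m)) := (Finset.univ : Finset (Ty (Lb m))).toList

theorem mem_tys (t : Ty (Lb m)) : t ∈ tys m := by simp [tys]

/-- the count vector -/
noncomputable def key (a : List (Ty (Lb m))) : List ℕ := (tys m).map fun t => cn t a

theorem key_eq {a a' : List (Ty (Lb m))} : key a = key a' ↔ ∀ t, cn t a = cn t a' := by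
  unfold key
  rw [List.map_inj_left]
  exact ⟨fun h t => h t (mem_tys t), fun h t _ => h t⟩

/-- all lists of length `k` over `R` -/
def prodL : ℕ → List ℕ → List (List ℕ)
  | 0, _ => [[]]
  | k + 1, R => R.flatMap fun x => (prodL k R).map fun l => x :: l

theorem mem_prodL {k : ℕ} {R l : List ℕ} (h : l.length = k) (h' : ∀ x ∈ l, x ∈ R) :
    l ∈ prodL k R := by
  induction k generalizing l with
  | zero =>
      rw [List.length_eq_zero_iff] at h
      simp [prodL, h]
  | succ k ih =>
      cases l with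
      | nil => simp at h
      | cons x l =>
          unfold prodL
          rw [List.mem_flatMap]
          refine ⟨x, h' x (by simp), List.mem_map.2 ⟨l, ih (by simpa using h) ?_, rfl⟩⟩
          exact fun y hy => h' y (by simp [hy])

/-- the keys for `n` points -/
noncomputable def keys (m n : ℕ) : List (List ℕ) := prodL (tys m).length (List.range (n + 1))

theorem key_mem {a : List (Ty (Lb m))} {n : ℕ} (h : a.length ≤ n) : key a ∈ keys m n := by
  refine mem_prodL (by simp [key]) ?_
  intro x hx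
  unfold key at hx
  rw [List.mem_map] at hx
  obtain ⟨t, -, rfl⟩ := hx
  rw [List.mem_range]
  have : cn t a ≤ a.length := List.countP_le_length
  omega

/-- one step of the dynamic program -/
noncomputable def dpStep (σ : List (List ℤ) → Bool) (s : ℕ) (K : List (List ℕ)) (z : List ℤ)
    (st : List (List ℤ) × List (List (Ty (Lb m)))) :
    List (List ℤ) × List (List (Ty (Lb m))) :=
  (z :: st.1, K.flatMap fun c => (best (fun a a' => σ (dif s a a' (z :: st.1)))
    ((st.2.flatMap fun a => (tys m).map fun t => t :: a).filter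
      fun a => decide (key a = c))).toList)

/-- the dynamic program -/
noncomputable def dp (m : ℕ) (σ : List (List ℤ) → Bool) (s : ℕ) (K : List (List ℕ))
    (Z : List (List ℤ)) : List (List ℤ) × List (List (Ty (Lb m))) :=
  Z.foldr (dpStep σ s K) ([], [[]])

theorem dp_fst (σ : List (List ℤ) → Bool) (K : List (List ℕ)) (Z : List (List ℤ)) :
    (dp m σ s K Z).1 = Z := by
  induction Z with
  | nil => rfl
  | cons z Z ih =>
      change z :: (dp m σ s K Z).1 = _
      rw [ih]

theorem dp_spec {A : Fin m → Fin s → ℝ} {σ : List (List ℤ) → Bool}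
    (hσ : ∀ z : Fin m → Fin s → ℤ, σ (List.ofFn fun i => List.ofFn (z i)) = true ↔
      0 < ∑ i, ∑ k, A i k * (z i k : ℝ)) (n : ℕ) (Z : List (List ℤ)) (hZ : Z.length ≤ n)
    (a : List (Ty (Lb m))) (ha : a.length = Z.length) :
    ∃ a' ∈ (dp m σ s (keys m n) Z).2, (∀ t, cn t a' = cn t a) ∧ rwt A a Z ≤ rwt A a' Z := by
  induction Z generalizing a with
  | nil =>
      have : a = [] := List.length_eq_zero_iff.1 ha
      subst this
      exact ⟨[], by simp [dp], fun t => rfl, le_rfl⟩
  | cons z Z ih =>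
      cases a with
      | nil => simp at ha
      | cons t a =>
          obtain ⟨a', h1, h2, h3⟩ := ih (by simp at hZ; omega) a (by simpa using ha)
          have h4 : ∀ u, cn u (t :: a') = cn u (t :: a) := by
            intro u
            rw [cn_cons, cn_cons, h2]
          have h5 : rwt A (t :: a) (z :: Z) ≤ rwt A (t :: a') (z :: Z) := by
            rw [rwt_cons, rwt_cons]
            linarith
          set C := ((dp m σ s (keys m n) Z).2.flatMap fun a => (tys m).map fun t => t :: a).filter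
            (fun b => decide (key b = key (t :: a))) with hC
          have h6 : t :: a' ∈ C := by
            rw [hC, List.mem_filter, decide_eq_true_iff]
            exact ⟨List.mem_flatMap.2 ⟨a', h1, List.mem_map.2 ⟨t, mem_tys t, rfl⟩⟩,
              key_eq.2 h4⟩
          obtain ⟨b, hb⟩ := best_ne_none (lt := fun a a' => σ (dif s a a' (z :: Z)))
            (List.ne_nil_of_mem h6)
          have hbm := best_mem C b hb
          have hbs := best_spec (γ := ℝ) (fun x => -rwt A x (z :: Z)) C (by
            intro x _ y _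
            rw [dif_iff hσ, neg_lt_neg_iff]) b hb _ h6
          refine ⟨b, ?_, ?_, by linarith⟩
          · change b ∈ (keys m n).flatMap fun c =>
              (best (fun a a' => σ (dif s a a' (z :: (dp m σ s (keys m n) Z).1)))
                (((dp m σ s (keys m n) Z).2.flatMap fun a => (tys m).map fun t => t :: a).filter
                  fun a => decide (key a = c))).toList
            rw [dp_fst, List.mem_flatMap]
            refine ⟨key (t :: a), key_mem ?_, ?_⟩
            · rw [ha]
              exact hZ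
            · rw [← hC, hb]
              simp
          · rw [hC, List.mem_filter, decide_eq_true_iff] at hbm
            exact key_eq.1 hbm.2

/-- test of a realisation -/
def realB (n : ℕ) (a : List (Ty (Lb m)))
    (q : List ((Ty (Lb m) × ℕ) × Bool) × List ((Ty (Lb m) × ℕ) × Bool)) : Bool :=
  (decide (3 ≤ n) && decide (a.length = n)) &&
  ((decide (q.1.length = n) && decide (q.2.length = n)) &&
  (((nm a).all (fun v => q.1.any fun e => decide (e.1 = v)) &&
    (nm a).all (fun v => q.2.any fun e => decide (e.1 = v))) &&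
  (((bds q.1).all (fun d => decide (lf p₁ d.2 = bar (rt p₁ d.1))) &&
    (bds q.2).all (fun d => decide (lf p₂ d.2 = bar (rt p₂ d.1)))) &&
  (bds q.1).all fun d => !(adj q.2 d.1.1 d.2.1))))

theorem perm_of_all {V : Type} [DecidableEq V] {vs : List V} (hvs : vs.Nodup)
    {M : List (V × Bool)} : (M.map Prod.fst).Perm vs ↔
      M.length = vs.length ∧ ∀ v ∈ vs, ∃ e ∈ M, e.1 = v := by
  constructor
  · intro h
    refine ⟨by rw [← h.length_eq, List.length_map], fun v hv => ?_⟩
    exact List.mem_map.1 (h.mem_iff.2 hv)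
  · rintro ⟨h1, h2⟩
    refine (List.Subperm.perm_of_length_le (hvs.subperm fun v hv => List.mem_map.2 (h2 v hv))
      ?_).symm
    rw [List.length_map, h1]

theorem realB_iff {n : ℕ} {a : List (Ty (Lb m))}
    {q : List ((Ty (Lb m) × ℕ) × Bool) × List ((Ty (Lb m) × ℕ) × Bool)} :
    realB n a q = true ↔ 3 ≤ n ∧ a.length = n ∧ Realn p₁ p₂ bar (nm a) q.1 q.2 := by
  have e : Realn p₁ p₂ bar (nm a) q.1 q.2 ↔
      (q.1.length = a.length ∧ ∀ v ∈ nm a, ∃ e ∈ q.1, e.1 = v) ∧
      (q.2.length = a.length ∧ ∀ v ∈ nm a, ∃ e ∈ q.2, e.1 = v) ∧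
      (∀ d ∈ bds q.1, lf p₁ d.2 = bar (rt p₁ d.1)) ∧
      (∀ d ∈ bds q.2, lf p₂ d.2 = bar (rt p₂ d.1)) ∧
      ∀ d ∈ bds q.1, adj q.2 d.1.1 d.2.1 = false := by
    unfold Realn Closed
    rw [perm_of_all (nodup_nm a), perm_of_all (nodup_nm a), nm_length]
    have : (∀ d ∈ bds q.1, ∀ d' ∈ bds q.2, edge d ≠ edge d') ↔
        ∀ d ∈ bds q.1, adj q.2 d.1.1 d.2.1 = false := by
      refine forall₂_congr fun d _ => ?_
      rw [← Bool.not_eq_true, adj_iff]
      push Not
      exact forall₂_congr fun d' _ => ⟨fun h h' => h h'.symm, fun h h' => h h'.symm⟩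
    rw [this]
  rw [e]
  unfold realB
  simp only [Bool.and_eq_true, decide_eq_true_eq, List.all_eq_true, List.any_eq_true,
    Bool.not_eq_true']
  constructor
  · rintro ⟨⟨h1, h2⟩, ⟨h3, h4⟩, ⟨h5, h6⟩, ⟨h7, h8⟩, h9⟩
    exact ⟨h1, h2, ⟨by omega, h5⟩, ⟨by omega, h6⟩, h7, h8, h9⟩
  · rintro ⟨h1, h2, ⟨h3, h5⟩, ⟨h4, h6⟩, h7, h8, h9⟩
    exact ⟨⟨h1, h2⟩, ⟨by omega, by omega⟩, ⟨h5, h6⟩, ⟨h7, h8⟩, h9⟩

/-- table of realisations -/
abbrev Tb (m : ℕ) := List (List ((Ty (Lb m) × ℕ) × Bool) × List ((Ty (Lb m) × ℕ) × Bool))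

/-- the candidate solutions -/
noncomputable def outs (σ : List (List ℤ) → Bool) (s : ℕ) (tb : Tb m) (Z : List (List ℤ)) :
    List (List (Ty (Lb m)) × List ((Ty (Lb m) × ℕ) × Bool) × List ((Ty (Lb m) × ℕ) × Bool)) :=
  ((dp m σ s (keys m Z.length) Z).2.flatMap fun a => tb.map fun O => (a, attempt bar O a)).filter
    fun x => realB Z.length x.1 x.2

/-- the round-trip given by a labelled tour -/
noncomputable def toTour (a : List (Ty (Lb m))) (M : List ((Ty (Lb m) × ℕ) × Bool)) : List ℕ :=
  M.map fun e => index (nm a) e.1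

/-- the algorithm on integer points -/
noncomputable def algZ (σ : List (List ℤ) → Bool) (s : ℕ) (tb : Tb m) (Z : List (List ℤ)) :
    Option (List ℕ × List ℕ) :=
  (best (fun x y => σ (dif s x.1 y.1 Z)) (outs σ s tb Z)).map fun x =>
    (toTour x.1 x.2.1, toTour x.1 x.2.2)

end Pool.Agent.H670R2.PSP
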