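import Pool.Agent.H670R2.PspFix2

/-!
# Extending a labelled tour by vertices with frequent labels
-/

namespace Pool.Agent.H670R2.PSP

variable {E V L : Type}

theorem lk_mk {A B : List E} {x y : E} (hy : A.getLast? = some y) (hx : B.head? = some x) :
    lk A B = [(y, x)] := lk_eq_iff.2 ⟨hy, hx⟩

/-- rotations -/
def rots (M : List E) : List (List E) := (splits M).map fun q => q.2 ++ q.1

theorem mem_rots {M R : List E} : R ∈ rots M ↔ ∃ A B, M = A ++ B ∧ R = B ++ A := by
  unfold rots
  simp only [List.mem_map]
  constructor
  · rintro ⟨q, hq, rfl⟩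
    exact ⟨q.1, q.2, (mem_splits.1 hq).symm, rfl⟩
  · rintro ⟨A, B, h, rfl⟩
    exact ⟨(A, B), mem_splits.2 h.symm, rfl⟩

theorem self_mem_rots (M : List E) : M ∈ rots M := mem_rots.2 ⟨[], M, rfl, by simp⟩

theorem rots_perm {M R : List E} (h : R ∈ rots M) : R.Perm M := by
  obtain ⟨A, B, rfl, rfl⟩ := mem_rots.1 h
  exact List.perm_append_comm

/-- admissible paths -/
def okB (p : V → L × L) (P : (V × Bool) × (V × Bool) → Bool) (freq : L → Bool)
    (N : List (V × Bool)) : Bool :=
  (lin N).all P && ((N.take 1).all (fun x => freq (lf p x)) || (bds N).all P)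

/-- candidates for the next path -/
def extCands [DecidableEq V] (s : List (V × Bool) × List V) : List (List (V × Bool) × List V) :=
  (rots s.1 ++ rots (rev s.1)).flatMap fun R => s.2.flatMap fun w =>
    [(R ++ [(w, false)], s.2.erase w), (R ++ [(w, true)], s.2.erase w)]

/-- one extension step -/
def extStep [DecidableEq V] (p : V → L × L) (P : (V × Bool) × (V × Bool) → Bool) (freq : L → Bool)
    (s : List (V × Bool) × List V) : List (V × Bool) × List V :=
  (((extCands s).filter fun t => okB p P freq t.1).head?).getD s

/-- the extension -/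
def extTour [DecidableEq V] (p : V → L × L) (P : (V × Bool) × (V × Bool) → Bool) (freq : L → Bool)
    (M : List (V × Bool)) (U : List V) : List (V × Bool) :=
  ((extStep p P freq)^[U.length] (M, U)).1

theorem mem_extCands [DecidableEq V] {s t : List (V × Bool) × List V} :
    t ∈ extCands s ↔ ∃ R, (R ∈ rots s.1 ∨ R ∈ rots (rev s.1)) ∧ ∃ w ∈ s.2, ∃ b,
      t = (R ++ [(w, b)], s.2.erase w) := by
  unfold extCands
  simp only [List.mem_flatMap, List.mem_append, List.mem_cons, List.not_mem_nil, or_false]
  constructor
  · rintro ⟨R, hR, w, hw, rfl | rfl⟩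
    · exact ⟨R, hR, w, hw, false, rfl⟩
    · exact ⟨R, hR, w, hw, true, rfl⟩
  · rintro ⟨R, hR, w, hw, b, rfl⟩
    refine ⟨R, hR, w, hw, ?_⟩
    cases b
    · exact Or.inl rfl
    · exact Or.inr rfl

theorem extCands_perm [DecidableEq V] {s t : List (V × Bool) × List V} (h : t ∈ extCands s) :
    (t.1.map Prod.fst ++ t.2).Perm (s.1.map Prod.fst ++ s.2) := by
  obtain ⟨R, hR, w, hw, b, rfl⟩ := mem_extCands.1 h
  have h1 : (R.map Prod.fst).Perm (s.1.map Prod.fst) := by
    rcases hR with hR | hR
    · exact (rots_perm hR).map _
    · exact ((rots_perm hR).map _).trans (rev_map_fst _)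
  simp only [List.map_append, List.map_cons, List.map_nil]
  rw [List.append_assoc]
  refine List.Perm.append h1 ?_
  simp only [List.singleton_append]
  exact (List.perm_cons_erase hw).symm

theorem extStep_perm [DecidableEq V] (p : V → L × L) (P : (V × Bool) × (V × Bool) → Bool)
    (freq : L → Bool) (s : List (V × Bool) × List V) :
    ((extStep p P freq s).1.map Prod.fst ++ (extStep p P freq s).2).Perm
      (s.1.map Prod.fst ++ s.2) := by
  unfold extStep
  cases h : ((extCands s).filter fun t => okB p P freq t.1).head? with
  | none => exact List.Perm.refl _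
  | some t =>
      have := List.mem_of_head? h
      rw [List.mem_filter] at this
      exact extCands_perm this.1

theorem extIter_perm [DecidableEq V] (p : V → L × L) (P : (V × Bool) × (V × Bool) → Bool)
    (freq : L → Bool) (s : List (V × Bool) × List V) (k : ℕ) :
    (((extStep p P freq)^[k] s).1.map Prod.fst ++ ((extStep p P freq)^[k] s).2).Perm
      (s.1.map Prod.fst ++ s.2) := by
  induction k with
  | zero => exact List.Perm.refl _
  | succ k ih =>
      rw [Function.iterate_succ_apply']
      exact (extStep_perm _ _ _ _).trans ih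

section

variable [DecidableEq L] {p : V → L × L} {bar : L → L}

theorem lin_map_fst_append {M : List E} {y : E} (h : M.getLast? = some y) :
    M = (lin M).map Prod.fst ++ [y] := by
  induction M with
  | nil => simp at h
  | cons x l ih =>
      cases l with
      | nil =>
          simp only [List.getLast?_singleton, Option.some.injEq] at h
          simp [lin, h]
      | cons z l =>
          rw [List.getLast?_cons_cons] at h
          rw [lin_cons, List.map_append, List.append_assoc, ← ih h]
          simp [lk]

/-- port counts of a path -/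
theorem path_count (hbar : ∀ a, bar (bar a) = a) {M : List (V × Bool)}
    (hM : ∀ d ∈ lin M, lf p d.2 = bar (rt p d.1)) {x y : V × Bool} (hx : M.head? = some x)
    (hy : M.getLast? = some y) (a : L) :
    M.countP (fun e => decide (rt p e = bar a)) + (if lf p x = a then 1 else 0) =
      M.countP (fun e => decide (lf p e = a)) + (if rt p y = bar a then 1 else 0) := by
  have e1 : M.countP (fun e => decide (rt p e = bar a)) =
      (lin M).countP (fun d => decide (rt p d.1 = bar a)) +
        (if rt p y = bar a then 1 else 0) := by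
    conv_lhs => rw [lin_map_fst_append hy]
    rw [List.countP_append, List.countP_map, List.countP_singleton]
    simp only [decide_eq_true_eq]
    rfl
  have e2 : M.countP (fun e => decide (lf p e = a)) =
      (lin M).countP (fun d => decide (lf p d.2 = a)) +
        (if lf p x = a then 1 else 0) := by
    have : M = x :: (lin M).map Prod.snd := by
      rw [lin_map_snd]
      cases M with
      | nil => simp at hx
      | cons z l =>
          simp only [List.head?_cons, Option.some.injEq] at hx
          rw [hx]
          rfl
    conv_lhs => rw [this]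
    rw [List.countP_cons, List.countP_map]
    simp only [decide_eq_true_eq]
    rfl
  have e3 : (lin M).countP (fun d => decide (rt p d.1 = bar a)) =
      (lin M).countP (fun d => decide (lf p d.2 = a)) := by
    refine List.countP_congr fun d hd => ?_
    rw [decide_eq_true_iff, decide_eq_true_iff, hM d hd]
    constructor
    · intro h
      rw [h, hbar]
    · intro h
      rw [← h, hbar]
  omega

theorem path_balance (hbar : ∀ a, bar (bar a) = a) {M : List (V × Bool)}
    (hM : ∀ d ∈ lin M, lf p d.2 = bar (rt p d.1)) {x y : V × Bool} (hx : M.head? = some x)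
    (hy : M.getLast? = some y) (a : L) :
    cnt p a (M.map Prod.fst) + (if lf p x = bar a then 1 else 0) +
      (if rt p y = bar a then 1 else 0) =
    cnt p (bar a) (M.map Prod.fst) + (if rt p y = a then 1 else 0) +
      (if lf p x = a then 1 else 0) := by
  have h1 := path_count hbar hM hx hy a
  have h2 := path_count hbar hM hx hy (bar a)
  rw [hbar] at h2
  rw [← cnt_lf_rt, ← cnt_lf_rt]
  omega

theorem path_closed (hbar : ∀ a, bar (bar a) = a) (hne : ∀ a, bar a ≠ a) {M : List (V × Bool)}
    (hM : ∀ d ∈ lin M, lf p d.2 = bar (rt p d.1)) {x y : V × Bool} (hx : M.head? = some x)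
    (hy : M.getLast? = some y) (h : lf p x ≠ bar (rt p y)) :
    cnt p (bar (rt p y)) (M.map Prod.fst) < cnt p (rt p y) (M.map Prod.fst) := by
  have h1 := path_balance hbar hM hx hy (rt p y)
  rw [if_neg h, if_neg (hne (rt p y)).symm, if_pos rfl] at h1
  omega

theorem exists_port {a : L} {U : List V} (h : 0 < cnt p a U) :
    ∃ w ∈ U, ∃ b, lf p (w, b) = a := by
  unfold cnt at h
  rcases Nat.eq_zero_or_pos (U.countP (fun v => decide ((p v).1 = a))) with h0 | h0
  · rw [h0, Nat.zero_add, List.countP_pos_iff] at h
    obtain ⟨w, hw, h⟩ := h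
    exact ⟨w, hw, true, by simpa [lf] using h⟩
  · obtain ⟨w, hw, h⟩ := List.countP_pos_iff.1 h0
    exact ⟨w, hw, false, by simpa [lf] using h⟩

theorem head_getLast {M : List E} (h : M ≠ []) : ∃ x y, M.head? = some x ∧ M.getLast? = some y := by
  cases hx : M.head? with
  | none => exact absurd (List.head?_eq_none_iff.1 hx) h
  | some x =>
      cases hy : M.getLast? with
      | none => exact absurd (List.getLast?_eq_none_iff.1 hy) h
      | some y => exact ⟨x, y, rfl, rfl⟩

theorem okB_iff {P : (V × Bool) × (V × Bool) → Bool} {freq : L → Bool} {N : List (V × Bool)}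
    {x y : V × Bool} (hx : N.head? = some x) (hy : N.getLast? = some y) :
    okB p P freq N = true ↔ (∀ d ∈ lin N, P d = true) ∧
      (freq (lf p x) = true ∨ P (y, x) = true) := by
  have h1 : N.take 1 = [x] := by
    cases N with
    | nil => simp at hx
    | cons z l =>
        simp only [List.head?_cons, Option.some.injEq] at hx
        simp [hx]
  have h2 : bds N = lin N ++ [(y, x)] := by
    rw [bds_eq, lk_mk hy hx]
  unfold okB
  rw [h1, h2]
  simp only [List.all_append, Bool.and_eq_true, Bool.or_eq_true, List.all_eq_true,
    List.mem_singleton, forall_eq]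
  constructor
  · rintro ⟨h3, h4 | h4⟩
    · exact ⟨h3, Or.inl h4⟩
    · exact ⟨h3, Or.inr h4.2⟩
  · rintro ⟨h3, h4 | h4⟩
    · exact ⟨h3, Or.inl h4⟩
    · exact ⟨h3, Or.inr ⟨h3, h4⟩⟩

/-- an extension at a boundary of the right class -/
theorem ext_at (hbar : ∀ a, bar (bar a) = a) {P : (V × Bool) × (V × Bool) → Bool}
    {freq : L → Bool} (hPc : ∀ d, P d = true → lf p d.2 = bar (rt p d.1))
    (hPf : ∀ d, lf p d.2 = bar (rt p d.1) → freq (rt p d.1) = true → P d = true)
    (hfb : ∀ a, freq a = true → freq (bar a) = true) {M : List (V × Bool)}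
    (hM : ∀ d ∈ bds M, P d = true) {w : V} (hw : freq (p w).1 = true)
    {d : (V × Bool) × (V × Bool)} (hd : d ∈ bds M) (hda : rt p d.1 = bar (p w).1) :
    ∃ R ∈ rots M, okB p P freq (R ++ [(w, false)]) = true := by
  obtain ⟨k, hk, hrot⟩ := exists_rot hd
  refine ⟨M.drop k ++ M.take k, mem_rots.2 ⟨_, _, (List.take_append_drop k M).symm, rfl⟩, ?_⟩
  set R := M.drop k ++ M.take k with hR
  have hRN : (bds R).Perm (bds M) := bds_rot M k
  obtain ⟨hy, hx⟩ := lk_eq_iff.1 hrot
  have hx' : (R ++ [(w, false)]).head? = some d.2 := by
    rw [List.head?_append, hx]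
    rfl
  have hy' : (R ++ [(w, false)]).getLast? = some (w, false) := by simp
  rw [okB_iff hx' hy', lin_append]
  have h1 : lk R [(w, false)] = [(d.1, (w, false))] := lk_eq_iff.2 ⟨hy, rfl⟩
  constructor
  · intro e he
    rw [h1] at he
    have h2 : lin [(w, false)] = [] := rfl
    rw [h2, List.append_nil, List.mem_append, List.mem_singleton] at he
    rcases he with he | rfl
    · refine hM e (hRN.mem_iff.1 ?_)
      rw [bds_eq]
      exact List.mem_append_left _ he
    · refine hPf _ ?_ ?_
      · have : lf p (w, false) = (p w).1 := by simp [lf]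
        rw [this]
        rw [hda, hbar]
      · rw [hda]
        exact hfb _ hw
  · left
    rw [hPc d (hM d hd), hda, hbar]
    exact hw

/-- the invariant of the extension -/
theorem ext_exists [DecidableEq V] (hbar : ∀ a, bar (bar a) = a) (hne : ∀ a, bar a ≠ a)
    {P : (V × Bool) × (V × Bool) → Bool} {freq : L → Bool}
    (hPsw : ∀ d, P d = true → P (sw d) = true)
    (hPc : ∀ d, P d = true → lf p d.2 = bar (rt p d.1))
    (hPf : ∀ d, lf p d.2 = bar (rt p d.1) → freq (rt p d.1) = true → P d = true)
    (hfb : ∀ a, freq a = true → freq (bar a) = true)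
    {M : List (V × Bool)} {U : List V} (hM0 : M ≠ []) (hU : U ≠ [])
    (hok : okB p P freq M = true)
    (hbal : ∀ a, cnt p a (M.map Prod.fst ++ U) = cnt p (bar a) (M.map Prod.fst ++ U))
    (hfU : ∀ w ∈ U, freq (p w).1 = true ∧ freq (p w).2 = true)
    (hfM : ∀ a, freq a = true → 0 < cnt p a (M.map Prod.fst)) :
    ∃ t ∈ extCands (M, U), okB p P freq t.1 = true := by
  obtain ⟨x, y, hx, hy⟩ := head_getLast hM0
  rw [okB_iff hx hy] at hok
  obtain ⟨hlin, hok⟩ := hok
  by_cases hc : lf p x = bar (rt p y)
  · -- closed
    have hyx : P (y, x) = true := by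
      rcases hok with h | h
      · refine hPf _ hc ?_
        have := hfb _ h
        rw [hc, hbar] at this
        exact this
      · exact h
    have hM : ∀ d ∈ bds M, P d = true := by
      intro d hd
      rw [bds_eq, lk_mk hy hx, List.mem_append, List.mem_singleton] at hd
      rcases hd with hd | rfl
      · exact hlin d hd
      · exact hyx
    obtain ⟨w, hw⟩ := List.exists_mem_of_ne_nil U hU
    have hfw := (hfU w hw).1
    have hpos := hfM _ hfw
    have hMc : ∀ d ∈ bds M, lf p d.2 = bar (rt p d.1) := fun d hd => hPc d (hM d hd)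
    rw [← count_class hbar hne hMc, List.countP_pos_iff] at hpos
    obtain ⟨d, hd, h⟩ := hpos
    simp only [Bool.or_eq_true, decide_eq_true_eq] at h
    have hex : ∃ R, (R ∈ rots M ∨ R ∈ rots (rev M)) ∧ okB p P freq (R ++ [(w, false)]) = true := by
      rcases h with h | h
      · have hMr : ∀ d ∈ bds (rev M), P d = true := by
          intro d hd
          have := (bds_rev M).mem_iff.1 hd
          rw [List.mem_map] at this
          obtain ⟨d', hd', rfl⟩ := this
          exact hPsw _ (hM _ hd')
        have hd' : sw d ∈ bds (rev M) :=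
          (bds_rev M).mem_iff.2 (List.mem_map_of_mem hd)
        obtain ⟨R, hR, hR'⟩ := ext_at hbar hPc hPf hfb hMr hfw hd' (by
          simp only [sw, rt_flip]
          rw [hMc d hd, h])
        exact ⟨R, Or.inr hR, hR'⟩
      · obtain ⟨R, hR, hR'⟩ := ext_at hbar hPc hPf hfb hM hfw hd h
        exact ⟨R, Or.inl hR, hR'⟩
    obtain ⟨R, hR, hR'⟩ := hex
    exact ⟨_, mem_extCands.2 ⟨R, hR, w, hw, false, rfl⟩, hR'⟩
  · -- open
    have hlt := path_closed hbar hne (fun d hd => hPc d (hlin d hd)) hx hy hc
    have hb := hbal (rt p y)
    rw [cnt_append, cnt_append] at hb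
    have hpos : 0 < cnt p (bar (rt p y)) U := by omega
    obtain ⟨w, hw, b, hwb⟩ := exists_port hpos
    refine ⟨_, mem_extCands.2 ⟨M, Or.inl (self_mem_rots M), w, hw, b, rfl⟩, ?_⟩
    have hx' : (M ++ [(w, b)]).head? = some x := by
      rw [List.head?_append, hx]
      rfl
    have hy' : (M ++ [(w, b)]).getLast? = some (w, b) := by simp
    rw [okB_iff hx' hy', lin_append, lk_mk (x := (w, b)) hy rfl]
    have hfr : freq (bar (rt p y)) = true := by
      rw [← hwb]
      unfold lf
      split_ifs
      · exact (hfU w hw).2
      · exact (hfU w hw).1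
    constructor
    · intro e he
      have h2 : lin [(w, b)] = [] := rfl
      rw [h2, List.append_nil, List.mem_append, List.mem_singleton] at he
      rcases he with he | rfl
      · exact hlin e he
      · refine hPf _ hwb ?_
        have := hfb _ hfr
        rwa [hbar] at this
    · left
      rcases hok with h | h
      · exact h
      · exact absurd (hPc _ h) hc

/-- **Specification of the extension.** -/
theorem extTour_spec [DecidableEq V] (hbar : ∀ a, bar (bar a) = a) (hne : ∀ a, bar a ≠ a)
    {P : (V × Bool) × (V × Bool) → Bool} {freq : L → Bool}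
    (hPsw : ∀ d, P d = true → P (sw d) = true)
    (hPc : ∀ d, P d = true → lf p d.2 = bar (rt p d.1))
    (hPf : ∀ d, lf p d.2 = bar (rt p d.1) → freq (rt p d.1) = true → P d = true)
    (hfb : ∀ a, freq a = true → freq (bar a) = true)
    {O : List (V × Bool)} {U : List V} (hO : ∀ d ∈ bds O, P d = true)
    (hbal : ∀ a, cnt p a (O.map Prod.fst ++ U) = cnt p (bar a) (O.map Prod.fst ++ U))
    (hfU : ∀ w ∈ U, freq (p w).1 = true ∧ freq (p w).2 = true)
    (hfO : ∀ a, freq a = true → 0 < cnt p a (O.map Prod.fst)) :
    ((extTour p P freq O U).map Prod.fst).Perm (O.map Prod.fst ++ U) ∧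
    (∀ d ∈ bds (extTour p P freq O U), P d = true) := by
  rcases eq_or_ne U [] with rfl | hU
  · refine ⟨?_, ?_⟩
    · change (O.map Prod.fst).Perm _
      rw [List.append_nil]
    · exact hO
  have hO0 : O ≠ [] := by
    rintro rfl
    obtain ⟨w, hw⟩ := List.exists_mem_of_ne_nil U hU
    have := hfO _ (hfU w hw).1
    simp [cnt] at this
  -- invariant
  have inv : ∀ k ≤ U.length, ((extStep p P freq)^[k] (O, U)).1 ≠ [] ∧
      okB p P freq ((extStep p P freq)^[k] (O, U)).1 = true ∧
      ((extStep p P freq)^[k] (O, U)).2.length + k = U.length ∧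
      (∀ w ∈ ((extStep p P freq)^[k] (O, U)).2, w ∈ U) ∧
      (∀ a, cnt p a (O.map Prod.fst) ≤
        cnt p a (((extStep p P freq)^[k] (O, U)).1.map Prod.fst)) := by
    intro k
    induction k with
    | zero =>
        intro _
        refine ⟨hO0, ?_, rfl, fun w hw => hw, fun a => le_rfl⟩
        obtain ⟨x, y, hx, hy⟩ := head_getLast hO0
        change okB p P freq O = true
        rw [okB_iff hx hy]
        have hb : bds O = lin O ++ [(y, x)] := by
          rw [bds_eq, lk_mk hy hx]
        exact ⟨fun d hd => hO d (by rw [hb]; simp [hd]), Or.inr (hO _ (by rw [hb]; simp))⟩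
    | succ k ih =>
        intro hk
        obtain ⟨i1, i2, i3, i4, i5⟩ := ih (by omega)
        have hperm := extIter_perm p P freq (O, U) k
        rw [Function.iterate_succ_apply']
        set s := (extStep p P freq)^[k] (O, U) with hs
        have hs2 : s.2 ≠ [] := by
          intro h
          rw [h] at i3
          simp at i3
          omega
        obtain ⟨t, ht, htok⟩ := ext_exists hbar hne hPsw hPc hPf hfb i1 hs2 i2
          (fun a => by rw [cnt_perm _ hperm, cnt_perm _ hperm]; exact hbal a)
          (fun w hw => hfU w (i4 w hw))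
          (fun a ha => lt_of_lt_of_le (hfO a ha) (i5 a))
        have hne' : ((extCands s).filter fun t => okB p P freq t.1) ≠ [] :=
          List.ne_nil_of_mem (List.mem_filter.2 ⟨ht, htok⟩)
        have hstep : ∃ t, extStep p P freq s = t ∧ t ∈ extCands s ∧
            okB p P freq t.1 = true := by
          unfold extStep
          cases h : ((extCands s).filter fun t => okB p P freq t.1).head? with
          | none => exact absurd (List.head?_eq_none_iff.1 h) hne'
          | some t =>
              have := List.mem_of_head? h
              rw [List.mem_filter] at this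
              exact ⟨t, rfl, this.1, this.2⟩
        obtain ⟨t, e, htm, htok⟩ := hstep
        rw [e]
        obtain ⟨R, hR, w, hw, b, rfl⟩ := mem_extCands.1 htm
        have hRp : (R.map Prod.fst).Perm (s.1.map Prod.fst) := by
          rcases hR with hR | hR
          · exact (rots_perm hR).map _
          · exact ((rots_perm hR).map _).trans (rev_map_fst _)
        refine ⟨by simp, htok, ?_, ?_, ?_⟩
        · simp only
          rw [List.length_erase_of_mem hw]
          have : 0 < s.2.length := List.length_pos_of_mem hw
          omega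
        · intro v hv
          exact i4 v (List.mem_of_mem_erase hv)
        · intro a
          simp only [List.map_append]
          rw [cnt_append, cnt_perm a hRp]
          exact (i5 a).trans (Nat.le_add_right _ _)
  obtain ⟨i1, i2, i3, i4, i5⟩ := inv U.length le_rfl
  have hperm := extIter_perm p P freq (O, U) U.length
  set s := (extStep p P freq)^[U.length] (O, U) with hs
  have hs2 : s.2 = [] := by
    rw [← List.length_eq_zero_iff]
    omega
  rw [hs2, List.append_nil] at hperm
  refine ⟨hperm, ?_⟩
  change ∀ d ∈ bds s.1, P d = true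
  obtain ⟨x, y, hx, hy⟩ := head_getLast i1
  rw [okB_iff hx hy] at i2
  obtain ⟨hlin, hok⟩ := i2
  have hc : lf p x = bar (rt p y) := by
    by_contra hc
    have hlt := path_closed hbar hne (fun d hd => hPc d (hlin d hd)) hx hy hc
    rw [cnt_perm _ hperm, cnt_perm _ hperm] at hlt
    have := hbal (rt p y)
    simp only at hlt
    omega
  have hyx : P (y, x) = true := by
    rcases hok with h | h
    · refine hPf _ hc ?_
      have := hfb _ h
      rw [hc, hbar] at this
      exact this
    · exact h
  intro d hd
  rw [bds_eq, lk_mk hy hx, List.mem_append, List.mem_singleton] at hd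
  rcases hd with hd | rfl
  · exact hlin d hd
  · exact hyx

end

end Pool.Agent.H670R2.PSP
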