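import Pool.Agent.H670R2.PspTour

/-!
# Exchanging edges of a frequent class
-/

namespace Pool.Agent.H670R2.PSP

variable {E V L : Type}

theorem lk_eq_iff {A B : List E} {d : E × E} :
    lk A B = [d] ↔ A.getLast? = some d.1 ∧ B.head? = some d.2 := by
  unfold lk
  cases A.getLast? with
  | none => simp
  | some a =>
      cases B.head? with
      | none => simp
      | some b =>
          simp only [Option.toList_some, List.zip_cons_cons, List.zip_nil_right,
            List.cons.injEq, and_true, Option.some.injEq]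
          constructor
          · rintro rfl
            exact ⟨rfl, rfl⟩
          · rintro ⟨rfl, rfl⟩
            rfl

/-- left port -/
def lf (p : V → L × L) (e : V × Bool) : L := if e.2 then (p e.1).2 else (p e.1).1

/-- right port -/
def rt (p : V → L × L) (e : V × Bool) : L := if e.2 then (p e.1).1 else (p e.1).2

@[simp] theorem lf_flip (p : V → L × L) (e : V × Bool) : lf p (flip e) = rt p e := by
  rcases e with ⟨v, _ | _⟩ <;> rfl

@[simp] theorem rt_flip (p : V → L × L) (e : V × Bool) : rt p (flip e) = lf p e := by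
  rcases e with ⟨v, _ | _⟩ <;> rfl

theorem exists_of_countP {α : Type} {l : List α} {q b₁ b₂ : α → Bool}
    (h : l.countP b₁ + l.countP b₂ < l.countP q) :
    ∃ d ∈ l, q d = true ∧ b₁ d = false ∧ b₂ d = false := by
  by_contra hc
  push Not at hc
  have : l.countP q ≤ l.countP b₁ + l.countP b₂ := by
    clear h
    induction l with
    | nil => simp
    | cons x l ih =>
        have ih' := ih fun d hd => hc d (List.mem_cons_of_mem _ hd)
        have hx := hc x List.mem_cons_self
        simp only [List.countP_cons]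
        cases h1 : q x <;> cases h2 : b₁ x <;> cases h3 : b₂ x <;> simp_all <;> omega
  omega

theorem exists_of_countP₁ {α : Type} {l : List α} {q b₁ : α → Bool}
    (h : l.countP b₁ < l.countP q) : ∃ d ∈ l, q d = true ∧ b₁ d = false := by
  obtain ⟨d, h1, h2, h3, -⟩ := exists_of_countP (l := l) (q := q) (b₁ := b₁)
    (b₂ := fun _ => false) (by simpa using h)
  exact ⟨d, h1, h2, h3⟩

theorem countP_or_le {α : Type} (q r : α → Bool) (l : List α) :
    l.countP (fun d => q d || r d) ≤ l.countP q + l.countP r := by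
  induction l with
  | nil => simp
  | cons z l ih =>
      simp only [List.countP_cons]
      cases q z <;> cases r z <;> simp <;> omega

/-- number of conflicts -/
def conf (G : V → V → Bool) (M : List ((V × Bool) × (V × Bool))) : ℕ :=
  M.countP fun d => G d.1.1 d.2.1

theorem conf_append (G : V → V → Bool) (M N : List ((V × Bool) × (V × Bool))) :
    conf G (M ++ N) = conf G M + conf G N := List.countP_append

theorem conf_sw {G : V → V → Bool} (hG : ∀ u v, G u v = G v u)
    (M : List ((V × Bool) × (V × Bool))) : conf G (M.map sw) = conf G M := by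
  unfold conf
  rw [List.countP_map]
  congr 1
  funext d
  simp only [Function.comp, sw, flip_fst]
  exact hG _ _

/-- A good replacement of `M`. -/
def Good (P : (V × Bool) × (V × Bool) → Prop) (G : V → V → Bool) (M M' : List (V × Bool)) :
    Prop :=
  (∀ d ∈ bds M', P d) ∧ conf G (bds M') < conf G (bds M) ∧
    ∀ d ∈ bds M', G d.1.1 d.2.1 = true → ∃ d₀ ∈ bds M, d = d₀ ∨ d = sw d₀

section

variable [DecidableEq L] {p : V → L × L} {bar : L → L}

theorem countP_snd_le {M : List (V × Bool)} {f : V → Bool} {k : ℕ}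
    (h : M.countP (fun e => f e.1) ≤ k) : (lin M).countP (fun d => f d.2.1) ≤ k := by
  refine le_trans ?_ h
  have := (lin_map_snd_sublist M).countP_le (p := fun e => f e.1)
  rw [List.countP_map] at this
  exact this

theorem countP_fst_le {M : List (V × Bool)} {f : V → Bool} {k : ℕ}
    (h : M.countP (fun e => f e.1) ≤ k) : (lin M).countP (fun d => f d.1.1) ≤ k := by
  refine le_trans ?_ h
  have := (lin_map_fst_sublist M).countP_le (p := fun e => f e.1)
  rw [List.countP_map] at this
  exact this

theorem exchange_two {P : (V × Bool) × (V × Bool) → Prop}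
    (hPsw : ∀ d, P d → P (sw d)) (hPc : ∀ d, P d → lf p d.2 = bar (rt p d.1))
    {G : V → V → Bool} (hG : ∀ u v, G u v = G v u) {a : L}
    (hPa : ∀ d, lf p d.2 = bar (rt p d.1) → (rt p d.1 = a ∨ rt p d.1 = bar a) → P d)
    {M : List (V × Bool)} (hM : ∀ d ∈ bds M, P d) {x y : V × Bool} (hxy : lk M M = [(y, x)])
    (ha : rt p y = a) (hconf : G y.1 x.1 = true)
    (hdeg : ∀ u, M.countP (fun e => G u e.1) ≤ 2)
    (hcount : 5 ≤ (lin M).countP (fun d => decide (rt p d.1 = bar a))) :
    ∃ A B, M = A ++ B ∧ Good P G M (rev A ++ B) := by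
  obtain ⟨d, hd, h1, h2, h3⟩ := exists_of_countP (l := lin M)
    (q := fun d => decide (rt p d.1 = bar a)) (b₁ := fun d => G x.1 d.2.1)
    (b₂ := fun d => G y.1 d.1.1) (by
      have e1 := countP_snd_le (f := fun v => G x.1 v) (hdeg x.1)
      have e2 := countP_fst_le (f := fun v => G y.1 v) (hdeg y.1)
      omega)
  rw [decide_eq_true_iff] at h1
  obtain ⟨A, B, rfl, hA, hB, hAB⟩ := exists_split hd
  have hBA : lk B A = [(y, x)] := by rw [← hxy, lk_append_left hB, lk_append_right hA]
  have b1 := bds_append hA hB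
  have b2 := bds_append (rev_ne_nil hA) hB
  have hdc : lf p d.2 = bar (rt p d.1) := hPc d (hM d (by rw [b1, hAB]; simp))
  have hyx : lf p x = bar (rt p y) := hPc (y, x) (hM (y, x) (by rw [b1, hBA]; simp))
  obtain ⟨q1, q2⟩ := lk_eq_iff.1 hAB
  obtain ⟨q3, q4⟩ := lk_eq_iff.1 hBA
  have l1 : lk (rev A) B = [(flip x, d.2)] := by
    rw [lk_eq_iff]
    refine ⟨?_, q2⟩
    unfold rev
    rw [List.getLast?_reverse, List.head?_map, q4]
    rfl
  have l2 : lk B (rev A) = [(y, flip d.1)] := by
    rw [lk_eq_iff]
    refine ⟨q3, ?_⟩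
    unfold rev
    rw [List.head?_reverse, List.getLast?_map, q1]
    rfl
  rw [l1, l2, lin_rev] at b2
  have n1 : G (flip x, d.2).1.1 (flip x, d.2).2.1 = false := h2
  have n2 : G (y, flip d.1).1.1 (y, flip d.1).2.1 = false := h3
  refine ⟨A, B, rfl, ?_, ?_, ?_⟩
  · intro e he
    rw [b2] at he
    simp only [List.mem_append, List.mem_reverse, List.mem_map, List.mem_singleton] at he
    rcases he with ((⟨e', he', rfl⟩ | rfl) | he) | rfl
    · exact hPsw _ (hM _ (by rw [b1]; simp [he']))
    · refine hPa _ ?_ (Or.inr ?_)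
      · simp only [rt_flip]
        rw [hdc, h1, hyx, ha]
      · simp only [rt_flip]
        rw [hyx, ha]
    · exact hM _ (by rw [b1]; simp [he])
    · refine hPa _ ?_ (Or.inl ha)
      simp only [lf_flip]
      rw [h1, ha]
  · rw [b1, b2, hAB, hBA]
    simp only [conf_append]
    have e1 : conf G ((lin A).map sw).reverse = conf G (lin A) := by
      rw [← conf_sw hG (lin A)]
      exact (List.reverse_perm _).countP_eq _
    have e2 : conf G [(flip x, d.2)] = 0 := by
      unfold conf
      rw [List.countP_singleton, n1]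
      rfl
    have e3 : conf G [(y, flip d.1)] = 0 := by
      unfold conf
      rw [List.countP_singleton, n2]
      rfl
    have e4 : conf G [(y, x)] = 1 := by
      unfold conf
      rw [List.countP_singleton]
      simp [hconf]
    omega
  · intro e he hGe
    rw [b2] at he
    simp only [List.mem_append, List.mem_reverse, List.mem_map, List.mem_singleton] at he
    rcases he with ((⟨e', he', rfl⟩ | rfl) | he) | rfl
    · exact ⟨e', by rw [b1]; simp [he'], Or.inr rfl⟩
    · rw [n1] at hGe
      exact absurd hGe (by simp)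
    · exact ⟨e, by rw [b1]; simp [he], Or.inl rfl⟩
    · rw [n2] at hGe
      exact absurd hGe (by simp)

theorem exchange_three {P : (V × Bool) × (V × Bool) → Prop}
    (hPc : ∀ d, P d → lf p d.2 = bar (rt p d.1))
    {G : V → V → Bool} (hG : ∀ u v, G u v = G v u) {a : L}
    (hPa : ∀ d, lf p d.2 = bar (rt p d.1) → (rt p d.1 = a ∨ rt p d.1 = bar a) → P d)
    {M : List (V × Bool)} (hM : ∀ d ∈ bds M, P d) {x y : V × Bool} (hxy : lk M M = [(y, x)])
    (ha : rt p y = a) (hconf : G y.1 x.1 = true)
    (hdeg : ∀ u, M.countP (fun e => G u e.1) ≤ 2)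
    (hcount : 8 ≤ (lin M).countP (fun d => decide (rt p d.1 = a))) :
    ∃ A B C, M = A ++ (B ++ C) ∧ Good P G M (A ++ (C ++ B)) := by
  obtain ⟨A, R, d, rfl, hA, hR, hAR, hd, hfirst⟩ := exists_first_split (M := M)
    (fun d => decide (rt p d.1 = a) && !(G y.1 d.2.1)) (by
      obtain ⟨d, h1, h2, h3⟩ := exists_of_countP₁ (l := lin M)
        (q := fun d => decide (rt p d.1 = a)) (b₁ := fun d => G y.1 d.2.1) (by
          have e1 := countP_snd_le (f := fun v => G y.1 v) (hdeg y.1)
          omega)
      exact ⟨d, h1, by rw [h2, h3]; rfl⟩)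
  simp only [Bool.and_eq_true, decide_eq_true_eq, Bool.not_eq_true'] at hd
  have hdegA : ∀ u, A.countP (fun e => G u e.1) ≤ 2 := fun u =>
    le_trans (by rw [List.countP_append]; omega) (hdeg u)
  have hdegR : ∀ u, R.countP (fun e => G u e.1) ≤ 2 := fun u =>
    le_trans (by rw [List.countP_append]; omega) (hdeg u)
  have c1 : (lin A).countP (fun d => decide (rt p d.1 = a)) ≤ 2 := by
    refine le_trans (List.countP_mono_left ?_)
      (countP_snd_le (f := fun v => G y.1 v) (hdegA y.1))
    intro d' hd' h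
    have := hfirst d' hd'
    simp only [Bool.and_eq_false_iff, decide_eq_false_iff_not, Bool.not_eq_false'] at this
    rcases this with h' | h'
    · rw [decide_eq_true_iff] at h
      exact absurd h h'
    · exact h'
  have c2 : 5 ≤ (lin R).countP (fun d => decide (rt p d.1 = a)) := by
    rw [lin_append, hAR, List.countP_append, List.countP_append] at hcount
    have : [d].countP (fun d => decide (rt p d.1 = a)) ≤ 1 := List.countP_le_length
    omega
  obtain ⟨d', hd'm, h1, h2, h3⟩ := exists_of_countP (l := lin R)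
    (q := fun d => decide (rt p d.1 = a)) (b₁ := fun d' => G x.1 d'.1.1)
    (b₂ := fun d' => G d.1.1 d'.2.1) (by
      have e1 := countP_fst_le (f := fun v => G x.1 v) (hdegR x.1)
      have e2 := countP_snd_le (f := fun v => G d.1.1 v) (hdegR d.1.1)
      omega)
  rw [decide_eq_true_iff] at h1
  obtain ⟨B, C, rfl, hB, hC, hBC⟩ := exists_split hd'm
  have hCA : lk C A = [(y, x)] := by
    rw [← hxy, lk_append_left (by simp [hC]), lk_append_left hC, lk_append_right hA]
  have b1 : bds (A ++ (B ++ C)) = lin A ++ [d] ++ (lin B ++ [d'] ++ lin C) ++ [(y, x)] := by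
    rw [bds_append hA (by simp [hB]), lin_append B C, hBC, lk_append_left hC, hCA, hAR]
  rw [lk_append_right hB] at hAR
  obtain ⟨q1, q2⟩ := lk_eq_iff.1 hAR
  obtain ⟨q3, q4⟩ := lk_eq_iff.1 hBC
  obtain ⟨q5, q6⟩ := lk_eq_iff.1 hCA
  have l1 : lk A C = [(d.1, d'.2)] := lk_eq_iff.2 ⟨q1, q4⟩
  have l2 : lk C B = [(y, d.2)] := lk_eq_iff.2 ⟨q5, q2⟩
  have l3 : lk B A = [(d'.1, x)] := lk_eq_iff.2 ⟨q3, q6⟩
  have b2 : bds (A ++ (C ++ B)) = lin A ++ [(d.1, d'.2)] ++ (lin C ++ [(y, d.2)] ++ lin B) ++
      [(d'.1, x)] := by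
    rw [bds_append hA (by simp [hB]), lin_append C B, lk_append_left hB, lk_append_right hC,
      l1, l2, l3]
  have hdc : lf p d.2 = bar (rt p d.1) := hPc d (hM d (by rw [b1]; simp))
  have hdc' : lf p d'.2 = bar (rt p d'.1) := hPc d' (hM d' (by rw [b1]; simp))
  have hyx : lf p x = bar (rt p y) := hPc (y, x) (hM (y, x) (by rw [b1]; simp))
  have n1 : G (d.1, d'.2).1.1 (d.1, d'.2).2.1 = false := h3
  have n2 : G (y, d.2).1.1 (y, d.2).2.1 = false := hd.2
  have n3 : G (d'.1, x).1.1 (d'.1, x).2.1 = false := by rw [hG]; exact h2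
  refine ⟨A, B, C, rfl, ?_, ?_, ?_⟩
  · intro e he
    rw [b2] at he
    simp only [List.mem_append, List.mem_singleton] at he
    rcases he with ((he | rfl) | ((he | rfl) | he)) | rfl
    · exact hM _ (by rw [b1]; simp [he])
    · refine hPa _ ?_ (Or.inl hd.1)
      rw [hdc', h1, hd.1]
    · exact hM _ (by rw [b1]; simp [he])
    · refine hPa _ ?_ (Or.inl ha)
      rw [hdc, ha, hd.1]
    · exact hM _ (by rw [b1]; simp [he])
    · refine hPa _ ?_ (Or.inl h1)
      rw [hyx, h1, ha]
  · rw [b1, b2]
    simp only [conf_append]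
    have e1 : conf G [(d.1, d'.2)] = 0 := by
      unfold conf
      rw [List.countP_singleton, n1]
      rfl
    have e2 : conf G [(y, d.2)] = 0 := by
      unfold conf
      rw [List.countP_singleton, n2]
      rfl
    have e3 : conf G [(d'.1, x)] = 0 := by
      unfold conf
      rw [List.countP_singleton, n3]
      rfl
    have e4 : conf G [(y, x)] = 1 := by
      unfold conf
      rw [List.countP_singleton]
      simp [hconf]
    omega
  · intro e he hGe
    rw [b2] at he
    simp only [List.mem_append, List.mem_singleton] at he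
    rcases he with ((he | rfl) | ((he | rfl) | he)) | rfl
    · exact ⟨e, by rw [b1]; simp [he], Or.inl rfl⟩
    · rw [n1] at hGe
      exact absurd hGe (by simp)
    · exact ⟨e, by rw [b1]; simp [he], Or.inl rfl⟩
    · rw [n2] at hGe
      exact absurd hGe (by simp)
    · exact ⟨e, by rw [b1]; simp [he], Or.inl rfl⟩
    · rw [n3] at hGe
      exact absurd hGe (by simp)

/-- **Exchange lemma.** -/
theorem exchange {P : (V × Bool) × (V × Bool) → Prop}
    (hPsw : ∀ d, P d → P (sw d)) (hPc : ∀ d, P d → lf p d.2 = bar (rt p d.1))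
    {G : V → V → Bool} (hG : ∀ u v, G u v = G v u) {a : L}
    (hPa : ∀ d, lf p d.2 = bar (rt p d.1) → (rt p d.1 = a ∨ rt p d.1 = bar a) → P d)
    {M : List (V × Bool)} (hM : ∀ d ∈ bds M, P d) {x y : V × Bool} (hxy : lk M M = [(y, x)])
    (ha : rt p y = a) (hconf : G y.1 x.1 = true)
    (hdeg : ∀ u, M.countP (fun e => G u e.1) ≤ 2)
    (hcount : 13 ≤ (bds M).countP
      (fun d => decide (rt p d.1 = a) || decide (rt p d.1 = bar a))) :
    (∃ A B, M = A ++ B ∧ Good P G M (rev A ++ B)) ∨
      ∃ A B C, M = A ++ (B ++ C) ∧ Good P G M (A ++ (C ++ B)) := by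
  have h1 : (bds M).countP (fun d => decide (rt p d.1 = a) || decide (rt p d.1 = bar a)) ≤
      (lin M).countP (fun d => decide (rt p d.1 = a)) +
      (lin M).countP (fun d => decide (rt p d.1 = bar a)) + 1 := by
    rw [bds_eq, hxy, List.countP_append]
    have e1 : [(y, x)].countP
      (fun d => decide (rt p d.1 = a) || decide (rt p d.1 = bar a)) ≤ 1 :=
      List.countP_le_length
    have e3 := countP_or_le (fun d : (V × Bool) × (V × Bool) => decide (rt p d.1 = a))
      (fun d => decide (rt p d.1 = bar a)) (lin M)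
    omega
  by_cases h5 : 5 ≤ (lin M).countP (fun d => decide (rt p d.1 = bar a))
  · exact Or.inl (exchange_two hPsw hPc hG hPa hM hxy ha hconf hdeg h5)
  · exact Or.inr (exchange_three hPc hG hPa hM hxy ha hconf hdeg (by omega))

end

end Pool.Agent.H670R2.PSP
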