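import Pool.Agent.H670R2.PspFix

/-!
# The local search removing the conflicts of frequent classes
-/

namespace Pool.Agent.H670R2.PSP

variable {E V L : Type}

theorem bds_map_fst (M : List E) : (bds M).map Prod.fst = M := by
  cases M with
  | nil => rfl
  | cons x l =>
      unfold bds
      rw [List.map_fst_zip]
      simp

theorem bds_map_snd (M : List E) : (bds M).map Prod.snd = M.tail ++ M.take 1 := by
  cases M with
  | nil => rfl
  | cons x l =>
      unfold bds
      rw [List.map_snd_zip]
      simp

theorem bds_map_snd_perm (M : List E) : ((bds M).map Prod.snd).Perm M := by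
  rw [bds_map_snd]
  cases M with
  | nil => exact List.Perm.refl _
  | cons x l =>
      simp only [List.tail_cons, List.take_succ_cons, List.take_zero]
      exact List.perm_append_comm

theorem bds_length (M : List E) : (bds M).length = M.length := by
  conv_rhs => rw [← bds_map_fst M, List.length_map]

theorem mem_of_mem_bds {M : List E} {d : E × E} (h : d ∈ bds M) : d.1 ∈ M ∧ d.2 ∈ M := by
  constructor
  · rw [← bds_map_fst M]
    exact List.mem_map_of_mem h
  · exact (bds_map_snd_perm M).mem_iff.1 (List.mem_map_of_mem h)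

/-- number of ports `a` -/
def cnt [DecidableEq L] (p : V → L × L) (a : L) (vs : List V) : ℕ :=
  vs.countP (fun v => decide ((p v).1 = a)) + vs.countP (fun v => decide ((p v).2 = a))

section

variable [DecidableEq L] {p : V → L × L} {bar : L → L}

theorem cnt_append (a : L) (vs ws : List V) : cnt p a (vs ++ ws) = cnt p a vs + cnt p a ws := by
  unfold cnt
  rw [List.countP_append, List.countP_append]
  omega

theorem cnt_perm (a : L) {vs ws : List V} (h : vs.Perm ws) : cnt p a vs = cnt p a ws := by
  unfold cnt
  rw [h.countP_eq, h.countP_eq]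

theorem cnt_cons (a : L) (v : V) (vs : List V) : cnt p a (v :: vs) =
    cnt p a [v] + cnt p a vs := cnt_append a [v] vs

theorem cnt_lf_rt (a : L) (M : List (V × Bool)) :
    M.countP (fun e => decide (rt p e = a)) + M.countP (fun e => decide (lf p e = a)) =
      cnt p a (M.map Prod.fst) := by
  induction M with
  | nil => rfl
  | cons e M ih =>
      rw [List.map_cons, cnt_cons, ← ih]
      simp only [List.countP_cons, cnt, List.countP_nil]
      rcases e with ⟨v, _ | _⟩
      · simp only [rt, lf, Bool.false_eq_true, if_false]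
        omega
      · simp only [rt, lf, if_true]
        omega

/-- boundary labels of a closed tour -/
theorem count_rt_bar (hbar : ∀ a, bar (bar a) = a) {M : List (V × Bool)}
    (hM : ∀ d ∈ bds M, lf p d.2 = bar (rt p d.1)) (a : L) :
    M.countP (fun e => decide (rt p e = bar a)) = M.countP (fun e => decide (lf p e = a)) := by
  have e1 : (bds M).countP (fun d => decide (rt p d.1 = bar a)) =
      M.countP (fun e => decide (rt p e = bar a)) := by
    conv_rhs => rw [← bds_map_fst M, List.countP_map]
    rfl
  have e2 : (bds M).countP (fun d => decide (lf p d.2 = a)) =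
      M.countP (fun e => decide (lf p e = a)) := by
    rw [← (bds_map_snd_perm M).countP_eq, List.countP_map]
    rfl
  rw [← e1, ← e2]
  refine List.countP_congr fun d hd => ?_
  rw [decide_eq_true_iff, decide_eq_true_iff, hM d hd]
  constructor
  · intro h
    rw [h, hbar]
  · intro h
    rw [← h, hbar]

theorem count_lf_bar (hbar : ∀ a, bar (bar a) = a) {M : List (V × Bool)}
    (hM : ∀ d ∈ bds M, lf p d.2 = bar (rt p d.1)) (a : L) :
    M.countP (fun e => decide (lf p e = bar a)) = M.countP (fun e => decide (rt p e = a)) := by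
  rw [← count_rt_bar hbar hM (bar a), hbar]

theorem cnt_bar (hbar : ∀ a, bar (bar a) = a) {M : List (V × Bool)}
    (hM : ∀ d ∈ bds M, lf p d.2 = bar (rt p d.1)) (a : L) :
    cnt p (bar a) (M.map Prod.fst) = cnt p a (M.map Prod.fst) := by
  rw [← cnt_lf_rt, ← cnt_lf_rt, count_rt_bar hbar hM, count_lf_bar hbar hM]
  omega

theorem countP_or_eq {α : Type} {q r : α → Bool} (h : ∀ x, q x = true → r x = false)
    (l : List α) : l.countP (fun d => q d || r d) = l.countP q + l.countP r := by
  induction l with
  | nil => simp
  | cons z l ih =>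
      simp only [List.countP_cons, ih]
      have := h z
      cases h1 : q z <;> cases h2 : r z <;> simp_all <;> omega

theorem count_class (hbar : ∀ a, bar (bar a) = a) (hne : ∀ a, bar a ≠ a) {M : List (V × Bool)}
    (hM : ∀ d ∈ bds M, lf p d.2 = bar (rt p d.1)) (a : L) :
    (bds M).countP (fun d => decide (rt p d.1 = a) || decide (rt p d.1 = bar a)) =
      cnt p a (M.map Prod.fst) := by
  rw [countP_or_eq (q := fun d : (V × Bool) × (V × Bool) => decide (rt p d.1 = a))
    (r := fun d => decide (rt p d.1 = bar a))]
  · rw [← cnt_lf_rt, ← count_rt_bar hbar hM]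
    congr 1
    · conv_rhs => rw [← bds_map_fst M, List.countP_map]
      rfl
    · conv_rhs => rw [← bds_map_fst M, List.countP_map]
      rfl
  · intro d h
    rw [decide_eq_true_iff] at h
    rw [decide_eq_false_iff_not, h]
    exact (hne a).symm

end

/-- all ways to cut a list in two -/
def splits (M : List E) : List (List E × List E) :=
  (List.range (M.length + 1)).map fun i => (M.take i, M.drop i)

theorem mem_splits {M : List E} {q : List E × List E} : q ∈ splits M ↔ q.1 ++ q.2 = M := by
  unfold splits
  simp only [List.mem_map, List.mem_range]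
  constructor
  · rintro ⟨i, -, rfl⟩
    exact List.take_append_drop _ _
  · intro h
    refine ⟨q.1.length, ?_, ?_⟩
    · have := congrArg List.length h
      rw [List.length_append] at this
      omega
    · rw [← h, List.take_left, List.drop_left]

/-- exchanges of a path closed up to a tour -/
def nb0 (M : List (V × Bool)) : List (List (V × Bool)) :=
  (splits M).flatMap fun q =>
    (rev q.1 ++ q.2) :: (splits q.2).map fun r => q.1 ++ (r.2 ++ r.1)

/-- exchanges of a tour -/
def nb (M : List (V × Bool)) : List (List (V × Bool)) :=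
  (splits M).flatMap fun q => nb0 (q.2 ++ q.1)

theorem mem_nb0 {M M' : List (V × Bool)} : M' ∈ nb0 M ↔
    (∃ A B, M = A ++ B ∧ M' = rev A ++ B) ∨
      ∃ A B C, M = A ++ (B ++ C) ∧ M' = A ++ (C ++ B) := by
  unfold nb0
  simp only [List.mem_flatMap, List.mem_cons, List.mem_map]
  constructor
  · rintro ⟨q, hq, h | ⟨r, hr, h⟩⟩
    · exact Or.inl ⟨q.1, q.2, (mem_splits.1 hq).symm, h⟩
    · refine Or.inr ⟨q.1, r.1, r.2, ?_, h.symm⟩
      rw [mem_splits.1 hr, mem_splits.1 hq]
  · rintro (⟨A, B, h, h'⟩ | ⟨A, B, C, h, h'⟩)
    · exact ⟨(A, B), mem_splits.2 h.symm, Or.inl h'⟩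
    · exact ⟨(A, B ++ C), mem_splits.2 h.symm, Or.inr ⟨(B, C), mem_splits.2 rfl, h'.symm⟩⟩

theorem nb0_perm {M M' : List (V × Bool)} (h : M' ∈ nb0 M) :
    (M'.map Prod.fst).Perm (M.map Prod.fst) := by
  rcases mem_nb0.1 h with ⟨A, B, rfl, rfl⟩ | ⟨A, B, C, rfl, rfl⟩
  · rw [List.map_append, List.map_append]
    exact (rev_map_fst A).append_right _
  · simp only [List.map_append]
    exact List.perm_append_comm.append_left _

theorem nb_perm {M M' : List (V × Bool)} (h : M' ∈ nb M) :
    (M'.map Prod.fst).Perm (M.map Prod.fst) := by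
  unfold nb at h
  rw [List.mem_flatMap] at h
  obtain ⟨q, hq, h⟩ := h
  refine (nb0_perm h).trans ?_
  rw [← mem_splits.1 hq, List.map_append, List.map_append]
  exact List.perm_append_comm

/-- the Boolean form of `Good` -/
def goodB [DecidableEq V] (P : (V × Bool) × (V × Bool) → Bool) (G : V → V → Bool)
    (M M' : List (V × Bool)) : Bool :=
  (bds M').all P && (decide (conf G (bds M') < conf G (bds M)) &&
    (bds M').all fun d => !(G d.1.1 d.2.1) || (bds M).any fun d₀ =>
      decide (d = d₀) || decide (d = sw d₀))

theorem goodB_iff [DecidableEq V] {P : (V × Bool) × (V × Bool) → Bool} {G : V → V → Bool}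
    {M M' : List (V × Bool)} : goodB P G M M' = true ↔ Good (fun d => P d = true) G M M' := by
  unfold goodB Good
  simp only [Bool.and_eq_true, List.all_eq_true, decide_eq_true_eq, Bool.or_eq_true,
    Bool.not_eq_true', List.any_eq_true]
  constructor
  · rintro ⟨h1, h2, h3⟩
    refine ⟨h1, h2, fun d hd hG => ?_⟩
    rcases h3 d hd with h | h
    · rw [h] at hG
      exact absurd hG (by simp)
    · exact h
  · rintro ⟨h1, h2, h3⟩
    refine ⟨h1, h2, fun d hd => ?_⟩
    cases hG : G d.1.1 d.2.1
    · exact Or.inl rfl
    · exact Or.inr (h3 d hd hG)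

/-- one step of the local search -/
def fixStep [DecidableEq V] (P : (V × Bool) × (V × Bool) → Bool) (G : V → V → Bool)
    (M : List (V × Bool)) : List (V × Bool) :=
  (((nb M).filter (goodB P G M)).head?).getD M

/-- the local search -/
def fixTour [DecidableEq V] (P : (V × Bool) × (V × Bool) → Bool) (G : V → V → Bool)
    (M : List (V × Bool)) : List (V × Bool) :=
  (fixStep P G)^[M.length] M

theorem fixStep_perm [DecidableEq V] (P : (V × Bool) × (V × Bool) → Bool) (G : V → V → Bool)
    (M : List (V × Bool)) : ((fixStep P G M).map Prod.fst).Perm (M.map Prod.fst) := by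
  unfold fixStep
  cases h : ((nb M).filter (goodB P G M)).head? with
  | none => exact List.Perm.refl _
  | some M' =>
      have := List.mem_of_head? h
      rw [List.mem_filter] at this
      exact nb_perm this.1

theorem fixIter_perm [DecidableEq V] (P : (V × Bool) × (V × Bool) → Bool) (G : V → V → Bool)
    (M : List (V × Bool)) (k : ℕ) :
    (((fixStep P G)^[k] M).map Prod.fst).Perm (M.map Prod.fst) := by
  induction k with
  | zero => exact List.Perm.refl _
  | succ k ih =>
      rw [Function.iterate_succ_apply']
      exact (fixStep_perm _ _ _).trans ih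

theorem Good.trans {P : (V × Bool) × (V × Bool) → Prop} {G : V → V → Bool}
    {M M' : List (V × Bool)} (h : Good P G M M') {d : (V × Bool) × (V × Bool)}
    (hd : d ∈ bds M') (hG : G d.1.1 d.2.1 = true) : ∃ d₀ ∈ bds M, d = d₀ ∨ d = sw d₀ :=
  h.2.2 d hd hG

theorem sw_sw (d : (V × Bool) × (V × Bool)) : sw (sw d) = d := by
  rcases d with ⟨x, y⟩
  simp [sw]

/-- **Specification of the local search.** -/
theorem fixTour_spec [DecidableEq V] [DecidableEq L] {p : V → L × L} {bar : L → L}
    (hbar : ∀ a, bar (bar a) = a) (hne : ∀ a, bar a ≠ a)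
    {P : (V × Bool) × (V × Bool) → Bool} {G : V → V → Bool} {freq : L → Bool}
    (hPsw : ∀ d, P d = true → P (sw d) = true)
    (hPc : ∀ d, P d = true → lf p d.2 = bar (rt p d.1))
    (hPf : ∀ d, lf p d.2 = bar (rt p d.1) → freq (rt p d.1) = true → P d = true)
    (hfb : ∀ a, freq a = true → freq (bar a) = true)
    (hG : ∀ u v, G u v = G v u) {M : List (V × Bool)}
    (hdeg : ∀ u, (M.map Prod.fst).countP (fun v => G u v) ≤ 2)
    (hfc : ∀ a, freq a = true → 13 ≤ cnt p a (M.map Prod.fst))
    (hM : ∀ d ∈ bds M, P d = true) :
    ((fixTour P G M).map Prod.fst).Perm (M.map Prod.fst) ∧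
    (∀ d ∈ bds (fixTour P G M), P d = true) ∧
    (∀ d ∈ bds (fixTour P G M), G d.1.1 d.2.1 = true → freq (rt p d.1) = false) ∧
    (∀ d ∈ bds (fixTour P G M), G d.1.1 d.2.1 = true → ∃ d₀ ∈ bds M, d = d₀ ∨ d = sw d₀) := by
  -- invariant
  have inv : ∀ k, (∀ d ∈ bds ((fixStep P G)^[k] M), P d = true) ∧
      (∀ d ∈ bds ((fixStep P G)^[k] M), G d.1.1 d.2.1 = true →
        ∃ d₀ ∈ bds M, d = d₀ ∨ d = sw d₀) ∧
      (conf G (bds ((fixStep P G)^[k] M)) + k ≤ conf G (bds M) ∨
        ((nb ((fixStep P G)^[k] M)).filter (goodB P G ((fixStep P G)^[k] M))).head? = none) := by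
    intro k
    induction k with
    | zero => exact ⟨hM, fun d hd _ => ⟨d, hd, Or.inl rfl⟩, Or.inl (by simp)⟩
    | succ k ih =>
        rw [Function.iterate_succ_apply']
        obtain ⟨i1, i2, i3⟩ := ih
        set N := (fixStep P G)^[k] M with hN
        cases h : ((nb N).filter (goodB P G N)).head? with
        | none =>
            have e : fixStep P G N = N := by
              unfold fixStep
              rw [h]
              rfl
            rw [e]
            exact ⟨i1, i2, Or.inr h⟩
        | some N' =>
            have e : fixStep P G N = N' := by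
              unfold fixStep
              rw [h]
              rfl
            rw [e]
            have hmem := List.mem_of_head? h
            rw [List.mem_filter, goodB_iff] at hmem
            obtain ⟨-, g1, g2, g3⟩ := hmem
            refine ⟨g1, ?_, ?_⟩
            · intro d hd hGd
              obtain ⟨d₁, hd₁, h1⟩ := g3 d hd hGd
              have hGd₁ : G d₁.1.1 d₁.2.1 = true := by
                rcases h1 with rfl | rfl
                · exact hGd
                · simp only [sw, flip_fst] at hGd
                  rw [hG]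
                  exact hGd
              obtain ⟨d₀, hd₀, h0⟩ := i2 d₁ hd₁ hGd₁
              refine ⟨d₀, hd₀, ?_⟩
              rcases h1 with rfl | rfl <;> rcases h0 with rfl | rfl
              · exact Or.inl rfl
              · exact Or.inr rfl
              · exact Or.inr rfl
              · rw [sw_sw]
                exact Or.inl rfl
            · left
              rcases i3 with i3 | i3
              · omega
              · rw [i3] at h
                exact absurd h (by simp)
  obtain ⟨i1, i2, i3⟩ := inv M.length
  have hperm := fixIter_perm P G M M.length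
  refine ⟨hperm, i1, ?_, i2⟩
  change ∀ d ∈ bds ((fixStep P G)^[M.length] M), G d.1.1 d.2.1 = true → freq (rt p d.1) = false
  set N := (fixStep P G)^[M.length] M with hN
  intro d hd hGd
  by_contra hfr
  rw [Bool.not_eq_false] at hfr
  have hpos : 0 < conf G (bds N) := by
    unfold conf
    rw [List.countP_pos_iff]
    exact ⟨d, hd, hGd⟩
  have hle : conf G (bds M) ≤ M.length := by
    unfold conf
    exact List.countP_le_length.trans (bds_length M).le
  rcases i3 with i3 | i3
  · omega
  obtain ⟨k, hk, hrot⟩ := exists_rot hd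
  set R := N.drop k ++ N.take k with hR
  have hRN : (bds R).Perm (bds N) := bds_rot N k
  have hRmap : (R.map Prod.fst).Perm (M.map Prod.fst) := by
    refine List.Perm.trans ?_ hperm
    refine List.Perm.map _ ?_
    rw [hR]
    refine List.perm_append_comm.trans ?_
    rw [List.take_append_drop]
  have hRc : ∀ d ∈ bds R, lf p d.2 = bar (rt p d.1) := fun d hd =>
    hPc d (i1 d (hRN.mem_iff.1 hd))
  have hex := exchange (P := fun d => P d = true) (a := rt p d.1) hPsw hPc hG (M := R)
    (x := d.2) (y := d.1) (by
      intro d' h1 h2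
      refine hPf d' h1 ?_
      rcases h2 with h2 | h2
      · rw [h2]; exact hfr
      · rw [h2]; exact hfb _ hfr) (fun d hd => i1 d (hRN.mem_iff.1 hd)) hrot rfl hGd (by
      intro u
      have := hdeg u
      rw [← hRmap.countP_eq, List.countP_map] at this
      exact this) (by
      rw [count_class hbar hne hRc, cnt_perm _ hRmap]
      exact hfc _ hfr)
  have hgood : ∃ M' ∈ nb0 R, Good (fun d => P d = true) G R M' := by
    rcases hex with ⟨A, B, h1, h2⟩ | ⟨A, B, C, h1, h2⟩
    · exact ⟨_, mem_nb0.2 (Or.inl ⟨A, B, h1, rfl⟩), h2⟩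
    · exact ⟨_, mem_nb0.2 (Or.inr ⟨A, B, C, h1, rfl⟩), h2⟩
  obtain ⟨M', hM', g1, g2, g3⟩ := hgood
  have hmem : M' ∈ (nb N).filter (goodB P G N) := by
    rw [List.mem_filter, goodB_iff]
    refine ⟨?_, g1, ?_, ?_⟩
    · unfold nb
      rw [List.mem_flatMap]
      exact ⟨(N.take k, N.drop k), mem_splits.2 (List.take_append_drop _ _), hM'⟩
    · refine lt_of_lt_of_eq g2 ?_
      exact hRN.countP_eq _
    · intro d hd hGd
      obtain ⟨d₀, h0, h1⟩ := g3 d hd hGd
      exact ⟨d₀, hRN.mem_iff.1 h0, h1⟩
  rw [List.head?_eq_none_iff] at i3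
  rw [i3] at hmem
  exact absurd hmem (by simp)

end Pool.Agent.H670R2.PSP
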