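import Pool.Agent.H670R2.PspAlg

/-!
# Correctness of the algorithm
-/

namespace Pool.Agent.H670R2.PSP

open Pool.Agent.NPC Pool.Agent.NPC.H670R2

section general

variable {E V L : Type}

theorem bds_map {F : Type} (g : E → F) (M : List E) :
    bds (M.map g) = (bds M).map fun d => (g d.1, g d.2) := by
  unfold bds
  rw [← List.map_tail, ← List.map_take, ← List.map_append, List.zip_map]
  rfl

theorem steps_eq (τ : List ℕ) : steps τ = bds τ := by
  unfold steps bds
  cases τ with
  | nil => rfl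
  | cons x l => simp

/-- the weight of a closed labelled tour -/
theorem sum_bds (p : V → L × L) (f : L → V → ℝ) (M : List (V × Bool)) :
    ((bds M).map fun d => f (rt p d.1) d.1.1 + f (lf p d.2) d.2.1).sum =
      ((M.map Prod.fst).map fun v => f (p v).1 v + f (p v).2 v).sum := by
  have e1 : ((bds M).map fun d => f (rt p d.1) d.1.1 + f (lf p d.2) d.2.1).sum =
      ((bds M).map fun d => f (rt p d.1) d.1.1).sum +
        ((bds M).map fun d => f (lf p d.2) d.2.1).sum := List.sum_map_add
  have e2 : ((bds M).map fun d => f (rt p d.1) d.1.1) = M.map fun e => f (rt p e) e.1 := by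
    conv_rhs => rw [← bds_map_fst M, List.map_map]
    rfl
  have e3 : ((bds M).map fun d => f (lf p d.2) d.2.1).sum =
      (M.map fun e => f (lf p e) e.1).sum := by
    have := (bds_map_snd_perm M).map fun e => f (lf p e) e.1
    rw [List.map_map] at this
    exact this.sum_eq
  have e4 : (M.map fun e => f (rt p e) e.1).sum + (M.map fun e => f (lf p e) e.1).sum =
      (M.map fun e => f (rt p e) e.1 + f (lf p e) e.1).sum := List.sum_map_add.symm
  rw [e1, e2, e3, e4, List.map_map]
  congr 1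
  refine List.map_congr_left fun e _ => ?_
  rcases e with ⟨v, _ | _⟩
  · simp only [rt, lf, Function.comp, Bool.false_eq_true, if_false]
    ring
  · simp only [rt, lf, Function.comp, if_true]

theorem exists_fun {α β γ : Type} [Inhabited γ] (D : List α) (f : α → β) (h : α → γ)
    (hnd : (D.map f).Nodup) : ∃ g : β → γ, ∀ d ∈ D, g (f d) = h d := by
  classical
  refine ⟨fun x => if hx : ∃ d ∈ D, f d = x then h (Classical.choose hx) else default, ?_⟩
  intro d hd
  have hx : ∃ d' ∈ D, f d' = f d := ⟨d, hd, rfl⟩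
  simp only
  rw [dif_pos hx]
  obtain ⟨h1, h2⟩ := Classical.choose_spec hx
  rw [List.inj_on_of_nodup_map hnd h1 hd h2]

theorem index_getElem {l : List V} (hl : l.Nodup) (i : ℕ) (hi : i < l.length) :
    index l l[i] = i := by
  have h := getElem?_index (List.getElem_mem hi)
  obtain ⟨h1, h2⟩ := List.getElem?_eq_some_iff.1 h
  exact (List.Nodup.getElem_inj_iff hl).1 h2

theorem index_lt {l : List V} {v : V} (h : v ∈ l) : index l v < l.length := by
  have := getElem?_index h
  exact (List.getElem?_eq_some_iff.1 this).1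

theorem map_index {l : List V} (hl : l.Nodup) : l.map (fun v => index l v) =
    List.range l.length := by
  refine List.ext_getElem (by simp) fun i h1 h2 => ?_
  rw [List.getElem_map, List.getElem_range]
  exact index_getElem hl i (by simpa using h1)

end general

variable {m s : ℕ}

/-- value of a label at a point -/
noncomputable def hval (A : Fin m → Fin s → ℝ) (l : Lb m) (x : Fin s → ℝ) : ℝ :=
  (if l.2 then 1 else -1) * ∑ k, A l.1 k * x k

/-- value of a type at a point -/
noncomputable def val4 (A : Fin m → Fin s → ℝ) (t : Ty (Lb m)) (x : Fin s → ℝ) : ℝ :=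
  (hval A t.1.1 x + hval A t.1.2 x) + (hval A t.2.1 x + hval A t.2.2 x)

theorem hval_bar (A : Fin m → Fin s → ℝ) (l : Lb m) (x : Fin s → ℝ) :
    hval A (bar l) x = -hval A l x := by
  rcases l with ⟨i, _ | _⟩ <;> simp [hval, bar]

theorem hval_sub (A : Fin m → Fin s → ℝ) (l : Lb m) (x y : Fin s → ℝ) :
    hval A l (x - y) = hval A l x + hval A (bar l) y := by
  rw [hval_bar]
  unfold hval
  rw [← sub_eq_add_neg, ← mul_sub, ← Finset.sum_sub_distrib]
  congr 1
  refine Finset.sum_congr rfl fun k _ => ?_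
  rw [Pi.sub_apply]
  ring

theorem sum_sg (A : Fin m → Fin s → ℝ) (l : Lb m) (x : Fin s → ℝ) :
    ∑ j, (sg j l : ℝ) * ∑ k, A j k * x k = hval A l x := by
  unfold hval sg
  rw [Finset.sum_eq_single l.1]
  · simp only [if_true]
    split_ifs <;> simp
  · intro j _ hj
    rw [if_neg (Ne.symm hj)]
    simp
  · intro h
    exact absurd (Finset.mem_univ _) h

theorem sum_cf (A : Fin m → Fin s → ℝ) (t : Ty (Lb m)) (x : Fin s → ℝ) :
    ∑ j, (cf j t : ℝ) * ∑ k, A j k * x k = val4 A t x := by
  unfold cf val4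
  rw [← sum_sg, ← sum_sg, ← sum_sg, ← sum_sg, ← Finset.sum_add_distrib,
    ← Finset.sum_add_distrib, ← Finset.sum_add_distrib]
  refine Finset.sum_congr rfl fun j _ => ?_
  push_cast
  ring

theorem rwt_eq (A : Fin m → Fin s → ℝ) (X : ℕ → Fin s → ℝ) (D : ℝ) :
    ∀ (a : List (Ty (Lb m))) (Z : List (List ℤ)) (i₀ : ℕ), a.length = Z.length →
      (∀ i < Z.length, ∀ k : Fin s, ((Z.getD i []).getD k 0 : ℝ) = D * X (i₀ + i) k) →
      rwt A a Z = D * ((a.zipIdx i₀).map fun q => val4 A q.1 (X q.2)).sum := by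
  intro a
  induction a with
  | nil =>
      intro Z i₀ h _
      have : Z = [] := List.length_eq_zero_iff.1 h.symm
      subst this
      simp [rwt, wc]
  | cons t a ih =>
      intro Z i₀ h hZ
      cases Z with
      | nil => simp at h
      | cons z Z =>
          rw [rwt_cons, ih Z (i₀ + 1) (by simpa using h) (by
            intro i hi k
            have := hZ (i + 1) (by simpa using hi) k
            rw [List.getD_cons_succ] at this
            rw [this, show i₀ + 1 + i = i₀ + (i + 1) by ring])]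
          rw [List.zipIdx_cons, List.map_cons, List.sum_cons, mul_add]
          congr 1
          simp only
          rw [← sum_cf, Finset.mul_sum]
          refine Finset.sum_congr rfl fun j _ => ?_
          rw [Finset.mul_sum, Finset.mul_sum]
          refine Finset.sum_congr rfl fun k _ => ?_
          have := hZ 0 (by simp) k
          rw [List.getD_cons_zero, Nat.add_zero] at this
          rw [this]
          ring

theorem nm_zipIdx {γ : Type} (a : List (Ty (Lb m))) (g : Ty (Lb m) → ℕ → γ) :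
    (nm a).map (fun v => g v.1 (index (nm a) v)) = a.zipIdx.map fun q => g q.1 q.2 := by
  refine List.ext_getElem (by simp [nm_length]) fun i h1 h2 => ?_
  have hi : i < (nm a).length := by simpa using h1
  have hi' : i < a.length := by rwa [nm_length] at hi
  rw [List.getElem_map, List.getElem_map, index_getElem (nodup_nm a) i hi, List.getElem_zipIdx]
  simp only [Nat.zero_add]
  congr 1
  have : (nm a)[i].1 = ((nm a).map Prod.fst)[i]'(by simpa using hi) := by
    rw [List.getElem_map]
  rw [this]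
  congr 1
  exact nm_map_fst a

section correctness

variable {A : Fin m → Fin s → ℝ} {nrm : (Fin s → ℝ) → ℝ} {X : ℕ → Fin s → ℝ}

/-- length of a round-trip -/
noncomputable def tl (nrm : (Fin s → ℝ) → ℝ) (X : ℕ → Fin s → ℝ) (τ : List ℕ) : ℝ :=
  ((steps τ).map fun d => nrm (X d.1 - X d.2)).sum

/-- the labels bound the length from below -/
theorem tl_ge (h1 : ∀ l x, hval A l x ≤ nrm x) (a : List (Ty (Lb m)))
    {p : Ty (Lb m) × ℕ → Lb m × Lb m} {M : List ((Ty (Lb m) × ℕ) × Bool)}
    (hM : Closed p bar M) (hp : (M.map Prod.fst).Perm (nm a)) :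
    ((nm a).map fun v => hval A (p v).1 (X (index (nm a) v)) +
      hval A (p v).2 (X (index (nm a) v))).sum ≤ tl nrm X (toTour a M) := by
  have e1 := sum_bds p (fun l v => hval A l (X (index (nm a) v))) M
  have e2 := (hp.map fun v => hval A (p v).1 (X (index (nm a) v)) +
      hval A (p v).2 (X (index (nm a) v))).sum_eq
  rw [← e2, ← e1]
  unfold tl toTour
  rw [steps_eq, bds_map, List.map_map]
  refine List.sum_le_sum fun d hd => ?_
  refine le_trans (le_of_eq ?_) (h1 (rt p d.1) _)
  rw [hval_sub, hM d hd]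

/-- an optimal labelling of a round-trip -/
theorem exists_labels (h2 : ∀ x, ∃ l, hval A l x = nrm x) {τ : List ℕ} (hτ : τ.Nodup) :
    ∃ q : ℕ → Lb m × Lb m, (∀ d ∈ bds τ, (q d.2).1 = bar (q d.1).2) ∧
      (τ.map fun i => hval A (q i).1 (X i) + hval A (q i).2 (X i)).sum = tl nrm X τ := by
  obtain ⟨l₀, -⟩ := h2 0
  haveI : Inhabited (Lb m) := ⟨l₀⟩
  choose lab hlab using fun d : ℕ × ℕ => h2 (X d.1 - X d.2)
  obtain ⟨r, hr⟩ := exists_fun (bds τ) Prod.fst lab (by rw [bds_map_fst]; exact hτ)
  obtain ⟨l, hl⟩ := exists_fun (bds τ) Prod.snd (fun d => bar (lab d))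
    ((bds_map_snd_perm τ).symm.nodup hτ)
  refine ⟨fun i => (l i, r i), ?_, ?_⟩
  · intro d hd
    simp only
    rw [hr d hd, hl d hd]
  · have := sum_bds (fun i => (l i, r i)) (fun l i => hval A l (X i))
      (τ.map fun i => (i, false))
    have e : ((τ.map fun i => (i, false)).map Prod.fst) = τ := by
      rw [List.map_map]
      have : (Prod.fst ∘ fun i : ℕ => (i, false)) = id := rfl
      rw [this, List.map_id]
    rw [e] at this
    simp only at this
    rw [← this, bds_map, List.map_map]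
    unfold tl
    rw [steps_eq]
    congr 1
    refine List.map_congr_left fun d hd => ?_
    simp only [Function.comp, rt, lf, Bool.false_eq_true, if_false]
    rw [← hlab d, hval_sub, hr d hd, hl d hd]

theorem feasible_of_realn {n : ℕ} {a : List (Ty (Lb m))}
    {M₁ M₂ : List ((Ty (Lb m) × ℕ) × Bool)} (hn : 3 ≤ n) (ha : a.length = n)
    (h : Realn p₁ p₂ bar (nm a) M₁ M₂) : Feasible n (toTour a M₁) (toTour a M₂) := by
  obtain ⟨h1, h2, -, -, h5⟩ := h
  have hr : (nm a).map (fun v => index (nm a) v) = List.range n := by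
    rw [map_index (nodup_nm a), nm_length, ha]
  refine ⟨hn, ?_, ?_, ?_⟩
  · rw [← hr]
    have := h1.map fun v => index (nm a) v
    rw [List.map_map] at this
    exact this
  · rw [← hr]
    have := h2.map fun v => index (nm a) v
    rw [List.map_map] at this
    exact this
  · intro e he he'
    unfold edges toTour at he he'
    rw [steps_eq, bds_map, List.map_map, List.mem_map] at he he'
    obtain ⟨d, hd, rfl⟩ := he
    obtain ⟨d', hd', he⟩ := he'
    simp only [Function.comp] at he
    have m1 : d.1.1 ∈ nm a := h1.mem_iff.1 (List.mem_map_of_mem (mem_of_mem_bds hd).1)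
    have m2 : d.2.1 ∈ nm a := h1.mem_iff.1 (List.mem_map_of_mem (mem_of_mem_bds hd).2)
    have m3 : d'.1.1 ∈ nm a := h2.mem_iff.1 (List.mem_map_of_mem (mem_of_mem_bds hd').1)
    have m4 : d'.2.1 ∈ nm a := h2.mem_iff.1 (List.mem_map_of_mem (mem_of_mem_bds hd').2)
    refine h5 d hd d' hd' ?_
    unfold edge
    rw [Sym2.eq_iff] at he ⊢
    rcases he with ⟨e1, e2⟩ | ⟨e1, e2⟩
    · exact Or.inl ⟨(index_inj m3 m1 e1).symm, (index_inj m4 m2 e2).symm⟩
    · exact Or.inr ⟨(index_inj m4 m1 e2).symm, (index_inj m3 m2 e1).symm⟩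

/-- an optimal labelling of a pair of round-trips -/
theorem exists_assignment (h2 : ∀ x, ∃ l, hval A l x = nrm x) {n : ℕ} {τ σ : List ℕ}
    (h : Feasible n τ σ) : ∃ (a : List (Ty (Lb m))) (M₁ M₂ : List ((Ty (Lb m) × ℕ) × Bool)),
      a.length = n ∧ Realn p₁ p₂ bar (nm a) M₁ M₂ ∧
      (a.zipIdx.map fun q => val4 A q.1 (X q.2)).sum = tl nrm X τ + tl nrm X σ := by
  obtain ⟨h3, hτ, hσ, hd⟩ := h
  obtain ⟨q₁, c1, w1⟩ := exists_labels (X := X) h2 (hτ.symm.nodup List.nodup_range)
  obtain ⟨q₂, c2, w2⟩ := exists_labels (X := X) h2 (hσ.symm.nodup List.nodup_range)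
  set a : List (Ty (Lb m)) := (List.range n).map fun i => (q₁ i, q₂ i) with ha
  have hal : a.length = n := by simp [ha]
  have hnl : (nm a).length = n := by rw [nm_length, hal]
  have hn0 : nm a ≠ [] := by
    intro h
    rw [h] at hnl
    simp at hnl
    omega
  obtain ⟨v₀, hv₀⟩ := List.exists_mem_of_ne_nil _ hn0
  let name : ℕ → Ty (Lb m) × ℕ := fun i => (nm a).getD i v₀
  have hname : ∀ i (hi : i < n), name i = (nm a)[i]'(by rw [hnl]; exact hi) := by
    intro i hi
    exact List.getD_eq_getElem _ _ _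
  have hname1 : ∀ i < n, (name i).1 = (q₁ i, q₂ i) := by
    intro i hi
    rw [hname i hi]
    have : (nm a)[i].1 = ((nm a).map Prod.fst)[i]'(by simp [nm_length, hal, hi]) := by
      rw [List.getElem_map]
    rw [this]
    have h' : ((nm a).map Prod.fst)[i]'(by simp [nm_length, hal, hi]) =
        a[i]'(by rw [hal]; exact hi) := by
      congr 1
      exact nm_map_fst a
    rw [h']
    simp [ha]
  have hnameinj : ∀ i < n, ∀ j < n, name i = name j → i = j := by
    intro i hi j hj hij
    rw [hname i hi, hname j hj] at hij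
    exact (List.Nodup.getElem_inj_iff (nodup_nm a)).1 hij
  have hmapname : (List.range n).map name = nm a := by
    refine List.ext_getElem (by simp [hnl]) fun i h1 h2 => ?_
    rw [List.getElem_map, List.getElem_range]
    exact hname i (by simpa using h1)
  have hlt : ∀ {ρ : List ℕ}, ρ.Perm (List.range n) → ∀ d ∈ bds ρ, d.1 < n ∧ d.2 < n := by
    intro ρ hρ d hd
    have := mem_of_mem_bds hd
    rw [hρ.mem_iff, hρ.mem_iff, List.mem_range, List.mem_range] at this
    exact this
  refine ⟨a, τ.map fun i => (name i, false), σ.map fun i => (name i, false), hal,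
    ⟨?_, ?_, ?_, ?_, ?_⟩, ?_⟩
  · rw [List.map_map, ← hmapname]
    exact hτ.map name
  · rw [List.map_map, ← hmapname]
    exact hσ.map name
  · intro d hd'
    rw [bds_map, List.mem_map] at hd'
    obtain ⟨d, hd', rfl⟩ := hd'
    obtain ⟨l1, l2⟩ := hlt hτ d hd'
    simp only [lf, rt, p₁, Bool.false_eq_true, if_false]
    rw [hname1 _ l1, hname1 _ l2]
    exact c1 d hd'
  · intro d hd'
    rw [bds_map, List.mem_map] at hd'
    obtain ⟨d, hd', rfl⟩ := hd'
    obtain ⟨l1, l2⟩ := hlt hσ d hd'
    simp only [lf, rt, p₂, Bool.false_eq_true, if_false]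
    rw [hname1 _ l1, hname1 _ l2]
    exact c2 d hd'
  · intro e he e' he' hee
    rw [bds_map, List.mem_map] at he he'
    obtain ⟨d, hd1, rfl⟩ := he
    obtain ⟨d', hd2, rfl⟩ := he'
    obtain ⟨l1, l2⟩ := hlt hτ d hd1
    obtain ⟨l3, l4⟩ := hlt hσ d' hd2
    refine hd s(d.1, d.2) ?_ ?_
    · unfold edges
      rw [steps_eq]
      exact List.mem_map.2 ⟨d, hd1, rfl⟩
    · unfold edges
      rw [steps_eq]
      refine List.mem_map.2 ⟨d', hd2, ?_⟩
      unfold edge at hee
      simp only at hee ⊢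
      rw [Sym2.eq_iff] at hee ⊢
      rcases hee with ⟨e1, e2⟩ | ⟨e1, e2⟩
      · exact Or.inl ⟨(hnameinj _ l1 _ l3 e1).symm, (hnameinj _ l2 _ l4 e2).symm⟩
      · exact Or.inr ⟨(hnameinj _ l2 _ l3 e2).symm, (hnameinj _ l1 _ l4 e1).symm⟩
  · rw [← w1, ← w2]
    have e0 : a.zipIdx = (List.range n).map fun i => ((q₁ i, q₂ i), i) := by
      refine List.ext_getElem (by simp [hal]) fun i h1 h2 => ?_
      simp [ha]
    rw [e0, List.map_map]
    have e1 := (hτ.map fun i => hval A (q₁ i).1 (X i) + hval A (q₁ i).2 (X i)).sum_eq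
    have e2 := (hσ.map fun i => hval A (q₂ i).1 (X i) + hval A (q₂ i).2 (X i)).sum_eq
    rw [e1, e2, ← List.sum_map_add]
    rfl

theorem algZ_spec {σ : List (List ℤ) → Bool}
    (hσ : ∀ z : Fin m → Fin s → ℤ, σ (List.ofFn fun i => List.ofFn (z i)) = true ↔
      0 < ∑ i, ∑ k, A i k * (z i k : ℝ)) (h1 : ∀ l x, hval A l x ≤ nrm x)
    (h2 : ∀ x, ∃ l, hval A l x = nrm x) {tb : Tb m}
    (htb : ∀ (a a' : List (Ty (Lb m))) (M₁ M₂ : List ((Ty (Lb m) × ℕ) × Bool)),
        Realn p₁ p₂ bar (nm a) M₁ M₂ → (∀ t, cn t a' = cn t a) →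
        ∃ O ∈ tb, Realn p₁ p₂ bar (nm a') (attempt bar O a').1 (attempt bar O a').2)
    {D : ℝ} (hD : 0 < D) {Z : List (List ℤ)}
    (hZ : ∀ i < Z.length, ∀ k : Fin s, ((Z.getD i []).getD k 0 : ℝ) = D * X i k) :
    match algZ σ s tb Z with
    | none => ∀ τ ρ, ¬ Feasible Z.length τ ρ
    | some o => Feasible Z.length o.1 o.2 ∧ ∀ τ ρ, Feasible Z.length τ ρ →
        tl nrm X τ + tl nrm X ρ ≤ tl nrm X o.1 + tl nrm X o.2 := by
  -- completeness
  have key1 : ∀ τ ρ, Feasible Z.length τ ρ → ∃ x ∈ outs σ s tb Z,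
      D * (tl nrm X τ + tl nrm X ρ) ≤ rwt A x.1 Z := by
    intro τ ρ hf
    obtain ⟨a, M₁, M₂, ha, hR, hw⟩ := exists_assignment (X := X) h2 hf
    obtain ⟨a', ha', hc, hle⟩ := dp_spec hσ Z.length Z le_rfl a ha
    obtain ⟨O, hO, hR'⟩ := htb a a' M₁ M₂ hR hc
    refine ⟨(a', attempt bar O a'), ?_, ?_⟩
    · unfold outs
      rw [List.mem_filter, realB_iff]
      refine ⟨List.mem_flatMap.2 ⟨a', ha', List.mem_map.2 ⟨O, hO, rfl⟩⟩, hf.1, ?_, hR'⟩
      rw [← nm_length, (nm_perm hc).length_eq, nm_length, ha]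
    · refine le_trans (le_of_eq ?_) hle
      rw [← hw, rwt_eq A X D a Z 0 ha (by simpa using hZ)]
  -- soundness
  have key2 : ∀ x ∈ outs σ s tb Z, Feasible Z.length (toTour x.1 x.2.1) (toTour x.1 x.2.2) ∧
      rwt A x.1 Z ≤ D * (tl nrm X (toTour x.1 x.2.1) + tl nrm X (toTour x.1 x.2.2)) := by
    intro x hx
    unfold outs at hx
    rw [List.mem_filter, realB_iff] at hx
    obtain ⟨-, g1, g2, g3⟩ := hx
    refine ⟨feasible_of_realn g1 g2 g3, ?_⟩
    rw [rwt_eq A X D x.1 Z 0 g2 (by simpa using hZ)]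
    refine mul_le_mul_of_nonneg_left ?_ hD.le
    have t1 := tl_ge (X := X) h1 x.1 g3.2.2.1 g3.1
    have t2 := tl_ge (X := X) h1 x.1 g3.2.2.2.1 g3.2.1
    refine le_trans (le_of_eq ?_) (add_le_add t1 t2)
    rw [← nm_zipIdx x.1 fun t i => val4 A t (X i), ← List.sum_map_add]
    rfl
  unfold algZ
  cases hb : best (fun x y => σ (dif s x.1 y.1 Z)) (outs σ s tb Z) with
  | none =>
      simp only [Option.map_none]
      intro τ ρ hf
      obtain ⟨x, hx, -⟩ := key1 τ ρ hf
      obtain ⟨y, hy⟩ := best_ne_none (lt := fun x y => σ (dif s x.1 y.1 Z))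
        (List.ne_nil_of_mem hx)
      rw [hb] at hy
      exact absurd hy (by simp)
  | some b =>
      simp only [Option.map_some]
      have hbm := best_mem _ b hb
      obtain ⟨f1, f2⟩ := key2 b hbm
      refine ⟨f1, ?_⟩
      intro τ ρ hf
      obtain ⟨x, hx, hx2⟩ := key1 τ ρ hf
      have := best_spec (γ := ℝ) (fun x => -rwt A x.1 Z) _ (by
        intro x _ y _
        rw [dif_iff hσ, neg_lt_neg_iff]) b hb x hx
      have h5 : D * (tl nrm X τ + tl nrm X ρ) ≤
          D * (tl nrm X (toTour b.1 b.2.1) + tl nrm X (toTour b.1 b.2.2)) := by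
        simp only [neg_le_neg_iff] at this
        linarith
      exact le_of_mul_le_mul_left h5 hD

end correctness

end Pool.Agent.H670R2.PSP
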