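import Pool.Agent.H670R2.SimplexAlg3
import Pool.Agent.H670R2.RatDec

/-!
# The algorithm runs in polynomial time
-/

namespace Pool.Agent.NPC.H670R2

open Pool.Agent.NPC Pool.Agent.H670R2 Pool.Agent.H670R2.Simplex

theorem prod_lt (l : List ℕ) : l.prod < 2 ^ sz l := by
  induction l with
  | nil => simp
  | cons x l ih =>
      rw [List.prod_cons, sz_list_cons]
      have h1 := size_le_sz x
      have h2 := Nat.lt_size_self x
      have h3 : x < 2 ^ sz x := lt_of_lt_of_le h2 (Nat.pow_le_pow_right (by norm_num) (by omega))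
      have h4 : x * l.prod < 2 ^ sz x * 2 ^ sz l := Nat.mul_lt_mul'' h3 ih
      rw [pow_succ, pow_add]
      have : 0 < 2 ^ sz x * 2 ^ sz l := by positivity
      omega

theorem poly_prodN {α : Type} [TEnc α] {l : α → List ℕ} (hl : Poly l) :
    Poly (fun a => (l a).prod) := by
  obtain ⟨r, hr⟩ := hl.sz_le
  refine (Poly.foldr (s := fun _ => (1 : ℕ)) (F := fun _ x s => x * s) hl (Poly.const 1)
    (Poly.mul (Poly.fst (Poly.snd Poly.id)) (Poly.snd (Poly.snd Poly.id)))
    (Polynomial.C 4 * r + Polynomial.C 1) ?_).congr fun a => ?_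
  · intro a k hk
    change sz (((l a).drop k).prod) ≤ _
    have h1 := sz_nat_le (((l a).drop k).prod)
    have h2 := Nat.size_le.2 (prod_lt ((l a).drop k))
    have h3 := Poly.sz_drop_le (l a) k
    have h4 := hr a
    simp only [Polynomial.eval_add, Polynomial.eval_mul, Polynomial.eval_C]
    omega
  · rfl

section

variable {α : Type} [TEnc α]

theorem poly_scale {D : α → ℕ} {q : α → ℚ} (hD : Poly D) (hq : Poly q) :
    Poly (fun a => scale (D a) (q a)) :=
  Poly.imul (poly_num hq) (Poly.natCast (Poly.div hD (poly_den hq)))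

theorem poly_rowDen {r : α → List ℚ × ℚ} (hr : Poly r) : Poly (fun a => rowDen (r a)) :=
  Poly.mul (poly_prodN (Poly.map (F := fun _ q => Rat.den q) (Poly.fst hr)
    (poly_den (Poly.snd Poly.id)))) (poly_den (Poly.snd hr))

theorem poly_irow {r : α → List ℚ × ℚ} (hr : Poly r) : Poly (fun a => irow (r a)) := by
  unfold irow
  refine Poly.pair ?_ (poly_scale (poly_rowDen hr) (Poly.snd hr))
  exact Poly.map (F := fun a q => scale (rowDen (r a)) q) (Poly.fst hr)
    (poly_scale (poly_rowDen (hr.comp (Poly.fst Poly.id))) (Poly.snd Poly.id))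

theorem poly_cand1 {r s : α → List ℤ × ℤ} (hr : Poly r) (hs : Poly s) :
    Poly (fun a => cand1 (r a) (s a)) := by
  have hq : Poly (fun a => -(dotL (r a).1 (s a).1)) :=
    Poly.ineg (poly_dotL (Poly.fst hr) (Poly.fst hs))
  have hrs : Poly (fun a => dotL (r a).1 (s a).1) := poly_dotL (Poly.fst hr) (Poly.fst hs)
  have hrr : Poly (fun a => dotL (r a).1 (r a).1) := poly_dotL (Poly.fst hr) (Poly.fst hr)
  have hss : Poly (fun a => dotL (s a).1 (s a).1) := poly_dotL (Poly.fst hs) (Poly.fst hs)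
  have hh : Poly (fun a => -(dotL (r a).1 (s a).1) * (r a).2) := Poly.imul hq (Poly.snd hr)
  have hW : Poly (fun a => -(dotL (r a).1 (s a).1) * (r a).2 +
      dotL (r a).1 (r a).1 * (s a).2) := Poly.iadd hh (Poly.imul hrr (Poly.snd hs))
  unfold cand1
  refine Poly.ite (Poly.decide_and (Poly.decide_and (Poly.ilt (Poly.const 0) hq)
    (Poly.decide_eq (Poly.imul hrs hrs) (Poly.imul hrr hss))) (Poly.ilt (Poly.const 0) hW)) ?_
    (Poly.const _)
  refine Poly.cons (Poly.pair ?_ (Poly.pair hh hW)) (Poly.const _)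
  exact Poly.map (F := fun a x => -(dotL (r a).1 (s a).1) * x) (Poly.fst hr)
    (Poly.imul (hq.comp (Poly.fst Poly.id)) (Poly.snd Poly.id))

theorem poly_cands {R : α → List (List ℤ × ℤ)} (hR : Poly R) : Poly (fun a => cands (R a)) := by
  unfold cands
  refine Poly.flatMap (F := fun a r => (R a).flatMap fun s => cand1 r s) hR ?_
  exact Poly.flatMap (l := fun p : α × (List ℤ × ℤ) => R p.1) (F := fun p s => cand1 p.2 s)
    (hR.comp (Poly.fst Poly.id)) (poly_cand1 (Poly.snd (Poly.fst Poly.id)) (Poly.snd Poly.id))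

theorem poly_better {E : α → List (List ℤ)} {c c' : α → List ℤ × ℤ × ℤ} (hE : Poly E)
    (hc : Poly c) (hc' : Poly c') : Poly (fun a => better (E a) (c a) (c' a)) := by
  have hW : Poly (fun a => (c a).2.2 * (c a).2.2) :=
    Poly.imul (Poly.snd (Poly.snd hc)) (Poly.snd (Poly.snd hc))
  have hW' : Poly (fun a => (c' a).2.2 * (c' a).2.2) :=
    Poly.imul (Poly.snd (Poly.snd hc')) (Poly.snd (Poly.snd hc'))
  have hg : Poly (fun a => ((gdet ((c a).1 :: E a) : ℕ) : ℤ)) :=
    Poly.natCast (poly_gdet (Poly.cons (Poly.fst hc) hE))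
  have hg' : Poly (fun a => ((gdet ((c' a).1 :: E a) : ℕ) : ℤ)) :=
    Poly.natCast (poly_gdet (Poly.cons (Poly.fst hc') hE))
  have hd : Poly (fun a => dotL (c a).1 (c a).1) := poly_dotL (Poly.fst hc) (Poly.fst hc)
  have hd' : Poly (fun a => dotL (c' a).1 (c' a).1) := poly_dotL (Poly.fst hc') (Poly.fst hc')
  exact Poly.or (Poly.ilt (Poly.imul hg' hW) (Poly.imul hg hW'))
    (Poly.and (Poly.decide_eq (Poly.imul hg' hW) (Poly.imul hg hW'))
      (Poly.ilt (Poly.imul hd' hW) (Poly.imul hd hW')))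

theorem poly_gst {C sel : α → List (List ℤ × ℤ × ℤ)} (hC : Poly C) (hsel : Poly sel) :
    Poly (fun a => gst (C a) (sel a)) := by
  unfold gst
  have hb : Poly (fun a => best (better ((sel a).map Prod.fst)) (C a)) := by
    refine poly_best (lt := fun a => better ((sel a).map Prod.fst)) hC ?_
    exact poly_better (Poly.map (l := fun p : α × (List ℤ × ℤ × ℤ) × (List ℤ × ℤ × ℤ) => sel p.1)
      (F := fun _ c => Prod.fst c) (hsel.comp (Poly.fst Poly.id)) (Poly.fst (Poly.snd Poly.id)))
      (Poly.fst (Poly.snd Poly.id)) (Poly.snd (Poly.snd Poly.id))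
  refine (Poly.optCases (h := fun a c => c :: sel a) hb hsel
    (Poly.cons (Poly.snd Poly.id) (hsel.comp (Poly.fst Poly.id)))).congr fun a => ?_
  cases best (better ((sel a).map Prod.fst)) (C a) <;> rfl

theorem poly_firstRow {R : α → List (List ℚ × ℚ)} (hR : Poly R) :
    Poly (fun a => ((R a).map Prod.fst).head?.getD []) :=
  Poly.head?_getD (Poly.map (F := fun _ (r : List ℚ × ℚ) => r.1) hR
    (Poly.fst (Poly.snd Poly.id))) []

end

theorem gst_iter_sz (C : List (List ℤ × ℤ × ℤ)) (k : ℕ) :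
    ((gst C)^[k] []).length ≤ k ∧ ∀ c ∈ (gst C)^[k] [], sz c ≤ sz C := by
  induction k with
  | zero => simp
  | succ k ih =>
      rw [Function.iterate_succ_apply']
      obtain ⟨i1, i2⟩ := ih
      unfold gst at *
      split
      · exact ⟨by omega, i2⟩
      · rename_i c hc
        refine ⟨by simpa using i1, ?_⟩
        intro d hd
        rcases List.mem_cons.1 hd with rfl | hd
        · exact (sz_le_of_mem (best_mem _ _ hc)).le
        · exact i2 d hd

theorem poly_selOf : Poly selOf := by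
  unfold selOf flen
  have hC : Poly (fun R : List (List ℚ × ℚ) => cands (R.map irow)) :=
    poly_cands (Poly.map (F := fun _ r => irow r) Poly.id (poly_irow (Poly.snd Poly.id)))
  obtain ⟨q, hq⟩ := hC.sz_le
  obtain ⟨r, hr⟩ := (poly_firstRow (α := List (List ℚ × ℚ)) Poly.id).sz_le
  refine Poly.iterLen (l := fun R : List (List ℚ × ℚ) => (R.map Prod.fst).head?.getD [])
    (s := fun _ => ([] : List (List ℤ × ℤ × ℤ))) (F := fun R sel => gst (cands (R.map irow)) sel)
    (poly_firstRow Poly.id) (Poly.const _)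
    (poly_gst (hC.comp (Poly.fst Poly.id)) (Poly.snd Poly.id))
    (r * (q + Polynomial.C 1) + Polynomial.C 1) ?_
  intro R k hk
  obtain ⟨h1, h2⟩ := gst_iter_sz (cands (R.map irow)) k
  have h3 := sz_le_length_mul _ _ h2
  have h4 := hq R
  have h5 := hr R
  have h6 := length_lt_sz ((R.map Prod.fst).head?.getD [])
  refine h3.trans ?_
  simp only [Polynomial.eval_add, Polynomial.eval_mul, Polynomial.eval_C]
  have h7 : ((gst (cands (R.map irow)))^[k] []).length * (sz (cands (R.map irow)) + 1) ≤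
      Polynomial.eval (sz R) r * (Polynomial.eval (sz R) q + 1) :=
    Nat.mul_le_mul (by omega) (by omega)
  omega

section

variable {α : Type} [TEnc α]

theorem poly_repl {L : α → List (List ℤ)} {i : α → ℕ} {w : α → List ℤ} (hL : Poly L)
    (hi : Poly i) (hw : Poly w) : Poly (fun a => repl (L a) (i a) (w a)) := by
  unfold repl
  refine Poly.map (F := fun a (p : List ℤ × ℕ) => if p.2 = i a then w a else p.1)
    (Poly.zipIdx hL) ?_
  exact Poly.ite (p := fun q : α × (List ℤ × ℕ) => q.2.2 = i q.1)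
    (Poly.decide_eq (Poly.snd (Poly.snd Poly.id)) (hi.comp (Poly.fst Poly.id)))
    (hw.comp (Poly.fst Poly.id)) (Poly.fst (Poly.snd Poly.id))

theorem poly_nval {L : α → List (List ℤ)} {v : α → List ℤ} {i : α → ℕ} (hL : Poly L)
    (hv : Poly v) (hi : Poly i) : Poly (fun a => nval (L a) (v a) (i a)) := by
  unfold nval
  have hg : Poly (fun a => (L a).getD (i a) []) := Poly.getD hL hi (Poly.const _)
  have h1 : Poly (fun a => List.zipWith (fun x y : ℤ => x + y) (v a) ((L a).getD (i a) [])) :=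
    Poly.zipWith (F := fun _ x y => x + y) hv hg
      (Poly.iadd (Poly.fst (Poly.snd Poly.id)) (Poly.snd (Poly.snd Poly.id)))
  have h2 : Poly (fun a => List.zipWith (fun x y : ℤ => x - y) (v a) ((L a).getD (i a) [])) :=
    Poly.zipWith (F := fun _ x y => x - y) hv hg
      (Poly.isub (Poly.fst (Poly.snd Poly.id)) (Poly.snd (Poly.snd Poly.id)))
  exact Poly.isub (Poly.natCast (poly_gdet (poly_repl hL hi h1)))
    (Poly.natCast (poly_gdet (poly_repl hL hi h2)))

theorem poly_fsts {sel : α → List (List ℤ × ℤ × ℤ)} (hs : Poly sel) :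
    Poly (fun a => (sel a).map Prod.fst) :=
  Poly.map (F := fun _ (c : List ℤ × ℤ × ℤ) => c.1) hs (Poly.fst (Poly.snd Poly.id))

theorem poly_rowOk {sel : α → List (List ℤ × ℤ × ℤ)} {r : α → List ℤ × ℤ} (hs : Poly sel)
    (hr : Poly r) : Poly (fun a => rowOk (sel a) (r a)) := by
  unfold rowOk
  have hF := poly_fsts hs
  refine Poly.ile (Poly.isum (Poly.map (F := fun a i =>
    if 0 ≤ nval ((sel a).map Prod.fst) (r a).1 i then
      nval ((sel a).map Prod.fst) (r a).1 i * ((sel a).getD i ([], 0, 0)).2.1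
    else nval ((sel a).map Prod.fst) (r a).1 i *
      (((sel a).getD i ([], 0, 0)).2.1 - ((sel a).getD i ([], 0, 0)).2.2))
      (Poly.range_length hs) ?_))
    (Poly.imul (Poly.imul (Poly.const 4) (Poly.natCast (poly_gdet hF))) (Poly.snd hr))
  have hn : Poly (fun p : α × ℕ => nval ((sel p.1).map Prod.fst) (r p.1).1 p.2) :=
    poly_nval (hF.comp (Poly.fst Poly.id)) (Poly.fst (hr.comp (Poly.fst Poly.id)))
      (Poly.snd Poly.id)
  have hg : Poly (fun p : α × ℕ => (sel p.1).getD p.2 ([], 0, 0)) :=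
    Poly.getD (hs.comp (Poly.fst Poly.id)) (Poly.snd Poly.id) (Poly.const _)
  exact Poly.ite (p := fun p : α × ℕ => 0 ≤ nval ((sel p.1).map Prod.fst) (r p.1).1 p.2)
    (Poly.ile (Poly.const 0) hn) (Poly.imul hn (Poly.fst (Poly.snd hg)))
    (Poly.imul hn (Poly.isub (Poly.fst (Poly.snd hg)) (Poly.snd (Poly.snd hg))))

theorem poly_wprod {sel : α → List (List ℤ × ℤ × ℤ)} (hs : Poly sel) :
    Poly (fun a => wprod (sel a)) :=
  poly_prodN (Poly.map (F := fun _ (c : List ℤ × ℤ × ℤ) => c.2.2.natAbs) hs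
    (Poly.natAbs (Poly.snd (Poly.snd (Poly.snd Poly.id)))))

end

theorem poly_good : Poly good := by
  unfold good
  have hR : Poly (fun I : ℕ × List (List ℚ × ℚ) × ℚ => I.2.1) := Poly.fst (Poly.snd Poly.id)
  have hn : Poly (fun I : ℕ × List (List ℚ × ℚ) × ℚ => I.1) := Poly.fst Poly.id
  have hs : Poly (fun I : ℕ × List (List ℚ × ℚ) × ℚ => selOf I.2.1) := poly_selOf.comp hR
  refine Poly.and (Poly.decide_le (Poly.const 1) hn) (Poly.and ?_ (Poly.and ?_ (Poly.and ?_
    (Poly.and ?_ (Poly.and ?_ ?_)))))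
  · exact Poly.decide_eq hn (Poly.length (poly_firstRow hR))
  · exact Poly.all (p := fun (I : ℕ × List (List ℚ × ℚ) × ℚ) (r : List ℚ × ℚ) =>
      decide (r.1.length = I.1)) hR (Poly.decide_eq (Poly.length (Poly.fst (Poly.snd Poly.id)))
        (Poly.fst (Poly.fst Poly.id)))
  · exact Poly.ilt (Poly.const 0) (poly_num (Poly.snd (Poly.snd Poly.id)))
  · exact Poly.decide_eq (Poly.length hs) hn
  · exact Poly.decide_lt (Poly.const 0) (poly_gdet (poly_fsts hs))
  · exact Poly.all (p := fun (I : ℕ × List (List ℚ × ℚ) × ℚ) (r : List ℤ × ℤ) =>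
      rowOk (selOf I.2.1) r) (Poly.map (F := fun _ r => irow r) hR
        (poly_irow (Poly.snd Poly.id))) (poly_rowOk (hs.comp (Poly.fst Poly.id))
        (Poly.snd Poly.id))

theorem poly_key : Poly key := by
  unfold key
  have hR : Poly (fun I : ℕ × List (List ℚ × ℚ) × ℚ => I.2.1) := Poly.fst (Poly.snd Poly.id)
  have hn : Poly (fun I : ℕ × List (List ℚ × ℚ) × ℚ => I.1) := Poly.fst Poly.id
  have ht : Poly (fun I : ℕ × List (List ℚ × ℚ) × ℚ => I.2.2) := Poly.snd (Poly.snd Poly.id)
  have hs : Poly (fun I : ℕ × List (List ℚ × ℚ) × ℚ => selOf I.2.1) := poly_selOf.comp hR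
  refine Poly.ite (p := fun I => good I = true) (Poly.decide_bool poly_good) ?_ (Poly.const _)
  exact Poly.some (Poly.pair hn (Poly.pair (Poly.mul (Poly.natAbs (poly_num ht))
    (poly_gdet (poly_fsts hs))) (Poly.mul (poly_den ht) (Poly.mul (poly_wprod hs)
    (poly_wprod hs)))))

end Pool.Agent.NPC.H670R2
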