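import Pool.Agent.H670R2.PspPoly
import Pool.Agent.H670R2.SimplexPoly

/-!
# The algorithm for Max-2-PSP runs in polynomial time
-/

namespace Pool.Agent.NPC.H670R2

open Pool.Agent.NPC Pool.Agent.H670R2 Pool.Agent.H670R2.PSP
open Pool.Agent.NPC.CL (polyOfFintype)

instance (m : ℕ) : TEnc (Fin m) := ⟨fun i => toT (i : ℕ), fun _ _ h => Fin.ext (TEnc.inj h)⟩

section realize

variable {α V L : Type} [TEnc α] [TEnc V] [TEnc L] [DecidableEq V] [DecidableEq L]
  {p : V → L × L} {bar : L → L}

theorem poly_ext1 (hp : Poly p) (hb : Poly bar) {O : α → List (V × Bool)} {U : α → List V}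
    (hO : Poly O) (hU : Poly U) : Poly (fun a => ext1 p bar (O a) (U a)) := by
  unfold ext1
  refine poly_extTour (P := fun a => alw p bar (O a)) (freq := fun a => frq p (O a)) hp ?_ ?_ hO hU
  · exact poly_alw hp hb (hO.comp (Poly.fst Poly.id)) (Poly.snd Poly.id)
  · exact poly_frq hp (hO.comp (Poly.fst Poly.id)) (Poly.snd Poly.id)

theorem poly_fix1 (hp : Poly p) (hb : Poly bar) {O M N : α → List (V × Bool)}
    (hO : Poly O) (hM : Poly M) (hN : Poly N) :
    Poly (fun a => fix1 p bar (O a) (M a) (N a)) := by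
  unfold fix1
  refine poly_fixTour (P := fun a => alw p bar (O a)) (G := fun a => adj (N a)) ?_ ?_ hM
  · exact poly_alw hp hb (hO.comp (Poly.fst Poly.id)) (Poly.snd Poly.id)
  · exact poly_adj (hN.comp (Poly.fst Poly.id)) (Poly.fst (Poly.snd Poly.id))
      (Poly.snd (Poly.snd Poly.id))

theorem poly_realize {q : V → L × L} (hp : Poly p) (hq : Poly q) (hb : Poly bar)
    {O₁ O₂ : α → List (V × Bool)} {U : α → List V} (h₁ : Poly O₁) (h₂ : Poly O₂) (hU : Poly U) :
    Poly (fun a => realize p q bar (O₁ a) (O₂ a) (U a)) := by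
  unfold realize
  have m1 := poly_ext1 hp hb h₁ hU
  have m2 := poly_ext1 hq hb h₂ hU
  have n1 := poly_fix1 hp hb h₁ m1 m2
  exact Poly.pair n1 (poly_fix1 hq hb h₂ m2 n1)

end realize

section names

variable {α T : Type} [TEnc α] [TEnc T] [DecidableEq T]

theorem poly_cn {t : α → T} {l : α → List T} (ht : Poly t) (hl : Poly l) :
    Poly (fun a => cn (t a) (l a)) :=
  poly_countP (q := fun a s => decide (s = t a)) hl
    (Poly.decide_eq (Poly.snd Poly.id) (ht.comp (Poly.fst Poly.id)))

theorem sz_nm (l : List T) : sz (nm l) ≤ sz l * (5 * sz l + 4) + 1 := by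
  have h1 := sz_le_length_mul (nm l) (5 * sz l + 3) (by
    intro v hv
    have h2 : v.1 ∈ l := by
      have := List.mem_map_of_mem (f := Prod.fst) hv
      rwa [nm_map_fst] at this
    rw [mem_nm] at hv
    have h3 : cn v.1 l ≤ l.length := List.countP_le_length
    have h4 := length_lt_sz l
    have h5 := sz_le_of_mem h2
    have h6 : sz v = sz v.1 + sz v.2 + 1 := sz_pair _ _
    have h7 := sz_nat_le v.2
    have h8 := Poly.size_le_self v.2
    omega)
  rw [nm_length] at h1
  have h2 := length_lt_sz l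
  have h3 : l.length * (5 * sz l + 3 + 1) ≤ sz l * (5 * sz l + 4) := Nat.mul_le_mul h2.le le_rfl
  omega

theorem poly_nm {l : α → List T} (hl : Poly l) : Poly (fun a => nm (l a)) := by
  have key : ∀ l : List T, l.foldr (fun t (acc : List (T × ℕ)) =>
      (t, acc.countP fun v => decide (v.1 = t)) :: acc) [] = nm l := by
    intro l
    induction l with
    | nil => rfl
    | cons t l ih =>
        rw [List.foldr_cons, ih, nm, countP_nm]
  obtain ⟨q, hq⟩ := hl.sz_le
  refine (Poly.foldr (s := fun _ => ([] : List (T × ℕ)))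
    (F := fun _ t acc => (t, acc.countP fun v => decide (v.1 = t)) :: acc) hl (Poly.const _)
    (Poly.cons (Poly.pair (Poly.fst (Poly.snd Poly.id)) (poly_countP
      (q := fun (p : α × T × List (T × ℕ)) v => decide (v.1 = p.2.1)) (Poly.snd (Poly.snd Poly.id))
      (Poly.decide_eq (Poly.fst (Poly.snd Poly.id)) (Poly.fst (Poly.snd (Poly.fst Poly.id))))))
      (Poly.snd (Poly.snd Poly.id)))
    (q * (Polynomial.C 5 * q + Polynomial.C 4) + Polynomial.C 1) ?_).congr fun a => key (l a)
  intro a k hk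
  rw [key]
  have h1 := sz_nm ((l a).drop k)
  have h2 := Poly.sz_drop_le (l a) k
  have h3 := hq a
  simp only [Polynomial.eval_add, Polynomial.eval_mul, Polynomial.eval_C]
  refine h1.trans ?_
  have h4 := Nat.mul_le_mul (h2.trans h3)
    (Nat.add_le_add_right (Nat.mul_le_mul_left 5 (h2.trans h3)) 4)
  omega

end names

section alg

variable {α : Type} [TEnc α] {m s : ℕ}

theorem poly_p₁ : Poly (p₁ : Ty (Lb m) × ℕ → Lb m × Lb m) := Poly.fst (Poly.fst Poly.id)

theorem poly_p₂ : Poly (p₂ : Ty (Lb m) × ℕ → Lb m × Lb m) := Poly.snd (Poly.fst Poly.id)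

theorem poly_bar : Poly (bar : Lb m → Lb m) := polyOfFintype _

theorem poly_extras {O : α → List ((Ty (Lb m) × ℕ) × Bool)} {a : α → List (Ty (Lb m))}
    (hO : Poly O) (ha : Poly a) : Poly (fun x => extras (O x) (a x)) := by
  have h1 : Poly (fun q : (α × (Ty (Lb m) × ℕ)) × ((Ty (Lb m) × ℕ) × Bool) =>
      decide (q.2.1 = q.1.2)) :=
    Poly.decide_eq (Poly.fst (Poly.snd Poly.id)) (Poly.snd (Poly.fst Poly.id))
  have h2 : Poly (fun q : α × (Ty (Lb m) × ℕ) => O q.1) := hO.comp (Poly.fst Poly.id)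
  have h3 : Poly (fun q : α × (Ty (Lb m) × ℕ) => (O q.1).any fun e => decide (e.1 = q.2)) :=
    Poly.any (p := fun (q : α × (Ty (Lb m) × ℕ)) (e : (Ty (Lb m) × ℕ) × Bool) =>
      decide (e.1 = q.2)) h2 h1
  have h4 : Poly (fun q : α × (Ty (Lb m) × ℕ) => !((O q.1).any fun e => decide (e.1 = q.2))) :=
    Poly.not h3
  exact Poly.filter (p := fun x (v : Ty (Lb m) × ℕ) => !((O x).any fun e => decide (e.1 = v)))
    (poly_nm ha) h4

theorem poly_attempt {O : α → List ((Ty (Lb m) × ℕ) × Bool) × List ((Ty (Lb m) × ℕ) × Bool)}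
    {a : α → List (Ty (Lb m))} (hO : Poly O) (ha : Poly a) :
    Poly (fun x => attempt bar (O x) (a x)) := by
  have h1 : Poly (fun x => (O x).1) := Poly.fst hO
  have h2 : Poly (fun x => (O x).2) := Poly.snd hO
  have h3 : Poly (fun x => extras (O x).1 (a x)) := poly_extras h1 ha
  exact poly_realize (p := p₁) (q := p₂) (bar := bar) poly_p₁ poly_p₂ poly_bar h1 h2 h3

theorem poly_ofFn {β : Type} [TEnc β] {k : ℕ} {g : Fin k → α → β} (hg : ∀ j, Poly (g j)) :
    Poly (fun a => List.ofFn fun j => g j a) := by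
  induction k with
  | zero => exact (Poly.const []).congr fun a => by simp
  | succ k ih =>
      exact (Poly.cons (hg 0) (ih (g := fun j => g j.succ) fun j => hg j.succ)).congr fun a => by
        rw [List.ofFn_succ]

theorem poly_wc (j : Fin m) (k : ℕ) {a : α → List (Ty (Lb m))} {Z : α → List (List ℤ)}
    (ha : Poly a) (hZ : Poly Z) : Poly (fun x => wc j k (a x) (Z x)) := by
  unfold wc
  exact Poly.isum (Poly.zipWith (F := fun _ t z => cf j t * z.getD k 0) ha hZ
    (Poly.imul ((polyOfFintype (cf j)).comp (Poly.fst (Poly.snd Poly.id)))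
      (Poly.getD (Poly.snd (Poly.snd Poly.id)) (Poly.const k) (Poly.const 0))))

theorem poly_dif {a a' : α → List (Ty (Lb m))} {Z : α → List (List ℤ)}
    (ha : Poly a) (ha' : Poly a') (hZ : Poly Z) : Poly (fun x => dif s (a x) (a' x) (Z x)) :=
  poly_ofFn fun j => poly_ofFn fun k => Poly.isub (poly_wc j k ha hZ) (poly_wc j k ha' hZ)

theorem poly_keyv {a : α → List (Ty (Lb m))} (ha : Poly a) : Poly (fun x => key (a x)) :=
  Poly.map (l := fun _ => tys m) (F := fun x t => cn t (a x)) (Poly.const _)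
    (poly_cn (Poly.snd Poly.id) (ha.comp (Poly.fst Poly.id)))

theorem poly_prodL (k : ℕ) {R : α → List ℕ} (hR : Poly R) : Poly (fun x => prodL k (R x)) := by
  induction k generalizing α with
  | zero => exact Poly.const _
  | succ k ih =>
      exact Poly.flatMap (F := fun x y => (prodL k (R x)).map fun l => y :: l) hR
        (Poly.map (l := fun p : α × ℕ => prodL k (R p.1)) (F := fun p l => p.2 :: l)
          (ih (hR.comp (Poly.fst Poly.id)))
          (Poly.cons (Poly.snd (Poly.fst Poly.id)) (Poly.snd Poly.id)))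

theorem poly_keys {Z : α → List (List ℤ)} (hZ : Poly Z) :
    Poly (fun x => keys m (Z x).length) :=
  poly_prodL _ (UPoly.range (UPoly.add (UPoly.length hZ) (UPoly.const 1)))

theorem poly_dpStep {σ : List (List ℤ) → Bool} (hσ : Poly σ) {K : α → List (List ℕ)}
    {z : α → List ℤ} {st : α → List (List ℤ) × List (List (Ty (Lb m)))} (hK : Poly K)
    (hz : Poly z) (hst : Poly st) : Poly (fun x => dpStep σ s (K x) (z x) (st x)) := by
  unfold dpStep
  have hZ : Poly (fun x => z x :: (st x).1) := Poly.cons hz (Poly.fst hst)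
  have hC : Poly (fun x => (st x).2.flatMap fun a => (tys m).map fun t => t :: a) :=
    Poly.flatMap (F := fun _ a => (tys m).map fun t => t :: a) (Poly.snd hst)
      (Poly.map (l := fun _ => tys m) (F := fun (p : α × List (Ty (Lb m))) t => t :: p.2)
        (Poly.const _) (Poly.cons (Poly.snd Poly.id) (Poly.snd (Poly.fst Poly.id))))
  refine Poly.pair hZ ?_
  refine Poly.flatMap (F := fun x c => (best (fun a a' => σ (dif s a a' (z x :: (st x).1)))
    (((st x).2.flatMap fun a => (tys m).map fun t => t :: a).filter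
      fun a => decide (key a = c))).toList) hK ?_
  have hb : Poly (fun p : α × List ℕ => best
      (fun a a' => σ (dif s a a' (z p.1 :: (st p.1).1)))
      (((st p.1).2.flatMap fun a => (tys m).map fun t => t :: a).filter
        fun a => decide (key a = p.2))) := by
    refine poly_best (lt := fun (p : α × List ℕ) a a' => σ (dif s a a' (z p.1 :: (st p.1).1)))
      (Poly.filter (p := fun (p : α × List ℕ) a => decide (key a = p.2))
        (hC.comp (Poly.fst Poly.id)) ?_) ?_
    · exact Poly.decide_eq (poly_keyv (Poly.snd Poly.id)) (Poly.snd (Poly.fst Poly.id))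
    · exact hσ.comp (poly_dif (Poly.fst (Poly.snd Poly.id)) (Poly.snd (Poly.snd Poly.id))
        (hZ.comp (Poly.fst (Poly.fst Poly.id))))
  refine (Poly.optCases (g := fun _ => []) (h := fun _ b => [b]) hb (Poly.const _)
    (Poly.cons (Poly.snd Poly.id) (Poly.const []))).congr fun p => ?_
  cases best (fun a a' => σ (dif s a a' (z p.1 :: (st p.1).1)))
      (((st p.1).2.flatMap fun a => (tys m).map fun t => t :: a).filter
        fun a => decide (key a = p.2)) <;> rfl

theorem length_flatMap_opt {β γ : Type} (l : List β) (f : β → Option γ) :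
    (l.flatMap fun c => (f c).toList).length ≤ l.length := by
  induction l with
  | nil => simp
  | cons c l ih =>
      rw [List.flatMap_cons, List.length_append, List.length_cons]
      have : (f c).toList.length ≤ 1 := by cases f c <;> simp
      omega

theorem dp_bound (σ : List (List ℤ) → Bool) (K : List (List ℕ)) (Z : List (List ℤ)) :
    (dp m σ s K Z).2.length ≤ K.length + 1 ∧ ∀ a ∈ (dp m σ s K Z).2, a.length = Z.length := by
  induction Z with
  | nil => simp [dp]
  | cons z Z ih =>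
      have e : (dp m σ s K (z :: Z)).2 = K.flatMap fun c =>
          (best (fun a a' => σ (dif s a a' (z :: (dp m σ s K Z).1)))
            (((dp m σ s K Z).2.flatMap fun a => (tys m).map fun t => t :: a).filter
              fun a => decide (key a = c))).toList := rfl
      rw [e]
      refine ⟨(length_flatMap_opt _ _).trans (by omega), ?_⟩
      intro a ha
      rw [List.mem_flatMap] at ha
      obtain ⟨c, -, ha⟩ := ha
      rw [Option.mem_toList] at ha
      have := best_mem _ a ha
      rw [List.mem_filter, List.mem_flatMap] at this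
      obtain ⟨⟨b, hb, h2⟩, -⟩ := this
      rw [List.mem_map] at h2
      obtain ⟨t, -, rfl⟩ := h2
      simp [ih.2 b hb]

theorem poly_dp {σ : List (List ℤ) → Bool} (hσ : Poly σ) {K : α → List (List ℕ)}
    {Z : α → List (List ℤ)} (hK : Poly K) (hZ : Poly Z) :
    Poly (fun x => dp m σ s (K x) (Z x)) := by
  unfold dp
  obtain ⟨q, hq⟩ := hZ.sz_le
  obtain ⟨r, hr⟩ := hK.sz_le
  obtain ⟨C, hC⟩ : ∃ C, ∀ t : Ty (Lb m), sz t ≤ C := by
    refine ⟨∑ t : Ty (Lb m), sz t, fun t => ?_⟩
    exact Finset.single_le_sum (f := fun t : Ty (Lb m) => sz t) (fun _ _ => Nat.zero_le _)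
      (Finset.mem_univ t)
  refine Poly.foldr (F := fun x z st => dpStep σ s (K x) z st) hZ (Poly.const _)
    (poly_dpStep hσ (hK.comp (Poly.fst Poly.id)) (Poly.fst (Poly.snd Poly.id))
      (Poly.snd (Poly.snd Poly.id)))
    (q + (r + Polynomial.C 1) * (q * Polynomial.C (C + 1) + Polynomial.C 2) + Polynomial.C 2) ?_
  intro x k hk
  change sz (dp m σ s (K x) ((Z x).drop k)) ≤ _
  have h1 : sz (dp m σ s (K x) ((Z x).drop k)) = sz (dp m σ s (K x) ((Z x).drop k)).1 +
    sz (dp m σ s (K x) ((Z x).drop k)).2 + 1 := sz_pair _ _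
  rw [dp_fst] at h1
  obtain ⟨h2, h3⟩ := dp_bound (m := m) (s := s) σ (K x) ((Z x).drop k)
  have h4 := Poly.sz_drop_le (Z x) k
  have h5 := hq x
  have h6 := hr x
  have h7 := length_lt_sz (K x)
  have h8 := length_lt_sz ((Z x).drop k)
  have h9 := sz_le_length_mul (dp m σ s (K x) ((Z x).drop k)).2
    (((Z x).drop k).length * (C + 1) + 1) (by
      intro a ha
      have := sz_le_length_mul a C fun t _ => hC t
      rwa [h3 a ha] at this)
  simp only [Polynomial.eval_add, Polynomial.eval_mul, Polynomial.eval_C]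
  have h10 : (dp m σ s (K x) ((Z x).drop k)).2.length *
      (((Z x).drop k).length * (C + 1) + 1 + 1) ≤
      (Polynomial.eval (sz x) r + 1) * (Polynomial.eval (sz x) q * (C + 1) + 2) := by
    refine Nat.mul_le_mul (by omega) ?_
    have := Nat.mul_le_mul_right (C + 1) (show ((Z x).drop k).length ≤
      Polynomial.eval (sz x) q by omega)
    omega
  omega

theorem poly_namesIn {a : α → List (Ty (Lb m))} {M : α → List ((Ty (Lb m) × ℕ) × Bool)}
    (ha : Poly a) (hM : Poly M) :
    Poly (fun x => (nm (a x)).all fun v => (M x).any fun e => decide (e.1 = v)) := by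
  have h1 : Poly (fun q : (α × (Ty (Lb m) × ℕ)) × ((Ty (Lb m) × ℕ) × Bool) =>
      decide (q.2.1 = q.1.2)) :=
    Poly.decide_eq (Poly.fst (Poly.snd Poly.id)) (Poly.snd (Poly.fst Poly.id))
  have h2 : Poly (fun q : α × (Ty (Lb m) × ℕ) => M q.1) := hM.comp (Poly.fst Poly.id)
  have h3 : Poly (fun q : α × (Ty (Lb m) × ℕ) => (M q.1).any fun e => decide (e.1 = q.2)) :=
    Poly.any (p := fun (q : α × (Ty (Lb m) × ℕ)) (e : (Ty (Lb m) × ℕ) × Bool) =>
      decide (e.1 = q.2)) h2 h1
  exact Poly.all (p := fun x (v : Ty (Lb m) × ℕ) => (M x).any fun e => decide (e.1 = v))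
    (poly_nm ha) h3

theorem poly_closedB {p : Ty (Lb m) × ℕ → Lb m × Lb m} (hp : Poly p)
    {M : α → List ((Ty (Lb m) × ℕ) × Bool)} (hM : Poly M) :
    Poly (fun x => (bds (M x)).all fun d => decide (lf p d.2 = bar (rt p d.1))) := by
  have h1 : Poly (fun q : α × (((Ty (Lb m) × ℕ) × Bool) × ((Ty (Lb m) × ℕ) × Bool)) =>
      lf p q.2.2) := poly_lf hp (Poly.snd (Poly.snd Poly.id))
  have h2 : Poly (fun q : α × (((Ty (Lb m) × ℕ) × Bool) × ((Ty (Lb m) × ℕ) × Bool)) =>
      rt p q.2.1) := poly_rt hp (Poly.fst (Poly.snd Poly.id))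
  have h3 : Poly (fun q : α × (((Ty (Lb m) × ℕ) × Bool) × ((Ty (Lb m) × ℕ) × Bool)) =>
      bar (rt p q.2.1)) := poly_bar.comp h2
  have h4 : Poly (fun q : α × (((Ty (Lb m) × ℕ) × Bool) × ((Ty (Lb m) × ℕ) × Bool)) =>
      decide (lf p q.2.2 = bar (rt p q.2.1))) := Poly.decide_eq h1 h3
  exact Poly.all (p := fun _ (d : ((Ty (Lb m) × ℕ) × Bool) × ((Ty (Lb m) × ℕ) × Bool)) =>
    decide (lf p d.2 = bar (rt p d.1))) (poly_bds hM) h4

theorem poly_disjB {M N : α → List ((Ty (Lb m) × ℕ) × Bool)} (hM : Poly M) (hN : Poly N) :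
    Poly (fun x => (bds (M x)).all fun d => !(adj (N x) d.1.1 d.2.1)) := by
  have h1 : Poly (fun q : α × (((Ty (Lb m) × ℕ) × Bool) × ((Ty (Lb m) × ℕ) × Bool)) =>
      N q.1) := hN.comp (Poly.fst Poly.id)
  have h2 : Poly (fun q : α × (((Ty (Lb m) × ℕ) × Bool) × ((Ty (Lb m) × ℕ) × Bool)) =>
      q.2.1.1) := Poly.fst (Poly.fst (Poly.snd Poly.id))
  have h3 : Poly (fun q : α × (((Ty (Lb m) × ℕ) × Bool) × ((Ty (Lb m) × ℕ) × Bool)) =>
      q.2.2.1) := Poly.fst (Poly.snd (Poly.snd Poly.id))
  have h4 : Poly (fun q : α × (((Ty (Lb m) × ℕ) × Bool) × ((Ty (Lb m) × ℕ) × Bool)) =>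
      !(adj (N q.1) q.2.1.1 q.2.2.1)) := Poly.not (poly_adj h1 h2 h3)
  exact Poly.all (p := fun x (d : ((Ty (Lb m) × ℕ) × Bool) × ((Ty (Lb m) × ℕ) × Bool)) =>
    !(adj (N x) d.1.1 d.2.1)) (poly_bds hM) h4

theorem poly_realB {n : α → ℕ} {a : α → List (Ty (Lb m))}
    {q : α → List ((Ty (Lb m) × ℕ) × Bool) × List ((Ty (Lb m) × ℕ) × Bool)}
    (hn : Poly n) (ha : Poly a) (hq : Poly q) : Poly (fun x => realB (n x) (a x) (q x)) := by
  have hq1 : Poly (fun x => (q x).1) := Poly.fst hq
  have hq2 : Poly (fun x => (q x).2) := Poly.snd hq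
  have e1 : Poly (fun x => decide (3 ≤ n x) && decide ((a x).length = n x)) :=
    Poly.and (Poly.decide_le (Poly.const 3) hn) (Poly.decide_eq (Poly.length ha) hn)
  have e2 : Poly (fun x => decide ((q x).1.length = n x) && decide ((q x).2.length = n x)) :=
    Poly.and (Poly.decide_eq (Poly.length hq1) hn) (Poly.decide_eq (Poly.length hq2) hn)
  have e3 := Poly.and (poly_namesIn ha hq1) (poly_namesIn ha hq2)
  have e4 := Poly.and (poly_closedB (m := m) poly_p₁ hq1) (poly_closedB (m := m) poly_p₂ hq2)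
  have e5 := poly_disjB hq1 hq2
  exact Poly.and e1 (Poly.and e2 (Poly.and e3 (Poly.and e4 e5)))

theorem poly_outs {σ : List (List ℤ) → Bool} (hσ : Poly σ) (tb : Tb m)
    {Z : α → List (List ℤ)} (hZ : Poly Z) : Poly (fun x => outs σ s tb (Z x)) := by
  unfold outs
  refine Poly.filter (p := fun x (y : List (Ty (Lb m)) × List ((Ty (Lb m) × ℕ) × Bool) ×
    List ((Ty (Lb m) × ℕ) × Bool)) => realB (Z x).length y.1 y.2) ?_ ?_
  · refine Poly.flatMap (F := fun _ a => tb.map fun O => (a, attempt bar O a))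
      (Poly.snd (poly_dp hσ (poly_keys hZ) hZ)) ?_
    exact Poly.map (l := fun _ => tb) (F := fun (p : α × List (Ty (Lb m))) O =>
      (p.2, attempt bar O p.2)) (Poly.const _) (Poly.pair (Poly.snd (Poly.fst Poly.id))
        (poly_attempt (Poly.snd Poly.id) (Poly.snd (Poly.fst Poly.id))))
  · exact poly_realB (Poly.length (hZ.comp (Poly.fst Poly.id))) (Poly.fst (Poly.snd Poly.id))
      (Poly.snd (Poly.snd Poly.id))

theorem poly_toTour {a : α → List (Ty (Lb m))} {M : α → List ((Ty (Lb m) × ℕ) × Bool)}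
    (ha : Poly a) (hM : Poly M) : Poly (fun x => toTour (a x) (M x)) :=
  Poly.map (F := fun x (e : (Ty (Lb m) × ℕ) × Bool) => index (nm (a x)) e.1) hM
    (Poly.index (poly_nm (ha.comp (Poly.fst Poly.id))) (Poly.fst (Poly.snd Poly.id)))

/-- a candidate solution -/
abbrev Cand (m : ℕ) := List (Ty (Lb m)) × List ((Ty (Lb m) × ℕ) × Bool) ×
  List ((Ty (Lb m) × ℕ) × Bool)

theorem poly_bestZ {σ : List (List ℤ) → Bool} (hσ : Poly σ) {l : α → List (Cand m)}
    {Z : α → List (List ℤ)} (hl : Poly l) (hZ : Poly Z) :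
    Poly (fun z => best (fun x y : Cand m => σ (dif s x.1 y.1 (Z z))) (l z)) := by
  have h1 : Poly (fun p : α × Cand m × Cand m => p.2.1.1) := Poly.fst (Poly.fst (Poly.snd Poly.id))
  have h2 : Poly (fun p : α × Cand m × Cand m => p.2.2.1) := Poly.fst (Poly.snd (Poly.snd Poly.id))
  have h3 : Poly (fun p : α × Cand m × Cand m => Z p.1) := hZ.comp (Poly.fst Poly.id)
  have h4 : Poly (fun p : α × Cand m × Cand m => dif s p.2.1.1 p.2.2.1 (Z p.1)) :=
    poly_dif h1 h2 h3
  have h5 : Poly (fun p : α × Cand m × Cand m => σ (dif s p.2.1.1 p.2.2.1 (Z p.1))) := hσ.comp h4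
  exact poly_best (lt := fun z (x y : Cand m) => σ (dif s x.1 y.1 (Z z))) hl h5

/-- the output of a candidate -/
noncomputable def outC (x : Cand m) : List ℕ × List ℕ := (toTour x.1 x.2.1, toTour x.1 x.2.2)

theorem poly_outC : Poly (outC : Cand m → List ℕ × List ℕ) := by
  have h1 : Poly (fun x : Cand m => x.1) := Poly.fst Poly.id
  have h2 : Poly (fun x : Cand m => x.2.1) := Poly.fst (Poly.snd Poly.id)
  have h3 : Poly (fun x : Cand m => x.2.2) := Poly.snd (Poly.snd Poly.id)
  exact Poly.pair (poly_toTour h1 h2) (poly_toTour h1 h3)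

theorem poly_algZ {σ : List (List ℤ) → Bool} (hσ : Poly σ) (tb : Tb m)
    {Z : α → List (List ℤ)} (hZ : Poly Z) : Poly (fun x => algZ σ s tb (Z x)) := by
  have h1 : Poly (fun z => best (fun x y : Cand m => σ (dif s x.1 y.1 (Z z)))
      (outs σ s tb (Z z))) := poly_bestZ hσ (poly_outs hσ tb hZ) hZ
  have h2 : Poly (fun p : α × Cand m => outC p.2) := poly_outC.comp (Poly.snd Poly.id)
  exact Poly.optMap (f := fun _ (x : Cand m) => outC x) h1 h2

/-! ### Scaling the points to integers -/

/-- common denominator -/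
def cden (P : List (List ℚ)) : ℕ := (P.flatMap fun p => p.map Rat.den).prod

/-- integer points -/
def ipts (P : List (List ℚ)) : List (List ℤ) := P.map fun p => p.map (Simplex.scale (cden P))

theorem poly_cden {P : α → List (List ℚ)} (hP : Poly P) : Poly (fun x => cden (P x)) :=
  poly_prodN (Poly.flatMap (F := fun _ p => p.map Rat.den) hP
    (Poly.map (l := fun q : α × List ℚ => q.2) (F := fun _ q => Rat.den q) (Poly.snd Poly.id)
      (poly_den (Poly.snd Poly.id))))

theorem poly_ipts {P : α → List (List ℚ)} (hP : Poly P) : Poly (fun x => ipts (P x)) := by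
  unfold ipts
  exact Poly.map (F := fun x p => p.map (Simplex.scale (cden (P x)))) hP
    (Poly.map (l := fun q : α × List ℚ => q.2) (F := fun q y => Simplex.scale (cden (P q.1)) y)
      (Poly.snd Poly.id) (poly_scale (poly_cden (hP.comp (Poly.fst (Poly.fst Poly.id))))
        (Poly.snd Poly.id)))

end alg

end Pool.Agent.NPC.H670R2
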