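import Pool.Agent.H670R2.PspGeo
import Pool.Agent.H670R2.PspPoly2

/-!
# Max-2-PSP under a polyhedral norm is solvable in polynomial time
-/

namespace Pool.Agent.H670R2.PSP

open Pool.Agent.NPC Pool.Agent.NPC.H670R2
open scoped Pointwise

variable {m s : ℕ}

/-! ### The gauge of a polyhedral ball -/

theorem hval_le_of_mem {A : Fin m → Fin s → ℝ} {B : Set (Fin s → ℝ)} (hB : IsPolyhedralBall A B)
    {x : Fin s → ℝ} {r : ℝ} (hr : 0 < r) (hx : x ∈ r • B) (l : Lb m) : hval A l x ≤ r := by
  obtain ⟨h1, h2, -⟩ := hB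
  obtain ⟨y, hy, rfl⟩ := hx
  have hy' := h2 y hy
  rw [h1] at hy hy'
  have e1 := hy l.1
  have e2 := hy' l.1
  have e3 : ∑ k, A l.1 k * (-y) k = -∑ k, A l.1 k * y k := by
    rw [← Finset.sum_neg_distrib]
    refine Finset.sum_congr rfl fun k _ => ?_
    rw [Pi.neg_apply]
    ring
  rw [e3] at e2
  have e4 : ∑ k, A l.1 k * (r • y) k = r * ∑ k, A l.1 k * y k := by
    rw [Finset.mul_sum]
    refine Finset.sum_congr rfl fun k _ => ?_
    rw [Pi.smul_apply, smul_eq_mul]
    ring
  unfold hval
  rw [e4]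
  split_ifs
  · nlinarith
  · nlinarith

theorem mem_smul_ball {A : Fin m → Fin s → ℝ} {B : Set (Fin s → ℝ)} (hB : IsPolyhedralBall A B)
    {x : Fin s → ℝ} {r : ℝ} (hr : 0 < r) (hx : ∀ l, hval A l x ≤ r) : x ∈ r • B := by
  obtain ⟨h1, -, -⟩ := hB
  rw [Set.mem_smul_set_iff_inv_smul_mem₀ hr.ne', h1]
  intro i
  have h2 := hx (i, true)
  unfold hval at h2
  simp only [if_true, one_mul] at h2
  have e4 : ∑ k, A i k * (r⁻¹ • x) k = r⁻¹ * ∑ k, A i k * x k := by
    rw [Finset.mul_sum]
    refine Finset.sum_congr rfl fun k _ => ?_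
    rw [Pi.smul_apply, smul_eq_mul]
    ring
  rw [e4, inv_mul_le_iff₀ hr, mul_one]
  exact h2

theorem hval_le_gauge {A : Fin m → Fin s → ℝ} {B : Set (Fin s → ℝ)} (hB : IsPolyhedralBall A B)
    (l : Lb m) (x : Fin s → ℝ) : hval A l x ≤ gauge B x := by
  rw [gauge_def]
  refine le_csInf ?_ ?_
  · have hfin : ∃ M : ℝ, ∀ l, hval A l x ≤ M := by
      obtain ⟨M, hM⟩ := (Set.finite_range fun l => hval A l x).bddAbove
      exact ⟨M, fun l => hM (Set.mem_range_self l)⟩
    obtain ⟨M, hM⟩ := hfin
    have hpos : (0 : ℝ) < max M 1 := lt_of_lt_of_le one_pos (le_max_right _ _)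
    exact ⟨max M 1, hpos, mem_smul_ball hB hpos fun l => (hM l).trans (le_max_left _ _)⟩
  · rintro r ⟨hr, hx⟩
    exact hval_le_of_mem hB hr hx l

theorem exists_hval_eq {A : Fin m → Fin s → ℝ} {B : Set (Fin s → ℝ)} (hB : IsPolyhedralBall A B)
    (hm : 0 < m) (x : Fin s → ℝ) : ∃ l, hval A l x = gauge B x := by
  have : Nonempty (Lb m) := ⟨(⟨0, hm⟩, true)⟩
  obtain ⟨l₀, hl₀⟩ := Finite.exists_max fun l : Lb m => hval A l x
  refine ⟨l₀, le_antisymm (hval_le_gauge hB l₀ x) ?_⟩
  have h0 : 0 ≤ hval A l₀ x := by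
    have := hl₀ (bar l₀)
    rw [hval_bar] at this
    linarith
  refine le_of_forall_pos_le_add fun ε hε => ?_
  refine gauge_le_of_mem (by linarith) (mem_smul_ball hB (by linarith) fun l => ?_)
  have := hl₀ l
  linarith

/-! ### The coordinates of the integer points -/

theorem ipts_spec (P : List (Fin s → ℚ)) :
    0 < cden (P.map List.ofFn) ∧ (ipts (P.map List.ofFn)).length = P.length ∧
    ∀ i < P.length, ∀ k : Fin s, ((((ipts (P.map List.ofFn)).getD i []).getD k 0 : ℤ) : ℝ) =
      (cden (P.map List.ofFn) : ℝ) * pt P i k := by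
  refine ⟨?_, by simp [ipts], ?_⟩
  · unfold cden
    refine List.prod_pos ?_
    intro a ha
    rw [List.mem_flatMap] at ha
    obtain ⟨p, -, ha⟩ := ha
    obtain ⟨q, -, rfl⟩ := List.mem_map.1 ha
    exact q.pos
  · intro i hi k
    have e1 : ((ipts (P.map List.ofFn)).getD i []) =
        (List.ofFn P[i]).map (Simplex.scale (cden (P.map List.ofFn))) := by
      rw [List.getD_eq_getElem _ _ (by simpa [ipts] using hi)]
      simp [ipts]
    have e2 : ((List.ofFn P[i]).map (Simplex.scale (cden (P.map List.ofFn)))).getD k 0 =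
        Simplex.scale (cden (P.map List.ofFn)) (P[i] k) := by
      rw [List.getD_eq_getElem _ _ (by simp)]
      simp
    rw [e1, e2, Simplex.scale_real]
    · unfold pt
      rw [List.getD_eq_getElem _ _ hi]
    · unfold cden
      refine List.dvd_prod ?_
      rw [List.mem_flatMap]
      refine ⟨List.ofFn P[i], List.mem_map_of_mem (List.getElem_mem hi), ?_⟩
      exact List.mem_map_of_mem (by rw [List.mem_ofFn]; exact ⟨k, rfl⟩)

/-! ### The main theorem -/

/-- the algorithm on bit strings -/
noncomputable def algBits (σ : List (List ℤ) → Bool) (s : ℕ) (tb : Tb m) (x : List Bool) :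
    Option (List ℕ × List ℕ) :=
  (unbits (List (List ℚ)) x).bind fun P => algZ σ s tb (ipts P)

theorem poly_algBits {σ : List (List ℤ) → Bool} (hσ : NPC.Poly σ) (tb : Tb m) :
    NPC.Poly (algBits σ s tb) :=
  NPC.Poly.optBind (f := fun _ P => algZ σ s tb (ipts P)) poly_unbits
    (poly_algZ hσ tb (poly_ipts (NPC.Poly.snd NPC.Poly.id)))

theorem solvable_of_signs {A : Fin m → Fin s → ℝ} {B : Set (Fin s → ℝ)}
    (hB : IsPolyhedralBall A B) (hA : PolyTimeSigns A) : PolyTimeSolvable B := by
  obtain ⟨F, hF, hFs⟩ := hA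
  rcases Nat.eq_zero_or_pos m with rfl | hm
  · -- no facets: dimension 0
    have hs : ∀ k : Fin s, False := by
      intro k
      obtain ⟨h1, -, h3⟩ := hB
      have hu : B = Set.univ := by
        rw [h1]
        ext x
        simp
      rw [hu] at h3
      have : Nontrivial (Fin s → ℝ) := by
        have : Nonempty (Fin s) := ⟨k⟩
        exact Function.nontrivial
      exact NormedSpace.unbounded_univ ℝ (Fin s → ℝ) h3
    refine ⟨fun _ => bits (none : Option (List ℕ × List ℕ)),
      polyTime_bits (NPC.Poly.const _), fun P hP => ⟨none, rfl, ?_⟩⟩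
    intro τ σ hf
    have h3 := hf.1
    have hsub : ∀ x y : Fin s → ℚ, x = y := fun x y => funext fun k => (hs k).elim
    have h01 : P[0] = P[1] := hsub _ _
    have := (List.Nodup.getElem_inj_iff hP).1 h01
    omega
  · have hσP : NPC.Poly (fun w : List (List ℤ) => decide (F (bits w) = [true])) :=
      NPC.Poly.decide_eq ((poly_raw hF).comp poly_bits) (NPC.Poly.const _)
    have hσ : ∀ z : Fin m → Fin s → ℤ,
        (fun w : List (List ℤ) => decide (F (bits w) = [true]))
          (List.ofFn fun i => List.ofFn (z i)) = true ↔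
        0 < ∑ i, ∑ k, A i k * (z i k : ℝ) := by
      intro z
      simp only [decide_eq_true_eq]
      exact hFs z
    obtain ⟨tb, htb⟩ := exists_table (L := Lb m) (bar := bar) bar_bar bar_ne
    refine ⟨fun x => bits (algBits (fun w => decide (F (bits w) = [true])) s tb x),
      polyTime_bits (poly_algBits hσP tb), fun P _ => ⟨_, rfl, ?_⟩⟩
    obtain ⟨p1, p2, p3⟩ := ipts_spec P
    have hspec := algZ_spec (A := A) (nrm := gauge B) (X := pt P)
      (σ := fun w => decide (F (bits w) = [true])) hσ
      (fun l x => hval_le_gauge hB l x) (fun x => exists_hval_eq hB hm x) (tb := tb) htb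
      (D := (cden (P.map List.ofFn) : ℝ)) (by exact_mod_cast p1)
      (Z := ipts (P.map List.ofFn)) (fun i hi k => p3 i (by rwa [p2] at hi) k)
    have e : algBits (fun w => decide (F (bits w) = [true])) s tb (bits (P.map List.ofFn)) =
        algZ (fun w => decide (F (bits w) = [true])) s tb (ipts (P.map List.ofFn)) := by
      unfold algBits
      rw [unbits_bits]
      rfl
    rw [e]
    rw [p2] at hspec
    cases ho : algZ (fun w => decide (F (bits w) = [true])) s tb (ipts (P.map List.ofFn)) with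
    | none =>
        rw [ho] at hspec
        exact hspec
    | some o =>
        rw [ho] at hspec
        exact hspec

/-! ### Rational matrices -/

theorem zipWith_ofFn {β γ δ : Type} (f : β → γ → δ) {k : ℕ} (a : Fin k → β) (b : Fin k → γ) :
    List.zipWith f (List.ofFn a) (List.ofFn b) = List.ofFn fun i => f (a i) (b i) := by
  refine List.ext_getElem (by simp) fun i h1 h2 => ?_
  simp

theorem signs_rat (A : Fin m → Fin s → ℚ) : PolyTimeSigns fun i k => (A i k : ℝ) := by
  set D : ℕ := ∏ i, ∏ k, (A i k).den with hD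
  have hDpos : 0 < D := Finset.prod_pos fun i _ => Finset.prod_pos fun k _ => (A i k).pos
  have hdvd : ∀ i k, (A i k).den ∣ D := fun i k =>
    (Finset.dvd_prod_of_mem (fun k => (A i k).den) (Finset.mem_univ k)).trans
      (Finset.dvd_prod_of_mem (fun i => ∏ k, (A i k).den) (Finset.mem_univ i))
  set N : List (List ℤ) := List.ofFn fun i => List.ofFn fun k => Simplex.scale D (A i k) with hN
  let g : List (List ℤ) → ℤ := fun w => (List.zipWith (fun r r' : List ℤ =>
    (List.zipWith (fun x y => x * y) r r').sum) N w).sum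
  have hg : NPC.Poly g := NPC.Poly.isum (NPC.Poly.zipWith (l := fun _ => N)
    (F := fun _ (r r' : List ℤ) => (List.zipWith (fun x y => x * y) r r').sum)
    (NPC.Poly.const _) NPC.Poly.id (NPC.Poly.dot (NPC.Poly.fst (NPC.Poly.snd NPC.Poly.id))
      (NPC.Poly.snd (NPC.Poly.snd NPC.Poly.id))))
  have hgz : ∀ z : Fin m → Fin s → ℤ, ((g (List.ofFn fun i => List.ofFn (z i)) : ℤ) : ℝ) =
      D * ∑ i, ∑ k, (A i k : ℝ) * (z i k : ℝ) := by
    intro z
    simp only [g, hN, zipWith_ofFn, List.sum_ofFn]
    push_cast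
    rw [Finset.mul_sum]
    refine Finset.sum_congr rfl fun i _ => ?_
    rw [Finset.mul_sum]
    refine Finset.sum_congr rfl fun k _ => ?_
    rw [Simplex.scale_real (hdvd i k)]
    ring
  refine ⟨fun x => [((unbits (List (List ℤ)) x).map fun w => decide (0 < g w)).getD false],
    polyTime_of_poly ?_, ?_⟩
  · refine (NPC.Poly.optCases (g := fun _ => false) (h := fun _ w => decide (0 < g w))
      (poly_unbits (α := List (List ℤ))) (NPC.Poly.const _)
      (NPC.Poly.ilt (NPC.Poly.const 0) (hg.comp (NPC.Poly.snd NPC.Poly.id)))).congr fun x => ?_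
    cases unbits (List (List ℤ)) x <;> rfl
  · intro z
    simp only [unbits_bits, Option.map_some, Option.getD_some, List.cons.injEq,
      decide_eq_true_eq, and_true]
    have h1 : (0 : ℝ) < D := by exact_mod_cast hDpos
    have h2 := hgz z
    constructor
    · intro h
      have h3 : (0 : ℝ) < ((g (List.ofFn fun i => List.ofFn (z i)) : ℤ) : ℝ) := by
        exact_mod_cast h
      rw [h2] at h3
      exact (mul_pos_iff_of_pos_left h1).1 h3
    · intro h
      have h3 := mul_pos h1 h
      rw [← h2] at h3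
      exact_mod_cast h3

end Pool.Agent.H670R2.PSP
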