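import Pool.Agent.H670R2.PspAlg
import Pool.Agent.H687R2.IntPoly
import Pool.Agent.NPC.CookLevin3

/-!
# The local search runs in polynomial time
-/

namespace Pool.Agent.NPC.H670R2

open Pool.Agent.NPC Pool.Agent.H670R2 Pool.Agent.H670R2.PSP

variable {α β γ E V L : Type} [TEnc α] [TEnc β] [TEnc γ] [TEnc E] [TEnc V] [TEnc L]

/-! ### General list functions -/

omit [TEnc β] in
theorem take_eq (l : List β) (i k : ℕ) :
    ((l.zipIdx k).filter fun q => decide (q.2 < k + i)).map Prod.fst = l.take i := by
  induction l generalizing i k with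
  | nil => simp
  | cons x l ih =>
      rw [List.zipIdx_cons]
      cases i with
      | zero =>
          rw [List.take_zero, List.map_eq_nil_iff, List.filter_eq_nil_iff]
          intro q hq
          rw [decide_eq_true_iff]
          rcases List.mem_cons.1 hq with rfl | hq
          · simp
          · have := List.le_snd_of_mem_zipIdx hq
            omega
      | succ i =>
          rw [List.filter_cons, if_pos (by simp), List.map_cons, List.take_succ_cons, ← ih i (k + 1)]
          congr 3
          funext q
          congr 1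
          rw [eq_iff_iff]
          omega

omit [TEnc β] in
theorem drop_eq (l : List β) (i k : ℕ) :
    ((l.zipIdx k).filter fun q => decide (k + i ≤ q.2)).map Prod.fst = l.drop i := by
  induction l generalizing i k with
  | nil => simp
  | cons x l ih =>
      rw [List.zipIdx_cons]
      cases i with
      | zero =>
          rw [List.drop_zero, List.filter_eq_self.2]
          · rw [List.map_cons]
            congr 1
            have := ih 0 (k + 1)
            rw [List.drop_zero, List.filter_eq_self.2] at this
            · exact this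
            · intro q hq
              have := List.le_snd_of_mem_zipIdx hq
              rw [decide_eq_true_iff]
              omega
          · intro q hq
            rw [decide_eq_true_iff]
            rcases List.mem_cons.1 hq with rfl | hq
            · simp
            · have := List.le_snd_of_mem_zipIdx hq
              omega
      | succ i =>
          rw [List.filter_cons, if_neg (by simp), List.drop_succ_cons, ← ih i (k + 1)]
          congr 2
          funext q
          congr 1
          rw [eq_iff_iff]
          omega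

theorem poly_take {l : α → List β} {n : α → ℕ} (hl : Poly l) (hn : Poly n) :
    Poly (fun a => (l a).take (n a)) := by
  refine (Poly.map (F := fun _ (q : β × ℕ) => q.1) (Poly.filter
    (p := fun a (q : β × ℕ) => decide (q.2 < n a)) (Poly.zipIdx hl)
    (Poly.decide_lt (Poly.snd (Poly.snd Poly.id)) (hn.comp (Poly.fst Poly.id))))
    (Poly.fst (Poly.snd Poly.id))).congr fun a => ?_
  have := take_eq (l a) (n a) 0
  simp only [Nat.zero_add] at this
  exact this

theorem poly_drop {l : α → List β} {n : α → ℕ} (hl : Poly l) (hn : Poly n) :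
    Poly (fun a => (l a).drop (n a)) := by
  refine (Poly.map (F := fun _ (q : β × ℕ) => q.1) (Poly.filter
    (p := fun a (q : β × ℕ) => decide (n a ≤ q.2)) (Poly.zipIdx hl)
    (Poly.decide_le (hn.comp (Poly.fst Poly.id)) (Poly.snd (Poly.snd Poly.id))))
    (Poly.fst (Poly.snd Poly.id))).congr fun a => ?_
  have := drop_eq (l a) (n a) 0
  simp only [Nat.zero_add] at this
  exact this

theorem poly_countP {l : α → List β} {q : α → β → Bool} (hl : Poly l)
    (hq : Poly (fun p : α × β => q p.1 p.2)) : Poly (fun a => (l a).countP (q a)) :=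
  (Poly.length (Poly.filter hl hq)).congr fun a => List.countP_eq_length_filter.symm

theorem poly_erase [DecidableEq β] {l : α → List β} {w : α → β} (hl : Poly l) (hw : Poly w) :
    Poly (fun a => (l a).erase (w a)) := by
  have key : ∀ (w : β) (l : List β), l.foldr (fun x (s : List β × List β) =>
      (if x = w then s.2 else x :: s.1, x :: s.2)) ([], []) = (l.erase w, l) := by
    intro w l
    induction l with
    | nil => rfl
    | cons x l ih =>
        rw [List.foldr_cons, ih, List.erase_cons]
        by_cases h : x = w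
        · simp [h]
        · have : (x == w) = false := by simpa using h
          rw [this, if_neg h]
          simp
  have hsz : ∀ (w : β) (l : List β), sz (l.erase w) ≤ sz l := by
    intro w l
    induction l with
    | nil => simp
    | cons x l ih =>
        rw [List.erase_cons]
        split_ifs
        · simp
          omega
        · simp
          omega
  obtain ⟨q, hq⟩ := hl.sz_le
  refine (Poly.fst (Poly.foldr (s := fun _ => (([], []) : List β × List β))
    (F := fun a x s => (if x = w a then s.2 else x :: s.1, x :: s.2)) hl (Poly.const _)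
    (Poly.pair (Poly.ite (p := fun p : α × β × (List β × List β) => p.2.1 = w p.1)
      (Poly.decide_eq (Poly.fst (Poly.snd Poly.id)) (hw.comp (Poly.fst Poly.id)))
      (Poly.snd (Poly.snd (Poly.snd Poly.id)))
      (Poly.cons (Poly.fst (Poly.snd Poly.id)) (Poly.fst (Poly.snd (Poly.snd Poly.id)))))
      (Poly.cons (Poly.fst (Poly.snd Poly.id)) (Poly.snd (Poly.snd (Poly.snd Poly.id)))))
    (Polynomial.C 2 * q + Polynomial.C 1) ?_)).congr fun a => ?_
  · intro a k hk
    rw [key]
    have h1 := hsz (w a) ((l a).drop k)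
    have h2 := Poly.sz_drop_le (l a) k
    have h3 := hq a
    simp only [sz_pair, Polynomial.eval_add, Polynomial.eval_mul, Polynomial.eval_C]
    omega
  · rw [key]

theorem poly_lin {M : α → List E} (hM : Poly M) : Poly (fun a => lin (M a)) :=
  Poly.zip hM (Poly.tail hM)

theorem poly_take1 {M : α → List E} (hM : Poly M) : Poly (fun a => (M a).take 1) :=
  poly_take hM (Poly.const 1)

theorem poly_bds {M : α → List E} (hM : Poly M) : Poly (fun a => bds (M a)) :=
  Poly.zip hM (Poly.append (Poly.tail hM) (poly_take1 hM))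

theorem poly_flip {e : α → V × Bool} (he : Poly e) : Poly (fun a => PSP.flip (e a)) :=
  Poly.pair (Poly.fst he) (Poly.not (Poly.snd he))

theorem poly_sw {d : α → (V × Bool) × (V × Bool)} (hd : Poly d) : Poly (fun a => sw (d a)) :=
  Poly.pair (poly_flip (Poly.snd hd)) (poly_flip (Poly.fst hd))

theorem poly_rev {M : α → List (V × Bool)} (hM : Poly M) : Poly (fun a => rev (M a)) :=
  Poly.reverse (Poly.map (F := fun _ e => PSP.flip e) hM (poly_flip (Poly.snd Poly.id)))

theorem poly_lf {p : V → L × L} (hp : Poly p) {e : α → V × Bool} (he : Poly e) :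
    Poly (fun a => lf p (e a)) := by
  unfold lf
  exact Poly.ite (p := fun a => (e a).2 = true) (Poly.decide_bool (Poly.snd he))
    (Poly.snd (hp.comp (Poly.fst he))) (Poly.fst (hp.comp (Poly.fst he)))

theorem poly_rt {p : V → L × L} (hp : Poly p) {e : α → V × Bool} (he : Poly e) :
    Poly (fun a => rt p (e a)) := by
  unfold rt
  exact Poly.ite (p := fun a => (e a).2 = true) (Poly.decide_bool (Poly.snd he))
    (Poly.fst (hp.comp (Poly.fst he))) (Poly.snd (hp.comp (Poly.fst he)))

theorem poly_seq [DecidableEq V] {u v u' v' : α → V} (hu : Poly u) (hv : Poly v) (hu' : Poly u')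
    (hv' : Poly v') : Poly (fun a => seq (u a) (v a) (u' a) (v' a)) :=
  Poly.or (Poly.and (Poly.decide_eq hu hu') (Poly.decide_eq hv hv'))
    (Poly.and (Poly.decide_eq hu hv') (Poly.decide_eq hv hu'))

theorem poly_adj [DecidableEq V] {N : α → List (V × Bool)} {u v : α → V} (hN : Poly N)
    (hu : Poly u) (hv : Poly v) : Poly (fun a => adj (N a) (u a) (v a)) :=
  Poly.any (p := fun a (d : (V × Bool) × (V × Bool)) => seq d.1.1 d.2.1 (u a) (v a))
    (poly_bds hN) (poly_seq (Poly.fst (Poly.fst (Poly.snd Poly.id)))
      (Poly.fst (Poly.snd (Poly.snd Poly.id))) (hu.comp (Poly.fst Poly.id))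
      (hv.comp (Poly.fst Poly.id)))

theorem poly_cnt [DecidableEq L] {p : V → L × L} (hp : Poly p) {x : α → L} {vs : α → List V}
    (hx : Poly x) (hvs : Poly vs) : Poly (fun a => cnt p (x a) (vs a)) :=
  Poly.add
    (poly_countP (q := fun a v => decide ((p v).1 = x a)) hvs
      (Poly.decide_eq (Poly.fst (hp.comp (Poly.snd Poly.id))) (hx.comp (Poly.fst Poly.id))))
    (poly_countP (q := fun a v => decide ((p v).2 = x a)) hvs
      (Poly.decide_eq (Poly.snd (hp.comp (Poly.snd Poly.id))) (hx.comp (Poly.fst Poly.id))))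

theorem poly_vts {M : α → List (V × Bool)} (hM : Poly M) : Poly (fun a => (M a).map Prod.fst) :=
  Poly.map (F := fun _ (e : V × Bool) => e.1) hM (Poly.fst (Poly.snd Poly.id))

theorem poly_frq [DecidableEq L] {p : V → L × L} (hp : Poly p) {O : α → List (V × Bool)}
    {x : α → L} (hO : Poly O) (hx : Poly x) : Poly (fun a => frq p (O a) (x a)) :=
  Poly.decide_le (Poly.const 13) (poly_cnt hp hx (poly_vts hO))

theorem poly_alw [DecidableEq V] [DecidableEq L] {p : V → L × L} (hp : Poly p) {bar : L → L}
    (hb : Poly bar) {O : α → List (V × Bool)} {d : α → (V × Bool) × (V × Bool)} (hO : Poly O)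
    (hd : Poly d) : Poly (fun a => alw p bar (O a) (d a)) :=
  Poly.and (Poly.decide_eq (poly_lf hp (Poly.snd hd)) (hb.comp (poly_rt hp (Poly.fst hd))))
    (Poly.or (poly_frq hp hO (poly_rt hp (Poly.fst hd)))
      (poly_adj hO (Poly.fst (Poly.fst hd)) (Poly.fst (Poly.snd hd))))

theorem poly_splits {M : α → List E} (hM : Poly M) : Poly (fun a => splits (M a)) := by
  unfold splits
  exact Poly.map (F := fun a i => ((M a).take i, (M a).drop i))
    (UPoly.range (UPoly.add (UPoly.length hM) (UPoly.const 1)))
    (Poly.pair (poly_take (hM.comp (Poly.fst Poly.id)) (Poly.snd Poly.id))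
      (poly_drop (hM.comp (Poly.fst Poly.id)) (Poly.snd Poly.id)))

theorem poly_rots {M : α → List E} (hM : Poly M) : Poly (fun a => rots (M a)) :=
  Poly.map (F := fun _ (q : List E × List E) => q.2 ++ q.1) (poly_splits hM)
    (Poly.append (Poly.snd (Poly.snd Poly.id)) (Poly.fst (Poly.snd Poly.id)))

theorem poly_nb0 {M : α → List (V × Bool)} (hM : Poly M) : Poly (fun a => nb0 (M a)) :=
  Poly.flatMap (F := fun _ (q : List (V × Bool) × List (V × Bool)) =>
    (rev q.1 ++ q.2) :: (splits q.2).map fun r => q.1 ++ (r.2 ++ r.1)) (poly_splits hM)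
    (Poly.cons (Poly.append (poly_rev (Poly.fst (Poly.snd Poly.id))) (Poly.snd (Poly.snd Poly.id)))
      (Poly.map (F := fun (p : α × (List (V × Bool) × List (V × Bool)))
          (r : List (V × Bool) × List (V × Bool)) => p.2.1 ++ (r.2 ++ r.1))
        (poly_splits (Poly.snd (Poly.snd Poly.id)))
        (Poly.append (Poly.fst (Poly.snd (Poly.fst Poly.id)))
          (Poly.append (Poly.snd (Poly.snd Poly.id)) (Poly.fst (Poly.snd Poly.id))))))

theorem poly_nb {M : α → List (V × Bool)} (hM : Poly M) : Poly (fun a => nb (M a)) :=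
  Poly.flatMap (F := fun _ (q : List (V × Bool) × List (V × Bool)) => nb0 (q.2 ++ q.1))
    (poly_splits hM)
    (poly_nb0 (Poly.append (Poly.snd (Poly.snd Poly.id)) (Poly.fst (Poly.snd Poly.id))))

section loops

variable [DecidableEq V] [DecidableEq L] {P : α → (V × Bool) × (V × Bool) → Bool}
  {G : α → V → V → Bool}

theorem poly_conf (hG : Poly (fun p : α × V × V => G p.1 p.2.1 p.2.2))
    {M : α → List ((V × Bool) × (V × Bool))} (hM : Poly M) : Poly (fun a => conf (G a) (M a)) :=
  poly_countP (q := fun a (d : (V × Bool) × (V × Bool)) => G a d.1.1 d.2.1) hM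
    (hG.comp (Poly.pair (Poly.fst Poly.id) (Poly.pair (Poly.fst (Poly.fst (Poly.snd Poly.id)))
      (Poly.fst (Poly.snd (Poly.snd Poly.id))))))

theorem poly_goodB (hP : Poly (fun p : α × ((V × Bool) × (V × Bool)) => P p.1 p.2))
    (hG : Poly (fun p : α × V × V => G p.1 p.2.1 p.2.2)) {M M' : α → List (V × Bool)}
    (hM : Poly M) (hM' : Poly M') : Poly (fun a => goodB (P a) (G a) (M a) (M' a)) := by
  unfold goodB
  refine Poly.and (Poly.all (p := fun a d => P a d) (poly_bds hM') hP) (Poly.and
    (Poly.decide_lt (poly_conf hG (poly_bds hM')) (poly_conf hG (poly_bds hM))) ?_)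
  refine Poly.all (p := fun a (d : (V × Bool) × (V × Bool)) => !(G a d.1.1 d.2.1) ||
    (bds (M a)).any fun d₀ => decide (d = d₀) || decide (d = sw d₀)) (poly_bds hM') ?_
  refine Poly.or (Poly.not (hG.comp (Poly.pair (Poly.fst Poly.id)
    (Poly.pair (Poly.fst (Poly.fst (Poly.snd Poly.id)))
      (Poly.fst (Poly.snd (Poly.snd Poly.id))))))) ?_
  exact Poly.any (l := fun p : α × ((V × Bool) × (V × Bool)) => bds (M p.1))
    (p := fun p d₀ => decide (p.2 = d₀) || decide (p.2 = sw d₀))
    (poly_bds (hM.comp (Poly.fst Poly.id)))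
    (Poly.or (Poly.decide_eq (Poly.snd (Poly.fst Poly.id)) (Poly.snd Poly.id))
      (Poly.decide_eq (Poly.snd (Poly.fst Poly.id)) (poly_sw (Poly.snd Poly.id))))

theorem poly_headD {l : α → List β} {d : α → β} (hl : Poly l) (hd : Poly d) :
    Poly (fun a => ((l a).head?).getD (d a)) :=
  (Poly.optCases (h := fun _ b => b) (Poly.head? hl) hd (Poly.snd Poly.id)).congr fun a => by
    cases (l a).head? <;> rfl

theorem poly_fixStep (hP : Poly (fun p : α × ((V × Bool) × (V × Bool)) => P p.1 p.2))
    (hG : Poly (fun p : α × V × V => G p.1 p.2.1 p.2.2)) {M : α → List (V × Bool)}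
    (hM : Poly M) : Poly (fun a => fixStep (P a) (G a) (M a)) := by
  unfold fixStep
  refine poly_headD (Poly.filter (p := fun a M' => goodB (P a) (G a) (M a) M') (poly_nb hM) ?_) hM
  refine poly_goodB (P := fun (p : α × List (V × Bool)) => P p.1)
    (G := fun (p : α × List (V × Bool)) => G p.1) ?_ ?_ (hM.comp (Poly.fst Poly.id))
    (Poly.snd Poly.id)
  · exact hP.comp (Poly.pair (Poly.fst (Poly.fst Poly.id)) (Poly.snd Poly.id))
  · exact hG.comp (Poly.pair (Poly.fst (Poly.fst Poly.id)) (Poly.snd Poly.id))

omit [DecidableEq V] in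
theorem sz_perm_le {M M' : List (V × Bool)} (h : (M'.map Prod.fst).Perm (M.map Prod.fst)) :
    sz M' ≤ sz M * (sz M + 5) + 1 := by
  have h1 := sz_le_length_mul M' (sz M + 4) (by
    intro e he
    have h2 : e.1 ∈ M.map Prod.fst := h.mem_iff.1 (List.mem_map_of_mem he)
    rw [List.mem_map] at h2
    obtain ⟨e', he', h3⟩ := h2
    have h4 := sz_le_of_mem he'
    have h5 : sz e' = sz e'.1 + sz e'.2 + 1 := sz_pair _ _
    have h6 : sz e = sz e.1 + sz e.2 + 1 := sz_pair _ _
    have h7 := sz_bool_le e.2
    rw [h3] at h5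
    omega)
  have h2 : M'.length = M.length := by
    have := h.length_eq
    simpa using this
  have h3 := length_lt_sz M
  rw [h2] at h1
  refine h1.trans ?_
  have : M.length * (sz M + 4 + 1) ≤ sz M * (sz M + 5) := Nat.mul_le_mul h3.le (by omega)
  omega

theorem poly_fixTour (hP : Poly (fun p : α × ((V × Bool) × (V × Bool)) => P p.1 p.2))
    (hG : Poly (fun p : α × V × V => G p.1 p.2.1 p.2.2)) {M : α → List (V × Bool)}
    (hM : Poly M) : Poly (fun a => fixTour (P a) (G a) (M a)) := by
  unfold fixTour
  obtain ⟨q, hq⟩ := hM.sz_le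
  refine Poly.iterLen (F := fun a M => fixStep (P a) (G a) M) hM hM ?_
    (q * (q + Polynomial.C 5) + Polynomial.C 1) ?_
  · refine poly_fixStep (P := fun (p : α × List (V × Bool)) => P p.1)
      (G := fun (p : α × List (V × Bool)) => G p.1) ?_ ?_ (Poly.snd Poly.id)
    · exact hP.comp (Poly.pair (Poly.fst (Poly.fst Poly.id)) (Poly.snd Poly.id))
    · exact hG.comp (Poly.pair (Poly.fst (Poly.fst Poly.id)) (Poly.snd Poly.id))
  · intro a k hk
    have h1 := sz_perm_le (fixIter_perm (P a) (G a) (M a) k)
    have h2 := hq a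
    simp only [Polynomial.eval_add, Polynomial.eval_mul, Polynomial.eval_C]
    refine h1.trans ?_
    have := Nat.mul_le_mul h2 (Nat.add_le_add_right h2 5)
    omega

theorem poly_extCands {s : α → List (V × Bool) × List V} (hs : Poly s) :
    Poly (fun a => extCands (s a)) := by
  unfold extCands
  refine Poly.flatMap (F := fun a R => (s a).2.flatMap fun w =>
    [(R ++ [(w, false)], (s a).2.erase w), (R ++ [(w, true)], (s a).2.erase w)])
    (Poly.append (poly_rots (Poly.fst hs)) (poly_rots (poly_rev (Poly.fst hs)))) ?_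
  refine Poly.flatMap (l := fun p : α × List (V × Bool) => (s p.1).2)
    (F := fun p w => [(p.2 ++ [(w, false)], (s p.1).2.erase w),
      (p.2 ++ [(w, true)], (s p.1).2.erase w)]) (Poly.snd (hs.comp (Poly.fst Poly.id))) ?_
  have h1 : Poly (fun q : (α × List (V × Bool)) × V => (s q.1.1).2.erase q.2) :=
    poly_erase (Poly.snd (hs.comp (Poly.fst (Poly.fst Poly.id)))) (Poly.snd Poly.id)
  have h2 : ∀ b : Bool, Poly (fun q : (α × List (V × Bool)) × V => q.1.2 ++ [(q.2, b)]) :=
    fun b => Poly.append (Poly.snd (Poly.fst Poly.id))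
      (Poly.cons (Poly.pair (Poly.snd Poly.id) (Poly.const b)) (Poly.const []))
  exact Poly.cons (Poly.pair (h2 false) h1) (Poly.cons (Poly.pair (h2 true) h1) (Poly.const []))

variable {p : V → L × L} {freq : α → L → Bool}

omit [DecidableEq V] [DecidableEq L] in
theorem poly_okB (hp : Poly p)
    (hP : Poly (fun p : α × ((V × Bool) × (V × Bool)) => P p.1 p.2))
    (hf : Poly (fun p : α × L => freq p.1 p.2)) {N : α → List (V × Bool)} (hN : Poly N) :
    Poly (fun a => okB p (P a) (freq a) (N a)) := by
  unfold okB
  refine Poly.and (Poly.all (p := fun a d => P a d) (poly_lin hN) hP)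
    (Poly.or (Poly.all (p := fun a x => freq a (lf p x)) (poly_take1 hN) ?_)
      (Poly.all (p := fun a d => P a d) (poly_bds hN) hP))
  exact hf.comp (Poly.pair (Poly.fst Poly.id) (poly_lf hp (Poly.snd Poly.id)))

omit [DecidableEq L] in
theorem poly_extStep (hp : Poly p)
    (hP : Poly (fun p : α × ((V × Bool) × (V × Bool)) => P p.1 p.2))
    (hf : Poly (fun p : α × L => freq p.1 p.2)) {s : α → List (V × Bool) × List V}
    (hs : Poly s) : Poly (fun a => extStep p (P a) (freq a) (s a)) := by
  unfold extStep
  refine poly_headD (Poly.filter (p := fun a (t : List (V × Bool) × List V) =>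
    okB p (P a) (freq a) t.1) (poly_extCands hs) ?_) hs
  refine poly_okB (P := fun (q : α × (List (V × Bool) × List V)) => P q.1)
    (freq := fun (q : α × (List (V × Bool) × List V)) => freq q.1) hp ?_ ?_
    (Poly.fst (Poly.snd Poly.id))
  · exact hP.comp (Poly.pair (Poly.fst (Poly.fst Poly.id)) (Poly.snd Poly.id))
  · exact hf.comp (Poly.pair (Poly.fst (Poly.fst Poly.id)) (Poly.snd Poly.id))

omit [DecidableEq V] in
theorem sz_perm_le2 {s s' : List (V × Bool) × List V}
    (h : (s'.1.map Prod.fst ++ s'.2).Perm (s.1.map Prod.fst ++ s.2)) :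
    sz s' ≤ 2 * (sz s * (sz s + 5)) + 3 := by
  have hs : sz s = sz s.1 + sz s.2 + 1 := sz_pair _ _
  have hs' : sz s' = sz s'.1 + sz s'.2 + 1 := sz_pair _ _
  have hmem : ∀ v ∈ s'.1.map Prod.fst ++ s'.2, sz v ≤ sz s := by
    intro v hv
    rw [h.mem_iff, List.mem_append, List.mem_map] at hv
    rcases hv with ⟨e, he, rfl⟩ | hv
    · have h4 := sz_le_of_mem he
      have h5 : sz e = sz e.1 + sz e.2 + 1 := sz_pair _ _
      omega
    · have h4 := sz_le_of_mem hv
      omega
  have hlen : s'.1.length + s'.2.length ≤ sz s := by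
    have h1 := h.length_eq
    simp only [List.length_append, List.length_map] at h1
    have h2 := length_lt_sz s.1
    have h3 := length_lt_sz s.2
    omega
  have h1 := sz_le_length_mul s'.1 (sz s + 4) (by
    intro e he
    have h2 := hmem e.1 (List.mem_append_left _ (List.mem_map_of_mem he))
    have h6 : sz e = sz e.1 + sz e.2 + 1 := sz_pair _ _
    have h7 := sz_bool_le e.2
    omega)
  have h2 := sz_le_length_mul s'.2 (sz s + 4) (by
    intro v hv
    have := hmem v (List.mem_append_right _ hv)
    omega)
  have h3 : s'.1.length * (sz s + 4 + 1) ≤ sz s * (sz s + 5) := Nat.mul_le_mul (by omega) (by omega)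
  have h4 : s'.2.length * (sz s + 4 + 1) ≤ sz s * (sz s + 5) := Nat.mul_le_mul (by omega) (by omega)
  omega

omit [DecidableEq L] in
theorem poly_extTour (hp : Poly p)
    (hP : Poly (fun p : α × ((V × Bool) × (V × Bool)) => P p.1 p.2))
    (hf : Poly (fun p : α × L => freq p.1 p.2)) {M : α → List (V × Bool)} {U : α → List V}
    (hM : Poly M) (hU : Poly U) : Poly (fun a => extTour p (P a) (freq a) (M a) (U a)) := by
  unfold extTour
  obtain ⟨q, hq⟩ := (Poly.pair hM hU).sz_le
  refine Poly.fst (Poly.iterLen (s := fun a => (M a, U a))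
    (F := fun a s => extStep p (P a) (freq a) s) hU (Poly.pair hM hU) ?_
    (Polynomial.C 2 * (q * (q + Polynomial.C 5)) + Polynomial.C 3) ?_)
  · refine poly_extStep (P := fun (q : α × (List (V × Bool) × List V)) => P q.1)
      (freq := fun (q : α × (List (V × Bool) × List V)) => freq q.1) hp ?_ ?_ (Poly.snd Poly.id)
    · exact hP.comp (Poly.pair (Poly.fst (Poly.fst Poly.id)) (Poly.snd Poly.id))
    · exact hf.comp (Poly.pair (Poly.fst (Poly.fst Poly.id)) (Poly.snd Poly.id))
  · intro a k hk
    have h1 := sz_perm_le2 (extIter_perm p (P a) (freq a) (M a, U a) k)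
    have h2 := hq a
    simp only [Polynomial.eval_add, Polynomial.eval_mul, Polynomial.eval_C]
    refine h1.trans ?_
    have := Nat.mul_le_mul h2 (Nat.add_le_add_right h2 5)
    omega

end loops

end Pool.Agent.NPC.H670R2
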