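import Pool.Agent.H670R2.PspExt

/-!
# The insertion theorem
-/

namespace Pool.Agent.H670R2.PSP

variable {E V L : Type}

/-- equality of unordered pairs -/
def seq [DecidableEq V] (u v u' v' : V) : Bool :=
  (decide (u = u') && decide (v = v')) || (decide (u = v') && decide (v = u'))

theorem seq_iff [DecidableEq V] {u v u' v' : V} : seq u v u' v' = true ↔ s(u, v) = s(u', v') := by
  unfold seq
  simp only [Bool.or_eq_true, Bool.and_eq_true, decide_eq_true_eq, Sym2.eq_iff]

/-- the edge of a boundary -/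
def edge (d : (V × Bool) × (V × Bool)) : Sym2 V := s(d.1.1, d.2.1)

@[simp] theorem edge_sw (d : (V × Bool) × (V × Bool)) : edge (sw d) = edge d := Sym2.eq_swap

/-- adjacency in a tour -/
def adj [DecidableEq V] (N : List (V × Bool)) (u v : V) : Bool :=
  (bds N).any fun d => seq d.1.1 d.2.1 u v

theorem adj_iff [DecidableEq V] {N : List (V × Bool)} {u v : V} :
    adj N u v = true ↔ ∃ d ∈ bds N, edge d = s(u, v) := by
  unfold adj
  rw [List.any_eq_true]
  simp only [seq_iff]
  rfl

theorem adj_symm [DecidableEq V] (N : List (V × Bool)) (u v : V) : adj N u v = adj N v u := by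
  rw [Bool.eq_iff_iff, adj_iff, adj_iff, Sym2.eq_swap]

theorem countP_le_one {α : Type} {l : List α} (hl : l.Nodup) {q : α → Bool}
    (h : ∀ x ∈ l, ∀ y ∈ l, q x = true → q y = true → x = y) : l.countP q ≤ 1 := by
  induction l with
  | nil => simp
  | cons x l ih =>
      rw [List.nodup_cons] at hl
      have ih' := ih hl.2 fun y hy z hz => h y (by simp [hy]) z (by simp [hz])
      rw [List.countP_cons]
      split_ifs with hx
      · have : l.countP q = 0 := by
          rw [List.countP_eq_zero]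
          intro y hy hqy
          have := h x (by simp) y (by simp [hy]) hx hqy
          rw [this] at hl
          exact hl.1 hy
        omega
      · omega

theorem adj_deg [DecidableEq V] {N : List (V × Bool)} (hN : (N.map Prod.fst).Nodup)
    {vs : List V} (hvs : vs.Nodup) (u : V) : vs.countP (fun v => adj N u v) ≤ 2 := by
  have h1 : vs.countP (fun v => (bds N).any fun d => decide (d.1.1 = u) && decide (d.2.1 = v))
      ≤ 1 := by
    refine countP_le_one hvs ?_
    intro v _ w _ hv hw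
    simp only [List.any_eq_true, Bool.and_eq_true, decide_eq_true_eq] at hv hw
    obtain ⟨d, hd, h1, h2⟩ := hv
    obtain ⟨d', hd', h1', h2'⟩ := hw
    have hnd : ((bds N).map fun d => d.1.1).Nodup := by
      have : (bds N).map (fun d => d.1.1) = N.map Prod.fst := by
        conv_rhs => rw [← bds_map_fst N, List.map_map]
        rfl
      rw [this]
      exact hN
    have := List.inj_on_of_nodup_map hnd hd hd' (by rw [h1, h1'])
    rw [← h2, ← h2', this]
  have h2 : vs.countP (fun v => (bds N).any fun d => decide (d.2.1 = u) && decide (d.1.1 = v))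
      ≤ 1 := by
    refine countP_le_one hvs ?_
    intro v _ w _ hv hw
    simp only [List.any_eq_true, Bool.and_eq_true, decide_eq_true_eq] at hv hw
    obtain ⟨d, hd, h1, h2⟩ := hv
    obtain ⟨d', hd', h1', h2'⟩ := hw
    have hnd : ((bds N).map fun d => d.2.1).Nodup := by
      have : ((bds N).map (fun d => d.2.1)).Perm (N.map Prod.fst) := by
        have := (bds_map_snd_perm N).map Prod.fst
        rw [List.map_map] at this
        exact this
      exact this.symm.nodup hN
    have := List.inj_on_of_nodup_map hnd hd hd' (by rw [h1, h1'])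
    rw [← h2, ← h2', this]
  have h3 : vs.countP (fun v => adj N u v) ≤ vs.countP (fun v =>
      ((bds N).any fun d => decide (d.1.1 = u) && decide (d.2.1 = v)) ||
      ((bds N).any fun d => decide (d.2.1 = u) && decide (d.1.1 = v))) := by
    refine List.countP_mono_left fun v _ hv => ?_
    rw [adj_iff] at hv
    obtain ⟨d, hd, he⟩ := hv
    unfold edge at he
    rw [Sym2.eq_iff] at he
    simp only [Bool.or_eq_true, List.any_eq_true, Bool.and_eq_true, decide_eq_true_eq]
    rcases he with ⟨h1, h2⟩ | ⟨h1, h2⟩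
    · exact Or.inl ⟨d, hd, h1, h2⟩
    · exact Or.inr ⟨d, hd, h2, h1⟩
  have h4 := countP_or_le (fun v : V =>
      ((bds N).any fun d => decide (d.1.1 = u) && decide (d.2.1 = v)))
      (fun v => ((bds N).any fun d => decide (d.2.1 = u) && decide (d.1.1 = v))) vs
  omega

section

variable [DecidableEq V] [DecidableEq L]

/-- frequent labels -/
def frq (p : V → L × L) (O : List (V × Bool)) (a : L) : Bool :=
  decide (13 ≤ cnt p a (O.map Prod.fst))

/-- allowed boundaries -/
def alw (p : V → L × L) (bar : L → L) (O : List (V × Bool)) (d : (V × Bool) × (V × Bool)) :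
    Bool :=
  decide (lf p d.2 = bar (rt p d.1)) && (frq p O (rt p d.1) || adj O d.1.1 d.2.1)

/-- closed labelled tours -/
def Closed (p : V → L × L) (bar : L → L) (M : List (V × Bool)) : Prop :=
  ∀ d ∈ bds M, lf p d.2 = bar (rt p d.1)

/-- the extension of a tour -/
def ext1 (p : V → L × L) (bar : L → L) (O : List (V × Bool)) (U : List V) : List (V × Bool) :=
  extTour p (alw p bar O) (frq p O) O U

/-- repairing a tour -/
def fix1 (p : V → L × L) (bar : L → L) (O M N : List (V × Bool)) : List (V × Bool) :=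
  fixTour (alw p bar O) (adj N) M

variable {p : V → L × L} {bar : L → L}

theorem frq_bar (hbar : ∀ a, bar (bar a) = a) {O : List (V × Bool)} (hO : Closed p bar O) {a : L}
    (h : frq p O a = true) : frq p O (bar a) = true := by
  unfold frq at h ⊢
  rwa [cnt_bar hbar hO]

theorem alw_sw (hbar : ∀ a, bar (bar a) = a) {O : List (V × Bool)} (hO : Closed p bar O)
    (d : (V × Bool) × (V × Bool)) (h : alw p bar O d = true) : alw p bar O (sw d) = true := by
  unfold alw at h ⊢
  simp only [Bool.and_eq_true, Bool.or_eq_true, decide_eq_true_eq] at h ⊢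
  obtain ⟨h1, h2⟩ := h
  refine ⟨?_, ?_⟩
  · simp only [sw, lf_flip, rt_flip]
    rw [h1, hbar]
  · rcases h2 with h2 | h2
    · left
      simp only [sw, rt_flip]
      rw [h1]
      exact frq_bar hbar hO h2
    · right
      rw [adj_symm]
      exact h2

theorem alw_comp {O : List (V × Bool)} (d : (V × Bool) × (V × Bool))
    (h : alw p bar O d = true) : lf p d.2 = bar (rt p d.1) := by
  unfold alw at h
  simp only [Bool.and_eq_true, decide_eq_true_eq] at h
  exact h.1

theorem alw_frq {O : List (V × Bool)} (d : (V × Bool) × (V × Bool))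
    (h : lf p d.2 = bar (rt p d.1)) (h' : frq p O (rt p d.1) = true) : alw p bar O d = true := by
  unfold alw
  simp only [Bool.and_eq_true, Bool.or_eq_true, decide_eq_true_eq]
  exact ⟨h, Or.inl h'⟩

theorem alw_self {O : List (V × Bool)} (hO : Closed p bar O) (d : (V × Bool) × (V × Bool))
    (h : d ∈ bds O) : alw p bar O d = true := by
  unfold alw
  simp only [Bool.and_eq_true, Bool.or_eq_true, decide_eq_true_eq]
  exact ⟨hO d h, Or.inr (adj_iff.2 ⟨d, h, rfl⟩)⟩

theorem alw_rare {O : List (V × Bool)} {d : (V × Bool) × (V × Bool)}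
    (h : alw p bar O d = true) (h' : frq p O (rt p d.1) = false) :
    ∃ e ∈ bds O, edge e = edge d := by
  unfold alw at h
  simp only [Bool.and_eq_true, Bool.or_eq_true, decide_eq_true_eq] at h
  rcases h.2 with h2 | h2
  · rw [h2] at h'
    exact absurd h' (by simp)
  · exact adj_iff.1 h2

theorem ext1_spec (hbar : ∀ a, bar (bar a) = a) (hne : ∀ a, bar a ≠ a) {O : List (V × Bool)}
    {U : List V} (hO : Closed p bar O)
    (hbal : ∀ a, cnt p a (O.map Prod.fst ++ U) = cnt p (bar a) (O.map Prod.fst ++ U))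
    (hfU : ∀ w ∈ U, frq p O (p w).1 = true ∧ frq p O (p w).2 = true) :
    ((ext1 p bar O U).map Prod.fst).Perm (O.map Prod.fst ++ U) ∧
    (∀ d ∈ bds (ext1 p bar O U), alw p bar O d = true) := by
  unfold ext1
  refine extTour_spec hbar hne (alw_sw hbar hO) alw_comp alw_frq
    (fun a => frq_bar hbar hO) (alw_self hO) hbal hfU ?_
  intro a ha
  unfold frq at ha
  rw [decide_eq_true_iff] at ha
  omega

theorem fix1_spec (hbar : ∀ a, bar (bar a) = a) (hne : ∀ a, bar a ≠ a) {O M N : List (V × Bool)}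
    {U : List V} (hO : Closed p bar O) (hMU : (M.map Prod.fst).Perm (O.map Prod.fst ++ U))
    (hM : ∀ d ∈ bds M, alw p bar O d = true) (hMn : (M.map Prod.fst).Nodup)
    (hNn : (N.map Prod.fst).Nodup) :
    ((fix1 p bar O M N).map Prod.fst).Perm (M.map Prod.fst) ∧
    (∀ d ∈ bds (fix1 p bar O M N), alw p bar O d = true) ∧
    (∀ d ∈ bds (fix1 p bar O M N), adj N d.1.1 d.2.1 = true → frq p O (rt p d.1) = false) ∧
    (∀ d ∈ bds (fix1 p bar O M N), adj N d.1.1 d.2.1 = true → ∃ d₀ ∈ bds M, edge d = edge d₀) := by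
  unfold fix1
  obtain ⟨h1, h2, h3, h4⟩ := fixTour_spec (p := p) (bar := bar) hbar hne
    (P := alw p bar O) (G := adj N) (freq := frq p O) (alw_sw hbar hO) alw_comp alw_frq
    (fun a => frq_bar hbar hO) (adj_symm N) (M := M) (adj_deg hNn hMn) (by
      intro a ha
      unfold frq at ha
      rw [decide_eq_true_iff] at ha
      rw [cnt_perm a hMU, cnt_append]
      omega) hM
  refine ⟨h1, h2, h3, ?_⟩
  intro d hd hG
  obtain ⟨d₀, hd₀, h⟩ := h4 d hd hG
  refine ⟨d₀, hd₀, ?_⟩
  rcases h with rfl | rfl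
  · rfl
  · exact edge_sw d₀

/-- a realisation: two closed labelled tours on `vs` without common edge -/
def Realn (p₁ p₂ : V → L × L) (bar : L → L) (vs : List V) (M₁ M₂ : List (V × Bool)) : Prop :=
  (M₁.map Prod.fst).Perm vs ∧ (M₂.map Prod.fst).Perm vs ∧ Closed p₁ bar M₁ ∧ Closed p₂ bar M₂ ∧
    ∀ d ∈ bds M₁, ∀ d' ∈ bds M₂, edge d ≠ edge d'

/-- the extended pair of tours -/
def realize (p₁ p₂ : V → L × L) (bar : L → L) (O₁ O₂ : List (V × Bool)) (U : List V) :
    List (V × Bool) × List (V × Bool) :=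
  let M₁ := ext1 p₁ bar O₁ U
  let M₂ := ext1 p₂ bar O₂ U
  let N₁ := fix1 p₁ bar O₁ M₁ M₂
  (N₁, fix1 p₂ bar O₂ M₂ N₁)

/-- **Insertion theorem.** -/
theorem realize_spec {p₁ p₂ : V → L × L} (hbar : ∀ a, bar (bar a) = a) (hne : ∀ a, bar a ≠ a)
    {vs U : List V} {O₁ O₂ : List (V × Bool)} (hO : Realn p₁ p₂ bar vs O₁ O₂)
    (hnd : (vs ++ U).Nodup)
    (hbal₁ : ∀ a, cnt p₁ a (vs ++ U) = cnt p₁ (bar a) (vs ++ U))
    (hbal₂ : ∀ a, cnt p₂ a (vs ++ U) = cnt p₂ (bar a) (vs ++ U))
    (hfr : ∀ w ∈ U, 13 ≤ vs.countP fun v => decide (p₁ v = p₁ w) && decide (p₂ v = p₂ w)) :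
    Realn p₁ p₂ bar (vs ++ U) (realize p₁ p₂ bar O₁ O₂ U).1 (realize p₁ p₂ bar O₁ O₂ U).2 := by
  obtain ⟨o1, o2, o3, o4, o5⟩ := hO
  have hc1 : ∀ w ∈ U, frq p₁ O₁ (p₁ w).1 = true ∧ frq p₁ O₁ (p₁ w).2 = true := by
    intro w hw
    have h := hfr w hw
    unfold frq
    rw [decide_eq_true_iff, decide_eq_true_iff, cnt_perm _ o1, cnt_perm _ o1]
    have h1 : vs.countP (fun v => decide (p₁ v = p₁ w) && decide (p₂ v = p₂ w)) ≤
        vs.countP (fun v => decide ((p₁ v).1 = (p₁ w).1)) :=
      List.countP_mono_left fun v _ h => by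
        simp only [Bool.and_eq_true, decide_eq_true_eq] at h ⊢
        rw [h.1]
    have h2 : vs.countP (fun v => decide (p₁ v = p₁ w) && decide (p₂ v = p₂ w)) ≤
        vs.countP (fun v => decide ((p₁ v).2 = (p₁ w).2)) :=
      List.countP_mono_left fun v _ h => by
        simp only [Bool.and_eq_true, decide_eq_true_eq] at h ⊢
        rw [h.1]
    unfold cnt
    constructor <;> omega
  have hc2 : ∀ w ∈ U, frq p₂ O₂ (p₂ w).1 = true ∧ frq p₂ O₂ (p₂ w).2 = true := by
    intro w hw
    have h := hfr w hw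
    unfold frq
    rw [decide_eq_true_iff, decide_eq_true_iff, cnt_perm _ o2, cnt_perm _ o2]
    have h1 : vs.countP (fun v => decide (p₁ v = p₁ w) && decide (p₂ v = p₂ w)) ≤
        vs.countP (fun v => decide ((p₂ v).1 = (p₂ w).1)) :=
      List.countP_mono_left fun v _ h => by
        simp only [Bool.and_eq_true, decide_eq_true_eq] at h ⊢
        rw [h.2]
    have h2 : vs.countP (fun v => decide (p₁ v = p₁ w) && decide (p₂ v = p₂ w)) ≤
        vs.countP (fun v => decide ((p₂ v).2 = (p₂ w).2)) :=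
      List.countP_mono_left fun v _ h => by
        simp only [Bool.and_eq_true, decide_eq_true_eq] at h ⊢
        rw [h.2]
    unfold cnt
    constructor <;> omega
  have hp1 : (O₁.map Prod.fst ++ U).Perm (vs ++ U) := o1.append_right _
  have hp2 : (O₂.map Prod.fst ++ U).Perm (vs ++ U) := o2.append_right _
  obtain ⟨e1, e2⟩ := ext1_spec hbar hne o3 (U := U) (fun a => by
    rw [cnt_perm _ hp1, cnt_perm _ hp1]; exact hbal₁ a) hc1
  obtain ⟨e3, e4⟩ := ext1_spec hbar hne o4 (U := U) (fun a => by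
    rw [cnt_perm _ hp2, cnt_perm _ hp2]; exact hbal₂ a) hc2
  unfold realize
  simp only
  set M₁ := ext1 p₁ bar O₁ U with hM₁
  set M₂ := ext1 p₂ bar O₂ U with hM₂
  have n1 : (M₁.map Prod.fst).Nodup := (e1.trans hp1).symm.nodup hnd
  have n2 : (M₂.map Prod.fst).Nodup := (e3.trans hp2).symm.nodup hnd
  obtain ⟨f1, f2, f3, f4⟩ := fix1_spec hbar hne o3 e1 e2 n1 n2
  set N₁ := fix1 p₁ bar O₁ M₁ M₂ with hN₁
  have n3 : (N₁.map Prod.fst).Nodup := f1.symm.nodup n1
  obtain ⟨g1, g2, g3, g4⟩ := fix1_spec hbar hne o4 e3 e4 n2 n3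
  refine ⟨(f1.trans e1).trans hp1, (g1.trans e3).trans hp2, fun d hd => alw_comp d (f2 d hd),
    fun d hd => alw_comp d (g2 d hd), ?_⟩
  intro d hd d' hd' he
  have a1 : adj N₁ d'.1.1 d'.2.1 = true := adj_iff.2 ⟨d, hd, he⟩
  obtain ⟨d₀, hd₀, h0⟩ := g4 d' hd' a1
  have a2 : adj M₂ d.1.1 d.2.1 = true := adj_iff.2 ⟨d₀, hd₀, by rw [← h0, ← he]; rfl⟩
  obtain ⟨b, hb, hb'⟩ := alw_rare (f2 d hd) (f3 d hd a2)
  obtain ⟨b', hb'', hb'''⟩ := alw_rare (g2 d' hd') (g3 d' hd' a1)
  exact o5 b hb b' hb'' (by rw [hb', hb''', he])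

end

end Pool.Agent.H670R2.PSP
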