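import Pool.Agent.H670R2.PspReal

/-!
# Canonical names of vertices and the finite table of realisations
-/

namespace Pool.Agent.H670R2.PSP

section names

variable {T : Type} [DecidableEq T]

/-- number of occurrences -/
def cn (t : T) (a : List T) : ℕ := a.countP fun s => decide (s = t)

theorem cn_cons (t s : T) (a : List T) : cn t (s :: a) = cn t a + if s = t then 1 else 0 := by
  unfold cn
  rw [List.countP_cons]
  simp

/-- canonical names of the points of an assignment of types -/
def nm : List T → List (T × ℕ)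
  | [] => []
  | t :: a => (t, cn t a) :: nm a

theorem mem_nm {a : List T} {v : T × ℕ} : v ∈ nm a ↔ v.2 < cn v.1 a := by
  induction a with
  | nil => simp [nm, cn]
  | cons t a ih =>
      rw [nm, List.mem_cons, ih, cn_cons]
      by_cases h : t = v.1
      · subst h
        simp only [if_true]
        constructor
        · rintro (h | h)
          · rw [h]
            simp
          · omega
        · intro h
          rcases Nat.lt_succ_iff_lt_or_eq.1 h with h | h
          · exact Or.inr h
          · left
            exact Prod.ext rfl h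
      · rw [if_neg h, Nat.add_zero]
        constructor
        · rintro (h3 | h3)
          · rw [h3] at h
            exact absurd rfl h
          · exact h3
        · exact Or.inr

theorem nodup_nm (a : List T) : (nm a).Nodup := by
  induction a with
  | nil => exact List.nodup_nil
  | cons t a ih =>
      rw [nm, List.nodup_cons]
      exact ⟨by rw [mem_nm]; simp, ih⟩

theorem nm_map_fst (a : List T) : (nm a).map Prod.fst = a := by
  induction a with
  | nil => rfl
  | cons t a ih => rw [nm, List.map_cons, ih]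

theorem nm_length (a : List T) : (nm a).length = a.length := by
  conv_rhs => rw [← nm_map_fst a, List.length_map]

theorem nm_perm {a a' : List T} (h : ∀ t, cn t a' = cn t a) : (nm a').Perm (nm a) :=
  (List.perm_ext_iff_of_nodup (nodup_nm _) (nodup_nm _)).2 fun v => by
    rw [mem_nm, mem_nm, h]

theorem nm_split {b c : List T} (h : ∀ t, cn t b ≤ cn t c) :
    (nm b ++ (nm c).filter fun v => decide (v ∉ nm b)).Perm (nm c) := by
  refine (List.perm_ext_iff_of_nodup ?_ (nodup_nm _)).2 fun v => ?_
  · rw [List.nodup_append]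
    refine ⟨nodup_nm _, (nodup_nm _).filter _, ?_⟩
    rintro x hx y hy rfl
    rw [List.mem_filter, decide_eq_true_iff] at hy
    exact hy.2 hx
  · rw [List.mem_append, List.mem_filter, decide_eq_true_iff]
    constructor
    · rintro (h1 | h1)
      · rw [mem_nm] at h1 ⊢
        exact lt_of_lt_of_le h1 (h _)
      · exact h1.1
    · intro h1
      by_cases h2 : v ∈ nm b
      · exact Or.inl h2
      · exact Or.inr ⟨h1, h2⟩

theorem countP_nm (b : List T) (t : T) :
    (nm b).countP (fun v => decide (v.1 = t)) = cn t b := by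
  induction b with
  | nil => rfl
  | cons s b ih =>
      rw [nm, List.countP_cons, ih, cn_cons]
      simp

end names

/-- a finite basis for a well quasi order -/
theorem exists_basis {α : Type} {r : α → α → Prop} (hr : WellQuasiOrdered r) (R : Set α) :
    ∃ s : Finset α, (∀ x ∈ s, x ∈ R) ∧ ∀ y ∈ R, ∃ x ∈ s, r x y := by
  by_contra hc
  push Not at hc
  obtain ⟨f, -, hf⟩ := exists_seq_of_forall_finset_exists (fun x => x ∈ R)
    (fun x y => ¬ r x y) (fun s hs => by
      obtain ⟨y, hy, h⟩ := hc s hs
      exact ⟨y, hy, h⟩)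
  obtain ⟨m, n, hmn, h⟩ := hr f
  exact hf m n hmn h

theorem wqo_vec (T : Type) [Finite T] : WellQuasiOrdered fun b c : T → ℕ =>
    (∀ t, b t ≤ c t) ∧ ∀ t, b t < 13 → c t = b t := by
  intro f
  have h1 : WellQuasiOrdered (fun x y : (T → ℕ) => x ≤ y) :=
    (inferInstance : WellQuasiOrderedLE (T → ℕ)).wqo
  have h2 : WellQuasiOrdered (fun x y : (T → Fin 14) => x = y) :=
    Finite.wellQuasiOrdered _
  obtain ⟨m, n, hmn, h3, h4⟩ := (h1.prod h2) fun n => (f n, fun t => ⟨min (f n t) 13, by omega⟩)
  refine ⟨m, n, hmn, fun t => h3 t, fun t ht => ?_⟩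
  have := congrFun h4 t
  simp only [Fin.mk.injEq] at this
  omega

section table

variable {L : Type} [Fintype L] [DecidableEq L]

/-- types of vertices: the two labels in each tour -/
abbrev Ty (L : Type) := (L × L) × (L × L)

/-- labels in the first tour -/
def p₁ (v : Ty L × ℕ) : L × L := v.1.1

/-- labels in the second tour -/
def p₂ (v : Ty L × ℕ) : L × L := v.1.2

theorem Realn.congr {V : Type} {q₁ q₂ : V → L × L} {bar : L → L} {vs ws : List V}
    {M₁ M₂ : List (V × Bool)} (h : Realn q₁ q₂ bar vs M₁ M₂) (hp : vs.Perm ws) :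
    Realn q₁ q₂ bar ws M₁ M₂ := by
  obtain ⟨h1, h2, h3⟩ := h
  exact ⟨h1.trans hp, h2.trans hp, h3⟩

/-- new vertices -/
def extras (O : List ((Ty L × ℕ) × Bool)) (a : List (Ty L)) : List (Ty L × ℕ) :=
  (nm a).filter fun v => !(O.any fun e => decide (e.1 = v))

/-- the pair of tours obtained from a table entry for an assignment -/
def attempt (bar : L → L) (O : List ((Ty L × ℕ) × Bool) × List ((Ty L × ℕ) × Bool))
    (a : List (Ty L)) : List ((Ty L × ℕ) × Bool) × List ((Ty L × ℕ) × Bool) :=
  realize p₁ p₂ bar O.1 O.2 (extras O.1 a)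

theorem exists_table {bar : L → L} (hbar : ∀ a, bar (bar a) = a) (hne : ∀ a, bar a ≠ a) :
    ∃ tb : List (List ((Ty L × ℕ) × Bool) × List ((Ty L × ℕ) × Bool)),
      ∀ (a a' : List (Ty L)) (M₁ M₂ : List ((Ty L × ℕ) × Bool)),
        Realn p₁ p₂ bar (nm a) M₁ M₂ → (∀ t, cn t a' = cn t a) →
        ∃ O ∈ tb, Realn p₁ p₂ bar (nm a') (attempt bar O a').1 (attempt bar O a').2 := by
  classical
  obtain ⟨s, hs, hs'⟩ := exists_basis (wqo_vec (Ty L)) {c | ∃ a : List (Ty L),
    (∀ t, cn t a = c t) ∧ ∃ M₁ M₂, Realn p₁ p₂ bar (nm a) M₁ M₂}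
  choose! g hg using hs
  choose! h1 h2 using fun c hc => (hg c hc).2
  choose! k hk using h2
  refine ⟨s.toList.map fun c => (h1 c, k c), ?_⟩
  intro a a' M₁ M₂ hR hcount
  obtain ⟨c, hc, hle, heq⟩ := hs' (fun t => cn t a) ⟨a, fun t => rfl, M₁, M₂, hR⟩
  refine ⟨(h1 c, k c), List.mem_map.2 ⟨c, by simpa using hc, rfl⟩, ?_⟩
  have hreal := hk c hc
  have hgc := (hg c hc).1
  set b := g c with hb
  have hex : extras (h1 c) a' = (nm a').filter fun v => decide (v ∉ nm b) := by
    unfold extras
    refine List.filter_congr fun v _ => ?_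
    rw [Bool.eq_iff_iff, Bool.not_eq_true', ← Bool.not_eq_true, List.any_eq_true,
      decide_eq_true_iff, ← hreal.1.mem_iff, List.mem_map]
    simp only [decide_eq_true_eq]
  have hperm : (nm b ++ extras (h1 c) a').Perm (nm a') := by
    rw [hex]
    have hsp := nm_split (b := b) (c := a') fun t => by
      have h3 := hgc t
      have h4 := hcount t
      have h5 := hle t
      omega
    refine (List.Perm.of_eq ?_).trans hsp
    congr 1
    exact List.filter_congr fun v _ => by rw [decide_eq_decide]
  have hperm2 : (nm b ++ extras (h1 c) a').Perm (nm a) := hperm.trans (nm_perm hcount)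
  refine Realn.congr ?_ hperm
  unfold attempt
  refine realize_spec hbar hne hreal (hperm.symm.nodup (nodup_nm _)) ?_ ?_ ?_
  · intro x
    rw [cnt_perm _ hperm2, cnt_perm _ hperm2, ← cnt_perm _ hR.1, ← cnt_perm _ hR.1]
    exact (cnt_bar hbar hR.2.2.1 x).symm
  · intro x
    rw [cnt_perm _ hperm2, cnt_perm _ hperm2, ← cnt_perm _ hR.2.1, ← cnt_perm _ hR.2.1]
    exact (cnt_bar hbar hR.2.2.2.1 x).symm
  · intro w hw
    rw [hex, List.mem_filter, decide_eq_true_iff, mem_nm, mem_nm, hcount] at hw
    have e1 : (nm b).countP (fun v => decide (p₁ v = p₁ w) && decide (p₂ v = p₂ w)) =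
        cn w.1 b := by
      rw [← countP_nm]
      refine List.countP_congr fun v _ => ?_
      rw [Bool.and_eq_true, decide_eq_true_iff, decide_eq_true_iff, decide_eq_true_iff]
      exact ⟨fun h => Prod.ext h.1 h.2, fun h => ⟨congrArg Prod.fst h, congrArg Prod.snd h⟩⟩
    rw [e1, hgc]
    by_contra hlt
    have := heq w.1 (by omega)
    have := hgc w.1
    omega

end table

end Pool.Agent.H670R2.PSP
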