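import Mathlib

/-!
# Cyclic lists of oriented vertices: boundaries, rotations, reversals
-/

namespace Pool.Agent.H670R2.PSP

variable {E V L : Type}

/-- consecutive pairs of a list -/
def lin (M : List E) : List (E × E) := M.zip M.tail

/-- cyclically consecutive pairs of a list -/
def bds (M : List E) : List (E × E) := M.zip (M.tail ++ M.take 1)

/-- the pair joining the end of one list to the beginning of another -/
def lk (A B : List E) : List (E × E) := A.getLast?.toList.zip B.head?.toList

theorem lk_nil_left (B : List E) : lk [] B = [] := rfl

theorem lk_nil_right (A : List E) : lk A [] = [] := by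
  unfold lk
  cases A.getLast? <;> rfl

theorem lin_nil : lin ([] : List E) = [] := rfl

theorem lin_cons (x : E) (l : List E) : lin (x :: l) = lk [x] l ++ lin l := by
  cases l <;> rfl

theorem lk_cons_left (x y : E) (l B : List E) : lk (x :: y :: l) B = lk (y :: l) B := by
  unfold lk
  rw [List.getLast?_cons_cons]

theorem lin_append (A B : List E) : lin (A ++ B) = lin A ++ lk A B ++ lin B := by
  induction A with
  | nil => simp [lk_nil_left, lin_nil]
  | cons x A ih =>
      cases A with
      | nil =>
          rw [List.singleton_append, lin_cons]
          simp [lin, lk]
      | cons y A =>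
          rw [List.cons_append, lin_cons, ih, lin_cons x (y :: A), lk_cons_left]
          simp [lk]

theorem lk_append_right {A B C : List E} (hB : B ≠ []) : lk A (B ++ C) = lk A B := by
  cases B with
  | nil => exact absurd rfl hB
  | cons b B => simp [lk]

theorem lk_append_left {A B C : List E} (hB : B ≠ []) : lk (A ++ B) C = lk B C := by
  unfold lk
  rw [List.getLast?_append]
  cases h : B.getLast? with
  | none => exact absurd (List.getLast?_eq_none_iff.1 h) hB
  | some b => simp

theorem zip_append_singleton {A B : List E} (h : A.length = B.length) (x y : E) :
    (A ++ [x]).zip (B ++ [y]) = A.zip B ++ [(x, y)] := by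
  rw [List.zip_append h]
  rfl

theorem zip_take_left {F : Type} (A : List E) (B : List F) :
    A.zip B = (A.take B.length).zip B := by
  induction A generalizing B with
  | nil => simp
  | cons a A ih =>
      cases B with
      | nil => simp
      | cons b B => simp [ih B]

theorem bds_eq (M : List E) : bds M = lin M ++ lk M M := by
  cases M with
  | nil => rfl
  | cons x l =>
      rcases List.eq_nil_or_concat l with rfl | ⟨l', y, rfl⟩
      · rfl
      · have e1 : bds (x :: (l'.concat y)) = (x :: l' ++ [y]).zip ((l' ++ [y]) ++ [x]) := by
          simp [bds]
        have e2 : lin (x :: (l'.concat y)) = (x :: l' ++ [y]).zip (l' ++ [y]) := by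
          simp [lin]
        have e3 : lk (x :: (l'.concat y)) (x :: (l'.concat y)) = [(y, x)] := by
          rw [List.concat_eq_append, ← List.cons_append, lk_append_left (by simp)]
          simp [lk]
        rw [e1, e2, e3, zip_append_singleton (by simp), zip_take_left (x :: l' ++ [y])]
        congr 2
        simp

theorem bds_append {A B : List E} (hA : A ≠ []) (hB : B ≠ []) :
    bds (A ++ B) = lin A ++ lk A B ++ lin B ++ lk B A := by
  rw [bds_eq, lin_append, lk_append_left hB, lk_append_right hA]

theorem bds_append_perm (A B : List E) : (bds (A ++ B)).Perm (bds (B ++ A)) := by
  rcases eq_or_ne A [] with rfl | hA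
  · simp
  rcases eq_or_ne B [] with rfl | hB
  · simp
  rw [bds_append hA hB, bds_append hB hA, ← Multiset.coe_eq_coe]
  simp only [← Multiset.coe_add]
  abel

/-- reversing the orientation of an oriented vertex -/
def flip (e : V × Bool) : V × Bool := (e.1, !e.2)

@[simp] theorem flip_fst (e : V × Bool) : (flip e).1 = e.1 := rfl

@[simp] theorem flip_flip (e : V × Bool) : flip (flip e) = e := by
  cases e with
  | mk v b => simp [flip]

/-- reversal of a path -/
def rev (M : List (V × Bool)) : List (V × Bool) := (M.map flip).reverse

/-- reversal of a boundary -/
def sw (d : (V × Bool) × (V × Bool)) : (V × Bool) × (V × Bool) := (flip d.2, flip d.1)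

theorem rev_ne_nil {A : List (V × Bool)} (hA : A ≠ []) : rev A ≠ [] := by
  simp [rev, hA]

theorem rev_append (A B : List (V × Bool)) : rev (A ++ B) = rev B ++ rev A := by
  simp [rev]

theorem rev_map_fst (A : List (V × Bool)) : ((rev A).map Prod.fst).Perm (A.map Prod.fst) := by
  unfold rev
  rw [List.map_reverse]
  refine (List.reverse_perm _).trans ?_
  rw [List.map_map]
  exact List.Perm.refl _

theorem lk_rev_rev (A B : List (V × Bool)) : lk (rev A) (rev B) = (lk B A).map sw := by
  unfold lk rev
  rw [List.getLast?_reverse, List.head?_reverse, List.head?_map, List.getLast?_map]
  cases A.head? <;> cases B.getLast? <;> rfl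

theorem lin_rev (A : List (V × Bool)) : lin (rev A) = ((lin A).map sw).reverse := by
  induction A with
  | nil => rfl
  | cons x A ih =>
      have h : x :: A = [x] ++ A := rfl
      rw [h, rev_append, lin_append, lin_append, ih, lk_rev_rev]
      simp only [List.map_append, List.reverse_append]
      have h1 : lin (rev [x]) = [] := rfl
      have h2 : lin [x] = [] := rfl
      rw [h1, h2]
      have h3 : ((lk [x] A).map sw).reverse = (lk [x] A).map sw := by
        cases A <;> rfl
      rw [h3]
      simp

theorem bds_rev (M : List (V × Bool)) : (bds (rev M)).Perm ((bds M).map sw) := by
  rw [bds_eq, bds_eq, lin_rev, lk_rev_rev, List.map_append]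
  exact (List.reverse_perm _).append_right _

theorem bds_rot (M : List E) (k : ℕ) : (bds (M.drop k ++ M.take k)).Perm (bds M) := by
  have := bds_append_perm (M.drop k) (M.take k)
  rwa [List.take_append_drop] at this

/-- a member of `lin M` splits `M` -/
theorem exists_split {M : List E} {d : E × E} (h : d ∈ lin M) :
    ∃ A B : List E, M = A ++ B ∧ A ≠ [] ∧ B ≠ [] ∧ lk A B = [d] := by
  induction M with
  | nil => simp [lin] at h
  | cons x l ih =>
      rw [lin_cons, List.mem_append] at h
      rcases h with h | h
      · cases l with
        | nil => simp [lk] at h
        | cons y l =>
            refine ⟨[x], y :: l, rfl, by simp, by simp, ?_⟩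
            simp only [lk, List.getLast?_singleton, Option.toList_some, List.head?_cons,
              List.zip_cons_cons, List.zip_nil_right, List.mem_singleton] at h ⊢
            rw [h]
      · obtain ⟨A, B, rfl, hA, hB, hd⟩ := ih h
        refine ⟨x :: A, B, rfl, by simp, hB, ?_⟩
        cases A with
        | nil => exact absurd rfl hA
        | cons a A => rw [lk_cons_left, hd]

/-- the first member of `lin M` with a property splits `M` -/
theorem exists_first_split {M : List E} (p : E × E → Bool) (h : ∃ d ∈ lin M, p d = true) :
    ∃ (A B : List E) (d : E × E), M = A ++ B ∧ A ≠ [] ∧ B ≠ [] ∧ lk A B = [d] ∧ p d = true ∧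
      ∀ d' ∈ lin A, p d' = false := by
  induction M with
  | nil => simp [lin] at h
  | cons x l ih =>
      cases l with
      | nil => simp [lin] at h
      | cons y l =>
          by_cases hxy : p (x, y) = true
          · refine ⟨[x], y :: l, (x, y), rfl, by simp, by simp, rfl, hxy, ?_⟩
            intro d' hd'
            simp [lin] at hd'
          · obtain ⟨d, hd, hpd⟩ := h
            rw [lin_cons, List.mem_append] at hd
            have hd2 : d ∈ lin (y :: l) := by
              rcases hd with hd | hd
              · simp only [lk, List.getLast?_singleton, Option.toList_some, List.head?_cons,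
                  List.zip_cons_cons, List.zip_nil_right, List.mem_singleton] at hd
                rw [hd] at hpd
                exact absurd hpd hxy
              · exact hd
            obtain ⟨A, B, d', h1, hA, hB, h2, h3, h4⟩ := ih ⟨d, hd2, hpd⟩
            refine ⟨x :: A, B, d', by rw [h1]; rfl, by simp, hB, ?_, h3, ?_⟩
            · cases A with
              | nil => exact absurd rfl hA
              | cons a A => rw [lk_cons_left, h2]
            · intro e he
              rw [lin_cons, List.mem_append] at he
              rcases he with he | he
              · cases A with
                | nil => exact absurd rfl hA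
                | cons a A =>
                    have : a = y := by
                      simp only [List.cons_append, List.cons.injEq] at h1
                      exact h1.1.symm
                    subst this
                    simp only [lk, List.getLast?_singleton, Option.toList_some, List.head?_cons,
                      List.zip_cons_cons, List.zip_nil_right, List.mem_singleton] at he
                    rw [he]
                    simpa using hxy
              · exact h4 e he

theorem lin_map_fst_sublist (M : List E) : ((lin M).map Prod.fst).Sublist M := by
  induction M with
  | nil => simp [lin]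
  | cons x l ih =>
      cases l with
      | nil => simp [lin]
      | cons y l =>
          rw [lin_cons]
          simp only [lk, List.getLast?_singleton, Option.toList_some, List.head?_cons,
            List.zip_cons_cons, List.zip_nil_right, List.cons_append, List.nil_append,
            List.map_cons]
          exact ih.cons_cons _

theorem lin_map_snd (M : List E) : (lin M).map Prod.snd = M.tail := by
  induction M with
  | nil => simp [lin]
  | cons x l ih =>
      cases l with
      | nil => simp [lin]
      | cons y l =>
          rw [lin_cons, List.map_append, ih]
          simp [lk]

theorem lin_map_snd_sublist (M : List E) : ((lin M).map Prod.snd).Sublist M := by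
  rw [lin_map_snd]
  exact List.tail_sublist _

/-- members of `bds M` can be rotated to the end -/
theorem exists_rot {M : List E} {d : E × E} (h : d ∈ bds M) :
    ∃ k, k < M.length ∧ lk (M.drop k ++ M.take k) (M.drop k ++ M.take k) = [d] := by
  rw [bds_eq, List.mem_append] at h
  rcases h with h | h
  · obtain ⟨A, B, rfl, hA, hB, hd⟩ := exists_split h
    refine ⟨A.length, ?_, ?_⟩
    · have : 0 < B.length := List.length_pos_iff.2 hB
      simp only [List.length_append]
      omega
    · rw [List.drop_left, List.take_left, lk_append_left hA, lk_append_right hB, hd]
  · have hM : M ≠ [] := by
      rintro rfl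
      simp [lk] at h
    refine ⟨0, List.length_pos_iff.2 hM, ?_⟩
    simp only [List.drop_zero, List.take_zero, List.append_nil]
    unfold lk at h ⊢
    cases h1 : M.getLast? with
    | none => rw [h1] at h; simp at h
    | some a =>
        cases h2 : M.head? with
        | none => rw [h2, h1] at h; simp at h
        | some b =>
            rw [h1, h2] at h
            simp only [Option.toList_some, List.zip_cons_cons, List.zip_nil_right,
              List.mem_singleton] at h ⊢
            rw [h]

end Pool.Agent.H670R2.PSP
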