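import Pool.Agent.H670R2.Avoid

/-!
Point vectors and line vectors can be made pairwise non-collinear by linear maps that keep
the incidences.
-/

namespace Pool.Agent.H670R2

open Polynomial

def dot (u v : Fin 3 → ℝ) : ℝ := u 0 * v 0 + u 1 * v 1 + u 2 * v 2

def cf (c : Fin 3 → ℝ) (s : ℝ) (x : Fin 3 → ℝ) : Fin 3 → ℝ :=
  fun i => x i + s * dot c x * c i

def cg (c : Fin 3 → ℝ) (s : ℝ) (x : Fin 3 → ℝ) : Fin 3 → ℝ :=
  fun i => (1 + s * dot c c) * x i - s * dot c x * c i

theorem dot_cf_cg (c : Fin 3 → ℝ) (s : ℝ) (x y : Fin 3 → ℝ) :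
    dot (cf c s x) (cg c s y) = (1 + s * dot c c) * dot x y := by
  simp only [dot, cf, cg]
  ring

theorem dot_self_nonneg (c : Fin 3 → ℝ) : 0 ≤ dot c c := by
  simp only [dot]
  nlinarith [mul_self_nonneg (c 0), mul_self_nonneg (c 1), mul_self_nonneg (c 2)]

theorem one_add_pos {c : Fin 3 → ℝ} {s : ℝ} (hs : 0 < s) : 0 < 1 + s * dot c c := by
  have := dot_self_nonneg c
  positivity

/-- `cg` undoes `cf` up to a scalar -/
theorem cg_cf (c : Fin 3 → ℝ) (s : ℝ) (x : Fin 3 → ℝ) (i : Fin 3) :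
    cg c s (cf c s x) i = (1 + s * dot c c) * x i := by
  simp only [dot, cf, cg]
  ring

theorem cf_cg (c : Fin 3 → ℝ) (s : ℝ) (x : Fin 3 → ℝ) (i : Fin 3) :
    cf c s (cg c s x) i = (1 + s * dot c c) * x i := by
  simp only [dot, cf, cg]
  ring

theorem cf_smul (c : Fin 3 → ℝ) (s k : ℝ) (x : Fin 3 → ℝ) : cf c s (k • x) = k • cf c s x := by
  ext i
  simp only [dot, cf, Pi.smul_apply, smul_eq_mul]
  ring

theorem cg_smul (c : Fin 3 → ℝ) (s k : ℝ) (x : Fin 3 → ℝ) : cg c s (k • x) = k • cg c s x := by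
  ext i
  simp only [dot, cg, Pi.smul_apply, smul_eq_mul]
  ring

theorem nc_cf {c : Fin 3 → ℝ} {s : ℝ} (hs : 0 < s) {u v : Fin 3 → ℝ} (h : NC u v) :
    NC (cf c s u) (cf c s v) := by
  have hk := one_add_pos (c := c) hs
  have key : ∀ u v : Fin 3 → ℝ, (∀ k : ℝ, u ≠ k • v) → ∀ k : ℝ, cf c s u ≠ k • cf c s v := by
    intro u v h k hk'
    apply h k
    rw [← cf_smul] at hk'
    ext i
    have := congrArg (fun x => cg c s x i) hk'
    simp only [cg_cf] at this
    exact mul_left_cancel₀ hk.ne' this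
  exact ⟨key u v h.1, key v u h.2⟩

theorem nc_cg {c : Fin 3 → ℝ} {s : ℝ} (hs : 0 < s) {u v : Fin 3 → ℝ} (h : NC u v) :
    NC (cg c s u) (cg c s v) := by
  have hk := one_add_pos (c := c) hs
  have key : ∀ u v : Fin 3 → ℝ, (∀ k : ℝ, u ≠ k • v) → ∀ k : ℝ, cg c s u ≠ k • cg c s v := by
    intro u v h k hk'
    apply h k
    rw [← cg_smul] at hk'
    ext i
    have := congrArg (fun x => cf c s x i) hk'
    simp only [cf_cg] at this
    exact mul_left_cancel₀ hk.ne' this
  exact ⟨key u v h.1, key v u h.2⟩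

/-- the minor of the two transformed vectors as a polynomial in `s` -/
noncomputable def mpoly (c p l : Fin 3 → ℝ) (m n : Fin 3) : ℝ[X] :=
  C (p m * l n - p n * l m) +
  C (p m * (dot c c * l n - dot c l * c n) - p n * (dot c c * l m - dot c l * c m)
      + dot c p * (c m * l n - c n * l m)) * X +
  C (dot c p * dot c c * (c m * l n - c n * l m)) * X ^ 2

theorem mpoly_eval (c p l : Fin 3 → ℝ) (m n : Fin 3) (s : ℝ) :
    (mpoly c p l m n).eval s = cf c s p m * cg c s l n - cf c s p n * cg c s l m := by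
  simp only [mpoly, cf, cg, eval_add, eval_mul, eval_C, eval_X, eval_pow]
  ring

/-- a direction in general position with respect to finitely many vectors -/
theorem exists_dir {I J : Type*} [Fintype I] [Fintype J] (p : I → Fin 3 → ℝ)
    (l : J → Fin 3 → ℝ) (hp : ∀ i, p i ≠ 0) (hl : ∀ j, l j ≠ 0) :
    ∃ c : Fin 3 → ℝ, 0 < dot c c ∧ (∀ i, dot c (p i) ≠ 0) ∧
      ∀ j, ∃ m n : Fin 3, c m * l j n - c n * l j m ≠ 0 := by
  classical
  let q : I ⊕ J → ℝ[X] := fun x =>
    match x with
    | Sum.inl i => C (p i 0) + C (p i 1) * X + C (p i 2) * X ^ 2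
    | Sum.inr j => if l j 0 ≠ 0 ∨ l j 1 ≠ 0 then C (l j 1) + C (- l j 0) * X + C 0 * X ^ 2
        else C (l j 2) + C 0 * X + C 0 * X ^ 2
  have hne : ∀ x : Fin 3 → ℝ, x ≠ 0 → x 0 ≠ 0 ∨ x 1 ≠ 0 ∨ x 2 ≠ 0 := by
    intro x hx
    by_contra hc
    push Not at hc
    apply hx
    ext i
    fin_cases i
    · exact hc.1
    · exact hc.2.1
    · exact hc.2.2
  have hq : ∀ x ∈ (Finset.univ : Finset (I ⊕ J)), q x ≠ 0 := by
    rintro (i | j) -
    · exact quad_ne_zero (hne _ (hp i))
    · simp only [q]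
      split_ifs with h
      · apply quad_ne_zero
        rcases h with h | h
        · right; left
          simpa using h
        · left; exact h
      · push Not at h
        apply quad_ne_zero
        left
        rcases hne _ (hl j) with h' | h' | h'
        · exact absurd h.1 h'
        · exact absurd h.2 h'
        · exact h'
  obtain ⟨t, ht, hev⟩ := exists_avoid _ q hq
  refine ⟨![1, t, t ^ 2], ?_, ?_, ?_⟩
  · simp only [dot, Matrix.cons_val_zero, Matrix.cons_val_one, Matrix.cons_val]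
    positivity
  · intro i
    have := hev (Sum.inl i) (Finset.mem_univ _)
    simp only [q, eval_add, eval_mul, eval_C, eval_X, eval_pow] at this
    simp only [dot, Matrix.cons_val_zero, Matrix.cons_val_one, Matrix.cons_val]
    intro h0
    apply this
    linarith
  · intro j
    have := hev (Sum.inr j) (Finset.mem_univ _)
    simp only [q] at this
    split_ifs at this with h
    · refine ⟨0, 1, ?_⟩
      simp only [eval_add, eval_mul, eval_C, eval_X, eval_pow] at this
      simp only [Matrix.cons_val_zero, Matrix.cons_val_one]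
      intro h0
      apply this
      linarith
    · push Not at h
      refine ⟨0, 2, ?_⟩
      simp only [eval_add, eval_mul, eval_C, eval_X, eval_pow] at this
      simp only [Matrix.cons_val_zero, Matrix.cons_val]
      rw [h.1]
      intro h0
      apply this
      linarith

theorem exists_separation {I J : Type*} [Fintype I] [Fintype J] (p : I → Fin 3 → ℝ)
    (l : J → Fin 3 → ℝ) (hp : ∀ i, p i ≠ 0) (hl : ∀ j, l j ≠ 0) :
    ∃ (p' : I → Fin 3 → ℝ) (l' : J → Fin 3 → ℝ),
      (∀ i j, dot (p i) (l j) = 0 → dot (p' i) (l' j) = 0) ∧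
      (∀ i i', NC (p i) (p i') → NC (p' i) (p' i')) ∧
      (∀ j j', NC (l j) (l j') → NC (l' j) (l' j')) ∧ (∀ i j, NC (p' i) (l' j)) := by
  classical
  obtain ⟨c, hcc, hcp, hcl⟩ := exists_dir p l hp hl
  choose m n hmn using hcl
  let q : I × J → ℝ[X] := fun x => mpoly c (p x.1) (l x.2) (m x.2) (n x.2)
  have hq : ∀ x ∈ (Finset.univ : Finset (I × J)), q x ≠ 0 := by
    intro x _
    apply quad_ne_zero
    right; right
    exact mul_ne_zero (mul_ne_zero (hcp _) hcc.ne') (hmn _)
  obtain ⟨s, hs, hev⟩ := exists_avoid _ q hq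
  refine ⟨fun i => cf c s (p i), fun j => cg c s (l j), ?_, ?_, ?_, ?_⟩
  · intro i j h
    simp only [dot_cf_cg, h, mul_zero]
  · intro i i' h
    exact nc_cf hs h
  · intro j j' h
    exact nc_cg hs h
  · intro i j
    have := hev (i, j) (Finset.mem_univ _)
    simp only [q, mpoly_eval] at this
    exact nc_of_minor (m j) (n j) this

end Pool.Agent.H670R2
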