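import Pool.Agent.H670R2.SimplexDefs
import Pool.Agent.H670R2.ParaGeo2
import Pool.Agent.H670R2.GramPoly
import Pool.Agent.H670R2.Best

/-!
# Recognising parallelotopes given by inequalities: the algorithm and its correctness
-/

namespace Pool.Agent.H670R2.Simplex

open Pool.Agent.NPC Pool.Agent.NPC.H670R2 Pool.Agent.H670R2.Para Matrix

/-- `D * q` for a multiple `D` of the denominator of `q` -/
def scale (D : ℕ) (q : ℚ) : ℤ := q.num * ((D / q.den : ℕ) : ℤ)

/-- the common denominator of a row -/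
def rowDen (r : List ℚ × ℚ) : ℕ := (r.1.map Rat.den).prod * r.2.den

/-- the row with integer coefficients -/
def irow (r : List ℚ × ℚ) : List ℤ × ℤ := (r.1.map (scale (rowDen r)), scale (rowDen r) r.2)

/-- the slab formed by two opposite rows; `(v, h, W)` stands for `h - W ≤ v · x ≤ h` -/
def cand1 (r s : List ℤ × ℤ) : List (List ℤ × ℤ × ℤ) :=
  if (0 < -(dotL r.1 s.1) ∧ dotL r.1 s.1 * dotL r.1 s.1 = dotL r.1 r.1 * dotL s.1 s.1) ∧
      0 < -(dotL r.1 s.1) * r.2 + dotL r.1 r.1 * s.2 then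
    [(r.1.map (fun x => -(dotL r.1 s.1) * x), -(dotL r.1 s.1) * r.2,
      -(dotL r.1 s.1) * r.2 + dotL r.1 r.1 * s.2)] else []

/-- the slabs formed by pairs of opposite rows -/
def cands (R : List (List ℤ × ℤ)) : List (List ℤ × ℤ × ℤ) :=
  R.flatMap fun r => R.flatMap fun s => cand1 r s

/-- comparison of candidates, given the normals chosen so far -/
def better (E : List (List ℤ)) (c c' : List ℤ × ℤ × ℤ) : Bool :=
  decide ((gdet (c'.1 :: E) : ℤ) * (c.2.2 * c.2.2) < (gdet (c.1 :: E) : ℤ) * (c'.2.2 * c'.2.2)) ||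
  (decide ((gdet (c'.1 :: E) : ℤ) * (c.2.2 * c.2.2) = (gdet (c.1 :: E) : ℤ) *
    (c'.2.2 * c'.2.2)) &&
    decide (dotL c'.1 c'.1 * (c.2.2 * c.2.2) < dotL c.1 c.1 * (c'.2.2 * c'.2.2)))

/-- one greedy step -/
def gst (C : List (List ℤ × ℤ × ℤ)) (sel : List (List ℤ × ℤ × ℤ)) : List (List ℤ × ℤ × ℤ) :=
  match best (better (sel.map Prod.fst)) C with
  | none => sel
  | some c => c :: sel

/-- replace the vector with index `i` -/
def repl (L : List (List ℤ)) (i : ℕ) (w : List ℤ) : List (List ℤ) :=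
  L.zipIdx.map fun p => if p.2 = i then w else p.1

/-- the numbers `N i` -/
def nval (L : List (List ℤ)) (a : List ℤ) (i : ℕ) : ℤ :=
  (gdet (repl L i (List.zipWith (fun x y => x + y) a (L.getD i []))) : ℤ) -
    (gdet (repl L i (List.zipWith (fun x y => x - y) a (L.getD i []))) : ℤ)

/-- is the inequality `r` satisfied on the box given by the selected slabs -/
def rowOk (sel : List (List ℤ × ℤ × ℤ)) (r : List ℤ × ℤ) : Bool :=
  decide (((List.range sel.length).map fun i =>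
    if 0 ≤ nval (sel.map Prod.fst) r.1 i then
      nval (sel.map Prod.fst) r.1 i * (sel.getD i ([], 0, 0)).2.1
    else nval (sel.map Prod.fst) r.1 i *
      ((sel.getD i ([], 0, 0)).2.1 - (sel.getD i ([], 0, 0)).2.2)).sum ≤
    4 * (gdet (sel.map Prod.fst) : ℤ) * r.2)

/-- the number of coefficients of the first row -/
def flen (R : List (List ℚ × ℚ)) : ℕ := ((R.map Prod.fst).head?.getD []).length

/-- the selected slabs -/
def selOf (R : List (List ℚ × ℚ)) : List (List ℤ × ℤ × ℤ) :=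
  (gst (cands (R.map irow)))^[flen R] []

/-- all tests -/
def good (I : ℕ × List (List ℚ × ℚ) × ℚ) : Bool :=
  decide (1 ≤ I.1) && (decide (I.1 = flen I.2.1) && ((I.2.1.all fun r => decide (r.1.length = I.1)) &&
    (decide (0 < I.2.2.num) && (decide ((selOf I.2.1).length = I.1) &&
      (decide (0 < gdet ((selOf I.2.1).map Prod.fst)) &&
        ((I.2.1.map irow).all fun r => rowOk (selOf I.2.1) r))))))

/-- the product of the widths -/
def wprod (sel : List (List ℤ × ℤ × ℤ)) : ℕ := (sel.map fun c => c.2.2.natAbs).prod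

/-- the key of an instance -/
def key (I : ℕ × List (List ℚ × ℚ) × ℚ) : Option (ℕ × ℕ × ℕ) :=
  if good I = true then
    some (I.1, I.2.2.num.natAbs * gdet ((selOf I.2.1).map Prod.fst),
      I.2.2.den * (wprod (selOf I.2.1) * wprod (selOf I.2.1))) else none

/-! ### Translation to the real numbers -/

/-- an integer vector as a real vector -/
def vecR (n : ℕ) (l : List ℤ) : Fin n → ℝ := fun i => (l.getD i 0 : ℝ)

theorem dotL_real {n : ℕ} {u : List ℤ} (v : List ℤ) (hu : u.length = n) :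
    (dotL u v : ℝ) = vecR n u ⬝ᵥ vecR n v := by
  subst hu
  rw [dotL_eq_sum, Finset.sum_range]
  push_cast
  rfl

theorem scale_real {D : ℕ} {q : ℚ} (h : q.den ∣ D) : (scale D q : ℝ) = D * q := by
  obtain ⟨k, rfl⟩ := h
  unfold scale
  rw [Nat.mul_div_cancel_left _ q.pos]
  have h1 : (q : ℝ) = q.num / q.den := by
    conv_lhs => rw [← Rat.num_div_den q]
    push_cast
    rfl
  have h2 : (q.den : ℝ) ≠ 0 := by exact_mod_cast q.pos.ne'
  rw [h1]
  push_cast
  field_simp

theorem rowDen_pos (r : List ℚ × ℚ) : 0 < rowDen r := by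
  unfold rowDen
  refine Nat.mul_pos ?_ r.2.pos
  refine List.prod_pos ?_
  intro a ha
  obtain ⟨q, -, rfl⟩ := List.mem_map.1 ha
  exact q.pos

theorem irow_fst {n : ℕ} (r : List ℚ × ℚ) (hr : r.1.length = n) (x : Fin n → ℝ) :
    vecR n (irow r).1 ⬝ᵥ x = rowDen r * ∑ i : Fin n, (r.1.getD i 0 : ℝ) * x i := by
  rw [Finset.mul_sum]
  refine Finset.sum_congr rfl fun i _ => ?_
  have hi : (i : ℕ) < r.1.length := by rw [hr]; exact i.2
  have h1 : vecR n (irow r).1 i = (scale (rowDen r) (r.1.getD i 0) : ℝ) := by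
    unfold vecR irow
    simp only
    rw [List.getD_eq_getElem _ _ (by simpa using hi), List.getElem_map,
      List.getD_eq_getElem _ _ hi]
  rw [h1, scale_real, mul_assoc]
  rw [List.getD_eq_getElem _ _ hi]
  exact Dvd.dvd.mul_right (List.dvd_prod (List.mem_map_of_mem (List.getElem_mem hi))) _

theorem irow_snd (r : List ℚ × ℚ) : ((irow r).2 : ℝ) = rowDen r * r.2 := by
  unfold irow
  simp only
  exact scale_real (D := rowDen r) (q := r.2) (Dvd.intro_left _ rfl)

/-- rows with real coefficients -/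
noncomputable def rrow (n : ℕ) (r : List ℤ × ℤ) : (Fin n → ℝ) × ℝ := (vecR n r.1, (r.2 : ℝ))

theorem polyhedron_eq {n : ℕ} {R : List (List ℚ × ℚ)} (hR : ∀ r ∈ R, r.1.length = n) :
    polyhedron n R = {x | ∀ r ∈ (R.map irow).map (rrow n), r.1 ⬝ᵥ x ≤ r.2} := by
  ext x
  simp only [polyhedron, Set.mem_ofPred_eq, List.mem_map, forall_exists_index, and_imp,
    forall_apply_eq_imp_iff₂]
  refine forall₂_congr fun r hr => ?_
  have hD : (0 : ℝ) < rowDen r := by exact_mod_cast rowDen_pos r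
  simp only [rrow]
  rw [irow_fst r (hR r hr), irow_snd]
  exact (mul_le_mul_iff_right₀ hD).symm

/-- the real Gram determinant of a list -/
theorem gdet_real {n : ℕ} {L : List (List ℤ)} (hL : ∀ v ∈ L, v.length = n) :
    (gdet L : ℝ) = (gramR fun i : Fin L.length => vecR n (L.get i)).det := by
  have h1 : (gramR fun i : Fin L.length => vecR n (L.get i)) =
      (gramM L).map (Int.castRingHom ℝ) := by
    ext i j
    simp only [gramR, gramM, Matrix.of_apply, Matrix.map_apply, Int.coe_castRingHom]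
    rw [dotL_real _ (hL _ (List.get_mem _ _))]
  have h2 : (gramR fun i : Fin L.length => vecR n (L.get i)).det = ((gramM L).det : ℝ) := by
    rw [h1]
    exact ((Int.castRingHom ℝ).map_det (gramM L)).symm
  have h3 : (0 : ℝ) ≤ ((gramM L).det : ℝ) := by
    rw [← h2]; exact gramR_det_nonneg _
  rw [gdet_eq, h2, Nat.cast_natAbs]
  have h4 : (0 : ℤ) ≤ (gramM L).det := by exact_mod_cast h3
  rw [abs_of_nonneg h4]

theorem gdet_cons {n : ℕ} {L : List (List ℤ)} (hL : ∀ v ∈ L, v.length = n) {u : List ℤ}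
    (hu : u.length = n) : (gdet (u :: L) : ℝ) =
      mix (fun i : Fin L.length => vecR n (L.get i)) (vecR n u) (vecR n u) := by
  rw [gdet_real (n := n) (L := u :: L) (by
    intro v hv
    rcases List.mem_cons.1 hv with rfl | hv
    · exact hu
    · exact hL v hv), mix_self]
  congr 2
  funext i
  refine Fin.cases ?_ (fun i => ?_) i
  · rfl
  · rfl

/-- a list of vectors as a square matrix -/
def matV (n : ℕ) (L : List (List ℤ)) : Matrix (Fin n) (Fin n) ℝ :=
  Matrix.of fun i => vecR n (L.getD i [])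

theorem gdet_sq {n : ℕ} {L : List (List ℤ)} (hL : ∀ v ∈ L, v.length = n) (hl : L.length = n) :
    (gdet L : ℝ) = (matV n L).det ^ 2 := by
  rw [gdet_real hL]
  subst hl
  rw [gramR_det_sq]
  congr 2
  ext i j
  simp [matV]

/-- the properties of a candidate -/
structure IsCand (n : ℕ) (P : Set (Fin n → ℝ)) (c : List ℤ × ℤ × ℤ) : Prop where
  len : c.1.length = n
  pos : 0 < c.2.2
  sub : P ⊆ slab (vecR n c.1) c.2.1 c.2.2

theorem vecR_smul {n : ℕ} (q : ℤ) (l : List ℤ) :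
    vecR n (l.map fun x => q * x) = (q : ℝ) • vecR n l := by
  ext i
  simp only [vecR, Pi.smul_apply, smul_eq_mul]
  by_cases h : (i : ℕ) < l.length
  · rw [List.getD_eq_getElem _ _ (by simpa using h), List.getD_eq_getElem _ _ h]
    simp
  · rw [List.getD_eq_default _ _ (by simpa using h), List.getD_eq_default _ _ (by simpa using h)]
    simp

theorem mem_cand1 {r s : List ℤ × ℤ} {c : List ℤ × ℤ × ℤ} : c ∈ cand1 r s ↔
    ((0 < -(dotL r.1 s.1) ∧ dotL r.1 s.1 * dotL r.1 s.1 = dotL r.1 r.1 * dotL s.1 s.1) ∧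
      0 < -(dotL r.1 s.1) * r.2 + dotL r.1 r.1 * s.2) ∧
    c = (r.1.map (fun x => -(dotL r.1 s.1) * x), -(dotL r.1 s.1) * r.2,
      -(dotL r.1 s.1) * r.2 + dotL r.1 r.1 * s.2) := by
  unfold cand1
  split_ifs with h
  · simp only [List.mem_singleton]
    exact ⟨fun hc => ⟨h, hc⟩, fun hc => hc.2⟩
  · simp only [List.not_mem_nil, false_iff]
    exact fun hc => h hc.1

theorem isCand_of_mem {n : ℕ} {Ri : List (List ℤ × ℤ)} (hR : ∀ r ∈ Ri, r.1.length = n)
    {c : List ℤ × ℤ × ℤ} (hc : c ∈ cands Ri) :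
    IsCand n {x | ∀ r ∈ Ri.map (rrow n), r.1 ⬝ᵥ x ≤ r.2} c := by
  unfold cands at hc
  simp only [List.mem_flatMap] at hc
  obtain ⟨r, hr, s, hs, hc⟩ := hc
  rw [mem_cand1] at hc
  obtain ⟨⟨⟨hq, hcs⟩, hW⟩, rfl⟩ := hc
  refine ⟨by simp [hR r hr], hW, ?_⟩
  intro x hx
  have hxr : vecR n r.1 ⬝ᵥ x ≤ r.2 := hx (rrow n r) (List.mem_map_of_mem hr)
  have hxs : vecR n s.1 ⬝ᵥ x ≤ s.2 := hx (rrow n s) (List.mem_map_of_mem hs)
  have e1 := dotL_real (n := n) s.1 (hR r hr)
  have e2 := dotL_real (n := n) r.1 (hR r hr)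
  have e3 := dotL_real (n := n) s.1 (hR s hs)
  set a := vecR n r.1 with ha
  set b := vecR n s.1 with hb
  have hcs' : (a ⬝ᵥ b) * (a ⬝ᵥ b) = (a ⬝ᵥ a) * (b ⬝ᵥ b) := by
    rw [← e1, ← e2, ← e3]
    exact_mod_cast hcs
  have hq' : a ⬝ᵥ b < 0 := by
    have : (0 : ℝ) < ((-(dotL r.1 s.1) : ℤ) : ℝ) := by exact_mod_cast hq
    rw [Int.cast_neg, e1] at this
    linarith
  have hzero : (a ⬝ᵥ a) • b - (a ⬝ᵥ b) • a = 0 := by
    refine dotProduct_self_eq_zero.1 ?_
    simp only [sub_dotProduct, dotProduct_sub, smul_dotProduct, dotProduct_smul, smul_eq_mul]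
    rw [dotProduct_comm b a]
    linear_combination (-(a ⬝ᵥ a)) * hcs'
  have hrel : (a ⬝ᵥ a) * (b ⬝ᵥ x) = (a ⬝ᵥ b) * (a ⬝ᵥ x) := by
    have := congrArg (fun z => z ⬝ᵥ x) hzero
    simp only [sub_dotProduct, smul_dotProduct, smul_eq_mul, zero_dotProduct] at this
    linarith
  have haa : 0 ≤ a ⬝ᵥ a := Finset.sum_nonneg fun i _ => mul_self_nonneg _
  have hv : vecR n (r.1.map fun x => -(dotL r.1 s.1) * x) = (-(a ⬝ᵥ b)) • a := by
    rw [vecR_smul]
    push_cast
    rw [e1]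
  simp only [slab, Set.mem_ofPred_eq]
  rw [hv, smul_dotProduct, smul_eq_mul]
  push_cast
  rw [e1, e2]
  constructor
  · nlinarith
  · nlinarith

theorem better_iff {L : List (List ℤ)} {c c' : List ℤ × ℤ × ℤ} (hW : 0 < c.2.2)
    (hW' : 0 < c'.2.2) : better L c c' = true ↔
      (toLex (-((gdet (c.1 :: L) : ℝ) / ((c.2.2 : ℝ) * c.2.2)),
        -((dotL c.1 c.1 : ℝ) / ((c.2.2 : ℝ) * c.2.2))) : ℝ ×ₗ ℝ) <
      toLex (-((gdet (c'.1 :: L) : ℝ) / ((c'.2.2 : ℝ) * c'.2.2)),
        -((dotL c'.1 c'.1 : ℝ) / ((c'.2.2 : ℝ) * c'.2.2))) := by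
  have p1 : (0 : ℝ) < (c.2.2 : ℝ) * c.2.2 := by
    have : (0 : ℝ) < c.2.2 := by exact_mod_cast hW
    positivity
  have p2 : (0 : ℝ) < (c'.2.2 : ℝ) * c'.2.2 := by
    have : (0 : ℝ) < c'.2.2 := by exact_mod_cast hW'
    positivity
  rw [Prod.Lex.toLex_lt_toLex]
  simp only [better, Bool.or_eq_true, Bool.and_eq_true, decide_eq_true_eq, neg_lt_neg_iff,
    neg_inj]
  rw [div_lt_div_iff₀ p2 p1, div_lt_div_iff₀ p2 p1, div_eq_div_iff p1.ne' p2.ne']
  constructor
  · rintro (h | ⟨h1, h2⟩)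
    · left; exact_mod_cast h
    · right; exact ⟨by exact_mod_cast h1.symm, by exact_mod_cast h2⟩
  · rintro (h | ⟨h1, h2⟩)
    · left; exact_mod_cast h
    · right; exact ⟨by exact_mod_cast h1.symm, by exact_mod_cast h2⟩

end Pool.Agent.H670R2.Simplex
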