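import Pool.Agent.H670R2.SimplexAlg

/-!
# Correctness of the algorithm
-/

namespace Pool.Agent.H670R2.Simplex

open Pool.Agent.NPC Pool.Agent.NPC.H670R2 Pool.Agent.H670R2.Para Matrix

theorem listRange_sum {β : Type*} [AddCommMonoid β] (f : ℕ → β) (n : ℕ) :
    ((List.range n).map f).sum = ∑ i ∈ Finset.range n, f i := by
  induction n with
  | zero => simp
  | succ n ih => rw [List.range_succ, List.map_append, List.sum_append, ih,
      Finset.sum_range_succ]; simp

theorem repl_length (L : List (List ℤ)) (i : ℕ) (w : List ℤ) : (repl L i w).length = L.length := by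
  simp [repl]

theorem repl_getD (L : List (List ℤ)) (i : ℕ) (w : List ℤ) {j : ℕ} (hj : j < L.length) :
    (repl L i w).getD j [] = if j = i then w else L.getD j [] := by
  rw [List.getD_eq_getElem _ _ (by rw [repl_length]; exact hj), List.getD_eq_getElem _ _ hj]
  simp [repl]

theorem repl_mem_length {n : ℕ} {L : List (List ℤ)} (hL : ∀ v ∈ L, v.length = n) {i : ℕ}
    {w : List ℤ} (hw : w.length = n) : ∀ v ∈ repl L i w, v.length = n := by
  intro v hv
  unfold repl at hv
  obtain ⟨p, hp, rfl⟩ := List.mem_map.1 hv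
  split_ifs
  · exact hw
  · refine hL _ ?_
    obtain ⟨v, j⟩ := p
    rw [List.mem_zipIdx_iff_getElem?] at hp
    exact List.mem_of_getElem? hp

theorem matV_repl {n : ℕ} {L : List (List ℤ)} (hl : L.length = n) (i : Fin n) (w : List ℤ) :
    matV n (repl L i w) = (matV n L).updateRow i (vecR n w) := by
  ext j k
  rw [Matrix.updateRow_apply]
  simp only [matV, Matrix.of_apply]
  rw [repl_getD L i w (by rw [hl]; exact j.2)]
  by_cases h : j = i
  · subst h; simp
  · have : (j : ℕ) ≠ i := fun e => h (Fin.ext e)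
    simp [h, this]

theorem vecR_add {n : ℕ} {a b : List ℤ} (ha : a.length = n) (hb : b.length = n) :
    vecR n (List.zipWith (fun x y => x + y) a b) = vecR n a + vecR n b := by
  ext i
  have h1 : (i : ℕ) < a.length := by rw [ha]; exact i.2
  have h2 : (i : ℕ) < b.length := by rw [hb]; exact i.2
  simp only [vecR, Pi.add_apply]
  rw [List.getD_eq_getElem _ _ (by simpa using ⟨h1, h2⟩), List.getD_eq_getElem _ _ h1,
    List.getD_eq_getElem _ _ h2]
  simp

theorem vecR_sub {n : ℕ} {a b : List ℤ} (ha : a.length = n) (hb : b.length = n) :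
    vecR n (List.zipWith (fun x y => x - y) a b) = vecR n a - vecR n b := by
  ext i
  have h1 : (i : ℕ) < a.length := by rw [ha]; exact i.2
  have h2 : (i : ℕ) < b.length := by rw [hb]; exact i.2
  simp only [vecR, Pi.sub_apply]
  rw [List.getD_eq_getElem _ _ (by simpa using ⟨h1, h2⟩), List.getD_eq_getElem _ _ h1,
    List.getD_eq_getElem _ _ h2]
  simp

theorem nval_real {n : ℕ} {L : List (List ℤ)} (hL : ∀ v ∈ L, v.length = n) (hl : L.length = n)
    {a : List ℤ} (ha : a.length = n) (i : Fin n) :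
    (nval L a i : ℝ) = 4 * (((matV n L).updateRow i (vecR n a)).det * (matV n L).det) := by
  have hi : (L.getD i []).length = n := by
    rw [List.getD_eq_getElem _ _ (by rw [hl]; exact i.2)]
    exact hL _ (List.getElem_mem _)
  have hrow : vecR n (L.getD i []) = (matV n L) i := rfl
  have h1 : (List.zipWith (fun x y => x + y) a (L.getD i [])).length = n := by
    rw [List.length_zipWith, ha, hi, min_self]
  have h2 : (List.zipWith (fun x y => x - y) a (L.getD i [])).length = n := by
    rw [List.length_zipWith, ha, hi, min_self]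
  unfold nval
  push_cast
  rw [gdet_sq (repl_mem_length hL h1) (by rw [repl_length, hl]),
    gdet_sq (repl_mem_length hL h2) (by rw [repl_length, hl]), matV_repl hl, matV_repl hl,
    vecR_add ha hi, vecR_sub ha hi, hrow, polar]

/-- upper bounds of the selected slabs -/
def hS (n : ℕ) (sel : List (List ℤ × ℤ × ℤ)) : Fin n → ℝ := fun i =>
  ((sel.getD i ([], 0, 0)).2.1 : ℝ)

/-- widths of the selected slabs -/
def wS (n : ℕ) (sel : List (List ℤ × ℤ × ℤ)) : Fin n → ℝ := fun i =>
  ((sel.getD i ([], 0, 0)).2.2 : ℝ)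

theorem map_fst_mem_length {n : ℕ} {sel : List (List ℤ × ℤ × ℤ)}
    (h : ∀ c ∈ sel, c.1.length = n) : ∀ v ∈ sel.map Prod.fst, v.length = n := by
  intro v hv
  obtain ⟨c, hc, rfl⟩ := List.mem_map.1 hv
  exact h c hc

theorem wS_pos {n : ℕ} {sel : List (List ℤ × ℤ × ℤ)} (hl : sel.length = n)
    (hW : ∀ c ∈ sel, 0 < c.2.2) (i : Fin n) : 0 < wS n sel i := by
  unfold wS
  rw [List.getD_eq_getElem _ _ (by rw [hl]; exact i.2)]
  exact_mod_cast hW _ (List.getElem_mem _)

theorem rowOk_iff {n : ℕ} {sel : List (List ℤ × ℤ × ℤ)} (hl : sel.length = n)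
    (hlen : ∀ c ∈ sel, c.1.length = n) (hW : ∀ c ∈ sel, 0 < c.2.2)
    (hV : (matV n (sel.map Prod.fst)).det ≠ 0) {r : List ℤ × ℤ} (hr : r.1.length = n) :
    rowOk sel r = true ↔ ∀ x ∈ box (matV n (sel.map Prod.fst)) (hS n sel) (wS n sel),
      vecR n r.1 ⬝ᵥ x ≤ r.2 := by
  rw [row_check hV (wS_pos hl hW)]
  unfold rowOk
  rw [decide_eq_true_eq, listRange_sum, hl]
  have hL := map_fst_mem_length hlen
  have hLl : (sel.map Prod.fst).length = n := by simp [hl]
  have e1 : (((∑ i ∈ Finset.range n, if 0 ≤ nval (sel.map Prod.fst) r.1 i then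
      nval (sel.map Prod.fst) r.1 i * (sel.getD i ([], 0, 0)).2.1
    else nval (sel.map Prod.fst) r.1 i *
      ((sel.getD i ([], 0, 0)).2.1 - (sel.getD i ([], 0, 0)).2.2)) : ℤ) : ℝ) =
      4 * ∑ i : Fin n, (if 0 ≤ ((matV n (sel.map Prod.fst)).updateRow i (vecR n r.1)).det *
        (matV n (sel.map Prod.fst)).det then
        ((matV n (sel.map Prod.fst)).updateRow i (vecR n r.1)).det *
        (matV n (sel.map Prod.fst)).det * hS n sel i
        else ((matV n (sel.map Prod.fst)).updateRow i (vecR n r.1)).det *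
        (matV n (sel.map Prod.fst)).det * (hS n sel i - wS n sel i)) := by
    rw [Finset.sum_range]
    push_cast
    rw [Finset.mul_sum]
    refine Finset.sum_congr rfl fun i _ => ?_
    have h1 := nval_real hL hLl hr i
    set t := ((matV n (sel.map Prod.fst)).updateRow i (vecR n r.1)).det *
        (matV n (sel.map Prod.fst)).det with ht
    by_cases h : 0 ≤ t
    · have h2 : 0 ≤ nval (sel.map Prod.fst) r.1 i := by
        have : (0 : ℝ) ≤ (nval (sel.map Prod.fst) r.1 i : ℝ) := by rw [h1]; linarith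
        exact_mod_cast this
      rw [if_pos h2, if_pos h]
      rw [h1]
      simp only [hS]
      ring
    · have h2 : ¬ 0 ≤ nval (sel.map Prod.fst) r.1 i := by
        intro h3
        have : (0 : ℝ) ≤ (nval (sel.map Prod.fst) r.1 i : ℝ) := by exact_mod_cast h3
        rw [h1] at this
        exact h (by linarith)
      rw [if_neg h2, if_neg h]
      rw [h1]
      simp only [hS, wS]
      ring
  have e2 : ((4 * (gdet (sel.map Prod.fst) : ℤ) * r.2 : ℤ) : ℝ) =
      4 * ((matV n (sel.map Prod.fst)).det ^ 2 * r.2) := by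
    push_cast
    rw [gdet_sq hL hLl]
    ring
  rw [← Int.cast_le (R := ℝ), e1, e2]
  constructor
  · intro h; linarith
  · intro h; linarith

theorem wprod_real {n : ℕ} {sel : List (List ℤ × ℤ × ℤ)} (hl : sel.length = n)
    (hW : ∀ c ∈ sel, 0 < c.2.2) : (wprod sel : ℝ) = ∏ i, wS n sel i := by
  subst hl
  unfold wprod wS
  induction sel with
  | nil => simp
  | cons c sel ih =>
      rw [List.map_cons, List.prod_cons, Nat.cast_mul,
        ih (fun d hd => hW d (List.mem_cons_of_mem _ hd))]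
      rw [List.length_cons, Fin.prod_univ_succ]
      congr 1
      have := hW c (by simp)
      simp only [Fin.val_zero, List.getD_cons_zero]
      rw [Nat.cast_natAbs, abs_of_pos this]

/-- what the tests guarantee -/
theorem good_sound {I : ℕ × List (List ℚ × ℚ) × ℚ} (h : good I = true) :
    1 ≤ I.1 ∧ I.1 = flen I.2.1 ∧ (∀ r ∈ I.2.1, r.1.length = I.1) ∧ 0 < I.2.2.num ∧
    0 < wprod (selOf I.2.1) ∧
    ∃ (v : Fin I.1 → ℝ) (M : Matrix (Fin I.1) (Fin I.1) ℝ), M.det ≠ 0 ∧
      polyhedron I.1 I.2.1 = para v M ∧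
      M.det ^ 2 * (gdet ((selOf I.2.1).map Prod.fst) : ℝ) =
        (wprod (selOf I.2.1) : ℝ) * wprod (selOf I.2.1) := by
  obtain ⟨n, R, t⟩ := I
  simp only [good, Bool.and_eq_true, decide_eq_true_eq, List.all_eq_true] at h
  obtain ⟨h1, h2, h3, h4, h5, h6, h7⟩ := h
  simp only at *
  have hRi : ∀ r ∈ R.map irow, r.1.length = n := by
    intro r hr
    obtain ⟨r0, hr0, rfl⟩ := List.mem_map.1 hr
    simpa [irow] using h3 r0 hr0
  have hcand : ∀ c ∈ selOf R, c ∈ cands (R.map irow) := by
    have key : ∀ k, ∀ c ∈ (gst (cands (R.map irow)))^[k] [], c ∈ cands (R.map irow) := by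
      intro k
      induction k with
      | zero => intro c hc; simp at hc
      | succ k ih =>
          intro c hc
          rw [Function.iterate_succ_apply'] at hc
          unfold gst at hc
          split at hc
          · exact ih c hc
          · rename_i d hd
            rcases List.mem_cons.1 hc with rfl | hc
            · exact best_mem _ _ hd
            · exact ih c hc
    exact key _
  have hC : ∀ c ∈ selOf R, IsCand n (polyhedron n R) c := by
    intro c hc
    rw [polyhedron_eq h3]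
    exact isCand_of_mem hRi (hcand c hc)
  have hlen : ∀ c ∈ selOf R, c.1.length = n := fun c hc => (hC c hc).len
  have hW : ∀ c ∈ selOf R, 0 < c.2.2 := fun c hc => (hC c hc).pos
  have hL := map_fst_mem_length hlen
  have hLl : ((selOf R).map Prod.fst).length = n := by simp [h5]
  have hG := gdet_sq hL hLl
  have hV : (matV n ((selOf R).map Prod.fst)).det ≠ 0 := by
    intro h0
    rw [h0] at hG
    have : (gdet ((selOf R).map Prod.fst) : ℝ) = 0 := by rw [hG]; norm_num
    have h8 : gdet ((selOf R).map Prod.fst) = 0 := by exact_mod_cast this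
    omega
  have hwp := wprod_real h5 hW
  obtain ⟨hb1, hb2⟩ := box_eq_para hV (h := hS n (selOf R)) (W := wS n (selOf R)) (wS_pos h5 hW)
  refine ⟨h1, h2, h3, h4, ?_, (matV n ((selOf R).map Prod.fst))⁻¹ *ᵥ
    (fun i => hS n (selOf R) i - wS n (selOf R) i), (matV n ((selOf R).map Prod.fst))⁻¹ *
    diagonal (wS n (selOf R)), hb2, ?_, ?_⟩
  · have : (0 : ℝ) < wprod (selOf R) := by
      rw [hwp]; exact Finset.prod_pos fun i _ => wS_pos h5 hW i
    exact_mod_cast this
  · rw [← hb1]
    apply Set.Subset.antisymm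
    · intro x hx i
      have hi : (i : ℕ) < (selOf R).length := by rw [h5]; exact i.2
      have h8 := (hC _ (List.getElem_mem hi)).sub hx
      have e1 : matV n ((selOf R).map Prod.fst) i = vecR n ((selOf R)[(i : ℕ)]).1 := by
        change vecR n (((selOf R).map Prod.fst).getD i []) = _
        rw [List.getD_eq_getElem _ _ (by simpa using hi), List.getElem_map]
      have e2 : hS n (selOf R) i = (((selOf R)[(i : ℕ)]).2.1 : ℝ) := by
        unfold hS; rw [List.getD_eq_getElem _ _ hi]
      have e3 : wS n (selOf R) i = (((selOf R)[(i : ℕ)]).2.2 : ℝ) := by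
        unfold wS; rw [List.getD_eq_getElem _ _ hi]
      rw [e1, e2, e3]
      exact h8
    · intro x hx
      rw [polyhedron_eq h3]
      intro r hr
      obtain ⟨r0, hr0, rfl⟩ := List.mem_map.1 hr
      exact (rowOk_iff h5 hlen hW hV (hRi r0 hr0)).1 (h7 r0 hr0) x hx
  · rw [det_mul, det_diagonal, hG, hwp, det_nonsing_inv, Ring.inverse_eq_inv']
    field_simp

/-! ### Completeness -/

section Complete

variable {n : ℕ} {v : Fin n → ℝ} {M : Matrix (Fin n) (Fin n) ℝ} {Ri : List (List ℤ × ℤ)}

theorem cand_exists (hM : M.det ≠ 0) (hRi : ∀ r ∈ Ri, r.1.length = n)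
    (hP : para v M = {x | ∀ r ∈ Ri.map (rrow n), r.1 ⬝ᵥ x ≤ r.2}) (i : Fin n) :
    ∃ c ∈ cands Ri, vecR n c.1 = (c.2.2 : ℝ) • nrm M i := by
  obtain ⟨r', hr', s, hs, hr1, hr2⟩ := facet hM _ hP i 1 (Or.inl rfl)
  obtain ⟨r, hr, rfl⟩ := List.mem_map.1 hr'
  obtain ⟨q', hq', t, ht, hq1, hq2⟩ := facet hM _ hP i (-1) (Or.inr rfl)
  obtain ⟨q, hq, rfl⟩ := List.mem_map.1 hq'
  simp only [rrow] at hr1 hr2 hq1 hq2
  have hF : 0 < nrm M i ⬝ᵥ nrm M i := by
    have h0 : 0 ≤ nrm M i ⬝ᵥ nrm M i := Finset.sum_nonneg fun i _ => mul_self_nonneg _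
    refine lt_of_le_of_ne h0 fun h => ?_
    have h1 := dotProduct_self_eq_zero.1 h.symm
    exact (nrm_linearIndependent hM).ne_zero i h1
  have e1 : (dotL r.1 q.1 : ℝ) = - (s * t * (nrm M i ⬝ᵥ nrm M i)) := by
    rw [dotL_real (n := n) _ (hRi r hr), hr1, hq1]
    simp only [smul_dotProduct, dotProduct_smul, smul_eq_mul]
    ring
  have e2 : (dotL r.1 r.1 : ℝ) = s * s * (nrm M i ⬝ᵥ nrm M i) := by
    rw [dotL_real (n := n) _ (hRi r hr), hr1]
    simp only [smul_dotProduct, dotProduct_smul, smul_eq_mul]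
    ring
  have e3 : (dotL q.1 q.1 : ℝ) = t * t * (nrm M i ⬝ᵥ nrm M i) := by
    rw [dotL_real (n := n) _ (hRi q hq), hq1]
    simp only [smul_dotProduct, dotProduct_smul, smul_eq_mul]
    ring
  have eW : ((-(dotL r.1 q.1) * r.2 + dotL r.1 r.1 * q.2 : ℤ) : ℝ) =
      s * t * (nrm M i ⬝ᵥ nrm M i) * s := by
    push_cast
    rw [e1, e2, hr2, hq2]
    ring
  refine ⟨(r.1.map (fun x => -(dotL r.1 q.1) * x), -(dotL r.1 q.1) * r.2,
      -(dotL r.1 q.1) * r.2 + dotL r.1 r.1 * q.2), ?_, ?_⟩
  · unfold cands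
    simp only [List.mem_flatMap]
    refine ⟨r, hr, q, hq, ?_⟩
    rw [mem_cand1]
    refine ⟨⟨⟨?_, ?_⟩, ?_⟩, rfl⟩
    · have : (0 : ℝ) < ((-(dotL r.1 q.1) : ℤ) : ℝ) := by
        rw [Int.cast_neg, e1, neg_neg]; positivity
      exact_mod_cast this
    · have : ((dotL r.1 q.1 * dotL r.1 q.1 : ℤ) : ℝ) = ((dotL r.1 r.1 * dotL q.1 q.1 : ℤ) : ℝ) := by
        push_cast
        rw [e1, e2, e3]
        ring
      exact_mod_cast this
    · have : (0 : ℝ) < ((-(dotL r.1 q.1) * r.2 + dotL r.1 r.1 * q.2 : ℤ) : ℝ) := by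
        rw [eW]; positivity
      exact_mod_cast this
  · simp only
    rw [vecR_smul, eW, hr1, smul_smul]
    push_cast
    rw [e1]
    congr 1
    ring

theorem gst_inv (hM : M.det ≠ 0) (hRi : ∀ r ∈ Ri, r.1.length = n)
    (hP : para v M = {x | ∀ r ∈ Ri.map (rrow n), r.1 ⬝ᵥ x ≤ r.2}) (k : ℕ) (hk : k ≤ n) :
    ((gst (cands Ri))^[k] []).length = k ∧
    (∀ c ∈ (gst (cands Ri))^[k] [], c ∈ cands Ri ∧
      ∃ i, vecR n c.1 = (c.2.2 : ℝ) • nrm M i ∨ vecR n c.1 = -((c.2.2 : ℝ) • nrm M i)) ∧
    LinearIndependent ℝ (fun i : Fin (((gst (cands Ri))^[k] []).map Prod.fst).length =>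
      vecR n ((((gst (cands Ri))^[k] []).map Prod.fst).get i)) := by
  induction k with
  | zero =>
      refine ⟨rfl, by simp, ?_⟩
      rw [Fintype.linearIndependent_iff]
      intro g _ i
      exact absurd i.2 (by simp)
  | succ k ih =>
      obtain ⟨i1, i2, i3⟩ := ih (by omega)
      rw [Function.iterate_succ_apply']
      set sel := (gst (cands Ri))^[k] [] with hsel
      obtain ⟨c0, hc0, -⟩ := cand_exists hM hRi hP ⟨0, by omega⟩
      obtain ⟨c, hc⟩ := best_ne_none (lt := better (sel.map Prod.fst)) (List.ne_nil_of_mem hc0)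
      have hgst : gst (cands Ri) sel = c :: sel := by
        unfold gst; rw [hc]
      have hcm := best_mem _ _ hc
      have hCand := fun c (hc : c ∈ cands Ri) => isCand_of_mem hRi hc
      have hcc := hCand c hcm
      rw [← hP] at hcc
      have hlenL : ∀ u ∈ sel.map Prod.fst, u.length = n :=
        map_fst_mem_length fun d hd => (hCand d (i2 d hd).1).len
      have hWr : (0 : ℝ) < c.2.2 := by exact_mod_cast hcc.pos
      have hspec := best_spec (lt := better (sel.map Prod.fst))
        (fun c : List ℤ × ℤ × ℤ => (toLex (-((gdet (c.1 :: sel.map Prod.fst) : ℝ) /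
          ((c.2.2 : ℝ) * c.2.2)), -((dotL c.1 c.1 : ℝ) / ((c.2.2 : ℝ) * c.2.2))) : ℝ ×ₗ ℝ))
        (cands Ri) (fun a ha b hb => better_iff (hCand a ha).pos (hCand b hb).pos) c hc
      have hnorm : ∀ d ∈ cands Ri, (gdet (d.1 :: sel.map Prod.fst) : ℝ) / ((d.2.2 : ℝ) * d.2.2) =
          mix (fun i : Fin (sel.map Prod.fst).length => vecR n ((sel.map Prod.fst).get i))
            ((d.2.2 : ℝ)⁻¹ • vecR n d.1) ((d.2.2 : ℝ)⁻¹ • vecR n d.1) := by
        intro d hd
        rw [gdet_cons hlenL (hCand d hd).len, mix_smul_left,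
          mix_comm _ (vecR n d.1) ((d.2.2 : ℝ)⁻¹ • vecR n d.1), mix_smul_left]
        have : (d.2.2 : ℝ) ≠ 0 := by exact_mod_cast (hCand d hd).pos.ne'
        field_simp
      have hnorm2 : ∀ d ∈ cands Ri, (dotL d.1 d.1 : ℝ) / ((d.2.2 : ℝ) * d.2.2) =
          ((d.2.2 : ℝ)⁻¹ • vecR n d.1) ⬝ᵥ ((d.2.2 : ℝ)⁻¹ • vecR n d.1) := by
        intro d hd
        rw [dotL_real (n := n) _ (hCand d hd).len]
        simp only [smul_dotProduct, dotProduct_smul, smul_eq_mul]
        have : (d.2.2 : ℝ) ≠ 0 := by exact_mod_cast (hCand d hd).pos.ne'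
        field_simp
      have hstep := greedy_step hM (k := (sel.map Prod.fst).length)
        (by rw [List.length_map, i1]; omega)
        (E := fun i : Fin (sel.map Prod.fst).length => vecR n ((sel.map Prod.fst).get i))
        hWr hcc.sub ?_ i3
      · obtain ⟨hs1, hs2⟩ := hstep
        rw [hgst]
        refine ⟨by simp [i1], ?_, ?_⟩
        · intro d hd
          rcases List.mem_cons.1 hd with rfl | hd
          · exact ⟨hcm, hs1⟩
          · exact i2 d hd
        · have e : (fun i : Fin ((c :: sel).map Prod.fst).length =>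
              vecR n (((c :: sel).map Prod.fst).get i)) =
              (Fin.cons (vecR n c.1) (fun i : Fin (sel.map Prod.fst).length =>
                vecR n ((sel.map Prod.fst).get i)) :
                Fin ((sel.map Prod.fst).length + 1) → Fin n → ℝ) := by
            funext i
            refine Fin.cases ?_ (fun i => ?_) i
            · rfl
            · rfl
          rw [e]
          exact hs2
      · intro i
        obtain ⟨d, hd, hdi⟩ := cand_exists hM hRi hP i
        have hd0 : (d.2.2 : ℝ) ≠ 0 := by exact_mod_cast (hCand d hd).pos.ne'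
        have h1 := hspec d hd
        rw [Prod.Lex.toLex_le_toLex] at h1
        simp only [neg_lt_neg_iff, neg_inj, neg_le_neg_iff] at h1
        rw [hnorm c hcm, hnorm d hd, hnorm2 c hcm, hnorm2 d hd, hdi, smul_smul,
          inv_mul_cancel₀ hd0, one_smul] at h1
        rcases h1 with h1 | ⟨h1, h2⟩
        · exact Or.inl h1
        · exact Or.inr ⟨h1.symm, h2⟩

end Complete

end Pool.Agent.H670R2.Simplex
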