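import Pool.Agent.H670R2.SimplexAlg2

/-!
# Completeness of the algorithm, and the threshold structure of the case `γ(n) = n`
-/

namespace Pool.Agent.H670R2.Simplex

open Pool.Agent.NPC Pool.Agent.NPC.H670R2 Pool.Agent.H670R2.Para Matrix

theorem good_complete {I : ℕ × List (List ℚ × ℚ) × ℚ} (hI : Valid I) : good I = true := by
  obtain ⟨n, R, t⟩ := I
  obtain ⟨h1, h3, ⟨v, M, hM, hP0⟩, ht⟩ := hI
  simp only at h1 h3 hP0 ht v M hM
  have hPp : polyhedron n R = para v M := hP0
  have hRi : ∀ r ∈ R.map irow, r.1.length = n := by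
    intro r hr
    obtain ⟨r0, hr0, rfl⟩ := List.mem_map.1 hr
    simpa [irow] using h3 r0 hr0
  have hP : para v M = {x | ∀ r ∈ (R.map irow).map (rrow n), r.1 ⬝ᵥ x ≤ r.2} := by
    rw [← hPp, polyhedron_eq h3]
  -- the first row
  have hflen : n = flen R := by
    obtain ⟨c, hc, -⟩ := cand_exists hM hRi hP ⟨0, h1⟩
    unfold flen
    cases R with
    | nil => simp [cands] at hc
    | cons r R => simp [h3 r (by simp)]
  obtain ⟨g1, g2, g3⟩ := gst_inv hM hRi hP n le_rfl
  have hsel : selOf R = (gst (cands (R.map irow)))^[n] [] := by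
    unfold selOf; rw [← hflen]
  rw [← hsel] at g1 g2 g3
  have hC : ∀ c ∈ selOf R, IsCand n (para v M) c := by
    intro c hc
    rw [hP]
    exact isCand_of_mem hRi (g2 c hc).1
  have hlen : ∀ c ∈ selOf R, c.1.length = n := fun c hc => (hC c hc).len
  have hW : ∀ c ∈ selOf R, 0 < c.2.2 := fun c hc => (hC c hc).pos
  have hL := map_fst_mem_length hlen
  have hLl : ((selOf R).map Prod.fst).length = n := by simp [g1]
  have hGpos : 0 < gdet ((selOf R).map Prod.fst) := by
    have : (0 : ℝ) < gdet ((selOf R).map Prod.fst) := by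
      rw [gdet_real hL, gramR_det_pos_iff]
      exact g3
    exact_mod_cast this
  have hG := gdet_sq hL hLl
  have hV : (matV n ((selOf R).map Prod.fst)).det ≠ 0 := by
    intro h0
    rw [h0] at hG
    have : (gdet ((selOf R).map Prod.fst) : ℝ) = 0 := by rw [hG]; norm_num
    have h8 : gdet ((selOf R).map Prod.fst) = 0 := by exact_mod_cast this
    omega
  -- rows of the matrix
  have hrow : ∀ i : Fin n, ∃ c ∈ selOf R, matV n ((selOf R).map Prod.fst) i = vecR n c.1 ∧
      hS n (selOf R) i = c.2.1 ∧ wS n (selOf R) i = c.2.2 := by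
    intro i
    have hi : (i : ℕ) < (selOf R).length := by rw [g1]; exact i.2
    refine ⟨(selOf R)[(i : ℕ)], List.getElem_mem hi, ?_, ?_, ?_⟩
    · change vecR n (((selOf R).map Prod.fst).getD i []) = _
      rw [List.getD_eq_getElem _ _ (by simpa using hi), List.getElem_map]
    · unfold hS; rw [List.getD_eq_getElem _ _ hi]
    · unfold wS; rw [List.getD_eq_getElem _ _ hi]
  have hσ : ∀ j : Fin n, ∃ i : Fin n, matV n ((selOf R).map Prod.fst) j =
      (wS n (selOf R) j) • nrm M i ∨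
      matV n ((selOf R).map Prod.fst) j = -((wS n (selOf R) j) • nrm M i) := by
    intro j
    obtain ⟨c, hc, e1, e2, e3⟩ := hrow j
    obtain ⟨i, hi⟩ := (g2 c hc).2
    rw [← e1, ← e3] at hi
    exact ⟨i, hi⟩
  choose σ hσ' using hσ
  have hindep : LinearIndependent ℝ (fun j : Fin n => matV n ((selOf R).map Prod.fst) j) := by
    rw [← gramR_det_pos_iff, gramR_det_sq]
    have e : (Matrix.of fun j : Fin n => matV n ((selOf R).map Prod.fst) j) =
        matV n ((selOf R).map Prod.fst) := rfl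
    rw [e]
    positivity
  have hinj : Function.Injective σ := by
    intro j j' hjj
    by_contra hne
    obtain ⟨a, ha0, ha⟩ : ∃ a : ℝ, a ≠ 0 ∧
        matV n ((selOf R).map Prod.fst) j = a • nrm M (σ j) := by
      have hw := (wS_pos g1 hW j).ne'
      rcases hσ' j with h | h
      · exact ⟨_, hw, h⟩
      · exact ⟨-(wS n (selOf R) j), neg_ne_zero.2 hw, by rw [h, neg_smul]⟩
    obtain ⟨b, hb0, hb⟩ : ∃ b : ℝ, b ≠ 0 ∧
        matV n ((selOf R).map Prod.fst) j' = b • nrm M (σ j') := by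
      have hw := (wS_pos g1 hW j').ne'
      rcases hσ' j' with h | h
      · exact ⟨_, hw, h⟩
      · exact ⟨-(wS n (selOf R) j'), neg_ne_zero.2 hw, by rw [h, neg_smul]⟩
    have h9 := Fintype.linearIndependent_iff.1 hindep
      (fun k => if k = j then b else if k = j' then -a else 0) (by
        rw [Finset.sum_eq_add j j' hne (fun k _ hk => by simp [hk.1, hk.2])
          (fun h => absurd (Finset.mem_univ _) h) (fun h => absurd (Finset.mem_univ _) h)]
        simp only [if_true, Ne.symm hne, if_false]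
        rw [ha, hb, ← hjj, smul_smul, smul_smul, neg_mul, neg_smul, mul_comm b a]
        simp) j
    simp only [if_true] at h9
    exact hb0 h9
  have hsurj : Function.Surjective σ := Finite.surjective_of_injective hinj
  have hbox : box (matV n ((selOf R).map Prod.fst)) (hS n (selOf R)) (wS n (selOf R)) ⊆
      para v M := by
    intro x hx
    rw [mem_para_iff hM]
    intro i
    obtain ⟨j, rfl⟩ := hsurj i
    obtain ⟨c, hc, e1, e2, e3⟩ := hrow j
    have hsl := (hC c hc).sub
    rw [← e1, ← e2, ← e3] at hsl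
    exact slab_sub hM (wS_pos g1 hW j) hsl (σ j) (hσ' j) (hx j)
  simp only [good, Bool.and_eq_true, decide_eq_true_eq, List.all_eq_true]
  refine ⟨h1, hflen, h3, Rat.num_pos.2 ht, g1, hGpos, ?_⟩
  intro r hr
  rw [rowOk_iff g1 hlen hW hV (hRi r hr)]
  intro x hx
  have h10 := hbox hx
  rw [hP] at h10
  exact h10 (rrow n r) (List.mem_map_of_mem hr)

theorem valid_of_good {I : ℕ × List (List ℚ × ℚ) × ℚ} (h : good I = true) : Valid I := by
  obtain ⟨h1, -, h3, h4, -, v, M, hM, hP, -⟩ := good_sound h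
  exact ⟨h1, h3, ⟨v, M, hM, hP⟩, Rat.num_pos.1 h4⟩

/-! ### Simplices of full dimension -/

theorem sqVol_image {n : ℕ} (v : Fin n → ℝ) (M : Matrix (Fin n) (Fin n) ℝ)
    (y : Fin (n + 1) → Fin n → ℝ) :
    sqVol (fun k => v + M *ᵥ y k) = M.det ^ 2 * sqVol y := by
  have key : ∀ p : Fin (n + 1) → Fin n → ℝ, sqVol p =
      (Matrix.of fun a : Fin n => p a.succ - p 0).det ^ 2 := by
    intro p
    exact gramR_det_sq (fun a : Fin n => p a.succ - p 0)
  rw [key, key]
  have h : (Matrix.of fun a : Fin n => (v + M *ᵥ y a.succ) - (v + M *ᵥ y 0)) =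
      (Matrix.of fun a : Fin n => y a.succ - y 0) * Mᵀ := by
    ext a b
    simp only [Matrix.of_apply, Matrix.mul_apply, Matrix.transpose_apply, Pi.sub_apply,
      Pi.add_apply, Matrix.mulVec, dotProduct]
    rw [add_sub_add_left_eq_sub, ← Finset.sum_sub_distrib]
    refine Finset.sum_congr rfl fun k _ => ?_
    ring
  rw [h, det_mul, det_transpose]
  ring

theorem para_convex {n : ℕ} (v : Fin n → ℝ) (M : Matrix (Fin n) (Fin n) ℝ) :
    Convex ℝ (para v M) := by
  rintro _ ⟨y, hy, rfl⟩ _ ⟨z, hz, rfl⟩ a b ha hb hab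
  refine ⟨a • y + b • z, fun i => ?_, ?_⟩
  · simp only [Pi.add_apply, Pi.smul_apply, smul_eq_mul]
    constructor
    · have := mul_nonneg ha (hy i).1
      have := mul_nonneg hb (hz i).1
      linarith
    · have h1 := mul_le_mul_of_nonneg_left (hy i).2 ha
      have h2 := mul_le_mul_of_nonneg_left (hz i).2 hb
      linarith
  · rw [mulVec_add, mulVec_smul, mulVec_smul, smul_add, smul_add]
    have : v = a • v + b • v := by rw [← add_smul, hab, one_smul]
    conv_rhs => rw [this]
    abel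

/-- the configurations of `n + 1` points of the cube -/
def CubePts (n : ℕ) (Y : Fin (n + 1) → Fin n → ℝ) : Prop := ∀ k i, 0 ≤ Y k i ∧ Y k i ≤ 1

theorem hasSimplex_iff {I : ℕ × List (List ℚ × ℚ) × ℚ} {v : Fin I.1 → ℝ}
    {M : Matrix (Fin I.1) (Fin I.1) ℝ} (hP : polyhedron I.1 I.2.1 = para v M)
    (ht : 0 < I.2.2) :
    HasSimplex (fun n => n) I ↔ ∃ Y : Fin (I.1 + 1) → Fin I.1 → ℝ, CubePts I.1 Y ∧
      (I.2.2 : ℝ) ≤ M.det ^ 2 * sqVol Y := by
  have ht' : (0 : ℝ) < I.2.2 := by exact_mod_cast ht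
  constructor
  · rintro ⟨p, -, hp, hle⟩
    have hmem : ∀ k, p k ∈ para v M := fun k => by
      rw [← hP]
      exact hp (subset_convexHull ℝ _ ⟨k, rfl⟩)
    choose Y hY1 hY2 using hmem
    refine ⟨Y, hY1, ?_⟩
    rw [← sqVol_image v M Y]
    have : (fun k => v + M *ᵥ Y k) = p := by
      funext k; exact (hY2 k).symm
    rw [this]
    exact hle
  · rintro ⟨Y, hY, hle⟩
    refine ⟨fun k => v + M *ᵥ Y k, ?_, ?_, ?_⟩
    · rw [← sqVol_image v M Y] at hle
      have hpos := lt_of_lt_of_le ht' hle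
      have h1 : LinearIndependent ℝ (fun a : Fin I.1 =>
          (v + M *ᵥ Y a.succ) - (v + M *ᵥ Y 0)) :=
        (gramR_det_pos_iff _).1 hpos
      rw [affineIndependent_iff_linearIndependent_vsub ℝ _ (0 : Fin (I.1 + 1))]
      have h2 := h1.comp (fun x : {x : Fin (I.1 + 1) // x ≠ 0} => x.1.pred x.2) (by
        intro x y hxy
        exact Subtype.ext (Fin.pred_inj.1 hxy))
      refine (linearIndependent_equiv' (Equiv.refl _) ?_).1 h2
      funext x
      simp [Fin.succ_pred]
    · rw [hP]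
      refine convexHull_min ?_ (para_convex v M)
      rintro _ ⟨k, rfl⟩
      exact ⟨Y k, hY k, rfl⟩
    · rw [sqVol_image]
      exact hle

/-- the key determines the answer, through a threshold for each dimension -/
theorem key_spec {I : ℕ × List (List ℚ × ℚ) × ℚ} {d a b : ℕ} (h : key I = some (d, a, b)) :
    0 < b ∧ d = flen I.2.1 ∧ (SimplexProblem (fun n => n) I ↔
      ∃ Y : Fin (d + 1) → Fin d → ℝ, CubePts d Y ∧ (a : ℝ) / b ≤ sqVol Y) := by
  unfold key at h
  split_ifs at h with hg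
  simp only [Option.some.injEq, Prod.mk.injEq] at h
  obtain ⟨rfl, rfl, rfl⟩ := h
  obtain ⟨h1, h2, h3, h4, h5, v, M, hM, hP, hdet⟩ := good_sound hg
  have hden : 0 < I.2.2.den * (wprod (selOf I.2.1) * wprod (selOf I.2.1)) :=
    Nat.mul_pos I.2.2.pos (Nat.mul_pos h5 h5)
  refine ⟨hden, h2, ?_⟩
  have h6 : SimplexProblem (fun n => n) I ↔ HasSimplex (fun n => n) I :=
    ⟨fun h => h.2, fun h => ⟨valid_of_good hg, h⟩⟩
  rw [h6, hasSimplex_iff hP (Rat.num_pos.1 h4)]
  refine exists_congr fun Y => and_congr_right fun _ => ?_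
  have hW : (0 : ℝ) < wprod (selOf I.2.1) := by exact_mod_cast h5
  have hd : (0 : ℝ) < I.2.2.den := by exact_mod_cast I.2.2.pos
  have hM2 : 0 < M.det ^ 2 := by positivity
  have hlam : (I.2.2 : ℝ) = (I.2.2.num.natAbs : ℝ) / I.2.2.den := by
    conv_lhs => rw [← Rat.num_div_den I.2.2]
    rw [Nat.cast_natAbs, abs_of_pos h4]
    push_cast
    rfl
  have hG : (gdet ((selOf I.2.1).map Prod.fst) : ℝ) =
      (wprod (selOf I.2.1) : ℝ) * wprod (selOf I.2.1) / M.det ^ 2 := by
    rw [eq_div_iff hM2.ne', mul_comm]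
    exact hdet
  have hab : (((I.2.2.num.natAbs * gdet ((selOf I.2.1).map Prod.fst) : ℕ)) : ℝ) /
      ((I.2.2.den * (wprod (selOf I.2.1) * wprod (selOf I.2.1)) : ℕ) : ℝ) =
      (I.2.2 : ℝ) / M.det ^ 2 := by
    push_cast
    rw [hG, hlam]
    push_cast
    field_simp
  rw [hab, div_le_iff₀ hM2, mul_comm]

theorem key_mono {I I' : ℕ × List (List ℚ × ℚ) × ℚ} {d a b a' b' : ℕ}
    (h : key I = some (d, a, b)) (h' : key I' = some (d, a', b')) (hle : a * b' ≤ a' * b)
    (hI' : SimplexProblem (fun n => n) I') : SimplexProblem (fun n => n) I := by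
  obtain ⟨p1, -, e1⟩ := key_spec h
  obtain ⟨p2, -, e2⟩ := key_spec h'
  rw [e1]
  obtain ⟨Y, hY, hY2⟩ := e2.1 hI'
  refine ⟨Y, hY, le_trans ?_ hY2⟩
  have q1 : (0 : ℝ) < b := by exact_mod_cast p1
  have q2 : (0 : ℝ) < b' := by exact_mod_cast p2
  rw [div_le_div_iff₀ q1 q2]
  exact_mod_cast hle

theorem key_of_problem {γ : ℕ → ℕ} {I : ℕ × List (List ℚ × ℚ) × ℚ}
    (h : SimplexProblem γ I) : key I ≠ none := by
  unfold key
  rw [if_pos (good_complete h.1)]
  simp

end Pool.Agent.H670R2.Simplex
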