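import Pool.Agent.NPC.Dec

/-!
# Largest simplices in parallelotopes given by inequalities: the decision problems
-/

namespace Pool.Agent.H670R2.Simplex

open Pool.Agent.NPC Matrix

/-- The polyhedron of all `x ∈ ℝⁿ` with `a · x ≤ b` for every row `(a, b)` of the rational
system `R`. -/
def polyhedron (n : ℕ) (R : List (List ℚ × ℚ)) : Set (Fin n → ℝ) :=
  {x | ∀ r ∈ R, ∑ i : Fin n, (r.1.getD i 0 : ℝ) * x i ≤ (r.2 : ℝ)}

/-- `P` is an `n`-dimensional parallelotope: the image of the cube `[0,1]ⁿ` under an invertible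
affine map `y ↦ v + M y`. -/
def IsParallelotope {n : ℕ} (P : Set (Fin n → ℝ)) : Prop :=
  ∃ (v : Fin n → ℝ) (M : Matrix (Fin n) (Fin n) ℝ), M.det ≠ 0 ∧
    P = {x | ∃ y : Fin n → ℝ, (∀ i, 0 ≤ y i ∧ y i ≤ 1) ∧ x = v + M *ᵥ y}

/-- `(j!)² vol_j(S)²` for the simplex `S` with vertices `p 0, …, p j`: the Gram determinant of the
edge vectors `p 1 - p 0, …, p j - p 0`. -/
noncomputable def sqVol {n j : ℕ} (p : Fin (j + 1) → Fin n → ℝ) : ℝ :=
  (Matrix.of fun a b : Fin j => (p a.succ - p 0) ⬝ᵥ (p b.succ - p 0)).det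

/-- An instance `(n, R, t)` consists of the dimension, the system of inequalities and the threshold
(called `λ` in the problem).  It is valid if `n ≥ 1`, all rows have `n` coefficients, the
polyhedron is an `n`-dimensional parallelotope and the threshold is positive. -/
def Valid (I : ℕ × List (List ℚ × ℚ) × ℚ) : Prop :=
  1 ≤ I.1 ∧ (∀ r ∈ I.2.1, r.1.length = I.1) ∧ IsParallelotope (polyhedron I.1 I.2.1) ∧ 0 < I.2.2

/-- The parallelotope contains a `γ(n)`-simplex `S` (the convex hull of affinely independent points)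
with `(j!)² vol_j(S)² ≥ t`, `j = γ(n)`. -/
def HasSimplex (γ : ℕ → ℕ) (I : ℕ × List (List ℚ × ℚ) × ℚ) : Prop :=
  ∃ p : Fin (γ I.1 + 1) → Fin I.1 → ℝ, AffineIndependent ℝ p ∧
    convexHull ℝ (Set.range p) ⊆ polyhedron I.1 I.2.1 ∧ (I.2.2 : ℝ) ≤ sqVol p

/-- The decision version of the problem `Π_γ`. -/
def SimplexProblem (γ : ℕ → ℕ) (I : ℕ × List (List ℚ × ℚ) × ℚ) : Prop :=
  Valid I ∧ HasSimplex γ I

/-- `NP`-hardness of the decision version as a problem whose instances are parallelotopes: every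
language in `NP` has a polynomial-time reduction all of whose values are valid instances. -/
def HardOnValid (γ : ℕ → ℕ) : Prop :=
  ∀ L : Set (List Bool), InNP L → ∃ f : List Bool → ℕ × List (List ℚ × ℚ) × ℚ,
    PolyTime (fun x => bits (f x)) ∧ (∀ x, Valid (f x)) ∧ ∀ x, x ∈ L ↔ HasSimplex γ (f x)

/-- `P = NP`. -/
def PEqNP : Prop := ∀ L : Set (List Bool), InNP L → InP L

end Pool.Agent.H670R2.Simplex
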