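import Pool.Agent.H670R2.SimplexPoly
import Pool.Agent.H670R2.Collapse

/-!
# `Π_γ` is `NP`-hard for all `γ` if and only if `P = NP`
-/

namespace Pool.Agent.H670R2.Simplex

open Pool.Agent.NPC Pool.Agent.NPC.H670R2 Pool.Agent.H670R2.Para Matrix

/-- If the case `γ(n) = n` is `NP`-hard then `P = NP`. -/
theorem peqnp_of_hard (h : NPHardP (SimplexProblem fun n => n)) : PEqNP := by
  refine collapse (key := key) poly_key Polynomial.X ?_ ?_ ?_ ?_ h
  · intro I d a b hk
    obtain ⟨-, h2, -⟩ := key_spec hk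
    rw [Polynomial.eval_X, h2]
    unfold flen
    cases hR : I.2.1 with
    | nil => simp
    | cons r R =>
        simp only [List.map_cons, List.head?_cons, Option.getD_some]
        have h3 := length_lt_sz r.1
        have h4 : r ∈ I.2.1 := by rw [hR]; simp
        have h5 := sz_le_of_mem h4
        have h6 : sz r = sz r.1 + sz r.2 + 1 := sz_pair _ _
        have h7 : sz I = sz I.1 + (sz I.2.1 + sz I.2.2 + 1) + 1 := by
          have e1 : sz I = sz I.1 + sz I.2 + 1 := sz_pair _ _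
          have e2 : sz I.2 = sz I.2.1 + sz I.2.2 + 1 := sz_pair _ _
          rw [e1, e2]
        omega
  · intro I d a b hk
    exact (key_spec hk).1
  · intro I hI
    exact key_of_problem hI
  · intro I I' d a b a' b' hk hk' hle hI'
    exact key_mono hk hk' hle hI'

/-- the unit interval -/
def unitR : List (List ℚ × ℚ) := [([1], 1), ([-1], 0)]

/-- the instance with the unit interval and threshold `t` -/
def unitI (t : ℚ) : ℕ × List (List ℚ × ℚ) × ℚ := (1, unitR, t)

theorem unit_poly : polyhedron 1 unitR = para (0 : Fin 1 → ℝ) (1 : Matrix (Fin 1) (Fin 1) ℝ) := by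
  ext x
  have e1 : x ∈ polyhedron 1 unitR ↔ x 0 ≤ 1 ∧ -x 0 ≤ 0 := by
    simp [polyhedron, unitR]
  rw [e1]
  constructor
  · rintro ⟨h1, h2⟩
    refine ⟨x, fun i => ?_, by simp⟩
    rw [Subsingleton.elim i 0]
    exact ⟨by linarith, h1⟩
  · rintro ⟨y, hy, hx⟩
    have : x 0 = y 0 := by rw [hx]; simp
    rw [this]
    exact ⟨(hy 0).2, by linarith [(hy 0).1]⟩

theorem unit_para : IsParallelotope (polyhedron 1 unitR) :=
  ⟨(0 : Fin 1 → ℝ), (1 : Matrix (Fin 1) (Fin 1) ℝ), by rw [Matrix.det_one]; exact one_ne_zero,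
    unit_poly⟩

theorem unit_valid {t : ℚ} (ht : 0 < t) : Valid (unitI t) := by
  refine ⟨le_rfl, ?_, unit_para, ht⟩
  intro r hr
  simp only [unitI, unitR, List.mem_cons, List.not_mem_nil, or_false] at hr
  rcases hr with rfl | rfl <;> rfl

theorem hasSimplex_congr {γ γ' : ℕ → ℕ} {I : ℕ × List (List ℚ × ℚ) × ℚ} (h : γ I.1 = γ' I.1) :
    HasSimplex γ I ↔ HasSimplex γ' I := by
  unfold HasSimplex
  rw [h]

theorem unit_iff {γ : ℕ → ℕ} (hγ : γ 1 = 1) {t : ℚ} (ht : 0 < t) :
    HasSimplex γ (unitI t) ↔ t ≤ 1 := by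
  rw [hasSimplex_congr (γ' := fun n => n) (by exact hγ),
    hasSimplex_iff (I := unitI t) (v := (0 : Fin 1 → ℝ)) (M := (1 : Matrix (Fin 1) (Fin 1) ℝ))
      unit_poly ht]
  change (∃ Y : Fin (1 + 1) → Fin 1 → ℝ, CubePts 1 Y ∧
    (t : ℝ) ≤ (1 : Matrix (Fin 1) (Fin 1) ℝ).det ^ 2 * sqVol Y) ↔ t ≤ 1
  have key : ∀ Y : Fin (1 + 1) → Fin 1 → ℝ, (1 : Matrix (Fin 1) (Fin 1) ℝ).det ^ 2 * sqVol Y =
      (Y 1 0 - Y 0 0) ^ 2 := by
    intro Y
    simp [sqVol, dotProduct, sq]
  constructor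
  · rintro ⟨Y, hY, hle⟩
    rw [key Y] at hle
    have h2 := hY 0 0
    have h3 := hY 1 0
    have h4 : (Y 1 0 - Y 0 0) ^ 2 ≤ 1 := by
      have a1 : -1 ≤ Y 1 0 - Y 0 0 := by linarith [h2.2, h3.1]
      have a2 : Y 1 0 - Y 0 0 ≤ 1 := by linarith [h2.1, h3.2]
      nlinarith
    exact_mod_cast hle.trans h4
  · intro h
    refine ⟨fun k _ => if k = 0 then 0 else 1, ?_, ?_⟩
    · intro k i
      simp only
      split_ifs <;> norm_num
    · rw [key]
      simp only [if_true]
      norm_num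
      exact_mod_cast h

/-- If `P = NP` then `Π_γ` is `NP`-hard for every admissible `γ`, even for reductions all of whose
values are parallelotopes. -/
theorem hardOnValid_of_peqnp (h : PEqNP) {γ : ℕ → ℕ} (hγ : γ 1 = 1) : HardOnValid γ := by
  intro L hL
  obtain ⟨V, hV, hVL⟩ := h L hL
  refine ⟨fun x => if V x = [true] then unitI 1 else unitI 2, ?_, ?_, ?_⟩
  · exact polyTime_bits (Poly.ite (p := fun x => V x = [true])
      (Poly.decide_eq (poly_raw hV) (NPC.Poly.const _)) (NPC.Poly.const _) (NPC.Poly.const _))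
  · intro x
    simp only
    split_ifs
    · exact unit_valid (by norm_num)
    · exact unit_valid (by norm_num)
  · intro x
    rw [hVL]
    simp only
    split_ifs with hx
    · rw [unit_iff hγ (by norm_num)]
      simp [hx]
    · rw [unit_iff hγ (by norm_num)]
      norm_num
      exact hx

theorem HardOnValid.npHardP {γ : ℕ → ℕ} (h : HardOnValid γ) : NPHardP (SimplexProblem γ) := by
  intro L hL
  obtain ⟨f, hf, hv, hL⟩ := h L hL
  refine ⟨fun x => bits (f x), hf, fun x => ?_⟩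
  rw [bits_mem_lang, hL]
  exact ⟨fun h => ⟨hv x, h⟩, fun h => h.2⟩

end Pool.Agent.H670R2.Simplex
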