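import Pool.Agent.H670R2.SlQuad

/-!
Relations between labels that simulate positive arithmetic.
-/

namespace Pool.Agent.H670R2.Sl

/-- positive constraints `(tag, x, y, z)`: `x + y = z` if `tag = 0`, `x * y = z` otherwise -/
abbrev Pc : Type := ℕ × ℕ × ℕ × ℕ

def Pc.holds (x : ℕ → ℝ) (c : Pc) : Prop :=
  if c.1 = 0 then x c.2.1 + x c.2.2.1 = x c.2.2.2 else x c.2.1 * x c.2.2.1 = x c.2.2.2

def Pc.below (W : ℕ) (c : Pc) : Prop := c.2.1 < W ∧ c.2.2.1 < W ∧ c.2.2.2 < W

/-- the four labels of the block `s` -/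
def lC (s : ℕ) : ℕ := 1 + 4 * s
def lU (s : ℕ) : ℕ := 2 + 4 * s
def lV (s : ℕ) : ℕ := 3 + 4 * s
def lT (s : ℕ) : ℕ := 4 + 4 * s

/-- number of blocks -/
def nS (W : ℕ) (cs : List Pc) : ℕ := W + 6 * cs.length

/-- number of slopes -/
def nK (W : ℕ) (cs : List Pc) : ℕ := 4 * nS W cs + 2

/-- the normalised values of the blocks `s` and `g` are equal -/
def wire (s g : ℕ) : Rl := (0, lT g, lC g, lC s, lT s)

/-- the relations for a constraint, in the blocks `g, …, g + 5` -/
def group (c : Pc) (g : ℕ) : List Rl :=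
  if c.1 = 0 then
    [wire c.2.1 g, wire c.2.2.1 (g + 2), wire c.2.2.2 (g + 4),
      (1, lU (g + 1), lC (g + 1), 0, lT g),
      (0, lU (g + 3), lC (g + 3), lC (g + 1), lU (g + 1)),
      (1, lV (g + 3), lU (g + 3), 0, lT (g + 2)),
      (1, lU (g + 5), lC (g + 5), 0, lT (g + 4)),
      (0, lU (g + 5), lC (g + 5), lC (g + 3), lV (g + 3))]
  else
    [wire c.2.1 g, wire c.2.2.1 (g + 3), wire c.2.2.2 (g + 1), wire 0 (g + 2),
      (0, lT (g + 3), lT (g + 2), lT g, lT (g + 1))]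

/-- all relations -/
def rels (W : ℕ) (cs : List Pc) : List Rl :=
  (List.range (nS W cs - 2)).map (fun s => ((0, lC (s + 2), lC (s + 1), lC 0, lC 1) : Rl)) ++
    cs.zipIdx.flatMap fun c => group c.1 (W + 6 * c.2)

theorem mem_rels {W : ℕ} {cs : List Pc} {r : Rl} : r ∈ rels W cs ↔
    (∃ s < nS W cs - 2, r = (0, lC (s + 2), lC (s + 1), lC 0, lC 1)) ∨
    ∃ i c, cs[i]? = some c ∧ r ∈ group c (W + 6 * i) := by
  simp only [rels, List.mem_append, List.mem_map, List.mem_range, List.mem_flatMap]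
  constructor
  · rintro (⟨s, hs, rfl⟩ | ⟨⟨c, i⟩, hc, hr⟩)
    · exact Or.inl ⟨s, hs, rfl⟩
    · rw [List.mem_zipIdx_iff_getElem?] at hc
      exact Or.inr ⟨i, c, hc, hr⟩
  · rintro (⟨s, hs, rfl⟩ | ⟨i, c, hc, hr⟩)
    · exact Or.inl ⟨s, hs, rfl⟩
    · exact Or.inr ⟨(c, i), by rw [List.mem_zipIdx_iff_getElem?]; exact hc, hr⟩

theorem rels_ok {W : ℕ} (hW : 2 ≤ W) {cs : List Pc} (hb : ∀ c ∈ cs, c.below W) :
    ∀ r ∈ rels W cs, Rl.ok (nK W cs) r := by
  intro r hr
  rcases mem_rels.1 hr with ⟨s, hs, rfl⟩ | ⟨i, c, hc, hr⟩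
  · refine ⟨⟨?_, ?_⟩, ⟨?_, ?_⟩, ⟨?_, ?_⟩, ?_, Or.inl ⟨rfl, ?_, ?_, ?_⟩⟩ <;>
      simp only [lC, nK] <;> omega
  · obtain ⟨hi, hci⟩ := List.getElem?_eq_some_iff.1 hc
    obtain ⟨b1, b2, b3⟩ := hb c (by rw [← hci]; exact List.getElem_mem hi)
    have hS : W + 6 * i + 6 ≤ nS W cs := by unfold nS; omega
    simp only [group] at hr
    split_ifs at hr
    · simp only [List.mem_cons, List.not_mem_nil, or_false] at hr
      rcases hr with rfl | rfl | rfl | rfl | rfl | rfl | rfl | rfl <;> first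
        | (refine ⟨⟨?_, ?_⟩, ⟨?_, ?_⟩, ⟨?_, ?_⟩, ?_, Or.inl ⟨rfl, ?_, ?_, ?_⟩⟩ <;>
            simp only [wire, lC, lU, lV, lT, nK] <;> omega)
        | (refine ⟨⟨?_, ?_⟩, ⟨?_, ?_⟩, ⟨?_, ?_⟩, ?_, Or.inr ⟨rfl, rfl⟩⟩ <;>
            simp only [wire, lC, lU, lV, lT, nK] <;> omega)
    · simp only [List.mem_cons, List.not_mem_nil, or_false] at hr
      rcases hr with rfl | rfl | rfl | rfl | rfl <;>
        (refine ⟨⟨?_, ?_⟩, ⟨?_, ?_⟩, ⟨?_, ?_⟩, ?_, Or.inl ⟨rfl, ?_, ?_, ?_⟩⟩ <;>
            simp only [wire, lC, lT, nK] <;> omega)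

theorem pc_of_rels {W : ℕ} (hW : 2 ≤ W) {cs : List Pc} (hb : ∀ c ∈ cs, c.below W) {t : ℕ → ℝ}
    (ht : ∀ j, 1 ≤ j → j < nK W cs - 1 → 0 < t j) (h : ∀ r ∈ rels W cs, Rl.holds t r) :
    ∃ x : ℕ → ℝ, (∀ i < W, 0 < x i) ∧ x 0 = 1 ∧ ∀ c ∈ cs, c.holds x := by
  have pC : ∀ s < nS W cs, 0 < t (lC s) := fun s hs => ht _ (by unfold lC; omega)
    (by unfold lC nK; omega)
  have pT : ∀ s < nS W cs, 0 < t (lT s) := fun s hs => ht _ (by unfold lT; omega)
    (by unfold lT nK; omega)
  have hS2 : 2 ≤ nS W cs := by unfold nS; omega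
  obtain ⟨Γ, hΓ⟩ : ∃ Γ, Γ = t (lC 1) / t (lC 0) := ⟨_, rfl⟩
  obtain ⟨Λ, hΛ⟩ : ∃ Λ, Λ = t (lT 0) / t (lC 0) := ⟨_, rfl⟩
  have pΓ : 0 < Γ := by rw [hΓ]; exact div_pos (pC 1 (by omega)) (pC 0 (by omega))
  have pΛ : 0 < Λ := by rw [hΛ]; exact div_pos (pT 0 (by omega)) (pC 0 (by omega))
  have geo : ∀ s, s + 1 < nS W cs → t (lC (s + 1)) = Γ * t (lC s) := by
    intro s hs
    have h0 := (pC 0 (by omega)).ne'
    rcases Nat.eq_zero_or_pos s with rfl | h1
    · rw [hΓ, div_mul_cancel₀ _ h0]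
    · obtain ⟨s', rfl⟩ : ∃ s', s = s' + 1 := ⟨s - 1, by omega⟩
      have h2 := h _ (mem_rels.2 (Or.inl ⟨s', by omega, rfl⟩))
      simp only [Rl.holds, if_true] at h2
      rw [hΓ, div_mul_eq_mul_div, eq_div_iff h0]
      exact h2
  let y : ℕ → ℝ := fun s => t (lT s) / (t (lC s) * Λ)
  have hy : ∀ s < nS W cs, t (lT s) = y s * Λ * t (lC s) := by
    intro s hs
    have h1 := (pC s hs).ne'
    simp only [y]
    field_simp
  have py : ∀ s < nS W cs, 0 < y s := fun s hs => div_pos (pT s hs) (mul_pos (pC s hs) pΛ)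
  have hwire : ∀ s g, s < nS W cs → g < nS W cs → Rl.holds t (wire s g) → y g = y s := by
    intro s g hs hg hw
    simp only [Rl.holds, wire, if_true] at hw
    have h1 := (pC s hs).ne'
    have h2 := (pC g hg).ne'
    rw [hy s hs, hy g hg] at hw
    have h3 : (y g - y s) * (Λ * t (lC g) * t (lC s)) = 0 := by linear_combination hw
    have h4 : Λ * t (lC g) * t (lC s) ≠ 0 := mul_ne_zero (mul_ne_zero pΛ.ne' h2) h1
    have := (mul_eq_zero.1 h3).resolve_right h4
    linarith
  have y0 : y 0 = 1 := by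
    have h1 := (pC 0 (by omega)).ne'
    have h2 := (pT 0 (by omega)).ne'
    simp only [y]
    rw [hΛ]
    field_simp
  have hWS : W ≤ nS W cs := by unfold nS; omega
  refine ⟨y, fun i hi => py i (by omega), y0, ?_⟩
  intro c hc
  obtain ⟨i, hi, hci⟩ := List.getElem_of_mem hc
  obtain ⟨b1, b2, b3⟩ := hb c hc
  have hS : W + 6 * i + 6 ≤ nS W cs := by unfold nS; omega
  have hg : ∀ r ∈ group c (W + 6 * i), Rl.holds t r := fun r hr =>
    h r (mem_rels.2 (Or.inr ⟨i, c, by rw [List.getElem?_eq_getElem hi, hci], hr⟩))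
  generalize W + 6 * i = g at hS hg
  have g1 := geo g (by omega)
  have g2 := geo (g + 1) (by omega)
  have g3 := geo (g + 2) (by omega)
  have g4 := geo (g + 3) (by omega)
  have g5 := geo (g + 4) (by omega)
  rw [show g + 1 + 1 = g + 2 by ring, g1] at g2
  rw [show g + 2 + 1 = g + 3 by ring, g2] at g3
  rw [show g + 3 + 1 = g + 4 by ring, g3] at g4
  rw [show g + 4 + 1 = g + 5 by ring, g4] at g5
  have pc := pC g (by omega)
  unfold Pc.holds
  by_cases htag : c.1 = 0
  · rw [if_pos htag]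
    simp only [group, if_pos htag, List.mem_cons, List.not_mem_nil, or_false, forall_eq_or_imp,
      forall_eq] at hg
    obtain ⟨w1, w2, w3, r1, r2, r3, r4, r5⟩ := hg
    have e1 := hwire _ _ (by omega) (by omega) w1
    have e2 := hwire _ _ (by omega) (by omega) w2
    have e3 := hwire _ _ (by omega) (by omega) w3
    simp only [Rl.holds, if_true, if_neg one_ne_zero] at r1 r2 r3 r4 r5
    rw [hy g (by omega), g1, e1] at r1
    rw [hy (g + 2) (by omega), g2, e2] at r3
    rw [hy (g + 4) (by omega), g4, g5, e3] at r4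
    rw [g3, g1, r1] at r2
    rw [g3, g5, r3, r4] at r5
    have hz : t (lC g) ≠ 0 := pc.ne'
    -- eliminate `U (g + 3)`
    have u3 : t (lU (g + 3)) = (Γ + y c.2.1 * Λ) * Γ ^ 2 * t (lC g) := by
      have h1 : (t (lU (g + 3)) - (Γ + y c.2.1 * Λ) * Γ ^ 2 * t (lC g)) * (Γ * t (lC g)) = 0 := by
        linear_combination r2
      have := (mul_eq_zero.1 h1).resolve_right (mul_ne_zero pΓ.ne' hz)
      linarith
    rw [u3] at r5
    have h1 : (y c.2.1 + y c.2.2.1 - y c.2.2.2) * (Λ * Γ ^ 7 * t (lC g) ^ 2) = 0 := by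
      linear_combination -r5
    have h2 : Λ * Γ ^ 7 * t (lC g) ^ 2 ≠ 0 := by positivity
    have := (mul_eq_zero.1 h1).resolve_right h2
    linarith
  · rw [if_neg htag]
    simp only [group, if_neg htag, List.mem_cons, List.not_mem_nil, or_false, forall_eq_or_imp,
      forall_eq] at hg
    obtain ⟨w1, w2, w3, w4, r1⟩ := hg
    have e1 := hwire _ _ (by omega) (by omega) w1
    have e2 := hwire _ _ (by omega) (by omega) w2
    have e3 := hwire _ _ (by omega) (by omega) w3
    have e4 := hwire _ _ (by omega) (by omega) w4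
    simp only [Rl.holds, if_true] at r1
    rw [hy g (by omega), hy (g + 1) (by omega), hy (g + 2) (by omega), hy (g + 3) (by omega),
      g1, g2, g3, e1, e2, e3, e4, y0] at r1
    have h1 : (y c.2.1 * y c.2.2.1 - y c.2.2.2) * (Λ ^ 2 * Γ ^ 3 * t (lC g) ^ 2) = 0 := by
      linear_combination r1
    have h2 : Λ ^ 2 * Γ ^ 3 * t (lC g) ^ 2 ≠ 0 := by positivity
    have := (mul_eq_zero.1 h1).resolve_right h2
    linarith

/-! ### Completeness -/

/-- values for the blocks -/
theorem block_values {W : ℕ} {cs : List Pc} (hb : ∀ c ∈ cs, c.below W) {x : ℕ → ℝ}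
    (hx : ∀ i < W, 0 < x i) (hx0 : x 0 = 1) (h : ∀ c ∈ cs, c.holds x) :
    ∃ y u v : ℕ → ℝ, (∀ s, 0 < y s) ∧ (∀ s, 0 < u s) ∧ (∀ s, u s < v s) ∧
      (∀ s < W, y s = x s) ∧ ∀ i c, cs[i]? = some c →
        (c.1 = 0 → y (W + 6 * i) = x c.2.1 ∧ y (W + 6 * i + 2) = x c.2.2.1 ∧
          y (W + 6 * i + 4) = x c.2.2.2 ∧ u (W + 6 * i + 1) = x c.2.1 ∧
          u (W + 6 * i + 3) = x c.2.1 ∧ v (W + 6 * i + 3) = x c.2.1 + x c.2.2.1 ∧
          u (W + 6 * i + 5) = x c.2.2.2) ∧
        (c.1 ≠ 0 → y (W + 6 * i) = x c.2.1 ∧ y (W + 6 * i + 3) = x c.2.2.1 ∧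
          y (W + 6 * i + 1) = x c.2.2.2 ∧ y (W + 6 * i + 2) = 1) := by
  -- the values in the group of the constraint `c`
  have hgrp : ∀ i : ℕ, ∃ Y U V : ℕ → ℝ, (∀ j, 0 < Y j) ∧ (∀ j, 0 < U j) ∧ (∀ j, U j < V j) ∧
      ∀ c : Pc, cs[i]? = some c →
        (c.1 = 0 → Y 0 = x c.2.1 ∧ Y 2 = x c.2.2.1 ∧ Y 4 = x c.2.2.2 ∧ U 1 = x c.2.1 ∧
          U 3 = x c.2.1 ∧ V 3 = x c.2.1 + x c.2.2.1 ∧ U 5 = x c.2.2.2) ∧
        (c.1 ≠ 0 → Y 0 = x c.2.1 ∧ Y 3 = x c.2.2.1 ∧ Y 1 = x c.2.2.2 ∧ Y 2 = 1) := by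
    intro i
    cases hc : cs[i]? with
    | none =>
        exact ⟨fun _ => 1, fun _ => 1, fun _ => 2, fun _ => one_pos, fun _ => one_pos,
          fun _ => one_lt_two, fun c hc => by simp at hc⟩
    | some c =>
        obtain ⟨hi, hci⟩ := List.getElem?_eq_some_iff.1 hc
        obtain ⟨b1, b2, b3⟩ := hb c (by rw [← hci]; exact List.getElem_mem hi)
        have p1 := hx _ b1
        have p2 := hx _ b2
        have p3 := hx _ b3
        by_cases htag : c.1 = 0
        · refine ⟨fun j => if j = 0 then x c.2.1 else if j = 2 then x c.2.2.1 else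
            if j = 4 then x c.2.2.2 else 1, fun j => if j = 1 then x c.2.1 else
            if j = 3 then x c.2.1 else if j = 5 then x c.2.2.2 else 1,
            fun j => if j = 1 then x c.2.1 + 1 else
            if j = 3 then x c.2.1 + x c.2.2.1 else if j = 5 then x c.2.2.2 + 1 else 2,
            ?_, ?_, ?_, ?_⟩
          · intro j; dsimp only; split_ifs <;> first | assumption | norm_num
          · intro j; dsimp only; split_ifs <;> first | assumption | norm_num
          · intro j; dsimp only; split_ifs <;> linarith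
          · intro c' hc'
            simp only [Option.some.injEq] at hc'
            subst hc'
            refine ⟨fun _ => by simp, fun h => absurd htag h⟩
        · refine ⟨fun j => if j = 0 then x c.2.1 else if j = 3 then x c.2.2.1 else
            if j = 1 then x c.2.2.2 else 1, fun _ => 1, fun _ => 2, ?_, fun _ => one_pos,
            fun _ => one_lt_two, ?_⟩
          · intro j; dsimp only; split_ifs <;> first | assumption | norm_num
          · intro c' hc'
            simp only [Option.some.injEq] at hc'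
            subst hc'
            refine ⟨fun h => absurd h htag, fun _ => by simp⟩
  choose Y U V h1 h2 h3 h4 using hgrp
  have e : ∀ i j, j < 6 → ¬ (W + 6 * i + j < W) ∧ (W + 6 * i + j - W) / 6 = i ∧
      (W + 6 * i + j - W) % 6 = j := by
    intro i j hj; omega
  refine ⟨fun s => if s < W then x s else Y ((s - W) / 6) ((s - W) % 6),
    fun s => if s < W then 1 else U ((s - W) / 6) ((s - W) % 6),
    fun s => if s < W then 2 else V ((s - W) / 6) ((s - W) % 6), ?_, ?_, ?_, ?_, ?_⟩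
  · intro s; dsimp only; split_ifs with h
    · exact hx s h
    · exact h1 _ _
  · intro s; dsimp only; split_ifs
    · exact one_pos
    · exact h2 _ _
  · intro s; dsimp only; split_ifs
    · exact one_lt_two
    · exact h3 _ _
  · intro s hs; dsimp only; rw [if_pos hs]
  · intro i c hc
    obtain ⟨h5, h6⟩ := h4 i c hc
    have e0 := e i 0 (by norm_num)
    have e1 := e i 1 (by norm_num)
    have e2 := e i 2 (by norm_num)
    have e3 := e i 3 (by norm_num)
    have e4 := e i 4 (by norm_num)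
    have e5 := e i 5 (by norm_num)
    rw [add_zero] at e0
    dsimp only
    rw [if_neg e0.1, if_neg e1.1, if_neg e2.1, if_neg e3.1, if_neg e4.1, if_neg e1.1, if_neg e3.1,
      if_neg e5.1, if_neg e3.1, e0.2.1, e0.2.2, e1.2.1, e1.2.2, e2.2.1, e2.2.2, e3.2.1, e3.2.2,
      e4.2.1, e4.2.2, e5.2.1, e5.2.2]
    exact ⟨h5, h6⟩

theorem rels_of_pc {W : ℕ} (hW : 2 ≤ W) {cs : List Pc} (hb : ∀ c ∈ cs, c.below W) {x : ℕ → ℝ}
    (hx : ∀ i < W, 0 < x i) (hx0 : x 0 = 1) (h : ∀ c ∈ cs, c.holds x) :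
    ∃ t : ℕ → ℝ, (∀ j, 1 ≤ j → j < nK W cs - 1 → 0 < t j) ∧
      (∀ i j, 1 ≤ i → i < j → j < nK W cs - 1 → t i < t j) ∧ ∀ r ∈ rels W cs, Rl.holds t r := by
  obtain ⟨y, u, v, py, pu, huv, hyx, hval⟩ := block_values hb hx hx0 h
  have hv : ∀ s, 0 < v s := fun s => (pu s).trans (huv s)
  obtain ⟨Λ, hΛ⟩ : ∃ Λ : ℝ, Λ = 1 + ∑ s ∈ Finset.range (nS W cs), ((1 + v s) / y s + y s) :=
    ⟨_, rfl⟩
  have hterm : ∀ s, 0 < (1 + v s) / y s + y s := fun s =>
    add_pos (div_pos (by linarith [hv s]) (py s)) (py s)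
  have hbig : ∀ s < nS W cs, (1 + v s) / y s + y s < Λ := by
    intro s hs
    have h1 := Finset.single_le_sum (f := fun s => (1 + v s) / y s + y s)
      (fun s _ => (hterm s).le) (Finset.mem_range.2 hs)
    rw [hΛ]; linarith
  have h1Λ : 1 ≤ Λ := by
    rw [hΛ]
    have := Finset.sum_nonneg (s := Finset.range (nS W cs)) fun s _ => (hterm s).le
    linarith
  have pΛ : 0 < Λ := by linarith
  have hyΛ : ∀ s < nS W cs, y s < Λ := fun s hs => by
    have h1 := hbig s hs
    have h2 : 0 < (1 + v s) / y s := div_pos (by linarith [hv s]) (py s)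
    linarith
  have hvΛ : ∀ s < nS W cs, 1 + v s / Λ < Λ * y s := fun s hs => by
    have h1 := hbig s hs
    have h2 : (1 + v s) / y s < Λ := by linarith [py s]
    rw [div_lt_iff₀ (py s)] at h2
    have h3 : v s / Λ ≤ v s := div_le_self (hv s).le h1Λ
    linarith
  let t : ℕ → ℝ := fun j => Λ ^ (2 * ((j - 1) / 4)) * (if (j - 1) % 4 = 0 then 1 else
    if (j - 1) % 4 = 1 then 1 + u ((j - 1) / 4) / Λ else
    if (j - 1) % 4 = 2 then 1 + v ((j - 1) / 4) / Λ else Λ * y ((j - 1) / 4))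
  have tC : ∀ s, t (lC s) = Λ ^ (2 * s) := by
    intro s
    simp only [t, lC]
    rw [show (1 + 4 * s - 1) / 4 = s by omega, if_pos (by omega), mul_one]
  have tU : ∀ s, t (lU s) = Λ ^ (2 * s) * (1 + u s / Λ) := by
    intro s
    simp only [t, lU]
    rw [show (2 + 4 * s - 1) / 4 = s by omega, if_neg (by omega), if_pos (by omega)]
  have tV : ∀ s, t (lV s) = Λ ^ (2 * s) * (1 + v s / Λ) := by
    intro s
    simp only [t, lV]
    rw [show (3 + 4 * s - 1) / 4 = s by omega, if_neg (by omega), if_neg (by omega),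
      if_pos (by omega)]
  have tT : ∀ s, t (lT s) = Λ ^ (2 * s) * (Λ * y s) := by
    intro s
    simp only [t, lT]
    rw [show (4 + 4 * s - 1) / 4 = s by omega, if_neg (by omega), if_neg (by omega),
      if_neg (by omega)]
  have hpow : ∀ n, 0 < Λ ^ n := fun n => pow_pos pΛ n
  have hstep : ∀ j, 1 ≤ j → j + 1 < nK W cs - 1 → t j < t (j + 1) := by
    intro j h1 h2
    obtain ⟨s, hs⟩ : ∃ s, s = (j - 1) / 4 := ⟨_, rfl⟩
    have hsS : s < nS W cs := by unfold nK at h2; omega
    have hp := hpow (2 * s)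
    have hcase : j = lC s ∨ j = lU s ∨ j = lV s ∨ j = lT s := by
      unfold lC lU lV lT; omega
    rcases hcase with rfl | rfl | rfl | rfl
    · rw [show lC s + 1 = lU s by unfold lC lU; omega, tC, tU]
      have := div_pos (pu s) pΛ
      nlinarith
    · rw [show lU s + 1 = lV s by unfold lU lV; omega, tU, tV]
      have := (div_lt_div_iff_of_pos_right pΛ).2 (huv s)
      exact mul_lt_mul_of_pos_left (by linarith) hp
    · rw [show lV s + 1 = lT s by unfold lV lT; omega, tV, tT]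
      exact mul_lt_mul_of_pos_left (hvΛ s hsS) hp
    · rw [show lT s + 1 = lC (s + 1) by unfold lT lC; omega, tT, tC,
        show 2 * (s + 1) = 2 * s + 2 by ring, pow_add]
      refine mul_lt_mul_of_pos_left ?_ hp
      rw [pow_two]
      exact mul_lt_mul_of_pos_left (hyΛ s hsS) pΛ
  refine ⟨t, ?_, ?_, ?_⟩
  · intro j _ _
    simp only [t]
    refine mul_pos (hpow _) ?_
    have a1 := div_pos (pu ((j - 1) / 4)) pΛ
    have a2 := div_pos (hv ((j - 1) / 4)) pΛ
    have a3 := mul_pos pΛ (py ((j - 1) / 4))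
    split_ifs <;> linarith
  · intro i j hi hij
    induction j, hij using Nat.le_induction with
    | base => exact fun hj => hstep i hi hj
    | succ j hj ih =>
        intro hj'
        exact (ih (by omega)).trans (hstep j (by omega) hj')
  · intro r hr
    rcases mem_rels.1 hr with ⟨s, hs, rfl⟩ | ⟨i, c, hc, hr⟩
    · simp only [Rl.holds, if_true, tC]
      ring
    · obtain ⟨hi, hci⟩ := List.getElem?_eq_some_iff.1 hc
      have hcm : c ∈ cs := by rw [← hci]; exact List.getElem_mem hi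
      obtain ⟨b1, b2, b3⟩ := hb c hcm
      have hh := h c hcm
      obtain ⟨v0, v1⟩ := hval i c hc
      generalize W + 6 * i = g at hr v0 v1
      have pows : ∀ n : ℕ, Λ ^ (2 * (g + n)) = Λ ^ (2 * g) * Λ ^ (2 * n) := fun n => by
        rw [← pow_add]; congr 1; ring
      have hwire : ∀ s g, y g = y s → Rl.holds t (wire s g) := by
        intro s g hsg
        simp only [Rl.holds, wire, if_true, tT, tC, hsg]
        ring
      unfold Pc.holds at hh
      simp only [group] at hr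
      split_ifs at hr with htag
      · rw [if_pos htag] at hh
        obtain ⟨y0, y2, y4, u1, u3, v3, u5⟩ := v0 htag
        simp only [List.mem_cons, List.not_mem_nil, or_false] at hr
        rcases hr with rfl | rfl | rfl | rfl | rfl | rfl | rfl | rfl
        · exact hwire _ _ (by rw [y0, hyx _ b1])
        · exact hwire _ _ (by rw [y2, hyx _ b2])
        · exact hwire _ _ (by rw [y4, hyx _ b3])
        · simp only [Rl.holds, if_neg one_ne_zero, tU, tC, tT, pows, u1, y0]
          field_simp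
          ring
        · simp only [Rl.holds, if_true, tU, tC, pows, u1, u3]
          ring
        · simp only [Rl.holds, if_neg one_ne_zero, tU, tV, tT, pows, v3, u3, y2]
          field_simp
          ring
        · simp only [Rl.holds, if_neg one_ne_zero, tU, tC, tT, pows, u5, y4]
          field_simp
          ring
        · simp only [Rl.holds, if_true, tU, tC, tV, pows, u5, v3, hh]
          ring
      · rw [if_neg htag] at hh
        obtain ⟨y0, y3, y1, y2⟩ := v1 htag
        simp only [List.mem_cons, List.not_mem_nil, or_false] at hr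
        rcases hr with rfl | rfl | rfl | rfl | rfl
        · exact hwire _ _ (by rw [y0, hyx _ b1])
        · exact hwire _ _ (by rw [y3, hyx _ b2])
        · exact hwire _ _ (by rw [y1, hyx _ b3])
        · exact hwire _ _ (by rw [y2, hyx _ (by omega), hx0])
        · simp only [Rl.holds, if_true, tT, pows, y0, y1, y2, y3]
          rw [← hh]
          ring

end Pool.Agent.H670R2.Sl
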