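import Pool.Agent.H670R2.SlDir

/-!
The hinge lemma: two vertices with `2k-2` common neighbours in a drawing with `2k` directions.
-/

namespace Pool.Agent.H670R2.Sl

variable {k : ℕ} {V : Type}

/-- the vector from `u` to `v` points in the direction `z` -/
def Dr (d : DS k) (p : V → ℝ × ℝ) (u v : V) (z : ZMod (2 * k)) : Prop :=
  ∃ r : ℝ, 0 < r ∧ p v - p u = r • d.e z

/-- A drawing all of whose edges have directions of the system `d`. -/
structure Drawn (d : DS k) (adj : V → V → Prop) (p : V → ℝ × ℝ) : Prop where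
  symm : ∀ u v, adj u v → adj v u
  dir : ∀ u v, adj u v → ∃ z, Dr d p u v z
  free : ∀ u v w x, adj u v → adj w x → p w ∉ openSegment ℝ (p u) (p v)
  inj : ∀ u v w, adj u v → adj u w → p v = p w → v = w

theorem Dr.symm {d : DS k} {p : V → ℝ × ℝ} {u v : V} {z : ZMod (2 * k)} (h : Dr d p u v z) :
    Dr d p v u (z + k) := by
  obtain ⟨r, hr, h⟩ := h
  refine ⟨r, hr, ?_⟩
  rw [d.per, smul_neg, ← h]; simp

theorem Dr.unique {d : DS k} {p : V → ℝ × ℝ} (hk : 2 ≤ k) {u v : V} {z z' : ZMod (2 * k)}
    (h : Dr d p u v z) (h' : Dr d p u v z') : z = z' := by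
  obtain ⟨r, hr, h⟩ := h
  obtain ⟨r', hr', h'⟩ := h'
  exact d.dir_unique hk hr hr' (h.symm.trans h')

theorem Drawn.dir_inj {d : DS k} {adj : V → V → Prop} {p : V → ℝ × ℝ} (hD : Drawn d adj p)
    {u v w : V} (h1 : adj u v) (h2 : adj u w) {z : ZMod (2 * k)}
    (h3 : Dr d p u v z) (h4 : Dr d p u w z) : v = w := by
  obtain ⟨r, hr, h3⟩ := h3
  obtain ⟨s, hs, h4⟩ := h4
  have key : ∀ {a b : ℝ} {x y : V}, adj u x → adj u y → 0 < a → 0 < b → p x - p u = a • d.e z →
      p y - p u = b • d.e z → ¬ a < b := by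
    intro a b x y hx hy ha hb hxe hye hab
    refine hD.free u y x u hy (hD.symm _ _ hx) ?_
    refine ⟨1 - a / b, a / b, ?_, by positivity, by ring, ?_⟩
    · rw [sub_pos, div_lt_one hb]; exact hab
    · have e1 : p y = p u + b • d.e z := by rw [← hye]; abel
      have e2 : p x = p u + a • d.e z := by rw [← hxe]; abel
      rw [e1, e2, smul_add, smul_smul, div_mul_cancel₀ a hb.ne', ← add_assoc, ← add_smul]
      congr 1
      rw [sub_add_cancel, one_smul]
  have hrs : r = s := by
    rcases lt_trichotomy r s with h | h | h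
    · exact absurd h (key h1 h2 hr hs h3 h4)
    · exact h
    · exact absurd h (key h2 h1 hs hr h4 h3)
  refine hD.inj u v w h1 h2 ?_
  have e1 : p v = p u + r • d.e z := by rw [← h3]; abel
  have e2 : p w = p u + s • d.e z := by rw [← h4]; abel
  rw [e1, e2, hrs]

section

variable {d : DS k} {adj : V → V → Prop} {p : V → ℝ × ℝ}

/-- if two hubs with `2k-2` common neighbours lie on no line of the given directions, the
directions at the hubs are as they should be -/
theorem hinge_generic (hk : 2 ≤ k) (hD : Drawn d adj p) {a b : V} {C : Finset V}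
    (hC : C.card = 2 * k - 2) (ha : ∀ c ∈ C, adj a c) (hb : ∀ c ∈ C, adj b c)
    (hv : ∀ z, cr (p b - p a) (d.e z) ≠ 0) :
    ∃ y, (∀ w, adj a w → w ∉ C → ∀ z, Dr d p a w z → z = y - 1 + k ∨ z = y + k) ∧
      (∀ w, adj b w → w ∉ C → ∀ z, Dr d p b w z → z = y - 1 ∨ z = y) := by
  obtain ⟨y, hy1, hy2⟩ := d.sector hk hv
  have hpos : ∀ {n : ℕ}, n < k → 0 < cr (p b - p a) (d.e (y + n)) :=
    fun hn => d.sector_pos hk hy1 hy2 hn
  have hneg : ∀ {n : ℕ}, n < k → cr (p b - p a) (d.e (y + k + n)) < 0 := by
    intro n hn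
    have : y + (k : ZMod (2 * k)) + n = y + n + k := by ring
    rw [this, d.per, cr_neg_right]
    have := hpos hn
    linarith
  -- relations between the two directions of a common neighbour
  have hrel : ∀ c α β, Dr d p a c α → Dr d p b c β → ∃ l m : ℝ, 0 < l ∧ 0 < m ∧
      cr (p b - p a) (d.e α) = m * cr (d.e α) (d.e β) ∧
      cr (p b - p a) (d.e β) = l * cr (d.e α) (d.e β) := by
    rintro c α β ⟨l, hl, h1⟩ ⟨m, hm, h2⟩
    have hv : p b - p a = l • d.e α - m • d.e β := by rw [← h1, ← h2]; abel
    refine ⟨l, m, hl, hm, ?_, ?_⟩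
    · rw [hv, cr_sub_left, cr_smul_left, cr_smul_left, cr_self, cr_comm (d.e β) (d.e α)]; ring
    · rw [hv, cr_sub_left, cr_smul_left, cr_smul_left, cr_self]; ring
  have hα : ∀ c α β, Dr d p a c α → Dr d p b c β → α ≠ y - 1 + k ∧ α ≠ y + k := by
    intro c α β h1 h2
    obtain ⟨l, m, hl, hm, e1, e2⟩ := hrel c α β h1 h2
    constructor
    · intro h
      have h3 : α = y + ((k - 1 : ℕ) : ZMod (2 * k)) := by
        rw [h, Nat.cast_sub (by omega)]; push_cast; ring
      have h4 : 0 < cr (p b - p a) (d.e α) := by rw [h3]; exact hpos (by omega)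
      have h5 : 0 < cr (d.e α) (d.e β) := by
        rw [e1] at h4; exact (pos_iff_pos_of_mul_pos h4).1 hm
      have h6 : 0 < cr (p b - p a) (d.e β) := by rw [e2]; positivity
      rcases DS.cases (by omega) y β with ⟨n, hn, hβ⟩ | ⟨n, hn, hβ⟩
      · have h7 : 0 ≤ cr (d.e β) (d.e α) := by
          have h8 : α = β + ((k - 1 - n : ℕ) : ZMod (2 * k)) := by
            rw [h3, hβ, Nat.cast_sub (by omega : n ≤ k - 1)]; ring
          rw [h8]
          exact d.cr_nonneg β (by omega)
        rw [cr_comm] at h7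
        linarith
      · rw [hβ] at h6
        have := hneg hn
        linarith
    · intro h
      have h4 : cr (p b - p a) (d.e α) < 0 := by
        rw [h]; simpa using hneg (n := 0) (by omega)
      have h5 : cr (d.e α) (d.e β) < 0 := by
        rw [e1] at h4
        by_contra hc
        have := mul_nonneg hm.le (not_lt.1 hc)
        linarith
      have h6 : cr (p b - p a) (d.e β) < 0 := by
        rw [e2]; exact mul_neg_of_pos_of_neg hl h5
      rcases DS.cases (by omega) y β with ⟨n, hn, hβ⟩ | ⟨n, hn, hβ⟩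
      · rw [hβ] at h6
        have := hpos hn
        linarith
      · rw [hβ, h] at h5
        have := d.cr_nonneg (y + k) hn.le
        linarith
  have hβ : ∀ c α β, Dr d p a c α → Dr d p b c β → β ≠ y - 1 ∧ β ≠ y := by
    intro c α β h1 h2
    obtain ⟨l, m, hl, hm, e1, e2⟩ := hrel c α β h1 h2
    constructor
    · intro h
      have h3 : β = y + k + ((k - 1 : ℕ) : ZMod (2 * k)) := by
        rw [h, Nat.cast_sub (by omega)]; push_cast
        linear_combination -(kk k)
      have h4 : cr (p b - p a) (d.e β) < 0 := by rw [h3]; exact hneg (by omega)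
      have h5 : cr (d.e α) (d.e β) < 0 := by
        rw [e2] at h4
        by_contra hc
        have := mul_nonneg hl.le (not_lt.1 hc)
        linarith
      have h6 : cr (p b - p a) (d.e α) < 0 := by
        rw [e1]; exact mul_neg_of_pos_of_neg hm h5
      rcases DS.cases (by omega) y α with ⟨n, hn, hα'⟩ | ⟨n, hn, hα'⟩
      · rw [hα'] at h6
        have := hpos hn
        linarith
      · have h8 : β = α + ((k - 1 - n : ℕ) : ZMod (2 * k)) := by
          rw [h3, hα', Nat.cast_sub (by omega : n ≤ k - 1)]; ring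
        rw [h8] at h5
        have := d.cr_nonneg α (n := k - 1 - n) (by omega)
        linarith
    · intro h
      have h4 : 0 < cr (p b - p a) (d.e β) := by
        rw [h]; simpa using hpos (n := 0) (by omega)
      have h5 : 0 < cr (d.e α) (d.e β) := by
        rw [e2] at h4; exact (pos_iff_pos_of_mul_pos h4).1 hl
      have h6 : 0 < cr (p b - p a) (d.e α) := by rw [e1]; positivity
      rcases DS.cases (by omega) y α with ⟨n, hn, hα'⟩ | ⟨n, hn, hα'⟩
      · rw [hα', h] at h5
        have := d.cr_nonneg y hn.le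
        rw [cr_comm] at this
        linarith
      · rw [hα'] at h6
        have := hneg hn
        linarith
  have count : ∀ (x : V) (o1 o2 : ZMod (2 * k)), o1 ≠ o2 → (∀ c ∈ C, adj x c) →
      (∀ c ∈ C, ∀ z, Dr d p x c z → z ≠ o1 ∧ z ≠ o2) →
      ∀ w, adj x w → w ∉ C → ∀ z, Dr d p x w z → z = o1 ∨ z = o2 := by
    intro x o1 o2 ho hx hz w hw hwC z hdz
    have : NeZero (2 * k) := ⟨by omega⟩
    choose! f hf using fun c (hc : c ∈ C) => hD.dir x c (hx c hc)
    by_contra hcon
    push Not at hcon
    have hinj : Set.InjOn f C := by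
      intro c hc c' hc' hcc
      have h1 := hf c hc
      have h2 := hf c' hc'
      rw [← hcc] at h2
      exact hD.dir_inj (hx c hc) (hx c' hc') h1 h2
    have hsub : C.image f ⊆ Finset.univ \ {o1, o2, z} := by
      intro y hy
      obtain ⟨c, hc, rfl⟩ := Finset.mem_image.1 hy
      have h1 := hz c hc _ (hf c hc)
      have h2 : f c ≠ z := by
        intro h
        have h3 := hf c hc
        rw [h] at h3
        have := hD.dir_inj hw (hx c hc) hdz h3
        exact hwC (this ▸ hc)
      simp [h1.1, h1.2, h2]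
    have h3 := Finset.card_le_card hsub
    rw [Finset.card_image_of_injOn hinj, hC, Finset.card_sdiff_of_subset (Finset.subset_univ _),
      Finset.card_univ, ZMod.card] at h3
    have h4 : ({o1, o2, z} : Finset (ZMod (2 * k))).card = 3 := by
      rw [Finset.card_eq_three]
      exact ⟨o1, o2, z, ho, hcon.1.symm, hcon.2.symm, rfl⟩
    omega
  have hone : (1 : ZMod (2 * k)) ≠ 0 := by
    have := cast_ne (k := k) (n := 1) (m := 0) (by omega) (by omega) (by norm_num)
    simpa using this
  refine ⟨y, ?_, ?_⟩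
  · refine count a _ _ ?_ ha ?_
    · intro h
      apply hone
      linear_combination -h
    · intro c hc z hz
      obtain ⟨β, hβ'⟩ := hD.dir b c (hb c hc)
      exact hα c z β hz hβ'
  · refine count b _ _ ?_ hb ?_
    · intro h
      apply hone
      linear_combination -h
    · intro c hc z hz
      obtain ⟨α, hα'⟩ := hD.dir a c (ha c hc)
      exact hβ c α z hα' hz

/-- two hubs with `2k-2` common neighbours do not lie on a line of one of the directions -/
theorem hinge_not_par (hk : 2 ≤ k) (hD : Drawn d adj p) {a b : V} {C : Finset V}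
    (hab : p a ≠ p b)
    (hC : C.card = 2 * k - 2) (ha : ∀ c ∈ C, adj a c) (hb : ∀ c ∈ C, adj b c)
    (z₀ : ZMod (2 * k)) : cr (p b - p a) (d.e z₀) ≠ 0 := by
  intro h0
  have hkz : NeZero (2 * k) := ⟨by omega⟩
  obtain ⟨y, ν, hν, hv⟩ : ∃ y, ∃ ν : ℝ, 0 < ν ∧ p b - p a = ν • d.e y := by
    obtain ⟨r, hr⟩ := par_of_cr (d.ne hk z₀) (by rw [cr_comm, h0, neg_zero] : cr (d.e z₀) (p b - p a) = 0)
    rcases lt_trichotomy r 0 with h | h | h
    · refine ⟨z₀ + k, -r, by linarith, ?_⟩
      rw [hr, d.per, smul_neg, neg_smul, neg_neg]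
    · exfalso
      rw [h, zero_smul, sub_eq_zero] at hr
      exact hab hr.symm
    · exact ⟨z₀, r, h, hr⟩
  have hrel : ∀ c α β, Dr d p a c α → Dr d p b c β → ∃ l m : ℝ, 0 < l ∧ 0 < m ∧
      ν * cr (d.e y) (d.e α) = m * cr (d.e α) (d.e β) ∧
      ν * cr (d.e y) (d.e β) = l * cr (d.e α) (d.e β) := by
    rintro c α β ⟨l, hl, h1⟩ ⟨m, hm, h2⟩
    have hv' : p b - p a = l • d.e α - m • d.e β := by rw [← h1, ← h2]; abel
    refine ⟨l, m, hl, hm, ?_, ?_⟩
    · rw [← cr_smul_left, ← hv, hv', cr_sub_left, cr_smul_left, cr_smul_left, cr_self,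
        cr_comm (d.e β) (d.e α)]; ring
    · rw [← cr_smul_left, ← hv, hv', cr_sub_left, cr_smul_left, cr_smul_left, cr_self]; ring
  have h1k : ∀ n : ℕ, 0 < n → n < k → cr (d.e y) (d.e (y + k + n)) < 0 := by
    intro n hn hn'
    have : y + (k : ZMod (2 * k)) + n = y + n + k := by ring
    rw [this, d.per, cr_neg_right]
    have := d.pos y n hn hn'
    linarith
  -- the excluded directions
  have hexc : ∀ c ∈ C, ∀ α, Dr d p a c α → α ≠ y - 1 + k ∧ α ≠ y + k ∧ α ≠ y + 1 + k := by
    intro c hc α h1
    obtain ⟨β, h2⟩ := hD.dir b c (hb c hc)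
    obtain ⟨l, m, hl, hm, e1, e2⟩ := hrel c α β h1 h2
    refine ⟨?_, ?_, ?_⟩
    · intro h
      have h3 : α = y + ((k - 1 : ℕ) : ZMod (2 * k)) := by
        rw [h, Nat.cast_sub (by omega)]; push_cast; ring
      have h4 : 0 < cr (d.e y) (d.e α) := by rw [h3]; exact d.pos _ _ (by omega) (by omega)
      have h5 : 0 < cr (d.e α) (d.e β) := by
        have : 0 < m * cr (d.e α) (d.e β) := by rw [← e1]; positivity
        exact (pos_iff_pos_of_mul_pos this).1 hm
      have h6 : 0 < cr (d.e y) (d.e β) := by
        have : 0 < ν * cr (d.e y) (d.e β) := by rw [e2]; positivity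
        exact (pos_iff_pos_of_mul_pos this).1 hν
      rcases DS.cases (by omega) y β with ⟨n, hn, hβ⟩ | ⟨n, hn, hβ⟩
      · have h7 : 0 ≤ cr (d.e β) (d.e α) := by
          have h8 : α = β + ((k - 1 - n : ℕ) : ZMod (2 * k)) := by
            rw [h3, hβ, Nat.cast_sub (by omega : n ≤ k - 1)]; ring
          rw [h8]
          exact d.cr_nonneg β (by omega)
        rw [cr_comm] at h7
        linarith
      · rcases Nat.eq_zero_or_pos n with rfl | hn0
        · rw [hβ] at h6
          simp only [Nat.cast_zero, add_zero] at h6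
          rw [d.cr_self_add] at h6
          exact lt_irrefl _ h6
        · rw [hβ] at h6
          have := h1k n hn0 hn
          linarith
    · intro h
      -- `c` lies on the other side of `a`
      obtain ⟨s, hs, hs'⟩ := h1
      rw [h, d.per] at hs'
      refine hD.free b c a c (hb c hc) (ha c hc) ?_
      refine ⟨s / (ν + s), ν / (ν + s), by positivity, by positivity, by
        field_simp; ring, ?_⟩
      have e1 : p b = p a + ν • d.e y := by rw [← hv]; abel
      have e2 : p c = p a + s • (-d.e y) := by rw [← hs']; abel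
      rw [e1, e2, smul_add, smul_add, smul_smul, smul_smul, smul_neg]
      have e3 : s / (ν + s) * ν = ν / (ν + s) * s := by ring
      rw [e3]
      have e4 : (s / (ν + s)) • p a + (ν / (ν + s)) • p a = p a := by
        rw [← add_smul, ← add_div, add_comm s ν, div_self (by positivity), one_smul]
      calc _ = ((s / (ν + s)) • p a + (ν / (ν + s)) • p a) := by abel
        _ = p a := e4
    · intro h
      have h4 : cr (d.e y) (d.e α) < 0 := by
        have h3 : α = y + k + ((1 : ℕ) : ZMod (2 * k)) := by rw [h]; push_cast; ring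
        rw [h3]
        exact h1k 1 (by norm_num) (by omega)
      have h5 : cr (d.e α) (d.e β) < 0 := by
        by_contra hc
        have h7 := mul_nonneg hm.le (not_lt.1 hc)
        rw [← e1] at h7
        have := mul_neg_of_pos_of_neg hν h4
        linarith
      have h6 : cr (d.e y) (d.e β) < 0 := by
        by_contra hc
        have h7 := mul_nonneg hν.le (not_lt.1 hc)
        rw [e2] at h7
        have := mul_neg_of_pos_of_neg hl h5
        linarith
      rcases DS.cases (by omega) y β with ⟨n, hn, hβ⟩ | ⟨n, hn, hβ⟩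
      · rw [hβ] at h6
        have := d.cr_nonneg y hn.le
        linarith
      · rcases Nat.eq_zero_or_pos n with rfl | hn0
        · rw [hβ] at h6
          simp only [Nat.cast_zero, add_zero] at h6
          rw [d.cr_self_add] at h6
          exact lt_irrefl _ h6
        · have h8 : β = α + ((n - 1 : ℕ) : ZMod (2 * k)) := by
            rw [h, hβ, Nat.cast_sub (by omega : 1 ≤ n)]; push_cast; ring
          rw [h8] at h5
          have := d.cr_nonneg α (n := n - 1) (by omega)
          linarith
  choose! f hf using fun c (hc : c ∈ C) => hD.dir a c (ha c hc)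
  have hinj : Set.InjOn f C := by
    intro c hc c' hc' hcc
    have h1 := hf c hc
    have h2 := hf c' hc'
    rw [← hcc] at h2
    exact hD.dir_inj (ha c hc) (ha c' hc') h1 h2
  have hsub : C.image f ⊆ Finset.univ \ {y - 1 + k, y + k, y + 1 + k} := by
    intro x hx
    obtain ⟨c, hc, rfl⟩ := Finset.mem_image.1 hx
    have h1 := hexc c hc _ (hf c hc)
    simp [h1.1, h1.2.1, h1.2.2]
  have h3 := Finset.card_le_card hsub
  rw [Finset.card_image_of_injOn hinj, hC, Finset.card_sdiff_of_subset (Finset.subset_univ _),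
    Finset.card_univ, ZMod.card] at h3
  have h4 : ({y - 1 + k, y + k, y + 1 + k} : Finset (ZMod (2 * k))).card = 3 := by
    rw [Finset.card_eq_three]
    have hone : (1 : ZMod (2 * k)) ≠ 0 := by
      have := cast_ne (k := k) (n := 1) (m := 0) (by omega) (by omega) (by norm_num)
      simpa using this
    have htwo : (2 : ZMod (2 * k)) ≠ 0 := by
      have := cast_ne (k := k) (n := 2) (m := 0) (by omega) (by omega) (by norm_num)
      simpa using this
    refine ⟨_, _, _, ?_, ?_, ?_, rfl⟩
    · intro h; apply hone; linear_combination -h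
    · intro h; apply htwo; linear_combination -h
    · intro h; apply hone; linear_combination -h
  omega

/-- **The hinge lemma.** -/
theorem hinge (hk : 2 ≤ k) (hD : Drawn d adj p) {a b : V} {C : Finset V}
    (hab : p a ≠ p b)
    (hC : C.card = 2 * k - 2) (ha : ∀ c ∈ C, adj a c) (hb : ∀ c ∈ C, adj b c) :
    ∃ y, (∀ w, adj a w → w ∉ C → ∀ z, Dr d p a w z → z = y - 1 + k ∨ z = y + k) ∧
      (∀ w, adj b w → w ∉ C → ∀ z, Dr d p b w z → z = y - 1 ∨ z = y) :=
  hinge_generic hk hD hC ha hb (hinge_not_par hk hD hab hC ha hb)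

end

end Pool.Agent.H670R2.Sl
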