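import Pool.Agent.H670R2.SlPlace

/-!
For two hubs, lines or points, either a motion of the placement changes the direction between
them, or they lie on a straight path.
-/

namespace Pool.Agent.H670R2.Sl

/-- the role of a vertex -/
inductive Kd : Type
  | iso (v : Vx)
  | Z (s i b : ℕ)
  | Q (s : ℕ)
  | Y (s r : ℕ)
  | F (f : ℕ)
  | P (n i : ℕ)

def kd (k N : ℕ) : Vx → Kd
  | .P n i => if 6 * n < N then .P n i else .iso (.P n i)
  | .F f => .F f
  | .H s i b =>
      if b = 0 ∧ i = 4 then .Q s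
      else if b = 1 ∧ i = 4 then .Y s 1
      else if s = 0 then .iso (.H s i b)
      else if b = 0 ∧ i = 5 then .Y s 0
      else if b = 0 ∧ i ≤ 2 then .Y (s - 1) (4 - i)
      else if b = 1 ∧ i = k - 1 then .Y (s - 1) 5
      else if b = 0 ∧ 6 ≤ i ∧ i < k then .Z s i 0
      else if b = 1 ∧ 5 ≤ i ∧ i + 1 < k then .Z s (i + 1) 1
      else .iso (.H s i b)

variable {k : ℕ}

theorem kd_iso {N : ℕ} {u x : Vx} (h : kd k N u = .iso x) : x = u := by
  cases u with
  | P n i =>
      simp only [kd] at h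
      split_ifs at h
      injection h with h; exact h.symm
  | F f => simp [kd] at h
  | H s i b =>
      simp only [kd] at h
      split_ifs at h <;> injection h with h <;> exact h.symm

theorem kd_Z {N : ℕ} {u : Vx} {s i b : ℕ} (h : kd k N u = .Z s i b) :
    0 < s ∧ 6 ≤ i ∧ i < k ∧ ((b = 0 ∧ u = .H s i 0) ∨ (b = 1 ∧ u = .H s (i - 1) 1)) := by
  cases u with
  | P n i =>
      simp only [kd] at h
      split_ifs at h
  | F f => simp [kd] at h
  | H s' i' b' =>
      simp only [kd] at h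
      split_ifs at h with h1 h2 h3 h4 h5 h6 h7 h8
      · injection h with e1 e2 e3
        subst e1 e2 e3
        obtain ⟨rfl, h7⟩ := h7
        exact ⟨by omega, by omega, by omega, Or.inl ⟨rfl, rfl⟩⟩
      · injection h with e1 e2 e3
        subst e1 e2 e3
        obtain ⟨rfl, h8⟩ := h8
        exact ⟨by omega, by omega, by omega, Or.inr ⟨rfl, by simp⟩⟩

theorem kd_Q {N : ℕ} {u : Vx} {s : ℕ} (h : kd k N u = .Q s) : u = .H s 4 0 := by
  cases u with
  | P n i =>
      simp only [kd] at h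
      split_ifs at h
  | F f => simp [kd] at h
  | H s' i' b' =>
      simp only [kd] at h
      split_ifs at h with h1
      injection h with e1
      subst e1
      obtain ⟨rfl, rfl⟩ := h1
      rfl

theorem kd_Y {N : ℕ} {u : Vx} {s r : ℕ} (h : kd k N u = .Y s r) :
    (r = 0 ∧ 0 < s ∧ u = .H s 5 0) ∨ (r = 1 ∧ u = .H s 4 1) ∨ (r = 2 ∧ u = .H (s + 1) 2 0) ∨
    (r = 3 ∧ u = .H (s + 1) 1 0) ∨ (r = 4 ∧ u = .H (s + 1) 0 0) ∨
    (r = 5 ∧ u = .H (s + 1) (k - 1) 1) := by
  cases u with
  | P n i =>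
      simp only [kd] at h
      split_ifs at h
  | F f => simp [kd] at h
  | H s' i' b' =>
      simp only [kd] at h
      split_ifs at h with h1 h2 h3 h4 h5 h6 <;> injection h with e1 e2 <;> subst e1 e2
      · obtain ⟨rfl, rfl⟩ := h2
        simp
      · obtain ⟨rfl, rfl⟩ := h4
        simp; omega
      · obtain ⟨rfl, h5⟩ := h5
        have h7 : s' - 1 + 1 = s' := by omega
        rw [h7]
        interval_cases i' <;> simp
      · obtain ⟨rfl, rfl⟩ := h6
        have h7 : s' - 1 + 1 = s' := by omega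
        rw [h7]
        simp

theorem kd_F {N : ℕ} {u : Vx} {f : ℕ} (h : kd k N u = .F f) : u = .F f := by
  cases u with
  | P n i =>
      simp only [kd] at h
      split_ifs at h
  | F f => simp only [kd] at h; injection h with h; rw [h]
  | H s' i' b' =>
      simp only [kd] at h
      split_ifs at h

theorem kd_P {N : ℕ} {u : Vx} {n i : ℕ} (h : kd k N u = .P n i) : u = .P n i ∧ 6 * n < N := by
  cases u with
  | P n' i' =>
      simp only [kd] at h
      split_ifs at h with h1
      injection h with e1 e2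
      subst e1 e2
      exact ⟨rfl, h1⟩
  | F f => simp [kd] at h
  | H s' i' b' =>
      simp only [kd] at h
      split_ifs at h

/-- the edges in terms of roles -/
inductive KL (k : ℕ) (ms : List ℕ) (w : ℕ → ZMod (2 * k)) : Kd → Kd → ZMod (2 * k) → Prop
  | y (s r : ℕ) (z : ZMod (2 * k)) (hr : r < 5)
      (hz : z = xs k s + 4 - r ∨ z = xs k s + 4 - r + k) : KL k ms w (.Y s (r + 1)) (.Y s r) z
  | q (s : ℕ) : KL k ms w (.Q s) (.Q (s + 1)) (xs k (s + 1) + 3)
  | z (s i : ℕ) (z : ZMod (2 * k)) (hz : z + 1 = xs k s + i) : KL k ms w (.Z s i 1) (.Z s i 0) z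
  | t (s : ℕ) (ht : tok k ms s = true) :
      KL k ms w (.F (s / (4 * k) / (2 * k))) (.Y (s + 1) 0) (xs k (s + 1) + 5)
  | f1 (f : ℕ) (hf : f < ms.length) : KL k ms w (.F f) (.P (f / 6) (e1 (f % 6))) (w f + k)
  | f2 (f : ℕ) (hf : f < ms.length) : KL k ms w (.F f) (.P (f / 6) (e2 (f % 6))) (w f)

theorem kl_of_leg (hk : 8 ≤ k) {ms : List ℕ} {w : ℕ → ZMod (2 * k)} {u v : Vx}
    {z : ZMod (2 * k)} (h : Leg k ms w u v z) :
    KL k ms w (kd k ms.length u) (kd k ms.length v) z := by
  have hkk := kk k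
  cases h with
  | l0 s h =>
      have e1 : kd k ms.length (.H (s + 1) 0 0) = .Y s 4 := by simp [kd]
      have e2 : kd k ms.length (.H (s + 1) 1 0) = .Y s 3 := by simp [kd]
      rw [e1, e2]
      refine KL.y s 3 _ (by norm_num) (Or.inr ?_)
      rw [xs_succ]; push_cast; ring
  | l1 s h =>
      have e1 : kd k ms.length (.H (s + 1) 1 0) = .Y s 3 := by simp [kd]
      have e2 : kd k ms.length (.H (s + 1) 2 0) = .Y s 2 := by simp [kd]
      rw [e1, e2]
      refine KL.y s 2 _ (by norm_num) (Or.inl ?_)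
      rw [xs_succ]; push_cast; linear_combination hkk
  | l2 s h =>
      have e1 : kd k ms.length (.H (s + 1) 2 0) = .Y s 2 := by simp [kd]
      have e2 : kd k ms.length (.H s 4 1) = .Y s 1 := by simp [kd]
      rw [e1, e2]
      refine KL.y s 1 _ (by norm_num) (Or.inr ?_)
      rw [xs_succ]; push_cast; ring
  | l3 s h =>
      have e1 : kd k ms.length (.H s 4 0) = .Q s := by simp [kd]
      have e2 : kd k ms.length (.H (s + 1) 4 0) = .Q (s + 1) := by simp [kd]
      rw [e1, e2]
      exact KL.q s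
  | lk s h =>
      have e1 : kd k ms.length (.H (s + 1) (k - 1) 1) = .Y s 5 := by
        simp only [kd]
        split_ifs <;> first | rfl | (exfalso; simp_all; done) | (exfalso; simp_all; omega)
      have e2 : kd k ms.length (.H (s + 1) 0 0) = .Y s 4 := by simp [kd]
      rw [e1, e2]
      refine KL.y s 4 _ (by norm_num) (Or.inl ?_)
      rw [xs_succ]; push_cast; linear_combination hkk
  | lm s j h hj =>
      rcases Nat.eq_zero_or_pos j with rfl | hj0
      · have e1 : kd k ms.length (.H (s + 1) (0 + 4) 1) = .Y (s + 1) 1 := by simp [kd]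
        have e2 : kd k ms.length (.H (s + 1) (0 + 5) 0) = .Y (s + 1) 0 := by simp [kd]
        rw [e1, e2]
        refine KL.y (s + 1) 0 _ (by norm_num) (Or.inl ?_)
        push_cast; ring
      · have e1 : kd k ms.length (.H (s + 1) (j + 4) 1) = .Z (s + 1) (j + 5) 1 := by
          simp only [kd]
          split_ifs <;> first | rfl | (exfalso; simp_all; done) | (exfalso; simp_all; omega)
        have e2 : kd k ms.length (.H (s + 1) (j + 5) 0) = .Z (s + 1) (j + 5) 0 := by
          simp only [kd]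
          split_ifs <;> first | rfl | (exfalso; simp_all; done) | (exfalso; simp_all; omega)
        rw [e1, e2]
        refine KL.z _ _ _ ?_
        push_cast; ring
  | tk s h ht =>
      have e2 : kd k ms.length (.H (s + 1) 5 0) = .Y (s + 1) 0 := by simp [kd]
      rw [e2]
      exact KL.t s ht
  | f1 f h =>
      have e2 : kd k ms.length (.P (f / 6) (e1 (f % 6))) = .P (f / 6) (e1 (f % 6)) := by
        simp only [kd]
        rw [if_pos (by omega)]
      rw [e2]
      exact KL.f1 f h
  | f2 f h =>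
      have e2 : kd k ms.length (.P (f / 6) (e2 (f % 6))) = .P (f / 6) (e2 (f % 6)) := by
        simp only [kd]
        rw [if_pos (by omega)]
      rw [e2]
      exact KL.f2 f h

theorem DS.cr_par (d : DS k) {a z : ZMod (2 * k)} (h : z = a ∨ z = a + k) :
    cr (d.e a) (d.e z) = 0 := by
  rcases h with rfl | rfl
  · exact cr_self _
  · exact d.cr_self_add a

theorem DS.cr_one (hk : 2 ≤ k) (d : DS k) (z : ZMod (2 * k)) : cr (d.e z) (d.e (z + 1)) ≠ 0 := by
  have := d.pos z 1 (by norm_num) (by omega)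
  simpa using this.ne'

section

variable {ms : List ℕ} {d : DS k} {w : ℕ → ZMod (2 * k)}

/-- there is a motion moving `v` by `a` relative to `u` -/
def Mov (ms : List ℕ) (w : ℕ → ZMod (2 * k)) (d : DS k) (u v : Vx) (a : ℝ × ℝ) : Prop :=
  ∃ p, LL k ms w d p ∧ p v - p u = a

theorem Mov.symm {u v : Vx} {a : ℝ × ℝ} (h : Mov ms w d u v a) : Mov ms w d v u (-a) := by
  obtain ⟨p, hp, h⟩ := h
  exact ⟨p, hp, by rw [← h]; abel⟩

theorem mov_of_cut (hk : 8 ≤ k) (S : Kd → Prop) {a : ℝ × ℝ}
    (hS : ∀ c c' z, KL k ms w c c' z → (S c ↔ S c') ∨ cr a (d.e z) = 0) {u v : Vx}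
    (hv : S (kd k ms.length v)) (hu : ¬ S (kd k ms.length u)) : Mov ms w d u v a := by
  classical
  refine ⟨fun x => if S (kd k ms.length x) then a else 0, ?_, ?_⟩
  · intro x y z h
    rcases hS _ _ _ (kl_of_leg hk h) with h | h
    · by_cases hx : S (kd k ms.length x)
      · simp only [if_pos hx, if_pos (h.1 hx), sub_self, cr_zero_left]
      · simp only [if_neg hx, if_neg (fun hy => hx (h.2 hy)), sub_self, cr_zero_left]
    · dsimp only
      rw [cr_sub_left]
      split_ifs <;> simp [h, cr_zero_left]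
  · simp only [if_pos hv, if_neg hu, sub_zero]

/-- the assertion of the classification, first part -/
def Lft (ms : List ℕ) (w : ℕ → ZMod (2 * k)) (d : DS k) (u v : Vx) (z : ZMod (2 * k)) : Prop :=
  ∃ p, LL k ms w d p ∧ cr (p v - p u) (d.e z) ≠ 0

/-- the assertion of the classification, second part -/
def Str (ms : List ℕ) (w : ℕ → ZMod (2 * k)) (u v : Vx) (z : ZMod (2 * k)) : Prop :=
  ∃ z', (z' = z ∨ z' = z + k) ∧ (Leg k ms w u v z' ∨ Leg k ms w v u (z' + k) ∨
      ∃ f, Leg k ms w f u (z' + k) ∧ Leg k ms w f v z')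

def Gl (ms : List ℕ) (w : ℕ → ZMod (2 * k)) (d : DS k) (u v : Vx) : Prop :=
  ∀ z, Lft ms w d u v z ∨ Str ms w u v z

theorem Gl.symm {u v : Vx} (h : Gl ms w d u v) : Gl ms w d v u := by
  intro z
  rcases h z with ⟨p, hp, h⟩ | ⟨z', hz, h⟩
  · left
    refine ⟨p, hp, ?_⟩
    have : p u - p v = -(p v - p u) := by abel
    rw [this, cr_neg_left]
    exact neg_ne_zero.2 h
  · right
    have e : z' + k + k = z' := by linear_combination kk k
    refine ⟨z' + k, ?_, ?_⟩
    · rcases hz with rfl | rfl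
      · right; rfl
      · left; linear_combination kk k
    · rcases h with h | h | ⟨f, h1, h2⟩
      · right; left
        rw [e]; exact h
      · left; exact h
      · right; right
        exact ⟨f, by rw [e]; exact h2, h1⟩

theorem gl_of_all {u v : Vx} (h : ∀ a, Mov ms w d u v a) (hk : 8 ≤ k) : Gl ms w d u v := by
  intro z
  left
  obtain ⟨p, hp, h1⟩ := h (d.e (z + 1))
  refine ⟨p, hp, ?_⟩
  rw [h1, cr_comm]
  exact neg_ne_zero.2 (d.cr_one (by omega) z)

theorem gl_of_two {u v : Vx} {a b : ℝ × ℝ} (ha : Mov ms w d u v a) (hb : Mov ms w d u v b)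
    (hab : cr a b ≠ 0) (hk : 8 ≤ k) : Gl ms w d u v := by
  intro z
  left
  by_cases h1 : cr a (d.e z) = 0
  · by_cases h2 : cr b (d.e z) = 0
    · exfalso
      have h1' : cr (d.e z) a = 0 := by rw [cr_comm, h1, neg_zero]
      have h2' : cr (d.e z) b = 0 := by rw [cr_comm, h2, neg_zero]
      obtain ⟨r, rfl⟩ := par_of_cr (d.ne (by omega) z) h1'
      obtain ⟨s, rfl⟩ := par_of_cr (d.ne (by omega) z) h2'
      apply hab
      rw [cr_smul_left, cr_smul_right, cr_self, mul_zero, mul_zero]
    · obtain ⟨p, hp, h⟩ := hb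
      exact ⟨p, hp, by rw [h]; exact h2⟩
  · obtain ⟨p, hp, h⟩ := ha
    exact ⟨p, hp, by rw [h]; exact h1⟩

theorem gl_of_one {u v : Vx} {zl : ZMod (2 * k)} (ha : Mov ms w d u v (d.e zl)) (hk : 8 ≤ k)
    (h : ∀ z, (z = zl ∨ z = zl + k) → Lft ms w d u v z ∨ Str ms w u v z) : Gl ms w d u v := by
  intro z
  by_cases h1 : cr (d.e zl) (d.e z) = 0
  · exact h z (d.cr_eq_zero (by omega) h1)
  · obtain ⟨p, hp, h2⟩ := ha
    exact Or.inl ⟨p, hp, by rw [h2]; exact h1⟩

theorem gl_of_leg {u v : Vx} {zl : ZMod (2 * k)} (ha : Mov ms w d u v (d.e zl)) (hk : 8 ≤ k)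
    (h : Leg k ms w u v zl) : Gl ms w d u v := by
  refine gl_of_one ha hk fun z hz => Or.inr ?_
  refine ⟨zl, ?_, Or.inl h⟩
  rcases hz with rfl | rfl
  · left; rfl
  · right; linear_combination -(kk k)

end

end Pool.Agent.H670R2.Sl
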