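import Pool.Agent.H670R2.SlClass

/-!
The classification of pairs of hubs, lines and points.
-/

namespace Pool.Agent.H670R2.Sl

variable {k : ℕ} {ms : List ℕ} {d : DS k} {w : ℕ → ZMod (2 * k)}

theorem mov_iso (hk : 8 ≤ k) {u v x : Vx} (hv : kd k ms.length v = .iso x) (huv : u ≠ v)
    (a : ℝ × ℝ) : Mov ms w d u v a := by
  refine mov_of_cut hk (fun c => c = .iso x) ?_ hv ?_
  · intro c c' z h
    left
    cases h <;> simp
  · intro h
    exact huv ((kd_iso h).symm.trans (kd_iso hv))

theorem mov_Z (hk : 8 ≤ k) {u v : Vx} {s i b : ℕ} (hv : kd k ms.length v = .Z s i b)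
    (hu : ∀ b', kd k ms.length u ≠ .Z s i b') (a : ℝ × ℝ) : Mov ms w d u v a := by
  refine mov_of_cut hk (fun c => ∃ b', c = .Z s i b') ?_ ⟨b, hv⟩ ?_
  · intro c c' z h
    left
    cases h <;> simp
  · rintro ⟨b', h⟩
    exact hu b' h

theorem gl_Z (hk : 8 ≤ k) {u v : Vx} {s i b : ℕ} (hv : kd k ms.length v = .Z s i b)
    (hval : v.val k ms.length) (huv : u ≠ v) : Gl ms w d u v := by
  by_cases hu : ∀ b', kd k ms.length u ≠ .Z s i b'
  · exact gl_of_all (mov_Z hk hv hu) hk
  push Not at hu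
  obtain ⟨b', hu⟩ := hu
  obtain ⟨h1, h2, h3, h4⟩ := kd_Z hv
  obtain ⟨-, -, -, h5⟩ := kd_Z hu
  have hs : s - 1 < nT k ms.length := by
    rcases h4 with ⟨-, rfl⟩ | ⟨-, rfl⟩
    · have := hval.1; omega
    · have := hval.1; omega
  have hleg := Leg.lm (k := k) (ms := ms) (w := w) (s - 1) (i - 5) hs (by omega)
  rw [show s - 1 + 1 = s by omega, show i - 5 + 4 = i - 1 by omega,
    show i - 5 + 5 = i by omega] at hleg
  have key : ∀ {x y : Vx}, kd k ms.length x = .Z s i 1 → kd k ms.length y = .Z s i 0 →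
      x = .H s (i - 1) 1 → y = .H s i 0 → Gl ms w d x y := by
    intro x y hx hy ex ey
    refine gl_of_leg (mov_of_cut hk (fun c => c = .Z s i 0) (a := d.e _) ?_ hy ?_) hk
      (by rw [ex, ey]; exact hleg)
    · intro c c' z h
      cases h with
      | z s' i' z' hz =>
          by_cases he : s' = s ∧ i' = i
          · right
            obtain ⟨rfl, rfl⟩ := he
            refine d.cr_par (Or.inl ?_)
            rw [Nat.cast_sub (by omega)]
            push_cast
            linear_combination hz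
          · left; simp; tauto
      | _ => left; simp
    · rw [hx]; simp
  rcases h4 with ⟨rfl, ev⟩ | ⟨rfl, ev⟩ <;> rcases h5 with ⟨rfl, eu⟩ | ⟨rfl, eu⟩
  · exact absurd (eu.trans ev.symm) huv
  · exact key hu hv eu ev
  · exact (key hv hu ev eu).symm
  · exact absurd (eu.trans ev.symm) huv

theorem mov_Q (hk : 8 ≤ k) {u v : Vx} {s : ℕ} (hv : kd k ms.length v = .Q s)
    (hu : ∀ s', kd k ms.length u ≠ .Q s') (a : ℝ × ℝ) : Mov ms w d u v a := by
  refine mov_of_cut hk (fun c => ∃ b', c = .Q b') ?_ ⟨s, hv⟩ ?_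
  · intro c c' z h
    left
    cases h <;> simp
  · rintro ⟨b', h⟩
    exact hu b' h

theorem mov_Q' (hk : 8 ≤ k) {u v : Vx} {s s' r : ℕ} (hv : kd k ms.length v = .Q s)
    (hu : kd k ms.length u = .Q s') (h1 : s' < r) (h2 : r ≤ s) :
    Mov ms w d u v (d.e (xs k r + 3)) := by
  refine mov_of_cut hk (fun c => ∃ b', c = .Q b' ∧ r ≤ b') ?_ ⟨s, hv, h2⟩ ?_
  · intro c c' z h
    cases h with
    | q s =>
        by_cases he : r = s + 1
        · right; rw [he]; exact cr_self _
        · left; simp; omega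
    | _ => left; simp
  · rintro ⟨b', h, h'⟩
    rw [hu] at h
    injection h with h
    omega

theorem gl_Q (hk : 8 ≤ k) {u v : Vx} {s s' : ℕ} (hv : kd k ms.length v = .Q s)
    (hu : kd k ms.length u = .Q s') (hval : v.val k ms.length) (h : s' < s) :
    Gl ms w d u v := by
  by_cases h1 : s' + 1 = s
  · refine gl_of_leg (zl := xs k (s' + 1) + 3) ?_ hk ?_
    · exact mov_Q' hk hv hu (by omega) (by omega)
    · rw [kd_Q hu, kd_Q hv, ← h1]
      refine Leg.l3 s' ?_
      rw [kd_Q hv] at hval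
      have := hval.1
      omega
  · refine gl_of_two (mov_Q' (r := s' + 1) hk hv hu (by omega) (by omega))
      (mov_Q' (r := s' + 2) hk hv hu (by omega) (by omega)) ?_ hk
    have : xs k (s' + 2) + 3 = xs k (s' + 1) + 3 + 1 + k := by
      rw [show s' + 2 = s' + 1 + 1 by ring, xs_succ]; ring
    rw [this, d.per, cr_neg_right]
    exact neg_ne_zero.2 (d.cr_one (by omega) _)

/-- cuts in the chain number `s` -/
theorem mov_Y (hk : 8 ≤ k) {u v : Vx} {s r r' : ℕ} (hv : kd k ms.length v = .Y s r)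
    (hu : ∀ r'', r' ≤ r'' → kd k ms.length u ≠ .Y s r'') (h : r' ≤ r) :
    Mov ms w d u v (d.e (xs k s + 5 - r')) := by
  refine mov_of_cut hk (fun c => ∃ b', c = .Y s b' ∧ r' ≤ b') ?_ ⟨r, hv, h⟩ ?_
  · intro c c' z h
    cases h with
    | y s' r'' z hr hz =>
        by_cases he : s' = s ∧ r'' + 1 = r'
        · right
          obtain ⟨rfl, rfl⟩ := he
          refine d.cr_par ?_
          rcases hz with rfl | rfl
          · left; push_cast; ring
          · right; push_cast; ring
        · left; simp; omega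
    | t s' ht =>
        by_cases he : s' + 1 = s ∧ r' = 0
        · right
          obtain ⟨rfl, rfl⟩ := he
          refine d.cr_par (Or.inl ?_)
          push_cast; ring
        · left; simp; omega
    | _ => left; simp
  · rintro ⟨b', h, h'⟩
    exact hu b' h' h

/-- there is an edge between the chain number `s` and the line number `f` -/
def Tk (k : ℕ) (ms : List ℕ) (s f : ℕ) : Prop :=
  ∃ σ, s = σ + 1 ∧ tok k ms σ = true ∧ f = σ / (4 * k) / (2 * k)

theorem mov_Y_free (hk : 8 ≤ k) {u v : Vx} {s r : ℕ} (hv : kd k ms.length v = .Y s r)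
    (hu : ∀ r'', kd k ms.length u ≠ .Y s r'') (ht : ∀ f, ¬ Tk k ms s f) (a : ℝ × ℝ) :
    Mov ms w d u v a := by
  refine mov_of_cut hk (fun c => ∃ b', c = .Y s b') ?_ ⟨r, hv⟩ ?_
  · intro c c' z h
    cases h with
    | t s' ht' =>
        left
        simp
        intro h
        exact ht _ ⟨s', h.symm, ht', rfl⟩
    | _ => left; simp
  · rintro ⟨b', h⟩
    exact hu b' h

/-- cuts around a line -/
theorem mov_F (hk : 8 ≤ k) {u v : Vx} {f : ℕ} (hw : f < ms.length → w f = (ms.getD f 0 : ℕ) ∨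
        w f = (ms.getD f 0 : ℕ) + k)
    (hv : kd k ms.length v = .F f ∨ ∃ s r, kd k ms.length v = .Y s r ∧ Tk k ms s f)
    (hu : kd k ms.length u ≠ .F f ∧ ∀ s r, kd k ms.length u = .Y s r → ¬ Tk k ms s f) :
    Mov ms w d u v (d.e (ms.getD f 0 : ℕ)) := by
  have htf : ∀ s f f', Tk k ms s f → Tk k ms s f' → f = f' := by
    rintro s f f' ⟨σ, h1, h2, h3⟩ ⟨σ', h1', h2', h3'⟩
    obtain rfl : σ = σ' := by omega
    rw [h3, h3']
  refine mov_of_cut hk (fun c => c = .F f ∨ ∃ s r, c = .Y s r ∧ Tk k ms s f) ?_ hv ?_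
  · intro c c' z h
    cases h with
    | y s' r'' z hr hz => left; simp
    | q => left; simp
    | z => left; simp
    | t s' ht =>
        left
        simp only [Kd.F.injEq, reduceCtorEq, false_and, exists_false, or_false, false_or,
          Kd.Y.injEq]
        constructor
        · rintro rfl
          exact ⟨_, _, ⟨rfl, rfl⟩, s', rfl, ht, rfl⟩
        · rintro ⟨s, r, ⟨rfl, rfl⟩, h⟩
          exact htf _ _ _ ⟨s', rfl, ht, rfl⟩ h
    | f1 f' hf =>
        by_cases he : f' = f
        · right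
          subst he
          refine d.cr_par ?_
          rcases hw hf with h | h
          · right; rw [h]
          · left; rw [h]; linear_combination kk k
        · left; simp; tauto
    | f2 f' hf =>
        by_cases he : f' = f
        · right
          subst he
          exact d.cr_par (hw hf)
        · left; simp; tauto
  · rintro (h | ⟨s, r, h, h'⟩)
    · exact hu.1 h
    · exact hu.2 s r h h'

/-- the vertices of the component of a quadrangle -/
def inG (k : ℕ) (ms : List ℕ) (n : ℕ) (c : Kd) : Prop :=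
  (∃ i, c = .P n i) ∨ (∃ f, c = .F f ∧ f / 6 = n) ∨ ∃ s r f, c = .Y s r ∧ Tk k ms s f ∧ f / 6 = n

theorem mov_G (hk : 8 ≤ k) {u v : Vx} {n : ℕ} (hv : inG k ms n (kd k ms.length v))
    (hu : ¬ inG k ms n (kd k ms.length u)) (a : ℝ × ℝ) : Mov ms w d u v a := by
  have htf : ∀ s f f', Tk k ms s f → Tk k ms s f' → f = f' := by
    rintro s f f' ⟨σ, h1, h2, h3⟩ ⟨σ', h1', h2', h3'⟩
    obtain rfl : σ = σ' := by omega
    rw [h3, h3']
  refine mov_of_cut hk (inG k ms n) ?_ hv hu
  intro c c' z h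
  left
  cases h with
  | t s' ht =>
      simp only [inG, reduceCtorEq, exists_false, Kd.F.injEq, false_or, false_and, or_false,
        Kd.Y.injEq]
      constructor
      · rintro ⟨f, rfl, h⟩
        exact ⟨_, _, _, ⟨rfl, rfl⟩, ⟨s', rfl, ht, rfl⟩, h⟩
      · rintro ⟨s, r, f, ⟨rfl, rfl⟩, h, h'⟩
        exact ⟨_, rfl, by rw [htf _ _ _ ⟨s', rfl, ht, rfl⟩ h]; exact h'⟩
  | _ => simp [inG]

end Pool.Agent.H670R2.Sl
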