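import Pool.Agent.H670R2.SlClass2

/-!
The classification of pairs of hubs, lines and points, last part.
-/

namespace Pool.Agent.H670R2.Sl

variable {k : ℕ} {ms : List ℕ} {d : DS k} {w : ℕ → ZMod (2 * k)}

theorem gl_of_leg' {u v : Vx} {a zl : ZMod (2 * k)} (ha : Mov ms w d u v (d.e a)) (hk : 8 ≤ k)
    (hz : zl = a ∨ zl = a + k) (h : Leg k ms w v u zl) : Gl ms w d u v := by
  refine gl_of_one ha hk fun z hz' => Or.inr ?_
  have hkk := kk k
  refine ⟨zl + k, ?_, Or.inr (Or.inl ?_)⟩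
  · rcases hz' with rfl | rfl <;> rcases hz with rfl | rfl
    · right; rfl
    · left; linear_combination hkk
    · left; rfl
    · right; linear_combination 0 * hkk
  · have : zl + k + k = zl := by linear_combination hkk
    rw [this]; exact h

theorem cr_consec (hk : 8 ≤ k) (s r : ℕ) : cr (d.e (xs k s + 5 - (r + 1 : ℕ)))
    (d.e (xs k s + 5 - (r : ℕ))) ≠ 0 := by
  have : xs k s + 5 - (r : ℕ) = xs k s + 5 - (r + 1 : ℕ) + 1 := by push_cast; ring
  rw [this]
  exact d.cr_one (by omega) _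

theorem gl_YY (hk : 8 ≤ k) {u v : Vx} {s r r' : ℕ} (hv : kd k ms.length v = .Y s r)
    (hu : kd k ms.length u = .Y s r') (hval : v.val k ms.length) (h : r' < r) :
    Gl ms w d u v := by
  have hne : ∀ c, r' < c → ∀ r'', c ≤ r'' → kd k ms.length u ≠ .Y s r'' := by
    intro c hc r'' h1 h2
    rw [hu] at h2
    injection h2 with h2 h3
    omega
  by_cases h1 : r' + 1 = r
  · subst h1
    have hm := mov_Y (w := w) (d := d) (r' := r' + 1) hk hv (hne _ (by omega)) le_rfl
    have key : ∃ zl, (zl = xs k s + 5 - ((r' + 1 : ℕ) : ZMod (2 * k)) ∨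
        zl = xs k s + 5 - ((r' + 1 : ℕ) : ZMod (2 * k)) + k) ∧ Leg k ms w v u zl := by
      rcases kd_Y hu with ⟨rfl, hs, eu⟩ | ⟨rfl, eu⟩ | ⟨rfl, eu⟩ | ⟨rfl, eu⟩ | ⟨rfl, eu⟩ | ⟨rfl, eu⟩ <;>
        rcases kd_Y hv with ⟨h2, hs, ev⟩ | ⟨h2, ev⟩ | ⟨h2, ev⟩ | ⟨h2, ev⟩ | ⟨h2, ev⟩ | ⟨h2, ev⟩ <;>
        first | (exfalso; omega) | skip
      · subst eu ev
        obtain ⟨s', rfl⟩ : ∃ s', s = s' + 1 := ⟨s - 1, by omega⟩
        refine ⟨_, Or.inl ?_, Leg.lm s' 0 (by have := hval.1; omega) (by omega)⟩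
        push_cast; ring
      · subst eu ev
        refine ⟨_, Or.inr ?_, Leg.l2 s (by have := hval.1; omega)⟩
        rw [xs_succ]; push_cast; ring
      · subst eu ev
        refine ⟨_, Or.inl ?_, Leg.l1 s (by have := hval.1; omega)⟩
        rw [xs_succ]; push_cast; linear_combination kk k
      · subst eu ev
        refine ⟨_, Or.inr ?_, Leg.l0 s (by have := hval.1; omega)⟩
        rw [xs_succ]; push_cast; ring
      · subst eu ev
        refine ⟨_, Or.inl ?_, Leg.lk s (by have := hval.1; omega)⟩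
        rw [xs_succ]; push_cast; linear_combination kk k
    obtain ⟨zl, h2, h3⟩ := key
    exact gl_of_leg' hm hk h2 h3
  · obtain ⟨c, rfl⟩ : ∃ c, r = c + 1 := ⟨r - 1, by omega⟩
    exact gl_of_two (mov_Y hk hv (hne (c + 1) (by omega)) le_rfl)
      (mov_Y hk hv (hne c (by omega)) (by omega)) (cr_consec hk s c) hk

/-- not both parallel to the line and to the edge at the chain -/
theorem cr_tok (hk : 8 ≤ k) {s f : ℕ} (h : Tk k ms s f) :
    cr (d.e (xs k s + 5)) (d.e (ms.getD f 0 : ℕ)) ≠ 0 := by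
  obtain ⟨σ, rfl, ht, rfl⟩ := h
  intro h0
  simp only [tok, Bool.and_eq_true, decide_eq_true_eq, Bool.not_eq_true',
    decide_eq_false_iff_not] at ht
  obtain ⟨-, h1, h2⟩ := ht
  rw [xs_five h1] at h0
  apply h2
  have h3 : ∀ {a b : ℕ}, (a : ZMod (2 * k)) = b → a % k = b % k := by
    intro a b hab
    have h4 := (ZMod.natCast_eq_natCast_iff a b (2 * k)).1 hab
    exact (h4.of_mul_left 2)
  rcases d.cr_eq_zero (by omega) h0 with h4 | h4
  · have := h3 h4
    rw [this, Nat.mod_mod_of_dvd _ (Dvd.intro_left 2 rfl)]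
  · have h5 : (((ms.getD (σ / (4 * k) / (2 * k)) 0 : ℕ)) : ZMod (2 * k)) =
        ((σ / (4 * k) + k : ℕ) : ZMod (2 * k)) := by
      rw [h4]; push_cast; rfl
    have := h3 h5
    rw [this, Nat.mod_mod_of_dvd _ (Dvd.intro_left 2 rfl), Nat.add_mod_right]

theorem tk_fun {s f f' : ℕ} (h : Tk k ms s f) (h' : Tk k ms s f') : f = f' := by
  obtain ⟨σ, h1, h2, h3⟩ := h
  obtain ⟨σ', h1', h2', h3'⟩ := h'
  obtain rfl : σ = σ' := by omega
  rw [h3, h3']

theorem mov_Y0 (hk : 8 ≤ k) {u v : Vx} {s : ℕ} (hv : kd k ms.length v = .Y s 0)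
    (hu : ∀ r'', kd k ms.length u ≠ .Y s r'') : Mov ms w d u v (d.e (xs k s + 5)) := by
  have := mov_Y (w := w) (d := d) (r' := 0) hk hv (fun r _ => hu r) le_rfl
  simpa using this

theorem gl_Y1 (hk : 8 ≤ k) {u v : Vx} {s r : ℕ} (hv : kd k ms.length v = .Y s r)
    (hu : ∀ r'', kd k ms.length u ≠ .Y s r'') (hr : r ≠ 0) : Gl ms w d u v := by
  obtain ⟨c, rfl⟩ : ∃ c, r = c + 1 := ⟨r - 1, by omega⟩
  exact gl_of_two (mov_Y hk hv (fun _ _ => hu _) le_rfl)
      (mov_Y hk hv (fun _ _ => hu _) (by omega)) (cr_consec hk s c) hk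

/-- a hub at the end of a chain, and a vertex not attached to its line -/
theorem gl_Y0 (hk : 8 ≤ k) (hw : ∀ f < ms.length, w f = (ms.getD f 0 : ℕ) ∨
        w f = (ms.getD f 0 : ℕ) + k) {u v : Vx} {s : ℕ} (hv : kd k ms.length v = .Y s 0)
    (hu : ∀ r'', kd k ms.length u ≠ .Y s r'')
    (hu1 : ∀ f, Tk k ms s f → kd k ms.length u ≠ .F f ∧
      ∀ s' r', kd k ms.length u = .Y s' r' → ¬ Tk k ms s' f) : Gl ms w d u v := by
  by_cases ht : ∃ f, Tk k ms s f
  · obtain ⟨f, hf⟩ := ht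
    exact gl_of_two (mov_Y0 hk hv hu) (mov_F hk (hw f) (Or.inr ⟨s, 0, hv, hf⟩) (hu1 f hf))
      (cr_tok hk hf) hk
  · push Not at ht
    exact gl_of_all (mov_Y_free hk hv hu ht) hk

theorem gl_Y (hk : 8 ≤ k) (hke : Even k) (hw : ∀ f < ms.length, w f = (ms.getD f 0 : ℕ) ∨
        w f = (ms.getD f 0 : ℕ) + k) {u v : Vx} {s r : ℕ} (hv : kd k ms.length v = .Y s r)
    (hvval : v.val k ms.length) (huval : u.val k ms.length) (huv : u ≠ v)
    (hu : (∃ s' r', kd k ms.length u = .Y s' r') ∨ (∃ f, kd k ms.length u = .F f) ∨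
      ∃ n i, kd k ms.length u = .P n i) : Gl ms w d u v := by
  rcases hu with ⟨s', r', hu⟩ | ⟨f, hu⟩ | ⟨n, i, hu⟩
  · by_cases hs : s' = s
    · subst hs
      rcases lt_trichotomy r' r with h | h | h
      · exact gl_YY hk hv hu hvval h
      · exfalso
        subst h
        apply huv
        rcases kd_Y hu with ⟨h1, hs, eu⟩ | ⟨h1, eu⟩ | ⟨h1, eu⟩ | ⟨h1, eu⟩ | ⟨h1, eu⟩ | ⟨h1, eu⟩ <;>
        rcases kd_Y hv with ⟨h2, hs, ev⟩ | ⟨h2, ev⟩ | ⟨h2, ev⟩ | ⟨h2, ev⟩ | ⟨h2, ev⟩ | ⟨h2, ev⟩ <;>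
        first | (exfalso; omega) | exact eu.trans ev.symm
      · exact (gl_YY hk hu hv huval h).symm
    · have hu' : ∀ r'', kd k ms.length u ≠ .Y s r'' := by
        intro r'' h
        rw [hu] at h
        injection h with h h'
        exact hs h
      have hv' : ∀ r'', kd k ms.length v ≠ .Y s' r'' := by
        intro r'' h
        rw [hv] at h
        injection h with h h'
        exact hs h.symm
      by_cases hr : r = 0
      swap
      · exact gl_Y1 hk hv hu' hr
      by_cases hr' : r' = 0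
      swap
      · exact (gl_Y1 hk hu hv' hr').symm
      subst hr hr'
      by_cases ht : ∃ f, Tk k ms s f ∧ Tk k ms s' f
      · obtain ⟨f, ⟨σ, rfl, h1, h2⟩, ⟨σ', rfl, h1', h2'⟩⟩ := ht
        have hm1 := mov_Y0 (w := w) (d := d) hk hv hu'
        have hm2 := (mov_Y0 (w := w) (d := d) hk hu hv').symm
        by_cases hc : cr (d.e (xs k (σ + 1) + 5)) (d.e (xs k (σ' + 1) + 5)) = 0
        swap
        · refine gl_of_two hm1 hm2 ?_ hk
          rw [cr_neg_right]
          exact neg_ne_zero.2 hc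
        have eu : u = .H (σ' + 1) 5 0 := by
          rcases kd_Y hu with ⟨h1, hs, eu⟩ | ⟨h1, eu⟩ | ⟨h1, eu⟩ | ⟨h1, eu⟩ | ⟨h1, eu⟩ | ⟨h1, eu⟩ <;>
          first | (exfalso; omega) | exact eu
        have ev : v = .H (σ + 1) 5 0 := by
          rcases kd_Y hv with ⟨h1, hs, eu⟩ | ⟨h1, eu⟩ | ⟨h1, eu⟩ | ⟨h1, eu⟩ | ⟨h1, eu⟩ | ⟨h1, eu⟩ <;>
          first | (exfalso; omega) | exact eu
        have hσ : σ < nT k ms.length := by
          rw [ev] at hvval; have := hvval.1; omega
        have hσ' : σ' < nT k ms.length := by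
          rw [eu] at huval; have := huval.1; omega
        have l1 := Leg.tk (w := w) σ hσ h1
        have l2 := Leg.tk (w := w) σ' hσ' h1'
        rw [← h2, ← ev] at l1
        rw [← h2', ← eu] at l2
        have hdir : xs k (σ' + 1) + 5 = xs k (σ + 1) + 5 + k := by
          rcases d.cr_eq_zero (by omega) hc with h3 | h3
          · exfalso
            simp only [tok, Bool.and_eq_true, decide_eq_true_eq] at h1 h1'
            have a1 := xs_five h1.2.1
            have a2 := xs_five h1'.2.1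
            have a3 : ((σ' / (4 * k) : ℕ) : ZMod (2 * k)) = (σ / (4 * k) : ℕ) := by
              rw [← a1, ← a2, h3]
            have a4 := (ZMod.natCast_eq_natCast_iff _ _ (2 * k)).1 a3
            have a5 : σ' / (4 * k) = σ / (4 * k) := by
              rw [← Nat.div_add_mod (σ' / (4 * k)) (2 * k),
                ← Nat.div_add_mod (σ / (4 * k)) (2 * k), ← h2, ← h2']
              congr 1
            apply hs
            congr 1
            refine tok_unique (by omega) hke h1'.1 h1.1 a5 ?_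
            rw [h1'.2.1, h1.2.1, a5]
          · exact h3
        refine gl_of_one hm1 hk fun z hz => Or.inr ⟨xs k (σ + 1) + 5, ?_, Or.inr (Or.inr
          ⟨.F f, ?_, l1⟩)⟩
        · rcases hz with rfl | rfl
          · left; rfl
          · right; linear_combination -(kk k)
        · rw [← hdir]; exact l2
      · refine gl_Y0 hk hw hv hu' fun f hf => ⟨by rw [hu]; simp, ?_⟩
        intro s'' r'' h
        rw [hu] at h
        injection h with h h'
        subst h
        exact fun h => ht ⟨f, hf, h⟩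
  · have hu' : ∀ r'', kd k ms.length u ≠ .Y s r'' := by rw [hu]; simp
    by_cases hr : r = 0
    swap
    · exact gl_Y1 hk hv hu' hr
    subst hr
    by_cases ht : Tk k ms s f
    · obtain ⟨σ, rfl, h1, h2⟩ := ht
      have hm1 := mov_Y0 (w := w) (d := d) hk hv hu'
      have ev : v = .H (σ + 1) 5 0 := by
        rcases kd_Y hv with ⟨h1, hs, eu⟩ | ⟨h1, eu⟩ | ⟨h1, eu⟩ | ⟨h1, eu⟩ | ⟨h1, eu⟩ | ⟨h1, eu⟩ <;>
        first | (exfalso; omega) | exact eu
      have hσ : σ < nT k ms.length := by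
        rw [ev] at hvval; have := hvval.1; omega
      refine gl_of_leg hm1 hk ?_
      have l1 := Leg.tk (w := w) σ hσ h1
      rw [← h2, ← ev] at l1
      rw [kd_F hu]
      exact l1
    · refine gl_Y0 hk hw hv hu' fun f' hf' => ⟨?_, ?_⟩
      · rw [hu]
        intro h
        injection h with h
        subst h
        exact ht hf'
      · rw [hu]; simp
  · have hu' : ∀ r'', kd k ms.length u ≠ .Y s r'' := by rw [hu]; simp
    by_cases hr : r = 0
    swap
    · exact gl_Y1 hk hv hu' hr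
    subst hr
    exact gl_Y0 hk hw hv hu' fun f' hf' => ⟨by rw [hu]; simp, by rw [hu]; simp⟩

end Pool.Agent.H670R2.Sl
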