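import Pool.Agent.H670R2.SlClass3

/-!
The classification of pairs of hubs, lines and points, conclusion.
-/

namespace Pool.Agent.H670R2.Sl

variable {k : ℕ} {ms : List ℕ} {d : DS k} {w : ℕ → ZMod (2 * k)} {P : ℕ → ℕ → ℝ × ℝ}
  {p0 : Vx → ℝ × ℝ}

theorem e1_lt (j : ℕ) : e1 j < 4 := by unfold e1; split_ifs <;> omega

theorem e2_lt {j : ℕ} (h : j < 6) : e2 j < 4 := by unfold e2; split_ifs <;> omega

theorem e1_ne_e2 {j : ℕ} (h : j < 6) : e1 j ≠ e2 j := by
  unfold e1 e2; split_ifs <;> omega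

/-- distinct pairs of points have an end in one of them only -/
theorem ends_ne {j j' : ℕ} (h : j < 6) (h' : j' < 6) (hne : j ≠ j') :
    (e1 j' ≠ e1 j ∧ e1 j' ≠ e2 j) ∨ (e2 j' ≠ e1 j ∧ e2 j' ≠ e2 j) := by
  interval_cases j <;> interval_cases j' <;> simp [e1, e2] at hne ⊢

theorem exists_side {i j : ℕ} (hi : i < 4) (hj : j < 4) (hij : i ≠ j) :
    ∃ c < 6, (e1 c = i ∧ e2 c = j) ∨ (e1 c = j ∧ e2 c = i) := by
  interval_cases i <;> interval_cases j <;> first
    | exact absurd rfl hij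
    | exact ⟨0, by norm_num, by decide⟩
    | exact ⟨1, by norm_num, by decide⟩
    | exact ⟨2, by norm_num, by decide⟩
    | exact ⟨3, by norm_num, by decide⟩
    | exact ⟨4, by norm_num, by decide⟩
    | exact ⟨5, by norm_num, by decide⟩

theorem cr_w {w m z : ZMod (2 * k)} (hw : w = m ∨ w = m + k) {a : ℝ × ℝ}
    (h : cr a (d.e w) = 0) (hz : z = m ∨ z = m + k) : cr a (d.e z) = 0 := by
  have h1 : cr a (d.e m) = 0 := by
    rcases hw with rfl | rfl
    · exact h
    · rw [d.per, cr_neg_right] at h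
      exact neg_eq_zero.1 h
  rcases hz with rfl | rfl
  · exact h1
  · rw [d.per, cr_neg_right, h1, neg_zero]

/-- the line number `f` passes through its points -/
theorem line_e1 (hw : ∀ f < ms.length, w f = (ms.getD f 0 : ℕ) ∨ w f = (ms.getD f 0 : ℕ) + k)
    (hp0 : LL k ms w d p0) (hp0P : ∀ n i, p0 (.P n i) = P n i) {f : ℕ} (hf : f < ms.length) :
    cr (p0 (.F f) - P (f / 6) (e1 (f % 6))) (d.e (ms.getD f 0 : ℕ)) = 0 := by
  have h1 := hp0 _ _ _ (Leg.f1 f hf)
  rw [hp0P] at h1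
  have h2 : cr (p0 (.F f) - P (f / 6) (e1 (f % 6))) (d.e (w f + k)) = 0 := by
    have : p0 (.F f) - P (f / 6) (e1 (f % 6)) = -(P (f / 6) (e1 (f % 6)) - p0 (.F f)) := by abel
    rw [this, cr_neg_left, h1, neg_zero]
  refine cr_w (m := (ms.getD f 0 : ℕ)) ?_ h2 (Or.inl rfl)
  rcases hw f hf with h | h
  · right; rw [h]
  · left; rw [h]; linear_combination kk k

theorem line_e2 (hw : ∀ f < ms.length, w f = (ms.getD f 0 : ℕ) ∨ w f = (ms.getD f 0 : ℕ) + k)
    (hp0 : LL k ms w d p0) (hp0P : ∀ n i, p0 (.P n i) = P n i) {f : ℕ} (hf : f < ms.length) :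
    cr (p0 (.F f) - P (f / 6) (e2 (f % 6))) (d.e (ms.getD f 0 : ℕ)) = 0 := by
  have h1 := hp0 _ _ _ (Leg.f2 f hf)
  rw [hp0P] at h1
  have h2 : cr (p0 (.F f) - P (f / 6) (e2 (f % 6))) (d.e (w f)) = 0 := by
    have : p0 (.F f) - P (f / 6) (e2 (f % 6)) = -(P (f / 6) (e2 (f % 6)) - p0 (.F f)) := by abel
    rw [this, cr_neg_left, h1, neg_zero]
  exact cr_w (m := (ms.getD f 0 : ℕ)) (hw f hf) h2 (Or.inl rfl)

theorem gl_FF (hk : 8 ≤ k) (hP : QuadG k ms d P)
    (hw : ∀ f < ms.length, w f = (ms.getD f 0 : ℕ) ∨ w f = (ms.getD f 0 : ℕ) + k)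
    (hp0 : LL k ms w d p0) (hp0P : ∀ n i, p0 (.P n i) = P n i) {u v : Vx} {f f' : ℕ}
    (hv : kd k ms.length v = .F f) (hu : kd k ms.length u = .F f') (hvv : v.val k ms.length)
    (huv : u.val k ms.length) (hne : f' ≠ f) : Gl ms w d u v := by
  have hf : f < ms.length := by rw [kd_F hv] at hvv; exact hvv
  have hf' : f' < ms.length := by rw [kd_F hu] at huv; exact huv
  by_cases h6 : f' / 6 = f / 6
  swap
  · refine gl_of_all (mov_G (n := f / 6) hk ?_ ?_) hk
    · rw [hv]; exact Or.inr (Or.inl ⟨f, rfl, rfl⟩)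
    · rw [hu]
      rintro (⟨i, h⟩ | ⟨f'', h, h'⟩ | ⟨s, r, f'', h, -⟩)
      · cases h
      · injection h with h
        rw [← h] at h'
        exact h6 h'
      · cases h
  have hm1 : Mov ms w d u v (d.e (ms.getD f 0 : ℕ)) :=
    mov_F hk (hw f) (Or.inl hv) ⟨by rw [hu]; intro h; injection h with h; exact hne h,
      by rw [hu]; simp⟩
  have hm2 : Mov ms w d u v (-d.e (ms.getD f' 0 : ℕ)) :=
    (mov_F hk (hw f') (Or.inl hu) ⟨by rw [hv]; intro h; injection h with h; exact hne h.symm,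
      by rw [hv]; simp⟩).symm
  by_cases hc : cr (d.e (ms.getD f 0 : ℕ)) (d.e (ms.getD f' 0 : ℕ)) = 0
  swap
  · refine gl_of_two hm1 hm2 ?_ hk
    rw [cr_neg_right]
    exact neg_ne_zero.2 hc
  refine gl_of_one hm1 hk fun z hz => Or.inl ⟨p0, hp0, ?_⟩
  intro h0
  have h0' : cr (p0 v - p0 u) (d.e (ms.getD f 0 : ℕ)) = 0 :=
    cr_w (m := (ms.getD f 0 : ℕ)) hz h0 (Or.inl rfl)
  rw [kd_F hv, kd_F hu] at h0'
  have l1 := line_e1 hw hp0 hp0P hf
  have hpar := d.cr_eq_zero (by omega) hc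
  have l2 : cr (p0 (.F f') - P (f' / 6) (e1 (f' % 6))) (d.e (ms.getD f 0 : ℕ)) = 0 := by
    refine cr_w (m := (ms.getD f 0 : ℕ)) hpar (line_e1 hw hp0 hp0P hf') (Or.inl rfl)
  have l3 : cr (p0 (.F f') - P (f' / 6) (e2 (f' % 6))) (d.e (ms.getD f 0 : ℕ)) = 0 := by
    refine cr_w (m := (ms.getD f 0 : ℕ)) hpar (line_e2 hw hp0 hp0P hf') (Or.inl rfl)
  have key : ∀ x, cr (p0 (.F f') - P (f' / 6) x) (d.e (ms.getD f 0 : ℕ)) = 0 →
      cr (P (f / 6) x - P (f / 6) (e1 (f % 6))) (d.e (ms.getD f 0 : ℕ)) = 0 := by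
    intro x hx
    rw [h6] at hx
    have e : P (f / 6) x - P (f / 6) (e1 (f % 6)) =
        (p0 (.F f) - P (f / 6) (e1 (f % 6))) - (p0 (.F f) - p0 (.F f')) -
          (p0 (.F f') - P (f / 6) x) := by abel
    rw [e, cr_sub_left, cr_sub_left, l1, h0', hx]
    ring
  have hj : f % 6 ≠ f' % 6 := by omega
  rcases ends_ne (j := f % 6) (j' := f' % 6) (by omega) (by omega) hj with h | h
  · exact hP.nc f hf _ (e1_lt _) h.1 h.2 (key _ l2)
  · exact hP.nc f hf _ (e2_lt (by omega)) h.1 h.2 (key _ l3)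

theorem gl_FP (hk : 8 ≤ k) (hP : QuadG k ms d P)
    (hw : ∀ f < ms.length, w f = (ms.getD f 0 : ℕ) ∨ w f = (ms.getD f 0 : ℕ) + k)
    (hp0 : LL k ms w d p0) (hp0P : ∀ n i, p0 (.P n i) = P n i) {u v : Vx} {f n i : ℕ}
    (hv : kd k ms.length v = .F f) (hu : kd k ms.length u = .P n i) (hvv : v.val k ms.length)
    (huv : u.val k ms.length) : Gl ms w d u v := by
  have hf : f < ms.length := by rw [kd_F hv] at hvv; exact hvv
  have hi : i < 4 := by rw [(kd_P hu).1] at huv; exact huv.1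
  by_cases h6 : n = f / 6
  swap
  · refine gl_of_all (mov_G (n := f / 6) hk ?_ ?_) hk
    · rw [hv]; exact Or.inr (Or.inl ⟨f, rfl, rfl⟩)
    · rw [hu]
      rintro (⟨i, h⟩ | ⟨f'', h, h'⟩ | ⟨s, r, f'', h, -⟩)
      · injection h with h
        exact h6 h
      · cases h
      · cases h
  have hm1 : Mov ms w d u v (d.e (ms.getD f 0 : ℕ)) :=
    mov_F hk (hw f) (Or.inl hv) ⟨by rw [hu]; simp, by rw [hu]; simp⟩
  by_cases h1 : i = e1 (f % 6)
  · have hl := Leg.f1 (w := w) f hf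
    rw [← h1, ← h6, ← (kd_P hu).1, ← kd_F hv] at hl
    refine gl_of_leg' hm1 hk ?_ hl
    rcases hw f hf with h | h
    · right; rw [h]
    · left; rw [h]; linear_combination kk k
  by_cases h2 : i = e2 (f % 6)
  · have hl := Leg.f2 (w := w) f hf
    rw [← h2, ← h6, ← (kd_P hu).1, ← kd_F hv] at hl
    exact gl_of_leg' hm1 hk (hw f hf) hl
  refine gl_of_one hm1 hk fun z hz => Or.inl ⟨p0, hp0, ?_⟩
  intro h0
  have h0' : cr (p0 v - p0 u) (d.e (ms.getD f 0 : ℕ)) = 0 :=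
    cr_w (m := (ms.getD f 0 : ℕ)) hz h0 (Or.inl rfl)
  rw [kd_F hv, (kd_P hu).1, hp0P, h6] at h0'
  refine hP.nc f hf i hi h1 h2 ?_
  have e : P (f / 6) i - P (f / 6) (e1 (f % 6)) =
        (p0 (.F f) - P (f / 6) (e1 (f % 6))) - (p0 (.F f) - P (f / 6) i) := by abel
  rw [e, cr_sub_left, line_e1 hw hp0 hp0P hf, h0', sub_zero]

theorem gl_PP (hk : 8 ≤ k) (hP : QuadG k ms d P) (h6 : 6 ∣ ms.length)
    (hw : ∀ f < ms.length, w f = (ms.getD f 0 : ℕ) ∨ w f = (ms.getD f 0 : ℕ) + k)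
    (hp0 : LL k ms w d p0) (hp0P : ∀ n i, p0 (.P n i) = P n i) {u v : Vx} {n i n' j : ℕ}
    (hv : kd k ms.length v = .P n i) (hu : kd k ms.length u = .P n' j) (hvv : v.val k ms.length)
    (huv : u.val k ms.length) (hne : u ≠ v) : Gl ms w d u v := by
  have hi : i < 4 := by rw [(kd_P hv).1] at hvv; exact hvv.1
  have hj : j < 4 := by rw [(kd_P hu).1] at huv; exact huv.1
  by_cases hn : n' = n
  swap
  · refine gl_of_all (mov_G (n := n) hk ?_ ?_) hk
    · rw [hv]; exact Or.inl ⟨i, rfl⟩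
    · rw [hu]
      rintro (⟨i, h⟩ | ⟨f'', h, h'⟩ | ⟨s, r, f'', h, -⟩)
      · injection h with h
        exact hn h
      · cases h
      · cases h
  subst hn
  have hij : i ≠ j := by
    rintro rfl
    exact hne ((kd_P hu).1.trans (kd_P hv).1.symm)
  obtain ⟨c, hc, hcc⟩ := exists_side hi hj hij
  have hf : 6 * n' + c < ms.length := by
    have := (kd_P hv).2
    obtain ⟨q, hq⟩ := h6
    omega
  have hd : (6 * n' + c) / 6 = n' := by omega
  have hm : (6 * n' + c) % 6 = c := by omega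
  obtain ⟨r, hr, hs⟩ := hP.side _ hf
  have l1 := Leg.f1 (w := w) _ hf
  have l2 := Leg.f2 (w := w) _ hf
  rw [hd, hm] at hs l1 l2
  -- the general fact
  have key : ∀ z, (cr (P n' (e2 c) - P n' (e1 c)) (d.e z) = 0) →
      w (6 * n' + c) = z ∨ w (6 * n' + c) = z + k := by
    intro z h0
    rw [hs, cr_smul_left] at h0
    have h1 := (mul_eq_zero.1 h0).resolve_left hr
    have hkk := kk k
    rcases d.cr_eq_zero (by omega) h1 with h2 | h2 <;> rcases hw _ hf with h3 | h3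
    · left; rw [h3, h2]
    · right; rw [h3, h2]
    · right; rw [h3, h2]; linear_combination -hkk
    · left; rw [h3, h2]
  intro z
  by_cases h0 : cr (p0 v - p0 u) (d.e z) = 0
  swap
  · exact Or.inl ⟨p0, hp0, h0⟩
  right
  rw [(kd_P hv).1, (kd_P hu).1, hp0P, hp0P] at h0
  have hkk := kk k
  rcases hcc with ⟨h1, h2⟩ | ⟨h1, h2⟩
  · -- `v` is the first end
    rw [h1] at l1
    rw [h2] at l2
    rw [← (kd_P hv).1] at l1
    rw [← (kd_P hu).1] at l2
    have h3 : cr (P n' (e2 c) - P n' (e1 c)) (d.e z) = 0 := by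
      rw [h1, h2]
      have : P n' j - P n' i = -(P n' i - P n' j) := by abel
      rw [this, cr_neg_left, h0, neg_zero]
    refine ⟨w (6 * n' + c) + k, ?_, Or.inr (Or.inr ⟨_, ?_, l1⟩)⟩
    · rcases key z h3 with h4 | h4
      · right; rw [h4]
      · left; rw [h4]; linear_combination hkk
    · have : w (6 * n' + c) + k + k = w (6 * n' + c) := by linear_combination hkk
      rw [this]; exact l2
  · rw [h1] at l1
    rw [h2] at l2
    rw [← (kd_P hu).1] at l1
    rw [← (kd_P hv).1] at l2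
    have h3 : cr (P n' (e2 c) - P n' (e1 c)) (d.e z) = 0 := by
      rw [h1, h2]; exact h0
    exact ⟨w (6 * n' + c), key z h3, Or.inr (Or.inr ⟨_, l1, l2⟩)⟩

/-- **Classification.** -/
theorem classify (hk : 8 ≤ k) (hke : Even k) (h6 : 6 ∣ ms.length) (hP : QuadG k ms d P)
    (hw : ∀ f < ms.length, w f = (ms.getD f 0 : ℕ) ∨ w f = (ms.getD f 0 : ℕ) + k)
    (hp0 : LL k ms w d p0) (hp0P : ∀ n i, p0 (.P n i) = P n i) {u v : Vx}
    (hu : u.val k ms.length) (hv : v.val k ms.length) (huv : u ≠ v) : Gl ms w d u v := by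
  cases hkv : kd k ms.length v with
  | iso x => exact gl_of_all (mov_iso hk hkv huv) hk
  | Z s i b => exact gl_Z hk hkv hv huv
  | Q s =>
      cases hku : kd k ms.length u with
      | iso x => exact (gl_of_all (mov_iso hk hku huv.symm) hk).symm
      | Z s i b => exact (gl_Z hk hku hu huv.symm).symm
      | Q s' =>
          rcases lt_trichotomy s' s with h | h | h
          · exact gl_Q hk hkv hku hv h
          · exact absurd (by rw [kd_Q hku, kd_Q hkv, h]) huv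
          · exact (gl_Q hk hku hkv hu h).symm
      | _ => exact gl_of_all (mov_Q hk hkv (by rw [hku]; simp)) hk
  | Y s r =>
      cases hku : kd k ms.length u with
      | iso x => exact (gl_of_all (mov_iso hk hku huv.symm) hk).symm
      | Z s i b => exact (gl_Z hk hku hu huv.symm).symm
      | Q s' => exact (gl_of_all (mov_Q hk hku (by rw [hkv]; simp)) hk).symm
      | Y s' r' => exact gl_Y hk hke hw hkv hv hu huv (Or.inl ⟨_, _, hku⟩)
      | F f => exact gl_Y hk hke hw hkv hv hu huv (Or.inr (Or.inl ⟨_, hku⟩))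
      | P n i => exact gl_Y hk hke hw hkv hv hu huv (Or.inr (Or.inr ⟨_, _, hku⟩))
  | F f =>
      cases hku : kd k ms.length u with
      | iso x => exact (gl_of_all (mov_iso hk hku huv.symm) hk).symm
      | Z s i b => exact (gl_Z hk hku hu huv.symm).symm
      | Q s' => exact (gl_of_all (mov_Q hk hku (by rw [hkv]; simp)) hk).symm
      | Y s' r' => exact (gl_Y hk hke hw hku hu hv huv.symm (Or.inr (Or.inl ⟨_, hkv⟩))).symm
      | F f' =>
          refine gl_FF hk hP hw hp0 hp0P hkv hku hv hu ?_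
          rintro rfl
          exact huv ((kd_F hku).trans (kd_F hkv).symm)
      | P n i => exact gl_FP hk hP hw hp0 hp0P hkv hku hv hu
  | P n i =>
      cases hku : kd k ms.length u with
      | iso x => exact (gl_of_all (mov_iso hk hku huv.symm) hk).symm
      | Z s i b => exact (gl_Z hk hku hu huv.symm).symm
      | Q s' => exact (gl_of_all (mov_Q hk hku (by rw [hkv]; simp)) hk).symm
      | Y s' r' => exact (gl_Y hk hke hw hku hu hv huv.symm (Or.inr (Or.inr ⟨_, _, hkv⟩))).symm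
      | F f' => exact (gl_FP hk hP hw hp0 hp0P hku hkv hu hv).symm
      | P n' j => exact gl_PP hk hP h6 hw hp0 hp0P hkv hku hv hu huv

end Pool.Agent.H670R2.Sl
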