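import Pool.Agent.H670R2.SlBone

/-!
Generic perturbations, and a criterion for drawings.
-/

namespace Pool.Agent.H670R2.Sl

variable {k : ℕ}

/-- generic perturbation -/
theorem generic {ι E : Type} [Finite ι] [AddCommGroup E] [Module ℝ E] (f : ι → E → ℝ)
    (hf : ∀ i p v (ε : ℝ), f i (p + ε • v) = f i p + ε * f i v) (L : E → Prop)
    (hL : ∀ p v (ε : ℝ), L p → L v → L (p + ε • v)) {p0 : E} (hp0 : L p0) :
    ∃ p, L p ∧ (∀ i, 0 < f i p0 → 0 < f i p) ∧ ∀ i, (∃ v, L v ∧ f i v ≠ 0) → f i p ≠ 0 := by
  classical
  have := Fintype.ofFinite ι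
  have key : ∀ S : Finset ι, ∃ p, L p ∧ (∀ i, 0 < f i p0 → 0 < f i p) ∧
      ∀ i ∈ S, (∃ v, L v ∧ f i v ≠ 0) → f i p ≠ 0 := by
    intro S
    induction S using Finset.induction_on with
    | empty => exact ⟨p0, hp0, fun _ h => h, by simp⟩
    | insert a S ha ih =>
        obtain ⟨p, hp, h1, h2⟩ := ih
        by_cases hv : ∃ v, L v ∧ f a v ≠ 0
        swap
        · refine ⟨p, hp, h1, fun i hi => ?_⟩
          rcases Finset.mem_insert.1 hi with rfl | hi
          · intro h; exact absurd h hv
          · exact h2 i hi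
        obtain ⟨v, hLv, hav⟩ := hv
        have hcont : ∀ i, Filter.Tendsto (fun ε : ℝ => f i p + ε * f i v) (nhdsWithin 0 {0}ᶜ)
            (nhds (f i p)) := by
          intro i
          have : Continuous (fun ε : ℝ => f i p + ε * f i v) := by fun_prop
          have h := this.tendsto 0
          simp only [zero_mul, add_zero] at h
          exact h.mono_left nhdsWithin_le_nhds
        have e1 : ∀ᶠ ε : ℝ in nhdsWithin 0 {0}ᶜ, ∀ i, 0 < f i p0 → 0 < f i p + ε * f i v := by
          rw [Filter.eventually_all]
          intro i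
          by_cases h : 0 < f i p0
          · filter_upwards [(hcont i).eventually (lt_mem_nhds (h1 i h))] with ε hε _
            exact hε
          · exact Filter.Eventually.of_forall fun _ h' => absurd h' h
        have e2 : ∀ᶠ ε : ℝ in nhdsWithin 0 {0}ᶜ, ∀ i, f i p ≠ 0 → f i p + ε * f i v ≠ 0 := by
          rw [Filter.eventually_all]
          intro i
          by_cases h : f i p ≠ 0
          · filter_upwards [(hcont i).eventually_ne h] with ε hε _
            exact hε
          · exact Filter.Eventually.of_forall fun _ h' => absurd h' h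
        have e3 : ∀ᶠ ε : ℝ in nhdsWithin 0 {0}ᶜ, ε ≠ 0 := by
          filter_upwards [self_mem_nhdsWithin] with ε hε
          exact hε
        obtain ⟨ε, ⟨h3, h4⟩, h5⟩ := ((e1.and e2).and e3).exists
        refine ⟨p + ε • v, hL _ _ _ hp hLv, fun i hi => by rw [hf]; exact h3 i hi, ?_⟩
        intro i hi hex
        rw [hf]
        rcases Finset.mem_insert.1 hi with rfl | hi
        · by_cases h : f i p = 0
          · rw [h, zero_add]
            exact mul_ne_zero h5 hav
          · exact h4 i h
        · exact h4 i (h2 i hi hex)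
  obtain ⟨p, hp, h1, h2⟩ := key Finset.univ
  exact ⟨p, hp, h1, fun i => h2 i (Finset.mem_univ _)⟩

/-- straight paths in the direction `z` -/
inductive Bey {V : Type} (E : V → V → ZMod (2 * k) → Prop) (z : ZMod (2 * k)) : V → V → Prop
  | one {u v : V} (h : E u v z) : Bey E z u v
  | cons {u v w : V} (h : E u v z) (h' : Bey E z v w) : Bey E z u w

theorem Bey.dr {V : Type} {d : DS k} {p : V → ℝ × ℝ} {E : V → V → ZMod (2 * k) → Prop}
    (hE : ∀ u v z, E u v z → Dr d p u v z) {z : ZMod (2 * k)} {u w : V} (h : Bey E z u w) :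
    Dr d p u w z := by
  induction h with
  | one h => exact hE _ _ _ h
  | cons h _ ih =>
      obtain ⟨r, hr, e1⟩ := hE _ _ _ h
      obtain ⟨s, hs, e2⟩ := ih
      refine ⟨r + s, by linarith, ?_⟩
      rw [add_smul, ← e1, ← e2]; abel

/-- a criterion for drawings; `B` contains an end of every edge -/
theorem drawing_of_star {V : Type} (d : DS k) (hk : 2 ≤ k) (p : V → ℝ × ℝ) (B : V → Prop)
    (E : V → V → ZMod (2 * k) → Prop) (hE : ∀ u v z, E u v z → Dr d p u v z)
    (hsym : ∀ u v z, E u v z → E v u (z + k)) (hB : ∀ u v z, E u v z → B u ∨ B v)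
    (hD : ∀ u v v' z, B u → E u v z → E u v' z → v = v')
    (hN : ∀ u, ¬ B u → ∃ v z, E u v z)
    (hstar : ∀ u w z, B u → u ≠ w → cr (p w - p u) (d.e z) = 0 → Bey E z u w ∨ Bey E (z + k) u w) :
    Function.Injective p ∧ ∀ u v w z, E u v z → p w ∉ openSegment ℝ (p u) (p v) := by
  have hkk : ∀ z : ZMod (2 * k), z + k + k = z := fun z => by
    rw [add_assoc, kk, add_zero]
  have hBey : ∀ {u w : V} {z : ZMod (2 * k)}, Bey E z u w → Dr d p u w z := fun h => h.dr hE
  have hdr0 : ∀ {u w : V} {z : ZMod (2 * k)}, Dr d p u w z → p w ≠ p u := by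
    rintro u w z ⟨r, hr, h⟩ he
    rw [he, sub_self] at h
    rcases smul_eq_zero.1 h.symm with h | h
    · exact hr.ne' h
    · exact d.ne hk z h
  have hopp : ∀ {u w x : V} {z : ZMod (2 * k)}, Dr d p u w z → Dr d p u x (z + k) →
      p w ≠ p x := by
    rintro u w x z ⟨r, hr, h⟩ ⟨s, hs, h'⟩ he
    rw [he, h', d.per, smul_neg] at h
    have h3 : (s + r) • d.e z = 0 := by rw [add_smul, ← h]; simp
    rcases smul_eq_zero.1 h3 with h4 | h4
    · linarith
    · exact d.ne hk z h4
  have hinjB : ∀ u w, B u → u ≠ w → p w ≠ p u := by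
    intro u w hu huw he
    rcases hstar u w 0 hu huw (by rw [he, sub_self, cr_zero_left]) with h | h
    · exact hdr0 (hBey h) he
    · exact hdr0 (hBey h) he
  constructor
  · intro u w he
    by_contra huw
    by_cases hu : B u
    · exact hinjB u w hu huw he.symm
    by_cases hw : B w
    · exact hinjB w u hw (Ne.symm huw) he
    obtain ⟨a, z', h1'⟩ := hN u hu
    have h1 := hsym _ _ _ h1'
    have ha : B a := (hB _ _ _ h1').resolve_left hu
    obtain ⟨r, hr, e1⟩ := hE _ _ _ h1
    have haw : a ≠ w := by
      rintro rfl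
      exact hw ha
    rcases hstar a w (z' + k) ha haw (by rw [← he, e1, cr_smul_left, cr_self, mul_zero]) with h | h
    · cases h with
      | one h => exact huw (hD _ _ _ _ ha h1 h)
      | cons h h' =>
          obtain rfl := hD _ _ _ _ ha h1 h
          exact hdr0 (hBey h') he.symm
    · exact hopp (hE _ _ _ h1) (hBey h) he
  · have main : ∀ u v w z, B u → E u v z → p w ∉ openSegment ℝ (p u) (p v) := by
      rintro u v w z hu huv ⟨a, b, ha, hb, hab, hw⟩
      obtain ⟨r, hr, e1⟩ := hE _ _ _ huv
      have e2 : p w - p u = (b * r) • d.e z := by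
        have e3 : p v = p u + r • d.e z := by rw [← e1]; abel
        have e4 : a = 1 - b := by linarith
        rw [← hw, e3, e4, sub_smul, one_smul, smul_add, smul_smul]
        abel
      have hwu : u ≠ w := by
        rintro rfl
        rw [sub_self] at e2
        rcases smul_eq_zero.1 e2.symm with h | h
        · have := mul_pos hb hr
          linarith
        · exact d.ne hk z h
      have hdw : Dr d p u w z := ⟨b * r, mul_pos hb hr, e2⟩
      rcases hstar u w z hu hwu (by rw [e2, cr_smul_left, cr_self, mul_zero]) with h | h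
      · have key : ∀ s : ℝ, 0 ≤ s → p w - p u ≠ (r + s) • d.e z := by
          intro s hs he
          rw [e2] at he
          have h3 : (r + s - b * r) • d.e z = 0 := by rw [sub_smul, ← he, sub_self]
          rcases smul_eq_zero.1 h3 with h4 | h4
          · have : b < 1 := by linarith
            nlinarith
          · exact d.ne hk z h4
        cases h with
        | one h =>
            obtain rfl := hD _ _ _ _ hu huv h
            exact key 0 le_rfl (by rw [add_zero]; exact e1)
        | cons h h' =>
            obtain rfl := hD _ _ _ _ hu huv h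
            obtain ⟨s, hs, e5⟩ := hBey h'
            refine key s hs.le ?_
            rw [add_smul, ← e1, ← e5]; abel
      · exact hopp hdw (hBey h) rfl
    intro u v w z huv
    rcases hB _ _ _ huv with hu | hv
    · exact main u v w z hu huv
    · rw [openSegment_symm]
      exact main v u w _ hv (hsym _ _ _ huv)

end Pool.Agent.H670R2.Sl
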