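import Pool.Agent.H670R2.SlClass4
import Pool.Agent.H670R2.SlStar

/-!
The placement of all vertices: directions.
-/

namespace Pool.Agent.H670R2.Sl

variable {k : ℕ}

/-- direction from the first hub to its `j`-th neighbour -/
def al (k : ℕ) (y : ZMod (2 * k)) (j : ℕ) : ZMod (2 * k) := if j < k - 1 then y + j else y + j + 2

/-- direction from the second hub to its `j`-th neighbour -/
def be (k : ℕ) (y : ZMod (2 * k)) (j : ℕ) : ZMod (2 * k) := y + j + 1

open Classical in
/-- the positions of all vertices, from the positions of the nodes -/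
noncomputable def pos (N : ℕ) (d : DS k) (p : Vx → ℝ × ℝ) : Vx → ℝ × ℝ
  | .P n i => p (.P n i)
  | .F f => p (.F f)
  | .H s i b => if b < 2 ∨ ¬ blk k N s i then p (.H s i b) else
      p (.H s i 0) + (cr (p (.H s i 1) - p (.H s i 0)) (d.e (be k (yy k s i) (b - 2))) /
        cr (d.e (al k (yy k s i) (b - 2))) (d.e (be k (yy k s i) (b - 2)))) •
          d.e (al k (yy k s i) (b - 2))

/-- the vertices that are not common neighbours of hubs -/
def Vx.node (k N : ℕ) : Vx → Prop
  | .P _ _ => True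
  | .F _ => True
  | .H s i b => b < 2 ∨ ¬ blk k N s i

theorem pos_node {N : ℕ} {d : DS k} {p : Vx → ℝ × ℝ} {v : Vx} (h : v.node k N) :
    pos N d p v = p v := by
  cases v with
  | P n i => rfl
  | F f => rfl
  | H s i b => exact if_pos h

theorem pos_conn {N : ℕ} {d : DS k} {p : Vx → ℝ × ℝ} {s i j : ℕ} (h : blk k N s i) :
    pos N d p (.H s i (j + 2)) = p (.H s i 0) +
      (cr (p (.H s i 1) - p (.H s i 0)) (d.e (be k (yy k s i) j)) /
        cr (d.e (al k (yy k s i) j)) (d.e (be k (yy k s i) j))) •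
          d.e (al k (yy k s i) j) := by
  have : ¬ (j + 2 < 2 ∨ ¬ blk k N s i) := by
    push Not
    exact ⟨by omega, h⟩
  simp only [pos]
  rw [if_neg this]
  simp

theorem pos_add {N : ℕ} {d : DS k} (p q : Vx → ℝ × ℝ) (ε : ℝ) (v : Vx) :
    pos N d (p + ε • q) v = pos N d p v + ε • pos N d q v := by
  cases v with
  | P n i => rfl
  | F f => rfl
  | H s i b =>
      simp only [pos]
      split_ifs
      · rfl
      · simp only [Pi.add_apply, Pi.smul_apply]
        rw [smul_add, smul_smul]
        have e : ∀ a b c e : ℝ × ℝ, a + ε • b - (c + ε • e) = (a - c) + ε • (b - e) := by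
          intro a b c e; rw [smul_sub]; abel
        rw [e, cr_add_left, cr_smul_left, add_div, add_smul, mul_div_assoc]
        abel

theorem cr_al_be (hk : 8 ≤ k) (d : DS k) (y : ZMod (2 * k)) (j : ℕ) :
    cr (d.e (al k y j)) (d.e (be k y j)) ≠ 0 := by
  unfold al be
  split_ifs
  · exact d.cr_one (by omega) _
  · have : y + (j : ZMod (2 * k)) + 2 = y + j + 1 + 1 := by ring
    rw [this, cr_comm]
    exact neg_ne_zero.2 (d.cr_one (by omega) _)

/-- signs at a common neighbour of two hubs -/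
theorem conn_sign (hk : 8 ≤ k) (d : DS k) {v : ℝ × ℝ} {y : ZMod (2 * k)}
    (h1 : 0 < cr (d.e (y - 1)) v) (h2 : 0 < cr v (d.e y)) {j : ℕ} (hj : j < 2 * k - 2) :
    0 < cr v (d.e (be k y j)) / cr (d.e (al k y j)) (d.e (be k y j)) ∧
    0 < cr v (d.e (al k y j)) / cr (d.e (al k y j)) (d.e (be k y j)) := by
  have hs : ∀ {n : ℕ}, n < k → 0 < cr v (d.e (y + n)) := fun hn =>
    d.sector_pos (by omega) h1 h2 hn
  have h3 : ∀ {n : ℕ}, n < k → cr v (d.e (y + (n + k : ℕ))) < 0 := by
    intro n hn
    have : y + ((n + k : ℕ) : ZMod (2 * k)) = y + n + k := by push_cast; ring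
    rw [this, d.per, cr_neg_right]
    have := hs hn
    linarith
  have hone : ∀ z, 0 < cr (d.e z) (d.e (z + 1)) := by
    intro z
    simpa using d.pos z 1 (by norm_num) (by omega)
  unfold al be
  by_cases hc : j < k - 1
  · rw [if_pos hc]
    have h4 := hs (n := j) (by omega)
    have h5 := hs (n := j + 1) (by omega)
    rw [show y + ((j + 1 : ℕ) : ZMod (2 * k)) = y + j + 1 by push_cast; ring] at h5
    exact ⟨div_pos h5 (hone _), div_pos h4 (hone _)⟩
  · rw [if_neg hc]
    have h4 := h3 (n := j + 1 - k) (by omega)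
    have h5 := h3 (n := j + 2 - k) (by omega)
    rw [show j + 1 - k + k = j + 1 by omega] at h4
    rw [show j + 2 - k + k = j + 2 by omega] at h5
    rw [show y + ((j + 1 : ℕ) : ZMod (2 * k)) = y + j + 1 by push_cast; ring] at h4
    rw [show y + ((j + 2 : ℕ) : ZMod (2 * k)) = y + j + 2 by push_cast; ring] at h5
    have h6 : cr (d.e (y + j + 2)) (d.e (y + j + 1)) < 0 := by
      have := hone (y + j + 1)
      rw [show y + (j : ZMod (2 * k)) + 1 + 1 = y + j + 2 by ring] at this
      rw [cr_comm]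
      linarith
    exact ⟨div_pos_of_neg_of_neg h4 h6, div_pos_of_neg_of_neg h5 h6⟩

/-- the edges with their directions, in both orientations -/
inductive EE (k : ℕ) (ms : List ℕ) (w : ℕ → ZMod (2 * k)) : Vx → Vx → ZMod (2 * k) → Prop
  | leg {u v : Vx} {z : ZMod (2 * k)} (h : Leg k ms w u v z) : EE k ms w u v z
  | leg' {u v : Vx} {z : ZMod (2 * k)} (h : Leg k ms w u v z) : EE k ms w v u (z + k)
  | a (s i j : ℕ) (h : blk k ms.length s i) (hj : j < 2 * k - 2) :
      EE k ms w (.H s i 0) (.H s i (j + 2)) (al k (yy k s i) j)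
  | a' (s i j : ℕ) (h : blk k ms.length s i) (hj : j < 2 * k - 2) :
      EE k ms w (.H s i (j + 2)) (.H s i 0) (al k (yy k s i) j + k)
  | b (s i j : ℕ) (h : blk k ms.length s i) (hj : j < 2 * k - 2) :
      EE k ms w (.H s i 1) (.H s i (j + 2)) (be k (yy k s i) j)
  | b' (s i j : ℕ) (h : blk k ms.length s i) (hj : j < 2 * k - 2) :
      EE k ms w (.H s i (j + 2)) (.H s i 1) (be k (yy k s i) j + k)

variable {ms : List ℕ} {d : DS k} {w : ℕ → ZMod (2 * k)}

theorem EE.symm {u v : Vx} {z : ZMod (2 * k)} (h : EE k ms w u v z) : EE k ms w v u (z + k) := by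
  have hkk : ∀ z : ZMod (2 * k), z + k + k = z := fun z => by rw [add_assoc, kk, add_zero]
  cases h with
  | leg h => exact EE.leg' h
  | leg' h => rw [hkk]; exact EE.leg h
  | a s i j h hj => exact EE.a' s i j h hj
  | a' s i j h hj => rw [hkk]; exact EE.a s i j h hj
  | b s i j h hj => exact EE.b' s i j h hj
  | b' s i j h hj => rw [hkk]; exact EE.b s i j h hj

theorem Leg.node {u v : Vx} {z : ZMod (2 * k)} (h : Leg k ms w u v z) :
    u.node k ms.length ∧ v.node k ms.length := by
  cases h <;> simp [Vx.node]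

theorem EE.node {u v : Vx} {z : ZMod (2 * k)} (h : EE k ms w u v z) :
    u.node k ms.length ∨ v.node k ms.length := by
  cases h with
  | leg h => exact Or.inl h.node.1
  | leg' h => exact Or.inr h.node.1
  | a s i j h hj => left; simp [Vx.node]
  | a' s i j h hj => right; simp [Vx.node]
  | b s i j h hj => left; simp [Vx.node]
  | b' s i j h hj => right; simp [Vx.node]

theorem EE.val (hk : 8 ≤ k) {u v : Vx} {z : ZMod (2 * k)} (h : EE k ms w u v z) :
    u.val k ms.length ∧ v.val k ms.length := by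
  have key : ∀ {s i b : ℕ}, blk k ms.length s i → b < 2 * k → (Vx.H s i b).val k ms.length :=
    fun h hb => ⟨h.1, h.2.1, hb⟩
  cases h with
  | leg h => exact ⟨(h.val hk).1, (h.val hk).2.1⟩
  | leg' h => exact ⟨(h.val hk).2.1, (h.val hk).1⟩
  | a s i j h hj => exact ⟨key h (by omega), key h (by omega)⟩
  | a' s i j h hj => exact ⟨key h (by omega), key h (by omega)⟩
  | b s i j h hj => exact ⟨key h (by omega), key h (by omega)⟩
  | b' s i j h hj => exact ⟨key h (by omega), key h (by omega)⟩

/-- directions in a placement -/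
theorem EE.dr (hk : 8 ≤ k) {p : Vx → ℝ × ℝ} (hleg : ∀ u v z, Leg k ms w u v z → Dr d p u v z)
    (hhin : ∀ s i, blk k ms.length s i → 0 < cr (d.e (yy k s i - 1)) (p (.H s i 1) - p (.H s i 0)) ∧
        0 < cr (p (.H s i 1) - p (.H s i 0)) (d.e (yy k s i)))
    {u v : Vx} {z : ZMod (2 * k)} (h : EE k ms w u v z) : Dr d (pos ms.length d p) u v z := by
  have hL : ∀ u v z, Leg k ms w u v z → Dr d (pos ms.length d p) u v z := by
    intro u v z h
    obtain ⟨r, hr, h1⟩ := hleg _ _ _ h
    exact ⟨r, hr, by rw [pos_node h.node.1, pos_node h.node.2, h1]⟩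
  have hn0 : ∀ s i, (Vx.H s i 0).node k ms.length := fun s i => by simp [Vx.node]
  have hn1 : ∀ s i, (Vx.H s i 1).node k ms.length := fun s i => by simp [Vx.node]
  have hA : ∀ s i j, blk k ms.length s i → j < 2 * k - 2 →
      Dr d (pos ms.length d p) (.H s i 0) (.H s i (j + 2)) (al k (yy k s i) j) := by
    intro s i j h hj
    refine ⟨_, (conn_sign hk d (hhin s i h).1 (hhin s i h).2 hj).1, ?_⟩
    rw [pos_conn h, pos_node (hn0 s i)]
    abel
  have hB : ∀ s i j, blk k ms.length s i → j < 2 * k - 2 →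
      Dr d (pos ms.length d p) (.H s i 1) (.H s i (j + 2)) (be k (yy k s i) j) := by
    intro s i j h hj
    refine ⟨_, (conn_sign hk d (hhin s i h).1 (hhin s i h).2 hj).2, ?_⟩
    rw [pos_conn h, pos_node (hn1 s i)]
    have h1 := cr_basis (cr_al_be hk d (yy k s i) j) (p (.H s i 1) - p (.H s i 0))
    have h2 : p (.H s i 0) = p (.H s i 1) - (p (.H s i 1) - p (.H s i 0)) := by abel
    have h3 : ∀ X Y Z : ℝ × ℝ, p (.H s i 1) - p (.H s i 0) = X + Y → Z = -Y →
        p (.H s i 0) + X - p (.H s i 1) = Z := by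
      intro X Y Z h h'
      have : p (.H s i 0) + X - p (.H s i 1) = X - (p (.H s i 1) - p (.H s i 0)) := by abel
      rw [this, h, h']; abel
    refine h3 _ _ _ h1 ?_
    rw [cr_comm (d.e (al k (yy k s i) j)) (p (.H s i 1) - p (.H s i 0)), neg_div, neg_smul,
      neg_neg]
  cases h with
  | leg h => exact hL _ _ _ h
  | leg' h => exact (hL _ _ _ h).symm
  | a s i j h hj => exact hA s i j h hj
  | a' s i j h hj => exact (hA s i j h hj).symm
  | b s i j h hj => exact hB s i j h hj
  | b' s i j h hj => exact (hB s i j h hj).symm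

/-! ### Different edges at a hub have different directions -/

def nA (k s i : ℕ) : Vx :=
  if i = 0 then .H s (k - 1) 1 else if i = 4 then .H (s - 1) 4 0
  else if i ≤ 2 then .H s (i - 1) 0 else .H s (i - 1) 1

def nB (k s i : ℕ) : Vx :=
  if i ≤ 1 then .H s (i + 1) 0 else if i = 2 then .H (s - 1) 4 1
  else if i = 4 then .H (s + 1) 4 0 else .F ((s - 1) / (4 * k) / (2 * k))

def nB' (k s i : ℕ) : Vx := if i = k - 1 then .H s 0 0 else .H s (i + 1) 0

theorem leg_hub0 {s i : ℕ} {v : Vx} {z : ZMod (2 * k)}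
    (h : Leg k ms w (.H s i 0) v z) : z = yy k s i + k ∧ v = nB k s i := by
  have hkk := kk k
  cases h with
  | l0 s h => exact ⟨by simp [yy]; linear_combination -hkk, by simp [nB]⟩
  | l1 s h => exact ⟨by simp [yy], by simp [nB]⟩
  | l2 s h => exact ⟨by simp [yy]; linear_combination -hkk, by simp [nB]⟩
  | l3 s h => exact ⟨by simp [yy, xs_succ]; ring, by simp [nB]⟩

theorem leg_hub0' {s i : ℕ} {v : Vx} {z : ZMod (2 * k)}
    (h : Leg k ms w v (.H s i 0) z) : (z + k = yy k s i - 1 + k ∧ v = nA k s i) ∨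
      (z + k = yy k s i + k ∧ v = nB k s i) := by
  have hkk := kk k
  cases h with
  | l0 s h => left; exact ⟨by simp [yy], by simp [nA]⟩
  | l1 s h => left; exact ⟨by simp [yy]; ring, by simp [nA]⟩
  | l3 s h => left; exact ⟨by simp [yy]; ring, by simp [nA]⟩
  | lk s h => left; exact ⟨by simp [yy], by simp [nA]⟩
  | lm s j h hj =>
      left
      refine ⟨?_, by simp [nA]⟩
      simp [yy]; ring
  | tk s h ht =>
      right
      refine ⟨?_, by simp [nB]⟩
      simp [yy]

theorem leg_hub1 (hk : 8 ≤ k) {s i : ℕ} {v : Vx} {z : ZMod (2 * k)}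
    (h : Leg k ms w (.H s i 1) v z) : z = yy k s i ∧ v = nB' k s i := by
  cases h with
  | lk s h =>
      refine ⟨?_, by simp [nB']⟩
      unfold yy
      rw [if_neg (by omega), Nat.cast_sub (by omega)]
      push_cast; ring
  | lm s j h hj =>
      refine ⟨?_, ?_⟩
      · unfold yy
        rw [if_neg (by omega)]
        push_cast; ring
      · unfold nB'
        rw [if_neg (by omega)]

theorem leg_hub1' {s i : ℕ} {v : Vx} {z : ZMod (2 * k)}
    (h : Leg k ms w v (.H s i 1) z) : z + k = yy k s i - 1 ∧ v = .H (s + 1) 2 0 := by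
  cases h with
  | l2 s h =>
      refine ⟨?_, rfl⟩
      simp [yy, xs_succ]
      linear_combination kk k

theorem EE_hub0 {s i : ℕ} {v : Vx} {z : ZMod (2 * k)}
    (h : EE k ms w (.H s i 0) v z) : (∃ j < 2 * k - 2, z = al k (yy k s i) j ∧ v = .H s i (j + 2)) ∨
      (z = yy k s i - 1 + k ∧ v = nA k s i) ∨ (z = yy k s i + k ∧ v = nB k s i) := by
  cases h with
  | leg h => exact Or.inr (Or.inr (leg_hub0 h))
  | leg' h => exact Or.inr (leg_hub0' h)
  | a s i j h hj => exact Or.inl ⟨j, hj, rfl, rfl⟩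

theorem EE_hub1 (hk : 8 ≤ k) {s i : ℕ} {v : Vx} {z : ZMod (2 * k)}
    (h : EE k ms w (.H s i 1) v z) : (∃ j < 2 * k - 2, z = be k (yy k s i) j ∧ v = .H s i (j + 2)) ∨
      (z = yy k s i - 1 ∧ v = .H (s + 1) 2 0) ∨ (z = yy k s i ∧ v = nB' k s i) := by
  cases h with
  | leg h => exact Or.inr (Or.inr (leg_hub1 hk h))
  | leg' h => exact Or.inr (Or.inl (leg_hub1' h))
  | b s i j h hj => exact Or.inl ⟨j, hj, rfl, rfl⟩

theorem EE_conn {s i b : ℕ} (hb : 2 ≤ b) (hn : ¬ blk k ms.length s i) {v : Vx}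
    {z : ZMod (2 * k)} (h : EE k ms w (.H s i b) v z) : False := by
  cases h with
  | leg h => cases h <;> omega
  | leg' h => cases h <;> omega
  | a s i j h hj => exact hn h
  | a' s i j h hj => exact hn h
  | b s i j h hj => exact hn h
  | b' s i j h hj => exact hn h

theorem al_add (y : ZMod (2 * k)) (j : ℕ) : al k y j =
    y + ((if j < k - 1 then j else j + 2 : ℕ) : ZMod (2 * k)) := by
  unfold al
  split_ifs <;> push_cast <;> ring

theorem cast_eq_of_lt {n m : ℕ} (hn : n < 2 * k) (hm : m < 2 * k)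
    (h : (n : ZMod (2 * k)) = m) : n = m := by
  by_contra hne
  exact cast_ne hn hm hne h

theorem D1_hub0 (hk : 8 ≤ k) {s i : ℕ} {v v' : Vx} {z : ZMod (2 * k)}
    (h : EE k ms w (.H s i 0) v z) (h' : EE k ms w (.H s i 0) v' z) : v = v' := by
  have key : ∀ {n m : ℕ}, n < 2 * k → m < 2 * k → yy k s i + (n : ZMod (2 * k)) =
      yy k s i + m → n = m := fun hn hm he => cast_eq_of_lt hn hm (add_left_cancel he)
  have eA : yy k s i - 1 + k = yy k s i + ((k - 1 : ℕ) : ZMod (2 * k)) := by
    rw [Nat.cast_sub (by omega)]; push_cast; ring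
  rcases EE_hub0 h with ⟨j, hj, e, rfl⟩ | ⟨e, rfl⟩ | ⟨e, rfl⟩ <;>
    rcases EE_hub0 h' with ⟨j', hj', e', rfl⟩ | ⟨e', rfl⟩ | ⟨e', rfl⟩
  · rw [e, al_add, al_add] at e'
    have := key (by split_ifs <;> omega) (by split_ifs <;> omega) e'
    have : j = j' := by split_ifs at this <;> omega
    rw [this]
  · exfalso
    rw [e, al_add, eA] at e'
    have := key (by split_ifs <;> omega) (by omega) e'
    split_ifs at this <;> omega
  · exfalso
    rw [e, al_add] at e'
    have := key (by split_ifs <;> omega) (by omega) e'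
    split_ifs at this <;> omega
  · exfalso
    rw [e', al_add, eA] at e
    have := key (by split_ifs <;> omega) (by omega) e
    split_ifs at this <;> omega
  · rfl
  · exfalso
    rw [e, eA] at e'
    have := key (by omega) (by omega) e'
    omega
  · exfalso
    rw [e', al_add] at e
    have := key (by split_ifs <;> omega) (by omega) e
    split_ifs at this <;> omega
  · exfalso
    rw [e', eA] at e
    have := key (by omega) (by omega) e
    omega
  · rfl

theorem D1_hub1 (hk : 8 ≤ k) {s i : ℕ} {v v' : Vx} {z : ZMod (2 * k)}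
    (h : EE k ms w (.H s i 1) v z) (h' : EE k ms w (.H s i 1) v' z) : v = v' := by
  have key : ∀ {n m : ℕ}, n < 2 * k → m < 2 * k → yy k s i + (n : ZMod (2 * k)) =
      yy k s i + m → n = m := fun hn hm he => cast_eq_of_lt hn hm (add_left_cancel he)
  have eA : yy k s i - 1 = yy k s i + ((2 * k - 1 : ℕ) : ZMod (2 * k)) := by
    rw [Nat.cast_sub (by omega)]; push_cast; linear_combination -(kk k)
  have e0 : yy k s i = yy k s i + ((0 : ℕ) : ZMod (2 * k)) := by simp
  have eb : ∀ j, be k (yy k s i) j = yy k s i + ((j + 1 : ℕ) : ZMod (2 * k)) := by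
    intro j; unfold be; push_cast; ring
  rcases EE_hub1 hk h with ⟨j, hj, e, rfl⟩ | ⟨e, rfl⟩ | ⟨e, rfl⟩ <;>
    rcases EE_hub1 hk h' with ⟨j', hj', e', rfl⟩ | ⟨e', rfl⟩ | ⟨e', rfl⟩
  · rw [e, eb, eb] at e'
    have := key (by omega) (by omega) e'
    have : j = j' := by omega
    rw [this]
  · exfalso
    rw [e, eb, eA] at e'
    have := key (by omega) (by omega) e'
    omega
  · exfalso
    rw [e, eb] at e'
    have := key (by omega) (by omega) (e'.trans e0)
    omega
  · exfalso
    rw [e', eb, eA] at e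
    have := key (by omega) (by omega) e
    omega
  · rfl
  · exfalso
    rw [e, eA] at e'
    have := key (by omega) (by omega) (e'.trans e0)
    omega
  · exfalso
    rw [e', eb] at e
    have := key (by omega) (by omega) (e.trans e0)
    omega
  · exfalso
    rw [e', eA] at e
    have := key (by omega) (by omega) (e.trans e0)
    omega
  · rfl

end Pool.Agent.H670R2.Sl
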