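import Pool.Agent.H670R2.SlComp

/-!
The drawing of the graph of the reduction.
-/

namespace Pool.Agent.H670R2.Sl

variable {k : ℕ} {ms : List ℕ} {d : DS k} {w : ℕ → ZMod (2 * k)} {P : ℕ → ℕ → ℝ × ℝ}

theorem EE_F {f : ℕ} {v : Vx} {z : ZMod (2 * k)} (h : EE k ms w (.F f) v z) :
    (∃ s, s < nT k ms.length ∧ tok k ms s = true ∧ f = s / (4 * k) / (2 * k) ∧
      v = .H (s + 1) 5 0 ∧ z = xs k (s + 1) + 5) ∨
    (f < ms.length ∧ v = .P (f / 6) (e1 (f % 6)) ∧ z = w f + k) ∨
    (f < ms.length ∧ v = .P (f / 6) (e2 (f % 6)) ∧ z = w f) := by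
  cases h with
  | leg h =>
      cases h with
      | tk s h ht => exact Or.inl ⟨s, h, ht, rfl, rfl, rfl⟩
      | f1 f h => exact Or.inr (Or.inl ⟨h, rfl, rfl⟩)
      | f2 f h => exact Or.inr (Or.inr ⟨h, rfl, rfl⟩)
  | leg' h => cases h

theorem EE_P {n i : ℕ} {v : Vx} {z : ZMod (2 * k)} (h : EE k ms w (.P n i) v z) :
    ∃ f, f < ms.length ∧ v = .F f ∧ f / 6 = n ∧ (i = e1 (f % 6) ∨ i = e2 (f % 6)) ∧
      (z = w f ∨ z = w f + k) := by
  have hkk := kk k
  cases h with
  | leg h => cases h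
  | leg' h =>
      cases h with
      | f1 f h => exact ⟨f, h, rfl, rfl, Or.inl rfl, Or.inl (by linear_combination hkk)⟩
      | f2 f h => exact ⟨f, h, rfl, rfl, Or.inr rfl, Or.inr rfl⟩

theorem D1_F (hk : 8 ≤ k) (hke : Even k) (d : DS k)
    (hw : ∀ f < ms.length, w f = (ms.getD f 0 : ℕ) ∨ w f = (ms.getD f 0 : ℕ) + k) {f : ℕ}
    {v v' : Vx} {z : ZMod (2 * k)}
    (h : EE k ms w (.F f) v z) (h' : EE k ms w (.F f) v' z) : v = v' := by
  have hkk := kk k
  have hkne : (k : ZMod (2 * k)) ≠ 0 := by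
    have := cast_ne (k := k) (n := k) (m := 0) (by omega) (by omega) (by omega)
    simpa using this
  have htok : ∀ s, tok k ms s = true → f = s / (4 * k) / (2 * k) → f < ms.length →
      ∀ z', (z' = w f ∨ z' = w f + k) → xs k (s + 1) + 5 ≠ z' := by
    intro s hs hf hfl z' hz' he
    refine cr_tok (d := d) hk (s := s + 1) (f := f) ⟨s, rfl, hs, hf⟩ ?_
    rw [he, cr_comm, neg_eq_zero]
    refine d.cr_par ?_
    rcases hz' with h1 | h1 <;> rcases hw f hfl with h2 | h2
    · left; rw [h1, h2]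
    · right; rw [h1, h2]
    · right; rw [h1, h2]
    · left; rw [h1, h2]; linear_combination hkk
  rcases EE_F h with ⟨s, hs, ht, hf, rfl, e⟩ | ⟨hf, rfl, e⟩ | ⟨hf, rfl, e⟩ <;>
    rcases EE_F h' with ⟨s', hs', ht', hf', rfl, e'⟩ | ⟨hf', rfl, e'⟩ | ⟨hf', rfl, e'⟩
  · have : s = s' := by
      simp only [tok, Bool.and_eq_true, decide_eq_true_eq] at ht ht'
      have a1 := xs_five ht.2.1
      have a2 := xs_five ht'.2.1
      have a3 : ((s / (4 * k) : ℕ) : ZMod (2 * k)) = (s' / (4 * k) : ℕ) := by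
        rw [← a1, ← a2, ← e, ← e']
      have a4 := (ZMod.natCast_eq_natCast_iff _ _ (2 * k)).1 a3
      have a5 : s / (4 * k) = s' / (4 * k) := by
        rw [← Nat.div_add_mod (s / (4 * k)) (2 * k),
          ← Nat.div_add_mod (s' / (4 * k)) (2 * k), ← hf, ← hf']
        congr 1
      refine tok_unique (by omega) hke ht.1 ht'.1 a5 ?_
      rw [ht.2.1, ht'.2.1, a5]
    rw [this]
  · exact absurd (e.symm.trans e') (htok s ht hf hf' _ (Or.inr rfl))
  · exact absurd (e.symm.trans e') (htok s ht hf hf' _ (Or.inl rfl))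
  · exact absurd (e'.symm.trans e) (htok s' ht' hf' hf _ (Or.inr rfl))
  · rfl
  · exfalso
    rw [e'] at e
    apply hkne
    linear_combination -e
  · exact absurd (e'.symm.trans e) (htok s' ht' hf' hf _ (Or.inl rfl))
  · exfalso
    rw [e] at e'
    apply hkne
    linear_combination -e'
  · rfl

theorem D1_P (hk : 8 ≤ k) (hP : QuadG k ms d P)
    (hw : ∀ f < ms.length, w f = (ms.getD f 0 : ℕ) ∨ w f = (ms.getD f 0 : ℕ) + k) {n i : ℕ}
    {v v' : Vx} {z : ZMod (2 * k)}
    (h : EE k ms w (.P n i) v z) (h' : EE k ms w (.P n i) v' z) : v = v' := by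
  obtain ⟨f, hf, rfl, rfl, hi, hz⟩ := EE_P h
  obtain ⟨f', hf', rfl, h6, hi', hz'⟩ := EE_P h'
  by_cases hff : f = f'
  · rw [hff]
  exfalso
  have hkk := kk k
  have hzm : z = (ms.getD f 0 : ℕ) ∨ z = (ms.getD f 0 : ℕ) + k := by
    rcases hz with h1 | h1 <;> rcases hw f hf with h2 | h2
    · left; rw [h1, h2]
    · right; rw [h1, h2]
    · right; rw [h1, h2]
    · left; rw [h1, h2]; linear_combination hkk
  have hzm' : z = (ms.getD f' 0 : ℕ) ∨ z = (ms.getD f' 0 : ℕ) + k := by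
    rcases hz' with h1 | h1 <;> rcases hw f' hf' with h2 | h2
    · left; rw [h1, h2]
    · right; rw [h1, h2]
    · right; rw [h1, h2]
    · left; rw [h1, h2]; linear_combination hkk
  obtain ⟨r, hr, hs⟩ := hP.side f hf
  obtain ⟨r', hr', hs'⟩ := hP.side f' hf'
  rw [h6] at hs'
  have hpar : cr (d.e (ms.getD f' 0 : ℕ)) (d.e (ms.getD f 0 : ℕ)) = 0 := by
    refine d.cr_par ?_
    rcases hzm with h1 | h1 <;> rcases hzm' with h2 | h2
    · left; rw [← h1, ← h2]
    · right; rw [← h1, h2]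
    · right; rw [← h2, h1]; linear_combination -hkk
    · left; rw [h1] at h2; exact add_right_cancel h2
  have c1 : cr (P (f / 6) (e2 (f' % 6)) - P (f / 6) (e1 (f' % 6))) (d.e (ms.getD f 0 : ℕ)) = 0 := by
    rw [hs', cr_smul_left, hpar, mul_zero]
  have c2 : cr (P (f / 6) i - P (f / 6) (e1 (f % 6))) (d.e (ms.getD f 0 : ℕ)) = 0 := by
    rcases hi with rfl | rfl
    · rw [sub_self, cr_zero_left]
    · rw [hs, cr_smul_left, cr_self, mul_zero]
  have hj : f % 6 ≠ f' % 6 := by omega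
  have c3 : ∀ x, (x = e1 (f' % 6) ∨ x = e2 (f' % 6)) →
      cr (P (f / 6) x - P (f / 6) (e1 (f % 6))) (d.e (ms.getD f 0 : ℕ)) = 0 := by
    intro x hx
    have e : P (f / 6) x - P (f / 6) (e1 (f % 6)) =
        (P (f / 6) x - P (f / 6) i) + (P (f / 6) i - P (f / 6) (e1 (f % 6))) := by abel
    rw [e, cr_add_left, c2, add_zero]
    rcases hx with rfl | rfl <;> rcases hi' with rfl | rfl
    · rw [sub_self, cr_zero_left]
    · have : P (f / 6) (e1 (f' % 6)) - P (f / 6) (e2 (f' % 6)) =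
        -(P (f / 6) (e2 (f' % 6)) - P (f / 6) (e1 (f' % 6))) := by abel
      rw [this, cr_neg_left, c1, neg_zero]
    · exact c1
    · rw [sub_self, cr_zero_left]
  rcases ends_ne (j := f % 6) (j' := f' % 6) (by omega) (by omega) hj with h | h
  · exact hP.nc f hf _ (e1_lt _) h.1 h.2 (c3 _ (Or.inl rfl))
  · exact hP.nc f hf _ (e2_lt (by omega)) h.1 h.2 (c3 _ (Or.inr rfl))

/-- different edges at a node have different directions -/
theorem D1 (hk : 8 ≤ k) (hke : Even k) (hP : QuadG k ms d P)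
    (hw : ∀ f < ms.length, w f = (ms.getD f 0 : ℕ) ∨ w f = (ms.getD f 0 : ℕ) + k)
    {u v v' : Vx} {z : ZMod (2 * k)} (hu : u.node k ms.length)
    (h : EE k ms w u v z) (h' : EE k ms w u v' z) : v = v' := by
  cases u with
  | P n i => exact D1_P hk hP hw h h'
  | F f => exact D1_F hk hke d hw h h'
  | H s i b =>
      by_cases hb : b < 2
      · interval_cases b
        · exact D1_hub0 hk h h'
        · exact D1_hub1 hk h h'
      · exact (EE_conn (by omega) (hu.resolve_left hb) h).elim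

/-! ### Motions of components -/

inductive Cc : Type
  | iso (v : Vx)
  | Z (s i : ℕ)
  | Q
  | M

def cc : Kd → Cc
  | .iso v => .iso v
  | .Z s i _ => .Z s i
  | .Q _ => .Q
  | .Y _ _ => .M
  | .F _ => .M
  | .P _ _ => .M

theorem cc_kl {c c' : Kd} {z : ZMod (2 * k)} (h : KL k ms w c c' z) : cc c = cc c' := by
  cases h <;> rfl

theorem LL_comp (hk : 8 ≤ k) (C : Cc) (a : ℝ × ℝ) [∀ x, Decidable (cc (kd k ms.length x) = C)] :
    LL k ms w d (fun x => if cc (kd k ms.length x) = C then a else 0) := by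
  intro u v z h
  have := cc_kl (kl_of_leg hk h)
  simp only [this, sub_self, cr_zero_left]

theorem cc_hubs (hk : 8 ≤ k) {N s i : ℕ} (h : blk k N s i) :
    cc (kd k N (.H s i 0)) ≠ cc (kd k N (.H s i 1)) := by
  obtain ⟨-, h1, h2, h3⟩ := h
  simp only [kd]
  split_ifs <;> first
    | (simp [cc]; done)
    | (exfalso; omega)
    | (simp [cc]; omega)
    | (exfalso; simp_all; done)
    | (exfalso; simp_all; omega)

end Pool.Agent.H670R2.Sl
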