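import Pool.Agent.H670R2.SlComp2

/-!
The drawing of the graph of the reduction, conclusion.
-/

namespace Pool.Agent.H670R2.Sl

variable {k : ℕ} {ms : List ℕ} {d : DS k} {w : ℕ → ZMod (2 * k)} {P : ℕ → ℕ → ℝ × ℝ}

theorem Bey.last {V : Type} {E : V → V → ZMod (2 * k) → Prop} {z : ZMod (2 * k)} {u a : V}
    (h : Bey E z u a) : ∃ x, E x a z ∧ (x = u ∨ Bey E z u x) := by
  induction h with
  | one h => exact ⟨_, h, Or.inl rfl⟩
  | cons h h' ih =>
      obtain ⟨x, h1, h2⟩ := ih
      refine ⟨x, h1, Or.inr ?_⟩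
      rcases h2 with rfl | h2
      · exact Bey.one h
      · exact Bey.cons h h2

theorem Bey.snoc {V : Type} {E : V → V → ZMod (2 * k) → Prop} {z : ZMod (2 * k)} {u a v : V}
    (h : Bey E z u a) (h' : E a v z) : Bey E z u v := by
  induction h with
  | one h => exact Bey.cons h (Bey.one h')
  | cons h _ ih => exact Bey.cons h (ih h')

theorem bey_hub {u x v : Vx} {γ z : ZMod (2 * k)}
    (hD : ∀ v v' z, EE k ms w x v z → EE k ms w x v' z → v = v')
    (hx : EE k ms w x v γ) (huv : u ≠ v) (hz : γ = z ∨ γ = z + k)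
    (h : u = x ∨ Bey (EE k ms w) z u x ∨ Bey (EE k ms w) (z + k) u x) :
    Bey (EE k ms w) z u v ∨ Bey (EE k ms w) (z + k) u v := by
  have hkk := kk k
  have key : ∀ z'', Bey (EE k ms w) z'' u x → (γ = z'' ∨ γ = z'' + k) →
      Bey (EE k ms w) z'' u v := by
    intro z'' hb hγ
    rcases hγ with rfl | rfl
    · exact hb.snoc hx
    · obtain ⟨y, h1, h2⟩ := hb.last
      have := hD _ _ _ h1.symm hx
      subst this
      rcases h2 with rfl | h2
      · exact absurd rfl huv
      · exact h2
  rcases h with rfl | h | h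
  · rcases hz with rfl | rfl
    · exact Or.inl (Bey.one hx)
    · exact Or.inr (Bey.one hx)
  · exact Or.inl (key _ h hz)
  · refine Or.inr (key _ h ?_)
    rcases hz with h | h
    · right; rw [h]; linear_combination -hkk
    · left; exact h

theorem bey_of_str {u v : Vx} {z : ZMod (2 * k)} (h : Str ms w u v z) :
    Bey (EE k ms w) z u v ∨ Bey (EE k ms w) (z + k) u v := by
  have hkk : ∀ z : ZMod (2 * k), z + k + k = z := fun z => by rw [add_assoc, kk, add_zero]
  obtain ⟨z', hz, h⟩ := h
  have : Bey (EE k ms w) z' u v := by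
    rcases h with h | h | ⟨f, h1, h2⟩
    · exact Bey.one (EE.leg h)
    · have := EE.leg' h
      rw [hkk] at this
      exact Bey.one this
    · have := EE.leg' h1
      rw [hkk] at this
      exact Bey.cons this (Bey.one (EE.leg h2))
  rcases hz with rfl | rfl
  · exact Or.inl this
  · exact Or.inr this

theorem bey_lift (hk : 8 ≤ k) {z : ZMod (2 * k)} {u v : Vx} (h : Bey (EE k ms w) z u v) :
    ∀ (hu : u.val k ms.length) (hv : v.val k ms.length),
    Bey (fun (a b : {v : Vx // v.val k ms.length}) z => EE k ms w a.1 b.1 z) z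
      ⟨u, hu⟩ ⟨v, hv⟩ := by
  induction h with
  | one h => exact fun hu hv => Bey.one h
  | cons h _ ih =>
      intro hu hv
      have := (h.val hk).2
      exact Bey.cons (v := ⟨_, this⟩) h (ih this hv)

/-- if a common neighbour of two hubs is on a line through a node for all placements, it is on a
straight path -/
theorem star_conn (hk : 8 ≤ k) (hke : Even k) (hP : QuadG k ms d P)
    (hw : ∀ f < ms.length, w f = (ms.getD f 0 : ℕ) ∨ w f = (ms.getD f 0 : ℕ) + k)
    {p : Vx → ℝ × ℝ} {s i j : ℕ} (hb : blk k ms.length s i)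
    (hj : j < 2 * k - 2) {u : Vx} (hu : u.node k ms.length) {z : ZMod (2 * k)}
    (hnode : ∀ v, v.node k ms.length → v.val k ms.length → u ≠ v → cr (p v - p u) (d.e z) = 0 →
      Bey (EE k ms w) z u v ∨ Bey (EE k ms w) (z + k) u v)
    (h0 : cr (pos ms.length d p (.H s i (j + 2)) - pos ms.length d p u) (d.e z) = 0)
    (hall : ∀ q, LL k ms w d q →
      cr (pos ms.length d q (.H s i (j + 2)) - pos ms.length d q u) (d.e z) = 0) :
    Bey (EE k ms w) z u (.H s i (j + 2)) ∨ Bey (EE k ms w) (z + k) u (.H s i (j + 2)) := by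
  classical
  have hna : (Vx.H s i 0).node k ms.length := by simp [Vx.node]
  have hnb : (Vx.H s i 1).node k ms.length := by simp [Vx.node]
  have hva : (Vx.H s i 0).val k ms.length := ⟨hb.1, hb.2.1, by omega⟩
  have hvb : (Vx.H s i 1).val k ms.length := ⟨hb.1, hb.2.1, by omega⟩
  have huv : u ≠ .H s i (j + 2) := by
    rintro rfl
    rcases hu with h | h
    · omega
    · exact h hb
  have hab := cr_al_be hk d (yy k s i) j
  have par : ∀ {γ : ZMod (2 * k)}, cr (d.e γ) (d.e z) = 0 → γ = z ∨ γ = z + k := by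
    intro γ h
    rcases d.cr_eq_zero (by omega) h with h | h
    · left; rw [h]
    · right; rw [h]; linear_combination -(kk k)
  by_cases hα : cr (d.e (al k (yy k s i) j)) (d.e z) = 0
  · refine bey_hub (fun v v' z => D1 hk hke hP hw hna) (EE.a s i j hb hj) huv (par hα) ?_
    by_cases hua : u = .H s i 0
    · exact Or.inl hua
    · refine Or.inr (hnode _ hna hva hua ?_)
      rw [pos_conn hb, pos_node hu] at h0
      have e : p (.H s i 0) + (cr (p (.H s i 1) - p (.H s i 0)) (d.e (be k (yy k s i) j)) /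
        cr (d.e (al k (yy k s i) j)) (d.e (be k (yy k s i) j))) •
          d.e (al k (yy k s i) j) - p u = (p (.H s i 0) - p u) +
          (cr (p (.H s i 1) - p (.H s i 0)) (d.e (be k (yy k s i) j)) /
        cr (d.e (al k (yy k s i) j)) (d.e (be k (yy k s i) j))) •
          d.e (al k (yy k s i) j) := by abel
      rw [e, cr_add_left, cr_smul_left, hα, mul_zero, add_zero] at h0
      exact h0
  by_cases hβ : cr (d.e (be k (yy k s i) j)) (d.e z) = 0
  · refine bey_hub (fun v v' z => D1 hk hke hP hw hnb) (EE.b s i j hb hj) huv (par hβ) ?_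
    by_cases hub : u = .H s i 1
    · exact Or.inl hub
    · refine Or.inr (hnode _ hnb hvb hub ?_)
      rw [pos_conn hb, pos_node hu] at h0
      have h1 := cr_basis hab (p (.H s i 1) - p (.H s i 0))
      obtain ⟨X, hX⟩ : ∃ X, X = (cr (p (.H s i 1) - p (.H s i 0)) (d.e (be k (yy k s i) j)) /
        cr (d.e (al k (yy k s i) j)) (d.e (be k (yy k s i) j))) •
          d.e (al k (yy k s i) j) := ⟨_, rfl⟩
      obtain ⟨c, hc⟩ : ∃ c, c = (cr (d.e (al k (yy k s i) j)) (p (.H s i 1) - p (.H s i 0)) /
        cr (d.e (al k (yy k s i) j)) (d.e (be k (yy k s i) j))) := ⟨_, rfl⟩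
      rw [← hX, ← hc] at h1
      rw [← hX] at h0
      have e : p (.H s i 0) + X - p u = (p (.H s i 1) - p u) -
          c • d.e (be k (yy k s i) j) := by
        have : p (.H s i 1) = p (.H s i 0) + (p (.H s i 1) - p (.H s i 0)) := by abel
        rw [this, h1]; abel
      rw [e, cr_sub_left, cr_smul_left, hβ, mul_zero, sub_zero] at h0
      exact h0
  exfalso
  have hcc := cc_hubs hk hb
  by_cases hc : cc (kd k ms.length u) = cc (kd k ms.length (.H s i 1))
  · have h1 := hall _ (LL_comp hk (cc (kd k ms.length (.H s i 0))) (d.e (be k (yy k s i) j)))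
    rw [pos_conn hb, pos_node hu] at h1
    rw [if_pos rfl, if_neg (fun h => hcc h.symm), if_neg (fun h => hcc (h.symm.trans hc)),
      zero_sub, cr_neg_left, cr_self, neg_zero, zero_div, zero_smul, add_zero, sub_zero] at h1
    exact hβ h1
  · have h1 := hall _ (LL_comp hk (cc (kd k ms.length (.H s i 1))) (d.e (al k (yy k s i) j)))
    rw [pos_conn hb, pos_node hu] at h1
    rw [if_pos rfl, if_neg hcc, if_neg hc, sub_zero, sub_zero, zero_add, div_self hab,
      one_smul] at h1
    exact hα h1

theorem complete (hk : 8 ≤ k) (hke : Even k) (h6 : 6 ∣ ms.length) (hP : QuadG k ms d P) :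
    ∃ p : Vx → ℝ × ℝ, (∀ u v, u.val k ms.length → v.val k ms.length → p u = p v → u = v) ∧
      (∀ u v w, Ed k ms u v → w.val k ms.length → p w ∉ openSegment ℝ (p u) (p v)) ∧
      ∀ u v, Ed k ms u v → ∃ z, Dr d p u v z := by
  classical
  have : NeZero (2 * k) := ⟨by omega⟩
  obtain ⟨w, p0, hw, hp0P, hleg0, hhin0⟩ := start_exists hk hke hP
  have hfin : Finite {v : Vx // v.val k ms.length} :=
    Finite.of_injective (β := Fin (nV k ms.length))
      (fun v => ⟨code ms.length k v.1, code_lt' v.2⟩) (by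
        intro u v h
        apply Subtype.ext
        exact code_inj' u.2 v.2 (by simpa using h))
  have hLL0 : LL k ms w d p0 := by
    intro u v z h
    obtain ⟨r, hr, h1⟩ := hleg0 u v z h
    rw [h1, cr_smul_left, cr_self, mul_zero]
  obtain ⟨p, hp, hpos, hne⟩ := generic
    (ι := {v : Vx // v.val k ms.length} × {v : Vx // v.val k ms.length} × ZMod (2 * k))
    (E := Vx → ℝ × ℝ)
    (fun i q => cr (pos ms.length d q i.2.1.1 - pos ms.length d q i.1.1) (d.e i.2.2))
    (by
      intro i p v ε
      simp only [pos_add]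
      have e : ∀ a b c e : ℝ × ℝ, a + ε • b - (c + ε • e) = (a - c) + ε • (b - e) := by
        intro a b c e; rw [smul_sub]; abel
      rw [e, cr_add_left, cr_smul_left]) (LL k ms w d)
    (by
      intro p q ε h1 h2 u v z h
      have e : ∀ a b c e : ℝ × ℝ, a + ε • b - (c + ε • e) = (a - c) + ε • (b - e) := by
        intro a b c e; rw [smul_sub]; abel
      simp only [Pi.add_apply, Pi.smul_apply]
      rw [e, cr_add_left, cr_smul_left, h1 _ _ _ h, h2 _ _ _ h, mul_zero, add_zero]) hLL0
  have hposn : ∀ {u v : Vx}, u.node k ms.length → v.node k ms.length → u.val k ms.length →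
      v.val k ms.length → ∀ z, 0 < cr (p0 v - p0 u) (d.e z) → 0 < cr (p v - p u) (d.e z) := by
    intro u v hu hv hu' hv' z h
    have := hpos (⟨u, hu'⟩, ⟨v, hv'⟩, z)
    simp only [pos_node hu, pos_node hv] at this
    exact this h
  have hleg : ∀ u v z, Leg k ms w u v z → Dr d p u v z := by
    intro u v z h
    obtain ⟨r, hr, h1⟩ := hleg0 u v z h
    have h2 : 0 < cr (p0 v - p0 u) (d.e (z + 1)) := by
      rw [h1, cr_smul_left]
      have := d.pos z 1 (by norm_num) (by omega)
      simp only [Nat.cast_one] at this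
      positivity
    have h3 := hposn h.node.1 h.node.2 (h.val hk).1 (h.val hk).2.1 _ h2
    have h4 := hp u v z h
    obtain ⟨c, hc⟩ := par_of_cr (d.ne (by omega) z)
      (by rw [cr_comm, h4, neg_zero] : cr (d.e z) (p v - p u) = 0)
    refine ⟨c, ?_, hc⟩
    rw [hc, cr_smul_left] at h3
    have := d.pos z 1 (by norm_num) (by omega)
    simp only [Nat.cast_one] at this
    exact (pos_iff_pos_of_mul_pos h3).2 this
  have hhin : ∀ s i, blk k ms.length s i →
      0 < cr (d.e (yy k s i - 1)) (p (.H s i 1) - p (.H s i 0)) ∧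
        0 < cr (p (.H s i 1) - p (.H s i 0)) (d.e (yy k s i)) := by
    intro s i hb
    have hna : (Vx.H s i 0).node k ms.length := by simp [Vx.node]
    have hnb : (Vx.H s i 1).node k ms.length := by simp [Vx.node]
    have hva : (Vx.H s i 0).val k ms.length := ⟨hb.1, hb.2.1, by omega⟩
    have hvb : (Vx.H s i 1).val k ms.length := ⟨hb.1, hb.2.1, by omega⟩
    obtain ⟨h1, h2⟩ := hhin0 s i hb
    refine ⟨?_, hposn hna hnb hva hvb _ h2⟩
    have h3 : 0 < cr (p0 (.H s i 1) - p0 (.H s i 0)) (d.e (yy k s i - 1 + k)) := by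
      rw [d.per, cr_neg_right, ← cr_comm]; exact h1
    have h4 := hposn hna hnb hva hvb _ h3
    rw [d.per, cr_neg_right, ← cr_comm] at h4
    exact h4
  have hdr : ∀ u v z, EE k ms w u v z → Dr d (pos ms.length d p) u v z :=
    fun u v z h => h.dr hk hleg hhin
  have hnode : ∀ u v z, u.node k ms.length → v.node k ms.length → u.val k ms.length →
      v.val k ms.length → u ≠ v → cr (p v - p u) (d.e z) = 0 →
      Bey (EE k ms w) z u v ∨ Bey (EE k ms w) (z + k) u v := by
    intro u v z hu hv hu' hv' huv h0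
    rcases classify hk hke h6 hP hw hLL0 hp0P hu' hv' huv z with ⟨q, hq, h⟩ | h
    · exfalso
      refine hne (⟨u, hu'⟩, ⟨v, hv'⟩, z) ⟨q, hq, ?_⟩ ?_
      · simp only [pos_node hu, pos_node hv]; exact h
      · simp only [pos_node hu, pos_node hv]; exact h0
    · exact bey_of_str h
  have hstar : ∀ u v z, u.node k ms.length → u.val k ms.length → v.val k ms.length → u ≠ v →
      cr (pos ms.length d p v - pos ms.length d p u) (d.e z) = 0 →
      Bey (EE k ms w) z u v ∨ Bey (EE k ms w) (z + k) u v := by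
    intro u v z hu hu' hv' huv h0
    by_cases hv : v.node k ms.length
    · rw [pos_node hu, pos_node hv] at h0
      exact hnode u v z hu hv hu' hv' huv h0
    · cases v with
      | P n i => exact absurd trivial hv
      | F f => exact absurd trivial hv
      | H s i b =>
          simp only [Vx.node, not_or, not_not, not_lt] at hv
          obtain ⟨j, rfl⟩ : ∃ j, b = j + 2 := ⟨b - 2, by omega⟩
          have hj : j < 2 * k - 2 := by have := hv'.2.2; omega
          refine star_conn hk hke hP hw hv.2 hj hu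
            (fun v hv1 hv2 huv h => hnode u v z hu hv1 hu' hv2 huv h) h0 ?_
          intro q hq
          by_contra hcon
          exact hne (⟨u, hu'⟩, ⟨_, hv'⟩, z) ⟨q, hq, hcon⟩ h0
  have hmain := drawing_of_star (V := {v : Vx // v.val k ms.length}) d (by omega)
    (fun v => pos ms.length d p v.1) (fun v => v.1.node k ms.length)
    (fun u v z => EE k ms w u.1 v.1 z) (fun u v z h => hdr _ _ _ h) (fun u v z h => h.symm)
    (fun u v z h => h.node)
    (fun u v v' z hu h h' => Subtype.ext (D1 hk hke hP hw hu h h'))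
    (by
      rintro ⟨u, hu'⟩ hu
      cases u with
      | P n i => exact absurd trivial hu
      | F f => exact absurd trivial hu
      | H s i b =>
          simp only [Vx.node, not_or, not_not, not_lt] at hu
          obtain ⟨j, rfl⟩ : ∃ j, b = j + 2 := ⟨b - 2, by omega⟩
          have hj : j < 2 * k - 2 := by have := hu'.2.2; omega
          exact ⟨⟨.H s i 0, ⟨hu.2.1, hu.2.2.1, by omega⟩⟩, _, EE.a' s i j hu.2 hj⟩)
    (fun u v z hu huv h0 => by
      have h1 := hstar u.1 v.1 z hu u.2 v.2 (fun h => huv (Subtype.ext h)) h0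
      rcases h1 with h1 | h1
      · exact Or.inl (bey_lift hk h1 u.2 v.2)
      · exact Or.inr (bey_lift hk h1 u.2 v.2))
  have hEd : ∀ u v, Ed k ms u v → ∃ z, EE k ms w u v z := by
    intro u v h
    rcases h with h | ⟨z, h⟩
    · cases h with
      | b0 s i j h hj => exact ⟨_, EE.a s i j h hj⟩
      | b1 s i j h hj => exact ⟨_, EE.b s i j h hj⟩
    · obtain ⟨z', h'⟩ := leg_change (w' := w) h
      exact ⟨z', EE.leg h'⟩
  refine ⟨pos ms.length d p, ?_, ?_, ?_⟩
  · intro u v hu hv h
    have := hmain.1 (a₁ := ⟨u, hu⟩) (a₂ := ⟨v, hv⟩) h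
    exact congrArg Subtype.val this
  · intro u v x h hx
    obtain ⟨z, hz⟩ := hEd u v h
    exact hmain.2 ⟨u, (hz.val hk).1⟩ ⟨v, (hz.val hk).2⟩ ⟨x, hx⟩ z hz
  · intro u v h
    obtain ⟨z, hz⟩ := hEd u v h
    exact ⟨z, hdr _ _ _ hz⟩

end Pool.Agent.H670R2.Sl
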