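import Mathlib

/-!
Systems of directions in the plane.
-/

namespace Pool.Agent.H670R2.Sl

/-- cross product -/
def cr (a b : ℝ × ℝ) : ℝ := a.1 * b.2 - a.2 * b.1

theorem cr_self (a : ℝ × ℝ) : cr a a = 0 := by simp only [cr]; ring
theorem cr_comm (a b : ℝ × ℝ) : cr a b = - cr b a := by simp only [cr]; ring
theorem cr_smul_left (r : ℝ) (a b : ℝ × ℝ) : cr (r • a) b = r * cr a b := by
  simp only [cr, Prod.smul_fst, Prod.smul_snd, smul_eq_mul]; ring
theorem cr_smul_right (r : ℝ) (a b : ℝ × ℝ) : cr a (r • b) = r * cr a b := by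
  simp only [cr, Prod.smul_fst, Prod.smul_snd, smul_eq_mul]; ring
theorem cr_add_left (a b c : ℝ × ℝ) : cr (a + b) c = cr a c + cr b c := by
  simp only [cr, Prod.fst_add, Prod.snd_add]; ring
theorem cr_add_right (a b c : ℝ × ℝ) : cr a (b + c) = cr a b + cr a c := by
  simp only [cr, Prod.fst_add, Prod.snd_add]; ring
theorem cr_sub_left (a b c : ℝ × ℝ) : cr (a - b) c = cr a c - cr b c := by
  simp only [cr, Prod.fst_sub, Prod.snd_sub]; ring
theorem cr_sub_right (a b c : ℝ × ℝ) : cr a (b - c) = cr a b - cr a c := by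
  simp only [cr, Prod.fst_sub, Prod.snd_sub]; ring
theorem cr_neg_left (a b : ℝ × ℝ) : cr (-a) b = - cr a b := by
  simp only [cr, Prod.fst_neg, Prod.snd_neg]; ring
theorem cr_neg_right (a b : ℝ × ℝ) : cr a (-b) = - cr a b := by
  simp only [cr, Prod.fst_neg, Prod.snd_neg]; ring
theorem cr_zero_left (b : ℝ × ℝ) : cr 0 b = 0 := by simp [cr]
theorem cr_zero_right (b : ℝ × ℝ) : cr b 0 = 0 := by simp [cr]

/-- expansion of a vector in a basis -/
theorem cr_basis {a b : ℝ × ℝ} (h : cr a b ≠ 0) (v : ℝ × ℝ) :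
    v = (cr v b / cr a b) • a + (cr a v / cr a b) • b := by
  have h' : a.1 * b.2 - a.2 * b.1 ≠ 0 := h
  ext
  · simp only [cr, Prod.fst_add, Prod.smul_fst, smul_eq_mul]
    rw [div_mul_eq_mul_div, div_mul_eq_mul_div, ← add_div, eq_div_iff h']
    ring
  · simp only [cr, Prod.snd_add, Prod.smul_snd, smul_eq_mul]
    rw [div_mul_eq_mul_div, div_mul_eq_mul_div, ← add_div, eq_div_iff h']
    ring

/-- if `cr a v = 0` and `a ≠ 0` then `v` is a multiple of `a` -/
theorem par_of_cr {a v : ℝ × ℝ} (ha : a ≠ 0) (h : cr a v = 0) : ∃ r : ℝ, v = r • a := by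
  have h' : a.1 * v.2 - a.2 * v.1 = 0 := h
  by_cases h1 : a.1 = 0
  · have h2 : a.2 ≠ 0 := by
      intro h2
      exact ha (Prod.ext h1 h2)
    refine ⟨v.2 / a.2, ?_⟩
    ext
    · simp only [Prod.smul_fst, smul_eq_mul, h1, mul_zero]
      rw [h1] at h'
      have : a.2 * v.1 = 0 := by linarith
      exact (mul_eq_zero.1 this).resolve_left h2
    · simp only [Prod.smul_snd, smul_eq_mul]
      field_simp
  · refine ⟨v.1 / a.1, ?_⟩
    ext
    · simp only [Prod.smul_fst, smul_eq_mul]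
      field_simp
    · simp only [Prod.smul_snd, smul_eq_mul]
      field_simp
      linarith

/-- a system of `2k` directions in counterclockwise order -/
structure DS (k : ℕ) where
  e : ZMod (2 * k) → ℝ × ℝ
  per : ∀ z, e (z + k) = - e z
  pos : ∀ z (n : ℕ), 0 < n → n < k → 0 < cr (e z) (e (z + n))

section basics

variable {k : ℕ}

theorem kk (k : ℕ) : ((k : ZMod (2 * k)) + k) = 0 := by
  have h : ((2 * k : ℕ) : ZMod (2 * k)) = 0 := ZMod.natCast_self _
  push_cast at h
  rw [← h]; ring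

theorem neg_k (k : ℕ) : -(k : ZMod (2 * k)) = k := by
  rw [neg_eq_iff_add_eq_zero]; exact kk k

/-- the possible positions of one direction relative to another -/
theorem DS.cases (hk : 0 < k) (z w : ZMod (2 * k)) :
    (∃ n : ℕ, n < k ∧ w = z + n) ∨ (∃ n : ℕ, n < k ∧ w = z + k + n) := by
  have : NeZero (2 * k) := ⟨by omega⟩
  have h1 : w = z + ((w - z).val : ZMod (2 * k)) := by
    rw [ZMod.natCast_zmod_val]; ring
  have h2 := ZMod.val_lt (w - z)
  by_cases h : (w - z).val < k
  · exact Or.inl ⟨_, h, h1⟩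
  · refine Or.inr ⟨(w - z).val - k, by omega, ?_⟩
    conv_lhs => rw [h1]
    have h3 : (w - z).val = k + ((w - z).val - k) := by omega
    conv_lhs => rw [h3]
    push_cast
    ring

theorem cast_ne {n m : ℕ} (hn : n < 2 * k) (hm : m < 2 * k) (h : n ≠ m) :
    (n : ZMod (2 * k)) ≠ m := by
  intro h'
  have h1 := congrArg ZMod.val h'
  rw [ZMod.val_natCast_of_lt hn, ZMod.val_natCast_of_lt hm] at h1
  exact h h1

variable (d : DS k)

theorem DS.ne (hk : 2 ≤ k) (z : ZMod (2 * k)) : d.e z ≠ 0 := by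
  intro h
  have := d.pos z 1 (by norm_num) (by omega)
  rw [h, cr_zero_left] at this
  exact lt_irrefl _ this

theorem DS.cr_nonneg (z : ZMod (2 * k)) {n : ℕ} (hn : n ≤ k) : 0 ≤ cr (d.e z) (d.e (z + n)) := by
  rcases Nat.eq_zero_or_pos n with rfl | h
  · simp [cr_self]
  · rcases Nat.lt_or_ge n k with h1 | h1
    · exact (d.pos z n h h1).le
    · have : n = k := le_antisymm hn h1
      rw [this, d.per, cr_neg_right, cr_self]; simp

/-- two directions are parallel iff they are equal or opposite -/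
theorem DS.cr_eq_zero (hk : 2 ≤ k) {z w : ZMod (2 * k)} (h : cr (d.e z) (d.e w) = 0) :
    w = z ∨ w = z + k := by
  rcases DS.cases (by omega) z w with ⟨n, hn, rfl⟩ | ⟨n, hn, rfl⟩
  · rcases Nat.eq_zero_or_pos n with rfl | h0
    · left; simp
    · exact absurd h (d.pos z n h0 hn).ne'
  · rcases Nat.eq_zero_or_pos n with rfl | h0
    · right; simp
    · have h1 : d.e (z + k + n) = - d.e (z + n) := by
        rw [show z + (k : ZMod (2 * k)) + n = z + n + k by ring, d.per]
      rw [h1, cr_neg_right] at h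
      exact absurd (neg_eq_zero.1 h) (d.pos z n h0 hn).ne'

theorem DS.cr_self_add (z : ZMod (2 * k)) : cr (d.e z) (d.e (z + k)) = 0 := by
  rw [d.per, cr_neg_right, cr_self, neg_zero]

/-- the direction of a vector is unique -/
theorem DS.dir_unique (hk : 2 ≤ k) {z w : ZMod (2 * k)} {a b : ℝ} (ha : 0 < a) (hb : 0 < b)
    (h : a • d.e z = b • d.e w) : z = w := by
  have h1 : cr (d.e z) (d.e w) = 0 := by
    have : cr (d.e z) (b • d.e w) = 0 := by rw [← h, cr_smul_right, cr_self, mul_zero]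
    rw [cr_smul_right] at this
    exact (mul_eq_zero.1 this).resolve_left hb.ne'
  rcases d.cr_eq_zero hk h1 with h2 | h2
  · exact h2.symm
  · exfalso
    rw [h2, d.per, smul_neg] at h
    have h3 : (a + b) • d.e z = 0 := by rw [add_smul, h]; simp
    rcases smul_eq_zero.1 h3 with h4 | h4
    · linarith
    · exact d.ne hk z h4

/-- positions of a vector that is not parallel to any of the directions -/
theorem DS.sector (hk : 2 ≤ k) {v : ℝ × ℝ} (hv : ∀ z, cr v (d.e z) ≠ 0) :
    ∃ y, 0 < cr (d.e (y - 1)) v ∧ 0 < cr v (d.e y) := by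
  have h0 : ∃ z, 0 < cr v (d.e z) := by
    rcases lt_or_gt_of_ne (hv 0) with h | h
    · refine ⟨0 + k, ?_⟩
      rw [d.per, cr_neg_right]; linarith
    · exact ⟨0, h⟩
  obtain ⟨z, hz⟩ := h0
  have h1 : ∃ n : ℕ, cr v (d.e (z - n)) < 0 := by
    refine ⟨k, ?_⟩
    rw [sub_eq_add_neg, neg_k, d.per, cr_neg_right]; linarith
  classical
  have h2 := Nat.find_spec h1
  set n := Nat.find h1 with hn
  have hpos : n ≠ 0 := by
    intro h
    rw [h] at h2
    simp at h2
    linarith
  obtain ⟨m, hm⟩ := Nat.exists_eq_succ_of_ne_zero hpos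
  have h3 : ¬ cr v (d.e (z - m)) < 0 := Nat.find_min h1 (by omega)
  refine ⟨z - m, ?_, ?_⟩
  · rw [cr_comm]
    have h4 : z - (m : ZMod (2 * k)) - 1 = z - n := by rw [hm]; push_cast; ring
    rw [h4]; linarith
  · rcases lt_or_gt_of_ne (hv (z - m)) with h | h
    · exact absurd h h3
    · exact h

/-- signs in the sector of a vector -/
theorem DS.sector_pos (hk : 2 ≤ k) {v : ℝ × ℝ} {y : ZMod (2 * k)} (h1 : 0 < cr (d.e (y - 1)) v)
    (h2 : 0 < cr v (d.e y)) {n : ℕ} (hn : n < k) : 0 < cr v (d.e (y + n)) := by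
  have h3 : 0 < cr (d.e (y - 1)) (d.e y) := by
    have := d.pos (y - 1) 1 (by norm_num) (by omega)
    simpa using this
  have h4 := cr_basis h3.ne' v
  rw [h4, cr_add_left, cr_smul_left, cr_smul_left]
  have h5 : 0 ≤ cr (d.e (y - 1)) (d.e (y + n)) := by
    have := d.cr_nonneg (y - 1) (n := n + 1) (by omega)
    have e : y - 1 + ((n + 1 : ℕ) : ZMod (2 * k)) = y + n := by push_cast; ring
    rwa [e] at this
  have h6 : 0 ≤ cr (d.e y) (d.e (y + n)) := d.cr_nonneg y hn.le
  have h7 : 0 < cr (d.e (y - 1)) (d.e (y + n)) ∨ 0 < cr (d.e y) (d.e (y + n)) := by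
    rcases Nat.eq_zero_or_pos n with rfl | h0
    · left; simpa using h3
    · right; exact d.pos y n h0 hn
  have h8 : 0 < cr v (d.e y) / cr (d.e (y - 1)) (d.e y) := by positivity
  have h9 : 0 < cr (d.e (y - 1)) v / cr (d.e (y - 1)) (d.e y) := by positivity
  rcases h7 with h7 | h7
  · have := mul_pos h8 h7
    have := mul_nonneg h9.le h6
    linarith
  · have := mul_pos h9 h7
    have := mul_nonneg h8.le h5
    linarith

end basics

end Pool.Agent.H670R2.Sl
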