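import Pool.Agent.H670R2.OrthDefs

/-!
The decision problem SLOPE NUMBER.
-/

namespace Pool.Agent.H670R2

open Pool.Agent.NPC

/-- The slope of the line through two points of the plane; it is `⊤` for vertical lines. -/
noncomputable def slope (a b : ℝ × ℝ) : WithTop ℝ :=
  if a.1 = b.1 then ⊤ else (((b.2 - a.2) / (b.1 - a.1) : ℝ) : WithTop ℝ)

/-- A straight-line drawing of `G`: distinct vertices are drawn at distinct points, and no vertex
lies in the relative interior of an edge.  Edges may cross. -/
structure IsDrawing {V : Type} (G : SimpleGraph V) (p : V → ℝ × ℝ) : Prop where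
  inj : Function.Injective p
  edge : ∀ u v w : V, G.Adj u v → p w ∉ openSegment ℝ (p u) (p v)

/-- The set of the slopes of the edges of a drawing. -/
def slopes {V : Type} (G : SimpleGraph V) (p : V → ℝ × ℝ) : Set (WithTop ℝ) :=
  {s | ∃ u v : V, G.Adj u v ∧ s = slope (p u) (p v)}

/-- The slope number of a graph: the minimum number of distinct slopes of a straight-line
drawing. -/
noncomputable def slopeNumber {V : Type} (G : SimpleGraph V) : ℕ :=
  sInf {m | ∃ p : V → ℝ × ℝ, IsDrawing G p ∧ (slopes G p).ncard = m}

/-- The decision problem SLOPE NUMBER: the input is a finite simple graph, given by its adjacency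
lists, and a number `k`, the question is whether the slope number of the graph is at most `k`. -/
def SLOPENUMBER : Set (List Bool) :=
  lang (fun x : List (List ℕ) × ℕ => ∃ h : IsGraph x.1, slopeNumber (graphOf x.1 h) ≤ x.2)

end Pool.Agent.H670R2
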