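import Pool.Agent.H670R2.Graph
import Pool.Agent.H670R2.SlopeDefs
import Pool.Agent.H670R2.SlBone

/-!
The graph of the reduction to SLOPE NUMBER.

The input is a number `k` (even, the number of slopes; the slopes are labelled by `0, …, k-1` in
circular order) and a list `ms` of labels.  The `φ`-th label is the label of the line through the
points number `e1 (φ % 6)` and `e2 (φ % 6)` of the `φ / 6`-th quadrangle.
-/

namespace Pool.Agent.H670R2.Sl

/-- first end of the `j`-th side of a quadrangle with vertices `0, 1, 2, 3` -/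
def e1 (j : ℕ) : ℕ := if j < 3 then 0 else if j = 3 then 2 else 1

/-- second end of the `j`-th side of a quadrangle -/
def e2 (j : ℕ) : ℕ := if j < 3 then j + 1 else if j = 5 then 2 else 3

/-- number of chains -/
def nT (k N : ℕ) : ℕ := 8 * k * k * N

/-- is there an edge between the hub of the chain `s + 1` and its line? -/
def tok (k : ℕ) (ms : List ℕ) (s : ℕ) : Bool :=
  decide (2 * k ≤ s % (4 * k)) && (decide (((s + 1) * (k + 1) + 5) % (2 * k) =
    s / (4 * k) % (2 * k)) && !decide (s / (4 * k) % (2 * k) % k = ms.getD (s / (4 * k) / (2 * k)) 0 % k))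

/-! ### The graph, abstractly -/

/-- The vertices: points, lines, and the vertices `H s i b` of the `i`-th hinge of the `s`-th
chain; the hubs are those with `b = 0` and `b = 1`, the other ones with `b < 2 * k` are the common
neighbours of the hubs. -/
inductive Vx : Type
  | P (n i : ℕ)
  | F (f : ℕ)
  | H (s i b : ℕ)
  deriving DecidableEq

/-- the vertices that are used -/
def Vx.val (k N : ℕ) : Vx → Prop
  | .P n i => i < 4 ∧ n < N
  | .F f => f < N
  | .H s i b => s < nT k N + 1 ∧ i < k ∧ b < 2 * k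

/-- the hinges that are used -/
def blk (k N s i : ℕ) : Prop := s < nT k N + 1 ∧ i < k ∧ i ≠ 3 ∧ (0 < s ∨ i = 4)

/-- the direction of the first side of the `s`-th chain -/
def xs (k s : ℕ) : ZMod (2 * k) := ((s * (k + 1) : ℕ) : ZMod (2 * k))

/-- the edges that are not edges of hinges, with their directions; `w f` is the direction from the
line number `f` to the second one of its points -/
inductive Leg (k : ℕ) (ms : List ℕ) (w : ℕ → ZMod (2 * k)) : Vx → Vx → ZMod (2 * k) → Prop
  | l0 (s : ℕ) (h : s < nT k ms.length) :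
      Leg k ms w (.H (s + 1) 0 0) (.H (s + 1) 1 0) (xs k (s + 1))
  | l1 (s : ℕ) (h : s < nT k ms.length) :
      Leg k ms w (.H (s + 1) 1 0) (.H (s + 1) 2 0) (xs k (s + 1) + 1 + k)
  | l2 (s : ℕ) (h : s < nT k ms.length) :
      Leg k ms w (.H (s + 1) 2 0) (.H s 4 1) (xs k (s + 1) + 2)
  | l3 (s : ℕ) (h : s < nT k ms.length) :
      Leg k ms w (.H s 4 0) (.H (s + 1) 4 0) (xs k (s + 1) + 3)
  | lk (s : ℕ) (h : s < nT k ms.length) :
      Leg k ms w (.H (s + 1) (k - 1) 1) (.H (s + 1) 0 0) (xs k (s + 1) + k - 1)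
  | lm (s j : ℕ) (h : s < nT k ms.length) (hj : j < k - 5) :
      Leg k ms w (.H (s + 1) (j + 4) 1) (.H (s + 1) (j + 5) 0) (xs k (s + 1) + (j + 4 : ℕ))
  | tk (s : ℕ) (h : s < nT k ms.length) (ht : tok k ms s = true) :
      Leg k ms w (.F (s / (4 * k) / (2 * k))) (.H (s + 1) 5 0) (xs k (s + 1) + 5)
  | f1 (f : ℕ) (h : f < ms.length) :
      Leg k ms w (.F f) (.P (f / 6) (e1 (f % 6))) (w f + k)
  | f2 (f : ℕ) (h : f < ms.length) :
      Leg k ms w (.F f) (.P (f / 6) (e2 (f % 6))) (w f)

/-- the edges of the hinges -/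
inductive Bone (k N : ℕ) : Vx → Vx → Prop
  | b0 (s i j : ℕ) (h : blk k N s i) (hj : j < 2 * k - 2) : Bone k N (.H s i 0) (.H s i (j + 2))
  | b1 (s i j : ℕ) (h : blk k N s i) (hj : j < 2 * k - 2) : Bone k N (.H s i 1) (.H s i (j + 2))

/-- the edges (in one of the two orientations) -/
def Ed (k : ℕ) (ms : List ℕ) (u v : Vx) : Prop := Bone k ms.length u v ∨ ∃ z, Leg k ms 0 u v z

/-- adjacency -/
def adjV (k : ℕ) (ms : List ℕ) (u v : Vx) : Prop := Ed k ms u v ∨ Ed k ms v u

/-- Quadrangles with sides of the given labels. -/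
def Quad (k : ℕ) (ms : List ℕ) : Prop :=
  ∃ (d : DS k) (P : ℕ → ℕ → ℝ × ℝ), ∀ f < ms.length, ∃ r : ℝ, r ≠ 0 ∧
    P (f / 6) (e2 (f % 6)) - P (f / 6) (e1 (f % 6)) = r • d.e (ms.getD f 0 : ℕ)

/-- Nondegenerate quadrangles with sides of the given labels. -/
structure QuadG (k : ℕ) (ms : List ℕ) (d : DS k) (P : ℕ → ℕ → ℝ × ℝ) : Prop where
  side : ∀ f < ms.length, ∃ r : ℝ, r ≠ 0 ∧
    P (f / 6) (e2 (f % 6)) - P (f / 6) (e1 (f % 6)) = r • d.e (ms.getD f 0 : ℕ)
  nc : ∀ f < ms.length, ∀ i < 4, i ≠ e1 (f % 6) → i ≠ e2 (f % 6) →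
    cr (P (f / 6) i - P (f / 6) (e1 (f % 6))) (d.e (ms.getD f 0 : ℕ)) ≠ 0

/-! ### The graph, as adjacency lists -/

/-- the `i`-th vertex of the `n`-th quadrangle -/
def cP (n i : ℕ) : ℕ := 4 * n + i

/-- the vertex on the line number `f` (`N` is the number of the lines) -/
def cF (N f : ℕ) : ℕ := 4 * N + f

/-- the vertices of the hinges -/
def cH (N k s i b : ℕ) : ℕ := 5 * N + ((s * k + i) * (2 * k) + b)

/-- the number of a vertex -/
def code (N k : ℕ) : Vx → ℕ
  | .P n i => cP n i
  | .F f => cF N f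
  | .H s i b => cH N k s i b

/-- the edges of the hinges -/
def eBones (k N : ℕ) : List (ℕ × ℕ) :=
  (List.range (nT k N + 1)).flatMap fun s => (List.range k).flatMap fun i =>
    if (!decide (i = 3) && (decide (0 < s) || decide (i = 4))) = true then
      (List.range (2 * k - 2)).flatMap fun j =>
        [(cH N k s i 0, cH N k s i (j + 2)), (cH N k s i 1, cH N k s i (j + 2))]
    else []

/-- the sides of the chains -/
def eSides (k N : ℕ) : List (ℕ × ℕ) :=
  (List.range (nT k N)).flatMap fun s =>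
    [(cH N k (s + 1) 0 0, cH N k (s + 1) 1 0), (cH N k (s + 1) 1 0, cH N k (s + 1) 2 0),
      (cH N k (s + 1) 2 0, cH N k s 4 1), (cH N k s 4 0, cH N k (s + 1) 4 0),
      (cH N k (s + 1) (k - 1) 1, cH N k (s + 1) 0 0)] ++
    (List.range (k - 5)).map fun j => (cH N k (s + 1) (j + 4) 1, cH N k (s + 1) (j + 5) 0)

/-- the edges between hubs and lines -/
def eTok (k : ℕ) (ms : List ℕ) : List (ℕ × ℕ) :=
  (List.range (nT k ms.length)).flatMap fun s =>
    if tok k ms s = true then
      [(cF ms.length (s / (4 * k) / (2 * k)), cH ms.length k (s + 1) 5 0)] else []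

/-- the edges between lines and points -/
def eFil (N : ℕ) : List (ℕ × ℕ) :=
  (List.range N).flatMap fun f =>
    [(cF N f, cP (f / 6) (e1 (f % 6))), (cF N f, cP (f / 6) (e2 (f % 6)))]

/-- the edges -/
def eAll (k : ℕ) (ms : List ℕ) : List (ℕ × ℕ) :=
  eBones k ms.length ++ eSides k ms.length ++ eTok k ms ++ eFil ms.length

/-- number of vertices -/
def nV (k N : ℕ) : ℕ := 5 * N + (nT k N + 1) * k * (2 * k)

/-- the graph -/
def gr (k : ℕ) (ms : List ℕ) : List (List ℕ) := adjLists (nV k ms.length) (eAll k ms)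

/-! ### Basic facts -/

theorem mem_eAll {k : ℕ} {ms : List ℕ} {p : ℕ × ℕ} (w : ℕ → ZMod (2 * k)) :
    p ∈ eAll k ms ↔ ∃ u v : Vx, (Bone k ms.length u v ∨ ∃ z, Leg k ms w u v z) ∧
      p = (code ms.length k u, code ms.length k v) := by
  constructor
  · intro h
    simp only [eAll, List.mem_append] at h
    rcases h with ((h | h) | h) | h
    · simp only [eBones, List.mem_flatMap, List.mem_range] at h
      obtain ⟨s, hs, i, hi, h⟩ := h
      split_ifs at h with hc
      · simp only [Bool.and_eq_true, Bool.not_eq_true', decide_eq_false_iff_not, Bool.or_eq_true,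
          decide_eq_true_eq] at hc
        simp only [List.mem_flatMap, List.mem_range, List.mem_cons, List.not_mem_nil,
          or_false] at h
        obtain ⟨j, hj, h | h⟩ := h
        · exact ⟨_, _, Or.inl (Bone.b0 s i j ⟨hs, hi, hc.1, hc.2⟩ hj), h⟩
        · exact ⟨_, _, Or.inl (Bone.b1 s i j ⟨hs, hi, hc.1, hc.2⟩ hj), h⟩
      · simp at h
    · simp only [eSides, List.mem_flatMap, List.mem_range, List.mem_append, List.mem_cons,
        List.not_mem_nil, or_false, List.mem_map] at h
      obtain ⟨s, hs, (h | h | h | h | h) | ⟨j, hj, h⟩⟩ := h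
      · exact ⟨_, _, Or.inr ⟨_, Leg.l0 s hs⟩, h⟩
      · exact ⟨_, _, Or.inr ⟨_, Leg.l1 s hs⟩, h⟩
      · exact ⟨_, _, Or.inr ⟨_, Leg.l2 s hs⟩, h⟩
      · exact ⟨_, _, Or.inr ⟨_, Leg.l3 s hs⟩, h⟩
      · exact ⟨_, _, Or.inr ⟨_, Leg.lk s hs⟩, h⟩
      · exact ⟨_, _, Or.inr ⟨_, Leg.lm s j hs hj⟩, h.symm⟩
    · simp only [eTok, List.mem_flatMap, List.mem_range] at h
      obtain ⟨s, hs, h⟩ := h
      split_ifs at h with hc
      · simp only [List.mem_cons, List.not_mem_nil, or_false] at h
        exact ⟨_, _, Or.inr ⟨_, Leg.tk s hs hc⟩, h⟩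
      · simp at h
    · simp only [eFil, List.mem_flatMap, List.mem_range, List.mem_cons, List.not_mem_nil,
        or_false] at h
      obtain ⟨f, hf, h | h⟩ := h
      · exact ⟨_, _, Or.inr ⟨_, Leg.f1 f hf⟩, h⟩
      · exact ⟨_, _, Or.inr ⟨_, Leg.f2 f hf⟩, h⟩
  · rintro ⟨u, v, h, rfl⟩
    simp only [eAll, List.mem_append]
    rcases h with h | ⟨z, h⟩
    · refine Or.inl (Or.inl (Or.inl ?_))
      simp only [eBones, List.mem_flatMap, List.mem_range]
      cases h with
      | b0 s i j h hj =>
          refine ⟨s, h.1, i, h.2.1, ?_⟩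
          rw [if_pos (by simpa using h.2.2)]
          simp only [List.mem_flatMap, List.mem_range]
          exact ⟨j, hj, by simp [code]⟩
      | b1 s i j h hj =>
          refine ⟨s, h.1, i, h.2.1, ?_⟩
          rw [if_pos (by simpa using h.2.2)]
          simp only [List.mem_flatMap, List.mem_range]
          exact ⟨j, hj, by simp [code]⟩
    · cases h with
      | l0 s h =>
          refine Or.inl (Or.inl (Or.inr ?_))
          simp only [eSides, List.mem_flatMap, List.mem_range]
          exact ⟨s, h, by simp [code]⟩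
      | l1 s h =>
          refine Or.inl (Or.inl (Or.inr ?_))
          simp only [eSides, List.mem_flatMap, List.mem_range]
          exact ⟨s, h, by simp [code]⟩
      | l2 s h =>
          refine Or.inl (Or.inl (Or.inr ?_))
          simp only [eSides, List.mem_flatMap, List.mem_range]
          exact ⟨s, h, by simp [code]⟩
      | l3 s h =>
          refine Or.inl (Or.inl (Or.inr ?_))
          simp only [eSides, List.mem_flatMap, List.mem_range]
          exact ⟨s, h, by simp [code]⟩
      | lk s h =>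
          refine Or.inl (Or.inl (Or.inr ?_))
          simp only [eSides, List.mem_flatMap, List.mem_range]
          exact ⟨s, h, by simp [code]⟩
      | lm s j h hj =>
          refine Or.inl (Or.inl (Or.inr ?_))
          simp only [eSides, List.mem_flatMap, List.mem_range, List.mem_append, List.mem_map]
          exact ⟨s, h, Or.inr ⟨j, hj, rfl⟩⟩
      | tk s h ht =>
          refine Or.inl (Or.inr ?_)
          simp only [eTok, List.mem_flatMap, List.mem_range]
          refine ⟨s, h, ?_⟩
          rw [if_pos ht]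
          simp [code]
      | f1 f h =>
          refine Or.inr ?_
          simp only [eFil, List.mem_flatMap, List.mem_range]
          exact ⟨f, h, by simp [code]⟩
      | f2 f h =>
          refine Or.inr ?_
          simp only [eFil, List.mem_flatMap, List.mem_range]
          exact ⟨f, h, by simp [code]⟩

theorem leg_change {k : ℕ} {ms : List ℕ} {w w' : ℕ → ZMod (2 * k)} {u v : Vx} {z : ZMod (2 * k)}
    (h : Leg k ms w u v z) : ∃ z', Leg k ms w' u v z' := by
  cases h with
  | l0 s h => exact ⟨_, Leg.l0 s h⟩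
  | l1 s h => exact ⟨_, Leg.l1 s h⟩
  | l2 s h => exact ⟨_, Leg.l2 s h⟩
  | l3 s h => exact ⟨_, Leg.l3 s h⟩
  | lk s h => exact ⟨_, Leg.lk s h⟩
  | lm s j h hj => exact ⟨_, Leg.lm s j h hj⟩
  | tk s h ht => exact ⟨_, Leg.tk s h ht⟩
  | f1 f h => exact ⟨_, Leg.f1 f h⟩
  | f2 f h => exact ⟨_, Leg.f2 f h⟩

theorem nT_div {k N s : ℕ} (hk : 0 < k) (h : s < nT k N) : s / (4 * k) / (2 * k) < N := by
  rw [Nat.div_div_eq_div_mul]
  refine Nat.div_lt_of_lt_mul ?_
  have : 4 * k * (2 * k) * N = nT k N := by unfold nT; ring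
  omega

theorem Leg.val {k : ℕ} (hk : 8 ≤ k) {ms : List ℕ} {w : ℕ → ZMod (2 * k)} {u v : Vx}
    {z : ZMod (2 * k)} (h : Leg k ms w u v z) :
    u.val k ms.length ∧ v.val k ms.length ∧ u ≠ v := by
  cases h with
  | l0 s h => exact ⟨⟨by omega, by omega, by omega⟩, ⟨by omega, by omega, by omega⟩, by simp⟩
  | l1 s h => exact ⟨⟨by omega, by omega, by omega⟩, ⟨by omega, by omega, by omega⟩, by simp⟩
  | l2 s h => exact ⟨⟨by omega, by omega, by omega⟩, ⟨by omega, by omega, by omega⟩, by simp⟩
  | l3 s h => exact ⟨⟨by omega, by omega, by omega⟩, ⟨by omega, by omega, by omega⟩, by simp⟩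
  | lk s h => exact ⟨⟨by omega, by omega, by omega⟩, ⟨by omega, by omega, by omega⟩, by simp⟩
  | lm s j h hj => exact ⟨⟨by omega, by omega, by omega⟩, ⟨by omega, by omega, by omega⟩, by simp⟩
  | tk s h ht =>
      exact ⟨nT_div (by omega) h, ⟨by omega, by omega, by omega⟩, by simp⟩
  | f1 f h =>
      refine ⟨h, ⟨?_, by omega⟩, by simp⟩
      unfold e1; split_ifs <;> omega
  | f2 f h =>
      refine ⟨h, ⟨?_, by omega⟩, by simp⟩
      unfold e2; split_ifs <;> omega

theorem Bone.val {k N : ℕ} {u v : Vx} (h : Bone k N u v) : u.val k N ∧ v.val k N ∧ u ≠ v := by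
  cases h with
  | b0 s i j h hj =>
      refine ⟨⟨h.1, h.2.1, by omega⟩, ⟨h.1, h.2.1, by omega⟩, ?_⟩
      intro he; simp at he
  | b1 s i j h hj =>
      refine ⟨⟨h.1, h.2.1, by omega⟩, ⟨h.1, h.2.1, by omega⟩, ?_⟩
      intro he; simp at he

theorem Ed.val {k : ℕ} (hk : 8 ≤ k) {ms : List ℕ} {u v : Vx} (h : Ed k ms u v) :
    u.val k ms.length ∧ v.val k ms.length ∧ u ≠ v := by
  rcases h with h | ⟨z, h⟩
  · exact h.val
  · exact h.val hk

theorem code_lt' {k N : ℕ} {v : Vx} (hv : v.val k N) : code N k v < nV k N := by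
  cases v with
  | P n i => simp only [code, cP, nV, Vx.val] at *; omega
  | F f => simp only [code, cF, nV, Vx.val] at *; omega
  | H s i b =>
      simp only [code, cH, nV, Vx.val] at *
      obtain ⟨h1, h2, h3⟩ := hv
      have h4 : s * k + i + 1 ≤ (nT k N + 1) * k := by
        have : (s + 1) * k ≤ (nT k N + 1) * k := Nat.mul_le_mul_right _ h1
        rw [Nat.add_mul, one_mul] at this
        omega
      have h5 : (s * k + i + 1) * (2 * k) ≤ (nT k N + 1) * k * (2 * k) :=
        Nat.mul_le_mul_right _ h4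
      rw [Nat.add_mul, one_mul] at h5
      omega

theorem code_inj' {k N : ℕ} {u v : Vx} (hu : u.val k N) (hv : v.val k N)
    (h : code N k u = code N k v) : u = v := by
  cases u with
  | P n i =>
      cases v with
      | P n' i' =>
          simp only [code, cP, Vx.val] at *
          obtain rfl : n = n' := by omega
          obtain rfl : i = i' := by omega
          rfl
      | F f => simp only [code, cP, cF, Vx.val] at *; omega
      | H s i b => simp only [code, cP, cH, Vx.val] at *; omega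
  | F f =>
      cases v with
      | P n' i' => simp only [code, cP, cF, Vx.val] at *; omega
      | F f' => simp only [code, cF, Vx.val] at *; congr 1; omega
      | H s i b => simp only [code, cF, cH, Vx.val] at *; omega
  | H s i b =>
      cases v with
      | P n' i' => simp only [code, cP, cH, Vx.val] at *; omega
      | F f' => simp only [code, cF, cH, Vx.val] at *; omega
      | H s' i' b' =>
          simp only [code, cH, Vx.val] at *
          obtain ⟨h1, h2⟩ := grid_inj (K := 2 * k) (i := s * k + i) (k := b) (i' := s' * k + i')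
            (k' := b') hu.2.2 hv.2.2 (by omega)
          obtain ⟨h3, h4⟩ := grid_inj (K := k) hu.2.1 hv.2.1 h1
          rw [h2, h3, h4]

theorem code_surj' {k N c : ℕ} (hk : 0 < k) (hc : c < nV k N) :
    ∃ v : Vx, v.val k N ∧ code N k v = c := by
  simp only [nV] at hc
  by_cases h1 : c < 4 * N
  · exact ⟨.P (c / 4) (c % 4), ⟨by omega, by omega⟩, by simp only [code, cP]; omega⟩
  by_cases h2 : c < 5 * N
  · exact ⟨.F (c - 4 * N), by simp only [Vx.val]; omega, by simp only [code, cF]; omega⟩
  refine ⟨.H ((c - 5 * N) / (2 * k) / k) ((c - 5 * N) / (2 * k) % k) ((c - 5 * N) % (2 * k)),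
    ⟨?_, Nat.mod_lt _ hk, Nat.mod_lt _ (by omega)⟩, ?_⟩
  · refine Nat.div_lt_of_lt_mul (Nat.div_lt_of_lt_mul ?_)
    have : 2 * k * (k * (nT k N + 1)) = (nT k N + 1) * k * (2 * k) := by ring
    omega
  · simp only [code, cH]
    have h3 := Nat.div_add_mod (c - 5 * N) (2 * k)
    have h4 := Nat.div_add_mod ((c - 5 * N) / (2 * k)) k
    rw [mul_comm k] at h4
    rw [h4, mul_comm _ (2 * k)]
    omega

theorem isGraph_gr' {k : ℕ} (hk : 8 ≤ k) {ms : List ℕ} : IsGraph (gr k ms) := by
  intro u v hu hv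
  have hlen : (gr k ms).length = nV k ms.length := adjLists_length _ _
  rw [hlen] at hu ⊢
  rw [gr, mem_adjLists hu] at hv
  refine ⟨hv.1, ?_, ?_⟩
  · rintro rfl
    have h : (v, v) ∈ eAll k ms := by tauto
    obtain ⟨a, b, hab, h⟩ := (mem_eAll 0).1 h
    simp only [Prod.mk.injEq] at h
    obtain ⟨ha, hb, hne⟩ := Ed.val hk hab
    exact hne (code_inj' ha hb (by rw [← h.1, ← h.2]))
  · rw [gr, mem_adjLists hv.1]
    exact ⟨hu, hv.2.symm⟩

end Pool.Agent.H670R2.Sl
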