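import Pool.Agent.H670R2.SlNum
import Pool.Agent.H670R2.OrthMem

/-!
# SLOPE NUMBER belongs to `∃ℝ`
-/

namespace Pool.Agent.NPC.H670R2

open Pool.Agent.NPC Pool.Agent.NPC.ER Pool.Agent.H670R2 Pool.Agent.H670R2.Sl

/-- the `v`-th point -/
def ptOf (x : ℕ → ℝ) (v : ℕ) : ℝ × ℝ := (x (2 * v), x (2 * v + 1))

/-- difference of coordinates -/
def dT (i u v : ℕ) : Tm := Tm.add (Tm.var (2 * v + i)) (Tm.neg (Tm.var (2 * u + i)))

/-- the points `u` and `v` are different -/
def neF (u v : ℕ) : Fm := Fm.not (Fm.and (Fm.eq (dT 0 u v) Tm.zero) (Fm.eq (dT 1 u v) Tm.zero))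

/-- the point `w` is not strictly between the points `u` and `v` -/
def segF (u v w : ℕ) : Fm :=
  Fm.not (Fm.and (Fm.eq (Tm.mul (dT 0 u v) (dT 1 u w)) (Tm.mul (dT 1 u v) (dT 0 u w)))
    (Fm.lt Tm.zero (Tm.add (Tm.mul (dT 0 u w) (dT 0 w v)) (Tm.mul (dT 1 u w) (dT 1 w v)))))

/-- the vector number `j` is not zero -/
def nzvF (j : ℕ) : Fm :=
  Fm.not (Fm.and (Fm.eq (Tm.var (2 * j)) Tm.zero) (Fm.eq (Tm.var (2 * j + 1)) Tm.zero))

/-- the line through `u` and `v` is parallel to the vector number `j` -/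
def parF (u v j : ℕ) : Fm :=
  Fm.eq (Tm.mul (dT 0 u v) (Tm.var (2 * j + 1))) (Tm.mul (dT 1 u v) (Tm.var (2 * j)))

theorem holds_neF (x : ℕ → ℝ) (u v : ℕ) : (neF u v).Holds x ↔ ptOf x u ≠ ptOf x v := by
  simp only [neF, dT, Fm.Holds, Tm.eval, ptOf, ne_eq, Prod.mk.injEq, add_zero]
  rw [not_iff_not]
  constructor
  · rintro ⟨h1, h2⟩; constructor <;> linarith
  · rintro ⟨h1, h2⟩; constructor <;> linarith

theorem holds_nzvF (x : ℕ → ℝ) (j : ℕ) : (nzvF j).Holds x ↔ ptOf x j ≠ 0 := by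
  simp only [nzvF, Fm.Holds, Tm.eval, ptOf, ne_eq, Prod.mk_eq_zero]

theorem holds_parF (x : ℕ → ℝ) (u v j : ℕ) : (parF u v j).Holds x ↔
    cr (ptOf x v - ptOf x u) (ptOf x j) = 0 := by
  simp only [parF, dT, Fm.Holds, Tm.eval, ptOf, cr, Prod.fst_sub, Prod.snd_sub, add_zero]
  constructor <;> intro h <;> linarith

theorem mem_seg {a b c : ℝ × ℝ} (hab : a ≠ b) : c ∈ openSegment ℝ a b ↔
    (cr (b - a) (c - a) = 0 ∧ 0 < (c.1 - a.1) * (b.1 - c.1) + (c.2 - a.2) * (b.2 - c.2)) := by
  have hne : b - a ≠ 0 := sub_ne_zero.2 (Ne.symm hab)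
  have hpos : 0 < (b.1 - a.1) * (b.1 - a.1) + (b.2 - a.2) * (b.2 - a.2) := by
    have h1 : b.1 - a.1 ≠ 0 ∨ b.2 - a.2 ≠ 0 := by
      by_contra hcon
      push Not at hcon
      exact hne (Prod.ext hcon.1 hcon.2)
    rcases h1 with h | h
    · have := mul_self_pos.2 h
      have := mul_self_nonneg (b.2 - a.2)
      linarith
    · have := mul_self_pos.2 h
      have := mul_self_nonneg (b.1 - a.1)
      linarith
  constructor
  · rintro ⟨s, t, hs, ht, hst, rfl⟩
    have hs' : s = 1 - t := by linarith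
    subst hs'
    have e : (1 - t) • a + t • b - a = t • (b - a) := by
      rw [sub_smul, one_smul, smul_sub]; abel
    refine ⟨by rw [e, cr_smul_right, cr_self, mul_zero], ?_⟩
    simp only [Prod.fst_add, Prod.smul_fst, smul_eq_mul, Prod.snd_add, Prod.smul_snd]
    have : ((1 - t) * a.1 + t * b.1 - a.1) * (b.1 - ((1 - t) * a.1 + t * b.1)) +
        ((1 - t) * a.2 + t * b.2 - a.2) * (b.2 - ((1 - t) * a.2 + t * b.2)) =
        (t * (1 - t)) * ((b.1 - a.1) * (b.1 - a.1) + (b.2 - a.2) * (b.2 - a.2)) := by ring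
    rw [this]
    exact mul_pos (mul_pos ht hs) hpos
  · rintro ⟨h1, h2⟩
    obtain ⟨t, ht⟩ := par_of_cr hne h1
    have e1 : c.1 - a.1 = t * (b.1 - a.1) := by
      have := congrArg Prod.fst ht
      simpa using this
    have e2 : c.2 - a.2 = t * (b.2 - a.2) := by
      have := congrArg Prod.snd ht
      simpa using this
    have h3 : 0 < (t * (1 - t)) * ((b.1 - a.1) * (b.1 - a.1) + (b.2 - a.2) * (b.2 - a.2)) := by
      have e3 : b.1 - c.1 = (1 - t) * (b.1 - a.1) := by linarith
      have e4 : b.2 - c.2 = (1 - t) * (b.2 - a.2) := by linarith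
      rw [e1, e2, e3, e4] at h2
      linarith
    have h4 : 0 < t * (1 - t) := (pos_iff_pos_of_mul_pos h3).2 hpos
    have ht0 : 0 < t := by
      by_contra hcon
      push Not at hcon
      nlinarith
    have ht1 : t < 1 := by
      by_contra hcon
      push Not at hcon
      nlinarith
    refine ⟨1 - t, t, by linarith, ht0, by ring, ?_⟩
    have : c = a + t • (b - a) := by rw [← ht]; abel
    rw [this, sub_smul, one_smul, smul_sub]; abel

theorem holds_segF (x : ℕ → ℝ) (u v w : ℕ) (h : ptOf x u ≠ ptOf x v) : (segF u v w).Holds x ↔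
    ptOf x w ∉ openSegment ℝ (ptOf x u) (ptOf x v) := by
  rw [mem_seg h]
  simp only [segF, dT, Fm.Holds, Tm.eval, ptOf, cr, Prod.fst_sub, Prod.snd_sub, add_zero,
    ← sub_eq_add_neg, sub_eq_zero]

/-- number of direction vectors -/
def nD (x : List (List ℕ) × ℕ) : ℕ := min x.2 (x.1.length * x.1.length)

/-- the list of conditions -/
def scnds (x : List (List ℕ) × ℕ) : List Fm :=
  (((List.range x.1.length).flatMap fun u =>
      ((List.range x.1.length).filter fun v => !decide (v = u)).map fun v => neF u v) ++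
    (x.1.zipIdx.flatMap fun p => p.1.flatMap fun v =>
      (List.range x.1.length).map fun w => segF p.2 v w)) ++
    (((List.range (nD x)).map fun j => nzvF (x.1.length + j)) ++
    x.1.zipIdx.flatMap fun p => p.1.map fun v =>
      disj ((List.range (nD x)).map fun j => parF p.2 v (x.1.length + j)))

/-- the formula for an instance -/
def slopeF (x : List (List ℕ) × ℕ) : Fm := if chk x.1 = true then conj (scnds x) else ff

theorem holds_scnds (y : ℕ → ℝ) (x : List (List ℕ) × ℕ) : (conj (scnds x)).Holds y ↔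
    (∀ u < x.1.length, ∀ v < x.1.length, v ≠ u → (neF u v).Holds y) ∧
    (∀ u < x.1.length, ∀ v ∈ x.1.getD u [], ∀ w < x.1.length, (segF u v w).Holds y) ∧
    (∀ j < nD x, (nzvF (x.1.length + j)).Holds y) ∧
    (∀ u < x.1.length, ∀ v ∈ x.1.getD u [], ∃ j < nD x,
      (parF u v (x.1.length + j)).Holds y) := by
  have key : ∀ {p : List ℕ × ℕ}, p ∈ x.1.zipIdx ↔ p.2 < x.1.length ∧ p.1 = x.1.getD p.2 [] := by
    intro p
    rw [List.mem_zipIdx_iff_getElem?]
    constructor
    · intro h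
      obtain ⟨h1, h2⟩ := List.getElem?_eq_some_iff.1 h
      exact ⟨h1, by rw [List.getD_eq_getElem _ _ h1, h2]⟩
    · rintro ⟨h1, h2⟩
      rw [List.getElem?_eq_getElem h1, h2, List.getD_eq_getElem _ _ h1]
  rw [holds_conj]
  unfold scnds
  simp only [List.mem_append, List.mem_map, List.mem_range, List.mem_flatMap, List.mem_filter,
    Bool.not_eq_true', decide_eq_false_iff_not]
  constructor
  · intro h
    refine ⟨fun u hu v hv huv => h _ (Or.inl (Or.inl ⟨u, hu, v, ⟨hv, huv⟩, rfl⟩)),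
      fun u hu v hv w hw => h _ (Or.inl (Or.inr ⟨(x.1.getD u [], u), key.2 ⟨hu, rfl⟩, v, hv, w, hw,
        rfl⟩)), fun j hj => h _ (Or.inr (Or.inl ⟨j, hj, rfl⟩)), fun u hu v hv => ?_⟩
    have h1 := h _ (Or.inr (Or.inr ⟨(x.1.getD u [], u), key.2 ⟨hu, rfl⟩, v, hv, rfl⟩))
    rw [holds_disj] at h1
    obtain ⟨φ, hφ, h2⟩ := h1
    simp only [List.mem_map, List.mem_range] at hφ
    obtain ⟨j, hj, rfl⟩ := hφ
    exact ⟨j, hj, h2⟩
  · rintro ⟨h1, h2, h3, h4⟩ φ ((⟨u, hu, v, ⟨hv, huv⟩, rfl⟩ | ⟨⟨l, u⟩, hp, v, hv, w, hw, rfl⟩) |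
      (⟨j, hj, rfl⟩ | ⟨⟨l, u⟩, hp, v, hv, rfl⟩))
    · exact h1 u hu v hv huv
    · obtain ⟨hu, hl⟩ := key.1 hp
      simp only at hu hl
      subst hl
      exact h2 u hu v hv w hw
    · exact h3 j hj
    · obtain ⟨hu, hl⟩ := key.1 hp
      simp only at hu hl
      subst hl
      obtain ⟨j, hj, h5⟩ := h4 u hu v hv
      rw [holds_disj]
      exact ⟨_, List.mem_map.2 ⟨j, List.mem_range.2 hj, rfl⟩, h5⟩

theorem slopes_finite {n : ℕ} (G : SimpleGraph (Fin n)) (p : Fin n → ℝ × ℝ) :
    (slopes G p).Finite ∧ (slopes G p).ncard ≤ n * n := by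
  classical
  have hsub : slopes G p ⊆ ((Finset.univ : Finset (Fin n × Fin n)).image
      fun x => slope (p x.1) (p x.2) : Finset (WithTop ℝ)) := by
    rintro _ ⟨u, v, -, rfl⟩
    simp only [Finset.coe_image, Finset.coe_univ, Set.image_univ, Set.mem_range]
    exact ⟨(u, v), rfl⟩
  refine ⟨(Finset.finite_toSet _).subset hsub, ?_⟩
  calc _ ≤ ((Finset.univ : Finset (Fin n × Fin n)).image
      fun x => slope (p x.1) (p x.2) : Finset (WithTop ℝ)).card := by
        rw [← Set.ncard_coe_finset]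
        exact Set.ncard_le_ncard hsub (Finset.finite_toSet _)
    _ ≤ (Finset.univ : Finset (Fin n × Fin n)).card := Finset.card_image_le
    _ = n * n := by simp

theorem vec_ne (s : WithTop ℝ) : Sl.vec s ≠ 0 := by
  unfold Sl.vec
  split_ifs
  · intro h; simpa using congrArg Prod.snd h
  · intro h; simpa using congrArg Prod.fst h

theorem slopeF_correct (x : List (List ℕ) × ℕ) :
    (∃ h : IsGraph x.1, slopeNumber (graphOf x.1 h) ≤ x.2) ↔ ETR (slopeF x) := by
  classical
  unfold slopeF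
  by_cases hc : chk x.1 = true
  swap
  · rw [if_neg hc]
    constructor
    · rintro ⟨h, -⟩
      exact absurd ((chk_iff x.1).2 h) hc
    · intro h
      exact absurd h not_etr_ff
  rw [if_pos hc]
  have hG := (chk_iff x.1).1 hc
  constructor
  · rintro ⟨h, hs⟩
    obtain ⟨p, hp, hk⟩ := (slope_le h _).1 hs
    obtain ⟨hfin, hnn⟩ := slopes_finite (graphOf x.1 h) p
    have hle : hfin.toFinset.card ≤ nD x := by
      rw [← Set.ncard_eq_toFinset_card _ hfin]
      exact le_min hk hnn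
    have hinf : Infinite (WithTop ℝ) := Infinite.of_injective _ WithTop.coe_injective
    obtain ⟨T, hT1, hT2⟩ := Infinite.exists_superset_card_eq hfin.toFinset (nD x) hle
    let em := T.orderEmbOfFin hT2
    let pt : ℕ → ℝ × ℝ := fun v => if hv : v < x.1.length then p ⟨v, hv⟩ else
      if hj : v - x.1.length < nD x then Sl.vec (em ⟨v - x.1.length, hj⟩) else 0
    let y : ℕ → ℝ := fun i => if i % 2 = 0 then (pt (i / 2)).1 else (pt (i / 2)).2
    have hy : ∀ v, ptOf y v = pt v := by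
      intro v
      simp only [ptOf, y]
      rw [if_pos (by omega), if_neg (by omega), show 2 * v / 2 = v by omega,
        show (2 * v + 1) / 2 = v by omega]
    have hpt : ∀ {v : ℕ} (hv : v < x.1.length), pt v = p ⟨v, hv⟩ := by
      intro v hv
      simp only [pt]
      rw [dif_pos hv]
    have hpd : ∀ {j : ℕ} (hj : j < nD x), pt (x.1.length + j) = Sl.vec (em ⟨j, hj⟩) := by
      intro j hj
      simp only [pt]
      rw [dif_neg (by omega)]
      simp only [Nat.add_sub_cancel_left]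
      rw [dif_pos hj]
    have hinj : ∀ {u v : ℕ}, u < x.1.length → v < x.1.length → v ≠ u → ptOf y u ≠ ptOf y v := by
      intro u v hu hv huv he
      rw [hy, hy, hpt hu, hpt hv] at he
      have := hp.inj he
      simp only [Fin.mk.injEq] at this
      exact huv this.symm
    refine ⟨y, (holds_scnds _ _).2 ⟨fun u hu v hv huv => (holds_neF _ _ _).2 (hinj hu hv huv),
      fun u hu v hv w hw => ?_, fun j hj => ?_, fun u hu v hv => ?_⟩⟩
    · have hv' := hG u v hu hv
      rw [holds_segF _ _ _ _ (hinj hu hv'.1 hv'.2.1), hy, hy, hy, hpt hu, hpt hv'.1, hpt hw]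
      exact hp.edge ⟨u, hu⟩ ⟨v, hv'.1⟩ ⟨w, hw⟩ hv
    · rw [holds_nzvF, hy, hpd hj]
      exact vec_ne _
    · have hv' := hG u v hu hv
      have hne : p ⟨u, hu⟩ ≠ p ⟨v, hv'.1⟩ := by
        intro he
        have := hp.inj he
        simp only [Fin.mk.injEq] at this
        exact hv'.2.1 this.symm
      obtain ⟨r, hr, h1⟩ := vec_slope hne
      have h2 : slope (p ⟨u, hu⟩) (p ⟨v, hv'.1⟩) ∈ T := hT1 (by
        rw [Set.Finite.mem_toFinset]
        exact ⟨⟨u, hu⟩, ⟨v, hv'.1⟩, hv, rfl⟩)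
      have h3 : slope (p ⟨u, hu⟩) (p ⟨v, hv'.1⟩) ∈ Set.range em := by
        rw [Finset.range_orderEmbOfFin]
        exact h2
      obtain ⟨⟨j, hj⟩, h4⟩ := h3
      refine ⟨j, hj, ?_⟩
      rw [holds_parF, hy, hy, hy, hpt hu, hpt hv'.1, hpd hj, h1, h4, cr_smul_left, cr_self,
        mul_zero]
  · rintro ⟨y, hy⟩
    obtain ⟨h1, h2, h3, h4⟩ := (holds_scnds _ _).1 hy
    refine ⟨hG, (slope_le hG _).2 ⟨fun v => ptOf y v.1, ⟨?_, ?_⟩, ?_⟩⟩
    · intro u v huv
      by_contra hne
      exact (holds_neF _ _ _).1 (h1 u.1 u.2 v.1 v.2 fun e => hne (Fin.ext e.symm)) huv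
    · intro u v w huv
      have hv' := hG u.1 v.1 u.2 huv
      exact (holds_segF _ _ _ _ ((holds_neF _ _ _).1 (h1 u.1 u.2 v.1 v.2 hv'.2.1))).1
        (h2 u.1 u.2 v.1 huv w.1 w.2)
    · have hsub : slopes (graphOf x.1 hG) (fun v => ptOf y v.1) ⊆
          ((Finset.range (nD x)).image fun j => slope 0 (ptOf y (x.1.length + j)) :
            Finset (WithTop ℝ)) := by
        rintro _ ⟨u, v, huv, rfl⟩
        have hv' := hG u.1 v.1 u.2 huv
        obtain ⟨j, hj, h5⟩ := h4 u.1 u.2 v.1 huv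
        rw [holds_parF] at h5
        have hne := (holds_neF _ _ _).1 (h1 u.1 u.2 v.1 v.2 hv'.2.1)
        have hd := (holds_nzvF _ _).1 (h3 j hj)
        obtain ⟨r, hr⟩ := par_of_cr hd (by rw [cr_comm, h5, neg_zero] :
          cr (ptOf y (x.1.length + j)) (ptOf y v.1 - ptOf y u.1) = 0)
        have hr0 : r ≠ 0 := by
          rintro rfl
          rw [zero_smul, sub_eq_zero] at hr
          exact hne hr.symm
        simp only [Finset.coe_image, Set.mem_image, Finset.coe_range, Set.mem_Iio]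
        exact ⟨j, hj, (slope_smul hr0 hr).symm⟩
      calc _ ≤ ((Finset.range (nD x)).image fun j => slope 0 (ptOf y (x.1.length + j)) :
            Finset (WithTop ℝ)).card := by
            rw [← Set.ncard_coe_finset]
            exact Set.ncard_le_ncard hsub (Finset.finite_toSet _)
        _ ≤ (Finset.range (nD x)).card := Finset.card_image_le
        _ = nD x := Finset.card_range _
        _ ≤ x.2 := min_le_left _ _

/-! ### Polynomial time -/

section

variable {α : Type} [TEnc α]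

theorem poly_dT {u v : α → ℕ} (i : ℕ) (hu : Poly u) (hv : Poly v) :
    Poly (fun a => dT i (u a) (v a)) :=
  poly_tadd (poly_tvar (Poly.add (Poly.mul (Poly.const 2) hv) (Poly.const i)))
    (poly_tneg (poly_tvar (Poly.add (Poly.mul (Poly.const 2) hu) (Poly.const i))))

theorem poly_neF {u v : α → ℕ} (hu : Poly u) (hv : Poly v) : Poly (fun a => neF (u a) (v a)) :=
  poly_not (poly_and (poly_eq (poly_dT 0 hu hv) (Poly.const _))
    (poly_eq (poly_dT 1 hu hv) (Poly.const _)))

theorem poly_segF {u v w : α → ℕ} (hu : Poly u) (hv : Poly v) (hw : Poly w) :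
    Poly (fun a => segF (u a) (v a) (w a)) :=
  poly_not (poly_and (poly_eq (poly_tmul (poly_dT 0 hu hv) (poly_dT 1 hu hw))
    (poly_tmul (poly_dT 1 hu hv) (poly_dT 0 hu hw))) (poly_lt (Poly.const _)
      (poly_tadd (poly_tmul (poly_dT 0 hu hw) (poly_dT 0 hw hv))
        (poly_tmul (poly_dT 1 hu hw) (poly_dT 1 hw hv)))))

theorem poly_nzvF {j : α → ℕ} (hj : Poly j) : Poly (fun a => nzvF (j a)) :=
  poly_not (poly_and (poly_eq (poly_tvar (Poly.mul (Poly.const 2) hj)) (Poly.const _))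
    (poly_eq (poly_tvar (Poly.add (Poly.mul (Poly.const 2) hj) (Poly.const 1))) (Poly.const _)))

theorem poly_parF {u v j : α → ℕ} (hu : Poly u) (hv : Poly v) (hj : Poly j) :
    Poly (fun a => parF (u a) (v a) (j a)) :=
  poly_eq (poly_tmul (poly_dT 0 hu hv)
      (poly_tvar (Poly.add (Poly.mul (Poly.const 2) hj) (Poly.const 1))))
    (poly_tmul (poly_dT 1 hu hv) (poly_tvar (Poly.mul (Poly.const 2) hj)))

end

theorem upoly_nD : UPoly nD :=
  UPoly.of_le (Poly.min (Poly.snd Poly.id) (Poly.mul (Poly.length (Poly.fst Poly.id))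
    (Poly.length (Poly.fst Poly.id)))) (UPoly.mul (UPoly.length (Poly.fst Poly.id))
      (UPoly.length (Poly.fst Poly.id))) fun _ => min_le_right _ _

theorem poly_scnds : Poly scnds := by
  unfold scnds
  have hr : Poly (fun x : List (List ℕ) × ℕ => List.range x.1.length) :=
    Poly.range_length (Poly.fst Poly.id)
  refine Poly.append (Poly.append ?_ ?_) (Poly.append ?_ ?_)
  · refine Poly.flatMap (F := fun (x : List (List ℕ) × ℕ) u =>
      ((List.range x.1.length).filter fun v => !decide (v = u)).map fun v => neF u v) hr ?_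
    refine Poly.map (l := fun q : (List (List ℕ) × ℕ) × ℕ =>
      (List.range q.1.1.length).filter fun v => !decide (v = q.2))
      (F := fun q v => neF q.2 v) ?_ (poly_neF (Poly.snd (Poly.fst Poly.id)) (Poly.snd Poly.id))
    exact Poly.filter (l := fun q : (List (List ℕ) × ℕ) × ℕ => List.range q.1.1.length)
      (p := fun q v => !decide (v = q.2)) (Poly.range_length (Poly.fst (Poly.fst Poly.id)))
      (Poly.not (Poly.decide_eq (Poly.snd Poly.id) (Poly.snd (Poly.fst Poly.id))))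
  · refine Poly.flatMap (F := fun (x : List (List ℕ) × ℕ) (p : List ℕ × ℕ) =>
      p.1.flatMap fun v => (List.range x.1.length).map fun w => segF p.2 v w)
      (Poly.zipIdx (Poly.fst Poly.id)) ?_
    refine Poly.flatMap (l := fun q : (List (List ℕ) × ℕ) × (List ℕ × ℕ) => q.2.1)
      (F := fun q v => (List.range q.1.1.length).map fun w => segF q.2.2 v w)
      (Poly.fst (Poly.snd Poly.id)) ?_
    refine Poly.map (l := fun q : ((List (List ℕ) × ℕ) × (List ℕ × ℕ)) × ℕ =>
      List.range q.1.1.1.length) (F := fun q w => segF q.1.2.2 q.2 w)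
      (Poly.range_length (Poly.fst (Poly.fst (Poly.fst Poly.id)))) ?_
    exact poly_segF (Poly.snd (Poly.snd (Poly.fst (Poly.fst Poly.id))))
      (Poly.snd (Poly.fst Poly.id)) (Poly.snd Poly.id)
  · refine Poly.map (F := fun (x : List (List ℕ) × ℕ) j => nzvF (x.1.length + j))
      upoly_nD.range ?_
    exact poly_nzvF (Poly.add (Poly.length (Poly.fst (Poly.fst Poly.id))) (Poly.snd Poly.id))
  · refine Poly.flatMap (F := fun (x : List (List ℕ) × ℕ) (p : List ℕ × ℕ) =>
      p.1.map fun v => disj ((List.range (nD x)).map fun j => parF p.2 v (x.1.length + j)))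
      (Poly.zipIdx (Poly.fst Poly.id)) ?_
    refine Poly.map (l := fun q : (List (List ℕ) × ℕ) × (List ℕ × ℕ) => q.2.1)
      (F := fun q v => disj ((List.range (nD q.1)).map fun j =>
        parF q.2.2 v (q.1.1.length + j)))
      (Poly.fst (Poly.snd Poly.id)) (poly_disj ?_)
    refine Poly.map (l := fun q : ((List (List ℕ) × ℕ) × (List ℕ × ℕ)) × ℕ =>
      List.range (nD q.1.1)) (F := fun q j => parF q.1.2.2 q.2 (q.1.1.1.length + j))
      (upoly_nD.range.comp (Poly.fst (Poly.fst Poly.id))) ?_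
    exact poly_parF (Poly.snd (Poly.snd (Poly.fst (Poly.fst Poly.id))))
      (Poly.snd (Poly.fst Poly.id))
      (Poly.add (Poly.length (Poly.fst (Poly.fst (Poly.fst (Poly.fst Poly.id))))) (Poly.snd Poly.id))

theorem poly_slopeF : Poly slopeF :=
  Poly.ite (p := fun x : List (List ℕ) × ℕ => chk x.1 = true)
    (Poly.decide_bool (poly_chk.comp (Poly.fst Poly.id))) (poly_conj poly_scnds) (Poly.const _)

theorem slope_mem : InER SLOPENUMBER := InER.of_poly poly_slopeF slopeF_correct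

end Pool.Agent.NPC.H670R2
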