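import Pool.Agent.H670R2.SlComp3

/-!
Drawings of the graph given by adjacency lists.
-/

namespace Pool.Agent.H670R2.Sl

variable {k : ℕ}

theorem slope_le {L : List (List ℕ)} (h : IsGraph L) (k : ℕ) :
    slopeNumber (graphOf L h) ≤ k ↔ ∃ p : Fin L.length → ℝ × ℝ, IsDrawing (graphOf L h) p ∧
      (slopes (graphOf L h) p).ncard ≤ k := by
  constructor
  · intro hk
    have hne : {m | ∃ p : Fin L.length → ℝ × ℝ, IsDrawing (graphOf L h) p ∧
        (slopes (graphOf L h) p).ncard = m}.Nonempty := by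
      refine ⟨_, fun i => ((i.1 : ℝ), (i.1 : ℝ) ^ 2), ⟨?_, ?_⟩, rfl⟩
      · intro i j hij
        simp only [Prod.mk.injEq, Nat.cast_inj] at hij
        exact Fin.ext hij.1
      · rintro u v w huv ⟨a, b, ha, hb, hab, hw⟩
        have h1 := congrArg Prod.fst hw
        have h2 := congrArg Prod.snd hw
        simp only [Prod.fst_add, Prod.smul_fst, smul_eq_mul, Prod.snd_add, Prod.smul_snd] at h1 h2
        have h3 : a * b * ((u.1 : ℝ) - v.1) ^ 2 = 0 := by
          have ha' : a = 1 - b := by linarith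
          subst ha'
          rw [← h1] at h2
          linear_combination h2
        have h4 : (u.1 : ℝ) - v.1 = 0 := by
          rcases mul_eq_zero.1 h3 with h4 | h4
          · exact absurd h4 (mul_pos ha hb).ne'
          · exact pow_eq_zero_iff (two_ne_zero) |>.1 h4
        have h5 : u = v := Fin.ext (by exact_mod_cast sub_eq_zero.1 h4)
        exact (graphOf L h).ne_of_adj huv h5
    obtain ⟨p, hp, hs⟩ := Nat.sInf_mem hne
    exact ⟨p, hp, by rw [hs]; exact hk⟩
  · rintro ⟨p, hp, hk⟩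
    have h1 : slopeNumber (graphOf L h) ≤ (slopes (graphOf L h) p).ncard :=
      Nat.sInf_le ⟨p, hp, rfl⟩
    exact h1.trans hk

theorem slope_smul {a b v : ℝ × ℝ} {r : ℝ} (hr : r ≠ 0) (h : b - a = r • v) :
    slope a b = slope 0 v := by
  have h1 : b.1 - a.1 = r * v.1 := by
    have := congrArg Prod.fst h
    simpa using this
  have h2 : b.2 - a.2 = r * v.2 := by
    have := congrArg Prod.snd h
    simpa using this
  unfold slope
  by_cases hv : v.1 = 0
  · rw [if_pos, if_pos]
    · exact hv.symm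
    · rw [hv, mul_zero] at h1; linarith
  · rw [if_neg, if_neg]
    · congr 1
      rw [h1, h2]
      simp only [Prod.fst_zero, Prod.snd_zero, sub_zero]
      rw [mul_div_mul_left _ _ hr]
    · simpa using fun h => hv h.symm
    · intro he
      rw [he, sub_self] at h1
      rcases mul_eq_zero.1 h1.symm with h3 | h3
      · exact hr h3
      · exact hv h3

/-- every direction is, up to sign, one of the first `k` -/
theorem dir_lt (hk : 0 < k) (z : ZMod (2 * k)) : ∃ i : ℕ, i < k ∧ (z = i ∨ z = i + k) := by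
  have : NeZero (2 * k) := ⟨by omega⟩
  have h := ZMod.val_lt z
  by_cases hz : z.val < k
  · exact ⟨z.val, hz, Or.inl (ZMod.natCast_zmod_val z).symm⟩
  · refine ⟨z.val - k, by omega, Or.inr ?_⟩
    rw [Nat.cast_sub (by omega), ZMod.natCast_zmod_val]; ring

theorem Dr.slope {V : Type} {d : DS k} (hk : 0 < k) {p : V → ℝ × ℝ} {u v : V} {z : ZMod (2 * k)}
    (h : Dr d p u v z) : ∃ i : ℕ, i < k ∧ H670R2.slope (p u) (p v) = H670R2.slope 0 (d.e i) := by
  obtain ⟨r, hr, h⟩ := h
  obtain ⟨i, hi, rfl | rfl⟩ := dir_lt hk z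
  · exact ⟨i, hi, slope_smul hr.ne' h⟩
  · refine ⟨i, hi, slope_smul (r := -r) (by linarith [hr] |> fun h : -r < 0 => h.ne) ?_⟩
    rw [h, d.per, smul_neg, neg_smul]

theorem mem_gr (hk : 8 ≤ k) {ms : List ℕ} {a b : ℕ} (ha : a < (gr k ms).length) :
    b ∈ (gr k ms).getD a [] ↔ ∃ u v, adjV k ms u v ∧ code ms.length k u = a ∧
      code ms.length k v = b := by
  have hlen : (gr k ms).length = nV k ms.length := adjLists_length _ _
  rw [hlen] at ha
  rw [gr, mem_adjLists ha, mem_eAll 0, mem_eAll 0]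
  constructor
  · rintro ⟨-, ⟨u, v, h, e⟩ | ⟨u, v, h, e⟩⟩
    · simp only [Prod.mk.injEq] at e
      exact ⟨u, v, Or.inl h, e.1.symm, e.2.symm⟩
    · simp only [Prod.mk.injEq] at e
      exact ⟨v, u, Or.inr h, e.2.symm, e.1.symm⟩
  · rintro ⟨u, v, h | h, rfl, rfl⟩
    · exact ⟨code_lt' (Ed.val hk h).2.1, Or.inl ⟨u, v, h, rfl⟩⟩
    · exact ⟨code_lt' (Ed.val hk h).1, Or.inr ⟨v, u, h, rfl⟩⟩

theorem drawing_of_quad (hk : 8 ≤ k) (hke : Even k) {ms : List ℕ} (h6 : 6 ∣ ms.length) {d : DS k}
    {P : ℕ → ℕ → ℝ × ℝ} (hP : QuadG k ms d P) (h : IsGraph (gr k ms)) :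
    slopeNumber (graphOf _ h) ≤ k := by
  classical
  rw [slope_le]
  obtain ⟨p, h1, h2, h3⟩ := complete hk hke h6 hP
  have hlen : (gr k ms).length = nV k ms.length := adjLists_length _ _
  have hdec : ∀ c : Fin (gr k ms).length, ∃ v : Vx, v.val k ms.length ∧
      code ms.length k v = c.1 := fun c => code_surj' (by omega) (by rw [← hlen]; exact c.2)
  choose dec hdv hdc using hdec
  have hadj : ∀ u v : Fin (gr k ms).length, (graphOf _ h).Adj u v → adjV k ms (dec u) (dec v) := by
    intro u v huv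
    obtain ⟨a, b, hab, ha, hb⟩ := (mem_gr hk u.2).1 huv
    have hval : a.val k ms.length ∧ b.val k ms.length := by
      rcases hab with h | h
      · exact ⟨(h.val hk).1, (h.val hk).2.1⟩
      · exact ⟨(h.val hk).2.1, (h.val hk).1⟩
    rw [← code_inj' hval.1 (hdv u) (by rw [ha, hdc]), ← code_inj' hval.2 (hdv v) (by rw [hb, hdc])]
    exact hab
  refine ⟨fun c => p (dec c), ⟨?_, ?_⟩, ?_⟩
  · intro u v huv
    have := h1 _ _ (hdv u) (hdv v) huv
    exact Fin.ext (by rw [← hdc u, ← hdc v, this])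
  · intro u v w huv
    rcases hadj u v huv with h | h
    · exact h2 _ _ _ h (hdv w)
    · rw [openSegment_symm]
      exact h2 _ _ _ h (hdv w)
  · have hsub : slopes (graphOf _ h) (fun c => p (dec c)) ⊆
        ((Finset.range k).image fun i : ℕ => slope 0 (d.e i) : Finset (WithTop ℝ)) := by
      rintro _ ⟨u, v, huv, rfl⟩
      have : ∃ z, Dr d p (dec u) (dec v) z := by
        rcases hadj u v huv with h | h
        · exact h3 _ _ h
        · obtain ⟨z, hz⟩ := h3 _ _ h
          exact ⟨_, hz.symm⟩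
      obtain ⟨z, hz⟩ := this
      obtain ⟨i, hi, h4⟩ := hz.slope (by omega)
      simp only [Finset.coe_image, Set.mem_image, Finset.coe_range, Set.mem_Iio]
      exact ⟨i, hi, h4.symm⟩
    calc _ ≤ ((Finset.range k).image fun i : ℕ => slope 0 (d.e i) : Finset (WithTop ℝ)).card := by
          rw [← Set.ncard_coe_finset]
          exact Set.ncard_le_ncard hsub (Finset.finite_toSet _)
      _ ≤ (Finset.range k).card := Finset.card_image_le
      _ = k := Finset.card_range k

/-- a system of directions from a sequence of vectors -/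
theorem exists_DS (hk : 1 ≤ k) (v : ℕ → ℝ × ℝ) (hv : ∀ i j, i < j → j < k → 0 < cr (v i) (v j)) :
    ∃ d : DS k, ∀ i < k, d.e (i : ℕ) = v i := by
  have : NeZero (2 * k) := ⟨by omega⟩
  let e : ZMod (2 * k) → ℝ × ℝ := fun z => if z.val < k then v z.val else - v (z.val - k)
  have he : ∀ n : ℕ, n < 2 * k → e (n : ℕ) = if n < k then v n else - v (n - k) := by
    intro n hn
    simp only [e, ZMod.val_natCast_of_lt hn]
  have hrep : ∀ z : ZMod (2 * k), ∃ n : ℕ, n < 2 * k ∧ z = n := fun z =>
    ⟨z.val, ZMod.val_lt z, (ZMod.natCast_zmod_val z).symm⟩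
  have hper : ∀ z, e (z + k) = - e z := by
    intro z
    obtain ⟨n, hn, rfl⟩ := hrep z
    rw [he n hn]
    by_cases h : n < k
    · have := he (n + k) (by omega)
      push_cast at this
      rw [this, if_pos h, if_neg (by omega), Nat.add_sub_cancel]
    · have h2 : (n : ZMod (2 * k)) + k = ((n - k : ℕ) : ZMod (2 * k)) := by
        rw [Nat.cast_sub (by omega)]
        linear_combination kk k
      rw [h2, he (n - k) (by omega), if_neg h, if_pos (by omega), neg_neg]
  have hpos1 : ∀ i n : ℕ, i < k → 0 < n → n < k → 0 < cr (e (i : ℕ)) (e ((i : ℕ) + n)) := by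
    intro i n hi hn hnk
    have h1 := he (i + n) (by omega)
    push_cast at h1
    rw [h1, he i (by omega), if_pos hi]
    split_ifs with h
    · exact hv _ _ (by omega) h
    · rw [cr_neg_right, ← cr_comm]
      exact hv _ _ (by omega) hi
  refine ⟨⟨e, hper, ?_⟩, ?_⟩
  · intro z n hn hnk
    obtain ⟨i, hi, rfl | rfl⟩ := dir_lt (by omega) z
    · exact hpos1 i n hi hn hnk
    · have : ((i : ℕ) : ZMod (2 * k)) + k + n = i + n + k := by ring
      rw [this, hper, hper, cr_neg_left, cr_neg_right, neg_neg]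
      exact hpos1 i n hi hn hnk
  · intro i hi
    change e (i : ℕ) = v i
    rw [he i (by omega), if_pos hi]

/-- the vector of a slope -/
noncomputable def vec (s : WithTop ℝ) : ℝ × ℝ := if s = ⊤ then (0, 1) else (1, s.untopD 0)

theorem cr_vec {s t : WithTop ℝ} (h : s < t) : 0 < cr (vec s) (vec t) := by
  have hs : s ≠ ⊤ := ne_top_of_lt h
  obtain ⟨x, rfl⟩ := WithTop.ne_top_iff_exists.1 hs
  by_cases ht : t = ⊤
  · subst ht
    simp [vec, cr]
  · obtain ⟨y, rfl⟩ := WithTop.ne_top_iff_exists.1 ht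
    have : x < y := by exact_mod_cast h
    simp only [vec, cr, WithTop.coe_ne_top, if_false, WithTop.untopD_coe]
    linarith

theorem vec_slope {a b : ℝ × ℝ} (h : a ≠ b) : ∃ r : ℝ, r ≠ 0 ∧ b - a = r • vec (slope a b) := by
  unfold slope
  split_ifs with h1
  · refine ⟨b.2 - a.2, ?_, ?_⟩
    · intro h2
      exact h (Prod.ext h1 (by linarith))
    · simp only [vec, if_true]
      ext
      · simp [h1]
      · simp
  · have h2 : b.1 - a.1 ≠ 0 := fun h2 => h1 (by linarith)
    refine ⟨b.1 - a.1, h2, ?_⟩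
    simp only [vec, WithTop.coe_ne_top, if_false, WithTop.untopD_coe]
    ext
    · simp
    · simp only [Prod.snd_sub, Prod.smul_snd, smul_eq_mul]
      field_simp

theorem drawn_of_drawing (hk : 8 ≤ k) {ms : List ℕ} (h : IsGraph (gr k ms))
    (p : Fin (gr k ms).length → ℝ × ℝ) (hp : IsDrawing (graphOf _ h) p)
    (hs : (slopes (graphOf _ h) p).ncard ≤ k) :
    ∃ (d : DS k) (q : Vx → ℝ × ℝ), Drawn d (adjV k ms) q ∧
      ∀ s i, blk k ms.length s i → q (.H s i 0) ≠ q (.H s i 1) := by
  classical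
  have hlen : (gr k ms).length = nV k ms.length := adjLists_length _ _
  have hfin : (slopes (graphOf _ h) p).Finite := by
    refine (Set.finite_range (fun x : Fin (gr k ms).length × Fin (gr k ms).length =>
      slope (p x.1) (p x.2))).subset ?_
    rintro _ ⟨u, v, -, rfl⟩
    exact ⟨(u, v), rfl⟩
  have hinf : Infinite (WithTop ℝ) := Infinite.of_injective _ WithTop.coe_injective
  obtain ⟨T, hT1, hT2⟩ := Infinite.exists_superset_card_eq hfin.toFinset k (by
    rw [← Set.ncard_eq_toFinset_card _ hfin]; exact hs)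
  let em := T.orderEmbOfFin hT2
  obtain ⟨d, hd⟩ := exists_DS (k := k) (by omega)
    (fun i => if hi : i < k then vec (em ⟨i, hi⟩) else 0) (by
      intro i j hij hj
      rw [dif_pos hj, dif_pos (show i < k by omega)]
      refine cr_vec ?_
      rw [em.lt_iff_lt]
      exact hij)
  have hdir : ∀ u v, (graphOf _ h).Adj u v → ∃ z, Dr d p u v z := by
    intro u v huv
    have hne : p u ≠ p v := fun he => (graphOf _ h).ne_of_adj huv (hp.inj he)
    obtain ⟨r, hr, h1⟩ := vec_slope hne
    have h2 : slope (p u) (p v) ∈ T := hT1 (by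
      rw [Set.Finite.mem_toFinset]
      exact ⟨u, v, huv, rfl⟩)
    have h3 : slope (p u) (p v) ∈ Set.range em := by
      rw [Finset.range_orderEmbOfFin]
      exact h2
    obtain ⟨⟨i, hi⟩, h4⟩ := h3
    have h5 : d.e (i : ℕ) = vec (slope (p u) (p v)) := by
      rw [hd i hi, dif_pos hi, h4]
    rcases lt_or_gt_of_ne hr with hr | hr
    · refine ⟨i + k, -r, by linarith, ?_⟩
      rw [d.per, h5, h1, smul_neg, neg_smul, neg_neg]
    · exact ⟨i, r, hr, by rw [h5, h1]⟩
  have hcl : ∀ {v : Vx}, v.val k ms.length → code ms.length k v < (gr k ms).length := by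
    intro v hv
    rw [hlen]
    exact code_lt' hv
  let q : Vx → ℝ × ℝ := fun v => if hc : code ms.length k v < (gr k ms).length then
    p ⟨code ms.length k v, hc⟩ else 0
  have hq : ∀ {v : Vx} (hv : v.val k ms.length), q v = p ⟨code ms.length k v, hcl hv⟩ := by
    intro v hv
    simp only [q]
    rw [dif_pos (hcl hv)]
  have hval : ∀ {u v : Vx}, adjV k ms u v → u.val k ms.length ∧ v.val k ms.length := by
    intro u v h
    rcases h with h | h
    · exact ⟨(h.val hk).1, (h.val hk).2.1⟩
    · exact ⟨(h.val hk).2.1, (h.val hk).1⟩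
  have hadj : ∀ {u v : Vx} (h' : adjV k ms u v), (graphOf _ h).Adj
      ⟨code ms.length k u, hcl (hval h').1⟩ ⟨code ms.length k v, hcl (hval h').2⟩ := by
    intro u v h'
    exact (mem_gr hk (hcl (hval h').1)).2 ⟨u, v, h', rfl, rfl⟩
  refine ⟨d, q, ⟨?_, ?_, ?_, ?_⟩, ?_⟩
  · intro u v h
    exact h.symm
  · intro u v huv
    obtain ⟨z, r, hr, h1⟩ := hdir _ _ (hadj huv)
    exact ⟨z, r, hr, by rw [hq (hval huv).1, hq (hval huv).2, h1]⟩
  · intro u v w x huv hwx
    rw [hq (hval huv).1, hq (hval huv).2, hq (hval hwx).1]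
    exact hp.edge _ _ _ (hadj huv)
  · intro u v w huv huw he
    rw [hq (hval huv).2, hq (hval huw).2] at he
    have := hp.inj he
    exact code_inj' (hval huv).2 (hval huw).2 (by simpa using this)
  · intro s i hb he
    have hva : (Vx.H s i 0).val k ms.length := ⟨hb.1, hb.2.1, by omega⟩
    have hvb : (Vx.H s i 1).val k ms.length := ⟨hb.1, hb.2.1, by omega⟩
    rw [hq hva, hq hvb] at he
    have := code_inj' hva hvb (by simpa using hp.inj he)
    simp at this

end Pool.Agent.H670R2.Sl
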