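import Pool.Agent.H670R2.SlTok

/-!
A first placement of the hubs with the prescribed directions.
-/

namespace Pool.Agent.H670R2.Sl

variable {k : ℕ}

/-- the index of the hinge `(s, i)` -/
def yy (k s i : ℕ) : ZMod (2 * k) := xs k s + i + (if i = 0 ∨ i = 2 then (k : ZMod (2 * k)) else 0)

/-- the placements with prescribed directions -/
def LL (k : ℕ) (ms : List ℕ) (w : ℕ → ZMod (2 * k)) (d : DS k) (p : Vx → ℝ × ℝ) : Prop :=
  ∀ u v z, Leg k ms w u v z → cr (p v - p u) (d.e z) = 0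

/-- the positions of the first hubs of the hinges with index at least `4` -/
noncomputable def hub (d : DS k) (Q : ℕ → ℝ × ℝ) (s i : ℕ) : ℝ × ℝ :=
  Q s + ∑ j ∈ Finset.range (i - 4), (d.e (xs k s + (j + 3 : ℕ)) +
    (2 : ℝ) • d.e (xs k s + (j + 4 : ℕ)))

theorem hub_four (d : DS k) (Q : ℕ → ℝ × ℝ) (s : ℕ) : hub d Q s 4 = Q s := by simp [hub]

theorem hub_succ (d : DS k) (Q : ℕ → ℝ × ℝ) (s j : ℕ) : hub d Q s (j + 5) = hub d Q s (j + 4) +
    (d.e (xs k s + (j + 3 : ℕ)) + (2 : ℝ) • d.e (xs k s + (j + 4 : ℕ))) := by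
  unfold hub
  rw [show j + 5 - 4 = j + 1 by omega, show j + 4 - 4 = j by omega, Finset.sum_range_succ]
  abel

/-- the vector that is to be the sum of the first two sides of a chain -/
noncomputable def vv (d : DS k) (Q : ℕ → ℝ × ℝ) (s : ℕ) : ℝ × ℝ :=
  hub d Q (s + 1) k - (Q s + (d.e (xs k s + 3) + d.e (xs k s + 4)) - d.e (xs k (s + 1) + 2))

theorem vv_pos (hk : 8 ≤ k) (d : DS k) {Q : ℕ → ℝ × ℝ}
    (hQ : ∀ s, ∃ l : ℝ, 0 < l ∧ Q (s + 1) - Q s = l • d.e (xs k (s + 1) + 3)) (s : ℕ)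
    {a : ℝ × ℝ} (ha : ∀ n : ℕ, 2 ≤ n → n < k → 0 < cr a (d.e (xs k (s + 1) + n))) :
    0 < cr a (vv d Q s) := by
  obtain ⟨l, hl, h1⟩ := hQ s
  have h2 := ha 2 (by omega) (by omega)
  have h3 := ha 3 (by omega) (by omega)
  push_cast at h2 h3
  have e1 : d.e (xs k s + 3) = - d.e (xs k (s + 1) + 2) := by
    rw [← d.per, xs_succ]
    congr 1
    linear_combination - kk k
  have e2 : d.e (xs k s + 4) = - d.e (xs k (s + 1) + 3) := by
    rw [← d.per, xs_succ]
    congr 1
    linear_combination - kk k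
  have h4 : 0 ≤ cr a (∑ j ∈ Finset.range (k - 4), (d.e (xs k (s + 1) + (j + 3 : ℕ)) +
      (2 : ℝ) • d.e (xs k (s + 1) + (j + 4 : ℕ)))) := by
    refine Finset.sum_induction _ (fun v => 0 ≤ cr a v) ?_ ?_ ?_
    · intro x y hx hy
      rw [cr_add_right]; exact add_nonneg hx hy
    · rw [cr_zero_right]
    · intro j hj
      rw [Finset.mem_range] at hj
      rw [cr_add_right, cr_smul_right]
      have h5 := ha (j + 3) (by omega) (by omega)
      have h6 := ha (j + 4) (by omega) (by omega)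
      linarith
  have e3 : vv d Q s = (Q (s + 1) - Q s) + (∑ j ∈ Finset.range (k - 4),
      (d.e (xs k (s + 1) + (j + 3 : ℕ)) + (2 : ℝ) • d.e (xs k (s + 1) + (j + 4 : ℕ)))) +
      ((2 : ℝ) • d.e (xs k (s + 1) + 2) + d.e (xs k (s + 1) + 3)) := by
    unfold vv hub
    rw [e1, e2, two_smul]
    abel
  rw [e3, h1, cr_add_right, cr_add_right, cr_add_right, cr_smul_right, cr_smul_right]
  have := mul_pos hl h3
  linarith

/-- the first hub -/
noncomputable def h0 (d : DS k) (Q : ℕ → ℝ × ℝ) (s i : ℕ) : ℝ × ℝ :=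
  if i = 0 then hub d Q s k
  else if i = 1 then hub d Q s k + (cr (d.e (xs k s + 1)) (vv d Q (s - 1)) /
    cr (d.e (xs k s)) (d.e (xs k s + 1))) • d.e (xs k s)
  else if i = 2 then Q (s - 1) + (d.e (xs k (s - 1) + 3) + d.e (xs k (s - 1) + 4)) -
    d.e (xs k s + 2)
  else hub d Q s i

/-- the placement -/
noncomputable def plc (d : DS k) (Q : ℕ → ℝ × ℝ) (P : ℕ → ℕ → ℝ × ℝ) (Fp : ℕ → ℝ × ℝ) :
    Vx → ℝ × ℝ
  | .P n i => P n i
  | .F f => Fp f
  | .H s i b => h0 d Q s i + if b = 0 then 0 else d.e (yy k s i - 1) + d.e (yy k s i)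

theorem start_exists (hk : 8 ≤ k) (hke : Even k) {ms : List ℕ} {d : DS k} {P : ℕ → ℕ → ℝ × ℝ}
    (hP : QuadG k ms d P) :
    ∃ (w : ℕ → ZMod (2 * k)) (p : Vx → ℝ × ℝ), (∀ f < ms.length, w f = (ms.getD f 0 : ℕ) ∨
        w f = (ms.getD f 0 : ℕ) + k) ∧
      (∀ n i, p (.P n i) = P n i) ∧ (∀ u v z, Leg k ms w u v z → Dr d p u v z) ∧
      ∀ s i, blk k ms.length s i → 0 < cr (d.e (yy k s i - 1)) (p (.H s i 1) - p (.H s i 0)) ∧
        0 < cr (p (.H s i 1) - p (.H s i 0)) (d.e (yy k s i)) := by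
  have hside : ∀ f, ∃ (w : ZMod (2 * k)) (F : ℝ × ℝ), f < ms.length →
      ((w = (ms.getD f 0 : ℕ) ∨ w = (ms.getD f 0 : ℕ) + k) ∧
        ∃ r : ℝ, 0 < r ∧ P (f / 6) (e2 (f % 6)) - F = r • d.e w ∧
          P (f / 6) (e1 (f % 6)) - F = r • d.e (w + k)) := by
    intro f
    by_cases hf : f < ms.length
    · obtain ⟨r, hr, h1⟩ := hP.side f hf
      have h2 : P (f / 6) (e2 (f % 6)) = P (f / 6) (e1 (f % 6)) +
          r • d.e (ms.getD f 0 : ℕ) := by rw [← h1]; abel
      have h3 : ∀ r : ℝ, P (f / 6) (e1 (f % 6)) +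
          r • d.e (ms.getD f 0 : ℕ) - (P (f / 6) (e1 (f % 6)) + (r / 2) •
          d.e (ms.getD f 0 : ℕ)) = (r / 2) • d.e (ms.getD f 0 : ℕ) := by
        intro r
        have : r • d.e (ms.getD f 0 : ℕ) = (r / 2) • d.e (ms.getD f 0 : ℕ) +
            (r / 2) • d.e (ms.getD f 0 : ℕ) := by
          rw [← add_smul]; congr 1; ring
        rw [this]; abel
      rcases lt_or_gt_of_ne hr with h | h
      · refine ⟨(ms.getD f 0 : ℕ) + k, P (f / 6) (e1 (f % 6)) + (r / 2) •
          d.e (ms.getD f 0 : ℕ), fun _ => ⟨Or.inr rfl, -r / 2, by linarith, ?_, ?_⟩⟩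
        · rw [h2, h3, d.per, smul_neg, ← neg_smul]; congr 1; ring
        · have : ((ms.getD f 0 : ℕ) : ZMod (2 * k)) + k + k = (ms.getD f 0 : ℕ) := by
            linear_combination kk k
          rw [this]
          have e : -r / 2 = -(r / 2) := by ring
          rw [e, neg_smul]; abel
      · refine ⟨(ms.getD f 0 : ℕ), P (f / 6) (e1 (f % 6)) + (r / 2) •
          d.e (ms.getD f 0 : ℕ), fun _ => ⟨Or.inl rfl, r / 2, by linarith, ?_, ?_⟩⟩
        · rw [h2, h3]
        · rw [d.per, smul_neg]; abel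
    · exact ⟨0, 0, fun h => absurd h hf⟩
  choose w Fp hwF using hside
  obtain ⟨Q, hQ1, hQ2⟩ := path_exists hk hke d (fun s => Fp (s / (4 * k) / (2 * k)) +
    d.e (xs k (s + 1) + 5) - d.e (xs k (s + 1) + 3) - (2 : ℝ) • d.e (xs k (s + 1) + 4))
    (nT k ms.length)
  have hyy : ∀ s i, i ≠ 0 → i ≠ 2 → yy k s i = xs k s + i := by
    intro s i h1 h2
    simp [yy, h1, h2]
  have hone : ∀ z, 0 < cr (d.e z) (d.e (z + 1)) := by
    intro z
    simpa using d.pos z 1 (by norm_num) (by omega)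
  have hvv : ∀ s, ∃ l0 l1 : ℝ, 0 < l0 ∧ 0 < l1 ∧
      l0 = cr (d.e (xs k (s + 1) + 1)) (vv d Q s) /
        cr (d.e (xs k (s + 1))) (d.e (xs k (s + 1) + 1)) ∧
      vv d Q s = -(l0 • d.e (xs k (s + 1))) + l1 • d.e (xs k (s + 1) + 1) := by
    intro s
    have h1 : 0 < cr (d.e (xs k (s + 1))) (vv d Q s) :=
      vv_pos hk d hQ1 s fun n hn hn' => d.pos _ n (by omega) hn'
    have h2 : 0 < cr (d.e (xs k (s + 1) + 1)) (vv d Q s) := by
      refine vv_pos hk d hQ1 s fun n hn hn' => ?_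
      have h3 := d.pos (xs k (s + 1) + 1) (n - 1) (by omega) (by omega)
      have h4 : xs k (s + 1) + 1 + ((n - 1 : ℕ) : ZMod (2 * k)) = xs k (s + 1) + n := by
        rw [Nat.cast_sub (by omega)]; push_cast; ring
      rwa [h4] at h3
    refine ⟨_, cr (d.e (xs k (s + 1))) (vv d Q s) /
      cr (d.e (xs k (s + 1))) (d.e (xs k (s + 1) + 1)), div_pos h2 (hone _),
      div_pos h1 (hone _), rfl, ?_⟩
    have h3 := cr_basis (hone (xs k (s + 1))).ne' (vv d Q s)
    conv_lhs => rw [h3]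
    rw [cr_comm (vv d Q s) (d.e (xs k (s + 1) + 1)), neg_div, neg_smul]
  have h04 : ∀ s j, h0 d Q s (j + 4) = hub d Q s (j + 4) := by
    intro s j
    unfold h0
    rw [if_neg (by omega), if_neg (by omega), if_neg (by omega)]
  refine ⟨w, plc d Q P Fp, fun f hf => (hwF f hf).1, fun n i => rfl, ?_, ?_⟩
  · intro u v z h
    cases h with
    | l0 s h =>
        obtain ⟨l0, l1, p0, p1, e0, ev⟩ := hvv s
        refine ⟨l0, p0, ?_⟩
        simp only [plc, if_true, add_zero, h0, if_neg one_ne_zero, Nat.add_sub_cancel]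
        rw [← e0]; abel
    | l1 s h =>
        obtain ⟨l0, l1, p0, p1, e0, ev⟩ := hvv s
        refine ⟨l1, p1, ?_⟩
        simp only [plc, if_true, add_zero, h0, if_neg one_ne_zero, Nat.add_sub_cancel,
          if_neg two_ne_zero, if_neg (show ¬ (2 : ℕ) = 1 by norm_num)]
        rw [← e0, d.per, smul_neg]
        have : l1 • d.e (xs k (s + 1) + 1) = vv d Q s + l0 • d.e (xs k (s + 1)) := by
          rw [ev]; abel
        rw [this, vv]
        abel
    | l2 s h =>
        refine ⟨1, one_pos, ?_⟩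
        simp only [plc, if_true, add_zero, h0, if_neg two_ne_zero,
          if_neg (show ¬ (2 : ℕ) = 1 by norm_num), Nat.add_sub_cancel,
          if_neg (show ¬ (4 : ℕ) = 0 by norm_num), if_neg (show ¬ (4 : ℕ) = 1 by norm_num),
          if_neg (show ¬ (4 : ℕ) = 2 by norm_num), if_neg one_ne_zero, one_smul]
        rw [hyy s 4 (by norm_num) (by norm_num), hub_four]
        have : xs k s + ((4 : ℕ) : ZMod (2 * k)) - 1 = xs k s + 3 := by push_cast; ring
        rw [this]
        push_cast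
        abel
    | l3 s h =>
        obtain ⟨l, hl, h1⟩ := hQ1 s
        refine ⟨l, hl, ?_⟩
        have h2 := h04 s 0
        have h3 := h04 (s + 1) 0
        rw [zero_add] at h2 h3
        simp only [plc, if_true, add_zero]
        rw [h2, h3, hub_four, hub_four, h1]
    | lk s h =>
        refine ⟨1, one_pos, ?_⟩
        have h1 := h04 (s + 1) (k - 5)
        have h2 := hub_succ d Q (s + 1) (k - 5)
        rw [show k - 5 + 4 = k - 1 by omega] at h1 h2
        rw [show k - 5 + 5 = k by omega, show k - 5 + 3 = k - 2 by omega] at h2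
        simp only [plc, if_true, add_zero, if_neg one_ne_zero]
        rw [h1, hyy (s + 1) (k - 1) (by omega) (by omega), one_smul]
        have h3 : h0 d Q (s + 1) 0 = hub d Q (s + 1) k := by simp [h0]
        rw [h3, h2, two_smul]
        have h4 : xs k (s + 1) + ((k - 1 : ℕ) : ZMod (2 * k)) - 1 =
            xs k (s + 1) + ((k - 2 : ℕ) : ZMod (2 * k)) := by
          rw [Nat.cast_sub (by omega), Nat.cast_sub (by omega)]; push_cast; ring
        have h5 : xs k (s + 1) + ((k - 1 : ℕ) : ZMod (2 * k)) = xs k (s + 1) + k - 1 := by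
          rw [Nat.cast_sub (by omega)]; push_cast; ring
        rw [h4, h5]
        abel
    | lm s j h hj =>
        refine ⟨1, one_pos, ?_⟩
        have h1 := h04 (s + 1) j
        have h2 := h04 (s + 1) (j + 1)
        rw [show j + 1 + 4 = j + 5 by ring] at h2
        simp only [plc, if_true, add_zero, if_neg one_ne_zero]
        rw [h1, h2, hub_succ, hyy (s + 1) (j + 4) (by omega) (by omega), one_smul, two_smul]
        have h4 : xs k (s + 1) + ((j + 4 : ℕ) : ZMod (2 * k)) - 1 =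
            xs k (s + 1) + ((j + 3 : ℕ) : ZMod (2 * k)) := by
          push_cast; ring
        rw [h4]
        abel
    | tk s h ht =>
        refine ⟨1, one_pos, ?_⟩
        simp only [tok, Bool.and_eq_true, decide_eq_true_eq] at ht
        have h1 := hQ2 s h ht.1 ht.2.1
        have h2 := h04 (s + 1) 1
        have h3 := hub_succ d Q (s + 1) 0
        simp only [plc, if_true, add_zero]
        rw [show 1 + 4 = 5 by norm_num] at h2
        rw [zero_add, zero_add, zero_add] at h3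
        rw [h2, h3, hub_four, h1, one_smul]
        push_cast
        abel
    | f1 f h =>
        obtain ⟨r, hr, h1, h2⟩ := (hwF f h).2
        exact ⟨r, hr, h2⟩
    | f2 f h =>
        obtain ⟨r, hr, h1, h2⟩ := (hwF f h).2
        exact ⟨r, hr, h1⟩
  · intro s i _
    have h1 : plc d Q P Fp (.H s i 1) - plc d Q P Fp (.H s i 0) =
        d.e (yy k s i - 1) + d.e (yy k s i) := by
      simp only [plc, if_true, add_zero, if_neg one_ne_zero]
      abel
    have h2 := hone (yy k s i - 1)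
    rw [sub_add_cancel] at h2
    rw [h1, cr_add_right, cr_add_left, cr_self, cr_self]
    constructor <;> linarith

end Pool.Agent.H670R2.Sl
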