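import Pool.Agent.H670R2.SlRed
import Pool.Agent.H670R2.Hard

/-!
The reduction to SLOPE NUMBER is polynomial-time computable.
-/

namespace Pool.Agent.NPC.H670R2

open Pool.Agent.NPC Pool.Agent.NPC.ER Pool.Agent.H670R2 Pool.Agent.H670R2.Sl

variable {α : Type} [TEnc α]

/-! ### The lists of relations -/

/-- the positive constraints for an equation given as a tuple -/
def posCT (B : ℕ) (q : ℕ × ℕ × ℕ × ℕ) : List Pc :=
  if q.1 = 0 then [(0, 2 + 2 * q.2.1, 0, 1 + 2 * q.2.1)]
  else if q.1 = 1 then
    [(0, 1 + 2 * q.2.1, 1 + 2 * q.2.2.1, B), (0, B, 2 + 2 * q.2.2.2, B + 1),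
      (0, 2 + 2 * q.2.1, 2 + 2 * q.2.2.1, B + 2), (0, B + 2, 1 + 2 * q.2.2.2, B + 1)]
  else
    [(1, 1 + 2 * q.2.1, 1 + 2 * q.2.2.1, B), (1, 2 + 2 * q.2.1, 2 + 2 * q.2.2.1, B + 1),
      (0, B, B + 1, B + 2), (0, B + 2, 2 + 2 * q.2.2.2, B + 3),
      (1, 1 + 2 * q.2.1, 2 + 2 * q.2.2.1, B + 4), (1, 2 + 2 * q.2.1, 1 + 2 * q.2.2.1, B + 5),
      (0, B + 4, B + 5, B + 6), (0, B + 6, 1 + 2 * q.2.2.2, B + 3)]

theorem posCT_tup (B : ℕ) (e : EC) : posCT B e.tup = posC B e := by cases e <;> rfl

theorem poly_posC {B : α → ℕ} {e : α → EC} (hB : Poly B) (he : Poly e) :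
    Poly (fun a => posC (B a) (e a)) := by
  have he' : Poly (fun a => (e a).tup) := poly_ectup he
  have h1 := Poly.fst he'
  have h2 := Poly.fst (Poly.snd he')
  have h3 := Poly.fst (Poly.snd (Poly.snd he'))
  have h4 := Poly.snd (Poly.snd (Poly.snd he'))
  have h : Poly (fun a => posCT (B a) (e a).tup) := by
    unfold posCT
    refine Poly.ite (Poly.decide_eq h1 (Poly.const 0)) ?_
      (Poly.ite (Poly.decide_eq h1 (Poly.const 1)) ?_ ?_)
    all_goals
      repeat' first
        | with_reducible assumption
        | with_reducible exact Poly.const _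
        | with_reducible apply Poly.cons
        | with_reducible apply Poly.pair
        | with_reducible apply Poly.add
        | with_reducible apply Poly.mul
        | with_reducible apply Poly.sub
        | with_reducible apply Poly.div
        | with_reducible apply Poly.mod
        | with_reducible apply Poly.append
  exact h.congr fun a => posCT_tup _ _

theorem upoly_posW {m : α → ℕ} {es : α → List EC} (hm : UPoly m) (he : Poly es) :
    UPoly (fun a => posW (m a) (es a)) :=
  UPoly.add (UPoly.add (UPoly.const 3) (UPoly.mul (UPoly.const 2) hm))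
    (UPoly.mul (UPoly.const 7) (UPoly.length he))

theorem poly_posS {m : α → ℕ} {es : α → List EC} (hm : UPoly m) (he : Poly es) :
    Poly (fun a => posS (m a) (es a)) := by
  unfold posS
  refine Poly.flatMap (F := fun (a : α) (e : EC × ℕ) => posC (3 + 2 * m a + 7 * e.2) e.1)
    (Poly.zipIdx he) ?_
  refine poly_posC ?_ (Poly.fst (Poly.snd Poly.id))
  have h1 : Poly (fun p : α × (EC × ℕ) => m p.1) := hm.toPoly.comp (Poly.fst Poly.id)
  have h2 : Poly (fun p : α × (EC × ℕ) => p.2.2) := Poly.snd (Poly.snd Poly.id)
  repeat' first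
    | with_reducible assumption
    | with_reducible exact Poly.const _
    | with_reducible apply Poly.cons
    | with_reducible apply Poly.pair
    | with_reducible apply Poly.add
    | with_reducible apply Poly.mul
    | with_reducible apply Poly.sub
    | with_reducible apply Poly.div
    | with_reducible apply Poly.mod
    | with_reducible apply Poly.append

theorem upoly_nS {W : α → ℕ} {cs : α → List Pc} (hW : UPoly W) (hc : Poly cs) :
    UPoly (fun a => nS (W a) (cs a)) :=
  UPoly.add hW (UPoly.mul (UPoly.const 6) (UPoly.length hc))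

theorem upoly_nK {W : α → ℕ} {cs : α → List Pc} (hW : UPoly W) (hc : Poly cs) :
    UPoly (fun a => nK (W a) (cs a)) :=
  UPoly.add (UPoly.mul (UPoly.const 4) (upoly_nS hW hc)) (UPoly.const 2)

theorem poly_group {c : α → Pc} {g : α → ℕ} (hc : Poly c) (hg : Poly g) :
    Poly (fun a => group (c a) (g a)) := by
  have h1 := Poly.fst hc
  have h2 := Poly.fst (Poly.snd hc)
  have h3 := Poly.fst (Poly.snd (Poly.snd hc))
  have h4 := Poly.snd (Poly.snd (Poly.snd hc))
  unfold group
  refine Poly.ite (Poly.decide_eq h1 (Poly.const 0)) ?_ ?_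
  all_goals
    simp only [wire, lC, lU, lV, lT]
    repeat' first
      | with_reducible assumption
      | with_reducible exact Poly.const _
      | with_reducible apply Poly.cons
      | with_reducible apply Poly.pair
      | with_reducible apply Poly.add
      | with_reducible apply Poly.mul
      | with_reducible apply Poly.sub
      | with_reducible apply Poly.div
      | with_reducible apply Poly.mod
      | with_reducible apply Poly.append

theorem poly_rels {W : α → ℕ} {cs : α → List Pc} (hW : UPoly W) (hc : Poly cs) :
    Poly (fun a => rels (W a) (cs a)) := by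
  unfold rels
  refine Poly.append ?_ ?_
  · have h1 : UPoly (fun a => nS (W a) (cs a) - 2) :=
      UPoly.of_le (Poly.sub (upoly_nS hW hc).toPoly (Poly.const 2)) (upoly_nS hW hc)
        fun a => Nat.sub_le _ _
    refine Poly.map (F := fun (_ : α) (s : ℕ) => ((0, lC (s + 2), lC (s + 1), lC 0, lC 1) : Rl))
      h1.range ?_
    have h2 : Poly (fun p : α × ℕ => p.2) := Poly.snd Poly.id
    simp only [lC]
    repeat' first
      | with_reducible assumption
      | with_reducible exact Poly.const _
      | with_reducible apply Poly.cons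
      | with_reducible apply Poly.pair
      | with_reducible apply Poly.add
      | with_reducible apply Poly.mul
      | with_reducible apply Poly.sub
      | with_reducible apply Poly.div
      | with_reducible apply Poly.mod
      | with_reducible apply Poly.append
  · refine Poly.flatMap (F := fun (a : α) (c : Pc × ℕ) => group c.1 (W a + 6 * c.2))
      (Poly.zipIdx hc) (poly_group (Poly.fst (Poly.snd Poly.id)) ?_)
    have h1 : Poly (fun p : α × (Pc × ℕ) => W p.1) := hW.toPoly.comp (Poly.fst Poly.id)
    have h2 : Poly (fun p : α × (Pc × ℕ) => p.2.2) := Poly.snd (Poly.snd Poly.id)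
    repeat' first
      | with_reducible assumption
      | with_reducible exact Poly.const _
      | with_reducible apply Poly.cons
      | with_reducible apply Poly.pair
      | with_reducible apply Poly.add
      | with_reducible apply Poly.mul
      | with_reducible apply Poly.sub
      | with_reducible apply Poly.div
      | with_reducible apply Poly.mod
      | with_reducible apply Poly.append

theorem poly_quad {k : α → ℕ} {r : α → Rl} (hk : Poly k) (hr : Poly r) :
    Poly (fun a => Rl.quad (k a) (r a)) := by
  have h1 := Poly.fst hr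
  have h2 := Poly.fst (Poly.snd hr)
  have h3 := Poly.fst (Poly.snd (Poly.snd hr))
  have h4 := Poly.fst (Poly.snd (Poly.snd (Poly.snd hr)))
  have h5 := Poly.snd (Poly.snd (Poly.snd (Poly.snd hr)))
  have h6 : Poly (fun a => if (r a).1 = 0 then 0 else k a - 1) :=
    Poly.ite (Poly.decide_eq h1 (Poly.const 0)) (Poly.const 0) (Poly.sub hk (Poly.const 1))
  unfold Rl.quad
  repeat' first
    | with_reducible assumption
    | with_reducible exact Poly.const _
    | with_reducible apply Poly.cons
    | with_reducible apply Poly.pair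
    | with_reducible apply Poly.add
    | with_reducible apply Poly.mul
    | with_reducible apply Poly.sub
    | with_reducible apply Poly.div
    | with_reducible apply Poly.mod
    | with_reducible apply Poly.append

theorem upoly_redK {m : α → ℕ} {es : α → List EC} (hm : UPoly m) (he : Poly es) :
    UPoly (fun a => redK (m a) (es a)) :=
  upoly_nK (upoly_posW hm he) (poly_posS hm he)

theorem poly_redM {m : α → ℕ} {es : α → List EC} (hm : UPoly m) (he : Poly es) :
    Poly (fun a => redM (m a) (es a)) := by
  unfold redM
  refine Poly.flatMap (F := fun (a : α) (r : Rl) => Rl.quad (redK (m a) (es a)) r)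
    (poly_rels (upoly_posW hm he) (poly_posS hm he)) (poly_quad ?_ (Poly.snd Poly.id))
  exact (upoly_redK hm he).toPoly.comp (Poly.fst Poly.id)

/-! ### The graph -/

theorem poly_cH {N k s i b : α → ℕ} (hN : Poly N) (hk : Poly k) (hs : Poly s) (hi : Poly i)
    (hb : Poly b) : Poly (fun a => cH (N a) (k a) (s a) (i a) (b a)) := by
  unfold cH
  repeat' first
    | with_reducible assumption
    | with_reducible exact Poly.const _
    | with_reducible apply Poly.cons
    | with_reducible apply Poly.pair
    | with_reducible apply Poly.add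
    | with_reducible apply Poly.mul
    | with_reducible apply Poly.sub
    | with_reducible apply Poly.div
    | with_reducible apply Poly.mod
    | with_reducible apply Poly.append

theorem upoly_nT {N k : α → ℕ} (hN : UPoly N) (hk : UPoly k) :
    UPoly (fun a => nT (k a) (N a)) :=
  UPoly.mul (UPoly.mul (UPoly.mul (UPoly.const 8) hk) hk) hN

theorem poly_eBones {N k : α → ℕ} (hN : UPoly N) (hk : UPoly k) :
    Poly (fun a => eBones (k a) (N a)) := by
  unfold eBones
  refine Poly.flatMap (F := fun (a : α) (s : ℕ) => (List.range (k a)).flatMap fun i =>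
    if (!decide (i = 3) && (decide (0 < s) || decide (i = 4))) = true then
      (List.range (2 * k a - 2)).flatMap fun j =>
        [(cH (N a) (k a) s i 0, cH (N a) (k a) s i (j + 2)),
          (cH (N a) (k a) s i 1, cH (N a) (k a) s i (j + 2))]
    else []) (UPoly.add (upoly_nT hN hk) (UPoly.const 1)).range ?_
  refine Poly.flatMap (F := fun (x : α × ℕ) (i : ℕ) =>
    if (!decide (i = 3) && (decide (0 < x.2) || decide (i = 4))) = true then
      (List.range (2 * k x.1 - 2)).flatMap fun j =>
        [(cH (N x.1) (k x.1) x.2 i 0, cH (N x.1) (k x.1) x.2 i (j + 2)),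
          (cH (N x.1) (k x.1) x.2 i 1, cH (N x.1) (k x.1) x.2 i (j + 2))]
    else []) (hk.range.comp (Poly.fst Poly.id)) ?_
  have hs : Poly (fun p : (α × ℕ) × ℕ => p.1.2) := Poly.snd (Poly.fst Poly.id)
  have hi : Poly (fun p : (α × ℕ) × ℕ => p.2) := Poly.snd Poly.id
  refine Poly.ite (Poly.decide_bool (Poly.and (Poly.not (Poly.decide_eq hi (Poly.const 3)))
    (Poly.or (Poly.decide_lt (Poly.const 0) hs) (Poly.decide_eq hi (Poly.const 4))))) ?_
    (Poly.const _)
  have h2k : UPoly (fun a => 2 * k a - 2) :=
    UPoly.of_le (Poly.sub (Poly.mul (Poly.const 2) hk.toPoly) (Poly.const 2))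
      (UPoly.mul (UPoly.const 2) hk) fun a => Nat.sub_le _ _
  refine Poly.flatMap (F := fun (x : (α × ℕ) × ℕ) (j : ℕ) =>
        [(cH (N x.1.1) (k x.1.1) x.1.2 x.2 0, cH (N x.1.1) (k x.1.1) x.1.2 x.2 (j + 2)),
          (cH (N x.1.1) (k x.1.1) x.1.2 x.2 1, cH (N x.1.1) (k x.1.1) x.1.2 x.2 (j + 2))])
    (h2k.range.comp (Poly.fst (Poly.fst Poly.id))) ?_
  have g1 : Poly (fun p : ((α × ℕ) × ℕ) × ℕ => N p.1.1.1) :=
    hN.toPoly.comp (Poly.fst (Poly.fst (Poly.fst Poly.id)))
  have g2 : Poly (fun p : ((α × ℕ) × ℕ) × ℕ => k p.1.1.1) :=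
    hk.toPoly.comp (Poly.fst (Poly.fst (Poly.fst Poly.id)))
  have g3 : Poly (fun p : ((α × ℕ) × ℕ) × ℕ => p.1.1.2) := Poly.snd (Poly.fst (Poly.fst Poly.id))
  have g4 : Poly (fun p : ((α × ℕ) × ℕ) × ℕ => p.1.2) := Poly.snd (Poly.fst Poly.id)
  have g5 : Poly (fun p : ((α × ℕ) × ℕ) × ℕ => p.2) := Poly.snd Poly.id
  unfold cH
  repeat' first
    | with_reducible assumption
    | with_reducible exact Poly.const _
    | with_reducible apply Poly.cons
    | with_reducible apply Poly.pair
    | with_reducible apply Poly.add
    | with_reducible apply Poly.mul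
    | with_reducible apply Poly.sub
    | with_reducible apply Poly.div
    | with_reducible apply Poly.mod
    | with_reducible apply Poly.append

theorem poly_eSides {N k : α → ℕ} (hN : UPoly N) (hk : UPoly k) :
    Poly (fun a => eSides (k a) (N a)) := by
  unfold eSides
  refine Poly.flatMap (F := fun (a : α) (s : ℕ) =>
    [(cH (N a) (k a) (s + 1) 0 0, cH (N a) (k a) (s + 1) 1 0),
      (cH (N a) (k a) (s + 1) 1 0, cH (N a) (k a) (s + 1) 2 0),
      (cH (N a) (k a) (s + 1) 2 0, cH (N a) (k a) s 4 1),
      (cH (N a) (k a) s 4 0, cH (N a) (k a) (s + 1) 4 0),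
      (cH (N a) (k a) (s + 1) (k a - 1) 1, cH (N a) (k a) (s + 1) 0 0)] ++
    (List.range (k a - 5)).map fun j =>
      (cH (N a) (k a) (s + 1) (j + 4) 1, cH (N a) (k a) (s + 1) (j + 5) 0))
    (upoly_nT hN hk).range ?_
  have h5 : UPoly (fun a => k a - 5) :=
    UPoly.of_le (Poly.sub hk.toPoly (Poly.const 5)) hk fun a => Nat.sub_le _ _
  refine Poly.append ?_ (Poly.map (F := fun (x : α × ℕ) (j : ℕ) =>
      (cH (N x.1) (k x.1) (x.2 + 1) (j + 4) 1, cH (N x.1) (k x.1) (x.2 + 1) (j + 5) 0))
    (h5.range.comp (Poly.fst Poly.id)) ?_)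
  · have g1 : Poly (fun p : α × ℕ => N p.1) := hN.toPoly.comp (Poly.fst Poly.id)
    have g2 : Poly (fun p : α × ℕ => k p.1) := hk.toPoly.comp (Poly.fst Poly.id)
    have g3 : Poly (fun p : α × ℕ => p.2) := Poly.snd Poly.id
    unfold cH
    repeat' first
      | with_reducible assumption
      | with_reducible exact Poly.const _
      | with_reducible apply Poly.cons
      | with_reducible apply Poly.pair
      | with_reducible apply Poly.add
      | with_reducible apply Poly.mul
      | with_reducible apply Poly.sub
      | with_reducible apply Poly.div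
      | with_reducible apply Poly.mod
      | with_reducible apply Poly.append
  · have g1 : Poly (fun p : (α × ℕ) × ℕ => N p.1.1) := hN.toPoly.comp (Poly.fst (Poly.fst Poly.id))
    have g2 : Poly (fun p : (α × ℕ) × ℕ => k p.1.1) := hk.toPoly.comp (Poly.fst (Poly.fst Poly.id))
    have g3 : Poly (fun p : (α × ℕ) × ℕ => p.1.2) := Poly.snd (Poly.fst Poly.id)
    have g4 : Poly (fun p : (α × ℕ) × ℕ => p.2) := Poly.snd Poly.id
    unfold cH
    repeat' first
      | with_reducible assumption
      | with_reducible exact Poly.const _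
      | with_reducible apply Poly.cons
      | with_reducible apply Poly.pair
      | with_reducible apply Poly.add
      | with_reducible apply Poly.mul
      | with_reducible apply Poly.sub
      | with_reducible apply Poly.div
      | with_reducible apply Poly.mod
      | with_reducible apply Poly.append

theorem poly_tokF {k s : α → ℕ} {ms : α → List ℕ} (hk : Poly k) (hm : Poly ms) (hs : Poly s) :
    Poly (fun a => tok (k a) (ms a) (s a)) := by
  unfold tok
  have h1 : Poly (fun a => s a / (4 * k a) / (2 * k a)) := by
    repeat' first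
      | with_reducible assumption
      | with_reducible exact Poly.const _
      | with_reducible apply Poly.cons
      | with_reducible apply Poly.pair
      | with_reducible apply Poly.add
      | with_reducible apply Poly.mul
      | with_reducible apply Poly.sub
      | with_reducible apply Poly.div
      | with_reducible apply Poly.mod
      | with_reducible apply Poly.append
  have h2 : Poly (fun a => (ms a).getD (s a / (4 * k a) / (2 * k a)) 0) :=
    Poly.getD hm h1 (Poly.const 0)
  refine Poly.and (Poly.decide_le ?_ ?_) (Poly.and (Poly.decide_eq ?_ ?_)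
    (Poly.not (Poly.decide_eq ?_ ?_)))
  all_goals
    repeat' first
      | with_reducible assumption
      | with_reducible exact Poly.const _
      | with_reducible apply Poly.cons
      | with_reducible apply Poly.pair
      | with_reducible apply Poly.add
      | with_reducible apply Poly.mul
      | with_reducible apply Poly.sub
      | with_reducible apply Poly.div
      | with_reducible apply Poly.mod
      | with_reducible apply Poly.append

theorem poly_eTok {k : α → ℕ} {ms : α → List ℕ} (hk : UPoly k) (hm : Poly ms) :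
    Poly (fun a => eTok (k a) (ms a)) := by
  unfold eTok
  refine Poly.flatMap (F := fun (a : α) (s : ℕ) => if tok (k a) (ms a) s = true then
      [(cF (ms a).length (s / (4 * k a) / (2 * k a)), cH (ms a).length (k a) (s + 1) 5 0)] else [])
    (upoly_nT (UPoly.length hm) hk).range ?_
  have g1 : Poly (fun p : α × ℕ => (ms p.1).length) := (Poly.length hm).comp (Poly.fst Poly.id)
  have g2 : Poly (fun p : α × ℕ => k p.1) := hk.toPoly.comp (Poly.fst Poly.id)
  have g3 : Poly (fun p : α × ℕ => p.2) := Poly.snd Poly.id
  refine Poly.ite (Poly.decide_bool (poly_tokF g2 (hm.comp (Poly.fst Poly.id)) g3)) ?_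
    (Poly.const _)
  unfold cF cH
  repeat' first
    | with_reducible assumption
    | with_reducible exact Poly.const _
    | with_reducible apply Poly.cons
    | with_reducible apply Poly.pair
    | with_reducible apply Poly.add
    | with_reducible apply Poly.mul
    | with_reducible apply Poly.sub
    | with_reducible apply Poly.div
    | with_reducible apply Poly.mod
    | with_reducible apply Poly.append

theorem poly_e1 {j : α → ℕ} (hj : Poly j) : Poly (fun a => e1 (j a)) :=
  Poly.ite (Poly.decide_lt hj (Poly.const 3)) (Poly.const 0)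
    (Poly.ite (Poly.decide_eq hj (Poly.const 3)) (Poly.const 2) (Poly.const 1))

theorem poly_e2 {j : α → ℕ} (hj : Poly j) : Poly (fun a => e2 (j a)) :=
  Poly.ite (Poly.decide_lt hj (Poly.const 3)) (Poly.add hj (Poly.const 1))
    (Poly.ite (Poly.decide_eq hj (Poly.const 5)) (Poly.const 2) (Poly.const 3))

theorem poly_eFil {N : α → ℕ} (hN : UPoly N) : Poly (fun a => eFil (N a)) := by
  unfold eFil
  refine Poly.flatMap (F := fun (a : α) (f : ℕ) =>
    [(cF (N a) f, cP (f / 6) (e1 (f % 6))), (cF (N a) f, cP (f / 6) (e2 (f % 6)))]) hN.range ?_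
  have g1 : Poly (fun p : α × ℕ => N p.1) := hN.toPoly.comp (Poly.fst Poly.id)
  have g3 : Poly (fun p : α × ℕ => p.2) := Poly.snd Poly.id
  have g4 : Poly (fun p : α × ℕ => e1 (p.2 % 6)) := poly_e1 (Poly.mod g3 (Poly.const 6))
  have g5 : Poly (fun p : α × ℕ => e2 (p.2 % 6)) := poly_e2 (Poly.mod g3 (Poly.const 6))
  unfold cF cP
  repeat' first
    | with_reducible assumption
    | with_reducible exact Poly.const _
    | with_reducible apply Poly.cons
    | with_reducible apply Poly.pair
    | with_reducible apply Poly.add
    | with_reducible apply Poly.mul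
    | with_reducible apply Poly.sub
    | with_reducible apply Poly.div
    | with_reducible apply Poly.mod
    | with_reducible apply Poly.append

theorem poly_slgr {k : α → ℕ} {ms : α → List ℕ} (hk : UPoly k) (hm : Poly ms) :
    Poly (fun a => Sl.gr (k a) (ms a)) := by
  have hN : UPoly (fun a => (ms a).length) := UPoly.length hm
  unfold Sl.gr
  refine poly_adjLists ?_ ?_
  · unfold nV
    exact UPoly.add (UPoly.mul (UPoly.const 5) hN) (UPoly.mul (UPoly.mul
      (UPoly.add (upoly_nT hN hk) (UPoly.const 1)) hk) (UPoly.mul (UPoly.const 2) hk))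
  · unfold eAll
    exact Poly.append (Poly.append (Poly.append (poly_eBones hN hk) (poly_eSides hN hk))
      (poly_eTok hk hm)) (poly_eFil hN)

/-- the output of the reduction -/
def slred (m : ℕ) (es : List EC) : List (List ℕ) × ℕ := (Sl.gr (redK m es) (redM m es), redK m es)

theorem poly_slred {m : α → ℕ} {es : α → List EC} (hm : UPoly m) (he : Poly es) :
    Poly (fun a => slred (m a) (es a)) := by
  have h1 : Poly (fun a => Sl.gr (redK (m a) (es a)) (redM (m a) (es a))) :=
    poly_slgr (upoly_redK hm he) (poly_redM hm he)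
  exact Poly.pair h1 (upoly_redK hm he).toPoly

theorem slope_hard : ERHard SLOPENUMBER := by
  refine ERHard.of_sys (P := fun x : List (List ℕ) × ℕ => ∃ h : IsGraph x.1,
    slopeNumber (graphOf x.1 h) ≤ x.2) (f := fun S => slred (occ S).length (norm S))
    (poly_slred (UPoly.length (poly_occ Poly.id)) (poly_norm Poly.id)) ?_
  intro S
  rw [norm_sat, sl_correct (norm_below S)]
  rfl

end Pool.Agent.NPC.H670R2
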