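import Pool.Agent.H670R2.SlArith
import Pool.Agent.H670R2.Mask

/-!
From equations to positive constraints.
-/

namespace Pool.Agent.H670R2.Sl

/-- the positive constraints for an equation; the variable `i` is represented as the difference of
the variables `1 + 2 i` and `2 + 2 i`, the auxiliary variables are `B, …, B + 6` -/
def posC (B : ℕ) : EC → List Pc
  | .one i => [(0, 2 + 2 * i, 0, 1 + 2 * i)]
  | .add i j l => [(0, 1 + 2 * i, 1 + 2 * j, B), (0, B, 2 + 2 * l, B + 1),
      (0, 2 + 2 * i, 2 + 2 * j, B + 2), (0, B + 2, 1 + 2 * l, B + 1)]
  | .mul i j l => [(1, 1 + 2 * i, 1 + 2 * j, B), (1, 2 + 2 * i, 2 + 2 * j, B + 1),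
      (0, B, B + 1, B + 2), (0, B + 2, 2 + 2 * l, B + 3),
      (1, 1 + 2 * i, 2 + 2 * j, B + 4), (1, 2 + 2 * i, 1 + 2 * j, B + 5),
      (0, B + 4, B + 5, B + 6), (0, B + 6, 1 + 2 * l, B + 3)]

def posW (m : ℕ) (es : List EC) : ℕ := 3 + 2 * m + 7 * es.length

def posS (m : ℕ) (es : List EC) : List Pc :=
  es.zipIdx.flatMap fun e => posC (3 + 2 * m + 7 * e.2) e.1

theorem mem_posS {m : ℕ} {es : List EC} {c : Pc} : c ∈ posS m es ↔
    ∃ n e, es[n]? = some e ∧ c ∈ posC (3 + 2 * m + 7 * n) e := by
  simp only [posS, List.mem_flatMap]
  constructor
  · rintro ⟨⟨e, n⟩, he, hc⟩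
    rw [List.mem_zipIdx_iff_getElem?] at he
    exact ⟨n, e, he, hc⟩
  · rintro ⟨n, e, he, hc⟩
    exact ⟨(e, n), by rw [List.mem_zipIdx_iff_getElem?]; exact he, hc⟩

theorem posS_below {m : ℕ} {es : List EC} (hb : ∀ e ∈ es, e.below m) :
    ∀ c ∈ posS m es, c.below (posW m es) := by
  intro c hc
  obtain ⟨n, e, he, hc⟩ := mem_posS.1 hc
  obtain ⟨hn, hen⟩ := List.getElem?_eq_some_iff.1 he
  have hbe := hb e (by rw [← hen]; exact List.getElem_mem hn)
  have hW : 3 + 2 * m + 7 * n + 7 ≤ posW m es := by unfold posW; omega
  cases e with
  | one i =>
      simp only [posC, List.mem_cons, List.not_mem_nil, or_false, EC.below] at hc hbe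
      rw [hc]; simp only [Pc.below]; omega
  | add i j l =>
      simp only [posC, List.mem_cons, List.not_mem_nil, or_false, EC.below] at hc hbe
      rcases hc with rfl | rfl | rfl | rfl <;> simp only [Pc.below] <;> omega
  | mul i j l =>
      simp only [posC, List.mem_cons, List.not_mem_nil, or_false, EC.below] at hc hbe
      rcases hc with rfl | rfl | rfl | rfl | rfl | rfl | rfl | rfl <;>
        simp only [Pc.below] <;> omega

theorem posS_correct {m : ℕ} {es : List EC} (hb : ∀ e ∈ es, e.below m) :
    (∃ x : ℕ → ℝ, ∀ e ∈ es, e.holds x) ↔
    ∃ x : ℕ → ℝ, (∀ i < posW m es, 0 < x i) ∧ x 0 = 1 ∧ ∀ c ∈ posS m es, c.holds x := by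
  constructor
  · rintro ⟨x, hx⟩
    let a : ℕ → ℝ := fun i => max (x i) 0 + 1
    let b : ℕ → ℝ := fun i => max (-x i) 0 + 1
    have pa : ∀ i, 0 < a i := fun i => by
      have := le_max_right (x i) 0
      simp only [a]; linarith
    have pb : ∀ i, 0 < b i := fun i => by
      have := le_max_right (-x i) 0
      simp only [b]; linarith
    have hab : ∀ i, a i - b i = x i := by
      intro i
      simp only [a, b]
      rcases le_total (x i) 0 with h | h
      · rw [max_eq_right h, max_eq_left (by linarith)]; ring
      · rw [max_eq_left h, max_eq_right (by linarith)]; ring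
    have hloc : ∀ n : ℕ, ∃ Y : ℕ → ℝ, (∀ j, 0 < Y j) ∧ ∀ e : EC, es[n]? = some e → match e with
        | .one _ => True
        | .add i j l => a i + a j = Y 0 ∧ Y 0 + b l = Y 1 ∧ b i + b j = Y 2 ∧ Y 2 + a l = Y 1
        | .mul i j l => a i * a j = Y 0 ∧ b i * b j = Y 1 ∧ Y 0 + Y 1 = Y 2 ∧ Y 2 + b l = Y 3 ∧
            a i * b j = Y 4 ∧ b i * a j = Y 5 ∧ Y 4 + Y 5 = Y 6 ∧ Y 6 + a l = Y 3 := by
      intro n
      cases he : es[n]? with
      | none => exact ⟨fun _ => 1, fun _ => one_pos, fun e he => by simp at he⟩
      | some e =>
          obtain ⟨hn, hen⟩ := List.getElem?_eq_some_iff.1 he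
          have hxe := hx e (by rw [← hen]; exact List.getElem_mem hn)
          cases e with
          | one i =>
              refine ⟨fun _ => 1, fun _ => one_pos, fun e he => ?_⟩
              simp only [Option.some.injEq] at he
              subst he
              trivial
          | add i j l =>
              simp only [EC.holds] at hxe
              have p1 := add_pos (pa i) (pa j)
              have p2 := add_pos (pb i) (pb j)
              have p3 := add_pos p1 (pb l)
              refine ⟨fun c => if c = 0 then a i + a j else if c = 1 then a i + a j + b l else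
                if c = 2 then b i + b j else 1, ?_, fun e he => ?_⟩
              · intro c; dsimp only; split_ifs <;> first | assumption | norm_num
              · simp only [Option.some.injEq] at he
                subst he
                have h1 := hab i
                have h2 := hab j
                have h3 := hab l
                refine ⟨by simp, by simp, by simp, ?_⟩
                simp
                linarith
          | mul i j l =>
              simp only [EC.holds] at hxe
              have p1 := mul_pos (pa i) (pa j)
              have p2 := mul_pos (pb i) (pb j)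
              have p3 := mul_pos (pa i) (pb j)
              have p4 := mul_pos (pb i) (pa j)
              have p5 := add_pos p1 p2
              have p6 := add_pos p5 (pb l)
              have p7 := add_pos p3 p4
              refine ⟨fun c => if c = 0 then a i * a j else if c = 1 then b i * b j else
                if c = 2 then a i * a j + b i * b j else
                if c = 3 then a i * a j + b i * b j + b l else
                if c = 4 then a i * b j else if c = 5 then b i * a j else
                if c = 6 then a i * b j + b i * a j else 1, ?_, fun e he => ?_⟩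
              · intro c; dsimp only; split_ifs <;> first | assumption | norm_num
              · simp only [Option.some.injEq] at he
                subst he
                refine ⟨by simp, by simp, by simp, by simp, by simp, by simp, by simp, ?_⟩
                simp
                rw [← hab i, ← hab j, ← hab l] at hxe
                linarith
    choose Y hY1 hY2 using hloc
    refine ⟨fun s => if s = 0 then 1 else if s < 3 + 2 * m then
      (if s % 2 = 1 then a ((s - 1) / 2) else b ((s - 2) / 2))
      else Y ((s - (3 + 2 * m)) / 7) ((s - (3 + 2 * m)) % 7), ?_, by simp, ?_⟩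
    · intro s _
      dsimp only
      split_ifs
      · exact one_pos
      · exact pa _
      · exact pb _
      · exact hY1 _ _
    · intro c hc
      obtain ⟨n, e, he, hc⟩ := mem_posS.1 hc
      obtain ⟨hn, hen⟩ := List.getElem?_eq_some_iff.1 he
      have hbe := hb e (by rw [← hen]; exact List.getElem_mem hn)
      have hxe := hx e (by rw [← hen]; exact List.getElem_mem hn)
      have hYe := hY2 n e he
      set y : ℕ → ℝ := fun s => if s = 0 then 1 else if s < 3 + 2 * m then
        (if s % 2 = 1 then a ((s - 1) / 2) else b ((s - 2) / 2))
        else Y ((s - (3 + 2 * m)) / 7) ((s - (3 + 2 * m)) % 7) with hy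
      have y0 : y 0 = 1 := by simp [hy]
      have ya : ∀ i < m, y (1 + 2 * i) = a i := by
        intro i hi
        simp only [hy]
        rw [if_neg (by omega), if_pos (by omega), if_pos (by omega)]
        congr 1; omega
      have yb : ∀ i < m, y (2 + 2 * i) = b i := by
        intro i hi
        simp only [hy]
        rw [if_neg (by omega), if_pos (by omega), if_neg (by omega)]
        congr 1; omega
      have yY : ∀ j < 7, y (3 + 2 * m + 7 * n + j) = Y n j := by
        intro j hj
        simp only [hy]
        rw [if_neg (by omega), if_neg (by omega)]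
        congr 1
        · congr 1; omega
        · omega
      have yY0 := yY 0 (by norm_num)
      rw [add_zero] at yY0
      unfold Pc.holds
      cases e with
      | one i =>
          simp only [posC, List.mem_cons, List.not_mem_nil, or_false, EC.below, EC.holds] at *
          rw [hc]
          simp only [if_true]
          rw [yb i hbe, y0, ya i hbe]
          have := hab i
          linarith
      | add i j l =>
          simp only [posC, List.mem_cons, List.not_mem_nil, or_false, EC.below, EC.holds] at *
          obtain ⟨b1, b2, b3⟩ := hbe
          obtain ⟨r1, r2, r3, r4⟩ := hYe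
          rcases hc with rfl | rfl | rfl | rfl <;> simp only [if_true]
          · rw [ya i b1, ya j b2, yY0, r1]
          · rw [yY0, yb l b3, yY 1 (by norm_num), r2]
          · rw [yb i b1, yb j b2, yY 2 (by norm_num), r3]
          · rw [yY 2 (by norm_num), ya l b3, yY 1 (by norm_num), r4]
      | mul i j l =>
          simp only [posC, List.mem_cons, List.not_mem_nil, or_false, EC.below, EC.holds] at *
          obtain ⟨b1, b2, b3⟩ := hbe
          obtain ⟨r1, r2, r3, r4, r5, r6, r7, r8⟩ := hYe
          rcases hc with rfl | rfl | rfl | rfl | rfl | rfl | rfl | rfl <;>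
            simp only [if_true, if_neg one_ne_zero]
          · rw [ya i b1, ya j b2, yY0, r1]
          · rw [yb i b1, yb j b2, yY 1 (by norm_num), r2]
          · rw [yY0, yY 1 (by norm_num), yY 2 (by norm_num), r3]
          · rw [yY 2 (by norm_num), yb l b3, yY 3 (by norm_num), r4]
          · rw [ya i b1, yb j b2, yY 4 (by norm_num), r5]
          · rw [yb i b1, ya j b2, yY 5 (by norm_num), r6]
          · rw [yY 4 (by norm_num), yY 5 (by norm_num), yY 6 (by norm_num), r7]
          · rw [yY 6 (by norm_num), ya l b3, yY 3 (by norm_num), r8]
  · rintro ⟨y, hy1, hy0, hc⟩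
    refine ⟨fun i => y (1 + 2 * i) - y (2 + 2 * i), ?_⟩
    intro e he
    obtain ⟨n, hn, hen⟩ := List.getElem_of_mem he
    have hcc : ∀ c ∈ posC (3 + 2 * m + 7 * n) e, c.holds y := fun c h =>
      hc c (mem_posS.2 ⟨n, e, by rw [List.getElem?_eq_getElem hn, hen], h⟩)
    generalize 3 + 2 * m + 7 * n = B at hcc
    cases e with
    | one i =>
        simp only [posC, List.mem_cons, List.not_mem_nil, or_false, forall_eq, Pc.holds,
          if_true] at hcc
        simp only [EC.holds]
        linarith
    | add i j l =>
        simp only [posC, List.mem_cons, List.not_mem_nil, or_false, forall_eq_or_imp, forall_eq,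
          Pc.holds, if_true] at hcc
        obtain ⟨r1, r2, r3, r4⟩ := hcc
        simp only [EC.holds]
        linarith
    | mul i j l =>
        simp only [posC, List.mem_cons, List.not_mem_nil, or_false, forall_eq_or_imp, forall_eq,
          Pc.holds, if_true, if_neg one_ne_zero] at hcc
        obtain ⟨r1, r2, r3, r4, r5, r6, r7, r8⟩ := hcc
        simp only [EC.holds]
        linarith

end Pool.Agent.H670R2.Sl
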