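import Pool.Agent.H670R2.SlNum

/-!
Quadrangles with sides of given labels, and relations between the slopes.
-/

namespace Pool.Agent.H670R2.Sl

variable {k : ℕ}

/-- relations between labels `(tag, b, c, e, f)`: `t b * t e = t f * t c` if `tag = 0`, and
`t b = t c + t f` otherwise -/
abbrev Rl : Type := ℕ × ℕ × ℕ × ℕ × ℕ

def Rl.holds (t : ℕ → ℝ) (r : Rl) : Prop :=
  if r.1 = 0 then t r.2.1 * t r.2.2.2.1 = t r.2.2.2.2 * t r.2.2.1
  else t r.2.1 = t r.2.2.1 + t r.2.2.2.2

/-- the labels are all right -/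
def Rl.ok (k : ℕ) (r : Rl) : Prop :=
  (1 ≤ r.2.1 ∧ r.2.1 < k - 1) ∧ (1 ≤ r.2.2.1 ∧ r.2.2.1 < k - 1) ∧
    (1 ≤ r.2.2.2.2 ∧ r.2.2.2.2 < k - 1) ∧ r.2.1 ≠ r.2.2.1 ∧
    ((r.1 = 0 ∧ 1 ≤ r.2.2.2.1 ∧ r.2.2.2.1 < k - 1 ∧ r.2.1 ≠ r.2.2.2.2) ∨
      (r.1 = 1 ∧ r.2.2.2.1 = 0))

/-- the labels of the sides of the quadrangle of a relation -/
def Rl.quad (k : ℕ) (r : Rl) : List ℕ :=
  [if r.1 = 0 then 0 else k - 1, r.2.1, r.2.2.1, k - 1, r.2.2.2.1, r.2.2.2.2]

theorem length_flatMap_quad (k : ℕ) (rs : List Rl) :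
    (rs.flatMap (Rl.quad k)).length = 6 * rs.length := by
  induction rs with
  | nil => rfl
  | cons r rs ih =>
      rw [List.flatMap_cons, List.length_append, ih]
      simp [Rl.quad]; ring

theorem getD_flatMap_quad (k : ℕ) (rs : List Rl) : ∀ (n c : ℕ) (r : Rl), rs[n]? = some r → c < 6 →
    (rs.flatMap (Rl.quad k)).getD (6 * n + c) 0 = (Rl.quad k r).getD c 0 := by
  induction rs with
  | nil => intro n c r h; simp at h
  | cons r0 rs ih =>
      intro n c r h hc
      rw [List.flatMap_cons]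
      have hl : (Rl.quad k r0).length = 6 := rfl
      cases n with
      | zero =>
          simp only [List.getElem?_cons_zero, Option.some.injEq] at h
          subst h
          rw [List.getD_append _ _ _ _ (by rw [hl]; omega)]
          simp
      | succ n =>
          simp only [List.getElem?_cons_succ] at h
          rw [List.getD_append_right _ _ _ _ (by rw [hl]; omega), hl,
            show 6 * (n + 1) + c - 6 = 6 * n + c by omega]
          exact ih n c r h hc

theorem rels_of_quad (hk : 4 ≤ k) {rs : List Rl} (hok : ∀ r ∈ rs, Rl.ok k r)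
    (h : Quad k (rs.flatMap (Rl.quad k))) :
    ∃ t : ℕ → ℝ, (∀ j, 1 ≤ j → j < k - 1 → 0 < t j) ∧ ∀ r ∈ rs, Rl.holds t r := by
  obtain ⟨d, P, hP⟩ := h
  have hB : ∀ j : ℕ, 1 ≤ j → j < k - 1 → 0 < cr (d.e (0 : ℕ)) (d.e (j : ℕ)) := by
    intro j h1 h2
    have := d.pos (0 : ℕ) j (by omega) (by omega)
    simpa using this
  have hA : ∀ j : ℕ, 1 ≤ j → j < k - 1 → 0 < cr (d.e (j : ℕ)) (d.e ((k - 1 : ℕ))) := by
    intro j h1 h2
    have := d.pos (j : ℕ) (k - 1 - j) (by omega) (by omega)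
    have e : ((j : ℕ) : ZMod (2 * k)) + ((k - 1 - j : ℕ) : ZMod (2 * k)) =
        ((k - 1 : ℕ) : ZMod (2 * k)) := by
      rw [← Nat.cast_add]; congr 1; omega
    rwa [e] at this
  have hDp : 0 < cr (d.e (0 : ℕ)) (d.e ((k - 1 : ℕ))) := by
    have := d.pos (0 : ℕ) (k - 1) (by omega) (by omega)
    simpa using this
  refine ⟨fun j => cr (d.e (0 : ℕ)) (d.e (j : ℕ)) / cr (d.e (j : ℕ)) (d.e ((k - 1 : ℕ))),
    fun j h1 h2 => div_pos (hB j h1 h2) (hA j h1 h2), ?_⟩
  intro r hr
  obtain ⟨n, hn, hnr⟩ := List.getElem_of_mem hr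
  have hn' : rs[n]? = some r := by rw [List.getElem?_eq_getElem hn, hnr]
  have hside : ∀ c < 6, ∃ x : ℝ, x ≠ 0 ∧ P n (e2 c) - P n (e1 c) =
      x • d.e ((Rl.quad k r).getD c 0 : ℕ) := by
    intro c hc
    have h1 := hP (6 * n + c) (by rw [length_flatMap_quad]; omega)
    rw [getD_flatMap_quad k rs n c r hn' hc, show (6 * n + c) / 6 = n by omega,
      show (6 * n + c) % 6 = c by omega] at h1
    exact h1
  obtain ⟨⟨b1, b2⟩, ⟨c1, c2⟩, ⟨f1, f2⟩, hbc, hcase⟩ := hok r hr
  obtain ⟨tag, b, c, e, f⟩ := r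
  simp only at b1 b2 c1 c2 f1 f2 hbc hcase
  obtain ⟨x0, n0, s0⟩ := hside 0 (by norm_num)
  obtain ⟨x1, n1, s1⟩ := hside 1 (by norm_num)
  obtain ⟨x2, n2, s2⟩ := hside 2 (by norm_num)
  obtain ⟨x3, n3, s3⟩ := hside 3 (by norm_num)
  obtain ⟨x4, n4, s4⟩ := hside 4 (by norm_num)
  obtain ⟨x5, n5, s5⟩ := hside 5 (by norm_num)
  have hAb := hA b b1 b2
  have hAc := hA c c1 c2
  have hAf := hA f f1 f2
  have hBb := hB b b1 b2
  have hBc := hB c c1 c2
  have hBf := hB f f1 f2
  rcases hcase with ⟨htag, he1, he2, hbf⟩ | ⟨htag, he⟩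
  · subst htag
    have hAe := hA e he1 he2
    have hBe := hB e he1 he2
    simp only [Rl.quad, e1, e2] at s0 s1 s2 s3 s4 s5
    simp at s0 s1 s2 s3 s4 s5
    simp only [Rl.holds, if_true]
    rw [← Nat.cast_zero (R := ZMod (2 * k))] at s0
    -- coordinates
    have w3 : P n 3 - P n 2 = (P n 3 - P n 0) - (P n 2 - P n 0) := by abel
    have w4 : P n 3 - P n 1 = (P n 3 - P n 0) - (P n 1 - P n 0) := by abel
    have w5 : P n 2 - P n 1 = (P n 2 - P n 0) - (P n 1 - P n 0) := by abel
    rw [w3, s1, s2] at s3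
    rw [w4, s2, s0] at s4
    rw [w5, s1, s0] at s5
    have a3 := congrArg (fun v => cr v (d.e ((k - 1 : ℕ)))) s3
    have a4 := congrArg (fun v => cr v (d.e ((k - 1 : ℕ)))) s4
    have a5 := congrArg (fun v => cr v (d.e ((k - 1 : ℕ)))) s5
    have b4 := congrArg (fun v => cr (d.e (0 : ℕ)) v) s4
    have b5 := congrArg (fun v => cr (d.e (0 : ℕ)) v) s5
    simp only [cr_sub_left, cr_smul_left, cr_self, mul_zero] at a3 a4 a5
    simp only [cr_sub_right, cr_smul_right, cr_self, mul_zero, sub_zero] at b4 b5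
    generalize cr (d.e (b : ℕ)) (d.e ((k - 1 : ℕ))) = Ab at *
    generalize cr (d.e (c : ℕ)) (d.e ((k - 1 : ℕ))) = Ac at *
    generalize cr (d.e (e : ℕ)) (d.e ((k - 1 : ℕ))) = Ae at *
    generalize cr (d.e (f : ℕ)) (d.e ((k - 1 : ℕ))) = Af at *
    generalize cr (d.e (0 : ℕ)) (d.e (b : ℕ)) = Bb at *
    generalize cr (d.e (0 : ℕ)) (d.e (c : ℕ)) = Bc at *
    generalize cr (d.e (0 : ℕ)) (d.e (e : ℕ)) = Be at *
    generalize cr (d.e (0 : ℕ)) (d.e (f : ℕ)) = Bf at *
    have tb : Bb / Ab = (x1 * Bb) / (x1 * Ab) := (mul_div_mul_left _ _ n1).symm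
    have tc : Bc / Ac = (x2 * Bc) / (x2 * Ac) := (mul_div_mul_left _ _ n2).symm
    have te : Be / Ae = (x4 * Be) / (x4 * Ae) := (mul_div_mul_left _ _ n4).symm
    have tf : Bf / Af = (x5 * Bf) / (x5 * Af) := (mul_div_mul_left _ _ n5).symm
    have q1 : x2 * Ac = x1 * Ab := by linarith
    have q2 : x4 * Ae = x5 * Af := by linarith
    rw [tb, tc, te, tf, ← b4, ← b5, q1, q2]
    ring
  · subst htag he
    simp only [Rl.quad, e1, e2] at s0 s1 s2 s3 s4 s5
    simp at s0 s1 s2 s3 s4 s5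
    simp only [Rl.holds, if_neg one_ne_zero]
    rw [← Nat.cast_zero (R := ZMod (2 * k))] at s4
    have w3 : P n 3 - P n 2 = (P n 3 - P n 0) - (P n 2 - P n 0) := by abel
    have w4 : P n 3 - P n 1 = (P n 3 - P n 0) - (P n 1 - P n 0) := by abel
    have w5 : P n 2 - P n 1 = (P n 2 - P n 0) - (P n 1 - P n 0) := by abel
    rw [w3, s1, s2] at s3
    rw [w4, s2, s0] at s4
    rw [w5, s1, s0] at s5
    have a3 := congrArg (fun v => cr v (d.e ((k - 1 : ℕ)))) s3
    have a5 := congrArg (fun v => cr v (d.e ((k - 1 : ℕ)))) s5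
    have b4 := congrArg (fun v => cr (d.e (0 : ℕ)) v) s4
    have b5 := congrArg (fun v => cr (d.e (0 : ℕ)) v) s5
    simp only [cr_sub_left, cr_smul_left, cr_self, mul_zero, sub_zero] at a3 a5
    simp only [cr_sub_right, cr_smul_right, cr_self, mul_zero] at b4 b5
    generalize cr (d.e (b : ℕ)) (d.e ((k - 1 : ℕ))) = Ab at *
    generalize cr (d.e (c : ℕ)) (d.e ((k - 1 : ℕ))) = Ac at *
    generalize cr (d.e (f : ℕ)) (d.e ((k - 1 : ℕ))) = Af at *
    generalize cr (d.e (0 : ℕ)) (d.e (b : ℕ)) = Bb at *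
    generalize cr (d.e (0 : ℕ)) (d.e (c : ℕ)) = Bc at *
    generalize cr (d.e (0 : ℕ)) (d.e (f : ℕ)) = Bf at *
    generalize cr (d.e (0 : ℕ)) (d.e ((k - 1 : ℕ))) = Dd at *
    have tb : Bb / Ab = (x1 * Bb) / (x1 * Ab) := (mul_div_mul_left _ _ n1).symm
    have tc : Bc / Ac = (x2 * Bc) / (x2 * Ac) := (mul_div_mul_left _ _ n2).symm
    have tf : Bf / Af = (x5 * Bf) / (x5 * Af) := (mul_div_mul_left _ _ n5).symm
    have q1 : x2 * Ac = x1 * Ab := by linarith
    rw [tb, tc, tf, ← b5, q1, ← a5, ← add_div]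
    congr 1
    linarith

/-- the coordinates of the quadrangle of a relation -/
noncomputable def qp (t : ℕ → ℝ) (r : Rl) (i : ℕ) : ℝ × ℝ :=
  if r.1 = 0 then
    (if i = 0 then (0, 0) else if i = 1 then (1, 0)
      else if i = 2 then (t r.2.2.2.2 / (t r.2.2.2.2 - t r.2.1),
        t r.2.1 * (t r.2.2.2.2 / (t r.2.2.2.2 - t r.2.1)))
      else (t r.2.2.2.2 / (t r.2.2.2.2 - t r.2.1),
        t r.2.2.1 * (t r.2.2.2.2 / (t r.2.2.2.2 - t r.2.1))))
  else
    (if i = 0 then (0, 0) else if i = 1 then (0, t r.2.2.1)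
      else if i = 2 then (1, t r.2.1) else (1, t r.2.2.1))

theorem quad_of_rels (hk : 4 ≤ k) {rs : List Rl} (hok : ∀ r ∈ rs, Rl.ok k r) {t : ℕ → ℝ}
    (ht : ∀ j, 1 ≤ j → j < k - 1 → 0 < t j) (hmono : ∀ i j, 1 ≤ i → i < j → j < k - 1 → t i < t j)
    (h : ∀ r ∈ rs, Rl.holds t r) :
    ∃ (d : DS k) (P : ℕ → ℕ → ℝ × ℝ), QuadG k (rs.flatMap (Rl.quad k)) d P := by
  obtain ⟨d, hd⟩ := exists_DS (k := k) (by omega)
    (fun j => if j = 0 then (1, 0) else if j = k - 1 then (0, 1) else (1, t j)) (by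
      intro i j hij hj
      simp only [cr]
      by_cases h0 : i = 0
      · rw [if_pos h0]
        by_cases h1 : j = k - 1
        · rw [if_neg (by omega), if_pos h1]; norm_num
        · rw [if_neg (by omega), if_neg h1]
          have := ht j (by omega) (by omega)
          simpa using this
      · rw [if_neg h0, if_neg (by omega)]
        by_cases h1 : j = k - 1
        · rw [if_neg (by omega), if_pos h1]; norm_num
        · rw [if_neg (by omega), if_neg h1]
          have := hmono i j (by omega) hij (by omega)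
          simp only
          linarith)
  have d0 : d.e (0 : ZMod (2 * k)) = (1, 0) := by
    have := hd 0 (by omega)
    simpa using this
  have dk : d.e ((k - 1 : ℕ)) = (0, 1) := by
    have := hd (k - 1) (by omega)
    rw [if_neg (by omega), if_pos rfl] at this
    exact this
  have dj : ∀ j, 1 ≤ j → j < k - 1 → d.e (j : ℕ) = (1, t j) := by
    intro j h1 h2
    have := hd j (by omega)
    rw [if_neg (by omega), if_neg (by omega)] at this
    exact this
  have tne : ∀ i j, (1 ≤ i ∧ i < k - 1) → (1 ≤ j ∧ j < k - 1) → i ≠ j → t i - t j ≠ 0 := by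
    intro i j hi hj hij
    rcases Nat.lt_or_gt_of_ne hij with h | h
    · have := hmono i j hi.1 h hj.2
      exact (by linarith : t i - t j < 0).ne
    · have := hmono j i hj.1 h hi.2
      exact (by linarith : 0 < t i - t j).ne'
  have main : ∀ r ∈ rs, (∀ c < 6, ∃ x : ℝ, x ≠ 0 ∧ qp t r (e2 c) - qp t r (e1 c) =
      x • d.e ((Rl.quad k r).getD c 0 : ℕ)) ∧ ∀ c < 6, ∀ i < 4, i ≠ e1 c → i ≠ e2 c →
      cr (qp t r i - qp t r (e1 c)) (d.e ((Rl.quad k r).getD c 0 : ℕ)) ≠ 0 := by
    intro r hr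
    have hh := h r hr
    obtain ⟨hb, hc, hf, hbc, hcase⟩ := hok r hr
    obtain ⟨tag, b, c, e, f⟩ := r
    simp only at hb hc hf hbc hcase
    have pb := ht b hb.1 hb.2
    have pc := ht c hc.1 hc.2
    have pf := ht f hf.1 hf.2
    have nbc := tne b c hb hc hbc
    have db := dj b hb.1 hb.2
    have dc := dj c hc.1 hc.2
    have df := dj f hf.1 hf.2
    rcases hcase with ⟨htag, he1, he2, hbf⟩ | ⟨htag, he⟩
    · subst htag
      have pe := ht e he1 he2
      have de := dj e he1 he2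
      have nfb := tne f b hf hb (Ne.symm hbf)
      simp only [Rl.holds, if_true] at hh
      obtain ⟨x, hx⟩ : ∃ x, x = t f / (t f - t b) := ⟨_, rfl⟩
      have xne : x ≠ 0 := by rw [hx]; exact div_ne_zero pf.ne' nfb
      have x1 : x - 1 = t b / (t f - t b) := by
        rw [hx]; field_simp; ring
      have x1ne : x - 1 ≠ 0 := by rw [x1]; exact div_ne_zero pb.ne' nfb
      have r4 : (x - 1) * t e = t c * x := by
        rw [x1, hx]
        field_simp
        linarith
      have r5 : (x - 1) * t f = t b * x := by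
        rw [x1, hx]
        field_simp
      simp only [qp, if_true, Rl.quad, ← hx]
      constructor
      · intro c' hc'
        interval_cases c'
        · refine ⟨1, one_ne_zero, ?_⟩
          simp [e1, e2, d0]
        · refine ⟨x, xne, ?_⟩
          simp [e1, e2, db]; ring
        · refine ⟨x, xne, ?_⟩
          simp [e1, e2, dc]; ring
        · refine ⟨(t c - t b) * x, mul_ne_zero (tne c b hc hb (Ne.symm hbc)) xne, ?_⟩
          simp [e1, e2, dk]; ring
        · refine ⟨x - 1, x1ne, ?_⟩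
          simp [e1, e2, de]; exact r4.symm
        · refine ⟨x - 1, x1ne, ?_⟩
          simp [e1, e2, df]; exact r5.symm
      · intro c' hc' i hi h1 h2
        have z1 : x * (t b - t c) ≠ 0 := mul_ne_zero xne nbc
        interval_cases c' <;> interval_cases i <;> simp [e1, e2] at h1 h2 <;>
          simp [e1, e2, d0, dk, db, dc, de, df, cr]
        all_goals first
          | exact ⟨pb.ne', xne⟩
          | exact ⟨pc.ne', xne⟩
          | exact pb.ne'
          | exact pc.ne'
          | exact pf.ne'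
          | exact pe.ne'
          | exact xne
          | (intro hz; apply z1; linarith)
          | (intro hz; apply x1ne; linarith)
          | (intro hz; apply z1; nlinarith)
    · subst htag he
      simp only [Rl.holds, if_neg one_ne_zero] at hh
      simp only [qp, if_neg one_ne_zero, Rl.quad]
      constructor
      · intro c' hc'
        interval_cases c'
        · refine ⟨t c, pc.ne', ?_⟩
          simp [e1, e2, dk]
        · refine ⟨1, one_ne_zero, ?_⟩
          simp [e1, e2, db]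
        · refine ⟨1, one_ne_zero, ?_⟩
          simp [e1, e2, dc]
        · refine ⟨-t f, neg_ne_zero.2 pf.ne', ?_⟩
          simp [e1, e2, dk]; linarith
        · refine ⟨1, one_ne_zero, ?_⟩
          simp [e1, e2, d0]
        · refine ⟨1, one_ne_zero, ?_⟩
          simp [e1, e2, df]; linarith
      · intro c' hc' i hi h1 h2
        interval_cases c' <;> interval_cases i <;> simp [e1, e2] at h1 h2 <;>
          simp [e1, e2, d0, dk, db, dc, df, cr]
        all_goals first
          | exact pb.ne'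
          | exact pc.ne'
          | exact pf.ne'
          | (intro hz; linarith)
  refine ⟨d, fun n i => qp t (rs.getD n (0, 0, 0, 0, 0)) i, ?_, ?_⟩
  · intro f hf
    rw [length_flatMap_quad] at hf
    have hn : f / 6 < rs.length := by omega
    have hn' : rs[f / 6]? = some (rs[f / 6]) := List.getElem?_eq_getElem hn
    have h1 := (main _ (List.getElem_mem hn)).1 (f % 6) (Nat.mod_lt _ (by norm_num))
    rw [← getD_flatMap_quad k rs (f / 6) (f % 6) _ hn' (Nat.mod_lt _ (by norm_num)),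
      show 6 * (f / 6) + f % 6 = f by omega] at h1
    rw [List.getD_eq_getElem _ _ hn]
    exact h1
  · intro f hf
    rw [length_flatMap_quad] at hf
    have hn : f / 6 < rs.length := by omega
    have hn' : rs[f / 6]? = some (rs[f / 6]) := List.getElem?_eq_getElem hn
    have h1 := (main _ (List.getElem_mem hn)).2 (f % 6) (Nat.mod_lt _ (by norm_num))
    rw [← getD_flatMap_quad k rs (f / 6) (f % 6) _ hn' (Nat.mod_lt _ (by norm_num)),
      show 6 * (f / 6) + f % 6 = f by omega] at h1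
    rw [List.getD_eq_getElem _ _ hn]
    exact h1

end Pool.Agent.H670R2.Sl
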