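import Pool.Agent.H670R2.SlSound

/-!
Soundness, conclusion: the points of the quadrangles.
-/

namespace Pool.Agent.H670R2.Sl

variable {k : ℕ} {ms : List ℕ} {d : DS k} {q : Vx → ℝ × ℝ}

/-- the directions of the sides of all chains -/
theorem all_chains (hk : 8 ≤ k) (hD : Drawn d (adjV k ms) q)
    (hne : ∀ s i, blk k ms.length s i → q (.H s i 0) ≠ q (.H s i 1)) :
    ∃ c δ : ZMod (2 * k), (δ = 1 ∨ δ = -1) ∧ ∀ s, s < nT k ms.length → ∀ D, IsD k d q s D →
      D 4 = c + δ * (xs k (s + 1) + 4) ∧ D 5 = c + δ * (xs k (s + 1) + 5) := by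
  have hkk := kk k
  by_cases hT : nT k ms.length = 0
  · exact ⟨0, 1, Or.inl rfl, fun s hs => by omega⟩
  obtain ⟨D0, hD0⟩ := exists_D (ms := ms) hk hD (show 0 < nT k ms.length by omega)
  obtain ⟨δ, hδ, h1⟩ := chain hk hD hne (show 0 < nT k ms.length by omega) hD0
  have huniq : ∀ {s : ℕ} {D D' : ℕ → ZMod (2 * k)}, IsD k d q s D → IsD k d q s D' →
      ∀ i < k, D i = D' i := fun h h' i hi => (h i hi).unique (by omega) (h' i hi)
  have hδk : δ * k = k := by
    rcases hδ with rfl | rfl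
    · ring
    · rw [neg_one_mul, neg_k]
  refine ⟨D0 3 - δ * (xs k 1 + 3), δ, hδ, ?_⟩
  have key : ∀ s, s < nT k ms.length → ∀ D, IsD k d q s D →
      D 3 = D0 3 - δ * (xs k 1 + 3) + δ * (xs k (s + 1) + 3) ∧
      ∀ i, 3 ≤ i → i < k → D i = D (i - 1) + δ := by
    intro s
    induction s with
    | zero =>
        intro hs D hDD
        have e := huniq hDD hD0
        refine ⟨by rw [e 3 (by omega)]; ring, fun i h3 hi => ?_⟩
        rw [e i hi, e (i - 1) (by omega)]
        exact h1 i h3 hi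
    | succ s ih =>
        intro hs D' hDD'
        obtain ⟨D, hDD⟩ := exists_D (ms := ms) hk hD (show s < nT k ms.length by omega)
        obtain ⟨i1, i2⟩ := ih (by omega) D hDD
        have h4 := i2 4 (by norm_num) (by omega)
        obtain ⟨n1, n2⟩ := chain_next hk hD hne hs hDD hDD' hδ h4
        obtain ⟨δ', hδ', h2⟩ := chain hk hD hne hs hDD'
        have h3 := h2 3 (by norm_num) (by omega)
        have hδδ : δ' = δ := by
          have h3' : D' 3 = D' 2 + δ' := h3
          have h4' : D 4 = D 3 + δ := h4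
          rw [n1, n2, h4'] at h3'
          linear_combination -h3'
        refine ⟨?_, by rw [← hδδ]; exact h2⟩
        rw [n2, h4]
        change D 3 + δ + k = _
        rw [i1, xs_succ (s + 1)]
        linear_combination -hδk
  intro s hs D hDD
  obtain ⟨i1, i2⟩ := key s hs D hDD
  have h4 : D 4 = D 3 + δ := i2 4 (by norm_num) (by omega)
  have h5 : D 5 = D 4 + δ := i2 5 (by norm_num) (by omega)
  constructor
  · rw [h4, i1]; ring
  · rw [h5, h4, i1]; ring

/-- the direction of the edges between lines and hubs -/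
theorem tok_dir (hk : 8 ≤ k) (hD : Drawn d (adjV k ms) q)
    (hne : ∀ s i, blk k ms.length s i → q (.H s i 0) ≠ q (.H s i 1)) {c δ : ZMod (2 * k)}
    (hδ : δ = 1 ∨ δ = -1)
    (hc : ∀ s, s < nT k ms.length → ∀ D, IsD k d q s D →
      D 4 = c + δ * (xs k (s + 1) + 4) ∧ D 5 = c + δ * (xs k (s + 1) + 5)) {s : ℕ}
    (hs : s < nT k ms.length) (ht : tok k ms s = true) :
    Dr d q (.F (s / (4 * k) / (2 * k))) (.H (s + 1) 5 0) (c + δ * (xs k (s + 1) + 5)) := by
  have hkk := kk k
  obtain ⟨D, hDD⟩ := exists_D (ms := ms) hk hD hs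
  obtain ⟨h4, h5⟩ := hc s hs D hDD
  obtain ⟨y, ha, hb⟩ := hinge' hk hD hne (blk_of (ms := ms) hs (show 5 < k by omega) (by norm_num))
  obtain ⟨z1, l1⟩ := side_leg (ms := ms) hk hs (show 4 < k by omega)
  obtain ⟨z2, l2⟩ := side_leg (ms := ms) hk hs (show 5 < k by omega)
  have l3 := Leg.tk (w := 0) s hs ht
  have e1 := (hDD 4 (by omega)).symm
  have e2 := hDD 5 (by omega)
  obtain ⟨g, e3⟩ := hD.dir _ _ (Or.inr (Or.inr ⟨_, l3⟩))
  have s1 : stt s 4 = .H (s + 1) 4 1 := by simp [stt]
  have s1' : enn k s 4 = .H (s + 1) 5 0 := by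
    unfold enn; rw [if_neg (by omega), if_neg (by omega), if_pos (by omega)]
  have s2 : stt s 5 = .H (s + 1) 5 1 := by simp [stt]
  have s2' : enn k s 5 = .H (s + 1) 6 0 := by
    unfold enn; rw [if_neg (by omega), if_neg (by omega), if_pos (by omega)]
  rw [s1, s1'] at e1 l1
  rw [s2, s2'] at e2 l2
  have a1 := ha _ _ (Or.inr (Or.inr ⟨_, l1⟩)) l1.nd.1 e1
  have a2 := hb _ _ (Or.inl (Or.inr ⟨_, l2⟩)) l2.nd.2 e2
  have a3 := ha _ _ (Or.inr (Or.inr ⟨_, l3⟩)) l3.nd.1 e3
  have n13 : D 4 + k ≠ g := by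
    intro he
    rw [← he] at e3
    have := hD.dir_inj (Or.inr (Or.inr ⟨_, l1⟩)) (Or.inr (Or.inr ⟨_, l3⟩)) e1 e3
    simp at this
  have hδ0 : δ ≠ 0 := by
    rcases hδ with rfl | rfl
    · exact one_ne (by omega)
    · exact neg_ne_zero.2 (one_ne (by omega))
  have n45 : D 5 ≠ D 4 := by
    intro he
    rw [h4, h5] at he
    exact hδ0 (by linear_combination he)
  have a1' : D 4 = y - 1 ∨ D 4 = y := by
    rcases a1 with h | h
    · left; exact add_right_cancel h
    · right; exact add_right_cancel h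
  have hg : g = D 5 + k := by
    rcases a1' with h1 | h1 <;> rcases a2 with h2 | h2 <;> rcases a3 with h3 | h3
    all_goals first
      | exact absurd (h2.trans h1.symm) n45
      | (exfalso; apply n13; rw [h1, h3]; done)
      | (rw [h3, h2]; done)
  rw [hg] at e3
  have e4 := e3.symm
  have : D 5 + k + k = c + δ * (xs k (s + 1) + 5) := by rw [h5]; linear_combination hkk
  rwa [this] at e4

/-- reflection of a plane -/
def rfl2 (v : ℝ × ℝ) : ℝ × ℝ := (v.1, -v.2)

theorem cr_rfl2 (a b : ℝ × ℝ) : cr (rfl2 a) (rfl2 b) = cr b a := by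
  simp only [cr, rfl2]; ring

theorem quad_of_dir {c δ : ZMod (2 * k)} (hδ : δ = 1 ∨ δ = -1) {P : ℕ → ℕ → ℝ × ℝ}
    (h : ∀ f < ms.length, ∃ r : ℝ, r ≠ 0 ∧ P (f / 6) (e2 (f % 6)) - P (f / 6) (e1 (f % 6)) =
      r • d.e (c + δ * (ms.getD f 0 : ℕ))) : Quad k ms := by
  rcases hδ with rfl | rfl
  · refine ⟨⟨fun z => d.e (c + z), ?_, ?_⟩, P, ?_⟩
    · intro z
      rw [← add_assoc, d.per]
    · intro z n h1 h2
      rw [← add_assoc]
      exact d.pos _ n h1 h2
    · intro f hf
      obtain ⟨r, hr, h1⟩ := h f hf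
      rw [one_mul] at h1
      exact ⟨r, hr, h1⟩
  · refine ⟨⟨fun z => rfl2 (d.e (c - z)), ?_, ?_⟩, fun n i => rfl2 (P n i), ?_⟩
    · intro z
      have : c - (z + k) = c - z + k := by linear_combination -(kk k)
      rw [this, d.per]
      simp [rfl2]
    · intro z n h1 h2
      rw [cr_rfl2]
      have := d.pos (c - (z + n)) n h1 h2
      have e : c - (z + (n : ZMod (2 * k))) + n = c - z := by ring
      rwa [e] at this
    · intro f hf
      obtain ⟨r, hr, h1⟩ := h f hf
      refine ⟨r, hr, ?_⟩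
      rw [neg_one_mul, ← sub_eq_add_neg] at h1
      have h2 := congrArg Prod.fst h1
      have h3 := congrArg Prod.snd h1
      simp only [Prod.fst_sub, Prod.smul_fst, smul_eq_mul, Prod.snd_sub, Prod.smul_snd] at h2 h3
      ext
      · simpa [rfl2] using h2
      · simp only [rfl2, Prod.snd_sub, Prod.smul_snd, smul_eq_mul]
        linarith

theorem quad_of_drawn (hk : 8 ≤ k) (hke : Even k) (hD : Drawn d (adjV k ms) q)
    (hne : ∀ s i, blk k ms.length s i → q (.H s i 0) ≠ q (.H s i 1)) : Quad k ms := by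
  have hkk := kk k
  obtain ⟨c, δ, hδ, hc⟩ := all_chains hk hD hne
  have hδ2 : δ * δ = 1 := by rcases hδ with rfl | rfl <;> ring
  have hδk : δ * k = k := by
    rcases hδ with rfl | rfl
    · ring
    · rw [neg_one_mul, neg_k]
  have hNZ : NeZero (2 * k) := ⟨by omega⟩
  refine quad_of_dir (d := d) (c := c) hδ (P := fun n i => q (.P n i)) ?_
  intro f hf
  -- the possible directions of other neighbours of `F f`
  have hdir : ∀ v g, adjV k ms (.F f) v → (∀ s i b, v ≠ .H s i b) → Dr d q (.F f) v g →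
      g = c + δ * (ms.getD f 0 : ℕ) ∨ g = c + δ * (ms.getD f 0 : ℕ) + k := by
    intro v g hv hvn hg
    set e : ZMod (2 * k) := δ * (g - c) with he
    have hge : g = c + δ * e := by rw [he, ← mul_assoc, hδ2]; ring
    have hem : e.val % k = ms.getD f 0 % k := by
      by_contra hcon
      obtain ⟨s, hs1, hs2, hs3⟩ := tok_exists (k := k) (by omega) hke (f * (2 * k) + e.val)
      have hev : e.val < 2 * k := ZMod.val_lt e
      have hdiv : (f * (2 * k) + e.val) / (2 * k) = f := by
        rw [mul_comm, Nat.mul_add_div (by omega), Nat.div_eq_of_lt hev, add_zero]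
      have hmod : (f * (2 * k) + e.val) % (2 * k) = e.val := by
        rw [mul_comm, Nat.mul_add_mod, Nat.mod_eq_of_lt hev]
      have hsT : s < nT k ms.length := by
        have h1 : s < 4 * k * (s / (4 * k) + 1) := by
          have := Nat.div_add_mod s (4 * k)
          have h2 := Nat.mod_lt s (show 0 < 4 * k by omega)
          rw [Nat.mul_add, mul_one]; omega
        rw [hs1] at h1
        have h2 : f * (2 * k) + e.val + 1 ≤ ms.length * (2 * k) := by
          have : (f + 1) * (2 * k) ≤ ms.length * (2 * k) := Nat.mul_le_mul_right _ hf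
          rw [Nat.add_mul, one_mul] at this
          omega
        have h3 : 4 * k * (f * (2 * k) + e.val + 1) ≤ 4 * k * (ms.length * (2 * k)) :=
          Nat.mul_le_mul_left _ h2
        have h4 : 4 * k * (ms.length * (2 * k)) = nT k ms.length := by unfold nT; ring
        omega
      have ht : tok k ms s = true := by
        simp only [tok, Bool.and_eq_true, decide_eq_true_eq, Bool.not_eq_true',
          decide_eq_false_iff_not]
        refine ⟨hs2, ?_, ?_⟩
        · rw [hs3, hs1]
        · rw [hs1, hdiv, hmod]; exact hcon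
      have h1 := tok_dir hk hD hne hδ hc hsT ht
      rw [hs1, hdiv] at h1
      have h2 : xs k (s + 1) + 5 = e := by
        have := xs_five (k := k) (s := s) (t := e.val) (by
          rw [hs3, hmod, Nat.mod_eq_of_lt hev])
        rw [this, ZMod.natCast_zmod_val]
      rw [h2, ← hge] at h1
      have l := Leg.tk (w := 0) s hsT ht
      rw [hs1, hdiv] at l
      exact hvn _ _ _ (hD.dir_inj hv (Or.inl (Or.inr ⟨_, l⟩)) hg h1)
    have h1 : e = (ms.getD f 0 : ℕ) ∨ e = (ms.getD f 0 : ℕ) + k := by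
      have hev : e.val < 2 * k := ZMod.val_lt e
      have h2 : (e.val : ZMod (2 * k)) = ((ms.getD f 0 % k : ℕ) : ZMod (2 * k)) ∨
          (e.val : ZMod (2 * k)) = ((ms.getD f 0 % k : ℕ) : ZMod (2 * k)) + k := by
        rw [← hem]
        by_cases h3 : e.val < k
        · left; rw [Nat.mod_eq_of_lt h3]
        · right
          have h4 : e.val % k = e.val - k := by
            rw [Nat.mod_eq_sub_mod (by omega), Nat.mod_eq_of_lt (by omega)]
          rw [h4, Nat.cast_sub (by omega)]; ring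
      rw [ZMod.natCast_zmod_val] at h2
      have h3 : ((ms.getD f 0 : ℕ) : ZMod (2 * k)) = ((ms.getD f 0 % k : ℕ) : ZMod (2 * k)) ∨
          ((ms.getD f 0 : ℕ) : ZMod (2 * k)) = ((ms.getD f 0 % k : ℕ) : ZMod (2 * k)) + k := by
        have h4 := Nat.div_add_mod (ms.getD f 0) k
        have h5 : ((ms.getD f 0 : ℕ) : ZMod (2 * k)) = k * ((ms.getD f 0 / k : ℕ)) +
            ((ms.getD f 0 % k : ℕ) : ZMod (2 * k)) := by
          conv_lhs => rw [← h4]
          push_cast; ring
        rcases Nat.even_or_odd' (ms.getD f 0 / k) with ⟨t, ht | ht⟩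
        · left
          rw [h5, ht]; push_cast
          linear_combination (t : ZMod (2 * k)) * hkk
        · right
          rw [h5, ht]; push_cast
          linear_combination (t : ZMod (2 * k)) * hkk
      rcases h2 with h2 | h2 <;> rcases h3 with h3 | h3
      · left; rw [h2, h3]
      · right; rw [h2, h3]; linear_combination -hkk
      · right; rw [h2, h3]
      · left; rw [h2, h3]
    rcases h1 with h1 | h1
    · left; rw [hge, h1]
    · right; rw [hge, h1, mul_add, hδk]; ring
  have l1 := Leg.f1 (k := k) (w := 0) f hf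
  have l2 := Leg.f2 (k := k) (w := 0) f hf
  have A1 : adjV k ms (.F f) (.P (f / 6) (e1 (f % 6))) := Or.inl (Or.inr ⟨_, l1⟩)
  have A2 : adjV k ms (.F f) (.P (f / 6) (e2 (f % 6))) := Or.inl (Or.inr ⟨_, l2⟩)
  obtain ⟨g1, hg1⟩ := hD.dir _ _ A1
  obtain ⟨g2, hg2⟩ := hD.dir _ _ A2
  have b1 := hdir _ g1 A1 (by simp) hg1
  have b2 := hdir _ g2 A2 (by simp) hg2
  have hne12 : g1 ≠ g2 := by
    rintro rfl
    have := hD.dir_inj A1 A2 hg1 hg2
    simp only [Vx.P.injEq, true_and] at this
    have h6 : f % 6 < 6 := Nat.mod_lt _ (by norm_num)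
    have h7 : ∀ j < 6, e1 j ≠ e2 j := by
      intro j hj
      unfold e1 e2
      split_ifs <;> omega
    exact h7 _ h6 this
  obtain ⟨r1, hr1, h1⟩ := hg1
  obtain ⟨r2, hr2, h2⟩ := hg2
  have hsub : q (.P (f / 6) (e2 (f % 6))) - q (.P (f / 6) (e1 (f % 6))) =
      r2 • d.e g2 - r1 • d.e g1 := by rw [← h1, ← h2]; abel
  rcases b1 with b1 | b1 <;> rcases b2 with b2 | b2
  · exact absurd (b1.trans b2.symm) hne12
  · refine ⟨-(r1 + r2), by linarith [add_pos hr1 hr2] |> fun h : -(r1 + r2) < 0 => h.ne, ?_⟩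
    rw [hsub, b1, b2, d.per, smul_neg, neg_smul, add_smul]; abel
  · refine ⟨r1 + r2, (add_pos hr1 hr2).ne', ?_⟩
    rw [hsub, b1, b2, d.per, smul_neg, add_smul]; abel
  · exact absurd (b1.trans b2.symm) hne12

end Pool.Agent.H670R2.Sl
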