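import Pool.Agent.H670R2.SlPos
import Pool.Agent.H670R2.SlSound2

/-!
Correctness of the reduction from systems of equations to SLOPE NUMBER.
-/

namespace Pool.Agent.H670R2.Sl

/-- the number of slopes -/
def redK (m : ℕ) (es : List EC) : ℕ := nK (posW m es) (posS m es)

/-- the labels of the lines -/
def redM (m : ℕ) (es : List EC) : List ℕ :=
  (rels (posW m es) (posS m es)).flatMap (Rl.quad (redK m es))

theorem sl_correct {m : ℕ} {es : List EC} (hb : ∀ e ∈ es, e.below m) :
    (∃ x : ℕ → ℝ, ∀ e ∈ es, e.holds x) ↔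
    ∃ h : IsGraph (gr (redK m es) (redM m es)),
      slopeNumber (graphOf _ h) ≤ redK m es := by
  have hW : 2 ≤ posW m es := by unfold posW; omega
  have hk : 8 ≤ redK m es := by unfold redK nK nS; omega
  have hke : Even (redK m es) := ⟨2 * nS (posW m es) (posS m es) + 1, by unfold redK nK; ring⟩
  have hok := rels_ok hW (posS_below hb)
  rw [posS_correct hb]
  constructor
  · rintro ⟨x, hx, hx0, hc⟩
    obtain ⟨t, ht, hmono, hr⟩ := rels_of_pc hW (posS_below hb) hx hx0 hc
    obtain ⟨d, P, hP⟩ := quad_of_rels (by unfold redK at hk; omega) hok ht hmono hr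
    exact ⟨isGraph_gr' hk, drawing_of_quad hk hke ⟨_, length_flatMap_quad _ _⟩ hP _⟩
  · rintro ⟨h, hs⟩
    obtain ⟨p, hp, hpk⟩ := (slope_le h _).1 hs
    obtain ⟨d, q, hD, hne⟩ := drawn_of_drawing hk h p hp hpk
    have hQ := quad_of_drawn hk hke hD hne
    obtain ⟨t, ht, hr⟩ := rels_of_quad (by unfold redK at hk; omega) hok hQ
    exact pc_of_rels hW (posS_below hb) ht hr

end Pool.Agent.H670R2.Sl
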