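import Pool.Agent.H670R2.SlDir

/-!
Closed chains of `k` sides with three tips turn in one sense only.
-/

namespace Pool.Agent.H670R2.Sl

variable {k : ℕ}

theorem one_ne (hk : 2 ≤ k) : (1 : ZMod (2 * k)) ≠ 0 := by
  have := cast_ne (k := k) (n := 1) (m := 0) (by omega) (by omega) (by norm_num)
  simpa using this

theorem two_ne (hk : 2 ≤ k) : (2 : ZMod (2 * k)) ≠ 0 := by
  have := cast_ne (k := k) (n := 2) (m := 0) (by omega) (by omega) (by norm_num)
  simpa using this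

/-- a sum of `k` signs that is `k` modulo `2k` -/
theorem signs {s : ℕ → ℤ} (hs : ∀ i < k, s i ≤ 1 ∧ -1 ≤ s i) (hk : 0 < k)
    (h : (((∑ i ∈ Finset.range k, s i : ℤ)) : ZMod (2 * k)) = k) :
    (∀ i < k, s i = 1) ∨ (∀ i < k, s i = -1) := by
  have h1 : ∑ i ∈ Finset.range k, s i ≤ k := by
    calc ∑ i ∈ Finset.range k, s i ≤ ∑ i ∈ Finset.range k, (1 : ℤ) :=
          Finset.sum_le_sum fun i hi => (hs i (Finset.mem_range.1 hi)).1
      _ = k := by simp
  have h2 : -(k : ℤ) ≤ ∑ i ∈ Finset.range k, s i := by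
    calc -(k : ℤ) = ∑ i ∈ Finset.range k, (-1 : ℤ) := by simp
      _ ≤ ∑ i ∈ Finset.range k, s i :=
          Finset.sum_le_sum fun i hi => (hs i (Finset.mem_range.1 hi)).2
  have h3 : ((2 * k : ℕ) : ℤ) ∣ (∑ i ∈ Finset.range k, s i) - k := by
    rw [← ZMod.intCast_zmod_eq_zero_iff_dvd]
    push_cast
    push_cast at h
    rw [h]; ring
  obtain ⟨c, hc⟩ := h3
  push_cast at hc
  have hc' : c = 0 ∨ c = -1 := by
    have h4 : (2 * (k : ℤ)) * c ≤ 0 := by linarith
    have h5 : -(2 * (k : ℤ)) ≤ (2 * k) * c := by linarith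
    have hk' : (0 : ℤ) < k := by exact_mod_cast hk
    have h6 : c ≤ 0 := by
      by_contra hcon
      have : (1 : ℤ) ≤ c := by omega
      nlinarith
    have h7 : -1 ≤ c := by
      by_contra hcon
      have : c ≤ -2 := by omega
      nlinarith
    omega
  rcases hc' with rfl | rfl
  · left
    have h4 : ∑ i ∈ Finset.range k, (1 - s i) = 0 := by
      rw [Finset.sum_sub_distrib]; simp; linarith
    rw [Finset.sum_eq_zero_iff_of_nonneg (fun i hi => by
      have := (hs i (Finset.mem_range.1 hi)).1; linarith)] at h4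
    intro i hi
    have := h4 i (Finset.mem_range.2 hi)
    linarith
  · right
    have h4 : ∑ i ∈ Finset.range k, (1 + s i) = 0 := by
      rw [Finset.sum_add_distrib]; simp; linarith
    rw [Finset.sum_eq_zero_iff_of_nonneg (fun i hi => by
      have := (hs i (Finset.mem_range.1 hi)).2; linarith)] at h4
    intro i hi
    have := h4 i (Finset.mem_range.2 hi)
    linarith

/-- **Three tips.** -/
theorem three_tips (hk : 3 ≤ k) {D : ℕ → ZMod (2 * k)}
    (h : ∀ i, 3 ≤ i → i < k → ∃ y, (D (i - 1) = y - 1 ∨ D (i - 1) = y) ∧ (D i = y - 1 ∨ D i = y))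
    (h0 : D 0 = D (k - 1) + k + 1 ∨ D 0 = D (k - 1) + k - 1)
    (h1 : D 1 = D 0 + k + 1 ∨ D 1 = D 0 + k - 1)
    (h2 : D 2 = D 1 + k + 1 ∨ D 2 = D 1 + k - 1) :
    ∃ δ : ZMod (2 * k), (δ = 1 ∨ δ = -1) ∧ (∀ i, 3 ≤ i → i < k → D i = D (i - 1) + δ) ∧
      D 0 = D (k - 1) + k + δ ∧ D 1 = D 0 + k + δ ∧ D 2 = D 1 + k + δ := by
  have e0 : ∃ s : ℤ, (s = 1 ∨ s = -1) ∧ D 0 = D (k - 1) + k + (s : ZMod (2 * k)) := by
    rcases h0 with h | h
    · exact ⟨1, Or.inl rfl, by rw [h]; push_cast; ring⟩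
    · exact ⟨-1, Or.inr rfl, by rw [h]; push_cast; ring⟩
  have e1 : ∃ s : ℤ, (s = 1 ∨ s = -1) ∧ D 1 = D 0 + k + (s : ZMod (2 * k)) := by
    rcases h1 with h | h
    · exact ⟨1, Or.inl rfl, by rw [h]; push_cast; ring⟩
    · exact ⟨-1, Or.inr rfl, by rw [h]; push_cast; ring⟩
  have e2 : ∃ s : ℤ, (s = 1 ∨ s = -1) ∧ D 2 = D 1 + k + (s : ZMod (2 * k)) := by
    rcases h2 with h | h
    · exact ⟨1, Or.inl rfl, by rw [h]; push_cast; ring⟩
    · exact ⟨-1, Or.inr rfl, by rw [h]; push_cast; ring⟩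
  have e3 : ∀ i, ∃ s : ℤ, 3 ≤ i → i < k → (s ≤ 1 ∧ -1 ≤ s) ∧
      D i = D (i - 1) + (s : ZMod (2 * k)) := by
    intro i
    by_cases hi : 3 ≤ i ∧ i < k
    · obtain ⟨y, hy1, hy2⟩ := h i hi.1 hi.2
      rcases hy1 with hy1 | hy1 <;> rcases hy2 with hy2 | hy2
      · exact ⟨0, fun _ _ => ⟨by omega, by rw [hy1, hy2]; push_cast; ring⟩⟩
      · exact ⟨1, fun _ _ => ⟨by omega, by rw [hy1, hy2]; push_cast; ring⟩⟩
      · exact ⟨-1, fun _ _ => ⟨by omega, by rw [hy1, hy2]; push_cast; ring⟩⟩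
      · exact ⟨0, fun _ _ => ⟨by omega, by rw [hy1, hy2]; push_cast; ring⟩⟩
    · exact ⟨0, fun h1 h2 => absurd ⟨h1, h2⟩ hi⟩
  obtain ⟨s0, hs0, e0⟩ := e0
  obtain ⟨s1, hs1, e1⟩ := e1
  obtain ⟨s2, hs2, e2⟩ := e2
  choose r hr using e3
  let s : ℕ → ℤ := fun i => if i = 0 then s0 else if i = 1 then s1 else if i = 2 then s2 else r i
  have hsum : ∀ n, 3 ≤ n → n ≤ k →
      D (n - 1) = D 2 + ((∑ i ∈ Finset.range n, s i : ℤ) : ZMod (2 * k)) - s0 - s1 - s2 := by
    intro n hn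
    induction n, hn using Nat.le_induction with
    | base =>
        intro _
        rw [Finset.sum_range_succ, Finset.sum_range_succ, Finset.sum_range_succ]
        simp [s]
        ring
    | succ n hn ih =>
        intro hnk
        have h3 := (hr n hn (by omega)).2
        rw [Finset.sum_range_succ]
        have h4 : s n = r n := by
          simp only [s]
          rw [if_neg (by omega), if_neg (by omega), if_neg (by omega)]
        rw [Nat.add_sub_cancel, h3, ih (by omega), h4]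
        push_cast
        ring
  have h3 := hsum k hk le_rfl
  have h4 : ((∑ i ∈ Finset.range k, s i : ℤ) : ZMod (2 * k)) = k := by
    have h5 : D 2 = D (k - 1) + k + s0 + k + s1 + k + s2 := by rw [e2, e1, e0]
    have h6 := kk k
    linear_combination (-1 : ZMod (2 * k)) * h3 - h5 - (2 : ZMod (2 * k)) * h6
  have hb : ∀ i < k, s i ≤ 1 ∧ -1 ≤ s i := by
    intro i hi
    simp only [s]
    split_ifs with c0 c1 c2
    · rcases hs0 with h | h <;> rw [h] <;> norm_num
    · rcases hs1 with h | h <;> rw [h] <;> norm_num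
    · rcases hs2 with h | h <;> rw [h] <;> norm_num
    · exact (hr i (by omega) hi).1
  have fin : ∀ δ : ℤ, (δ = 1 ∨ δ = -1) → (∀ i < k, s i = δ) →
      ∃ δ : ZMod (2 * k), (δ = 1 ∨ δ = -1) ∧ (∀ i, 3 ≤ i → i < k → D i = D (i - 1) + δ) ∧
      D 0 = D (k - 1) + k + δ ∧ D 1 = D 0 + k + δ ∧ D 2 = D 1 + k + δ := by
    intro δ hδ hall
    refine ⟨(δ : ZMod (2 * k)), ?_, ?_, ?_, ?_, ?_⟩
    · rcases hδ with rfl | rfl <;> simp
    · intro i hi hik
      have h5 := hall i hik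
      have h6 : s i = r i := by
        simp only [s]
        rw [if_neg (by omega), if_neg (by omega), if_neg (by omega)]
      rw [(hr i hi hik).2, ← h5, h6]
    · have h5 : s 0 = δ := hall 0 (by omega)
      simp only [s, if_true] at h5
      rw [e0, h5]
    · have h5 : s 1 = δ := hall 1 (by omega)
      simp only [s] at h5
      norm_num at h5
      rw [e1, h5]
    · have h5 : s 2 = δ := hall 2 (by omega)
      simp only [s] at h5
      norm_num at h5
      rw [e2, h5]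
  rcases signs hb (by omega) h4 with h5 | h5
  · exact fin 1 (Or.inl rfl) h5
  · exact fin (-1) (Or.inr rfl) h5

end Pool.Agent.H670R2.Sl
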