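import Pool.Agent.H670R2.SlTok
import Pool.Agent.H670R2.SlTips

/-!
Soundness: the directions in a drawing of the graph of the reduction with `k` slopes.
-/

namespace Pool.Agent.H670R2.Sl

variable {k : ℕ}

/-- no common neighbour of hubs -/
def nd (k N : ℕ) : Vx → Prop
  | .P _ _ => True
  | .F _ => True
  | .H s i b => b < 2 ∨ ¬ blk k N s i

theorem Leg.nd {ms : List ℕ} {w : ℕ → ZMod (2 * k)} {u v : Vx} {z : ZMod (2 * k)}
    (h : Leg k ms w u v z) : nd k ms.length u ∧ nd k ms.length v := by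
  cases h <;> simp [Sl.nd]

/-- start of the `i`-th side of the chain `s + 1` -/
def stt (s i : ℕ) : Vx :=
  if i ≤ 2 then .H (s + 1) i 0 else if i = 3 then .H s 4 0 else .H (s + 1) i 1

/-- end of the `i`-th side of the chain `s + 1` -/
def enn (k s i : ℕ) : Vx :=
  if i ≤ 1 then .H (s + 1) (i + 1) 0 else if i = 2 then .H s 4 1
  else if i + 1 < k then .H (s + 1) (i + 1) 0 else .H (s + 1) 0 0

variable {ms : List ℕ}

theorem side_leg (hk : 8 ≤ k) {s i : ℕ} (hs : s < nT k ms.length) (hi : i < k) :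
    ∃ z, Leg k ms 0 (stt s i) (enn k s i) z := by
  unfold stt enn
  by_cases h0 : i = 0
  · subst h0; exact ⟨_, Leg.l0 s hs⟩
  by_cases h1 : i = 1
  · subst h1; exact ⟨_, Leg.l1 s hs⟩
  by_cases h2 : i = 2
  · subst h2; exact ⟨_, Leg.l2 s hs⟩
  by_cases h3 : i = 3
  · subst h3
    rw [if_neg (by norm_num), if_pos rfl, if_neg (by norm_num), if_neg (by norm_num),
      if_pos (by omega)]
    exact ⟨_, Leg.l3 s hs⟩
  rw [if_neg (by omega), if_neg h3, if_neg (by omega), if_neg h2]
  by_cases h4 : i + 1 < k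
  · rw [if_pos h4]
    obtain ⟨j, rfl⟩ : ∃ j, i = j + 4 := ⟨i - 4, by omega⟩
    exact ⟨_, Leg.lm s j hs (by omega)⟩
  · rw [if_neg h4]
    obtain rfl : i = k - 1 := by omega
    exact ⟨_, Leg.lk s hs⟩

section

variable {d : DS k} {q : Vx → ℝ × ℝ}

theorem hinge' (hk : 8 ≤ k) (hD : Drawn d (adjV k ms) q)
    (hne : ∀ s i, blk k ms.length s i → q (.H s i 0) ≠ q (.H s i 1)) {s i : ℕ}
    (hb : blk k ms.length s i) : ∃ y,
      (∀ w z, adjV k ms (.H s i 0) w → nd k ms.length w → Dr d q (.H s i 0) w z →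
        z = y - 1 + k ∨ z = y + k) ∧
      (∀ w z, adjV k ms (.H s i 1) w → nd k ms.length w → Dr d q (.H s i 1) w z →
        z = y - 1 ∨ z = y) := by
  classical
  have hC : ∀ c ∈ (Finset.range (2 * k - 2)).image (fun j => Vx.H s i (j + 2)),
      ∃ j < 2 * k - 2, c = .H s i (j + 2) := by
    intro c hc
    rw [Finset.mem_image] at hc
    obtain ⟨j, hj, rfl⟩ := hc
    exact ⟨j, Finset.mem_range.1 hj, rfl⟩
  obtain ⟨y, h1, h2⟩ := hinge (a := Vx.H s i 0) (b := Vx.H s i 1)
    (C := (Finset.range (2 * k - 2)).image (fun j => Vx.H s i (j + 2))) (by omega) hD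
    (hne s i hb) (by
      rw [Finset.card_image_of_injective, Finset.card_range]
      intro a b h
      simp at h
      exact h) (by
      intro c hc
      obtain ⟨j, hj, rfl⟩ := hC c hc
      exact Or.inl (Or.inl (Bone.b0 s i j hb hj))) (by
      intro c hc
      obtain ⟨j, hj, rfl⟩ := hC c hc
      exact Or.inl (Or.inl (Bone.b1 s i j hb hj)))
  have hn : ∀ w, nd k ms.length w →
      w ∉ (Finset.range (2 * k - 2)).image (fun j => Vx.H s i (j + 2)) := by
    intro w hw hc
    obtain ⟨j, hj, rfl⟩ := hC w hc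
    rcases hw with h | h
    · omega
    · exact h hb
  exact ⟨y, fun w z hw hwn => h1 w hw (hn w hwn) z, fun w z hw hwn => h2 w hw (hn w hwn) z⟩

theorem blk_of {s i : ℕ} (hs : s < nT k ms.length) (hi : i < k) (h3 : i ≠ 3) :
    blk k ms.length (s + 1) i := ⟨by omega, hi, h3, Or.inl (by omega)⟩

theorem blk_of4 (hk : 8 ≤ k) {s : ℕ} (hs : s < nT k ms.length + 1) :
    blk k ms.length s 4 := ⟨hs, by omega, by norm_num, Or.inr rfl⟩

/-- the directions of the sides of a chain -/
def IsD (k : ℕ) (d : DS k) (q : Vx → ℝ × ℝ) (s : ℕ) (D : ℕ → ZMod (2 * k)) : Prop :=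
  ∀ i < k, Dr d q (stt s i) (enn k s i) (D i)

theorem exists_D (hk : 8 ≤ k) (hD : Drawn d (adjV k ms) q) {s : ℕ} (hs : s < nT k ms.length) :
    ∃ D, IsD k d q s D := by
  have : ∀ i, ∃ z, i < k → Dr d q (stt s i) (enn k s i) z := by
    intro i
    by_cases hi : i < k
    · obtain ⟨z, hz⟩ := side_leg (ms := ms) hk hs hi
      obtain ⟨z', hz'⟩ := hD.dir _ _ (Or.inl (Or.inr ⟨z, hz⟩))
      exact ⟨z', fun _ => hz'⟩
    · exact ⟨0, fun h => absurd h hi⟩
  choose D hD using this
  exact ⟨D, fun i hi => hD i hi⟩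

theorem two_of_two {y a b : ZMod (2 * k)} (ha : a = y - 1 + k ∨ a = y + k)
    (hb : b = y - 1 + k ∨ b = y + k) (h : a ≠ b) : b = a + 1 ∨ b = a - 1 := by
  rcases ha with rfl | rfl <;> rcases hb with rfl | rfl
  · exact absurd rfl h
  · left; ring
  · right; ring
  · exact absurd rfl h

/-- all chains turn in one sense -/
theorem chain (hk : 8 ≤ k) (hD : Drawn d (adjV k ms) q)
    (hne : ∀ s i, blk k ms.length s i → q (.H s i 0) ≠ q (.H s i 1)) {s : ℕ}
    (hs : s < nT k ms.length) {D : ℕ → ZMod (2 * k)} (hDD : IsD k d q s D) :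
    ∃ δ : ZMod (2 * k), (δ = 1 ∨ δ = -1) ∧ ∀ i, 3 ≤ i → i < k → D i = D (i - 1) + δ := by
  have hkk := kk k
  have leg : ∀ i, i < k → ∃ z, Leg k ms 0 (stt s i) (enn k s i) z :=
    fun i hi => side_leg hk hs hi
  have adj1 : ∀ i, i < k → adjV k ms (stt s i) (enn k s i) ∧ nd k ms.length (enn k s i) := by
    intro i hi
    obtain ⟨z, hz⟩ := leg i hi
    exact ⟨Or.inl (Or.inr ⟨z, hz⟩), hz.nd.2⟩
  have adj2 : ∀ i, i < k → adjV k ms (enn k s i) (stt s i) ∧ nd k ms.length (stt s i) := by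
    intro i hi
    obtain ⟨z, hz⟩ := leg i hi
    exact ⟨Or.inr (Or.inr ⟨z, hz⟩), hz.nd.1⟩
  have tip : ∀ i j c, i < k → j < k → c ≤ 2 → enn k s i = .H (s + 1) c 0 →
      stt s j = .H (s + 1) c 0 → stt s i ≠ enn k s j → D j = D i + k + 1 ∨ D j = D i + k - 1 := by
    intro i j c hi hj hc h1 h2 hne'
    obtain ⟨y, ha, -⟩ := hinge' hk hD hne (blk_of (ms := ms) hs (by omega : c < k) (by omega))
    have e1 := (hDD i hi).symm
    have e2 := hDD j hj
    have a1 := adj2 i hi
    have a2 := adj1 j hj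
    rw [h1] at e1 a1
    rw [h2] at e2 a2
    refine two_of_two (ha _ _ a1.1 a1.2 e1) (ha _ _ a2.1 a2.2 e2) ?_
    intro he
    rw [← he] at e2
    exact hne' (hD.dir_inj a1.1 a2.1 e1 e2)
  have htips := three_tips (k := k) (by omega) (D := D) ?_ ?_ ?_ ?_
  · obtain ⟨δ, h1, h2, -⟩ := htips
    exact ⟨δ, h1, h2⟩
  · intro i hi hik
    by_cases h3 : i = 3
    · subst h3
      obtain ⟨y, ha, hb⟩ := hinge' hk hD hne (blk_of4 (ms := ms) hk (show s < _ + 1 by omega))
      have e1 := hDD 3 hik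
      have a1 := adj1 3 hik
      have h1 : stt s 3 = .H s 4 0 := by simp [stt]
      rw [h1] at e1 a1
      have e2 := (hDD 2 (by omega)).symm
      have a2 := adj2 2 (by omega)
      have h2 : enn k s 2 = .H s 4 1 := by simp [enn]
      rw [h2] at e2 a2
      refine ⟨y + k, ?_, ?_⟩
      · rcases hb _ _ a2.1 a2.2 e2 with h | h
        · left
          change D 2 = _
          linear_combination h - hkk
        · right
          change D 2 = _
          linear_combination h - hkk
      · rcases ha _ _ a1.1 a1.2 e1 with h | h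
        · left; rw [h]; ring
        · right; exact h
    · obtain ⟨y, ha, hb⟩ := hinge' hk hD hne (blk_of (ms := ms) hs hik h3)
      have e1 := hDD i hik
      have a1 := adj1 i hik
      have h1 : stt s i = .H (s + 1) i 1 := by
        unfold stt; rw [if_neg (by omega), if_neg h3]
      rw [h1] at e1 a1
      have e2 := (hDD (i - 1) (by omega)).symm
      have a2 := adj2 (i - 1) (by omega)
      have h2 : enn k s (i - 1) = .H (s + 1) i 0 := by
        unfold enn
        rw [if_neg (by omega), if_neg (by omega), if_pos (by omega), Nat.sub_add_cancel (by omega)]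
      rw [h2] at e2 a2
      refine ⟨y, ?_, hb _ _ a1.1 a1.2 e1⟩
      rcases ha _ _ a2.1 a2.2 e2 with h | h
      · left; exact add_right_cancel h
      · right; exact add_right_cancel h
  · refine tip (k - 1) 0 0 (by omega) (by omega) (by norm_num) ?_ ?_ ?_
    · unfold enn
      rw [if_neg (by omega), if_neg (by omega), if_neg (by omega)]
    · simp [stt]
    · unfold stt enn
      rw [if_neg (by omega), if_neg (by omega)]
      simp
  · refine tip 0 1 1 (by omega) (by omega) (by norm_num) ?_ ?_ ?_ <;> simp [stt, enn]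
  · refine tip 1 2 2 (by omega) (by omega) (by norm_num) ?_ ?_ ?_ <;> simp [stt, enn]

/-- consecutive chains -/
theorem chain_next (hk : 8 ≤ k) (hD : Drawn d (adjV k ms) q)
    (hne : ∀ s i, blk k ms.length s i → q (.H s i 0) ≠ q (.H s i 1)) {s : ℕ}
    (hs : s + 1 < nT k ms.length) {D D' : ℕ → ZMod (2 * k)} (hDD : IsD k d q s D)
    (hDD' : IsD k d q (s + 1) D') {δ : ZMod (2 * k)} (hδ : δ = 1 ∨ δ = -1)
    (h4 : D 4 = D 3 + δ) : D' 2 = D 3 + k ∧ D' 3 = D 4 + k := by
  have hkk := kk k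
  obtain ⟨y, ha, hb⟩ := hinge' hk hD hne (blk_of4 (ms := ms) hk (show s + 1 < _ + 1 by omega))
  obtain ⟨z1, l1⟩ := side_leg (ms := ms) hk (show s < _ by omega) (show 3 < k by omega)
  obtain ⟨z2, l2⟩ := side_leg (ms := ms) hk hs (show 3 < k by omega)
  obtain ⟨z3, l3⟩ := side_leg (ms := ms) hk (show s < _ by omega) (show 4 < k by omega)
  obtain ⟨z4, l4⟩ := side_leg (ms := ms) hk hs (show 2 < k by omega)
  have e1 := (hDD 3 (by omega)).symm
  have e2 := hDD' 3 (by omega)
  have e3 := hDD 4 (by omega)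
  have e4 := (hDD' 2 (by omega)).symm
  have s1 : enn k s 3 = .H (s + 1) 4 0 := by
    unfold enn; rw [if_neg (by omega), if_neg (by omega), if_pos (by omega)]
  have s1' : stt s 3 = .H s 4 0 := by simp [stt]
  have s2 : stt (s + 1) 3 = .H (s + 1) 4 0 := by simp [stt]
  have s2' : enn k (s + 1) 3 = .H (s + 1 + 1) 4 0 := by
    unfold enn; rw [if_neg (by omega), if_neg (by omega), if_pos (by omega)]
  have s3 : stt s 4 = .H (s + 1) 4 1 := by simp [stt]
  have s3' : enn k s 4 = .H (s + 1) 5 0 := by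
    unfold enn; rw [if_neg (by omega), if_neg (by omega), if_pos (by omega)]
  have s4 : enn k (s + 1) 2 = .H (s + 1) 4 1 := by simp [enn]
  have s4' : stt (s + 1) 2 = .H (s + 1 + 1) 2 0 := by simp [stt]
  rw [s1, s1'] at e1 l1
  rw [s2, s2'] at e2 l2
  rw [s3, s3'] at e3 l3
  rw [s4, s4'] at e4 l4
  have a1 := ha _ _ (Or.inr (Or.inr ⟨_, l1⟩)) l1.nd.1 e1
  have a2 := ha _ _ (Or.inl (Or.inr ⟨_, l2⟩)) l2.nd.2 e2
  have a3 := hb _ _ (Or.inl (Or.inr ⟨_, l3⟩)) l3.nd.2 e3
  have a4 := hb _ _ (Or.inr (Or.inr ⟨_, l4⟩)) l4.nd.1 e4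
  have n12 : D 3 + k ≠ D' 3 := by
    intro he
    rw [← he] at e2
    have := hD.dir_inj (Or.inr (Or.inr ⟨_, l1⟩)) (Or.inl (Or.inr ⟨_, l2⟩)) e1 e2
    simp at this
    omega
  have n34 : D 4 ≠ D' 2 + k := by
    intro he
    rw [← he] at e4
    have := hD.dir_inj (Or.inl (Or.inr ⟨_, l3⟩)) (Or.inr (Or.inr ⟨_, l4⟩)) e3 e4
    simp at this
  have hδ0 : δ ≠ 0 := by
    rcases hδ with rfl | rfl
    · exact one_ne (by omega)
    · exact neg_ne_zero.2 (one_ne (by omega))
  have n43 : D 4 ≠ D 3 := by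
    intro he
    rw [h4] at he
    exact hδ0 (by linear_combination he)
  have a1' : D 3 = y - 1 ∨ D 3 = y := by
    rcases a1 with h | h
    · left; exact add_right_cancel h
    · right; exact add_right_cancel h
  constructor
  · have : D' 2 + k = D 3 := by
      rcases a1' with h1 | h1 <;> rcases a3 with h3 | h3 <;> rcases a4 with h5 | h5
      all_goals first
        | exact absurd (h3.trans h1.symm) n43
        | exact absurd (h3.trans h5.symm) n34
        | exact h5.trans h1.symm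
    linear_combination this - hkk
  · rcases a1' with h1 | h1 <;> rcases a3 with h3 | h3 <;> rcases a2 with h5 | h5
    all_goals first
      | exact absurd (h3.trans h1.symm) n43
      | (exfalso; apply n12; rw [h1, h5]; done)
      | (rw [h5, h3]; done)

end

end Pool.Agent.H670R2.Sl
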