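import Pool.Agent.H670R2.SlGraph

/-!
Arithmetic modulo `2k`, and a path with prescribed directions through prescribed points.
-/

namespace Pool.Agent.H670R2.Sl

variable {k : ℕ}

theorem ksq (hke : Even k) : ((k : ZMod (2 * k)) * k) = 0 := by
  obtain ⟨m, hm⟩ := hke
  have h : ((2 * k * m : ℕ) : ZMod (2 * k)) = 0 := by
    rw [ZMod.natCast_eq_zero_iff]; exact Dvd.intro _ rfl
  have h2 : k * k = 2 * k * m := by
    have : k * k = k * (m + m) := by rw [← hm]
    rw [this]; ring
  rw [← h, ← h2]; push_cast; ring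

theorem ksucc_sq (hke : Even k) : (((k : ZMod (2 * k)) + 1) * (k + 1)) = 1 := by
  linear_combination ksq hke + kk k

theorem xs_succ (s : ℕ) : xs k (s + 1) = xs k s + k + 1 := by
  unfold xs; push_cast; ring

theorem cast_inj_of_lt {s s' : ℕ} (h : (s : ZMod (2 * k)) = s')
    (h1 : s < s' + 2 * k) (h2 : s' < s + 2 * k) : s = s' := by
  have h3 := (ZMod.natCast_eq_natCast_iff s s' (2 * k)).1 h
  rcases Nat.le_total s s' with h4 | h4
  · obtain ⟨c, hc⟩ := (Nat.modEq_iff_dvd' h4).1 h3
    rcases Nat.eq_zero_or_pos c with rfl | hc0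
    · omega
    · have : 2 * k * 1 ≤ 2 * k * c := Nat.mul_le_mul_left _ hc0
      omega
  · obtain ⟨c, hc⟩ := (Nat.modEq_iff_dvd' h4).1 h3.symm
    rcases Nat.eq_zero_or_pos c with rfl | hc0
    · omega
    · have : 2 * k * 1 ≤ 2 * k * c := Nat.mul_le_mul_left _ hc0
      omega

/-- the value of `xs` from a congruence -/
theorem xs_five {s t : ℕ} (h : ((s + 1) * (k + 1) + 5) % (2 * k) = t % (2 * k)) :
    xs k (s + 1) + 5 = (t : ZMod (2 * k)) := by
  have := (ZMod.natCast_eq_natCast_iff _ _ (2 * k)).2 (show _ ≡ _ [MOD 2 * k] from h)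
  rw [← this]; unfold xs; push_cast; ring

theorem tok_unique (hk : 0 < k) (hke : Even k) {s s' : ℕ} (h1 : 2 * k ≤ s % (4 * k))
    (h2 : 2 * k ≤ s' % (4 * k)) (h3 : s / (4 * k) = s' / (4 * k))
    (h4 : ((s + 1) * (k + 1) + 5) % (2 * k) = ((s' + 1) * (k + 1) + 5) % (2 * k)) : s = s' := by
  have e1 := xs_five h4
  have e2 : (s : ZMod (2 * k)) = s' := by
    unfold xs at e1
    push_cast at e1
    have h5 := ksucc_sq hke
    linear_combination ((k : ZMod (2 * k)) + 1) * e1 + ((s' : ZMod (2 * k)) - s) * h5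
  have h6 := Nat.div_add_mod s (4 * k)
  have h7 := Nat.div_add_mod s' (4 * k)
  have h8 := Nat.mod_lt s (show 0 < 4 * k by omega)
  have h9 := Nat.mod_lt s' (show 0 < 4 * k by omega)
  rw [← h3] at h7
  exact cast_inj_of_lt e2 (by omega) (by omega)

theorem tok_exists (hk : 0 < k) (hke : Even k) (t : ℕ) : ∃ s, s / (4 * k) = t ∧
    2 * k ≤ s % (4 * k) ∧ ((s + 1) * (k + 1) + 5) % (2 * k) = t % (2 * k) := by
  have : NeZero (2 * k) := ⟨by omega⟩
  let u : ZMod (2 * k) := ((t : ZMod (2 * k)) - 5) * (k + 1) - 1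
  have hu : u.val < 2 * k := ZMod.val_lt u
  have hmod : (4 * k * t + (2 * k + u.val)) % (4 * k) = 2 * k + u.val := by
    rw [Nat.mul_add_mod]; exact Nat.mod_eq_of_lt (by omega)
  refine ⟨4 * k * t + (2 * k + u.val), ?_, ?_, ?_⟩
  · rw [Nat.mul_add_div (by omega), Nat.div_eq_of_lt (by omega), add_zero]
  · rw [hmod]; omega
  · refine (ZMod.natCast_eq_natCast_iff _ _ (2 * k)).1 ?_
    push_cast
    rw [ZMod.natCast_zmod_val]
    have h5 := ksucc_sq hke
    have h6 := kk k
    simp only [u]
    linear_combination ((t : ZMod (2 * k)) - 5) * h5 + ((2 : ZMod (2 * k)) * t + 1) * (k + 1) * h6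

/-- directions of the path -/
theorem e_add_k (hke : Even k) (d : DS k) (j : ℕ) :
    d.e (xs k (j + k + 1) + 3) = - d.e (xs k (j + 1) + 3) := by
  have : xs k (j + k + 1) + 3 = xs k (j + 1) + 3 + k := by
    unfold xs; push_cast
    linear_combination ksq hke
  rw [this, d.per]

theorem sum_turn (hke : Even k) (d : DS k) (a : ℕ) :
    ∑ j ∈ Finset.range (2 * k), d.e (xs k (a + j + 1) + 3) = 0 := by
  have h2 : Finset.range (2 * k) = Finset.range (k + k) := by rw [two_mul]
  rw [h2, Finset.sum_range_add, ← Finset.sum_add_distrib]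
  refine Finset.sum_eq_zero fun j _ => ?_
  have h := e_add_k hke d (a + j)
  rw [show a + (k + j) + 1 = a + j + k + 1 by ring, h]
  simp

theorem block_exists (hk : 8 ≤ k) (hke : Even k) (d : DS k) (a r : ℕ) (hr : 2 * k ≤ r)
    (B G : ℝ × ℝ) : ∃ l : ℕ → ℝ, (∀ j, 0 < l j) ∧
      B + ∑ j ∈ Finset.range (r + 1), l j • d.e (xs k (a + j + 1) + 3) = G := by
  classical
  set E : ℕ → ℝ × ℝ := fun j => d.e (xs k (a + j + 1) + 3) with hE
  have hne : cr (E 0) (E 1) ≠ 0 := by
    have h1 : E 1 = - d.e (xs k (a + 0 + 1) + 3 + (1 : ℕ)) := by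
      simp only [hE]
      rw [← d.per]
      congr 1
      rw [show a + 1 + 1 = (a + 1) + 1 by ring, xs_succ]
      push_cast
      ring
    rw [h1, cr_neg_right]
    have := d.pos (xs k (a + 0 + 1) + 3) 1 (by norm_num) (by omega)
    exact (neg_neg_of_pos this).ne
  obtain ⟨U, hU⟩ : ∃ U, U = ∑ j ∈ Finset.range (r + 1 - 2 * k), E (2 * k + j) := ⟨_, rfl⟩
  have hb := cr_basis hne (G - B - U)
  obtain ⟨α, hα⟩ : ∃ α, α = cr (G - B - U) (E 1) / cr (E 0) (E 1) := ⟨_, rfl⟩
  obtain ⟨β, hβ⟩ : ∃ β, β = cr (E 0) (G - B - U) / cr (E 0) (E 1) := ⟨_, rfl⟩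
  rw [← hα, ← hβ] at hb
  obtain ⟨M, hM⟩ : ∃ M, M = 1 + |α| + |β| := ⟨_, rfl⟩
  refine ⟨fun j => (if j < 2 * k then M else 1) + ((if j = 0 then α else 0) +
    (if j = 1 then β else 0)), ?_, ?_⟩
  · intro j
    have h1 := neg_abs_le α
    have h2 := neg_abs_le β
    have h3 := abs_nonneg α
    have h4 := abs_nonneg β
    dsimp only
    by_cases c1 : j < 2 * k
    · rw [if_pos c1]
      split_ifs <;> first | omega | linarith
    · rw [if_neg c1, if_neg (by omega), if_neg (by omega)]; norm_num
  · have h1 : ∑ j ∈ Finset.range (r + 1), (if j < 2 * k then M else 1) • E j = U := by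
      have : r + 1 = 2 * k + (r + 1 - 2 * k) := by omega
      rw [this, Finset.sum_range_add]
      have h2 : ∑ j ∈ Finset.range (2 * k), (if j < 2 * k then M else (1 : ℝ)) • E j = 0 := by
        rw [Finset.sum_congr rfl (g := fun j => M • E j) (fun j hj => by
          rw [if_pos (Finset.mem_range.1 hj)]), ← Finset.smul_sum]
        rw [show ∑ j ∈ Finset.range (2 * k), E j = 0 from sum_turn hke d a, smul_zero]
      rw [h2, zero_add, hU]
      refine Finset.sum_congr rfl fun j _ => ?_
      rw [if_neg (by omega), one_smul]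
    have h2 : ∑ j ∈ Finset.range (r + 1), (if j = 0 then α else 0) • E j = α • E 0 := by
      rw [Finset.sum_eq_single 0]
      · simp
      · intro j _ hj; simp [hj]
      · intro h; simp at h
    have h3 : ∑ j ∈ Finset.range (r + 1), (if j = 1 then β else 0) • E j = β • E 1 := by
      rw [Finset.sum_eq_single 1]
      · simp
      · intro j _ hj; simp [hj]
      · intro h; simp at h; omega
    have h4 : ∑ j ∈ Finset.range (r + 1), ((if j < 2 * k then M else 1) +
        ((if j = 0 then α else 0) + (if j = 1 then β else 0))) • E j =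
        U + (α • E 0 + β • E 1) := by
      rw [← h1, ← h2, ← h3, ← Finset.sum_add_distrib, ← Finset.sum_add_distrib]
      exact Finset.sum_congr rfl fun j _ => by rw [add_smul, add_smul]
    rw [h4, ← hb]
    abel

theorem path_exists (hk : 8 ≤ k) (hke : Even k) (d : DS k) (G : ℕ → ℝ × ℝ) (T : ℕ) :
    ∃ Q : ℕ → ℝ × ℝ, (∀ s, ∃ l : ℝ, 0 < l ∧ Q (s + 1) - Q s = l • d.e (xs k (s + 1) + 3)) ∧
      ∀ s < T, 2 * k ≤ s % (4 * k) →
        ((s + 1) * (k + 1) + 5) % (2 * k) = s / (4 * k) % (2 * k) → Q (s + 1) = G s := by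
  classical
  have key : ∀ n : ℕ, ∃ l : ℕ → ℝ, (∀ j, 0 < l j) ∧ ∀ s < 4 * k * n, 2 * k ≤ s % (4 * k) →
      ((s + 1) * (k + 1) + 5) % (2 * k) = s / (4 * k) % (2 * k) →
        ∑ j ∈ Finset.range (s + 1), l j • d.e (xs k (j + 1) + 3) = G s := by
    intro n
    induction n with
    | zero => exact ⟨fun _ => 1, fun _ => one_pos, fun s hs => by simp at hs⟩
    | succ n ih =>
        obtain ⟨l, hl, h1⟩ := ih
        obtain ⟨σ, hσ1, hσ2, hσ3⟩ := tok_exists (k := k) (by omega) hke n
        have hσ4 := Nat.div_add_mod σ (4 * k)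
        rw [hσ1] at hσ4
        obtain ⟨l', hl', h2⟩ := block_exists hk hke d (4 * k * n) (σ % (4 * k)) hσ2
          (∑ j ∈ Finset.range (4 * k * n), l j • d.e (xs k (j + 1) + 3)) (G σ)
        refine ⟨fun j => if j < 4 * k * n then l j else l' (j - 4 * k * n), ?_, ?_⟩
        · intro j
          dsimp only
          split_ifs
          · exact hl j
          · exact hl' _
        · intro s hs hs1 hs2
          by_cases hc : s < 4 * k * n
          · rw [← h1 s hc hs1 hs2]
            refine Finset.sum_congr rfl fun j hj => ?_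
            rw [Finset.mem_range] at hj
            dsimp only
            rw [if_pos (by omega)]
          · have hdiv : s / (4 * k) = n := by
              rw [Nat.div_eq_iff (by omega)]
              rw [Nat.mul_add, mul_one] at hs
              rw [mul_comm n]
              omega
            have hsσ : s = σ := by
              refine tok_unique (k := k) (by omega) hke hs1 hσ2 (by rw [hdiv, hσ1]) ?_
              rw [hs2, hσ3, hdiv]
            rw [hsσ, ← h2]
            have e1 : σ + 1 = 4 * k * n + (σ % (4 * k) + 1) := by omega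
            rw [e1, Finset.sum_range_add]
            congr 1
            · refine Finset.sum_congr rfl fun j hj => ?_
              rw [Finset.mem_range] at hj
              dsimp only
              rw [if_pos hj]
            · refine Finset.sum_congr rfl fun j _ => ?_
              dsimp only
              rw [if_neg (by omega), Nat.add_sub_cancel_left]
  obtain ⟨l, hl, h1⟩ := key (T + 1)
  refine ⟨fun s => ∑ j ∈ Finset.range s, l j • d.e (xs k (j + 1) + 3), ?_, ?_⟩
  · intro s
    refine ⟨l s, hl s, ?_⟩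
    dsimp only
    rw [Finset.sum_range_succ]; abel
  · intro s hs h2 h3
    refine h1 s ?_ h2 h3
    have : 1 * (T + 1) ≤ 4 * k * (T + 1) := Nat.mul_le_mul_right _ (by omega)
    omega

end Pool.Agent.H670R2.Sl
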