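import Pool.Agent.H670R2.Plane

/-!
From a realization of the incidence graph to a solution of the system of constraints.
-/

namespace Pool.Agent.H670R2

/-- determinant of three vectors -/
def det3 (a b c : Fin 3 → ℝ) : ℝ :=
  a 0 * (b 1 * c 2 - b 2 * c 1) - a 1 * (b 0 * c 2 - b 2 * c 0) + a 2 * (b 0 * c 1 - b 1 * c 0)

def crs (a b : Fin 3 → ℝ) : Fin 3 → ℝ :=
  ![a 1 * b 2 - a 2 * b 1, a 2 * b 0 - a 0 * b 2, a 0 * b 1 - a 1 * b 0]

theorem crs_ne {a b : Fin 3 → ℝ} (h : NC a b) : crs a b ≠ 0 := by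
  intro h0
  have e0 := congrFun h0 0
  have e1 := congrFun h0 1
  have e2 := congrFun h0 2
  simp only [crs, Matrix.cons_val_zero, Matrix.cons_val_one, Matrix.cons_val, Pi.zero_apply]
    at e0 e1 e2
  exact not_nc_of_minors (by linarith) (by linarith) (by linarith) h

theorem not_nc_crs {a b x : Fin 3 → ℝ} (ha : dot a x = 0) (hb : dot b x = 0) :
    ¬ NC x (crs a b) := by
  simp only [dot] at ha hb
  apply not_nc_of_minors
  · simp only [crs, Matrix.cons_val_zero, Matrix.cons_val_one]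
    linear_combination (- b 2) * ha + a 2 * hb
  · simp only [crs, Matrix.cons_val_zero, Matrix.cons_val]
    linear_combination (b 1) * ha - a 1 * hb
  · simp only [crs, Matrix.cons_val_one, Matrix.cons_val]
    linear_combination (- b 0) * ha + a 0 * hb

theorem not_nc_trans {x y z : Fin 3 → ℝ} (hz : z ≠ 0) (h1 : ¬ NC x z) (h2 : ¬ NC y z) :
    ¬ NC x y := by
  have key : ∀ x : Fin 3 → ℝ, ¬ NC x z → ∃ c : ℝ, x = c • z := by
    intro x hx
    by_contra hc
    push Not at hc
    apply hx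
    refine ⟨hc, fun c h => ?_⟩
    have hc0 : c ≠ 0 := by
      rintro rfl
      exact hz (by simpa using h)
    apply hc c⁻¹
    rw [h, smul_smul, inv_mul_cancel₀ hc0, one_smul]
  obtain ⟨c, rfl⟩ := key x h1
  obtain ⟨d, rfl⟩ := key y h2
  apply not_nc_of_minors <;> simp only [Pi.smul_apply, smul_eq_mul] <;> ring

theorem not_nc_of_perp {a b x y : Fin 3 → ℝ} (hab : NC a b) (hxa : dot a x = 0)
    (hxb : dot b x = 0) (hya : dot a y = 0) (hyb : dot b y = 0) : ¬ NC x y :=
  not_nc_trans (crs_ne hab) (not_nc_crs hxa hxb) (not_nc_crs hya hyb)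

theorem dot_crs (a b c : Fin 3 → ℝ) : dot c (crs a b) = det3 a b c := by
  simp only [dot, crs, det3, Matrix.cons_val_zero, Matrix.cons_val_one, Matrix.cons_val]
  ring

/-- three points `a b c`, a line `l` through `a` and `b`, another line `m` through `a` and `c` -/
theorem det_ne {a b c l m : Fin 3 → ℝ} (hab : NC a b) (hac : NC a c) (hla : dot a l = 0)
    (hlb : dot b l = 0) (hma : dot a m = 0) (hmc : dot c m = 0) (hlm : NC l m) :
    det3 a b c ≠ 0 := by
  intro h
  have h1 : ¬ NC l (crs a b) := not_nc_crs hla hlb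
  have hlc : dot c l = 0 := by
    have hc0 := crs_ne hab
    have : ∃ k : ℝ, l = k • crs a b := by
      by_contra hc
      push Not at hc
      apply h1
      refine ⟨hc, fun k hk => ?_⟩
      have hk0 : k ≠ 0 := by
        rintro rfl
        exact hc0 (by simpa using hk)
      apply hc k⁻¹
      rw [hk, smul_smul, inv_mul_cancel₀ hk0, one_smul]
    obtain ⟨k, hk⟩ := this
    have e : dot c (k • crs a b) = k * dot c (crs a b) := by
      simp only [dot, Pi.smul_apply, smul_eq_mul]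
      ring
    rw [hk, e, dot_crs, h, mul_zero]
  exact not_nc_of_perp hac hla hlc hma hmc hlm

/-- normalized coordinates of points -/
noncomputable def nP (O H V E : Fin 3 → ℝ) (p : Fin 3 → ℝ) : Fin 3 → ℝ :=
  ![det3 p H V / det3 E H V, det3 O p V / det3 O E V, det3 O H p / det3 O H E]

/-- normalized coordinates of lines -/
noncomputable def nL (O H V E : Fin 3 → ℝ) (l : Fin 3 → ℝ) : Fin 3 → ℝ :=
  ![det3 E H V * dot O l, det3 O E V * dot H l, det3 O H E * dot V l]

section
variable {O H V E : Fin 3 → ℝ} (h1 : det3 E H V ≠ 0) (h2 : det3 O E V ≠ 0) (h3 : det3 O H E ≠ 0)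
include h1 h2 h3

theorem dot_nP_nL (p l : Fin 3 → ℝ) : dot (nP O H V E p) (nL O H V E l) = det3 O H V * dot p l := by
  simp only [nP, nL]
  rw [dot]
  simp only [Matrix.cons_val_zero, Matrix.cons_val_one, Matrix.cons_val]
  field_simp
  simp only [dot, det3]
  ring

theorem nP_recover (p : Fin 3 → ℝ) (i : Fin 3) : det3 O H V * p i =
    det3 E H V * nP O H V E p 0 * O i + det3 O E V * nP O H V E p 1 * H i +
      det3 O H E * nP O H V E p 2 * V i := by
  simp only [nP, Matrix.cons_val_zero, Matrix.cons_val_one, Matrix.cons_val]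
  field_simp
  simp only [det3]
  fin_cases i
  · simp only [Fin.zero_eta]; ring
  · simp only [Fin.mk_one]; ring
  · simp only [Fin.reduceFinMk]; ring

theorem nL_recover (l : Fin 3 → ℝ) (i : Fin 3) : det3 O H V * l i =
    nL O H V E l 0 / det3 E H V * crs H V i + nL O H V E l 1 / det3 O E V * crs V O i +
      nL O H V E l 2 / det3 O H E * crs O H i := by
  simp only [nL, Matrix.cons_val_zero, Matrix.cons_val_one, Matrix.cons_val]
  field_simp
  simp only [det3, crs, dot]
  fin_cases i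
  · simp; ring
  · simp; ring
  · simp; ring

theorem nc_nP (h0 : det3 O H V ≠ 0) {p q : Fin 3 → ℝ} (h : NC p q) :
    NC (nP O H V E p) (nP O H V E q) := by
  have key : ∀ p q : Fin 3 → ℝ, (∀ k : ℝ, p ≠ k • q) → ∀ k : ℝ,
      nP O H V E p ≠ k • nP O H V E q := by
    intro p q h k hk
    apply h k
    ext i
    have e := nP_recover h1 h2 h3 p i
    have e' := nP_recover h1 h2 h3 q i
    rw [hk] at e
    simp only [Pi.smul_apply, smul_eq_mul] at e ⊢
    apply mul_left_cancel₀ h0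
    linear_combination e - k * e'
  exact ⟨key p q h.1, key q p h.2⟩

theorem nc_nL (h0 : det3 O H V ≠ 0) {p q : Fin 3 → ℝ} (h : NC p q) :
    NC (nL O H V E p) (nL O H V E q) := by
  have key : ∀ p q : Fin 3 → ℝ, (∀ k : ℝ, p ≠ k • q) → ∀ k : ℝ,
      nL O H V E p ≠ k • nL O H V E q := by
    intro p q h k hk
    apply h k
    ext i
    have e := nL_recover h1 h2 h3 p i
    have e' := nL_recover h1 h2 h3 q i
    rw [hk] at e
    simp only [Pi.smul_apply, smul_eq_mul] at e ⊢
    apply mul_left_cancel₀ h0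
    linear_combination e - k * e'
  exact ⟨key p q h.1, key q p h.2⟩

end

/-- the constraints only mention indices below `K` -/
def CBelow (K : ℕ) (cs : List Cst) : Prop := ∀ c ∈ cs, c.i < K ∧ c.j < K ∧ c.k < K ∧ c.l < K

/-- solution from normalized coordinates -/
theorem sat_of_normal {K : ℕ} {cs : List Cst} (hK : 3 ≤ K) (hcs : CBelow K cs)
    (Q : Vx → Fin 3 → ℝ)
    (hQ : ∀ u v : Vx, u.below K → v.below K → u ≠ v → (u.isPt ↔ v.isPt) → NC (Q u) (Q v))
    (hI : ∀ u v : Vx, Inc K cs u v → dot (Q u) (Q v) = 0)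
    {a b c : ℝ} (hO : Q (.pt 0 0) = ![a, 0, 0]) (hH : Q (.pS 0) = ![0, b, 0])
    (hV : Q .pV = ![0, 0, c]) (hE : Q (.pt 2 1) = ![1, 1, 1]) :
    ∃ w : ℕ → ℝ, Sat w cs := by
  have k0 : 0 < K := by omega
  have k1 : 1 < K := by omega
  have k2 : 2 < K := by omega
  have nz : ∀ x : Fin 3 → ℝ, x ≠ 0 → x 0 ≠ 0 ∨ x 1 ≠ 0 ∨ x 2 ≠ 0 := by
    intro x hx
    by_contra hc
    push Not at hc
    apply hx
    ext i
    fin_cases i
    · exact hc.1
    · exact hc.2.1
    · exact hc.2.2
  -- all vectors are nonzero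
  have hp : ∀ u : Vx, u.below K → Q u ≠ 0 := by
    intro u hu
    by_cases h : u.isPt
    · by_cases h' : u = .pV
      · subst h'
        exact (hQ .pV (.pS 0) (by simp [Vx.below]) (by simp [Vx.below, k0]) (by simp)
          (by simp [Vx.isPt])).left_ne
      · exact (hQ u .pV hu (by simp [Vx.below]) h' ⟨fun _ => trivial, fun _ => h⟩).left_ne
    · by_cases h' : u = .lI
      · subst h'
        exact (hQ .lI (.lv 0) (by simp [Vx.below]) (by simp [Vx.below, k0]) (by simp)
          (by simp [Vx.isPt])).left_ne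
      · exact (hQ u .lI hu (by simp [Vx.below]) h'
          ⟨fun h0 => absurd h0 h, fun h0 => h0.elim⟩).left_ne
  have ha : a ≠ 0 := by
    have := nz _ (hp (.pt 0 0) (by simp [Vx.below, k0]))
    simpa [hO] using this
  have hb : b ≠ 0 := by
    have := nz _ (hp (.pS 0) (by simp [Vx.below, k0]))
    simpa [hH] using this
  have hc : c ≠ 0 := by
    have := nz _ (hp .pV (by simp [Vx.below]))
    simpa [hV] using this
  -- the line at infinity
  have hlI1 : Q .lI 1 = 0 := by
    have := hI _ _ (Inc.e2 (cs := cs) 0 k0)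
    simp only [dot, hH, Matrix.cons_val_zero, Matrix.cons_val_one, Matrix.cons_val] at this
    simpa [hb] using this
  have hlI2 : Q .lI 2 = 0 := by
    have := hI _ _ (Inc.e1 (K := K) (cs := cs))
    simp only [dot, hV, Matrix.cons_val_zero, Matrix.cons_val_one, Matrix.cons_val] at this
    simpa [hc] using this
  have hlI0 : Q .lI 0 ≠ 0 := by
    have := nz _ (hp .lI (by simp [Vx.below]))
    simpa [hlI1, hlI2] using this
  -- vertical lines
  have hlv2 : ∀ i, i < K → Q (.lv i) 2 = 0 := by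
    intro i hi
    have := hI _ _ (Inc.e3 (cs := cs) i hi)
    simp only [dot, hV, Matrix.cons_val_zero, Matrix.cons_val_one, Matrix.cons_val] at this
    simpa [hc] using this
  have hlv00 : Q (.lv 0) 0 = 0 := by
    have := hI _ _ (Inc.e4 (cs := cs) 0 0 k0 k0)
    simp only [dot, hO, Matrix.cons_val_zero, Matrix.cons_val_one, Matrix.cons_val] at this
    simpa [ha] using this
  have hlv01 : Q (.lv 0) 1 ≠ 0 := by
    have := nz _ (hp (.lv 0) (by simp [Vx.below, k0]))
    simpa [hlv00, hlv2 0 k0] using this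
  -- the points on the `y`-axis
  have hy1 : ∀ i, i < K → Q (.pt 0 i) 1 = 0 := by
    intro i hi
    have := hI _ _ (Inc.e4 (cs := cs) 0 i k0 hi)
    simp only [dot, hlv00, hlv2 0 k0] at this
    simpa [hlv01] using this
  have hy0 : ∀ i, i < K → Q (.pt 0 i) 0 ≠ 0 := by
    intro i hi h
    have hnc := hQ (.pt 0 i) .pV (by simp [Vx.below, k0, hi]) (by simp [Vx.below]) (by simp)
      (by simp [Vx.isPt])
    refine not_nc_of_minors ?_ ?_ ?_ hnc
    · rw [hV, h, hy1 i hi]; simp
    · rw [hV, h]; simp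
    · rw [hV, hy1 i hi]; simp
  -- the values
  let w : ℕ → ℝ := fun i => Q (.pt 0 i) 2 / Q (.pt 0 i) 0
  have hw : ∀ i, i < K → Q (.pt 0 i) 2 = w i * Q (.pt 0 i) 0 := by
    intro i hi
    have := hy0 i hi
    simp only [w]
    field_simp
  have w0 : w 0 = 0 := by simp [w, hO]
  -- horizontal lines
  have hh1 : ∀ i, i < K → Q (.ob i 0) 1 = 0 := by
    intro i hi
    have := hI _ _ (Inc.e5 (cs := cs) i 0 hi k0)
    simp only [dot, hH, Matrix.cons_val_zero, Matrix.cons_val_one, Matrix.cons_val] at this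
    simpa [hb] using this
  have hh0 : ∀ i, i < K → Q (.ob i 0) 0 = - (w i) * Q (.ob i 0) 2 := by
    intro i hi
    have := hI _ _ (Inc.e7 (cs := cs) i 0 hi k0)
    simp only [dot, hy1 i hi, hw i hi] at this
    have h' : Q (.pt 0 i) 0 * (Q (.ob i 0) 0 + w i * Q (.ob i 0) 2) = 0 := by linarith
    have := (mul_eq_zero.1 h').resolve_left (hy0 i hi)
    linarith
  have hh2 : ∀ i, i < K → Q (.ob i 0) 2 ≠ 0 := by
    intro i hi h
    have := nz _ (hp (.ob i 0) (by simp [Vx.below, k0, hi]))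
    rw [hh0 i hi, hh1 i hi, h] at this
    simp at this
  -- the line `X = 1`
  have hl2 : Q (.lv 2) 0 = - Q (.lv 2) 1 := by
    have := hI _ _ (Inc.e4 (cs := cs) 2 1 k2 k1)
    simp only [dot, hE, hlv2 2 k2, Matrix.cons_val_zero, Matrix.cons_val_one,
      Matrix.cons_val] at this
    linarith
  have hl21 : Q (.lv 2) 1 ≠ 0 := by
    intro h
    have := nz _ (hp (.lv 2) (by simp [Vx.below, k2]))
    rw [hl2, h, hlv2 2 k2] at this
    simp at this
  -- points on this line
  have hu1 : ∀ i, i < K → Q (.pt 2 i) 1 = Q (.pt 2 i) 0 := by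
    intro i hi
    have := hI _ _ (Inc.e4 (cs := cs) 2 i k2 hi)
    simp only [dot, hl2, hlv2 2 k2] at this
    have h' : Q (.lv 2) 1 * (Q (.pt 2 i) 1 - Q (.pt 2 i) 0) = 0 := by linarith
    have := (mul_eq_zero.1 h').resolve_left hl21
    linarith
  have hu2 : ∀ i, i < K → Q (.pt 2 i) 2 = w i * Q (.pt 2 i) 0 := by
    intro i hi
    have := hI _ _ (Inc.e6 (cs := cs) 2 i k2 hi)
    simp only [dot, hh0 i hi, hh1 i hi] at this
    have h' : Q (.ob i 0) 2 * (Q (.pt 2 i) 2 - w i * Q (.pt 2 i) 0) = 0 := by linarith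
    have := (mul_eq_zero.1 h').resolve_left (hh2 i hi)
    linarith
  have hu0 : ∀ i, i < K → Q (.pt 2 i) 0 ≠ 0 := by
    intro i hi h
    have := nz _ (hp (.pt 2 i) (by simp [Vx.below, k2, hi]))
    rw [hu1 i hi, hu2 i hi, h] at this
    simp at this
  have w1 : w 1 = 1 := by
    have := hu2 1 k1
    simp [hE] at this
    linarith
  -- lines through the origin
  have hg0 : ∀ i, i < K → Q (.ob 0 i) 0 = 0 := by
    intro i hi
    have := hI _ _ (Inc.e7 (cs := cs) 0 i k0 hi)
    simp only [dot, hO, Matrix.cons_val_zero, Matrix.cons_val_one, Matrix.cons_val] at this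
    simpa [ha] using this
  have hg1 : ∀ i, i < K → Q (.ob 0 i) 1 = - (w i) * Q (.ob 0 i) 2 := by
    intro i hi
    have := hI _ _ (Inc.e8 (cs := cs) i hi)
    simp only [dot, hg0 i hi, hu1 i hi, hu2 i hi] at this
    have h' : Q (.pt 2 i) 0 * (Q (.ob 0 i) 1 + w i * Q (.ob 0 i) 2) = 0 := by linarith
    have := (mul_eq_zero.1 h').resolve_left (hu0 i hi)
    linarith
  have hg2 : ∀ i, i < K → Q (.ob 0 i) 2 ≠ 0 := by
    intro i hi h
    have := nz _ (hp (.ob 0 i) (by simp [Vx.below, k0, hi]))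
    rw [hg0 i hi, hg1 i hi, h] at this
    simp at this
  -- points at infinity
  have hs0 : ∀ i, i < K → Q (.pS i) 0 = 0 := by
    intro i hi
    have := hI _ _ (Inc.e2 (cs := cs) i hi)
    simp only [dot, hlI1, hlI2] at this
    simpa [hlI0] using this
  have hs2 : ∀ i, i < K → Q (.pS i) 2 = w i * Q (.pS i) 1 := by
    intro i hi
    have := hI _ _ (Inc.e5 (cs := cs) 0 i k0 hi)
    simp only [dot, hs0 i hi, hg1 i hi] at this
    have h' : Q (.ob 0 i) 2 * (Q (.pS i) 2 - w i * Q (.pS i) 1) = 0 := by linarith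
    have := (mul_eq_zero.1 h').resolve_left (hg2 i hi)
    linarith
  have hs1 : ∀ i, i < K → Q (.pS i) 1 ≠ 0 := by
    intro i hi h
    have := nz _ (hp (.pS i) (by simp [Vx.below, hi]))
    rw [hs0 i hi, hs2 i hi, h] at this
    simp at this
  -- general oblique lines
  have ho1 : ∀ l j, l < K → j < K → Q (.ob l j) 1 = - (w j) * Q (.ob l j) 2 := by
    intro l j hl hj
    have := hI _ _ (Inc.e5 (cs := cs) l j hl hj)
    simp only [dot, hs0 j hj, hs2 j hj] at this
    have h' : Q (.pS j) 1 * (Q (.ob l j) 1 + w j * Q (.ob l j) 2) = 0 := by linarith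
    have := (mul_eq_zero.1 h').resolve_left (hs1 j hj)
    linarith
  have ho0 : ∀ l j, l < K → j < K → Q (.ob l j) 0 = - (w l) * Q (.ob l j) 2 := by
    intro l j hl hj
    have := hI _ _ (Inc.e7 (cs := cs) l j hl hj)
    simp only [dot, hy1 l hl, hw l hl] at this
    have h' : Q (.pt 0 l) 0 * (Q (.ob l j) 0 + w l * Q (.ob l j) 2) = 0 := by linarith
    have := (mul_eq_zero.1 h').resolve_left (hy0 l hl)
    linarith
  have ho2 : ∀ l j, l < K → j < K → Q (.ob l j) 2 ≠ 0 := by
    intro l j hl hj h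
    have := nz _ (hp (.ob l j) (by simp [Vx.below, hl, hj]))
    rw [ho0 l j hl hj, ho1 l j hl hj, h] at this
    simp at this
  -- points on the `x`-axis
  have hx2 : ∀ i, i < K → Q (.pt i 0) 2 = 0 := by
    intro i hi
    have := hI _ _ (Inc.e6 (cs := cs) i 0 hi k0)
    simp only [dot, hh0 0 k0, hh1 0 k0, w0] at this
    have h' : Q (.ob 0 0) 2 * Q (.pt i 0) 2 = 0 := by linarith
    exact (mul_eq_zero.1 h').resolve_left (hh2 0 k0)
  have hx1 : ∀ i, i < K → Q (.pt i 0) 1 = - (w i) * Q (.pt i 0) 0 := by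
    intro i hi
    have := hI _ _ (Inc.e9 (cs := cs) i hi)
    simp only [dot, hx2 i hi, ho0 i 1 hi k1, ho1 i 1 hi k1, w1] at this
    have h' : Q (.ob i 1) 2 * (Q (.pt i 0) 1 + w i * Q (.pt i 0) 0) = 0 := by linarith
    have := (mul_eq_zero.1 h').resolve_left (ho2 i 1 hi k1)
    linarith
  have hx0 : ∀ i, i < K → Q (.pt i 0) 0 ≠ 0 := by
    intro i hi h
    have := nz _ (hp (.pt i 0) (by simp [Vx.below, hi, k0]))
    rw [hx1 i hi, hx2 i hi, h] at this
    simp at this
  -- vertical lines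
  have hv0 : ∀ i, i < K → Q (.lv i) 0 = w i * Q (.lv i) 1 := by
    intro i hi
    have := hI _ _ (Inc.e4 (cs := cs) i 0 hi k0)
    simp only [dot, hx1 i hi, hx2 i hi] at this
    have h' : Q (.pt i 0) 0 * (Q (.lv i) 0 - w i * Q (.lv i) 1) = 0 := by linarith
    have := (mul_eq_zero.1 h').resolve_left (hx0 i hi)
    linarith
  have hv1 : ∀ i, i < K → Q (.lv i) 1 ≠ 0 := by
    intro i hi h
    have := nz _ (hp (.lv i) (by simp [Vx.below, hi]))
    rw [hv0 i hi, hlv2 i hi, h] at this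
    simp at this
  have w2 : w 2 = -1 := by
    have := hv0 2 k2
    rw [hl2] at this
    have h' : Q (.lv 2) 1 * (w 2 + 1) = 0 := by linarith
    have := (mul_eq_zero.1 h').resolve_left (hv1 2 k2)
    linarith
  -- general points
  have hq1 : ∀ i k, i < K → k < K → Q (.pt i k) 1 = - (w i) * Q (.pt i k) 0 := by
    intro i k hi hk
    have := hI _ _ (Inc.e4 (cs := cs) i k hi hk)
    simp only [dot, hv0 i hi, hlv2 i hi] at this
    have h' : Q (.lv i) 1 * (Q (.pt i k) 1 + w i * Q (.pt i k) 0) = 0 := by linarith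
    have := (mul_eq_zero.1 h').resolve_left (hv1 i hi)
    linarith
  have hq2 : ∀ i k, i < K → k < K → Q (.pt i k) 2 = w k * Q (.pt i k) 0 := by
    intro i k hi hk
    have := hI _ _ (Inc.e6 (cs := cs) i k hi hk)
    simp only [dot, hh0 k hk, hh1 k hk] at this
    have h' : Q (.ob k 0) 2 * (Q (.pt i k) 2 - w k * Q (.pt i k) 0) = 0 := by linarith
    have := (mul_eq_zero.1 h').resolve_left (hh2 k hk)
    linarith
  have hq0 : ∀ i k, i < K → k < K → Q (.pt i k) 0 ≠ 0 := by
    intro i k hi hk h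
    have := nz _ (hp (.pt i k) (by simp [Vx.below, hi, hk]))
    rw [hq1 i k hi hk, hq2 i k hi hk, h] at this
    simp at this
  refine ⟨w, w0, w1, w2, ?_⟩
  intro d hd
  obtain ⟨hi, hj, hk, hl⟩ := hcs d hd
  have := hI _ _ (Inc.e10 (K := K) d hd)
  simp only [dot, hq1 _ _ hi hk, hq2 _ _ hi hk, ho0 _ _ hl hj, ho1 _ _ hl hj] at this
  have h' : Q (.pt d.i d.k) 0 * (Q (.ob d.l d.j) 2 *
      (w d.l - (w d.i * w d.j + w d.k))) = 0 := by linarith
  have h2 := (mul_eq_zero.1 h').resolve_left (hq0 _ _ hi hk)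
  have h3 := (mul_eq_zero.1 h2).resolve_left (ho2 _ _ hl hj)
  linarith

/-- a realization of the incidence graph gives a solution of the constraints -/
theorem sat_of_rep {K : ℕ} {cs : List Cst} (hK : 3 ≤ K) (hcs : CBelow K cs)
    (P : Vx → Fin 3 → ℝ)
    (hP : ∀ u v : Vx, u.below K → v.below K → u ≠ v → NC (P u) (P v))
    (hI : ∀ u v : Vx, Inc K cs u v → dot (P u) (P v) = 0) :
    ∃ w : ℕ → ℝ, Sat w cs := by
  classical
  have k0 : 0 < K := by omega
  have k1 : 1 < K := by omega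
  have k2 : 2 < K := by omega
  have bV : Vx.below K .pV := by simp [Vx.below]
  have bO : Vx.below K (.pt 0 0) := by simp [Vx.below, k0]
  have bH : Vx.below K (.pS 0) := by simp [Vx.below, k0]
  have bE : Vx.below K (.pt 2 1) := by simp [Vx.below, k1, k2]
  have blI : Vx.below K .lI := by simp [Vx.below]
  have blv0 : Vx.below K (.lv 0) := by simp [Vx.below, k0]
  have blv2 : Vx.below K (.lv 2) := by simp [Vx.below, k2]
  have bob00 : Vx.below K (.ob 0 0) := by simp [Vx.below, k0]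
  have bob10 : Vx.below K (.ob 1 0) := by simp [Vx.below, k0, k1]
  have bob01 : Vx.below K (.ob 0 1) := by simp [Vx.below, k0, k1]
  -- general position of the frame
  have d0 : det3 (P (.pt 0 0)) (P (.pS 0)) (P .pV) ≠ 0 :=
    det_ne (l := P (.ob 0 0)) (m := P (.lv 0)) (hP _ _ bO bH (by simp))
      (hP _ _ bO bV (by simp)) (hI _ _ (Inc.e6 0 0 k0 k0)) (hI _ _ (Inc.e5 0 0 k0 k0))
      (hI _ _ (Inc.e4 0 0 k0 k0)) (hI _ _ (Inc.e3 0 k0)) (hP _ _ bob00 blv0 (by simp))
  have d3 : det3 (P (.pt 0 0)) (P (.pS 0)) (P (.pt 2 1)) ≠ 0 :=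
    det_ne (l := P (.ob 0 0)) (m := P (.ob 0 1)) (hP _ _ bO bH (by simp))
      (hP _ _ bO bE (by simp)) (hI _ _ (Inc.e6 0 0 k0 k0)) (hI _ _ (Inc.e5 0 0 k0 k0))
      (hI _ _ (Inc.e7 0 1 k0 k1)) (hI _ _ (Inc.e8 1 k1)) (hP _ _ bob00 bob01 (by simp))
  have d1' : det3 (P .pV) (P (.pS 0)) (P (.pt 2 1)) ≠ 0 :=
    det_ne (l := P .lI) (m := P (.lv 2)) (hP _ _ bV bH (by simp))
      (hP _ _ bV bE (by simp)) (hI _ _ Inc.e1) (hI _ _ (Inc.e2 0 k0))
      (hI _ _ (Inc.e3 2 k2)) (hI _ _ (Inc.e4 2 1 k2 k1)) (hP _ _ blI blv2 (by simp))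
  have d2' : det3 (P .pV) (P (.pt 0 0)) (P (.pt 2 1)) ≠ 0 :=
    det_ne (l := P (.lv 0)) (m := P (.lv 2)) (hP _ _ bV bO (by simp))
      (hP _ _ bV bE (by simp)) (hI _ _ (Inc.e3 0 k0)) (hI _ _ (Inc.e4 0 0 k0 k0))
      (hI _ _ (Inc.e3 2 k2)) (hI _ _ (Inc.e4 2 1 k2 k1)) (hP _ _ blv0 blv2 (by simp))
  have d1 : det3 (P (.pt 2 1)) (P (.pS 0)) (P .pV) ≠ 0 := by
    intro h
    apply d1'
    simp only [det3] at h ⊢
    linarith
  have d2 : det3 (P (.pt 0 0)) (P (.pt 2 1)) (P .pV) ≠ 0 := by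
    intro h
    apply d2'
    simp only [det3] at h ⊢
    linarith
  let Q : Vx → Fin 3 → ℝ := fun v =>
    if v.isPt then nP (P (.pt 0 0)) (P (.pS 0)) (P .pV) (P (.pt 2 1)) (P v)
    else nL (P (.pt 0 0)) (P (.pS 0)) (P .pV) (P (.pt 2 1)) (P v)
  refine sat_of_normal hK hcs Q ?_ ?_
    (a := det3 (P (.pt 0 0)) (P (.pS 0)) (P .pV) / det3 (P (.pt 2 1)) (P (.pS 0)) (P .pV))
    (b := det3 (P (.pt 0 0)) (P (.pS 0)) (P .pV) / det3 (P (.pt 0 0)) (P (.pt 2 1)) (P .pV))
    (c := det3 (P (.pt 0 0)) (P (.pS 0)) (P .pV) / det3 (P (.pt 0 0)) (P (.pS 0)) (P (.pt 2 1)))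
    ?_ ?_ ?_ ?_
  · intro u v hu hv huv hs
    by_cases h : u.isPt
    · have h' := hs.1 h
      simp only [Q, h, h', if_true]
      exact nc_nP d1 d2 d3 d0 (hP u v hu hv huv)
    · have h' : ¬ v.isPt := fun h' => h (hs.2 h')
      simp only [Q, h, h', if_false]
      exact nc_nL d1 d2 d3 d0 (hP u v hu hv huv)
  · intro u v huv
    obtain ⟨h, h'⟩ := huv.isPt
    simp only [Q, h, h', if_true, if_false]
    rw [dot_nP_nL d1 d2 d3, hI u v huv, mul_zero]
  · ext i
    fin_cases i
    · simp [Q, Vx.isPt, nP]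
    · simp [Q, Vx.isPt, nP]
      left
      simp only [det3]
      ring
    · simp [Q, Vx.isPt, nP]
      left
      simp only [det3]
      ring
  · ext i
    fin_cases i
    · simp [Q, Vx.isPt, nP]
      left
      simp only [det3]
      ring
    · simp [Q, Vx.isPt, nP]
    · simp [Q, Vx.isPt, nP]
      left
      simp only [det3]
      ring
  · ext i
    fin_cases i
    · simp [Q, Vx.isPt, nP]
      left
      simp only [det3]
      ring
    · simp [Q, Vx.isPt, nP]
      left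
      simp only [det3]
      ring
    · simp [Q, Vx.isPt, nP]
  · ext i
    fin_cases i
    · simp [Q, Vx.isPt, nP, d1]
    · simp [Q, Vx.isPt, nP, d2]
    · simp [Q, Vx.isPt, nP, d3]

end Pool.Agent.H670R2
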